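import Pool.Agent.LQZ.Base

/-! # Project LQZ, module ATR: abstract trace lemma -/

open Filter Topology

namespace LQZ

section ATR

set_option linter.unusedSectionVars false

variable {H : Type*} [NormedAddCommGroup H] [InnerProductSpace ℝ H] [CompleteSpace H] {ι : Type*}

private theorem atr_summable_repr (b : HilbertBasis ι ℝ H) (f : H) :
    Summable (fun i => (inner ℝ f (b i) : ℝ) ^ 2) ∧ ∑' i, (inner ℝ f (b i) : ℝ) ^ 2 = ‖f‖ ^ 2 := by
  have h := b.hasSum_inner_mul_inner f f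
  have h2 : (fun i => (inner ℝ f (b i) : ℝ) * inner ℝ (b i) f) =
      fun i => (inner ℝ f (b i) : ℝ) ^ 2 := by
    ext i
    rw [real_inner_comm f (b i)]; ring
  rw [h2, real_inner_self_eq_norm_sq] at h
  exact ⟨h.summable, h.tsum_eq⟩

private theorem atr_ext (b : HilbertBasis ι ℝ H) {u v : H}
    (h : ∀ i, (inner ℝ u (b i) : ℝ) = inner ℝ v (b i)) : u = v := by
  have h1 := (atr_summable_repr b (u - v)).2
  have h2 : (fun i => (inner ℝ (u - v) (b i) : ℝ) ^ 2) = fun _ => 0 := by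
    ext i
    rw [inner_sub_left, h i, sub_self]; ring
  rw [h2, tsum_zero] at h1
  have h3 : ‖u - v‖ = 0 := by
    have : ‖u - v‖ ^ 2 = 0 := h1.symm
    exact pow_eq_zero_iff (two_ne_zero) |>.1 this
  exact sub_eq_zero.1 (norm_eq_zero.1 h3)

private theorem atr_diag (b : HilbertBasis ι ℝ H) (r : ι → ℝ) {B : ℝ} (hB : 0 ≤ B)
    (hr : ∀ i, |r i| ≤ B) :
    ∃ R : H →L[ℝ] H, ‖R‖ ≤ B ∧ ∀ f i, (inner ℝ (R f) (b i) : ℝ) = r i * inner ℝ f (b i) := by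
  have hmem : ∀ f : H, Memℓp (fun i => r i * b.repr f i) 2 := by
    intro f
    have h1 : Memℓp (fun i => B * ‖b.repr f i‖) 2 :=
      ((memℓp_norm_iff.2 (lp.memℓp (b.repr f))).const_mul B)
    refine h1.mono fun i => ?_
    rw [norm_mul, Real.norm_eq_abs (r i)]
    exact mul_le_mul_of_nonneg_right (hr i) (norm_nonneg _)
  have hnorm : ∀ f : H, ‖(⟨fun i => r i * b.repr f i, hmem f⟩ : lp (fun _ : ι => ℝ) 2)‖ ≤
      B * ‖f‖ := by
    intro f
    refine lp.norm_le_of_forall_sum_le (by norm_num) (by positivity) fun s => ?_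
    have hp : (2 : ENNReal).toReal = 2 := by norm_num
    rw [hp]
    have h1 : ∑ i ∈ s, ‖b.repr f i‖ ^ (2 : ℝ) ≤ ‖b.repr f‖ ^ (2 : ℝ) := by
      have := lp.sum_rpow_le_norm_rpow (p := 2) (by norm_num) (b.repr f) s
      rwa [hp] at this
    rw [LinearIsometryEquiv.norm_map] at h1
    calc ∑ i ∈ s, ‖r i * b.repr f i‖ ^ (2 : ℝ)
        ≤ ∑ i ∈ s, B ^ (2 : ℝ) * ‖b.repr f i‖ ^ (2 : ℝ) := by
          refine Finset.sum_le_sum fun i _ => ?_
          rw [norm_mul, Real.mul_rpow (norm_nonneg _) (norm_nonneg _)]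
          refine mul_le_mul_of_nonneg_right ?_ (by positivity)
          exact Real.rpow_le_rpow (norm_nonneg _) (by rw [Real.norm_eq_abs]; exact hr i)
            (by norm_num)
      _ = B ^ (2 : ℝ) * ∑ i ∈ s, ‖b.repr f i‖ ^ (2 : ℝ) := by rw [Finset.mul_sum]
      _ ≤ B ^ (2 : ℝ) * ‖f‖ ^ (2 : ℝ) := mul_le_mul_of_nonneg_left h1 (by positivity)
      _ = (B * ‖f‖) ^ (2 : ℝ) := by rw [Real.mul_rpow hB (norm_nonneg _)]
  let L : H →ₗ[ℝ] H :=
    { toFun := fun f => b.repr.symm ⟨fun i => r i * b.repr f i, hmem f⟩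
      map_add' := by
        intro f g
        rw [← map_add]
        congr 1
        apply lp.ext
        ext i
        simp only [map_add, lp.coeFn_add, Pi.add_apply, mul_add]
      map_smul' := by
        intro c f
        rw [RingHom.id_apply, ← map_smul]
        congr 1
        apply lp.ext
        ext i
        simp only [map_smul, lp.coeFn_smul, Pi.smul_apply, smul_eq_mul]
        first | done | ring }
  refine ⟨L.mkContinuous B fun f => ?_, L.mkContinuous_norm_le hB _, fun f i => ?_⟩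
  · change ‖b.repr.symm _‖ ≤ _
    rw [LinearIsometryEquiv.norm_map]
    exact hnorm f
  · change (inner ℝ (b.repr.symm ⟨fun i => r i * b.repr f i, hmem f⟩) (b i) : ℝ) = _
    rw [real_inner_comm, ← b.repr_apply_apply, LinearIsometryEquiv.apply_symm_apply]
    change r i * b.repr f i = _
    rw [b.repr_apply_apply, real_inner_comm]

private theorem atr_cs {a c : ι → ℝ} (ha : ∀ i, 0 ≤ a i) (hc : ∀ i, 0 ≤ c i) {A C : ℝ}
    (hA : 0 ≤ A) (hC : 0 ≤ C) (h1 : Summable fun i => a i ^ 2) (h1' : ∑' i, a i ^ 2 ≤ A ^ 2)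
    (h2 : Summable fun i => c i ^ 2) (h2' : ∑' i, c i ^ 2 ≤ C ^ 2) :
    Summable (fun i => a i * c i) ∧ ∑' i, a i * c i ≤ A * C := by
  have hpq : (2 : ℝ).HolderConjugate 2 := Real.HolderConjugate.two_two
  have e1 : (fun i => a i ^ (2 : ℝ)) = fun i => a i ^ 2 := by ext i; norm_num
  have e2 : (fun i => c i ^ (2 : ℝ)) = fun i => c i ^ 2 := by ext i; norm_num
  have h := Real.summable_and_inner_le_Lp_mul_Lq_tsum_of_nonneg hpq ha hc (by rw [e1]; exact h1)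
    (by rw [e2]; exact h2)
  refine ⟨h.1, h.2.trans ?_⟩
  rw [e1, e2]
  have k1 : (∑' i, a i ^ 2) ^ (1 / 2 : ℝ) ≤ A := by
    rw [← Real.sqrt_eq_rpow]
    exact Real.sqrt_le_iff.2 ⟨hA, h1'⟩
  have k2 : (∑' i, c i ^ 2) ^ (1 / 2 : ℝ) ≤ C := by
    rw [← Real.sqrt_eq_rpow]
    exact Real.sqrt_le_iff.2 ⟨hC, h2'⟩
  exact mul_le_mul k1 k2 (by positivity) hA

theorem abs_trace (b : HilbertBasis ι ℝ H) (lam : ι → ℝ) (hlam : ∀ i, 0 ≤ lam i) {z : ℝ}
    (hz : 0 < z) (P E M E2 : H →L[ℝ] H)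
    (hP : ∀ f i, (lam i + z) * (inner ℝ (P f) (b i) : ℝ) = inner ℝ (f + E f) (b i))
    (hM : ∀ f i, (lam i + z) * (inner ℝ (M f) (b i) : ℝ) = inner ℝ (P f + E2 f) (b i))
    {sP sE sM sE2 oE : ℝ} (hsP : 0 ≤ sP) (hsE : 0 ≤ sE) (hsM : 0 ≤ sM) (hsE2 : 0 ≤ sE2)
    (hoE : ‖E‖ ≤ oE)
    (h1 : Summable fun i => ‖P (b i)‖ ^ 2) (h1' : ∑' i, ‖P (b i)‖ ^ 2 ≤ sP ^ 2)
    (h2 : Summable fun i => ‖E (b i)‖ ^ 2) (h2' : ∑' i, ‖E (b i)‖ ^ 2 ≤ sE ^ 2)
    (h3 : Summable fun i => ‖M (b i)‖ ^ 2) (h3' : ∑' i, ‖M (b i)‖ ^ 2 ≤ sM ^ 2)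
    (h4 : Summable fun i => ‖E2 (b i)‖ ^ 2) (h4' : ∑' i, ‖E2 (b i)‖ ^ 2 ≤ sE2 ^ 2) :
    Summable (fun i => 1 / (lam i + z) ^ 2) ∧
    |∑' i, 1 / (lam i + z) ^ 2 -
      (∑' i, ‖P (b i)‖ ^ 2 - 2 * ∑' i, (inner ℝ (M (b i)) (E (b i)) : ℝ))| ≤
      z⁻¹ ^ 2 * sE ^ 2 + 2 * (z⁻¹ * sP * oE * sE + sM * oE * sE + z⁻¹ * sE2 * sE * (1 + oE)) := by
  have hzi : 0 < z⁻¹ := inv_pos.2 hz
  have hpos : ∀ i, 0 < lam i + z := fun i => by have := hlam i; linarith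
  have hoE0 : 0 ≤ oE := (norm_nonneg _).trans hoE
  set r : ι → ℝ := fun i => (lam i + z)⁻¹ with hrdef
  have hr : ∀ i, |r i| ≤ z⁻¹ := by
    intro i
    rw [abs_of_nonneg (inv_nonneg.2 (hpos i).le)]
    exact inv_anti₀ hz (by have := hlam i; linarith)
  obtain ⟨R, hRn, hR⟩ := atr_diag b r hzi.le hr
  have hRle : ∀ f, ‖R f‖ ≤ z⁻¹ * ‖f‖ := fun f => R.le_of_opNorm_le hRn f
  have hEle : ∀ f, ‖E f‖ ≤ oE * ‖f‖ := fun f => E.le_of_opNorm_le hoE f
  -- R is symmetric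
  have hRsymm : ∀ f g, (inner ℝ (R f) g : ℝ) = inner ℝ f (R g) := by
    intro f g
    rw [← b.tsum_inner_mul_inner (R f) g, ← b.tsum_inner_mul_inner f (R g)]
    refine tsum_congr fun i => ?_
    rw [hR f i, real_inner_comm (R g) (b i), hR g i, real_inner_comm g (b i)]
    ring
  have hPR : ∀ f, P f = R (f + E f) := by
    intro f
    refine atr_ext b fun i => ?_
    rw [hR, ← hP f i]
    simp only [hrdef]
    rw [← mul_assoc, inv_mul_cancel₀ (hpos i).ne', one_mul]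
  have hMR : ∀ f, M f = R (P f + E2 f) := by
    intro f
    refine atr_ext b fun i => ?_
    rw [hR, ← hM f i]
    simp only [hrdef]
    rw [← mul_assoc, inv_mul_cancel₀ (hpos i).ne', one_mul]
  have hRb : ∀ i, R (b i) = r i • b i := by
    intro i
    refine atr_ext b fun j => ?_
    rw [hR, inner_smul_left]
    by_cases hij : i = j
    · subst hij; simp
    · have : (inner ℝ (b i) (b j) : ℝ) = 0 := b.orthonormal.2 hij
      rw [this]; simp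
  have hRbn : ∀ i, ‖R (b i)‖ ^ 2 = 1 / (lam i + z) ^ 2 := by
    intro i
    rw [hRb i, norm_smul, b.orthonormal.1 i, mul_one, Real.norm_eq_abs, sq_abs]
    simp only [hrdef]
    rw [inv_pow, one_div]
  -- R b = P b - R E b
  have hRb2 : ∀ i, R (b i) = P (b i) - R (E (b i)) := by
    intro i
    rw [hPR (b i), map_add]; abel
  have hy : ∀ i, ‖R (E (b i))‖ ^ 2 ≤ z⁻¹ ^ 2 * ‖E (b i)‖ ^ 2 := by
    intro i
    rw [← mul_pow]
    exact pow_le_pow_left₀ (norm_nonneg _) (hRle _) 2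
  have hys : Summable fun i => ‖R (E (b i))‖ ^ 2 :=
    Summable.of_nonneg_of_le (fun i => by positivity) hy (h2.mul_left _)
  have hys' : ∑' i, ‖R (E (b i))‖ ^ 2 ≤ z⁻¹ ^ 2 * sE ^ 2 := by
    calc ∑' i, ‖R (E (b i))‖ ^ 2 ≤ ∑' i, z⁻¹ ^ 2 * ‖E (b i)‖ ^ 2 :=
          hys.tsum_le_tsum hy (h2.mul_left _)
      _ = z⁻¹ ^ 2 * ∑' i, ‖E (b i)‖ ^ 2 := tsum_mul_left
      _ ≤ _ := mul_le_mul_of_nonneg_left h2' (by positivity)
  have hxy : Summable fun i => (inner ℝ (P (b i)) (R (E (b i))) : ℝ) := by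
    refine Summable.of_norm_bounded (g := fun i => ‖P (b i)‖ ^ 2 + ‖R (E (b i))‖ ^ 2)
      (h1.add hys) fun i => ?_
    have := norm_inner_le_norm (𝕜 := ℝ) (P (b i)) (R (E (b i)))
    nlinarith [sq_nonneg (‖P (b i)‖ - ‖R (E (b i))‖), sq_nonneg ‖P (b i)‖,
      sq_nonneg ‖R (E (b i))‖]
  have hterm : ∀ i, 1 / (lam i + z) ^ 2 =
      ‖P (b i)‖ ^ 2 - 2 * (inner ℝ (P (b i)) (R (E (b i))) : ℝ) + ‖R (E (b i))‖ ^ 2 := by
    intro i
    rw [← hRbn i, hRb2 i, norm_sub_sq_real]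
  have hsum : Summable fun i => 1 / (lam i + z) ^ 2 := by
    have : Summable fun i => ‖P (b i)‖ ^ 2 - 2 * (inner ℝ (P (b i)) (R (E (b i))) : ℝ) +
        ‖R (E (b i))‖ ^ 2 := (h1.sub (hxy.mul_left 2)).add hys
    exact this.congr fun i => (hterm i).symm
  -- Cauchy-Schwarz sums
  have c1 := atr_cs (fun i => norm_nonneg (P (b i))) (fun i => norm_nonneg (E (b i))) hsP hsE
    h1 h1' h2 h2'
  have c2 := atr_cs (fun i => norm_nonneg (M (b i))) (fun i => norm_nonneg (E (b i))) hsM hsE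
    h3 h3' h2 h2'
  have c3 := atr_cs (fun i => norm_nonneg (E2 (b i))) (fun i => norm_nonneg (E (b i))) hsE2 hsE
    h4 h4' h2 h2'
  have hME : Summable fun i => (inner ℝ (M (b i)) (E (b i)) : ℝ) :=
    Summable.of_norm_bounded c2.1 fun i => norm_inner_le_norm _ _
  -- the difference
  have hd : ∀ i, |(inner ℝ (P (b i)) (R (E (b i))) : ℝ) - inner ℝ (M (b i)) (E (b i))| ≤
      z⁻¹ * oE * (‖P (b i)‖ * ‖E (b i)‖) + oE * (‖M (b i)‖ * ‖E (b i)‖) +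
        z⁻¹ * (1 + oE) * (‖E2 (b i)‖ * ‖E (b i)‖) := by
    intro i
    set e := E (b i) with he
    set p := P (b i) with hp
    have k1 : R e = P e - R (E e) := by rw [hPR e, map_add]; abel
    have k2 : (inner ℝ p (P e) : ℝ) = inner ℝ (R p) (e + E e) := by rw [hPR e, ← hRsymm]
    have k3 : R p = M (b i) - R (E2 (b i)) := by rw [hMR (b i), map_add, hp]; abel
    have k4 : (inner ℝ p (R e) : ℝ) - inner ℝ (M (b i)) e =
        inner ℝ (M (b i)) (E e) - inner ℝ (R (E2 (b i))) (e + E e) - inner ℝ p (R (E e)) := by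
      rw [k1, inner_sub_right, k2, k3, inner_sub_left, inner_add_right (M (b i))]
      ring
    rw [k4]
    have b1 : |(inner ℝ (M (b i)) (E e) : ℝ)| ≤ oE * (‖M (b i)‖ * ‖e‖) := by
      calc |(inner ℝ (M (b i)) (E e) : ℝ)| ≤ ‖M (b i)‖ * ‖E e‖ := abs_real_inner_le_norm _ _
        _ ≤ ‖M (b i)‖ * (oE * ‖e‖) := mul_le_mul_of_nonneg_left (hEle e) (norm_nonneg _)
        _ = _ := by ring
    have b2 : |(inner ℝ (R (E2 (b i))) (e + E e) : ℝ)| ≤
        z⁻¹ * (1 + oE) * (‖E2 (b i)‖ * ‖e‖) := by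
      calc |(inner ℝ (R (E2 (b i))) (e + E e) : ℝ)| ≤ ‖R (E2 (b i))‖ * ‖e + E e‖ :=
            abs_real_inner_le_norm _ _
        _ ≤ (z⁻¹ * ‖E2 (b i)‖) * (‖e‖ + oE * ‖e‖) := by
            refine mul_le_mul (hRle _) ((norm_add_le _ _).trans ?_) (norm_nonneg _) (by positivity)
            have := hEle e
            linarith
        _ = _ := by ring
    have b3 : |(inner ℝ p (R (E e)) : ℝ)| ≤ z⁻¹ * oE * (‖p‖ * ‖e‖) := by
      calc |(inner ℝ p (R (E e)) : ℝ)| ≤ ‖p‖ * ‖R (E e)‖ := abs_real_inner_le_norm _ _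
        _ ≤ ‖p‖ * (z⁻¹ * (oE * ‖e‖)) := by
            refine mul_le_mul_of_nonneg_left ((hRle _).trans ?_) (norm_nonneg _)
            exact mul_le_mul_of_nonneg_left (hEle e) hzi.le
        _ = _ := by ring
    have t1 := abs_sub (inner ℝ (M (b i)) (E e) - inner ℝ (R (E2 (b i))) (e + E e) : ℝ)
      (inner ℝ p (R (E e)))
    have t2 := abs_sub (inner ℝ (M (b i)) (E e) : ℝ) (inner ℝ (R (E2 (b i))) (e + E e))
    linarith
  have hdsum : Summable fun i => z⁻¹ * oE * (‖P (b i)‖ * ‖E (b i)‖) +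
      oE * (‖M (b i)‖ * ‖E (b i)‖) + z⁻¹ * (1 + oE) * (‖E2 (b i)‖ * ‖E (b i)‖) :=
    ((c1.1.mul_left _).add (c2.1.mul_left _)).add (c3.1.mul_left _)
  have hD : |∑' i, (inner ℝ (P (b i)) (R (E (b i))) : ℝ) -
      ∑' i, (inner ℝ (M (b i)) (E (b i)) : ℝ)| ≤
      z⁻¹ * sP * oE * sE + sM * oE * sE + z⁻¹ * sE2 * sE * (1 + oE) := by
    rw [← hxy.tsum_sub hME]
    calc |∑' i, ((inner ℝ (P (b i)) (R (E (b i))) : ℝ) - inner ℝ (M (b i)) (E (b i)))|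
        ≤ ∑' i, |(inner ℝ (P (b i)) (R (E (b i))) : ℝ) - inner ℝ (M (b i)) (E (b i))| := by
          have hs : Summable fun i =>
              ‖(inner ℝ (P (b i)) (R (E (b i))) : ℝ) - inner ℝ (M (b i)) (E (b i))‖ :=
            Summable.of_nonneg_of_le (fun i => norm_nonneg _) hd hdsum
          exact norm_tsum_le_tsum_norm hs
      _ ≤ ∑' i, (z⁻¹ * oE * (‖P (b i)‖ * ‖E (b i)‖) + oE * (‖M (b i)‖ * ‖E (b i)‖) +
            z⁻¹ * (1 + oE) * (‖E2 (b i)‖ * ‖E (b i)‖)) :=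
          (Summable.of_nonneg_of_le (fun i => abs_nonneg _) hd hdsum).tsum_le_tsum hd hdsum
      _ = z⁻¹ * oE * (∑' i, ‖P (b i)‖ * ‖E (b i)‖) + oE * (∑' i, ‖M (b i)‖ * ‖E (b i)‖) +
            z⁻¹ * (1 + oE) * (∑' i, ‖E2 (b i)‖ * ‖E (b i)‖) := by
          rw [((c1.1.mul_left _).add (c2.1.mul_left _)).tsum_add (c3.1.mul_left _),
            (c1.1.mul_left _).tsum_add (c2.1.mul_left _), tsum_mul_left, tsum_mul_left,
            tsum_mul_left]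
      _ ≤ z⁻¹ * oE * (sP * sE) + oE * (sM * sE) + z⁻¹ * (1 + oE) * (sE2 * sE) := by
          gcongr
          · exact c1.2
          · exact c2.2
          · exact c3.2
      _ = _ := by ring
  refine ⟨hsum, ?_⟩
  have htot : ∑' i, 1 / (lam i + z) ^ 2 = ∑' i, ‖P (b i)‖ ^ 2 -
      2 * ∑' i, (inner ℝ (P (b i)) (R (E (b i))) : ℝ) + ∑' i, ‖R (E (b i))‖ ^ 2 := by
    rw [tsum_congr hterm, (h1.sub (hxy.mul_left 2)).tsum_add hys, h1.tsum_sub (hxy.mul_left 2),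
      tsum_mul_left]
  have hnn : 0 ≤ ∑' i, ‖R (E (b i))‖ ^ 2 := tsum_nonneg fun i => by positivity
  rw [htot]
  have e : ∑' i, ‖P (b i)‖ ^ 2 - 2 * ∑' i, (inner ℝ (P (b i)) (R (E (b i))) : ℝ) +
      ∑' i, ‖R (E (b i))‖ ^ 2 - (∑' i, ‖P (b i)‖ ^ 2 - 2 * ∑' i, (inner ℝ (M (b i)) (E (b i)) : ℝ)) =
      ∑' i, ‖R (E (b i))‖ ^ 2 - 2 * (∑' i, (inner ℝ (P (b i)) (R (E (b i))) : ℝ) -
        ∑' i, (inner ℝ (M (b i)) (E (b i)) : ℝ)) := by ring
  rw [e]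
  have t := abs_sub (∑' i, ‖R (E (b i))‖ ^ 2) (2 * (∑' i, (inner ℝ (P (b i)) (R (E (b i))) : ℝ) -
        ∑' i, (inner ℝ (M (b i)) (E (b i)) : ℝ)))
  rw [abs_of_nonneg hnn, abs_mul, abs_two] at t
  linarith

end ATR

end LQZ
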