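import Pool.Agent.LQZ.Sphere

/-!
# Project LQZ, module MET: basic facts on `vol φ`
-/

open MeasureTheory Set Filter Topology InnerProductSpace ProbabilityTheory
open scoped ContDiff ENNReal NNReal Real

namespace LQZ

noncomputable section

variable {ψ χ f g η φ φ' u : ℂ → ℝ} {a a' : ℂ → ℂ} {D D' : ℂ → ℝ}

theorem IsGrow.density (hφ : IsGrow φ) : ∃ C : ℝ, 0 < C ∧ ∀ x,
    Real.exp (2 * φ x) ≤ C / (1 + ‖x‖ ^ 2) ^ 2 ∧ 1 / (C * (1 + ‖x‖ ^ 2) ^ 2) ≤ Real.exp (2 * φ x) ∧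
    Real.exp (-(2 * φ x)) ≤ C * (1 + ‖x‖ ^ 2) ^ 2 := by
  obtain ⟨C, hC⟩ := hφ.growth
  refine ⟨Real.exp (2 * C), Real.exp_pos _, fun x => ?_⟩
  have hL : Real.exp (2 * Real.log (1 + ‖x‖ ^ 2)) = (1 + ‖x‖ ^ 2) ^ 2 := by
    rw [two_mul, Real.exp_add, Real.exp_log (by positivity), sq (1 + ‖x‖ ^ 2)]
  have h1 := abs_le.1 (hC x)
  have e1 : Real.exp (-(2 * φ x)) ≤ Real.exp (2 * C) * (1 + ‖x‖ ^ 2) ^ 2 := by
    rw [← hL, ← Real.exp_add]
    exact Real.exp_le_exp.2 (by linarith)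
  refine ⟨?_, ?_, e1⟩
  · rw [← hL, ← Real.exp_sub]
    exact Real.exp_le_exp.2 (by linarith)
  · rw [← hL, ← Real.exp_add, one_div, ← Real.exp_neg]
    exact Real.exp_le_exp.2 (by linarith)

theorem vol_density_meas (hφ : IsGrow φ) :
    Measurable fun z => ENNReal.ofReal (Real.exp (2 * φ z)) :=
  ENNReal.measurable_ofReal.comp
    (Real.continuous_exp.comp (continuous_const.mul hφ.cont)).measurable

theorem IsGrow.integral_vol (hφ : IsGrow φ) (f : ℂ → ℝ) :
    ∫ x, f x ∂(vol φ) = ∫ x, Real.exp (2 * φ x) * f x := by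
  unfold vol
  rw [integral_withDensity_eq_integral_toReal_smul (vol_density_meas hφ)
    (Eventually.of_forall fun x => ENNReal.ofReal_lt_top)]
  refine integral_congr_ae (Eventually.of_forall fun x => ?_)
  simp only [smul_eq_mul]
  rw [ENNReal.toReal_ofReal (Real.exp_pos _).le]

theorem IsGrow.integrable_vol (hφ : IsGrow φ) (f : ℂ → ℝ) :
    Integrable f (vol φ) ↔ Integrable fun x => Real.exp (2 * φ x) * f x := by
  unfold vol
  rw [integrable_withDensity_iff_integrable_smul' (vol_density_meas hφ)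
    (Eventually.of_forall fun x => ENNReal.ofReal_lt_top)]
  refine integrable_congr (Eventually.of_forall fun x => ?_)
  simp only [smul_eq_mul]
  rw [ENNReal.toReal_ofReal (Real.exp_pos _).le]

theorem IsGrow.lintegral_vol (hφ : IsGrow φ) {f : ℂ → ℝ≥0∞} (hf : Measurable f) :
    ∫⁻ x, f x ∂(vol φ) = ∫⁻ x, ENNReal.ofReal (Real.exp (2 * φ x)) * f x := by
  unfold vol
  rw [lintegral_withDensity_eq_lintegral_mul _ (vol_density_meas hφ) hf]
  rfl

theorem IsGrow.lintegral_vol_le (hφ : IsGrow φ) : ∃ C : ℝ, 0 < C ∧ ∀ f : ℂ → ℝ≥0∞, Measurable f →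
    ∫⁻ x, f x ∂(vol φ) ≤ ENNReal.ofReal C * ∫⁻ x, ENNReal.ofReal (1 / (1 + ‖x‖ ^ 2) ^ 2) * f x := by
  obtain ⟨C, hC, h⟩ := hφ.density
  refine ⟨C, hC, fun f hf => ?_⟩
  rw [hφ.lintegral_vol hf, ← lintegral_const_mul' _ _ ENNReal.ofReal_ne_top]
  refine lintegral_mono fun x => ?_
  rw [← mul_assoc, ← ENNReal.ofReal_mul hC.le, mul_one_div]
  gcongr
  exact (h x).1

theorem integrable_round : Integrable fun x : ℂ => 1 / (1 + ‖x‖ ^ 2) ^ 2 := by
  have h := integrable_rpow_neg_one_add_norm_sq (E := ℂ) (μ := volume) (r := 4)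
    (by rw [Complex.finrank_real_complex]; norm_num)
  refine h.congr (Eventually.of_forall fun x => ?_)
  simp only
  rw [show (-4 / 2 : ℝ) = -(2 : ℕ) by norm_num, Real.rpow_neg (by positivity), Real.rpow_natCast,
    one_div]

theorem IsGrow.finite (hφ : IsGrow φ) : IsFiniteMeasure (vol φ) := by
  obtain ⟨C, hC, h⟩ := hφ.lintegral_vol_le
  refine ⟨?_⟩
  have h1 := h (fun _ => 1) measurable_const
  rw [lintegral_one] at h1
  refine h1.trans_lt ?_
  simp only [mul_one]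
  refine ENNReal.mul_lt_top ENNReal.ofReal_lt_top ?_
  have h2 := integrable_round.lintegral_lt_top
  exact h2

theorem vol_ac (φ : ℂ → ℝ) : vol φ ≪ volume := withDensity_absolutelyContinuous _ _

theorem IsGrow.ac (hφ : IsGrow φ) : volume ≪ vol φ := by
  refine withDensity_absolutelyContinuous' (vol_density_meas hφ).aemeasurable ?_
  refine Eventually.of_forall fun x => ?_
  simp only [ne_eq, ENNReal.ofReal_eq_zero, not_le]
  exact Real.exp_pos _

theorem vol_pos (hφ : IsGrow φ) : 0 < vol φ univ := by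
  rw [pos_iff_ne_zero]
  intro h
  have := hφ.ac h
  simp at this

theorem IsGrow.lapG_bdd (hφ : IsGrow φ) (hψ : SphSmooth ψ) : ∃ C : ℝ, 0 ≤ C ∧
    ∀ x, |lapG φ ψ x| ≤ C := by
  obtain ⟨C, hC, h⟩ := hφ.density
  obtain ⟨C', hC', h'⟩ := hψ.lap_le
  refine ⟨C * C', by positivity, fun x => ?_⟩
  unfold lapG
  rw [abs_neg, abs_mul, abs_of_pos (Real.exp_pos _)]
  calc Real.exp (-(2 * φ x)) * |lap ψ x| ≤ (C * (1 + ‖x‖ ^ 2) ^ 2) * (C' / (1 + ‖x‖ ^ 2) ^ 2) :=
        mul_le_mul (h x).2.2 (h' x) (abs_nonneg _) (by positivity)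
    _ = C * C' := by field_simp

theorem IsGrow.lapG_meas (hφ : IsGrow φ) (hψ : SphSmooth ψ) : Continuous (lapG φ ψ) := by
  unfold lapG
  exact ((Real.continuous_exp.comp (continuous_const.mul hφ.cont).neg).mul
    hψ.lap_sph.1.continuous).neg

/-- `∫ u (Δ_g ψ) dVol_g = ∫ u (-Δψ) dz` -/
theorem IsGrow.integral_lapG (hφ : IsGrow φ) (u ψ : ℂ → ℝ) :
    ∫ x, u x * lapG φ ψ x ∂(vol φ) = ∫ x, u x * -lap ψ x := by
  rw [hφ.integral_vol]
  refine integral_congr_ae (Eventually.of_forall fun x => ?_)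
  simp only [lapG]
  have : Real.exp (2 * φ x) * Real.exp (-(2 * φ x)) = 1 := by
    rw [← Real.exp_add]; simp
  linear_combination (-(u x * lap ψ x)) * this

theorem IsGrow.integrable_div (hφ : IsGrow φ) (hu : Integrable u (vol φ)) :
    Integrable fun x => u x / (1 + ‖x‖ ^ 2) ^ 2 := by
  obtain ⟨C, hC, h⟩ := hφ.density
  have h1 := (hφ.integrable_vol u).1 hu
  have hc : Continuous fun x => Real.exp (-(2 * φ x)) / (1 + ‖x‖ ^ 2) ^ 2 :=
    (Real.continuous_exp.comp (continuous_const.mul hφ.cont).neg).div (by fun_prop)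
      (fun x => by positivity)
  have h2 := h1.bdd_mul (c := C) hc.aestronglyMeasurable (Eventually.of_forall fun x => by
    rw [Real.norm_of_nonneg (by positivity), div_le_iff₀ (by positivity)]
    exact (h x).2.2)
  refine h2.congr (Eventually.of_forall fun x => ?_)
  simp only
  have : Real.exp (2 * φ x) * Real.exp (-(2 * φ x)) = 1 := by
    rw [← Real.exp_add]; simp
  have h3 : (1 + ‖x‖ ^ 2) ^ 2 ≠ 0 := by positivity
  rw [div_mul_eq_mul_div]
  congr 1
  linear_combination u x * this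

end

end LQZ
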