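import Pool.Agent.LQZ.Met

/-!
# Project LQZ, module METINV: behaviour of `vol φ` and of the kernels under `z ↦ 1/z`
-/

open MeasureTheory Set Filter Topology InnerProductSpace ProbabilityTheory
open scoped ContDiff ENNReal NNReal Real

namespace LQZ

noncomputable section

variable {ψ χ f g η φ φ' u : ℂ → ℝ} {a a' : ℂ → ℂ} {D D' : ℂ → ℝ}

theorem chord_symm (x y : ℂ) : chord x y = chord y x := by
  unfold chord
  rw [norm_sub_rev, mul_comm]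

theorem chord_le_one (x y : ℂ) : chord x y ≤ 1 := by
  unfold chord
  rw [div_le_one (by positivity), ← Real.sqrt_mul (by positivity)]
  apply Real.le_sqrt_of_sq_le
  have h1 : ‖x - y‖ ≤ ‖x‖ + ‖y‖ := norm_sub_le x y
  have h2 : ‖x - y‖ ^ 2 = ‖x‖ ^ 2 + ‖y‖ ^ 2 - 2 * (x.re * y.re + x.im * y.im) := by
    rw [Complex.sq_norm, Complex.sq_norm, Complex.sq_norm, Complex.normSq_apply,
      Complex.normSq_apply, Complex.normSq_apply]
    simp only [Complex.sub_re, Complex.sub_im]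
    ring
  have h3 : ‖x‖ ^ 2 * ‖y‖ ^ 2 = (x.re * y.re + x.im * y.im) ^ 2 +
      (x.re * y.im - x.im * y.re) ^ 2 := by
    rw [Complex.sq_norm, Complex.sq_norm, Complex.normSq_apply, Complex.normSq_apply]
    ring
  nlinarith [sq_nonneg (x.re * y.im - x.im * y.re), sq_nonneg (1 + (x.re * y.re + x.im * y.im))]

theorem chord_inv {x y : ℂ} (hx : x ≠ 0) (hy : y ≠ 0) : chord x⁻¹ y⁻¹ = chord x y := by
  unfold chord
  have hx' : 0 < ‖x‖ := norm_pos_iff.2 hx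
  have hy' : 0 < ‖y‖ := norm_pos_iff.2 hy
  have e1 : x⁻¹ - y⁻¹ = (y - x) / (x * y) := by
    field_simp
  have e2 : ∀ z : ℂ, z ≠ 0 → √(1 + ‖z⁻¹‖ ^ 2) = √(1 + ‖z‖ ^ 2) / ‖z‖ := by
    intro z hz
    have hz' : 0 < ‖z‖ := norm_pos_iff.2 hz
    rw [norm_inv, show 1 + ‖z‖⁻¹ ^ 2 = (1 + ‖z‖ ^ 2) / ‖z‖ ^ 2 by field_simp; ring,
      Real.sqrt_div' _ (by positivity), Real.sqrt_sq hz'.le]
  rw [e1, e2 x hx, e2 y hy, norm_div, norm_mul, norm_sub_rev]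
  field_simp

theorem IsMet.den_inv (hM : IsMet φ φ' a a' D D') {x y : ℂ} (hx : x ≠ 0) (hy : y ≠ 0) :
    1 - a' y⁻¹ * (x⁻¹ - y⁻¹) / 2 = y / x * (1 - a y * (x - y) / 2) := by
  rw [hM.arel y hy]
  field_simp
  ring

theorem IsMet.exp_inv (hM : IsMet φ φ' a a' D D') {y : ℂ} (hy : y ≠ 0) :
    Real.exp (φ' y⁻¹) = Real.exp (φ y) * ‖y‖ ^ 2 := by
  have hy' : 0 < ‖y‖ := norm_pos_iff.2 hy
  rw [hM.rel y⁻¹ (inv_ne_zero hy), inv_inv, norm_inv, Real.log_inv,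
    show φ y - 2 * -Real.log ‖y‖ = φ y + (Real.log ‖y‖ + Real.log ‖y‖) by ring,
    Real.exp_add, Real.exp_add, Real.exp_log hy']
  ring

theorem IsMet.sK_inv (hM : IsMet φ φ' a a' D D') {x y : ℂ} (hx : x ≠ 0) (hy : y ≠ 0) :
    sK φ' a' x⁻¹ y⁻¹ = sK φ a x y := by
  unfold sK
  have hx' : 0 < ‖x‖ := norm_pos_iff.2 hx
  have hy' : 0 < ‖y‖ := norm_pos_iff.2 hy
  have e1 : x⁻¹ - y⁻¹ = (y - x) / (x * y) := by
    field_simp
  rw [hM.den_inv hx hy, hM.exp_inv hy, norm_mul, norm_div, e1, norm_div, norm_mul,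
    norm_sub_rev y x]
  rcases eq_or_ne (‖1 - a y * (x - y) / 2‖) 0 with h | h
  · rw [h]; simp
  · field_simp

theorem IsMet.JK_inv (hM : IsMet φ φ' a a' D D') {x y : ℂ} (hx : x ≠ 0) (hy : y ≠ 0) :
    JK φ' a' x⁻¹ y⁻¹ = JK φ a x y := by
  unfold JK
  have hx' : 0 < ‖x‖ := norm_pos_iff.2 hx
  have hy' : 0 < ‖y‖ := norm_pos_iff.2 hy
  have e0 : ∀ s t : ℝ, Real.exp (2 * s - 2 * t) = Real.exp s ^ 2 / Real.exp t ^ 2 := by
    intro s t
    rw [Real.exp_sub, two_mul, two_mul, Real.exp_add, Real.exp_add, sq, sq]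
  rw [hM.den_inv hx hy, e0, e0, hM.exp_inv hy, hM.exp_inv hx, norm_mul, norm_div]
  have h1 := Real.exp_pos (φ x)
  rcases eq_or_ne (‖1 - a y * (x - y) / 2‖) 0 with h | h
  · rw [h]; simp
  · field_simp

theorem IsMet.rK_inv (hM : IsMet φ φ' a a' D D') (h : ℝ → ℝ) (z : ℝ) {x y : ℂ} (hx : x ≠ 0)
    (hy : y ≠ 0) : rK h φ' a' z x⁻¹ y⁻¹ = rK h φ a z x y := by
  unfold rK
  rw [hM.sK_inv hx hy, hM.den_inv hx hy]
  have h1 : y / x ≠ 0 := div_ne_zero hy hx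
  by_cases h2 : 1 - a y * (x - y) / 2 = 0
  · rw [if_pos h2, if_pos (by rw [h2, mul_zero])]
  · rw [if_neg h2, if_neg (mul_ne_zero h1 h2)]

/-- Change of variables `w = 1/x` for Lebesgue measure. -/
theorem lintegral_inv_change (h : ℂ → ℝ≥0∞) :
    ∫⁻ x : ℂ, ENNReal.ofReal (1 / ‖x‖ ^ 4) * h x⁻¹ = ∫⁻ w, h w := by
  have himg : (fun x : ℂ => x⁻¹) '' {0}ᶜ = {0}ᶜ := by
    ext z
    simp only [mem_image, mem_compl_iff, mem_singleton_iff]
    constructor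
    · rintro ⟨x, hx, rfl⟩
      exact inv_ne_zero hx
    · intro hz
      exact ⟨z⁻¹, inv_ne_zero hz, inv_inv z⟩
  have hae : ∀ k : ℂ → ℝ≥0∞, ∫⁻ x, k x = ∫⁻ x in {0}ᶜ, k x := by
    intro k
    rw [← lintegral_add_compl k (measurableSet_singleton (0 : ℂ))]
    simp
  have hd : ∀ x ∈ ({0}ᶜ : Set ℂ), HasFDerivWithinAt (fun x : ℂ => x⁻¹)
      ((ContinuousLinearMap.toSpanSingleton ℂ (-(x ^ 2)⁻¹)).restrictScalars ℝ) {0}ᶜ x := by
    intro x hx
    exact ((hasDerivAt_inv hx).hasFDerivAt.restrictScalars ℝ).hasFDerivWithinAt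
  have key := lintegral_image_eq_lintegral_abs_det_fderiv_mul volume
    (measurableSet_singleton (0 : ℂ)).compl hd inv_injective.injOn h
  rw [himg] at key
  rw [hae h, key, hae]
  refine setLIntegral_congr_fun (measurableSet_singleton (0 : ℂ)).compl ?_
  intro x hx
  simp only
  congr 2
  have e1 : ((ContinuousLinearMap.toSpanSingleton ℂ (-(x ^ 2)⁻¹)).restrictScalars ℝ).det =
      ‖(-(x ^ 2)⁻¹ : ℂ)‖ ^ 2 := by
    have h1 : ((ContinuousLinearMap.toSpanSingleton ℂ (-(x ^ 2)⁻¹)).restrictScalars ℝ).det =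
        LinearMap.det ((ContinuousLinearMap.toSpanSingleton ℂ (-(x ^ 2)⁻¹) :
          ℂ →ₗ[ℂ] ℂ).restrictScalars ℝ) := rfl
    have h2 : LinearMap.det (ContinuousLinearMap.toSpanSingleton ℂ (-(x ^ 2)⁻¹) : ℂ →ₗ[ℂ] ℂ) =
        -(x ^ 2)⁻¹ := by
      rw [LinearMap.det_ring]
      simp
    rw [h1, LinearMap.det_restrictScalars, Algebra.norm_complex_apply, h2, Complex.sq_norm]
  rw [e1, norm_neg, norm_inv, norm_pow, abs_of_nonneg (by positivity)]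
  field_simp

theorem IsMet.map_inv (hM : IsMet φ φ' a a' D D') :
    (vol φ).map (fun x : ℂ => x⁻¹) = vol φ' := by
  have hm : Measurable (fun x : ℂ => x⁻¹) := measurable_inv
  refine Measure.ext_of_lintegral _ fun h hh => ?_
  have e1 : ∫⁻ x, h x⁻¹ ∂(vol φ) = ∫⁻ x, ENNReal.ofReal (Real.exp (2 * φ x)) * h x⁻¹ :=
    hM.c0.toIsGrow.lintegral_vol (hh.comp hm)
  rw [lintegral_map hh hm, e1, hM.c1.toIsGrow.lintegral_vol hh, ← lintegral_inv_change]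
  refine lintegral_congr_ae ?_
  have h0 : ∀ᵐ x : ℂ, x ≠ 0 := by
    rw [ae_iff]; simp
  filter_upwards [h0] with x hx
  have hx' : 0 < ‖x‖ := norm_pos_iff.2 hx
  rw [← mul_assoc, ← ENNReal.ofReal_mul (by positivity)]
  rw [inv_inv]
  congr 2
  have h3 := hM.exp_inv (inv_ne_zero hx)
  rw [inv_inv] at h3
  rw [two_mul, two_mul, Real.exp_add, Real.exp_add, h3, norm_inv]
  field_simp

theorem IsMet.integral_inv (hM : IsMet φ φ' a a' D D') (f : ℂ → ℝ) :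
    ∫ x, f x ∂(vol φ) = ∫ x, f x⁻¹ ∂(vol φ') := by
  have he : MeasurableEmbedding (fun x : ℂ => x⁻¹) :=
    (MeasurableEquiv.inv ℂ).measurableEmbedding
  rw [← hM.map_inv, he.integral_map]
  simp

end

end LQZ
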