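import Pool.Agent.LQZ.Base
import Pool.Agent.LQZ.Met
import Pool.Agent.LQZ.MetInv

/-!
# Project LQZ, module CHI: integrals of functions of the chordal distance
-/

open MeasureTheory Set Filter Topology InnerProductSpace
open scoped ContDiff ENNReal NNReal Real

namespace LQZ

noncomputable section

variable {φ : ℂ → ℝ}

theorem chi_scale {h : ℂ → ℝ≥0∞} (hh : Measurable h) {r : ℝ} (hr : 0 < r) :
    ∫⁻ w : ℂ, h (r • w) = ENNReal.ofReal (1 / r ^ 2) * ∫⁻ w, h w := by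
  have h1 := lintegral_map (μ := (volume : Measure ℂ)) hh
    (show Measurable (fun w : ℂ => r • w) from measurable_const_smul r)
  rw [← h1, Measure.map_addHaar_smul volume hr.ne', lintegral_smul_measure,
    Complex.finrank_real_complex, abs_of_pos (by positivity), one_div, smul_eq_mul]

theorem chi_radial {f : ℝ → ℝ} (hf : IntegrableOn (fun y => y * f y) (Ioi 0)) :
    ∫⁻ w : ℂ, ENNReal.ofReal (f ‖w‖) < ⊤ := by
  have h1 : Integrable (fun w : ℂ => f ‖w‖) := by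
    rw [integrable_fun_norm_addHaar (volume : Measure ℂ), Complex.finrank_real_complex]
    refine hf.congr_fun ?_ measurableSet_Ioi
    intro y _
    simp
  exact h1.lintegral_lt_top

theorem chord_meas (y : ℂ) : Measurable fun x => chord x y := by
  unfold chord
  fun_prop

theorem chord_nonneg (x y : ℂ) : 0 ≤ chord x y := by
  unfold chord
  positivity

/-- lower bound of the chordal distance near a point of the unit disc -/
theorem chi_low_near {x y : ℂ} (hx : ‖x‖ ≤ 2) (hy : ‖y‖ ≤ 1) : 1 / 4 * ‖x - y‖ ≤ chord x y := by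
  unfold chord
  have h1 : √(1 + ‖x‖ ^ 2) * √(1 + ‖y‖ ^ 2) ≤ 4 := by
    rw [← Real.sqrt_mul (by positivity)]
    rw [Real.sqrt_le_left (by norm_num)]
    have h2 : ‖x‖ ^ 2 ≤ 4 := by nlinarith [norm_nonneg x]
    have h3 : ‖y‖ ^ 2 ≤ 1 := by nlinarith [norm_nonneg y]
    nlinarith [sq_nonneg ‖x‖, sq_nonneg ‖y‖]
  have h4 : 0 < √(1 + ‖x‖ ^ 2) * √(1 + ‖y‖ ^ 2) := by positivity
  rw [le_div_iff₀ h4]
  nlinarith [norm_nonneg (x - y)]

theorem chi_low_far {x y : ℂ} (hx : 2 < ‖x‖) (hy : ‖y‖ ≤ 1) : 1 / 4 ≤ chord x y := by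
  unfold chord
  have h1 : √(1 + ‖x‖ ^ 2) * √(1 + ‖y‖ ^ 2) ≤ 2 * ‖x‖ := by
    rw [← Real.sqrt_mul (by positivity)]
    rw [Real.sqrt_le_left (by positivity)]
    have h3 : ‖y‖ ^ 2 ≤ 1 := by nlinarith [norm_nonneg y]
    nlinarith [sq_nonneg ‖x‖, sq_nonneg ‖y‖]
  have h4 : 0 < √(1 + ‖x‖ ^ 2) * √(1 + ‖y‖ ^ 2) := by positivity
  rw [le_div_iff₀ h4]
  have h5 : ‖x‖ - ‖y‖ ≤ ‖x - y‖ := norm_sub_norm_le x y
  linarith

/-- the constant -/
def chiC : ℝ≥0∞ := 1 + (volume (Metric.ball (0 : ℂ) 1))⁻¹ *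
  ∫⁻ x : ℂ, ENNReal.ofReal (1 / (1 + ‖x‖ ^ 2) ^ 2)

theorem chiC_lt : chiC < ⊤ := by
  unfold chiC
  have h1 : ∫⁻ x : ℂ, ENNReal.ofReal (1 / (1 + ‖x‖ ^ 2) ^ 2) < ⊤ :=
    integrable_round.lintegral_lt_top
  have h2 : (volume (Metric.ball (0 : ℂ) 1))⁻¹ ≠ ⊤ := by
    rw [ENNReal.inv_ne_top]
    exact (Metric.measure_ball_pos volume (0 : ℂ) one_pos).ne'
  exact ENNReal.add_lt_top.mpr ⟨ENNReal.one_lt_top, ENNReal.mul_lt_top h2.lt_top h1⟩

theorem chi_near {G : ℝ → ℝ≥0∞} (hG : Antitone G) {y : ℂ} (hy : ‖y‖ ≤ 1) :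
    ∫⁻ x : ℂ, ENNReal.ofReal (1 / (1 + ‖x‖ ^ 2) ^ 2) * G (chord x y) ≤
      chiC * ∫⁻ w : ℂ, G (1 / 4 * ‖w‖) := by
  have hGm : Measurable G := hG.measurable
  set I := ∫⁻ w : ℂ, G (1 / 4 * ‖w‖) with hI
  have hpart1 : ∫⁻ x in Metric.closedBall (0 : ℂ) 2,
      ENNReal.ofReal (1 / (1 + ‖x‖ ^ 2) ^ 2) * G (chord x y) ≤ I := by
    have h1 : ∫⁻ x in Metric.closedBall (0 : ℂ) 2,
        ENNReal.ofReal (1 / (1 + ‖x‖ ^ 2) ^ 2) * G (chord x y) ≤
        ∫⁻ x in Metric.closedBall (0 : ℂ) 2, G (1 / 4 * ‖x - y‖) := by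
      apply setLIntegral_mono' Metric.isClosed_closedBall.measurableSet
      intro x hx
      have hx2 : ‖x‖ ≤ 2 := by simpa using hx
      have h2 : ENNReal.ofReal (1 / (1 + ‖x‖ ^ 2) ^ 2) ≤ 1 := by
        rw [ENNReal.ofReal_le_one]
        rw [div_le_one (by positivity)]
        nlinarith [sq_nonneg ‖x‖]
      calc ENNReal.ofReal (1 / (1 + ‖x‖ ^ 2) ^ 2) * G (chord x y) ≤ 1 * G (1 / 4 * ‖x - y‖) :=
            mul_le_mul' h2 (hG (chi_low_near hx2 hy))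
        _ = G (1 / 4 * ‖x - y‖) := one_mul _
    refine h1.trans ((setLIntegral_le_lintegral _ _).trans (le_of_eq ?_))
    exact lintegral_sub_right_eq_self (μ := (volume : Measure ℂ))
      (fun w : ℂ => G (1 / 4 * ‖w‖)) y
  have hV : volume (Metric.ball (0 : ℂ) 1) ≠ 0 :=
    (Metric.measure_ball_pos volume (0 : ℂ) one_pos).ne'
  have hV' : volume (Metric.ball (0 : ℂ) 1) ≠ ⊤ := measure_ball_lt_top.ne
  have hG4 : G (1 / 4) * volume (Metric.ball (0 : ℂ) 1) ≤ I := by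
    have h1 : ∫⁻ _ in Metric.ball (0 : ℂ) 1, G (1 / 4) ≤
        ∫⁻ x in Metric.ball (0 : ℂ) 1, G (1 / 4 * ‖x‖) := by
      apply setLIntegral_mono' Metric.isOpen_ball.measurableSet
      intro x hx
      have hx2 : ‖x‖ < 1 := by simpa using hx
      apply hG
      linarith
    rw [setLIntegral_const] at h1
    exact h1.trans (setLIntegral_le_lintegral _ _)
  have hG4' : G (1 / 4) ≤ (volume (Metric.ball (0 : ℂ) 1))⁻¹ * I := by
    rw [mul_comm, ← div_eq_mul_inv]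
    rw [ENNReal.le_div_iff_mul_le (Or.inl hV) (Or.inl hV')]
    exact hG4
  have hpart2 : ∫⁻ x in (Metric.closedBall (0 : ℂ) 2)ᶜ,
      ENNReal.ofReal (1 / (1 + ‖x‖ ^ 2) ^ 2) * G (chord x y) ≤
      (volume (Metric.ball (0 : ℂ) 1))⁻¹ *
        (∫⁻ x : ℂ, ENNReal.ofReal (1 / (1 + ‖x‖ ^ 2) ^ 2)) * I := by
    have h1 : ∫⁻ x in (Metric.closedBall (0 : ℂ) 2)ᶜ,
        ENNReal.ofReal (1 / (1 + ‖x‖ ^ 2) ^ 2) * G (chord x y) ≤
        ∫⁻ x in (Metric.closedBall (0 : ℂ) 2)ᶜ,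
          ENNReal.ofReal (1 / (1 + ‖x‖ ^ 2) ^ 2) * G (1 / 4) := by
      apply setLIntegral_mono' Metric.isClosed_closedBall.measurableSet.compl
      intro x hx
      have hx2 : 2 < ‖x‖ := by simpa using hx
      exact mul_le_mul' le_rfl (hG (chi_low_far hx2 hy))
    refine h1.trans ((setLIntegral_le_lintegral _ _).trans ?_)
    rw [lintegral_mul_const _ (by fun_prop)]
    calc (∫⁻ x : ℂ, ENNReal.ofReal (1 / (1 + ‖x‖ ^ 2) ^ 2)) * G (1 / 4) ≤
          (∫⁻ x : ℂ, ENNReal.ofReal (1 / (1 + ‖x‖ ^ 2) ^ 2)) *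
            ((volume (Metric.ball (0 : ℂ) 1))⁻¹ * I) := mul_le_mul' le_rfl hG4'
      _ = _ := by ring
  rw [← lintegral_add_compl _ (Metric.isClosed_closedBall (x := (0 : ℂ)) (ε := 2)).measurableSet]
  refine (add_le_add hpart1 hpart2).trans (le_of_eq ?_)
  unfold chiC
  ring

theorem chi_all {G : ℝ → ℝ≥0∞} (hG : Antitone G) (y : ℂ) :
    ∫⁻ x : ℂ, ENNReal.ofReal (1 / (1 + ‖x‖ ^ 2) ^ 2) * G (chord x y) ≤
      chiC * ∫⁻ w : ℂ, G (1 / 4 * ‖w‖) := by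
  rcases le_total ‖y‖ 1 with hy | hy
  · exact chi_near hG hy
  · have hy0 : y ≠ 0 := by
      rintro rfl
      rw [norm_zero] at hy
      linarith
    have hyi : ‖y⁻¹‖ ≤ 1 := by
      rw [norm_inv]
      exact inv_le_one_of_one_le₀ hy
    refine le_trans (le_of_eq ?_) (chi_near hG hyi)
    rw [← lintegral_inv_change
      (fun w => ENNReal.ofReal (1 / (1 + ‖w‖ ^ 2) ^ 2) * G (chord w y))]
    apply lintegral_congr_ae
    have hne : ∀ᵐ x : ℂ, x ≠ 0 := by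
      rw [ae_iff]
      simp
    filter_upwards [hne] with x hx
    have hx' : 0 < ‖x‖ := norm_pos_iff.mpr hx
    have h1 : chord x⁻¹ y = chord x y⁻¹ := by
      have h2 := chord_inv hx (inv_ne_zero hy0)
      rwa [inv_inv] at h2
    rw [h1, ← mul_assoc, ← ENNReal.ofReal_mul (by positivity)]
    congr 2
    rw [norm_inv]
    field_simp
    ring

/-- for `‖y‖ ≤ 1` split at `‖x‖ ≤ 2`; for `‖y‖ ≥ 1` use the inversion (of Lebesgue measure with
density `(1+|x|²)^{-2}`). -/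
theorem chord_lintegral (hφ : IsGrow φ) : ∃ C c : ℝ, 0 < C ∧ 0 < c ∧
    ∀ g : ℝ → ℝ≥0∞, AntitoneOn g (Ici 0) → ∀ y : ℂ,
      ∫⁻ x, g (chord x y) ∂(vol φ) ≤ ENNReal.ofReal C * ∫⁻ w : ℂ, g (c * ‖w‖) := by
  obtain ⟨C, hC, hle⟩ := hφ.lintegral_vol_le
  have hK : (0 : ℝ) < chiC.toReal := by
    rw [ENNReal.toReal_pos_iff]
    refine ⟨?_, chiC_lt⟩
    unfold chiC
    exact lt_of_lt_of_le one_pos le_self_add
  refine ⟨C * chiC.toReal, 1 / 4, mul_pos hC hK, by norm_num, ?_⟩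
  intro g hg y
  set G : ℝ → ℝ≥0∞ := fun t => g (max t 0) with hGdef
  have hG : Antitone G := by
    intro s t hst
    exact hg (mem_Ici.mpr (le_max_right s 0)) (mem_Ici.mpr (le_max_right t 0))
      (max_le_max_right 0 hst)
  have h1 : ∀ x, g (chord x y) = G (chord x y) := by
    intro x
    simp only [hGdef, max_eq_left (chord_nonneg x y)]
  have h2 : ∀ w : ℂ, g (1 / 4 * ‖w‖) = G (1 / 4 * ‖w‖) := by
    intro w
    simp only [hGdef]
    rw [max_eq_left (by positivity)]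
  simp only [h1, h2]
  refine (hle _ (hG.measurable.comp (chord_meas y))).trans ?_
  rw [ENNReal.ofReal_mul hC.le, ENNReal.ofReal_toReal chiC_lt.ne, mul_assoc]
  exact mul_le_mul' le_rfl (chi_all hG y)

/-- combination with scaling -/
private theorem chi_scaled (hφ : IsGrow φ) {f : ℝ → ℝ}
    (hanti : ∀ s t : ℝ, 0 < s → s ≤ t → f t ≤ f s) (hm : Measurable f)
    (hint : ∀ c : ℝ, 0 < c → IntegrableOn (fun y => y * f (c * y)) (Ioi 0)) : ∃ C : ℝ, 0 < C ∧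
    ∀ z : ℝ, 1 ≤ z → ∀ y : ℂ,
      ∫⁻ x, ENNReal.ofReal (f (√z * chord x y)) ∂(vol φ) ≤ ENNReal.ofReal (C / z) := by
  obtain ⟨C, c, hC, hc, hle⟩ := chord_lintegral hφ
  have hfin : ∫⁻ w : ℂ, ENNReal.ofReal (f (c * ‖w‖)) < ⊤ :=
    chi_radial (f := fun t => f (c * t)) (hint c hc)
  set D := (∫⁻ w : ℂ, ENNReal.ofReal (f (c * ‖w‖))).toReal with hD
  have hD0 : 0 ≤ D := ENNReal.toReal_nonneg
  refine ⟨C * (D + 1), by positivity, ?_⟩
  intro z hz y
  have hz0 : 0 < z := by linarith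
  have hsz : 0 < √z := Real.sqrt_pos.mpr hz0
  set g : ℝ → ℝ≥0∞ := fun t => if t ≤ 0 then ⊤ else ENNReal.ofReal (f (√z * t)) with hg
  have hganti : AntitoneOn g (Ici 0) := by
    intro s hs t ht hst
    simp only [hg]
    by_cases hs0 : s ≤ 0
    · rw [if_pos hs0]
      exact le_top
    · rw [if_neg hs0, if_neg (by linarith)]
      apply ENNReal.ofReal_le_ofReal
      apply hanti
      · exact mul_pos hsz (not_le.mp hs0)
      · exact mul_le_mul_of_nonneg_left hst hsz.le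
  have h1 : ∫⁻ x, ENNReal.ofReal (f (√z * chord x y)) ∂(vol φ) ≤
      ∫⁻ x, g (chord x y) ∂(vol φ) := by
    apply lintegral_mono
    intro x
    simp only [hg]
    split_ifs
    · exact le_top
    · exact le_rfl
  refine h1.trans ((hle g hganti y).trans ?_)
  have h2 : ∫⁻ w : ℂ, g (c * ‖w‖) = ∫⁻ w : ℂ, ENNReal.ofReal (f (c * ‖√z • w‖)) := by
    apply lintegral_congr_ae
    have hne : ∀ᵐ x : ℂ, x ≠ 0 := by
      rw [ae_iff]
      simp
    filter_upwards [hne] with w hw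
    have hw' : 0 < ‖w‖ := norm_pos_iff.mpr hw
    simp only [hg]
    rw [if_neg (by
      rw [not_le]
      positivity), norm_smul, Real.norm_eq_abs, abs_of_pos hsz]
    congr 2
    ring
  have h3 : ∫⁻ w : ℂ, ENNReal.ofReal (f (c * ‖√z • w‖)) =
      ENNReal.ofReal (1 / (√z) ^ 2) * ∫⁻ w : ℂ, ENNReal.ofReal (f (c * ‖w‖)) := by
    exact chi_scale (h := fun w : ℂ => ENNReal.ofReal (f (c * ‖w‖))) (by fun_prop) hsz
  rw [h2, h3, ← ENNReal.ofReal_toReal hfin.ne, ← hD, Real.sq_sqrt hz0.le,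
    ← ENNReal.ofReal_mul (by positivity), ← ENNReal.ofReal_mul hC.le]
  apply ENNReal.ofReal_le_ofReal
  have h4 : C * (1 / z * D) = C * D / z := by ring
  rw [h4]
  apply div_le_div_of_nonneg_right _ hz0.le
  nlinarith

theorem chord_exp_lintegral (hφ : IsGrow φ) {κ : ℝ} (hκ : 0 < κ) : ∃ C : ℝ, 0 < C ∧
    ∀ z : ℝ, 1 ≤ z → ∀ y : ℂ,
      ∫⁻ x, ENNReal.ofReal (Real.exp (-(κ * (√z * chord x y)))) ∂(vol φ) ≤
        ENNReal.ofReal (C / z) := by
  apply chi_scaled hφ (f := fun t => Real.exp (-(κ * t)))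
  · intro s t _ hst
    apply Real.exp_le_exp.mpr
    nlinarith
  · fun_prop
  · intro c hc
    have h1 := integrableOn_rpow_mul_exp_neg_mul_rpow (s := 1) (p := 1) (b := κ * c) (by norm_num)
      one_pos (mul_pos hκ hc)
    refine h1.congr_fun ?_ measurableSet_Ioi
    intro x _
    simp only [Real.rpow_one]
    congr 2
    ring

theorem chord_exp_lintegral' (hφ : IsGrow φ) {κ : ℝ} (hκ : 0 < κ) : ∃ C : ℝ, 0 < C ∧
    ∀ z : ℝ, 1 ≤ z → ∀ y : ℂ,
      ∫⁻ x, ENNReal.ofReal ((√z * chord x y) ^ (-(1 / 2) : ℝ) *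
        Real.exp (-(κ * (√z * chord x y)))) ∂(vol φ) ≤ ENNReal.ofReal (C / z) := by
  apply chi_scaled hφ (f := fun t => t ^ (-(1 / 2) : ℝ) * Real.exp (-(κ * t)))
  · intro s t hs hst
    have ht : 0 < t := lt_of_lt_of_le hs hst
    apply mul_le_mul
    · exact Real.rpow_le_rpow_of_nonpos hs hst (by norm_num)
    · apply Real.exp_le_exp.mpr
      nlinarith
    · exact (Real.exp_pos _).le
    · positivity
  · fun_prop
  · intro c hc
    have h1 := (integrableOn_rpow_mul_exp_neg_mul_rpow (s := 1 / 2) (p := 1) (b := κ * c)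
      (by norm_num) one_pos (mul_pos hκ hc)).const_mul (c ^ (-(1 / 2) : ℝ))
    refine IntegrableOn.congr_fun (f := fun x : ℝ => c ^ (-(1 / 2) : ℝ) *
      (x ^ (1 / 2 : ℝ) * Real.exp (-(κ * c) * x ^ (1 : ℝ)))) h1 ?_ measurableSet_Ioi
    intro x hx
    have hx0 : 0 < x := hx
    show c ^ (-(1 / 2) : ℝ) * (x ^ (1 / 2 : ℝ) * Real.exp (-(κ * c) * x ^ (1 : ℝ))) =
      x * ((c * x) ^ (-(1 / 2) : ℝ) * Real.exp (-(κ * (c * x))))
    rw [Real.mul_rpow hc.le hx0.le, Real.rpow_one]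
    have h2 : x ^ (1 / 2 : ℝ) = x * x ^ (-(1 / 2) : ℝ) := by
      nth_rewrite 2 [← Real.rpow_one x]
      rw [← Real.rpow_add hx0]
      norm_num
    have h3 : -(κ * c) * x = -(κ * (c * x)) := by ring
    rw [h2, h3]
    ring

theorem chord_log_lintegral (hφ : IsGrow φ) : ∃ C : ℝ, 0 < C ∧ ∀ y : ℂ,
    ∫⁻ x, ENNReal.ofReal (Real.log (chord x y) ^ 2) ∂(vol φ) ≤ ENNReal.ofReal C := by
  obtain ⟨C, hC, hle⟩ := chord_exp_lintegral' hφ (κ := 1) one_pos
  refine ⟨16 * Real.exp 1 * C, by positivity, ?_⟩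
  intro y
  have hpt : ∀ t : ℝ, 0 ≤ t → t ≤ 1 → Real.log t ^ 2 ≤
      16 * Real.exp 1 * ((√1 * t) ^ (-(1 / 2) : ℝ) * Real.exp (-(1 * (√1 * t)))) := by
    intro t ht ht1
    rw [Real.sqrt_one, one_mul, one_mul]
    rcases eq_or_lt_of_le ht with h | h
    · rw [← h, Real.log_zero]
      have h1 : (0 : ℝ) ^ (-(1 / 2) : ℝ) = 0 := Real.zero_rpow (by norm_num)
      rw [h1]
      norm_num
    · have h1 : Real.log t⁻¹ ≤ (t⁻¹) ^ (1 / 4 : ℝ) / (1 / 4) :=
        Real.log_le_rpow_div (by positivity) (by norm_num)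
      have h2 : 0 ≤ Real.log t⁻¹ := Real.log_nonneg ((one_le_inv₀ h).mpr ht1)
      have h3 : Real.log t ^ 2 = Real.log t⁻¹ ^ 2 := by
        rw [Real.log_inv]
        ring
      have h4 : ((t⁻¹) ^ (1 / 4 : ℝ) / (1 / 4)) ^ 2 = 16 * t ^ (-(1 / 2) : ℝ) := by
        rw [Real.inv_rpow h.le, ← Real.rpow_neg h.le, div_pow, ← Real.rpow_natCast,
          ← Real.rpow_mul h.le]
        norm_num
        ring
      have h5 : Real.log t ^ 2 ≤ 16 * t ^ (-(1 / 2) : ℝ) := by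
        rw [h3, ← h4]
        exact pow_le_pow_left₀ h2 h1 2
      have h6 : 1 ≤ Real.exp 1 * Real.exp (-t) := by
        rw [← Real.exp_add]
        apply Real.one_le_exp
        linarith
      have h7 : 0 ≤ 16 * t ^ (-(1 / 2) : ℝ) := by positivity
      calc Real.log t ^ 2 ≤ 16 * t ^ (-(1 / 2) : ℝ) := h5
        _ ≤ 16 * t ^ (-(1 / 2) : ℝ) * (Real.exp 1 * Real.exp (-t)) :=
            le_mul_of_one_le_right h7 h6
        _ = _ := by ring
  have h1 : ∫⁻ x, ENNReal.ofReal (Real.log (chord x y) ^ 2) ∂(vol φ) ≤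
      ∫⁻ x, ENNReal.ofReal (16 * Real.exp 1) *
        ENNReal.ofReal ((√1 * chord x y) ^ (-(1 / 2) : ℝ) *
          Real.exp (-(1 * (√1 * chord x y)))) ∂(vol φ) := by
    apply lintegral_mono
    intro x
    dsimp only
    rw [← ENNReal.ofReal_mul (by positivity)]
    exact ENNReal.ofReal_le_ofReal (hpt _ (chord_nonneg x y) (chord_le_one x y))
  refine h1.trans ?_
  rw [lintegral_const_mul' _ _ ENNReal.ofReal_ne_top]
  have h2 := hle 1 le_rfl y
  rw [div_one] at h2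
  rw [ENNReal.ofReal_mul (p := 16 * Real.exp 1) (q := C) (by positivity)]
  exact mul_le_mul' le_rfl h2

end

end LQZ
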