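import Pool.Agent.LQZ.KerBound
import Pool.Agent.LQZ.ChordInt

/-!
# Project LQZ, module KNORM: measurability and norms of the kernels
-/

open MeasureTheory Set Filter Topology InnerProductSpace ProbabilityTheory
open scoped ContDiff ENNReal NNReal Real

namespace LQZ

noncomputable section

variable {ψ χ f g η φ φ' u : ℂ → ℝ} {a a' : ℂ → ℂ} {D D' : ℂ → ℝ}

namespace KNORM

lemma den_meas (ha : Measurable a) : Measurable fun p : ℂ × ℂ => 1 - a p.2 * (p.1 - p.2) / 2 :=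
  measurable_const.sub (((ha.comp measurable_snd).mul
    (measurable_fst.sub measurable_snd)).div_const 2)

lemma sK_meas (hφ : Continuous φ) (ha : Measurable a) :
    Measurable fun p : ℂ × ℂ => sK φ a p.1 p.2 := by
  unfold sK
  exact (((Real.continuous_exp.comp hφ).measurable.comp measurable_snd).mul
    (measurable_fst.sub measurable_snd).norm).div (den_meas ha).norm

lemma JK_meas (hφ : Continuous φ) (ha : Measurable a) :
    Measurable fun p : ℂ × ℂ => JK φ a p.1 p.2 := by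
  unfold JK
  refine Measurable.div ?_ ((den_meas ha).norm.pow_const 4)
  refine Real.measurable_exp.comp ?_
  exact ((hφ.measurable.comp measurable_snd).const_mul 2).sub
    ((hφ.measurable.comp measurable_fst).const_mul 2)

lemma rK_meas (hφ : Continuous φ) (ha : Measurable a) {h : ℝ → ℝ} (hh : Measurable h) (z : ℝ) :
    Measurable fun p : ℂ × ℂ => rK h φ a z p.1 p.2 := by
  unfold rK
  refine Measurable.ite ?_ measurable_const ?_
  · exact (den_meas ha) (measurableSet_singleton 0)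
  · exact hh.comp ((sK_meas hφ ha).const_mul _)

end KNORM

open KNORM

theorem PK_meas (hM : IsMet φ φ' a a' D D') (z : ℝ) :
    Measurable (Function.uncurry (PK φ a z)) :=
  rK_meas hM.c0.cont hM.c0.ameas kB_meas z
theorem EK_meas (hM : IsMet φ φ' a a' D D') (z : ℝ) :
    Measurable (Function.uncurry (EK φ a z)) :=
  ((measurable_const.sub (JK_meas hM.c0.cont hM.c0.ameas)).const_mul z).mul
    (rK_meas hM.c0.cont hM.c0.ameas kB_meas z)
theorem MK_meas (hM : IsMet φ φ' a a' D D') (z : ℝ) :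
    Measurable (Function.uncurry (MK φ a z)) :=
  (rK_meas hM.c0.cont hM.c0.ameas mB_meas z).const_mul _
theorem E2K_meas (hM : IsMet φ φ' a a' D D') (z : ℝ) :
    Measurable (Function.uncurry (E2K φ a z)) :=
  (measurable_const.sub (JK_meas hM.c0.cont hM.c0.ameas)).mul
    ((rK_meas hM.c0.cont hM.c0.ameas mB_meas z).sub
      (rK_meas hM.c0.cont hM.c0.ameas kB_meas z))

namespace KNORM

lemma memLp_of_bd {μ : Measure ℂ} [IsFiniteMeasure μ] {K : ℂ → ℂ → ℝ}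
    (hK : Measurable (Function.uncurry K)) {Q : ℝ} (hQ : 0 ≤ Q)
    (h : ∀ᵐ y ∂μ, ∫⁻ x, ENNReal.ofReal (K x y ^ 2) ∂μ ≤ ENNReal.ofReal Q) :
    MemLp (Function.uncurry K) 2 (μ.prod μ) ∧
      ∫ x, ∫ y, K x y ^ 2 ∂μ ∂μ ≤ Q * (μ univ).toReal := by
  have hm : Measurable fun p : ℂ × ℂ => ENNReal.ofReal (Function.uncurry K p ^ 2) :=
    ENNReal.measurable_ofReal.comp (hK.pow_const 2)
  have hV : ENNReal.ofReal (Q * (μ univ).toReal) = ENNReal.ofReal Q * μ univ := by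
    rw [ENNReal.ofReal_mul hQ, ENNReal.ofReal_toReal (measure_ne_top μ univ)]
  have h1 : ∫⁻ p, ENNReal.ofReal (Function.uncurry K p ^ 2) ∂(μ.prod μ) ≤
      ENNReal.ofReal (Q * (μ univ).toReal) := by
    rw [lintegral_prod_symm' _ hm, hV]
    calc ∫⁻ y, ∫⁻ x, ENNReal.ofReal (Function.uncurry K (x, y) ^ 2) ∂μ ∂μ
        ≤ ∫⁻ _, ENNReal.ofReal Q ∂μ := lintegral_mono_ae h
      _ = _ := by rw [lintegral_const]
  have hi : Integrable (fun p => Function.uncurry K p ^ 2) (μ.prod μ) := by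
    refine ⟨(hK.pow_const 2).aestronglyMeasurable, ?_⟩
    rw [hasFiniteIntegral_iff_ofReal (Eventually.of_forall fun p => sq_nonneg _)]
    exact h1.trans_lt ENNReal.ofReal_lt_top
  refine ⟨(memLp_two_iff_integrable_sq hK.aestronglyMeasurable).2 hi, ?_⟩
  have h2 : ∫ x, ∫ y, K x y ^ 2 ∂μ ∂μ = ∫ p, Function.uncurry K p ^ 2 ∂(μ.prod μ) := by
    rw [integral_prod _ hi]
    rfl
  rw [h2, integral_eq_lintegral_of_nonneg_ae (Eventually.of_forall fun p => sq_nonneg _)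
    (hK.pow_const 2).aestronglyMeasurable]
  exact ENNReal.toReal_le_of_le_ofReal (by positivity) h1

lemma ae_ne (φ : ℂ → ℝ) (y : ℂ) : ∀ᵐ x ∂(vol φ), x ≠ 0 ∧ x ≠ y := by
  refine (vol_ac φ).ae_le ?_
  have h1 : ∀ c : ℂ, ∀ᵐ x : ℂ, x ≠ c := by
    intro c
    rw [ae_iff]
    simp
  filter_upwards [h1 0, h1 y] with x h1 h2 using ⟨h1, h2⟩

lemma inner_bd {φ : ℂ → ℝ} {K : ℂ → ℂ → ℝ} {z κ B C : ℝ}
    (hC : ∀ y : ℂ, ∫⁻ x, ENNReal.ofReal (Real.exp (-(2 * κ * (√z * chord x y)))) ∂(vol φ) ≤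
        ENNReal.ofReal (C / z)) {y : ℂ} (hy : y ≠ 0)
    (hK : ∀ x, x ≠ 0 → y ≠ 0 → x ≠ y → |K x y| ≤ B * Real.exp (-(κ * (√z * chord x y)))) :
    ∫⁻ x, ENNReal.ofReal (K x y ^ 2) ∂(vol φ) ≤ ENNReal.ofReal (B ^ 2 * (C / z)) := by
  rw [ENNReal.ofReal_mul (sq_nonneg B)]
  calc ∫⁻ x, ENNReal.ofReal (K x y ^ 2) ∂(vol φ)
      ≤ ∫⁻ x, ENNReal.ofReal (B ^ 2) *
          ENNReal.ofReal (Real.exp (-(2 * κ * (√z * chord x y)))) ∂(vol φ) := by
        refine lintegral_mono_ae ?_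
        filter_upwards [ae_ne φ y] with x hx
        rw [← ENNReal.ofReal_mul (sq_nonneg B)]
        refine ENNReal.ofReal_le_ofReal ?_
        have h1 := hK x hx.1 hy hx.2
        have h2 : |K x y| ^ 2 ≤ (B * Real.exp (-(κ * (√z * chord x y)))) ^ 2 :=
          pow_le_pow_left₀ (abs_nonneg _) h1 2
        rw [sq_abs, mul_pow, ← Real.exp_nat_mul] at h2
        refine h2.trans (le_of_eq ?_)
        congr 2
        push_cast
        ring
    _ = ENNReal.ofReal (B ^ 2) *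
          ∫⁻ x, ENNReal.ofReal (Real.exp (-(2 * κ * (√z * chord x y)))) ∂(vol φ) :=
        lintegral_const_mul' _ _ ENNReal.ofReal_ne_top
    _ ≤ _ := by gcongr; exact hC y

end KNORM

theorem ker_norms (hM : IsMet φ φ' a a' D D') : ∃ C : ℝ, 0 < C ∧ ∀ z : ℝ, 1 ≤ z →
    (MemLp (Function.uncurry (PK φ a z)) 2 ((vol φ).prod (vol φ)) ∧
      ∫ x, ∫ y, PK φ a z x y ^ 2 ∂(vol φ) ∂(vol φ) ≤ C * z⁻¹) ∧
    (MemLp (Function.uncurry (EK φ a z)) 2 ((vol φ).prod (vol φ)) ∧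
      ∫ x, ∫ y, EK φ a z x y ^ 2 ∂(vol φ) ∂(vol φ) ≤ C * z ^ (-(1 / 2) : ℝ)) ∧
    (MemLp (Function.uncurry (MK φ a z)) 2 ((vol φ).prod (vol φ)) ∧
      ∫ x, ∫ y, MK φ a z x y ^ 2 ∂(vol φ) ∂(vol φ) ≤ C * z ^ (-3 : ℝ)) ∧
    (MemLp (Function.uncurry (E2K φ a z)) 2 ((vol φ).prod (vol φ)) ∧
      ∫ x, ∫ y, E2K φ a z x y ^ 2 ∂(vol φ) ∂(vol φ) ≤ C * z ^ (-(5 / 2) : ℝ)) ∧
    (∀ x, x ≠ 0 → ∫⁻ y, ENNReal.ofReal |EK φ a z x y| ∂(vol φ) ≤
      ENNReal.ofReal (C * z ^ (-(3 / 4) : ℝ))) ∧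
    (∀ y, y ≠ 0 → ∫⁻ x, ENNReal.ofReal |EK φ a z x y| ∂(vol φ) ≤
      ENNReal.ofReal (C * z ^ (-(3 / 4) : ℝ))) := by
  have hφ := hM.c0.toIsGrow
  have := hφ.finite
  obtain ⟨κ, C₀, hκ, hC₀, hb⟩ := ker_bounds hM
  obtain ⟨C₁, hC₁, h1⟩ := chord_exp_lintegral hφ hκ
  obtain ⟨C₂, hC₂, h2⟩ := chord_exp_lintegral hφ (κ := 2 * κ) (by positivity)
  obtain ⟨C₃, hC₃, h3⟩ := chord_exp_lintegral' hφ (κ := 2 * κ) (by positivity)
  set V : ℝ := (vol φ univ).toReal with hV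
  have hV0 : 0 ≤ V := ENNReal.toReal_nonneg
  set C : ℝ := C₀ ^ 2 * C₃ * V + C₀ ^ 2 * C₂ * V + C₀ * C₁ with hC
  have hCp : 0 < C := by positivity
  have hCa : C₀ ^ 2 * C₃ * V ≤ C := by
    have := mul_pos hC₀ hC₁
    have := mul_nonneg (mul_nonneg (sq_nonneg C₀) hC₂.le) hV0
    linarith
  have hCb : C₀ ^ 2 * C₂ * V ≤ C := by
    have := mul_pos hC₀ hC₁
    have := mul_nonneg (mul_nonneg (sq_nonneg C₀) hC₃.le) hV0
    linarith
  have hCc : C₀ * C₁ ≤ C := by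
    have := mul_nonneg (mul_nonneg (sq_nonneg C₀) hC₂.le) hV0
    have := mul_nonneg (mul_nonneg (sq_nonneg C₀) hC₃.le) hV0
    linarith
  refine ⟨C, hCp, fun z hz => ?_⟩
  have hz0 : 0 < z := by linarith
  have hy0 : ∀ᵐ y ∂(vol φ), y ≠ 0 := by
    filter_upwards [ae_ne φ 0] with y hy using hy.1
  -- general treatment of `E, M, E2`
  have gen : ∀ (K : ℂ → ℂ → ℝ) (p q : ℝ), Measurable (Function.uncurry K) → 2 * p - 1 = q →
      (∀ x y, x ≠ 0 → y ≠ 0 → x ≠ y →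
        |K x y| ≤ C₀ * z ^ p * Real.exp (-(κ * (√z * chord x y)))) →
      MemLp (Function.uncurry K) 2 ((vol φ).prod (vol φ)) ∧
        ∫ x, ∫ y, K x y ^ 2 ∂(vol φ) ∂(vol φ) ≤ C * z ^ q := by
    intro K p q hKm hpq hK
    have hin : ∀ᵐ y ∂(vol φ), ∫⁻ x, ENNReal.ofReal (K x y ^ 2) ∂(vol φ) ≤
        ENNReal.ofReal ((C₀ * z ^ p) ^ 2 * (C₂ / z)) := by
      filter_upwards [hy0] with y hy
      exact inner_bd (h2 z hz) hy (fun x => hK x y)
    obtain ⟨r1, r2⟩ := memLp_of_bd hKm (by positivity) hin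
    refine ⟨r1, r2.trans ?_⟩
    have e1 : (z ^ p) ^ 2 / z = z ^ q := by
      rw [← hpq, Real.rpow_sub_one hz0.ne', two_mul, Real.rpow_add hz0, sq]
    calc (C₀ * z ^ p) ^ 2 * (C₂ / z) * (vol φ univ).toReal
        = C₀ ^ 2 * C₂ * V * ((z ^ p) ^ 2 / z) := by rw [hV]; ring
      _ = C₀ ^ 2 * C₂ * V * z ^ q := by rw [e1]
      _ ≤ _ := by gcongr
  have e34 : ∀ K' : ℂ → ℝ, ∀ y : ℂ, y ≠ 0 →
      (∀ x, x ≠ 0 → x ≠ y → |K' x| ≤ C₀ * z ^ (1 / 4 : ℝ) * Real.exp (-(κ * (√z * chord x y)))) →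
      ∫⁻ x, ENNReal.ofReal |K' x| ∂(vol φ) ≤ ENNReal.ofReal (C * z ^ (-(3 / 4) : ℝ)) := by
    intro K' y hy hK
    have e1 : z ^ (1 / 4 : ℝ) / z = z ^ (-(3 / 4) : ℝ) := by
      rw [← Real.rpow_sub_one hz0.ne']
      norm_num
    calc ∫⁻ x, ENNReal.ofReal |K' x| ∂(vol φ)
        ≤ ∫⁻ x, ENNReal.ofReal (C₀ * z ^ (1 / 4 : ℝ)) *
            ENNReal.ofReal (Real.exp (-(κ * (√z * chord x y)))) ∂(vol φ) := by
          refine lintegral_mono_ae ?_
          filter_upwards [ae_ne φ y] with x hx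
          rw [← ENNReal.ofReal_mul (by positivity)]
          exact ENNReal.ofReal_le_ofReal (hK x hx.1 hx.2)
      _ = ENNReal.ofReal (C₀ * z ^ (1 / 4 : ℝ)) *
            ∫⁻ x, ENNReal.ofReal (Real.exp (-(κ * (√z * chord x y)))) ∂(vol φ) :=
          lintegral_const_mul' _ _ ENNReal.ofReal_ne_top
      _ ≤ ENNReal.ofReal (C₀ * z ^ (1 / 4 : ℝ)) * ENNReal.ofReal (C₁ / z) := by
          gcongr
          exact h1 z hz y
      _ = ENNReal.ofReal (C₀ * z ^ (1 / 4 : ℝ) * (C₁ / z)) := by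
          rw [← ENNReal.ofReal_mul (by positivity)]
      _ ≤ _ := by
          refine ENNReal.ofReal_le_ofReal ?_
          calc C₀ * z ^ (1 / 4 : ℝ) * (C₁ / z) = C₀ * C₁ * (z ^ (1 / 4 : ℝ) / z) := by ring
            _ = C₀ * C₁ * z ^ (-(3 / 4) : ℝ) := by rw [e1]
            _ ≤ _ := by gcongr
  refine ⟨?_, gen _ (1 / 4) _ (EK_meas hM z) (by norm_num)
      (fun x y hx hy hxy => (hb z hz x y hx hy hxy).2.1),
    gen _ (-1) _ (MK_meas hM z) (by norm_num)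
      (fun x y hx hy hxy => by
        rw [Real.rpow_neg_one]
        exact (hb z hz x y hx hy hxy).2.2.1),
    gen _ (-(3 / 4)) _ (E2K_meas hM z) (by norm_num)
      (fun x y hx hy hxy => (hb z hz x y hx hy hxy).2.2.2), ?_, ?_⟩
  · have hin : ∀ᵐ y ∂(vol φ), ∫⁻ x, ENNReal.ofReal (PK φ a z x y ^ 2) ∂(vol φ) ≤
        ENNReal.ofReal (C₀ ^ 2 * (C₃ / z)) := by
      filter_upwards [hy0] with y hy
      rw [ENNReal.ofReal_mul (sq_nonneg C₀)]
      calc ∫⁻ x, ENNReal.ofReal (PK φ a z x y ^ 2) ∂(vol φ)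
          ≤ ∫⁻ x, ENNReal.ofReal (C₀ ^ 2) * ENNReal.ofReal ((√z * chord x y) ^ (-(1 / 2) : ℝ) *
              Real.exp (-(2 * κ * (√z * chord x y)))) ∂(vol φ) := by
            refine lintegral_mono_ae ?_
            filter_upwards [ae_ne φ y] with x hx
            rw [← ENNReal.ofReal_mul (sq_nonneg C₀)]
            refine ENNReal.ofReal_le_ofReal ?_
            have h4 := (hb z hz x y hx.1 hy hx.2).1
            have h5 := pow_le_pow_left₀ (abs_nonneg _) h4 2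
            have hw : 0 ≤ √z * chord x y := by unfold chord; positivity
            rw [sq_abs, mul_pow, mul_pow, ← Real.exp_nat_mul, ← Real.rpow_natCast (_ ^ _) 2,
              ← Real.rpow_mul hw] at h5
            refine h5.trans (le_of_eq ?_)
            rw [mul_assoc]
            congr 2
            · norm_num
            · congr 1
              push_cast
              ring
        _ = ENNReal.ofReal (C₀ ^ 2) * ∫⁻ x, ENNReal.ofReal ((√z * chord x y) ^ (-(1 / 2) : ℝ) *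
              Real.exp (-(2 * κ * (√z * chord x y)))) ∂(vol φ) :=
            lintegral_const_mul' _ _ ENNReal.ofReal_ne_top
        _ ≤ _ := by gcongr; exact h3 z hz y
    obtain ⟨r1, r2⟩ := memLp_of_bd (PK_meas hM z) (by positivity) hin
    refine ⟨r1, r2.trans ?_⟩
    calc C₀ ^ 2 * (C₃ / z) * (vol φ univ).toReal = C₀ ^ 2 * C₃ * V * z⁻¹ := by rw [hV]; ring
      _ ≤ _ := by gcongr
  · intro x hx
    refine e34 (fun y => EK φ a z x y) x hx (fun y hy hyx => ?_)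
    rw [chord_symm]
    exact (hb z hz x y hx hy hyx.symm).2.1
  · intro y hy
    exact e34 (fun x => EK φ a z x y) y hy (fun x hx hxy => (hb z hz x y hx hy hxy).2.1)

end

end LQZ
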