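import Pool.Agent.LQZ.Bessel

/-!
# Polar coordinates in the local computation
-/

open MeasureTheory Set Filter Topology InnerProductSpace
open scoped ContDiff ENNReal NNReal Real

namespace LQZ

noncomputable section

theorem FB_meas : Measurable FB := by
  unfold FB
  exact (kB_meas.pow_const 2).sub ((measurable_const.mul mB_meas).mul kB_meas)

private theorem loc2_re_pos {u : ℂ} (hu : ‖u‖ ≤ 1 / 2) : 0 < (1 - u).re := by
  have h1 := Complex.abs_re_le_norm u
  have h2 := le_abs_self u.re
  simp only [Complex.sub_re, Complex.one_re]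
  linarith

/-- mean value property of `log|1 - c(x-y)|` -/
theorem circleAverage_log_one_sub {c y : ℂ} {r : ℝ} (hr : 0 ≤ r) (h : ‖c‖ * r ≤ 1 / 2) :
    Real.circleAverage (fun x => Real.log ‖1 - c * (x - y)‖) y r = 0 := by
  set F : ℂ → ℂ := fun x => Complex.log (1 - c * (x - y)) with hF
  have hball : ∀ x ∈ Metric.closedBall y |r|, 1 - c * (x - y) ∈ Complex.slitPlane := by
    intro x hx
    rw [abs_of_nonneg hr] at hx
    left
    apply loc2_re_pos
    rw [norm_mul]
    rw [mem_closedBall_iff_norm] at hx
    calc ‖c‖ * ‖x - y‖ ≤ ‖c‖ * r := by gcongr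
      _ ≤ 1 / 2 := h
  have hd : DifferentiableOn ℂ F (Metric.closedBall y |r|) := by
    intro x hx
    have h1 : DifferentiableAt ℂ (fun x : ℂ => 1 - c * (x - y)) x := by fun_prop
    exact (h1.clog (hball x hx)).differentiableWithinAt
  have hd' : DiffContOnCl ℂ F (Metric.ball y |r|) :=
    (hd.mono Metric.closure_ball_subset_closedBall).diffContOnCl
  have hci : CircleIntegrable F y r :=
    (hd.continuousOn.mono Metric.sphere_subset_closedBall).circleIntegrable'
  have h1 : Real.circleAverage F y r = 0 := by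
    rw [hd'.circleAverage]
    simp [hF]
  have h2 : (fun x => Real.log ‖1 - c * (x - y)‖) = Complex.reCLM ∘ F := by
    funext x
    simp [hF, Complex.log_re]
  rw [h2, Complex.reCLM.circleAverage_comp_comm hci, h1]
  simp

private theorem loc2_symm (p : ℝ × ℝ) (y : ℂ) :
    Complex.polarCoord.symm p + y = circleMap y p.1 p.2 := by
  rw [Complex.polarCoord_symm_apply, circleMap, Complex.exp_mul_I, add_comm]
  push_cast
  ring

private theorem loc2_theta (f : ℂ → ℝ) (y : ℂ) (r : ℝ) :
    ∫ θ in Ioo (-π) π, f (circleMap y r θ) = 2 * π * Real.circleAverage f y r := by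
  rw [Real.circleAverage_def, smul_eq_mul, ← mul_assoc, mul_inv_cancel₀ (by positivity), one_mul]
  rw [← integral_Ioc_eq_integral_Ioo, ← intervalIntegral.integral_of_le (by linarith [Real.pi_pos])]
  have hper : Function.Periodic (fun θ => f (circleMap y r θ)) (2 * π) := by
    intro θ
    simp only
    rw [periodic_circleMap y r θ]
  have := hper.intervalIntegral_add_eq (-π) 0
  rw [zero_add] at this
  rw [← this]
  congr 1
  ring

theorem local_polar {φ : ℂ → ℝ} {a : ℂ → ℂ} {D : ℂ → ℝ}
    {R r0 : ℝ} (hφ : IsChart φ a D R) (h0 : 0 < r0) (_h0' : r0 ≤ 1 / 5)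
    {z : ℝ} (hz : 1 ≤ z) {y : ℂ} (ha : ‖a y‖ * r0 ≤ 1 / 2) :
    ∫ x in Metric.ball y r0, 2 * (φ x - φ y + 2 * Real.log ‖1 - a y * (x - y) / 2‖) *
      FB (√z * (Real.exp (φ y) * ‖x - y‖)) * Real.exp (2 * φ y) =
    4 * π * Real.exp (2 * φ y) * ∫ r in Ioo 0 r0,
      FB (√z * (Real.exp (φ y) * r)) * (Real.circleAverage φ y r - φ y) * r := by
  have hcont : Continuous φ := hφ.toIsGrow.cont
  set B : ℂ → ℝ := fun x => φ x - φ y + 2 * Real.log ‖1 - a y * (x - y) / 2‖ with hB
  set κ : ℝ := √z * Real.exp (φ y) with hκ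
  have hκ0 : 0 < κ := by positivity
  set g : ℂ → ℝ := fun x => 2 * B x * FB (κ * ‖x - y‖) * Real.exp (2 * φ y) with hg
  have hBm : Measurable B := by
    have : Measurable fun x : ℂ => Real.log ‖1 - a y * (x - y) / 2‖ := by fun_prop
    exact (hcont.measurable.sub_const _).add (this.const_mul 2)
  have hgm : Measurable g := by
    have h1 : Measurable fun x : ℂ => FB (κ * ‖x - y‖) := FB_meas.comp (by fun_prop)
    exact ((hBm.const_mul 2).mul h1).mul_const _
  -- bound of `B`
  have hBc : ContinuousOn B (Metric.closedBall y r0) := by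
    refine (hcont.continuousOn.sub continuousOn_const).add (continuousOn_const.mul ?_)
    refine ContinuousOn.log (by fun_prop) fun x hx => ?_
    have h1 : ‖a y * (x - y) / 2‖ ≤ 1 / 2 := by
      rw [mem_closedBall_iff_norm] at hx
      rw [norm_div, norm_mul]
      have h2 : ‖a y‖ * ‖x - y‖ ≤ 1 / 2 := le_trans (by gcongr) ha
      have h3 : ‖(2 : ℂ)‖ = 2 := by simp
      rw [h3]
      linarith
    have h2 := loc2_re_pos h1
    rw [norm_ne_zero_iff]
    intro h3
    rw [h3] at h2
    simp at h2
  obtain ⟨M, hM⟩ := (isCompact_closedBall y r0).exists_bound_of_continuousOn hBc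
  have hM0 : 0 ≤ M := (norm_nonneg _).trans (hM y (Metric.mem_closedBall_self h0.le))
  obtain ⟨C, hC, hFB⟩ := FB_le
  -- rewrite the left side
  have e0 : ∫ x in Metric.ball y r0, 2 * (φ x - φ y + 2 * Real.log ‖1 - a y * (x - y) / 2‖) *
      FB (√z * (Real.exp (φ y) * ‖x - y‖)) * Real.exp (2 * φ y) =
      ∫ x in Metric.ball y r0, g x := by
    congr 1
    funext x
    simp only [hg, hB, hκ, mul_assoc]
  set H : ℝ × ℝ → ℝ := fun p => (Iio r0).indicator (fun r => r) p.1 * g (circleMap y p.1 p.2) with hH
  have e1 : ∫ x in Metric.ball y r0, g x =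
      ∫ p in Ioi (0 : ℝ) ×ˢ Ioo (-π) π, H p := by
    rw [← integral_indicator Metric.isOpen_ball.measurableSet,
      ← integral_add_right_eq_self (μ := volume) _ y, ← Complex.integral_comp_polarCoord_symm]
    rw [polarCoord_target]
    refine setIntegral_congr_fun (measurableSet_Ioi.prod measurableSet_Ioo) fun p hp => ?_
    have hp1 : 0 < p.1 := hp.1
    simp only [smul_eq_mul]
    rw [loc2_symm, hH]
    simp only
    by_cases hr : p.1 < r0
    · have h1 : circleMap y p.1 p.2 ∈ Metric.ball y r0 := by
        rw [mem_ball_iff_norm, circleMap_sub_center, norm_circleMap_zero, abs_of_pos hp1]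
        exact hr
      rw [indicator_of_mem h1, indicator_of_mem (show p.1 ∈ Iio r0 from hr)]
    · have h1 : circleMap y p.1 p.2 ∉ Metric.ball y r0 := by
        rw [mem_ball_iff_norm, circleMap_sub_center, norm_circleMap_zero, abs_of_pos hp1]
        exact hr
      rw [indicator_of_notMem h1, indicator_of_notMem (show p.1 ∉ Iio r0 from hr)]
      simp
  have hHm : Measurable H := by
    have h1 : Measurable fun p : ℝ × ℝ => circleMap y p.1 p.2 := by
      unfold circleMap; fun_prop
    exact ((measurable_id.indicator measurableSet_Iio).comp measurable_fst).mul (hgm.comp h1)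
  have hHi : IntegrableOn H (Ioi (0 : ℝ) ×ˢ Ioo (-π) π) (volume.prod volume) := by
    set K : ℝ := 2 * M * (C * κ ^ (-(1 / 2) : ℝ)) * Real.exp (2 * φ y) with hK
    have hK0 : 0 ≤ K := by positivity
    have hdom : IntegrableOn (fun p : ℝ × ℝ => (K * (Ioc 0 r0).indicator
        (fun r => r ^ (1 / 2 : ℝ)) p.1) * (1 : ℝ)) (Ioi (0 : ℝ) ×ˢ Ioo (-π) π)
        (volume.prod volume) := by
      rw [IntegrableOn, ← Measure.prod_restrict]
      refine Integrable.mul_prod (f := fun r : ℝ => K * (Ioc 0 r0).indicator
        (fun r => r ^ (1 / 2 : ℝ)) r) (g := fun _ : ℝ => (1 : ℝ)) ?_ ?_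
      · apply Integrable.const_mul
        have h1 : IntegrableOn (fun r : ℝ => r ^ (1 / 2 : ℝ)) (Ioc 0 r0) := by
          rw [← intervalIntegrable_iff_integrableOn_Ioc_of_le h0.le]
          exact intervalIntegral.intervalIntegrable_rpow' (by norm_num)
        exact (h1.integrable_indicator measurableSet_Ioc).integrableOn
      · exact integrable_const _
    refine Integrable.mono' hdom hHm.aestronglyMeasurable
      ((ae_restrict_iff' (measurableSet_Ioi.prod measurableSet_Ioo)).mpr
        (Eventually.of_forall fun p hp => ?_))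
    have hp1 : 0 < p.1 := hp.1
    by_cases hr : p.1 < r0
    · rw [hH]
      simp only
      rw [indicator_of_mem (show p.1 ∈ Iio r0 from hr),
        indicator_of_mem (show p.1 ∈ Ioc 0 r0 from ⟨hp1, hr.le⟩), mul_one]
      have hn : ‖circleMap y p.1 p.2 - y‖ = p.1 := by
        rw [circleMap_sub_center, norm_circleMap_zero, abs_of_pos hp1]
      have h1 : |B (circleMap y p.1 p.2)| ≤ M := by
        have := hM (circleMap y p.1 p.2) (by rw [mem_closedBall_iff_norm, hn]; exact hr.le)
        rwa [Real.norm_eq_abs] at this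
      have h2 : |FB (κ * p.1)| ≤ C * κ ^ (-(1 / 2) : ℝ) * p.1 ^ (-(1 / 2) : ℝ) := by
        refine (hFB _ (by positivity)).trans ?_
        rw [Real.mul_rpow hκ0.le hp1.le, ← mul_assoc]
        have : Real.exp (-(κ * p.1) / 2) ≤ 1 := by
          apply Real.exp_le_one_iff.mpr
          have := mul_pos hκ0 hp1
          linarith
        have h3 : 0 ≤ C * κ ^ (-(1 / 2) : ℝ) * p.1 ^ (-(1 / 2) : ℝ) := by positivity
        nlinarith
      have h4 : p.1 * p.1 ^ (-(1 / 2) : ℝ) = p.1 ^ (1 / 2 : ℝ) := by
        nth_rewrite 1 [← Real.rpow_one p.1]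
        rw [← Real.rpow_add hp1]
        norm_num
      rw [hg]
      simp only
      rw [hn, Real.norm_eq_abs, abs_mul, abs_mul, abs_mul, abs_mul, abs_of_pos hp1,
        abs_of_pos (Real.exp_pos _), abs_of_pos (show (0 : ℝ) < 2 by norm_num)]
      calc p.1 * (2 * |B (circleMap y p.1 p.2)| * |FB (κ * p.1)| * Real.exp (2 * φ y))
          ≤ p.1 * (2 * M * (C * κ ^ (-(1 / 2) : ℝ) * p.1 ^ (-(1 / 2) : ℝ)) *
            Real.exp (2 * φ y)) := by gcongr
        _ = K * (p.1 * p.1 ^ (-(1 / 2) : ℝ)) := by rw [hK]; ring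
        _ = K * p.1 ^ (1 / 2 : ℝ) := by rw [h4]
    · rw [hH]
      simp only
      rw [indicator_of_notMem (show p.1 ∉ Iio r0 from hr)]
      rw [zero_mul, norm_zero, mul_one]
      exact mul_nonneg hK0 (indicator_nonneg (fun r hr => Real.rpow_nonneg hr.1.le _) _)
  rw [e0, e1, Measure.volume_eq_prod, setIntegral_prod _ hHi]
  -- the inner integral
  have e2 : ∀ r ∈ Ioi (0 : ℝ), ∫ θ in Ioo (-π) π, H (r, θ) =
      (Ioo 0 r0).indicator (fun r => 4 * π * Real.exp (2 * φ y) *
        (FB (√z * (Real.exp (φ y) * r)) * (Real.circleAverage φ y r - φ y) * r)) r := by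
    intro r hr0
    have hr0' : 0 < r := hr0
    by_cases hr : r < r0
    · rw [indicator_of_mem (show r ∈ Ioo 0 r0 from ⟨hr0, hr⟩)]
      have hcr : ‖a y / 2‖ * r ≤ 1 / 2 := by
        rw [norm_div]
        have h3 : ‖(2 : ℂ)‖ = 2 := by simp
        rw [h3]
        have : ‖a y‖ * r ≤ ‖a y‖ * r0 := by gcongr
        linarith
      have hlog := circleAverage_log_one_sub (c := a y / 2) (y := y) hr0'.le hcr
      have hBav : Real.circleAverage B y r = Real.circleAverage φ y r - φ y := by
        have hi1 : CircleIntegrable φ y r := hcont.continuousOn.circleIntegrable'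
        have hi2 : CircleIntegrable (fun x => Real.log ‖1 - a y / 2 * (x - y)‖) y r := by
          apply ContinuousOn.circleIntegrable'
          refine ContinuousOn.log (by fun_prop) fun x hx => ?_
          rw [abs_of_pos hr0', mem_sphere_iff_norm] at hx
          have h1 : ‖a y / 2 * (x - y)‖ ≤ 1 / 2 := by rw [norm_mul, hx]; exact hcr
          have h2 := loc2_re_pos h1
          rw [norm_ne_zero_iff]
          intro h3
          rw [h3] at h2
          simp at h2
        have e : B = (fun x => φ x - φ y) + fun x => 2 * Real.log ‖1 - a y / 2 * (x - y)‖ := by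
          funext x
          simp only [hB, Pi.add_apply]
          congr 4
          ring
        have hi1' : CircleIntegrable (fun x => φ x - φ y) y r :=
          (hcont.sub continuous_const).continuousOn.circleIntegrable'
        have hi2' : CircleIntegrable (fun x => 2 * Real.log ‖1 - a y / 2 * (x - y)‖) y r := by
          have := hi2.const_fun_smul (a := (2 : ℝ))
          simpa [smul_eq_mul] using this
        rw [e, Real.circleAverage_add hi1' hi2']
        have e1 : Real.circleAverage (fun x => φ x - φ y) y r =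
            Real.circleAverage φ y r - φ y := by
          have h5 : (fun x => φ x - φ y) = φ - fun _ => φ y := rfl
          rw [h5, Real.circleAverage_sub hi1 (circleIntegrable_const _ _ _),
            Real.circleAverage_const]
        have e2 : Real.circleAverage (fun x => 2 * Real.log ‖1 - a y / 2 * (x - y)‖) y r = 0 := by
          have h5 : (fun x => 2 * Real.log ‖1 - a y / 2 * (x - y)‖) =
            (2 : ℝ) • fun x => Real.log ‖1 - a y / 2 * (x - y)‖ := rfl
          rw [h5, Real.circleAverage_smul, hlog, smul_zero]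
        rw [e1, e2, add_zero]
      have e3 : ∀ θ, H (r, θ) = r * 2 * FB (κ * r) * Real.exp (2 * φ y) *
          B (circleMap y r θ) := by
        intro θ
        rw [hH]
        simp only
        rw [indicator_of_mem (show r ∈ Iio r0 from hr), hg]
        simp only
        rw [circleMap_sub_center, norm_circleMap_zero, abs_of_pos hr0']
        ring
      simp_rw [e3]
      rw [integral_const_mul, loc2_theta B y r, hBav, hκ]
      ring_nf
    · rw [indicator_of_notMem (show r ∉ Ioo 0 r0 from fun h => hr h.2)]
      have e3 : ∀ θ, H (r, θ) = 0 := by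
        intro θ
        rw [hH]
        simp only
        rw [indicator_of_notMem (show r ∉ Iio r0 from hr), zero_mul]
      simp_rw [e3]
      simp
  rw [setIntegral_congr_fun measurableSet_Ioi e2, setIntegral_indicator measurableSet_Ioo]
  have e4 : Ioi (0 : ℝ) ∩ Ioo 0 r0 = Ioo 0 r0 := by
    ext r; simp
  rw [e4, integral_const_mul]

end

end LQZ
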