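import Pool.Agent.LQZ.Bessel
import Pool.Agent.LQZ.Met

/-!
# Project LQZ, module LOC3: integration over the disc
-/

open MeasureTheory Set Filter Topology InnerProductSpace
open scoped ContDiff ENNReal NNReal Real

namespace LQZ

noncomputable section

variable {ψ χ f g η φ φ' u : ℂ → ℝ} {a a' : ℂ → ℂ} {D D' : ℂ → ℝ}

/-- majorant of `FB` -/
def l3h (C c u : ℝ) : ℝ := C * (c * u) ^ (-(1 / 2) : ℝ) * Real.exp (-(c * u) / 2)

theorem l3h_nonneg {C c u : ℝ} (hC : 0 < C) (hc : 0 < c) (hu : 0 ≤ u) : 0 ≤ l3h C c u := by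
  unfold l3h
  positivity

theorem l3h_meas (C c : ℝ) : Measurable (l3h C c) := by
  unfold l3h
  fun_prop

theorem loc3_FB_meas : Measurable FB :=
  (kB_meas.pow_const 2).sub ((mB_meas.const_mul 2).mul kB_meas)

theorem l3h_integrable (C : ℝ) {c : ℝ} (hc : 0 < c) (k : ℕ) :
    IntegrableOn (fun u => l3h C c u * u ^ k) (Ioi 0) := by
  have hk : (-1 : ℝ) < (k : ℝ) - 1 / 2 := by
    have : (0 : ℝ) ≤ k := Nat.cast_nonneg k
    linarith
  have h1 := integrableOn_rpow_mul_exp_neg_mul_rpow (p := 1) hk one_pos (half_pos hc)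
  have h2 := h1.const_mul (C * c ^ (-(1 / 2) : ℝ))
  refine IntegrableOn.congr_fun h2 (fun u hu => ?_) measurableSet_Ioi
  have hu0 : 0 < u := hu
  simp only [l3h]
  rw [Real.mul_rpow hc.le hu0.le, Real.rpow_sub hu0, Real.rpow_natCast, Real.rpow_neg hu0.le,
    Real.rpow_one]
  have : -(c * u) / 2 = -(c / 2) * u := by ring
  rw [this]
  field_simp

theorem l3_scale (f : ℝ → ℝ) (k : ℕ) {s : ℝ} (hs : 0 < s) :
    ∫ r in Ioi 0, f (s * r) * r ^ k = (s ^ (k + 1))⁻¹ * ∫ u in Ioi 0, f u * u ^ k := by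
  have h := integral_comp_mul_left_Ioi (fun u => f u * u ^ k) 0 hs
  rw [mul_zero, smul_eq_mul] at h
  have h2 : ∫ r in Ioi 0, f (s * r) * (s * r) ^ k = s ^ k * ∫ r in Ioi 0, f (s * r) * r ^ k := by
    rw [← integral_const_mul]
    refine integral_congr_ae (Eventually.of_forall fun r => ?_)
    simp only
    rw [mul_pow]
    ring
  rw [h2] at h
  rw [pow_succ, mul_inv, mul_assoc, ← h, ← mul_assoc, inv_mul_cancel₀ (pow_ne_zero k hs.ne'),
    one_mul]

theorem l3_scale_int {f : ℝ → ℝ} {k : ℕ} (hf : IntegrableOn (fun u => f u * u ^ k) (Ioi 0))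
    {s : ℝ} (hs : 0 < s) : IntegrableOn (fun r => f (s * r) * r ^ k) (Ioi 0) := by
  have h := (integrableOn_Ioi_comp_mul_left_iff (fun u => f u * u ^ k) 0 hs).mpr
    (by rwa [mul_zero])
  have h2 := h.const_mul (s ^ k)⁻¹
  refine IntegrableOn.congr_fun h2 (fun r _ => ?_) measurableSet_Ioi
  rw [mul_pow]
  have := pow_ne_zero k hs.ne'
  field_simp

theorem l3_FB_le {C c : ℝ} (hC : 0 < C) (hc : 0 < c)
    (hF : ∀ v : ℝ, 0 < v → |FB v| ≤ C * v ^ (-(1 / 2) : ℝ) * Real.exp (-v / 2))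
    {z E r : ℝ} (hz : 0 < z) (hE : c ≤ E) (hr : 0 < r) :
    |FB (√z * (E * r))| ≤ l3h C c (√z * r) := by
  have hE0 : 0 < E := lt_of_lt_of_le hc hE
  have hsz : 0 < √z := Real.sqrt_pos.mpr hz
  have h1 := hF (√z * (E * r)) (by positivity)
  have h2 : c * (√z * r) ≤ √z * (E * r) := by
    have : √z * (E * r) = E * (√z * r) := by ring
    rw [this]
    gcongr
  refine h1.trans ?_
  unfold l3h
  have h3 : (√z * (E * r)) ^ (-(1 / 2) : ℝ) ≤ (c * (√z * r)) ^ (-(1 / 2) : ℝ) :=
    Real.rpow_le_rpow_of_nonpos (by positivity) h2 (by norm_num)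
  gcongr

theorem l3_point {C c : ℝ} (hC : 0 < C) (hc : 0 < c)
    (hF : ∀ v : ℝ, 0 < v → |FB v| ≤ C * v ^ (-(1 / 2) : ℝ) * Real.exp (-v / 2))
    {z E r0 : ℝ} (hz : 0 < z) (hE : c ≤ E) (h0 : 0 < r0) {m : ℝ → ℝ} (hm : Measurable m)
    {b : ℝ} (hb : ∀ r ∈ Ioo 0 r0, |m r| ≤ b) (d : ℝ) :
    |(∫ r in Ioo 0 r0, FB (√z * (E * r)) * m r * r) -
        d / 4 * ((E ^ 4)⁻¹ * (∫ u in Ioi 0, FB u * u ^ 3) / z ^ 2)| ≤
      (∫ r in Ioo 0 r0, l3h C c (√z * r) * r * |m r - r ^ 2 / 4 * d|) +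
        |d| / (4 * r0) * ((√z ^ 5)⁻¹ * ∫ u in Ioi 0, l3h C c u * u ^ 4) := by
  have hE0 : 0 < E := lt_of_lt_of_le hc hE
  have hsz : 0 < √z := Real.sqrt_pos.mpr hz
  have hbnd : ∀ r, 0 < r → |FB (√z * (E * r))| ≤ l3h C c (√z * r) := fun r hr =>
    l3_FB_le hC hc hF hz hE hr
  have hFm : Measurable fun r => FB (√z * (E * r)) := loc3_FB_meas.comp (by fun_prop)
  have hh : ∀ k : ℕ, IntegrableOn (fun r => l3h C c (√z * r) * r ^ k) (Ioi 0) := fun k =>
    l3_scale_int (l3h_integrable C hc k) hsz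
  have hFi : ∀ k : ℕ, IntegrableOn (fun r => FB (√z * (E * r)) * r ^ k) (Ioi 0) := by
    intro k
    refine Integrable.mono' (hh k) (hFm.mul (by fun_prop)).aestronglyMeasurable ?_
    refine (ae_restrict_iff' measurableSet_Ioi).mpr (Eventually.of_forall fun r hr => ?_)
    have hr0 : (0 : ℝ) < r := hr
    rw [norm_mul, norm_pow, Real.norm_of_nonneg hr0.le]
    exact mul_le_mul_of_nonneg_right (hbnd r hr0) (by positivity)
  have hsub : Ioo 0 r0 ⊆ Ioi (0 : ℝ) := fun r hr => hr.1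
  have hsub' : Ici r0 ⊆ Ioi (0 : ℝ) := fun r hr => lt_of_lt_of_le h0 hr
  -- the exact main term
  have hK : (E ^ 4)⁻¹ * (∫ u in Ioi 0, FB u * u ^ 3) / z ^ 2 =
      (∫ r in Ioo 0 r0, FB (√z * (E * r)) * r ^ 3) +
        ∫ r in Ici r0, FB (√z * (E * r)) * r ^ 3 := by
    rw [← setIntegral_union (by
      rw [Set.disjoint_left]
      intro x hx hx'
      exact absurd hx.2 (not_lt.mpr hx')) measurableSet_Ici ((hFi 3).mono_set hsub)
      ((hFi 3).mono_set hsub'), Ioo_union_Ici_eq_Ioi h0]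
    have h1 := l3_scale FB 3 (mul_pos hsz hE0)
    simp only [mul_assoc] at h1
    rw [h1]
    have h2 : (√z * E) ^ (3 + 1) = z ^ 2 * E ^ 4 := by
      have h3 : √z ^ 2 = z := Real.sq_sqrt hz.le
      calc (√z * E) ^ (3 + 1) = (√z ^ 2) ^ 2 * E ^ 4 := by ring
        _ = _ := by rw [h3]
    rw [h2]
    field_simp
  -- integrability of the first part
  have hi1 : IntegrableOn (fun r => FB (√z * (E * r)) * m r * r) (Ioo 0 r0) := by
    have h1 : IntegrableOn (fun r => b * (l3h C c (√z * r) * r ^ 1)) (Ioo 0 r0) :=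
      ((hh 1).mono_set hsub).const_mul b
    refine Integrable.mono' h1 ((hFm.mul hm).mul measurable_id).aestronglyMeasurable ?_
    refine (ae_restrict_iff' measurableSet_Ioo).mpr (Eventually.of_forall fun r hr => ?_)
    have hr0 : (0 : ℝ) < r := hr.1
    rw [norm_mul, norm_mul, Real.norm_of_nonneg hr0.le, Real.norm_eq_abs, Real.norm_eq_abs]
    calc |FB (√z * (E * r))| * |m r| * r ≤ l3h C c (√z * r) * b * r := by
          have := hbnd r hr0
          have := hb r hr
          gcongr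
          exact l3h_nonneg hC hc (by positivity)
      _ = _ := by ring
  have hi2 : IntegrableOn (fun r => d / 4 * (FB (√z * (E * r)) * r ^ 3)) (Ioo 0 r0) :=
    ((hFi 3).mono_set hsub).const_mul _
  have e1 : (∫ r in Ioo 0 r0, FB (√z * (E * r)) * m r * r) -
      d / 4 * ((E ^ 4)⁻¹ * (∫ u in Ioi 0, FB u * u ^ 3) / z ^ 2) =
      (∫ r in Ioo 0 r0, (FB (√z * (E * r)) * r * (m r - r ^ 2 / 4 * d))) -
        d / 4 * ∫ r in Ici r0, FB (√z * (E * r)) * r ^ 3 := by
    have e2 : ∫ r in Ioo 0 r0, (FB (√z * (E * r)) * r * (m r - r ^ 2 / 4 * d)) =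
        (∫ r in Ioo 0 r0, FB (√z * (E * r)) * m r * r) -
          d / 4 * ∫ r in Ioo 0 r0, FB (√z * (E * r)) * r ^ 3 := by
      rw [← integral_const_mul, ← integral_sub hi1 hi2]
      refine integral_congr_ae (Eventually.of_forall fun r => ?_)
      simp only
      ring
    rw [hK, e2]
    ring
  rw [e1]
  -- first error
  have f1 : |∫ r in Ioo 0 r0, (FB (√z * (E * r)) * r * (m r - r ^ 2 / 4 * d))| ≤
      ∫ r in Ioo 0 r0, l3h C c (√z * r) * r * |m r - r ^ 2 / 4 * d| := by
    rw [← Real.norm_eq_abs]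
    refine norm_integral_le_of_norm_le ?_ ?_
    · have h1 : IntegrableOn (fun r => (b + r0 ^ 2 / 4 * |d|) * (l3h C c (√z * r) * r ^ 1))
        (Ioo 0 r0) := ((hh 1).mono_set hsub).const_mul _
      refine Integrable.mono' h1 ?_ ?_
      · exact ((((l3h_meas C c).comp (by fun_prop)).mul measurable_id).mul
          ((hm.sub (by fun_prop)).norm)).aestronglyMeasurable
      refine (ae_restrict_iff' measurableSet_Ioo).mpr (Eventually.of_forall fun r hr => ?_)
      have hr0 : (0 : ℝ) < r := hr.1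
      have hh0 : 0 ≤ l3h C c (√z * r) := l3h_nonneg hC hc (by positivity)
      rw [Real.norm_of_nonneg (by positivity)]
      have h2 : |m r - r ^ 2 / 4 * d| ≤ b + r0 ^ 2 / 4 * |d| := by
        refine (abs_sub _ _).trans (add_le_add (hb r hr) ?_)
        rw [abs_mul, abs_of_nonneg (by positivity : (0 : ℝ) ≤ r ^ 2 / 4)]
        have := hr.2.le
        gcongr
      calc l3h C c (√z * r) * r * |m r - r ^ 2 / 4 * d| ≤
          l3h C c (√z * r) * r * (b + r0 ^ 2 / 4 * |d|) := by gcongr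
        _ = _ := by ring
    · refine (ae_restrict_iff' measurableSet_Ioo).mpr (Eventually.of_forall fun r hr => ?_)
      have hr0 : (0 : ℝ) < r := hr.1
      rw [norm_mul, norm_mul, Real.norm_of_nonneg hr0.le, Real.norm_eq_abs, Real.norm_eq_abs]
      have := hbnd r hr0
      gcongr
  have f2 : |∫ r in Ici r0, FB (√z * (E * r)) * r ^ 3| ≤
      1 / r0 * ((√z ^ 5)⁻¹ * ∫ u in Ioi 0, l3h C c u * u ^ 4) := by
    have h1 := l3_scale (l3h C c) 4 hsz
    rw [← h1, ← integral_const_mul]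
    have h2 : ∫ r in Ici r0, 1 / r0 * (l3h C c (√z * r) * r ^ 4) ≤
        ∫ r in Ioi 0, 1 / r0 * (l3h C c (√z * r) * r ^ 4) := by
      refine setIntegral_mono_set ((hh 4).const_mul _) ?_ (Eventually.of_forall hsub')
      refine (ae_restrict_iff' measurableSet_Ioi).mpr (Eventually.of_forall fun r hr => ?_)
      have hr0 : (0 : ℝ) < r := hr
      have hh0 : 0 ≤ l3h C c (√z * r) := l3h_nonneg hC hc (by positivity)
      simp only [Pi.zero_apply]
      positivity
    refine le_trans ?_ h2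
    rw [← Real.norm_eq_abs]
    refine norm_integral_le_of_norm_le (((hh 4).mono_set hsub').const_mul _) ?_
    refine (ae_restrict_iff' measurableSet_Ici).mpr (Eventually.of_forall fun r hr => ?_)
    have hr' : r0 ≤ r := hr
    have hr0 : (0 : ℝ) < r := lt_of_lt_of_le h0 hr'
    have hh0 : 0 ≤ l3h C c (√z * r) := l3h_nonneg hC hc (by positivity)
    rw [norm_mul, norm_pow, Real.norm_of_nonneg hr0.le, Real.norm_eq_abs]
    calc |FB (√z * (E * r))| * r ^ 3 ≤ l3h C c (√z * r) * r ^ 3 * 1 := by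
          rw [mul_one]
          have := hbnd r hr0
          gcongr
      _ ≤ l3h C c (√z * r) * r ^ 3 * (r / r0) := by
          gcongr
          rwa [one_le_div h0]
      _ = _ := by ring
  refine (abs_sub _ _).trans (add_le_add f1 ?_)
  rw [abs_mul, abs_div, abs_of_pos (by norm_num : (0 : ℝ) < 4)]
  calc |d| / 4 * |∫ r in Ici r0, FB (√z * (E * r)) * r ^ 3| ≤
      |d| / 4 * (1 / r0 * ((√z ^ 5)⁻¹ * ∫ u in Ioi 0, l3h C c u * u ^ 4)) := by gcongr
    _ = _ := by
      field_simp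

theorem l3_setvol (hφ : IsGrow φ) {s : Set ℂ} (hs : MeasurableSet s) (f : ℂ → ℝ) :
    ∫ y in s, f y ∂(vol φ) = ∫ y in s, Real.exp (2 * φ y) * f y := by
  rw [← integral_indicator hs, hφ.integral_vol, ← integral_indicator hs]
  refine integral_congr_ae (Eventually.of_forall fun y => ?_)
  by_cases hy : y ∈ s
  · simp [hy]
  · simp [hy]

theorem l3_avg_cont (hφ : Continuous φ) :
    Continuous fun p : ℂ × ℝ => Real.circleAverage φ p.1 p.2 - φ p.1 := by
  have h1 : Continuous fun p : ℂ × ℝ => ∫ θ in (0 : ℝ)..2 * π, φ (circleMap p.1 p.2 θ) := by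
    refine intervalIntegral.continuous_parametric_intervalIntegral_of_continuous'
      (f := fun (p : ℂ × ℝ) θ => φ (circleMap p.1 p.2 θ)) ?_ 0 (2 * π)
    refine hφ.comp ?_
    unfold circleMap
    fun_prop
  have h2 : Continuous fun p : ℂ × ℝ => Real.circleAverage φ p.1 p.2 := by
    unfold Real.circleAverage
    simp only [smul_eq_mul]
    exact continuous_const.mul h1
  exact h2.sub (hφ.comp continuous_fst)

theorem l3_sqrt_pow {z : ℝ} (hz : 1 ≤ z) : (√z ^ 5)⁻¹ ≤ z ^ (-(9 / 4) : ℝ) := by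
  have hz0 : 0 < z := by linarith
  have h1 : √z ^ 5 = z ^ (5 / 2 : ℝ) := by
    rw [Real.sqrt_eq_rpow, ← Real.rpow_natCast, ← Real.rpow_mul hz0.le]
    norm_num
  rw [h1, ← Real.rpow_neg hz0.le]
  exact Real.rpow_le_rpow_of_exponent_le hz (by norm_num)

theorem local_main {R r0 : ℝ} (hφ : IsChart φ a D R) (h0 : 0 < r0) (h0' : r0 ≤ 1 / 5) :
    ∃ B C : ℝ, ∀ z : ℝ, 1 ≤ z →
      |∫ y in Metric.ball 0 R, 4 * π * Real.exp (2 * φ y) * (∫ r in Ioo 0 r0,
        FB (√z * (Real.exp (φ y) * r)) * (Real.circleAverage φ y r - φ y) * r) ∂(vol φ) -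
        B / z ^ 2| ≤ C * z ^ (-(9 / 4) : ℝ) := by
  obtain ⟨CF, hCF, hF⟩ := FB_le
  obtain ⟨Ca, hCa⟩ := hφ.avg
  have hMc := l3_avg_cont hφ.cont
  obtain ⟨b, hb⟩ := (isCompact_closedBall (0 : ℂ) R).exists_bound_of_continuousOn
    hφ.cont.continuousOn
  obtain ⟨bM, hbM⟩ := ((isCompact_closedBall (0 : ℂ) R).prod
    (isCompact_Icc (a := (0 : ℝ)) (b := r0))).exists_bound_of_continuousOn hMc.continuousOn
  set c : ℝ := Real.exp (-b) with hc
  have hc0 : 0 < c := Real.exp_pos _
  set B : Set ℂ := Metric.ball 0 R with hB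
  have hBm : MeasurableSet B := measurableSet_ball
  have hBfin : volume B < ⊤ := measure_ball_lt_top
  set M : ℂ → ℝ → ℝ := fun y r => Real.circleAverage φ y r - φ y with hM
  have hMm : Measurable (Function.uncurry M) := hMc.measurable
  have hbM' : ∀ y ∈ B, ∀ r ∈ Ioo 0 r0, |M y r| ≤ bM := fun y hy r hr =>
    hbM (y, r) ⟨Metric.ball_subset_closedBall hy, hr.1.le, hr.2.le⟩
  have hcE : ∀ y ∈ B, c ≤ Real.exp (φ y) := by
    intro y hy
    apply Real.exp_le_exp.mpr
    have := hb y (Metric.ball_subset_closedBall hy)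
    rw [Real.norm_eq_abs, abs_le] at this
    exact this.1
  have hE4 : ∀ y ∈ B, Real.exp (4 * φ y) ≤ Real.exp (4 * b) := by
    intro y hy
    apply Real.exp_le_exp.mpr
    have := hb y (Metric.ball_subset_closedBall hy)
    rw [Real.norm_eq_abs, abs_le] at this
    linarith [this.2]
  set K : ℝ := ∫ u in Ioi 0, FB u * u ^ 3 with hK
  set H4 : ℝ := ∫ u in Ioi 0, l3h CF c u * u ^ 4 with hH4
  have hH40 : 0 ≤ H4 := by
    refine setIntegral_nonneg measurableSet_Ioi fun u hu => ?_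
    have hu0 : (0 : ℝ) < u := hu
    have := l3h_nonneg hCF hc0 hu0.le
    positivity
  have hDi : Integrable D (volume.restrict B) := hφ.Dint
  clear_value K H4
  refine ⟨π * K * ∫ y in B, D y,
    4 * π * Real.exp (4 * b) * (|Ca| * H4 + (∫ y in B, |D y|) / (4 * r0) * H4), fun z hz => ?_⟩
  have hz0 : 0 < z := by linarith
  have hsz : 0 < √z := Real.sqrt_pos.mpr hz0
  rw [l3_setvol hφ.toIsGrow hBm]
  set J : ℂ → ℝ := fun y => ∫ r in Ioo 0 r0, FB (√z * (Real.exp (φ y) * r)) * M y r * r with hJ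
  have hPJ : ∀ y, Real.exp (2 * φ y) * (4 * π * Real.exp (2 * φ y) * (∫ r in Ioo 0 r0,
      FB (√z * (Real.exp (φ y) * r)) * (Real.circleAverage φ y r - φ y) * r)) =
      4 * π * Real.exp (4 * φ y) * J y := by
    intro y
    have : Real.exp (4 * φ y) = Real.exp (2 * φ y) * Real.exp (2 * φ y) := by
      rw [← Real.exp_add]; ring_nf
    rw [this]
    simp only [hJ, hM]
    ring
  simp only [hPJ]
  -- measurability of `J`
  have hJm : Measurable J := by
    have h1 : Measurable (fun p : ℂ × ℝ =>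
        FB (√z * (Real.exp (φ p.1) * p.2)) * M p.1 p.2 * p.2) := by
      refine Measurable.mul (Measurable.mul (loc3_FB_meas.comp ?_) hMm) measurable_snd
      exact ((Real.measurable_exp.comp (hφ.cont.measurable.comp measurable_fst)).mul
        measurable_snd).const_mul _
    exact (h1.stronglyMeasurable.integral_prod_right' (ν := volume.restrict (Ioo 0 r0))).measurable
  -- the majorant on the product
  set Φ : ℂ → ℝ → ℝ := fun y r => l3h CF c (√z * r) * r * |M y r - r ^ 2 / 4 * D y| with hΦ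
  have hh : ∀ k : ℕ, IntegrableOn (fun r => l3h CF c (√z * r) * r ^ k) (Ioi 0) := fun k =>
    l3_scale_int (l3h_integrable CF hc0 k) hsz
  have hsub : Ioo 0 r0 ⊆ Ioi (0 : ℝ) := fun r hr => hr.1
  have hΦi : Integrable (Function.uncurry Φ)
      ((volume.restrict B).prod (volume.restrict (Ioo 0 r0))) := by
    have h1 : Integrable (fun y => |bM| + |D y|) (volume.restrict B) := by
      refine Integrable.add ?_ hDi.abs
      exact integrableOn_const hBfin.ne
    have h2 : Integrable (fun r => l3h CF c (√z * r) * r ^ 1) (volume.restrict (Ioo 0 r0)) :=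
      (hh 1).mono_set hsub
    refine Integrable.mono' (h1.mul_prod h2) ?_ ?_
    · have h3 : AEStronglyMeasurable (fun p : ℂ × ℝ => D p.1)
          ((volume.restrict B).prod (volume.restrict (Ioo 0 r0))) :=
        hDi.aestronglyMeasurable.comp_fst
      have h4 : AEStronglyMeasurable (fun p : ℂ × ℝ => l3h CF c (√z * p.2) * p.2)
          ((volume.restrict B).prod (volume.restrict (Ioo 0 r0))) :=
        (((l3h_meas CF c).comp (measurable_snd.const_mul _)).mul
          measurable_snd).aestronglyMeasurable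
      have h5 : AEStronglyMeasurable (fun p : ℂ × ℝ => M p.1 p.2)
          ((volume.restrict B).prod (volume.restrict (Ioo 0 r0))) := hMm.aestronglyMeasurable
      have h6 : AEStronglyMeasurable (fun p : ℂ × ℝ => p.2 ^ 2 / 4)
          ((volume.restrict B).prod (volume.restrict (Ioo 0 r0))) :=
        ((measurable_snd.pow_const 2).div_const 4).aestronglyMeasurable
      exact h4.mul (h5.sub (h6.mul h3)).norm
    · rw [Measure.prod_restrict]
      refine (ae_restrict_iff' (hBm.prod measurableSet_Ioo)).mpr (Eventually.of_forall ?_)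
      rintro ⟨y, r⟩ ⟨hy, hr⟩
      have hr0 : (0 : ℝ) < r := hr.1
      have hh0 : 0 ≤ l3h CF c (√z * r) := l3h_nonneg hCF hc0 (by positivity)
      simp only [Function.uncurry, hΦ]
      rw [Real.norm_of_nonneg (by positivity)]
      have h7 : |M y r - r ^ 2 / 4 * D y| ≤ |bM| + |D y| := by
        refine (abs_sub _ _).trans (add_le_add ((hbM' y hy r hr).trans (le_abs_self _)) ?_)
        rw [abs_mul, abs_of_nonneg (by positivity : (0 : ℝ) ≤ r ^ 2 / 4)]
        have h8 : r ^ 2 / 4 ≤ 1 := by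
          have h9 := hr.2
          simp only at h9
          nlinarith
        have := abs_nonneg (D y)
        nlinarith
      calc l3h CF c (√z * r) * r * |M y r - r ^ 2 / 4 * D y| ≤
          l3h CF c (√z * r) * r * (|bM| + |D y|) := by gcongr
        _ = _ := by ring
  -- integral of the majorant
  have hΦint : ∫ y in B, ∫ r in Ioo 0 r0, Φ y r ≤ |Ca| * ((√z ^ 5)⁻¹ * H4) := by
    rw [integral_integral_swap hΦi]
    have h1 := l3_scale (l3h CF c) 4 hsz
    rw [← hH4] at h1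
    rw [← h1, ← integral_const_mul]
    have h2 : ∫ r in Ioo 0 r0, |Ca| * (l3h CF c (√z * r) * r ^ 4) ≤
        ∫ r in Ioi 0, |Ca| * (l3h CF c (√z * r) * r ^ 4) := by
      refine setIntegral_mono_set ((hh 4).const_mul _) ?_ (Eventually.of_forall hsub)
      refine (ae_restrict_iff' measurableSet_Ioi).mpr (Eventually.of_forall fun r hr => ?_)
      have hr0 : (0 : ℝ) < r := hr
      have hh0 : 0 ≤ l3h CF c (√z * r) := l3h_nonneg hCF hc0 (by positivity)
      simp only [Pi.zero_apply]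
      positivity
    refine le_trans ?_ h2
    refine setIntegral_mono_on hΦi.integral_prod_right (((hh 4).mono_set hsub).const_mul _)
      measurableSet_Ioo fun r hr => ?_
    have hr0 : (0 : ℝ) < r := hr.1
    have hh0 : 0 ≤ l3h CF c (√z * r) := l3h_nonneg hCF hc0 (by positivity)
    simp only [hΦ]
    rw [integral_const_mul]
    have h3 := hCa r hr0 (hr.2.le.trans h0')
    calc l3h CF c (√z * r) * r * ∫ y in B, |M y r - r ^ 2 / 4 * D y| ≤
        l3h CF c (√z * r) * r * (Ca * r ^ 3) := by gcongr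
      _ ≤ l3h CF c (√z * r) * r * (|Ca| * r ^ 3) := by
          gcongr
          exact le_abs_self _
      _ = _ := by ring
  -- pointwise bound
  have hpt : ∀ y ∈ B, ‖4 * π * Real.exp (4 * φ y) * J y - π * K / z ^ 2 * D y‖ ≤
      4 * π * Real.exp (4 * b) * ((∫ r in Ioo 0 r0, Φ y r) +
        |D y| * ((4 * r0)⁻¹ * ((√z ^ 5)⁻¹ * H4))) := by
    intro y hy
    have h1 := l3_point hCF hc0 hF hz0 (hcE y hy) h0
      (m := M y) (hMm.comp measurable_prodMk_left) (hbM' y hy) (D y)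
    rw [← hK, ← hH4] at h1
    have h2 : 4 * π * Real.exp (4 * φ y) * J y - π * K / z ^ 2 * D y =
        4 * π * Real.exp (4 * φ y) * (J y - D y / 4 * ((Real.exp (φ y) ^ 4)⁻¹ * K / z ^ 2)) := by
      have h3 : Real.exp (φ y) ^ 4 = Real.exp (4 * φ y) := by
        rw [← Real.exp_nat_mul]
        norm_num
      rw [h3]
      have h4 := (Real.exp_pos (4 * φ y)).ne'
      field_simp
    rw [h2, norm_mul, Real.norm_of_nonneg (by positivity), Real.norm_eq_abs]
    have h5 : |D y| * ((4 * r0)⁻¹ * ((√z ^ 5)⁻¹ * H4)) = |D y| / (4 * r0) * ((√z ^ 5)⁻¹ * H4) := by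
      field_simp
    rw [h5]
    have h6 := hE4 y hy
    have h7 : 0 ≤ |J y - D y / 4 * ((Real.exp (φ y) ^ 4)⁻¹ * K / z ^ 2)| := abs_nonneg _
    exact mul_le_mul (by gcongr) h1 h7 (by positivity)
  have hUi : Integrable (fun y => 4 * π * Real.exp (4 * b) * ((∫ r in Ioo 0 r0, Φ y r) +
        |D y| * ((4 * r0)⁻¹ * ((√z ^ 5)⁻¹ * H4)))) (volume.restrict B) := by
    refine Integrable.const_mul (Integrable.add hΦi.integral_prod_left ?_) _
    exact hDi.abs.mul_const _
  have hdiffm : AEStronglyMeasurable (fun y => 4 * π * Real.exp (4 * φ y) * J y -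
      π * K / z ^ 2 * D y) (volume.restrict B) := by
    refine AEStronglyMeasurable.sub ?_ (hDi.aestronglyMeasurable.const_mul _)
    refine Measurable.aestronglyMeasurable ?_
    exact ((Real.measurable_exp.comp (hφ.cont.measurable.const_mul 4)).const_mul _).mul hJm
  have hae : ∀ᵐ y ∂(volume.restrict B),
      ‖4 * π * Real.exp (4 * φ y) * J y - π * K / z ^ 2 * D y‖ ≤
      4 * π * Real.exp (4 * b) * ((∫ r in Ioo 0 r0, Φ y r) +
        |D y| * ((4 * r0)⁻¹ * ((√z ^ 5)⁻¹ * H4))) :=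
    (ae_restrict_iff' hBm).mpr (Eventually.of_forall hpt)
  have hdiffi := Integrable.mono' hUi hdiffm hae
  have hQi : Integrable (fun y => π * K / z ^ 2 * D y) (volume.restrict B) := hDi.const_mul _
  have hsum : ∫ y in B, 4 * π * Real.exp (4 * φ y) * J y =
      (∫ y in B, (4 * π * Real.exp (4 * φ y) * J y - π * K / z ^ 2 * D y)) +
        π * K / z ^ 2 * ∫ y in B, D y := by
    rw [← integral_const_mul, ← integral_add hdiffi hQi]
    refine integral_congr_ae (Eventually.of_forall fun y => ?_)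
    simp only
    ring
  have hgoal : (∫ y in B, 4 * π * Real.exp (4 * φ y) * J y) - (π * K * ∫ y in B, D y) / z ^ 2 =
      ∫ y in B, (4 * π * Real.exp (4 * φ y) * J y - π * K / z ^ 2 * D y) := by
    rw [hsum]
    ring
  rw [hgoal, ← Real.norm_eq_abs]
  refine (norm_integral_le_of_norm_le hUi hae).trans ?_
  have hi1 : Integrable (fun y => ∫ r in Ioo 0 r0, Φ y r) (volume.restrict B) :=
    hΦi.integral_prod_left
  have hi2 : Integrable (fun y => |D y| * ((4 * r0)⁻¹ * ((√z ^ 5)⁻¹ * H4)))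
      (volume.restrict B) := hDi.abs.mul_const _
  rw [integral_const_mul, integral_add hi1 hi2, integral_mul_const]
  have hs5 := l3_sqrt_pow hz
  have hDnn : 0 ≤ ∫ y in B, |D y| := integral_nonneg fun y => abs_nonneg _
  calc 4 * π * Real.exp (4 * b) * ((∫ y in B, ∫ r in Ioo 0 r0, Φ y r) +
        (∫ y in B, |D y|) * ((4 * r0)⁻¹ * ((√z ^ 5)⁻¹ * H4))) ≤
      4 * π * Real.exp (4 * b) * (|Ca| * ((√z ^ 5)⁻¹ * H4) +
        (∫ y in B, |D y|) * ((4 * r0)⁻¹ * ((√z ^ 5)⁻¹ * H4))) := by gcongr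
    _ = 4 * π * Real.exp (4 * b) * (|Ca| * H4 + (∫ y in B, |D y|) / (4 * r0) * H4) *
        (√z ^ 5)⁻¹ := by
        field_simp
    _ ≤ _ := by
        gcongr

end

end LQZ
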