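import Pool.Agent.LQZ.Base

/-!
# The functions `k`, `m`, `F`
-/

open MeasureTheory Set Filter Topology InnerProductSpace
open scoped ContDiff ENNReal NNReal Real

namespace LQZ

noncomputable section

/-! ### Elementary inequalities -/

private theorem bes_rpow_le_exp {x : ℝ} (hx : 0 < x) : x ^ (1 / 8 : ℝ) ≤ Real.exp x := by
  rw [Real.rpow_def_of_pos hx]
  apply Real.exp_le_exp.mpr
  have := Real.log_le_sub_one_of_pos hx
  nlinarith

private theorem bes_rpow4_le_exp {x : ℝ} (hx : 0 < x) : x ^ (1 / 4 : ℝ) ≤ Real.exp x := by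
  rw [Real.rpow_def_of_pos hx]
  apply Real.exp_le_exp.mpr
  have := Real.log_le_sub_one_of_pos hx
  nlinarith

/-- `v ^ (1/4) = (v ^ 2 / (c t)) ^ (1/8) * c ^ (1/8) * t ^ (1/8)` -/
private theorem bes_split {v t c : ℝ} (hv : 0 < v) (ht : 0 < t) (hc : 0 < c) :
    (v ^ 2 / (c * t)) ^ (1 / 8 : ℝ) * (c ^ (1 / 8 : ℝ) * t ^ (1 / 8 : ℝ)) = v ^ (1 / 4 : ℝ) := by
  rw [← Real.mul_rpow hc.le ht.le, ← Real.mul_rpow (by positivity) (by positivity),
    div_mul_cancel₀ _ (by positivity), ← Real.rpow_natCast, ← Real.rpow_mul hv.le]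
  norm_num

private theorem bes_exp_le {v t c : ℝ} (hv : 0 < v) (ht : 0 < t) (hc : 0 < c) :
    Real.exp (-(v ^ 2 / (c * t))) ≤ c ^ (1 / 8 : ℝ) * t ^ (1 / 8 : ℝ) * v ^ (-(1 / 4) : ℝ) := by
  have hx : 0 < v ^ 2 / (c * t) := by positivity
  have h1 := bes_rpow_le_exp hx
  have h2 := bes_split hv ht hc
  have h3 : 0 < v ^ (1 / 4 : ℝ) := by positivity
  rw [Real.rpow_neg hv.le, ← div_eq_mul_inv, le_div_iff₀ h3, Real.exp_neg, ← h2]
  rw [inv_mul_le_iff₀ (Real.exp_pos _)]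
  have h4 : 0 ≤ c ^ (1 / 8 : ℝ) * t ^ (1 / 8 : ℝ) := by positivity
  nlinarith

private theorem bes_amgm {v t c : ℝ} (_ : 0 < v) (ht : 0 < t) (_ : 0 < c) :
    v * c ≤ t / 2 + v ^ 2 * c ^ 2 / (2 * t) := by
  rw [← sub_nonneg]
  have : t / 2 + v ^ 2 * c ^ 2 / (2 * t) - v * c = (t - v * c) ^ 2 / (2 * t) := by
    field_simp
    ring
  rw [this]
  positivity

private theorem bes_exp_sub {a b c : ℝ} (ha : c ≤ a) (hb : c ≤ b) :
    |Real.exp (-a) - Real.exp (-b)| ≤ |a - b| * Real.exp (-c) := by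
  wlog hab : a ≤ b generalizing a b with H
  · rw [abs_sub_comm, abs_sub_comm a b]
    exact H hb ha (le_of_not_ge hab)
  have h1 : Real.exp (-b) ≤ Real.exp (-a) := Real.exp_le_exp.mpr (by linarith)
  rw [abs_of_nonneg (by linarith), abs_of_nonpos (by linarith)]
  have h2 : Real.exp (-b) = Real.exp (-a) * Real.exp (-(b - a)) := by
    rw [← Real.exp_add]; ring_nf
  have h3 : 1 - Real.exp (-(b - a)) ≤ b - a := by
    have := Real.add_one_le_exp (-(b - a)); linarith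
  have h4 : Real.exp (-a) ≤ Real.exp (-c) := Real.exp_le_exp.mpr (by linarith)
  have h5 : 0 ≤ b - a := by linarith
  calc Real.exp (-a) - Real.exp (-b) = Real.exp (-a) * (1 - Real.exp (-(b - a))) := by
        rw [h2]; ring
    _ ≤ Real.exp (-a) * (b - a) := by gcongr
    _ ≤ Real.exp (-c) * (b - a) := by gcongr
    _ = -(a - b) * Real.exp (-c) := by ring

/-! ### The dominating function -/

/-- dominating function -/
def besG (t : ℝ) : ℝ := Real.exp (-t / 2) * t ^ (-(7 / 8) : ℝ)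

theorem besG_integrable : IntegrableOn besG (Ioi 0) := by
  have h := integrableOn_rpow_mul_exp_neg_mul_rpow (p := 1) (s := -(7 / 8)) (b := 1 / 2)
    (by norm_num) (by norm_num) (by norm_num)
  refine h.congr_fun (fun t _ => ?_) measurableSet_Ioi
  simp only [besG, Real.rpow_one]
  rw [mul_comm]
  congr 2
  ring

theorem besG_nonneg {t : ℝ} (ht : 0 < t) : 0 ≤ besG t := by
  unfold besG; positivity

theorem besE_integrable : IntegrableOn (fun t : ℝ => Real.exp (-t / 2)) (Ioi 0) := by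
  have h := integrableOn_exp_mul_Ioi (a := -(1 / 2)) (by norm_num) 0
  refine h.congr_fun (fun t _ => ?_) measurableSet_Ioi
  simp only
  congr 1
  ring

/-- the integrand of `k` -/
def besFk (u t : ℝ) : ℝ := Real.exp (-t - u ^ 2 / (4 * t)) / (4 * π * t)

/-- the integrand of `m` -/
def besFm (u t : ℝ) : ℝ := Real.exp (-t - u ^ 2 / (4 * t)) / (4 * π)

theorem besFk_meas : Measurable (Function.uncurry besFk) := by
  unfold besFk Function.uncurry
  fun_prop

theorem besFm_meas : Measurable (Function.uncurry besFm) := by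
  unfold besFm Function.uncurry
  fun_prop

theorem besFk_nonneg {u t : ℝ} (ht : 0 < t) : 0 ≤ besFk u t := by
  unfold besFk; positivity

theorem besFm_nonneg (u t : ℝ) : 0 ≤ besFm u t := by
  unfold besFm; positivity

theorem kB_nonneg (v : ℝ) : 0 ≤ kB v :=
  setIntegral_nonneg measurableSet_Ioi fun _ ht => besFk_nonneg ht

theorem mB_nonneg (v : ℝ) : 0 ≤ mB v :=
  setIntegral_nonneg measurableSet_Ioi fun t _ => besFm_nonneg v t

theorem kB_meas : Measurable kB :=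
  (besFk_meas.stronglyMeasurable.integral_prod_right (ν := volume.restrict (Ioi 0))).measurable

theorem mB_meas : Measurable mB :=
  (besFm_meas.stronglyMeasurable.integral_prod_right (ν := volume.restrict (Ioi 0))).measurable

private theorem bes_t {t : ℝ} (ht : 0 < t) : t ^ (1 / 8 : ℝ) / t = t ^ (-(7 / 8) : ℝ) := by
  rw [← Real.rpow_sub_one ht.ne']
  norm_num

theorem besFk_le {v t : ℝ} (hv : 0 < v) (ht : 0 < t) :
    besFk v t ≤ (8 : ℝ) ^ (1 / 8 : ℝ) * (v ^ (-(1 / 4) : ℝ) * Real.exp (-v / 2)) * besG t := by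
  have h1 := bes_exp_le hv ht (c := 8) (by norm_num)
  have h2 := bes_amgm hv ht (c := 1 / 2) (by norm_num)
  have h3 : Real.exp (-t - v ^ 2 / (4 * t)) ≤
      Real.exp (-v / 2) * Real.exp (-t / 2) * Real.exp (-(v ^ 2 / (8 * t))) := by
    rw [← Real.exp_add, ← Real.exp_add]
    apply Real.exp_le_exp.mpr
    have e1 : v ^ 2 * (1 / 2) ^ 2 / (2 * t) = v ^ 2 / (8 * t) := by
      field_simp
      norm_num
    have e2 : v ^ 2 / (4 * t) = v ^ 2 / (8 * t) + v ^ 2 / (8 * t) := by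
      field_simp
      norm_num
    rw [e1] at h2
    rw [e2]
    linarith
  have hπ : 1 ≤ 4 * π := by nlinarith [Real.pi_gt_three]
  calc besFk v t ≤ (Real.exp (-v / 2) * Real.exp (-t / 2) *
        ((8 : ℝ) ^ (1 / 8 : ℝ) * t ^ (1 / 8 : ℝ) * v ^ (-(1 / 4) : ℝ))) / (1 * t) := by
        unfold besFk
        gcongr
        exact h3.trans (by gcongr)
    _ = (8 : ℝ) ^ (1 / 8 : ℝ) * (v ^ (-(1 / 4) : ℝ) * Real.exp (-v / 2)) *
        (Real.exp (-t / 2) * (t ^ (1 / 8 : ℝ) / t)) := by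
        rw [one_mul]; ring
    _ = _ := by rw [bes_t ht]; rfl

theorem besFm_le {v t : ℝ} (hv : 0 ≤ v) (ht : 0 < t) :
    besFm v t ≤ Real.exp (-v / 2) * Real.exp (-t / 2) := by
  have h3 : Real.exp (-t - v ^ 2 / (4 * t)) ≤ Real.exp (-v / 2) * Real.exp (-t / 2) := by
    rw [← Real.exp_add]
    apply Real.exp_le_exp.mpr
    rcases hv.eq_or_lt with rfl | hv
    · have : (0 : ℝ) ^ 2 / (4 * t) = 0 := by simp
      rw [this]; linarith
    have h2 := bes_amgm hv ht (c := 1 / 2) (by norm_num)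
    have e1 : v ^ 2 * (1 / 2) ^ 2 / (2 * t) = v ^ 2 / (8 * t) := by
      field_simp
      norm_num
    have e2 : v ^ 2 / (4 * t) = v ^ 2 / (8 * t) + v ^ 2 / (8 * t) := by
      field_simp
      norm_num
    have e3 : 0 ≤ v ^ 2 / (8 * t) := by positivity
    rw [e1] at h2
    rw [e2]
    linarith
  have hπ : 1 ≤ 4 * π := by nlinarith [Real.pi_gt_three]
  unfold besFm
  exact (div_le_self (Real.exp_pos _).le hπ).trans h3

theorem besFk_integrable {v : ℝ} (hv : 0 < v) : IntegrableOn (besFk v) (Ioi 0) := by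
  refine Integrable.mono' (besG_integrable.const_mul
    ((8 : ℝ) ^ (1 / 8 : ℝ) * (v ^ (-(1 / 4) : ℝ) * Real.exp (-v / 2))))
    (by
      have : Measurable (besFk v) := by unfold besFk; fun_prop
      exact this.aestronglyMeasurable)
    ((ae_restrict_iff' measurableSet_Ioi).mpr (Eventually.of_forall fun t ht => ?_))
  rw [Real.norm_of_nonneg (besFk_nonneg ht)]
  exact besFk_le hv ht

theorem besFm_integrable {v : ℝ} (hv : 0 ≤ v) : IntegrableOn (besFm v) (Ioi 0) := by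
  refine Integrable.mono' (besE_integrable.const_mul (Real.exp (-v / 2)))
    (by
      have : Measurable (besFm v) := by unfold besFm; fun_prop
      exact this.aestronglyMeasurable)
    ((ae_restrict_iff' measurableSet_Ioi).mpr (Eventually.of_forall fun t ht => ?_))
  rw [Real.norm_of_nonneg (besFm_nonneg _ _)]
  exact besFm_le hv ht

/-- a positive upper bound for the integral of the dominating function -/
def besI : ℝ := 1 + ∫ t in Ioi (0 : ℝ), besG t

theorem besI_pos : 0 < besI := by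
  have : 0 ≤ ∫ t in Ioi (0 : ℝ), besG t :=
    setIntegral_nonneg measurableSet_Ioi fun _ ht => besG_nonneg ht
  unfold besI; linarith

private theorem bes_int {f : ℝ → ℝ} {C : ℝ} (hC : 0 ≤ C)
    (h : ∀ t, 0 < t → |f t| ≤ C * besG t) : |∫ t in Ioi (0 : ℝ), f t| ≤ C * besI := by
  have h1 := norm_integral_le_of_norm_le (f := f) (μ := volume.restrict (Ioi 0))
    (besG_integrable.const_mul C)
    ((ae_restrict_iff' measurableSet_Ioi).mpr (Eventually.of_forall fun t ht => h t ht))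
  rw [integral_const_mul] at h1
  refine h1.trans ?_
  unfold besI
  nlinarith

private theorem bes_intE {f : ℝ → ℝ} {C : ℝ} (_ : 0 ≤ C)
    (h : ∀ t, 0 < t → |f t| ≤ C * Real.exp (-t / 2)) : |∫ t in Ioi (0 : ℝ), f t| ≤ C * 2 := by
  have h1 := norm_integral_le_of_norm_le (f := f) (μ := volume.restrict (Ioi 0))
    (besE_integrable.const_mul C)
    ((ae_restrict_iff' measurableSet_Ioi).mpr (Eventually.of_forall fun t ht => h t ht))
  rw [integral_const_mul] at h1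
  have h2 : ∫ t in Ioi (0 : ℝ), Real.exp (-t / 2) = 2 := by
    have h := integral_exp_mul_Ioi (a := -(1 / 2)) (by norm_num) 0
    have e : ∫ t in Ioi (0 : ℝ), Real.exp (-t / 2) = ∫ t in Ioi (0 : ℝ), Real.exp (-(1 / 2) * t) := by
      congr 1; funext t; congr 1; ring
    rw [e, h]; norm_num
  rw [h2] at h1
  exact h1

theorem kB_le : ∃ C : ℝ, 0 < C ∧ ∀ v : ℝ, 0 < v →
    kB v ≤ C * v ^ (-(1 / 4) : ℝ) * Real.exp (-v / 2) := by
  refine ⟨(8 : ℝ) ^ (1 / 8 : ℝ) * besI, mul_pos (by positivity) besI_pos, fun v hv => ?_⟩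
  have h := bes_int (f := besFk v)
    (C := (8 : ℝ) ^ (1 / 8 : ℝ) * (v ^ (-(1 / 4) : ℝ) * Real.exp (-v / 2))) (by positivity)
    (fun t ht => by rw [abs_of_nonneg (besFk_nonneg ht)]; exact besFk_le hv ht)
  refine (le_abs_self _).trans (h.trans (le_of_eq ?_))
  ring

theorem mB_le : ∃ C : ℝ, 0 < C ∧ ∀ v : ℝ, 0 ≤ v → mB v ≤ C * Real.exp (-v / 2) := by
  refine ⟨2, by norm_num, fun v hv => ?_⟩
  have h := bes_intE (f := besFm v) (C := Real.exp (-v / 2)) (by positivity)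
    (fun t ht => by rw [abs_of_nonneg (besFm_nonneg _ _)]; exact besFm_le hv ht)
  refine (le_abs_self _).trans (h.trans (le_of_eq ?_))
  ring

/-- `v ^ (-1/4) e^{-v/2} ≤ 2 v ^ (-1/2)` and similar -/
private theorem bes_quarter {v : ℝ} (hv : 0 < v) :
    v ^ (-(1 / 4) : ℝ) ≤ 8 * v ^ (-(1 / 2) : ℝ) * Real.exp (v / 8) := by
  have h1 := bes_rpow4_le_exp (x := v / 8) (by positivity)
  have h2 : (v / 8) ^ (1 / 4 : ℝ) = v ^ (1 / 4 : ℝ) / 8 ^ (1 / 4 : ℝ) :=
    Real.div_rpow hv.le (by norm_num) _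
  have h3 : (8 : ℝ) ^ (1 / 4 : ℝ) ≤ 8 := by
    calc (8 : ℝ) ^ (1 / 4 : ℝ) ≤ 8 ^ (1 : ℝ) :=
          Real.rpow_le_rpow_of_exponent_le (by norm_num) (by norm_num)
      _ = 8 := Real.rpow_one 8
  have h4 : v ^ (1 / 4 : ℝ) ≤ 8 * Real.exp (v / 8) := by
    rw [h2, div_le_iff₀ (by positivity)] at h1
    refine h1.trans ?_
    rw [mul_comm]
    gcongr
  have h5 : v ^ (-(1 / 4) : ℝ) = v ^ (-(1 / 2) : ℝ) * v ^ (1 / 4 : ℝ) := by
    rw [← Real.rpow_add hv]; norm_num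
  rw [h5]
  calc v ^ (-(1 / 2) : ℝ) * v ^ (1 / 4 : ℝ) ≤ v ^ (-(1 / 2) : ℝ) * (8 * Real.exp (v / 8)) := by
        gcongr
    _ = _ := by ring

private theorem bes_sq {v : ℝ} (hv : 0 < v) :
    v ^ (-(1 / 4) : ℝ) * v ^ (-(1 / 4) : ℝ) = v ^ (-(1 / 2) : ℝ) := by
  rw [← Real.rpow_add hv]; norm_num

theorem FB_le : ∃ C : ℝ, 0 < C ∧ ∀ v : ℝ, 0 < v →
    |FB v| ≤ C * v ^ (-(1 / 2) : ℝ) * Real.exp (-v / 2) := by
  obtain ⟨C₁, hC₁, h1⟩ := kB_le
  obtain ⟨C₂, hC₂, h2⟩ := mB_le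
  refine ⟨C₁ ^ 2 + 16 * C₁ * C₂, by positivity, fun v hv => ?_⟩
  have hk := h1 v hv
  have hm := h2 v hv.le
  have hk0 := kB_nonneg v
  have hm0 := mB_nonneg v
  set P := v ^ (-(1 / 4) : ℝ) with hP
  set E := Real.exp (-v / 2) with hE
  have hP0 : 0 ≤ P := by positivity
  have hE0 : 0 < E := Real.exp_pos _
  have hPP : P * P = v ^ (-(1 / 2) : ℝ) := bes_sq hv
  have hq := bes_quarter hv
  have hEE : E * E ≤ E := by
    have : E ≤ 1 := Real.exp_le_one_iff.mpr (by linarith)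
    nlinarith
  have hE8 : Real.exp (v / 8) * (E * E) ≤ E := by
    rw [hE, ← Real.exp_add, ← Real.exp_add]
    exact Real.exp_le_exp.mpr (by linarith)
  have hkk : kB v ^ 2 ≤ C₁ ^ 2 * (P * P) * E := by
    calc kB v ^ 2 ≤ (C₁ * P * E) ^ 2 := by gcongr
      _ = C₁ ^ 2 * (P * P) * (E * E) := by ring
      _ ≤ C₁ ^ 2 * (P * P) * E := by gcongr
  have hmk : mB v * kB v ≤ 8 * C₁ * C₂ * (P * P) * E := by
    calc mB v * kB v ≤ (C₂ * E) * (C₁ * P * E) := by gcongr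
      _ = C₁ * C₂ * (E * E) * P := by ring
      _ ≤ C₁ * C₂ * (E * E) * (8 * (P * P) * Real.exp (v / 8)) := by
          rw [hPP]; gcongr
      _ = 8 * C₁ * C₂ * (P * P) * (Real.exp (v / 8) * (E * E)) := by ring
      _ ≤ 8 * C₁ * C₂ * (P * P) * E := by gcongr
  have hmk0 : 0 ≤ mB v * kB v := mul_nonneg hm0 hk0
  rw [← hPP]
  unfold FB
  rw [abs_le]
  constructor
  · nlinarith [sq_nonneg (kB v)]
  · nlinarith

/-! ### Lipschitz bounds -/

private theorem bes_X {X : ℝ} (hX : 0 < X) :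
    X * Real.exp (-(X / 4)) ≤ 16 * 16 ^ (1 / 8 : ℝ) * Real.exp (-(X / 8)) * (X ^ (1 / 8 : ℝ))⁻¹ := by
  have h1 := bes_rpow_le_exp (x := X / 16) (by positivity)
  rw [Real.div_rpow hX.le (by norm_num), div_le_iff₀ (by positivity)] at h1
  have h2 : X / 16 ≤ Real.exp (X / 16) := by
    have := Real.add_one_le_exp (X / 16); linarith
  have h3 : 0 < X ^ (1 / 8 : ℝ) := by positivity
  rw [← div_eq_mul_inv, le_div_iff₀ h3]
  have h4 : Real.exp (-(X / 4)) = Real.exp (-(X / 8)) * (Real.exp (-(X / 16)) * Real.exp (-(X / 16))) := by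
    rw [← Real.exp_add, ← Real.exp_add]; ring_nf
  have h5 : Real.exp (X / 16) * Real.exp (-(X / 16)) = 1 := by
    rw [← Real.exp_add]; simp
  rw [h4]
  calc X * (Real.exp (-(X / 8)) * (Real.exp (-(X / 16)) * Real.exp (-(X / 16)))) * X ^ (1 / 8 : ℝ)
      = 16 * Real.exp (-(X / 8)) * ((X / 16) * Real.exp (-(X / 16))) *
        (X ^ (1 / 8 : ℝ) * Real.exp (-(X / 16))) := by ring
    _ ≤ 16 * Real.exp (-(X / 8)) * (Real.exp (X / 16) * Real.exp (-(X / 16))) *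
        ((Real.exp (X / 16) * 16 ^ (1 / 8 : ℝ)) * Real.exp (-(X / 16))) := by gcongr
    _ = 16 * 16 ^ (1 / 8 : ℝ) * Real.exp (-(X / 8)) *
        (Real.exp (X / 16) * Real.exp (-(X / 16))) * (Real.exp (X / 16) * Real.exp (-(X / 16))) := by
        ring
    _ = _ := by rw [h5]; ring

private theorem bes_X' {X : ℝ} (_ : 0 < X) :
    X * Real.exp (-(X / 4)) ≤ 8 * Real.exp (-(X / 8)) := by
  have h2 : X / 8 ≤ Real.exp (X / 8) := by
    have := Real.add_one_le_exp (X / 8); linarith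
  have h4 : Real.exp (-(X / 4)) = Real.exp (-(X / 8)) * Real.exp (-(X / 8)) := by
    rw [← Real.exp_add]; ring_nf
  have h5 : Real.exp (X / 8) * Real.exp (-(X / 8)) = 1 := by
    rw [← Real.exp_add]; simp
  rw [h4]
  calc X * (Real.exp (-(X / 8)) * Real.exp (-(X / 8)))
      = 8 * ((X / 8) * Real.exp (-(X / 8))) * Real.exp (-(X / 8)) := by ring
    _ ≤ 8 * (Real.exp (X / 8) * Real.exp (-(X / 8))) * Real.exp (-(X / 8)) := by gcongr
    _ = _ := by rw [h5]; ring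

/-- the difference of the exponentials -/
private theorem bes_diff {v t l : ℝ} (hv : 0 < v) (ht : 0 < t) (hl : l ∈ Icc (1 / 2 : ℝ) 2) :
    |Real.exp (-t - (l * v) ^ 2 / (4 * t)) - Real.exp (-t - v ^ 2 / (4 * t))| ≤
      3 * |l - 1| * Real.exp (-t) * (v ^ 2 / (4 * t) * Real.exp (-(v ^ 2 / (4 * t) / 4))) := by
  set X := v ^ 2 / (4 * t) with hX
  have hX0 : 0 < X := by positivity
  have e1 : (l * v) ^ 2 / (4 * t) = l ^ 2 * X := by rw [hX]; ring
  have e2 : Real.exp (-t - l ^ 2 * X) = Real.exp (-t) * Real.exp (-(l ^ 2 * X)) := by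
    rw [← Real.exp_add]; ring_nf
  have e3 : Real.exp (-t - X) = Real.exp (-t) * Real.exp (-X) := by
    rw [← Real.exp_add]; ring_nf
  obtain ⟨hl1, hl2⟩ := hl
  have hl4 : 1 / 4 ≤ l ^ 2 := by nlinarith
  have h := bes_exp_sub (a := l ^ 2 * X) (b := X) (c := X / 4) (by nlinarith) (by linarith)
  have hab : |l ^ 2 * X - X| ≤ 3 * |l - 1| * X := by
    have : l ^ 2 * X - X = (l - 1) * (l + 1) * X := by ring
    rw [this, abs_mul, abs_mul, abs_of_pos hX0, abs_of_pos (show 0 < l + 1 by linarith)]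
    have := abs_nonneg (l - 1)
    have : |l - 1| * (l + 1) ≤ 3 * |l - 1| := by nlinarith
    gcongr
  rw [e1, e2, e3, ← mul_sub, abs_mul, abs_of_pos (Real.exp_pos _)]
  calc Real.exp (-t) * |Real.exp (-(l ^ 2 * X)) - Real.exp (-X)|
      ≤ Real.exp (-t) * (|l ^ 2 * X - X| * Real.exp (-(X / 4))) := by gcongr
    _ ≤ Real.exp (-t) * (3 * |l - 1| * X * Real.exp (-(X / 4))) := by gcongr
    _ = _ := by ring

private theorem bes_tX {v t : ℝ} (hv : 0 < v) (ht : 0 < t) :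
    Real.exp (-t) * Real.exp (-(v ^ 2 / (4 * t) / 8)) ≤ Real.exp (-v / 4) * Real.exp (-t / 2) := by
  rw [← Real.exp_add, ← Real.exp_add]
  apply Real.exp_le_exp.mpr
  have h2 := bes_amgm hv ht (c := 1 / 4) (by norm_num)
  have e1 : v ^ 2 * (1 / 4) ^ 2 / (2 * t) = v ^ 2 / (4 * t) / 8 := by
    field_simp
    norm_num
  rw [e1] at h2
  linarith

theorem besFk_sub_le {v t l : ℝ} (hv : 0 < v) (ht : 0 < t) (hl : l ∈ Icc (1 / 2 : ℝ) 2) :
    |besFk (l * v) t - besFk v t| ≤ 48 * 16 ^ (1 / 8 : ℝ) * 4 ^ (1 / 8 : ℝ) *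
      (|l - 1| * (v ^ (-(1 / 4) : ℝ) * Real.exp (-v / 4))) * besG t := by
  have h1 := bes_diff hv ht hl
  have hX : 0 < v ^ 2 / (4 * t) := by positivity
  have h2 := bes_X hX
  have h3 := bes_split hv ht (c := 4) (by norm_num)
  have h4 := bes_tX hv ht
  have h5 : ((v ^ 2 / (4 * t)) ^ (1 / 8 : ℝ))⁻¹ =
      4 ^ (1 / 8 : ℝ) * t ^ (1 / 8 : ℝ) * v ^ (-(1 / 4) : ℝ) := by
    rw [Real.rpow_neg hv.le, ← h3]
    have : 0 < (v ^ 2 / (4 * t)) ^ (1 / 8 : ℝ) := by positivity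
    have : 0 < (4 : ℝ) ^ (1 / 8 : ℝ) * t ^ (1 / 8 : ℝ) := by positivity
    field_simp
  rw [h5] at h2
  have hπ : 1 ≤ 4 * π := by nlinarith [Real.pi_gt_three]
  have e : besFk (l * v) t - besFk v t = (Real.exp (-t - (l * v) ^ 2 / (4 * t)) -
      Real.exp (-t - v ^ 2 / (4 * t))) / (4 * π * t) := by
    unfold besFk; rw [sub_div]
  rw [e, abs_div, abs_of_pos (show 0 < 4 * π * t by positivity)]
  set X := v ^ 2 / (4 * t) with hXd
  calc |Real.exp (-t - (l * v) ^ 2 / (4 * t)) - Real.exp (-t - X)| / (4 * π * t)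
      ≤ (3 * |l - 1| * Real.exp (-t) * (16 * 16 ^ (1 / 8 : ℝ) * Real.exp (-(X / 8)) *
        (4 ^ (1 / 8 : ℝ) * t ^ (1 / 8 : ℝ) * v ^ (-(1 / 4) : ℝ)))) / (1 * t) := by
        gcongr
        exact h1.trans (by gcongr)
    _ = 48 * 16 ^ (1 / 8 : ℝ) * 4 ^ (1 / 8 : ℝ) * |l - 1| * v ^ (-(1 / 4) : ℝ) *
        (Real.exp (-t) * Real.exp (-(X / 8))) * (t ^ (1 / 8 : ℝ) / t) := by
        rw [one_mul]; ring
    _ ≤ 48 * 16 ^ (1 / 8 : ℝ) * 4 ^ (1 / 8 : ℝ) * |l - 1| * v ^ (-(1 / 4) : ℝ) *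
        (Real.exp (-v / 4) * Real.exp (-t / 2)) * (t ^ (1 / 8 : ℝ) / t) := by gcongr
    _ = _ := by rw [bes_t ht]; unfold besG; ring

theorem besFm_sub_le {v t l : ℝ} (hv : 0 < v) (ht : 0 < t) (hl : l ∈ Icc (1 / 2 : ℝ) 2) :
    |besFm (l * v) t - besFm v t| ≤ 24 * |l - 1| * Real.exp (-v / 4) * Real.exp (-t / 2) := by
  have h1 := bes_diff hv ht hl
  have hX : 0 < v ^ 2 / (4 * t) := by positivity
  have h2 := bes_X' hX
  have h4 := bes_tX hv ht
  have hπ : 1 ≤ 4 * π := by nlinarith [Real.pi_gt_three]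
  have e : besFm (l * v) t - besFm v t = (Real.exp (-t - (l * v) ^ 2 / (4 * t)) -
      Real.exp (-t - v ^ 2 / (4 * t))) / (4 * π) := by
    unfold besFm; rw [sub_div]
  rw [e, abs_div, abs_of_pos (show 0 < 4 * π by positivity)]
  refine (div_le_self (abs_nonneg _) hπ).trans (h1.trans ?_)
  set X := v ^ 2 / (4 * t) with hXd
  calc 3 * |l - 1| * Real.exp (-t) * (X * Real.exp (-(X / 4)))
      ≤ 3 * |l - 1| * Real.exp (-t) * (8 * Real.exp (-(X / 8))) := by gcongr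
    _ = 24 * |l - 1| * (Real.exp (-t) * Real.exp (-(X / 8))) := by ring
    _ ≤ 24 * |l - 1| * (Real.exp (-v / 4) * Real.exp (-t / 2)) := by gcongr
    _ = _ := by ring

theorem kB_lip : ∃ C : ℝ, 0 < C ∧ ∀ v : ℝ, 0 < v → ∀ l ∈ Icc (1 / 2 : ℝ) 2,
    |kB (l * v) - kB v| ≤ C * |l - 1| * v ^ (-(1 / 4) : ℝ) * Real.exp (-v / 4) := by
  refine ⟨48 * 16 ^ (1 / 8 : ℝ) * 4 ^ (1 / 8 : ℝ) * besI, mul_pos (by positivity) besI_pos,
    fun v hv l hl => ?_⟩
  have hlv : 0 < l * v := mul_pos (by linarith [hl.1]) hv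
  have e : kB (l * v) - kB v = ∫ t in Ioi (0 : ℝ), (besFk (l * v) t - besFk v t) :=
    (integral_sub (besFk_integrable hlv) (besFk_integrable hv)).symm
  rw [e]
  refine (bes_int (C := 48 * 16 ^ (1 / 8 : ℝ) * 4 ^ (1 / 8 : ℝ) *
      (|l - 1| * (v ^ (-(1 / 4) : ℝ) * Real.exp (-v / 4)))) (by positivity)
      (fun t ht => besFk_sub_le hv ht hl)).trans (le_of_eq ?_)
  ring

theorem mB_lip : ∃ C : ℝ, 0 < C ∧ ∀ v : ℝ, 0 < v → ∀ l ∈ Icc (1 / 2 : ℝ) 2,
    |mB (l * v) - mB v| ≤ C * |l - 1| * Real.exp (-v / 4) := by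
  refine ⟨48, by norm_num, fun v hv l hl => ?_⟩
  have hlv : 0 < l * v := mul_pos (by linarith [hl.1]) hv
  have e : mB (l * v) - mB v = ∫ t in Ioi (0 : ℝ), (besFm (l * v) t - besFm v t) :=
    (integral_sub (besFm_integrable hlv.le) (besFm_integrable hv.le)).symm
  rw [e]
  refine (bes_intE (C := 24 * |l - 1| * Real.exp (-v / 4)) (by positivity)
      (fun t ht => besFm_sub_le hv ht hl)).trans (le_of_eq ?_)
  ring

/-- use `|e^{-l²X} - e^{-X}| ≤ |l²-1| X e^{-X/4}` for `l ∈ [1/2, 2]`, `X = v²/4t`. -/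
theorem FB_lip : ∃ C : ℝ, 0 < C ∧ ∀ v : ℝ, 0 < v → ∀ l ∈ Icc (1 / 2 : ℝ) 2,
    |FB (l * v) - FB v| ≤ C * |l - 1| * v ^ (-(1 / 2) : ℝ) * Real.exp (-v / 8) := by
  obtain ⟨A, hA, hk⟩ := kB_le
  obtain ⟨B, hB, hm⟩ := mB_le
  obtain ⟨K, hK, hkl⟩ := kB_lip
  obtain ⟨M, hM, hml⟩ := mB_lip
  refine ⟨4 * A * K + 16 * (B * K + A * M) + 1, by positivity, fun v hv l hl => ?_⟩
  have hl' := hl
  obtain ⟨hl1, hl2⟩ := hl
  have hlv : 0 < l * v := mul_pos (by linarith) hv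
  set P := v ^ (-(1 / 4) : ℝ) with hP
  set E := Real.exp (-v / 4) with hE
  set L := |l - 1| with hL
  have hL0 : 0 ≤ L := abs_nonneg _
  have hP0 : 0 ≤ P := by positivity
  have hE0 : 0 < E := Real.exp_pos _
  have hE1 : E ≤ 1 := Real.exp_le_one_iff.mpr (by linarith)
  have hPP : P * P = v ^ (-(1 / 2) : ℝ) := bes_sq hv
  have hEv : Real.exp (-v / 2) ≤ E := Real.exp_le_exp.mpr (by linarith)
  have hElv : Real.exp (-(l * v) / 2) ≤ E := Real.exp_le_exp.mpr (by nlinarith)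
  -- bounds
  have k1 : kB v ≤ A * P * E := (hk v hv).trans (by gcongr)
  have hPl : (l * v) ^ (-(1 / 4) : ℝ) ≤ 2 * P := by
    rw [Real.mul_rpow (by linarith) hv.le]
    have h1 : l ^ (-(1 / 4) : ℝ) ≤ (1 / 2 : ℝ) ^ (-(1 / 4) : ℝ) :=
      Real.rpow_le_rpow_of_nonpos (by norm_num) hl1 (by norm_num)
    have h2 : (1 / 2 : ℝ) ^ (-(1 / 4) : ℝ) ≤ 2 := by
      rw [Real.rpow_neg (by norm_num), ← Real.inv_rpow (by norm_num)]
      calc ((1 / 2 : ℝ)⁻¹) ^ (1 / 4 : ℝ) ≤ ((1 / 2 : ℝ)⁻¹) ^ (1 : ℝ) :=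
            Real.rpow_le_rpow_of_exponent_le (by norm_num) (by norm_num)
        _ = 2 := by norm_num
    gcongr
    exact h1.trans h2
  have k2 : kB (l * v) ≤ 2 * A * P * E := by
    refine (hk _ hlv).trans ?_
    calc A * (l * v) ^ (-(1 / 4) : ℝ) * Real.exp (-(l * v) / 2) ≤ A * (2 * P) * E := by gcongr
      _ = _ := by ring
  have m2 : mB (l * v) ≤ B * E := (hm _ hlv.le).trans (by gcongr)
  have kd : |kB (l * v) - kB v| ≤ K * L * P * E := hkl v hv l hl'
  have md : |mB (l * v) - mB v| ≤ M * L * E := hml v hv l hl'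
  have kn := kB_nonneg v
  have kn' := kB_nonneg (l * v)
  have mn := mB_nonneg v
  have mn' := mB_nonneg (l * v)
  have e : FB (l * v) - FB v = (kB (l * v) - kB v) * (kB (l * v) + kB v) -
      2 * (mB (l * v) * (kB (l * v) - kB v) + kB v * (mB (l * v) - mB v)) := by
    unfold FB; ring
  have t1 : |(kB (l * v) - kB v) * (kB (l * v) + kB v)| ≤ K * L * P * E * (3 * A * P * E) := by
    rw [abs_mul, abs_of_nonneg (add_nonneg kn' kn)]
    gcongr
    linarith
  have t2 : |mB (l * v) * (kB (l * v) - kB v)| ≤ B * E * (K * L * P * E) := by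
    rw [abs_mul, abs_of_nonneg mn']
    gcongr
  have t3 : |kB v * (mB (l * v) - mB v)| ≤ A * P * E * (M * L * E) := by
    rw [abs_mul, abs_of_nonneg kn]
    gcongr
  have hEE8 : E * E ≤ Real.exp (-v / 8) * Real.exp (-(v / 8)) := by
    rw [hE, ← Real.exp_add, ← Real.exp_add]
    exact Real.exp_le_exp.mpr (by linarith)
  have hE8 : Real.exp (-(v / 8)) ≤ 1 := Real.exp_le_one_iff.mpr (by linarith)
  have hE80 : 0 < Real.exp (-v / 8) := Real.exp_pos _
  have hEE : E * E ≤ Real.exp (-v / 8) := hEE8.trans (by nlinarith)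
  have hq := bes_quarter hv
  have hPE : P * (E * E) ≤ 8 * (P * P) * Real.exp (-v / 8) := by
    calc P * (E * E) ≤ (8 * (P * P) * Real.exp (v / 8)) *
          (Real.exp (-v / 8) * Real.exp (-(v / 8))) := by
          rw [hPP]; gcongr
      _ = 8 * (P * P) * Real.exp (-v / 8) * (Real.exp (v / 8) * Real.exp (-(v / 8))) := by ring
      _ = 8 * (P * P) * Real.exp (-v / 8) := by rw [← Real.exp_add]; simp
  rw [e, ← hPP]
  set E8 := Real.exp (-v / 8) with hE8d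
  calc |(kB (l * v) - kB v) * (kB (l * v) + kB v) -
      2 * (mB (l * v) * (kB (l * v) - kB v) + kB v * (mB (l * v) - mB v))|
      ≤ |(kB (l * v) - kB v) * (kB (l * v) + kB v)| +
        2 * (|mB (l * v) * (kB (l * v) - kB v)| + |kB v * (mB (l * v) - mB v)|) := by
        refine (abs_sub _ _).trans ?_
        rw [abs_mul 2, abs_of_pos (show (0 : ℝ) < 2 by norm_num)]
        gcongr
        exact abs_add_le _ _
    _ ≤ K * L * P * E * (3 * A * P * E) + 2 * (B * E * (K * L * P * E) +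
        A * P * E * (M * L * E)) := by gcongr
    _ = 3 * A * K * L * (P * P) * (E * E) + 2 * (B * K + A * M) * L * (P * (E * E)) := by ring
    _ ≤ 3 * A * K * L * (P * P) * E8 + 2 * (B * K + A * M) * L * (8 * (P * P) * E8) := by
        gcongr
    _ = (3 * A * K + 16 * (B * K + A * M)) * L * (P * P) * E8 := by ring
    _ ≤ (4 * A * K + 16 * (B * K + A * M) + 1) * L * (P * P) * E8 := by
        have h9 : 3 * A * K + 16 * (B * K + A * M) ≤ 4 * A * K + 16 * (B * K + A * M) + 1 := by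
          nlinarith [mul_pos hA hK]
        exact mul_le_mul_of_nonneg_right (mul_le_mul_of_nonneg_right
          (mul_le_mul_of_nonneg_right h9 hL0) (mul_nonneg hP0 hP0)) hE80.le

end

end LQZ
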