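import Pool.Agent.LQZ.Sphere

/-! # Project LQZ, module IBP: integration by parts -/

open MeasureTheory Set Filter Topology InnerProductSpace
open scoped ContDiff ENNReal NNReal Real

namespace LQZ

noncomputable section

variable {ψ χ f g η φ φ' u : ℂ → ℝ}

/-! ## integrability -/

theorem ibp_integrable_of_le {F : ℂ → ℝ} (hF : AEStronglyMeasurable F volume) {C : ℝ}
    (h : ∀ x, |F x| ≤ C / (1 + ‖x‖) ^ 3) : Integrable F := by
  have h1 : Integrable fun x : ℂ => (1 + ‖x‖) ^ (-(3 : ℝ)) := by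
    refine integrable_one_add_norm ?_
    rw [Complex.finrank_real_complex]; norm_num
  refine (h1.const_mul C).mono' hF (Eventually.of_forall fun x => ?_)
  rw [Real.norm_eq_abs]
  refine (h x).trans (le_of_eq ?_)
  have hx : 0 ≤ 1 + ‖x‖ := by positivity
  rw [Real.rpow_neg hx, div_eq_mul_inv]
  norm_cast

theorem ibp_sq_le (x : ℂ) : (1 + ‖x‖) ^ 3 ≤ 4 * (1 + ‖x‖ ^ 2) ^ 2 := by
  have h := norm_nonneg x
  have h1 : (1 + ‖x‖) ^ 2 ≤ 2 * (1 + ‖x‖ ^ 2) := by nlinarith [sq_nonneg (1 - ‖x‖)]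
  calc (1 + ‖x‖) ^ 3 ≤ (1 + ‖x‖) ^ 4 := pow_le_pow_right₀ (by linarith) (by norm_num)
    _ = ((1 + ‖x‖) ^ 2) ^ 2 := by ring
    _ ≤ (2 * (1 + ‖x‖ ^ 2)) ^ 2 := pow_le_pow_left₀ (by positivity) h1 2
    _ = _ := by ring

theorem ibp_integrable_of_le' {F : ℂ → ℝ} (hF : AEStronglyMeasurable F volume) {C : ℝ}
    (hC : 0 ≤ C) (h : ∀ x, |F x| ≤ C / (1 + ‖x‖ ^ 2) ^ 2) : Integrable F := by
  refine ibp_integrable_of_le hF (C := 4 * C) fun x => (h x).trans ?_
  rw [div_le_div_iff₀ (by positivity) (by positivity)]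
  have := mul_le_mul_of_nonneg_left (ibp_sq_le x) hC
  linarith

/-! ## the divergence theorem on the plane -/

theorem ibp_prod (F : ℂ → ℝ) : ∫ x, F x = ∫ p : ℝ × ℝ, F (⟨p.1, p.2⟩ : ℂ) := by
  have h := Complex.volume_preserving_equiv_real_prod.symm.integral_comp
    Complex.measurableEquivRealProd.symm.measurableEmbedding F
  rw [← h]
  rfl

theorem ibp_prod_integrable {F : ℂ → ℝ} (hF : Integrable F) :
    Integrable fun p : ℝ × ℝ => F (⟨p.1, p.2⟩ : ℂ) := by
  have h := (Complex.volume_preserving_equiv_real_prod.symm.integrable_comp_emb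
    Complex.measurableEquivRealProd.symm.measurableEmbedding (g := F)).2 hF
  exact h

private theorem ibp_tendsto {G : ℝ → ℝ} {C : ℝ} (h : ∀ t, |G t| ≤ C / (1 + t ^ 2)) :
    Tendsto G atTop (𝓝 0) ∧ Tendsto G atBot (𝓝 0) := by
  have h1 : Tendsto (fun t : ℝ => 1 + t ^ 2) atTop atTop :=
    tendsto_atTop_add_const_left _ _ (tendsto_pow_atTop (by norm_num))
  have h2 : Tendsto (fun t : ℝ => 1 + t ^ 2) atBot atTop := by
    refine tendsto_atTop_add_const_left _ _ ?_
    have : Tendsto (fun t : ℝ => (-t) ^ 2) atBot atTop :=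
      (tendsto_pow_atTop (by norm_num)).comp tendsto_neg_atBot_atTop
    refine this.congr fun t => by ring
  constructor
  · exact squeeze_zero_norm (fun t => by rw [Real.norm_eq_abs]; exact h t)
      (h1.const_div_atTop C)
  · exact squeeze_zero_norm (fun t => by rw [Real.norm_eq_abs]; exact h t)
      (h2.const_div_atTop C)

theorem integral_dir_eq_zero {V : ℂ → ℝ} (hV : ContDiff ℝ 1 V)
    (hb : ∃ C : ℝ, ∀ x, |V x| ≤ C / (1 + ‖x‖ ^ 2)) {v : ℂ} (hv : v = 1 ∨ v = Complex.I)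
    (hi : Integrable fun x => fderiv ℝ V x v) : ∫ x, fderiv ℝ V x v = 0 := by
  obtain ⟨C, hC⟩ := hb
  have hC0 : 0 ≤ C := by
    have := (abs_nonneg _).trans (hC 0)
    simpa using this
  have hVd : ∀ x, HasFDerivAt V (fderiv ℝ V x) x := fun x =>
    ((hV.differentiable (by norm_num)) x).hasFDerivAt
  have hn : ∀ s t : ℝ, ‖(⟨s, t⟩ : ℂ)‖ ^ 2 = s ^ 2 + t ^ 2 := by
    intro s t
    rw [← Complex.normSq_eq_norm_sq, Complex.normSq_mk]; ring
  rw [ibp_prod]
  have hip := ibp_prod_integrable hi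
  rcases hv with rfl | rfl
  · rw [Measure.volume_eq_prod] at hip ⊢
    rw [integral_prod_symm _ hip]
    have hae := hip.prod_left_ae
    have : ∀ᵐ b : ℝ, ∫ t : ℝ, fderiv ℝ V (⟨t, b⟩ : ℂ) 1 = 0 := by
      filter_upwards [hae] with b hb
      have hder : ∀ t : ℝ, HasDerivAt (fun t : ℝ => V (⟨t, b⟩ : ℂ)) (fderiv ℝ V (⟨t, b⟩ : ℂ) 1) t := by
        intro t
        have hc : HasDerivAt (fun t : ℝ => (⟨t, b⟩ : ℂ)) 1 t := by
          have h1 : HasDerivAt (fun t : ℝ => (t : ℂ) + (⟨0, b⟩ : ℂ)) 1 t :=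
            (Complex.ofRealCLM.hasDerivAt (x := t)).add_const _
          refine h1.congr_of_eventuallyEq (Eventually.of_forall fun s => ?_)
          apply Complex.ext <;> simp
        exact (hVd _).comp_hasDerivAt t hc
      have hbd : ∀ t : ℝ, |V (⟨t, b⟩ : ℂ)| ≤ C / (1 + t ^ 2) := by
        intro t
        refine (hC _).trans ?_
        rw [hn]
        exact div_le_div_of_nonneg_left hC0 (by positivity) (by nlinarith [sq_nonneg b])
      have ht := ibp_tendsto hbd
      have := integral_of_hasDerivAt_of_tendsto hder hb ht.2 ht.1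
      rw [this]; simp
    rw [integral_congr_ae this]
    simp
  · rw [Measure.volume_eq_prod] at hip ⊢
    rw [integral_prod _ hip]
    have hae := hip.prod_right_ae
    have : ∀ᵐ b : ℝ, ∫ t : ℝ, fderiv ℝ V (⟨b, t⟩ : ℂ) Complex.I = 0 := by
      filter_upwards [hae] with b hb
      have hder : ∀ t : ℝ, HasDerivAt (fun t : ℝ => V (⟨b, t⟩ : ℂ))
          (fderiv ℝ V (⟨b, t⟩ : ℂ) Complex.I) t := by
        intro t
        have hc : HasDerivAt (fun t : ℝ => (⟨b, t⟩ : ℂ)) Complex.I t := by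
          have h1 : HasDerivAt (fun t : ℝ => (t : ℂ) * Complex.I + (⟨b, 0⟩ : ℂ)) (1 * Complex.I) t :=
            ((Complex.ofRealCLM.hasDerivAt (x := t)).mul_const Complex.I).add_const _
          rw [one_mul] at h1
          refine h1.congr_of_eventuallyEq (Eventually.of_forall fun s => ?_)
          apply Complex.ext <;> simp
        exact (hVd _).comp_hasDerivAt t hc
      have hbd : ∀ t : ℝ, |V (⟨b, t⟩ : ℂ)| ≤ C / (1 + t ^ 2) := by
        intro t
        refine (hC _).trans ?_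
        rw [hn]
        exact div_le_div_of_nonneg_left hC0 (by positivity) (by nlinarith [sq_nonneg b])
      have ht := ibp_tendsto hbd
      have := integral_of_hasDerivAt_of_tendsto hder hb ht.2 ht.1
      rw [this]; simp
    rw [integral_congr_ae this]
    simp

/-! ## Green's identities -/

theorem ibp_dir_mul (hf : SphSmooth f) (hg : SphSmooth g) (v : ℂ) :
    Integrable fun x => fderiv ℝ f x v * fderiv ℝ g x v := by
  obtain ⟨C1, h10, h1⟩ := hf.dir_le v
  obtain ⟨C2, h20, h2⟩ := hg.dir_le v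
  refine ibp_integrable_of_le' (C := C1 * C2) ?_ (by positivity) fun x => ?_
  · exact ((hf.dir v).1.continuous.mul (hg.dir v).1.continuous).aestronglyMeasurable
  · rw [abs_mul]
    calc |fderiv ℝ f x v| * |fderiv ℝ g x v| ≤ (C1 / (1 + ‖x‖ ^ 2)) * (C2 / (1 + ‖x‖ ^ 2)) :=
          mul_le_mul (h1 x) (h2 x) (abs_nonneg _) (by positivity)
      _ = _ := by rw [div_mul_div_comm]; ring

theorem ibp_mul_dir2 (hf : SphSmooth f) (hg : SphSmooth g) (v : ℂ) :
    Integrable fun x => f x * fderiv ℝ (fun y => fderiv ℝ g y v) x v := by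
  obtain ⟨C1, h10, h1⟩ := hf.bdd
  obtain ⟨C2, h20, h2⟩ := hg.dir2_le v v
  refine ibp_integrable_of_le (C := C1 * C2) ?_ fun x => ?_
  · exact (hf.1.continuous.mul ((hg.dir v).dir v).1.continuous).aestronglyMeasurable
  · rw [abs_mul]
    calc |f x| * |fderiv ℝ (fun y => fderiv ℝ g y v) x v| ≤ C1 * (C2 / (1 + ‖x‖) ^ 3) :=
          mul_le_mul (h1 x) (h2 x) (abs_nonneg _) h10
      _ = _ := by ring

theorem ibp_one (hf : SphSmooth f) (hg : SphSmooth g) {v : ℂ} (hv : v = 1 ∨ v = Complex.I) :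
    ∫ x, f x * fderiv ℝ (fun y => fderiv ℝ g y v) x v =
      -∫ x, fderiv ℝ f x v * fderiv ℝ g x v := by
  have hV : SphSmooth fun x => f x * fderiv ℝ g x v := hf.mul (hg.dir v)
  have hder : ∀ x, fderiv ℝ (fun x => f x * fderiv ℝ g x v) x v =
      fderiv ℝ f x v * fderiv ℝ g x v + f x * fderiv ℝ (fun y => fderiv ℝ g y v) x v := by
    intro x
    have h1 : HasFDerivAt f (fderiv ℝ f x) x :=
      ((hf.1.differentiable (by norm_num)) x).hasFDerivAt
    have h2 : HasFDerivAt (fun y => fderiv ℝ g y v) (fderiv ℝ (fun y => fderiv ℝ g y v) x) x :=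
      (((hg.dir v).1.differentiable (by norm_num)) x).hasFDerivAt
    rw [(h1.fun_mul h2).fderiv]
    simp only [_root_.add_apply, _root_.smul_apply, smul_eq_mul]
    ring
  have i1 := ibp_dir_mul hf hg v
  have i2 := ibp_mul_dir2 hf hg v
  obtain ⟨C1, h10, h1⟩ := hf.bdd
  obtain ⟨C2, h20, h2⟩ := hg.dir_le v
  have h0 : ∫ x, fderiv ℝ (fun x => f x * fderiv ℝ g x v) x v = 0 := by
    refine integral_dir_eq_zero (hV.1.of_le (by norm_num)) ⟨C1 * C2, fun x => ?_⟩ hv ?_
    · rw [abs_mul]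
      calc |f x| * |fderiv ℝ g x v| ≤ C1 * (C2 / (1 + ‖x‖ ^ 2)) :=
            mul_le_mul (h1 x) (h2 x) (abs_nonneg _) h10
        _ = _ := by ring
    · simp_rw [hder]
      exact i1.add i2
  simp_rw [hder] at h0
  rw [integral_add i1 i2] at h0
  linarith

theorem green_grad (hf : SphSmooth f) (hg : SphSmooth g) :
    ∫ x, f x * lap g x =
      -∫ x, (fderiv ℝ f x 1 * fderiv ℝ g x 1 +
        fderiv ℝ f x Complex.I * fderiv ℝ g x Complex.I) := by
  have e : ∀ x, f x * lap g x = f x * fderiv ℝ (fun y => fderiv ℝ g y 1) x 1 +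
      f x * fderiv ℝ (fun y => fderiv ℝ g y Complex.I) x Complex.I := by
    intro x
    rw [lap_eq_dir (hg.1.of_le sph_two_le) x]; ring
  simp_rw [e]
  rw [integral_add (ibp_mul_dir2 hf hg 1) (ibp_mul_dir2 hf hg Complex.I),
    ibp_one hf hg (Or.inl rfl), ibp_one hf hg (Or.inr rfl),
    integral_add (ibp_dir_mul hf hg 1) (ibp_dir_mul hf hg Complex.I)]
  ring

theorem green_symm (hf : SphSmooth f) (hg : SphSmooth g) :
    ∫ x, f x * lap g x = ∫ x, g x * lap f x := by
  rw [green_grad hf hg, green_grad hg hf]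
  congr 2
  ext x; ring

theorem integral_lap (hf : SphSmooth f) : ∫ x, lap f x = 0 := by
  have h := green_grad (SphSmooth.const 1) hf
  simp only [one_mul] at h
  rw [h]
  simp

end

end LQZ
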