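import Pool.Agent.LQZ.Base

/-! # Project LQZ, module SPH: smooth functions on the sphere -/

open MeasureTheory Set Filter Topology InnerProductSpace
open scoped ContDiff ENNReal NNReal Real

namespace LQZ

noncomputable section

variable {ψ χ f g η φ φ' u : ℂ → ℝ}

theorem sph_two_le : (2 : WithTop ℕ∞) ≤ ((⊤ : ℕ∞) : WithTop ℕ∞) := by
  exact WithTop.coe_le_coe.2 le_top

/-! ## composition with holomorphic maps -/

theorem sph_lap_at {F : ℂ → ℝ} {x : ℂ} (hF : ContDiffAt ℝ 2 F x) :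
    lap F x = fderiv ℝ (fun y => fderiv ℝ F y 1) x 1 +
      fderiv ℝ (fun y => fderiv ℝ F y Complex.I) x Complex.I := by
  have h1 : lap F x = iteratedFDeriv ℝ 2 F x ![1, 1] +
      iteratedFDeriv ℝ 2 F x ![Complex.I, Complex.I] := by
    rw [lap, laplacian_eq_iteratedFDeriv_complexPlane]
  have hd : DifferentiableAt ℝ (fderiv ℝ F) x :=
    (hF.fderiv_right (m := 1) (by norm_num)).differentiableAt (by norm_num)
  have h2 : ∀ v w : ℂ, fderiv ℝ (fun y => fderiv ℝ F y v) x w = fderiv ℝ (fderiv ℝ F) x w v := by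
    intro v w
    have := (hd.hasFDerivAt.clm_apply (hasFDerivAt_const v x)).fderiv
    rw [this]
    simp
  rw [h1, iteratedFDeriv_two_apply, iteratedFDeriv_two_apply, h2, h2]
  simp

theorem sph_lap_comp {f : ℂ → ℝ} {φ : ℂ → ℂ} {x : ℂ} (hf : ContDiffAt ℝ 2 f (φ x))
    (hφ : AnalyticAt ℂ φ x) : lap (fun y => f (φ y)) x = ‖deriv φ x‖ ^ 2 * lap f (φ x) := by
  have hφc : ContDiffAt ℝ 2 φ x := (hφ.contDiffAt (n := 2)).restrict_scalars ℝ
  have hF : ContDiffAt ℝ 2 (fun y => f (φ y)) x := hf.comp x hφc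
  rw [sph_lap_at hF, sph_lap_at hf]
  have hfd : DifferentiableAt ℝ (fderiv ℝ f) (φ x) :=
    (hf.fderiv_right (m := 1) (by norm_num)).differentiableAt (by norm_num)
  have hφe : ∀ᶠ y in 𝓝 x, AnalyticAt ℂ φ y := hφ.eventually_analyticAt
  have hfe : ∀ᶠ y in 𝓝 x, DifferentiableAt ℝ f (φ y) := by
    have h1 : ∀ᶠ y in 𝓝 (φ x), ContDiffAt ℝ 2 f y := hf.eventually (by norm_num)
    exact (hφ.continuousAt.eventually h1).mono fun y hy => hy.differentiableAt (by norm_num)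
  have key : ∀ v : ℂ, fderiv ℝ (fun y => fderiv ℝ (fun y => f (φ y)) y v) x v =
      fderiv ℝ (fderiv ℝ f) (φ x) (deriv φ x * v) (deriv φ x * v) +
        fderiv ℝ f (φ x) (deriv (deriv φ) x * v * v) := by
    intro v
    have e1 : (fun y => fderiv ℝ (fun y => f (φ y)) y v) =ᶠ[𝓝 x]
        fun y => fderiv ℝ f (φ y) (deriv φ y * v) := by
      filter_upwards [hφe, hfe] with y hy hfy
      have hd : HasFDerivAt φ ((ContinuousLinearMap.toSpanSingleton ℂ (deriv φ y)).restrictScalars ℝ) y :=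
        hy.differentiableAt.hasDerivAt.hasFDerivAt.restrictScalars ℝ
      have := (hfy.hasFDerivAt.comp y hd).fderiv
      change fderiv ℝ (f ∘ φ) y v = _
      rw [this]
      simp [mul_comm]
    rw [e1.fderiv_eq]
    have hd : HasFDerivAt φ ((ContinuousLinearMap.toSpanSingleton ℂ (deriv φ x)).restrictScalars ℝ) x :=
      hφ.differentiableAt.hasDerivAt.hasFDerivAt.restrictScalars ℝ
    have hd2 : HasFDerivAt (fun y => deriv φ y * v)
        ((ContinuousLinearMap.toSpanSingleton ℂ (deriv (deriv φ) x * v)).restrictScalars ℝ) x :=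
      (hφ.deriv.differentiableAt.hasDerivAt.mul_const v).hasFDerivAt.restrictScalars ℝ
    have h3 := ((hfd.hasFDerivAt.comp x hd).clm_apply hd2).fderiv
    have h4 : (fun y => fderiv ℝ f (φ y) (deriv φ y * v)) =
      fun y => ((fderiv ℝ f ∘ φ) y) (deriv φ y * v) := rfl
    rw [h4, h3]
    simp [mul_comm, add_comm]
  have hdir : ∀ v w : ℂ, fderiv ℝ (fun y => fderiv ℝ f y v) (φ x) w =
      fderiv ℝ (fderiv ℝ f) (φ x) w v := by
    intro v w
    have := (hfd.hasFDerivAt.clm_apply (hasFDerivAt_const v (φ x))).fderiv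
    rw [this]
    simp
  rw [key 1, key Complex.I, hdir, hdir]
  set α : ℂ := deriv φ x with hα
  set B := fderiv ℝ (fderiv ℝ f) (φ x) with hB
  have e2 : deriv (deriv φ) x * Complex.I * Complex.I = -(deriv (deriv φ) x * 1 * 1) := by
    rw [mul_assoc, Complex.I_mul_I]; ring
  rw [e2, map_neg]
  have a1 : α * 1 = α.re • (1 : ℂ) + α.im • Complex.I := by
    rw [mul_one]
    apply Complex.ext <;> simp
  have a2 : α * Complex.I = (-α.im) • (1 : ℂ) + α.re • Complex.I := by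
    apply Complex.ext <;> simp
  rw [a1, a2]
  simp only [map_add, map_smul, _root_.add_apply, _root_.smul_apply,
    smul_eq_mul]
  have e3 : ‖α‖ ^ 2 = α.re ^ 2 + α.im ^ 2 := by
    rw [← Complex.normSq_eq_norm_sq, Complex.normSq_apply]; ring
  rw [e3]
  ring

/-! ## basic closure properties -/

theorem SphSmooth.const (c : ℝ) : SphSmooth fun _ => c :=
  ⟨contDiff_const, fun _ => c, contDiff_const, fun _ _ => rfl⟩

theorem SphSmooth.add (hf : SphSmooth f) (hg : SphSmooth g) : SphSmooth fun x => f x + g x := by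
  obtain ⟨h1, f', h2, h3⟩ := hf
  obtain ⟨k1, g', k2, k3⟩ := hg
  exact ⟨h1.add k1, fun x => f' x + g' x, h2.add k2, fun w hw => by
    change f' w + g' w = f w⁻¹ + g w⁻¹; rw [h3 w hw, k3 w hw]⟩

theorem SphSmooth.sub (hf : SphSmooth f) (hg : SphSmooth g) : SphSmooth fun x => f x - g x := by
  obtain ⟨h1, f', h2, h3⟩ := hf
  obtain ⟨k1, g', k2, k3⟩ := hg
  exact ⟨h1.sub k1, fun x => f' x - g' x, h2.sub k2, fun w hw => by
    change f' w - g' w = f w⁻¹ - g w⁻¹; rw [h3 w hw, k3 w hw]⟩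

theorem SphSmooth.mul (hf : SphSmooth f) (hg : SphSmooth g) : SphSmooth fun x => f x * g x := by
  obtain ⟨h1, f', h2, h3⟩ := hf
  obtain ⟨k1, g', k2, k3⟩ := hg
  exact ⟨h1.mul k1, fun x => f' x * g' x, h2.mul k2, fun w hw => by
    change f' w * g' w = f w⁻¹ * g w⁻¹; rw [h3 w hw, k3 w hw]⟩

theorem SphSmooth.neg (hf : SphSmooth f) : SphSmooth fun x => -f x := by
  obtain ⟨h1, f', h2, h3⟩ := hf
  exact ⟨h1.neg, fun x => -f' x, h2.neg, fun w hw => by
    change -f' w = -f w⁻¹; rw [h3 w hw]⟩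

theorem SphSmooth.const_mul (c : ℝ) (hf : SphSmooth f) : SphSmooth fun x => c * f x :=
  (SphSmooth.const c).mul hf

/-- criterion: `f` is smooth on `ℂ` and `f(1/w)` agrees near `0` with a smooth function -/
theorem sph_mk {f g₀ : ℂ → ℝ} (hf : ContDiff ℝ ∞ f) (hg : ContDiffAt ℝ ∞ g₀ 0)
    (h : ∀ᶠ w in 𝓝[≠] (0 : ℂ), f w⁻¹ = g₀ w) : SphSmooth f := by
  refine ⟨hf, fun w => if w = 0 then g₀ 0 else f w⁻¹, ?_, fun w hw => if_neg hw⟩
  rw [contDiff_iff_contDiffAt]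
  intro w
  by_cases hw : w = 0
  · subst hw
    refine hg.congr_of_eventuallyEq ?_
    have h' : ∀ᶠ w in 𝓝 (0 : ℂ), w ≠ 0 → f w⁻¹ = g₀ w := eventually_nhdsWithin_iff.1 h
    filter_upwards [h'] with w hw
    by_cases h0 : w = 0
    · rw [if_pos h0, h0]
    · rw [if_neg h0]; exact hw h0
  · have hi : ContDiffAt ℝ ∞ (fun w : ℂ => w⁻¹) w := by
      have : ContDiffAt ℂ ∞ (fun w : ℂ => w⁻¹) w := contDiffAt_inv ℂ hw
      exact this.restrict_scalars ℝ
    have hc : ContDiffAt ℝ ∞ (fun w : ℂ => f w⁻¹) w := hf.contDiffAt.comp w hi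
    refine hc.congr_of_eventuallyEq ?_
    filter_upwards [isOpen_ne.mem_nhds hw] with y hy
    rw [if_neg hy]

theorem SphSmooth.of_compact (hf : ContDiff ℝ ∞ f) (hc : HasCompactSupport f) : SphSmooth f := by
  refine sph_mk (g₀ := fun _ => 0) hf contDiffAt_const ?_
  obtain ⟨R, hR⟩ := hc.isCompact.isBounded.subset_closedBall (0 : ℂ)
  have h1 : ∀ᶠ w in 𝓝[≠] (0 : ℂ), R < ‖w⁻¹‖ := by
    have := (tendsto_norm_inv_nhdsNE_zero_atTop (α := ℂ)).eventually_gt_atTop R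
    exact this
  filter_upwards [h1] with w hw
  by_contra hne
  have : w⁻¹ ∈ tsupport f := subset_tsupport f hne
  have := hR this
  rw [mem_closedBall_zero_iff] at this
  linarith

theorem SphSmooth.inv (hf : SphSmooth f) :
    ∃ g : ℂ → ℝ, SphSmooth g ∧ ∀ w : ℂ, w ≠ 0 → g w = f w⁻¹ := by
  obtain ⟨h1, f', h2, h3⟩ := hf
  exact ⟨f', ⟨h2, f, h1, fun w hw => by rw [h3 _ (inv_ne_zero hw), inv_inv]⟩, h3⟩

/-- global bounds from bounds on the two unit discs -/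
theorem sph_bound {F : ℂ → ℝ} {G : ℂ → ℝ} {N : ℕ} (hF : Continuous F) {C : ℝ}
    (hG : ∀ w : ℂ, ‖w‖ ≤ 1 → |G w| ≤ C * ‖w‖ ^ N)
    (h : ∀ x : ℂ, x ≠ 0 → F x = G x⁻¹) :
    ∃ K : ℝ, 0 ≤ K ∧ (∀ x, ‖x‖ ≤ 1 → |F x| ≤ K) ∧ ∀ x, 1 ≤ ‖x‖ → |F x| ≤ K / ‖x‖ ^ N := by
  obtain ⟨K1, hK1⟩ := (isCompact_closedBall (0 : ℂ) 1).exists_bound_of_continuousOn
    hF.continuousOn
  refine ⟨max K1 0 + |C|, by positivity, fun x hx => ?_, fun x hx => ?_⟩
  · have := hK1 x (by rw [mem_closedBall_zero_iff]; exact hx)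
    rw [Real.norm_eq_abs] at this
    have h2 := le_max_left K1 0
    have h3 := abs_nonneg C
    linarith
  · have hx0 : x ≠ 0 := by
      rintro rfl; rw [norm_zero] at hx; linarith
    have hxp : 0 < ‖x‖ := norm_pos_iff.2 hx0
    rw [h x hx0]
    have h1 := hG x⁻¹ (by rw [norm_inv]; exact inv_le_one_of_one_le₀ hx)
    rw [norm_inv, inv_pow] at h1
    refine h1.trans ?_
    rw [← div_eq_mul_inv]
    refine div_le_div_of_nonneg_right ?_ (by positivity)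
    have h2 := le_max_right K1 0
    have h3 := le_abs_self C
    linarith

theorem SphSmooth.bdd (hf : SphSmooth f) : ∃ C : ℝ, 0 ≤ C ∧ ∀ x, |f x| ≤ C := by
  obtain ⟨h1, f', h2, h3⟩ := hf
  obtain ⟨K1, hK1⟩ := (isCompact_closedBall (0 : ℂ) 1).exists_bound_of_continuousOn
    h2.continuous.continuousOn
  obtain ⟨K, hK, ha, hb⟩ := sph_bound (F := f) (G := f') (N := 0) (C := K1) h1.continuous
    (fun w hw => by
      rw [pow_zero, mul_one, ← Real.norm_eq_abs]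
      exact hK1 w (by rw [mem_closedBall_zero_iff]; exact hw))
    (fun x hx => by rw [h3 _ (inv_ne_zero hx), inv_inv])
  refine ⟨K, hK, fun x => ?_⟩
  rcases le_total ‖x‖ 1 with hx | hx
  · exact ha x hx
  · simpa using hb x hx

/-! ## directional derivatives -/

theorem sph_dir_formula {f f' : ℂ → ℝ} (h2 : ContDiff ℝ ∞ f')
    (h3 : ∀ w : ℂ, w ≠ 0 → f' w = f w⁻¹) (v : ℂ) {x : ℂ} (hx : x ≠ 0) :
    fderiv ℝ f x v = fderiv ℝ f' x⁻¹ (-(v * x⁻¹ ^ 2)) := by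
  have e : f =ᶠ[𝓝 x] fun y => f' y⁻¹ := by
    filter_upwards [isOpen_ne.mem_nhds hx] with y hy
    rw [h3 _ (inv_ne_zero hy), inv_inv]
  rw [e.fderiv_eq]
  have hd : HasFDerivAt (fun y : ℂ => y⁻¹)
      ((ContinuousLinearMap.toSpanSingleton ℂ (-(x ^ 2)⁻¹)).restrictScalars ℝ) x :=
    (hasDerivAt_inv hx).hasFDerivAt.restrictScalars ℝ
  have hf' : DifferentiableAt ℝ f' x⁻¹ := (h2.differentiable (by norm_num)) _
  have := (hf'.hasFDerivAt.comp x hd).fderiv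
  change fderiv ℝ (f' ∘ fun y => y⁻¹) x v = _
  rw [this]
  simp

theorem SphSmooth.dir (hf : SphSmooth f) (v : ℂ) : SphSmooth fun x => fderiv ℝ f x v := by
  obtain ⟨h1, f', h2, h3⟩ := hf
  refine ⟨(h1.fderiv_right (m := ∞) (by norm_num)).clm_apply contDiff_const,
    fun w => fderiv ℝ f' w (-(v * w ^ 2)), ?_, fun w hw => ?_⟩
  · refine (h2.fderiv_right (m := ∞) (by norm_num)).clm_apply ?_
    exact (contDiff_const.mul (contDiff_id.pow 2)).neg
  · simp only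
    rw [sph_dir_formula h2 h3 v (inv_ne_zero hw), inv_inv]

private theorem sph_dir_G {f' : ℂ → ℝ} (h2 : ContDiff ℝ ∞ f') (v : ℂ) :
    ∃ C : ℝ, 0 ≤ C ∧ ∀ w : ℂ, ‖w‖ ≤ 1 → ‖fderiv ℝ f' w (-(v * w ^ 2))‖ ≤ C * ‖w‖ ^ 2 := by
  obtain ⟨K1, hK1⟩ := (isCompact_closedBall (0 : ℂ) 1).exists_bound_of_continuousOn
    ((h2.continuous_fderiv (by norm_num)).continuousOn)
  have hK0 : 0 ≤ K1 := (norm_nonneg _).trans (hK1 0 (by simp))
  refine ⟨K1 * ‖v‖, by positivity, fun w hw => ?_⟩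
  refine (ContinuousLinearMap.le_opNorm _ _).trans ?_
  rw [norm_neg, norm_mul, norm_pow]
  have := hK1 w (by rw [mem_closedBall_zero_iff]; exact hw)
  calc ‖fderiv ℝ f' w‖ * (‖v‖ * ‖w‖ ^ 2) ≤ K1 * (‖v‖ * ‖w‖ ^ 2) :=
        mul_le_mul_of_nonneg_right this (by positivity)
    _ = _ := by ring

theorem SphSmooth.dir_le (hf : SphSmooth f) (v : ℂ) :
    ∃ C : ℝ, 0 ≤ C ∧ ∀ x, |fderiv ℝ f x v| ≤ C / (1 + ‖x‖ ^ 2) := by
  have hdir := hf.dir v
  obtain ⟨h1, f', h2, h3⟩ := hf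
  obtain ⟨C, hC0, hC⟩ := sph_dir_G h2 v
  obtain ⟨K, hK, ha, hb⟩ := sph_bound (F := fun x => fderiv ℝ f x v)
    (G := fun w => fderiv ℝ f' w (-(v * w ^ 2))) (N := 2) (C := C) hdir.1.continuous
    (fun w hw => by rw [← Real.norm_eq_abs]; exact hC w hw)
    (fun x hx => sph_dir_formula h2 h3 v hx)
  refine ⟨2 * K, by positivity, fun x => ?_⟩
  rw [le_div_iff₀ (by positivity)]
  rcases le_total ‖x‖ 1 with hx | hx
  · have h4 := ha x hx
    have h5 : ‖x‖ ^ 2 ≤ 1 := pow_le_one₀ (norm_nonneg _) hx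
    have h6 := abs_nonneg (fderiv ℝ f x v)
    nlinarith
  · have h4 := hb x hx
    have hxp : 0 < ‖x‖ ^ 2 := by positivity
    rw [le_div_iff₀ hxp] at h4
    have h5 : 1 ≤ ‖x‖ ^ 2 := one_le_pow₀ hx
    have h6 := abs_nonneg (fderiv ℝ f x v)
    nlinarith

theorem SphSmooth.dir2_le (hf : SphSmooth f) (v w : ℂ) :
    ∃ C : ℝ, 0 ≤ C ∧ ∀ x, |fderiv ℝ (fun y => fderiv ℝ f y v) x w| ≤ C / (1 + ‖x‖) ^ 3 := by
  have hdir := hf.dir v
  have hdir2 := hdir.dir w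
  obtain ⟨h1, f', h2, h3⟩ := hf
  -- the chart function of `∂_v f`
  set G : ℂ → ℝ := fun w => fderiv ℝ f' w (-(v * w ^ 2)) with hG
  have hGs : ContDiff ℝ ∞ G := by
    refine (h2.fderiv_right (m := ∞) (by norm_num)).clm_apply ?_
    exact (contDiff_const.mul (contDiff_id.pow 2)).neg
  have hGrel : ∀ w : ℂ, w ≠ 0 → G w = (fun x => fderiv ℝ f x v) w⁻¹ := by
    intro w hw
    simp only [hG]
    rw [sph_dir_formula h2 h3 v (inv_ne_zero hw), inv_inv]
  -- `DG(w)` is `O(|w|)`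
  obtain ⟨K1, hK1⟩ := (isCompact_closedBall (0 : ℂ) 1).exists_bound_of_continuousOn
    ((h2.continuous_fderiv (by norm_num)).continuousOn)
  have hf2 : ContDiff ℝ ∞ (fderiv ℝ f') := h2.fderiv_right (m := ∞) (by norm_num)
  obtain ⟨K2, hK2⟩ := (isCompact_closedBall (0 : ℂ) 1).exists_bound_of_continuousOn
    ((hf2.continuous_fderiv (by norm_num)).continuousOn)
  have hK10 : 0 ≤ K1 := (norm_nonneg _).trans (hK1 0 (by simp))
  have hK20 : 0 ≤ K2 := (norm_nonneg _).trans (hK2 0 (by simp))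
  have hDG : ∀ u : ℂ, ‖u‖ ≤ 1 → ∀ k : ℂ,
      |fderiv ℝ G u k| ≤ (2 * K1 + K2) * ‖v‖ * ‖u‖ * ‖k‖ := by
    intro u hu k
    have hd1 : HasFDerivAt (fderiv ℝ f') (fderiv ℝ (fderiv ℝ f') u) u :=
      ((hf2.differentiable (by norm_num)) u).hasFDerivAt
    have hd2 : HasFDerivAt (fun w : ℂ => -(v * w ^ 2))
        ((ContinuousLinearMap.toSpanSingleton ℂ (-(v * (2 * u)))).restrictScalars ℝ) u := by
      have h0 : HasDerivAt (fun w : ℂ => -(v * w ^ 2)) (-(v * (2 * u))) u := by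
        have := ((hasDerivAt_pow 2 u).const_mul v).fun_neg
        simpa using this
      exact h0.hasFDerivAt.restrictScalars ℝ
    have h4 := (hd1.clm_apply hd2).fderiv
    have h5 : fderiv ℝ G u k = fderiv ℝ f' u (k * (-(v * (2 * u)))) +
        fderiv ℝ (fderiv ℝ f') u k (-(v * u ^ 2)) := by
      rw [hG, h4]; simp
    rw [h5]
    have hu' : u ∈ Metric.closedBall (0 : ℂ) 1 := by rw [mem_closedBall_zero_iff]; exact hu
    have b1 : |fderiv ℝ f' u (k * (-(v * (2 * u))))| ≤ K1 * (‖k‖ * (‖v‖ * (2 * ‖u‖))) := by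
      rw [← Real.norm_eq_abs]
      refine (ContinuousLinearMap.le_opNorm _ _).trans ?_
      rw [norm_mul, norm_neg, norm_mul, norm_mul]
      have h2' : ‖(2 : ℂ)‖ = 2 := by norm_num
      rw [h2']
      exact mul_le_mul_of_nonneg_right (hK1 u hu') (by positivity)
    have b2 : |fderiv ℝ (fderiv ℝ f') u k (-(v * u ^ 2))| ≤ K2 * ‖k‖ * (‖v‖ * ‖u‖ ^ 2) := by
      rw [← Real.norm_eq_abs]
      refine (ContinuousLinearMap.le_opNorm _ _).trans ?_
      rw [norm_neg, norm_mul, norm_pow]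
      refine mul_le_mul_of_nonneg_right ?_ (by positivity)
      refine (ContinuousLinearMap.le_opNorm _ _).trans ?_
      exact mul_le_mul_of_nonneg_right (hK2 u hu') (norm_nonneg _)
    have b3 : ‖u‖ ^ 2 ≤ ‖u‖ := by
      have := norm_nonneg u; nlinarith
    have b4 : K2 * ‖k‖ * (‖v‖ * ‖u‖ ^ 2) ≤ K2 * ‖k‖ * (‖v‖ * ‖u‖) := by gcongr
    refine (abs_add_le _ _).trans ?_
    nlinarith [b1, b2, b4]
  obtain ⟨K, hK, ha, hb⟩ := sph_bound (F := fun x => fderiv ℝ (fun y => fderiv ℝ f y v) x w)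
    (G := fun u => fderiv ℝ G u (-(w * u ^ 2))) (N := 3) (C := (2 * K1 + K2) * ‖v‖ * ‖w‖)
    hdir2.1.continuous
    (fun u hu => by
      refine (hDG u hu _).trans (le_of_eq ?_)
      rw [norm_neg, norm_mul, norm_pow]; ring)
    (fun x hx => sph_dir_formula hGs hGrel w hx)
  refine ⟨8 * K, by positivity, fun x => ?_⟩
  have hxn := norm_nonneg x
  rw [le_div_iff₀ (by positivity)]
  have h6 := abs_nonneg (fderiv ℝ (fun y => fderiv ℝ f y v) x w)
  rcases le_total ‖x‖ 1 with hx | hx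
  · have h4 := ha x hx
    have h5 : (1 + ‖x‖) ^ 3 ≤ 2 ^ 3 := pow_le_pow_left₀ (by positivity) (by linarith) 3
    calc |fderiv ℝ (fun y => fderiv ℝ f y v) x w| * (1 + ‖x‖) ^ 3 ≤ K * 2 ^ 3 :=
          mul_le_mul h4 h5 (by positivity) hK
      _ = 8 * K := by ring
  · have h4 := hb x hx
    have hxp : 0 < ‖x‖ ^ 3 := by positivity
    rw [le_div_iff₀ hxp] at h4
    have h5 : (1 + ‖x‖) ^ 3 ≤ (2 * ‖x‖) ^ 3 :=
      pow_le_pow_left₀ (by positivity) (by linarith) 3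
    calc |fderiv ℝ (fun y => fderiv ℝ f y v) x w| * (1 + ‖x‖) ^ 3
        ≤ |fderiv ℝ (fun y => fderiv ℝ f y v) x w| * (2 * ‖x‖) ^ 3 :=
          mul_le_mul_of_nonneg_left h5 h6
      _ = 8 * (|fderiv ℝ (fun y => fderiv ℝ f y v) x w| * ‖x‖ ^ 3) := by ring
      _ ≤ 8 * K := by linarith

/-! ## the Laplacian -/

theorem lap_eq_dir (hf : ContDiff ℝ 2 f) (x : ℂ) :
    lap f x = fderiv ℝ (fun y => fderiv ℝ f y 1) x 1 +
      fderiv ℝ (fun y => fderiv ℝ f y Complex.I) x Complex.I :=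
  sph_lap_at hf.contDiffAt

theorem SphSmooth.lap_sph (hf : SphSmooth f) : SphSmooth (lap f) := by
  have h := ((hf.dir 1).dir 1).add ((hf.dir Complex.I).dir Complex.I)
  have e : lap f = fun x => fderiv ℝ (fun y => fderiv ℝ f y 1) x 1 +
      fderiv ℝ (fun y => fderiv ℝ f y Complex.I) x Complex.I := by
    ext x
    exact lap_eq_dir (hf.1.of_le sph_two_le) x
  rw [e]; exact h

/-- conformal invariance of the Laplacian under `w = 1/x` -/
theorem lap_inv (hf : ContDiff ℝ 2 f) (h : ∀ w : ℂ, w ≠ 0 → g w = f w⁻¹) {x : ℂ} (hx : x ≠ 0) :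
    lap g x = lap f x⁻¹ / ‖x‖ ^ 4 := by
  have e : g =ᶠ[𝓝 x] fun y => f y⁻¹ := by
    filter_upwards [isOpen_ne.mem_nhds hx] with y hy
    exact h y hy
  have e2 : lap g x = lap (fun y => f y⁻¹) x := (laplacian_congr_nhds e).eq_of_nhds
  rw [e2, sph_lap_comp (φ := fun y : ℂ => y⁻¹) hf.contDiffAt (analyticAt_inv hx)]
  have : deriv (fun y : ℂ => y⁻¹) x = -(x ^ 2)⁻¹ := (hasDerivAt_inv hx).deriv
  rw [this, norm_neg, norm_inv, norm_pow]
  field_simp

theorem SphSmooth.lap_le (hf : SphSmooth f) :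
    ∃ C : ℝ, 0 ≤ C ∧ ∀ x, |lap f x| ≤ C / (1 + ‖x‖ ^ 2) ^ 2 := by
  have hlap := hf.lap_sph
  obtain ⟨h1, f', h2, h3⟩ := hf
  have hlap' : SphSmooth (lap f') :=
    (show SphSmooth f' from ⟨h2, f, h1, fun w hw => by rw [h3 _ (inv_ne_zero hw), inv_inv]⟩).lap_sph
  obtain ⟨C1, hC1, hb1⟩ := hlap.bdd
  obtain ⟨C2, hC2, hb2⟩ := hlap'.bdd
  refine ⟨4 * (C1 + C2), by positivity, fun x => ?_⟩
  rw [le_div_iff₀ (by positivity)]
  have h6 := abs_nonneg (lap f x)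
  rcases le_total ‖x‖ 1 with hx | hx
  · have h5 : (1 + ‖x‖ ^ 2) ^ 2 ≤ 4 := by
      have : ‖x‖ ^ 2 ≤ 1 := pow_le_one₀ (norm_nonneg _) hx
      nlinarith [sq_nonneg ‖x‖]
    have := hb1 x
    nlinarith
  · have hx0 : x ≠ 0 := by
      rintro rfl; rw [norm_zero] at hx; linarith
    have e := lap_inv (g := f) (f := f') (h2.of_le sph_two_le)
      (fun w hw => by rw [h3 _ (inv_ne_zero hw), inv_inv]) hx0
    have h4 : |lap f x| * ‖x‖ ^ 4 ≤ C2 := by
      rw [e, abs_div, abs_of_nonneg (by positivity : (0 : ℝ) ≤ ‖x‖ ^ 4)]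
      have hxp : 0 < ‖x‖ ^ 4 := by positivity
      rw [div_mul_cancel₀ _ hxp.ne']
      exact hb2 _
    have h5 : (1 + ‖x‖ ^ 2) ^ 2 ≤ 4 * ‖x‖ ^ 4 := by
      have : 1 ≤ ‖x‖ ^ 2 := one_le_pow₀ hx
      nlinarith [sq_nonneg ‖x‖]
    calc |lap f x| * (1 + ‖x‖ ^ 2) ^ 2 ≤ |lap f x| * (4 * ‖x‖ ^ 4) :=
          mul_le_mul_of_nonneg_left h5 h6
      _ = 4 * (|lap f x| * ‖x‖ ^ 4) := by ring
      _ ≤ 4 * (C1 + C2) := by linarith

theorem lap_affine (hf : ContDiff ℝ 2 f) (α β x : ℂ) :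
    lap (fun x => f (α * x + β)) x = ‖α‖ ^ 2 * lap f (α * x + β) := by
  have ha : AnalyticAt ℂ (fun x : ℂ => α * x + β) x :=
    (analyticAt_const.mul analyticAt_id).add analyticAt_const
  rw [sph_lap_comp (φ := fun x : ℂ => α * x + β) hf.contDiffAt ha]
  congr 2
  have : HasDerivAt (fun x : ℂ => α * x + β) (α * 1) x :=
    ((hasDerivAt_id x).const_mul α).add_const β
  rw [this.deriv, mul_one]

theorem SphSmooth.affine (hf : SphSmooth f) {α : ℂ} (hα : α ≠ 0) (β : ℂ) :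
    SphSmooth fun x => f (α * x + β) := by
  obtain ⟨h1, f', h2, h3⟩ := hf
  have hs : ContDiff ℝ ∞ fun x : ℂ => α * x + β :=
    (contDiff_const.mul contDiff_id).add contDiff_const
  refine sph_mk (g₀ := fun w => f' (w / (α + β * w))) (h1.comp hs) ?_ ?_
  · refine h2.contDiffAt.comp (0 : ℂ) ?_
    have h5 : ContDiffAt ℂ ∞ (fun w : ℂ => w / (α + β * w)) 0 := by
      refine contDiffAt_id.div
        ((contDiff_const.add (contDiff_const.mul contDiff_id)).contDiffAt) ?_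
      simpa using hα
    exact h5.restrict_scalars ℝ
  · have hne : ∀ᶠ w in 𝓝[≠] (0 : ℂ), α + β * w ≠ 0 := by
      have hc : ContinuousAt (fun w : ℂ => α + β * w) 0 := by fun_prop
      have := hc.eventually_ne (y := 0) (by simpa using hα)
      exact this.filter_mono nhdsWithin_le_nhds
    filter_upwards [hne, self_mem_nhdsWithin] with w hw hw0
    have hw0' : w ≠ 0 := hw0
    rw [h3 _ (div_ne_zero hw0' hw), inv_div]
    congr 1
    field_simp

theorem ae_zero_of_sphSmooth (hg : LocallyIntegrable g)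
    (h : ∀ ψ : ℂ → ℝ, SphSmooth ψ → ∫ x, g x * ψ x = 0) : g =ᵐ[volume] 0 := by
  refine ae_eq_zero_of_integral_contDiff_smul_eq_zero hg fun ψ hψ hc => ?_
  have := h ψ (SphSmooth.of_compact hψ hc)
  rw [← this]
  congr 1
  ext x
  rw [smul_eq_mul, mul_comm]

end

end LQZ
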