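import Pool.Agent.LQZ.Base
import Pool.Agent.LQZ.Sphere
import Pool.Agent.LQZ.IBP

/-!
# Project LQZ, module HEAT: heat kernel of the plane
-/

open MeasureTheory Set Filter Topology InnerProductSpace
open scoped ContDiff ENNReal NNReal Real

namespace LQZ

noncomputable section

variable {χ : ℂ → ℝ}

/-- heat kernel `p_t(w) = e^{-|w|²/4t}/(4πt)` -/
def pt (t : ℝ) (w : ℂ) : ℝ := Real.exp (-(‖w‖ ^ 2) / (4 * t)) / (4 * π * t)

theorem heat_gauss {b : ℝ} (hb : 0 < b) : ∫ w : ℂ, Real.exp (-b * ‖w‖ ^ 2) = π / b := by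
  rw [GaussianFourier.integral_rexp_neg_mul_sq_norm hb, Complex.finrank_real_complex]
  norm_num

theorem heat_gauss_integrable {b : ℝ} (hb : 0 < b) :
    Integrable fun w : ℂ => Real.exp (-b * ‖w‖ ^ 2) := by
  by_contra h
  have h1 := integral_undef h
  rw [heat_gauss hb] at h1
  exact (div_pos Real.pi_pos hb).ne' h1

theorem pt_eq (t : ℝ) (w : ℂ) :
    pt t w = (4 * π * t)⁻¹ * Real.exp (-(1 / (4 * t)) * ‖w‖ ^ 2) := by
  unfold pt
  rw [div_eq_inv_mul]
  congr 2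
  ring

theorem pt_pos {t : ℝ} (ht : 0 < t) (w : ℂ) : 0 < pt t w := by
  have := Real.pi_pos
  unfold pt
  positivity

theorem pt_continuous (t : ℝ) : Continuous (pt t) := by
  unfold pt
  fun_prop

theorem pt_integrable {t : ℝ} (ht : 0 < t) : Integrable (pt t) := by
  have h : pt t = fun w => (4 * π * t)⁻¹ * Real.exp (-(1 / (4 * t)) * ‖w‖ ^ 2) :=
    funext (pt_eq t)
  rw [h]
  exact (heat_gauss_integrable (by positivity)).const_mul _

theorem integral_pt {t : ℝ} (ht : 0 < t) : ∫ w, pt t w = 1 := by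
  have hp := Real.pi_pos
  simp_rw [pt_eq]
  rw [integral_const_mul, heat_gauss (by positivity)]
  field_simp

theorem integral_pt_mul {t t' : ℝ} (ht : 0 < t) (ht' : 0 < t') :
    ∫ w, pt t w * pt t' w = 1 / (4 * π * (t + t')) := by
  have hp := Real.pi_pos
  have h : ∀ w, pt t w * pt t' w = ((4 * π * t)⁻¹ * (4 * π * t')⁻¹) *
      Real.exp (-(1 / (4 * t) + 1 / (4 * t')) * ‖w‖ ^ 2) := by
    intro w
    rw [pt_eq, pt_eq]
    have : Real.exp (-(1 / (4 * t) + 1 / (4 * t')) * ‖w‖ ^ 2) =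
        Real.exp (-(1 / (4 * t)) * ‖w‖ ^ 2) * Real.exp (-(1 / (4 * t')) * ‖w‖ ^ 2) := by
      rw [← Real.exp_add]; congr 1; ring
    rw [this]
    ring
  simp_rw [h]
  rw [integral_const_mul, heat_gauss (by positivity)]
  field_simp
  ring

theorem pt_sphSmooth {t : ℝ} (ht : 0 < t) : SphSmooth (pt t) := by
  have hn : ContDiff ℝ ∞ (fun w : ℂ => ‖w‖ ^ 2) := contDiff_norm_sq ℝ
  refine ⟨?_, fun w => expNegInvGlue (4 * t * ‖w‖ ^ 2) / (4 * π * t), ?_, ?_⟩
  · unfold pt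
    exact ((hn.neg.div_const _).exp).div_const _
  · exact (expNegInvGlue.contDiff.comp (contDiff_const.mul hn)).div_const _
  · intro w hw
    have hw' : 0 < ‖w‖ := norm_pos_iff.2 hw
    have h1 : 0 < 4 * t * ‖w‖ ^ 2 := by positivity
    unfold pt expNegInvGlue
    simp only [if_neg (not_le.2 h1), norm_inv]
    congr 2
    field_simp

theorem pt_hasFDerivAt (t : ℝ) (y : ℂ) :
    HasFDerivAt (pt t) ((pt t y * (-1 / (2 * t))) • (innerSL ℝ y)) y := by
  have h1 : HasFDerivAt (fun w : ℂ => ‖w‖ ^ 2) (2 • (innerSL ℝ y)) y := by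
    have := (hasFDerivAt_id (𝕜 := ℝ) y).norm_sq
    simpa using this
  have h2 := ((h1.neg.mul_const ((4 * t)⁻¹)).exp).mul_const ((4 * π * t)⁻¹)
  have e : pt t = fun w => Real.exp (-(‖w‖ ^ 2) * (4 * t)⁻¹) * (4 * π * t)⁻¹ := by
    funext w
    unfold pt
    rw [div_eq_mul_inv, div_eq_mul_inv]
  rw [e]
  refine h2.congr_fderiv ?_
  ext v
  simp
  ring

theorem pt_fderiv (t : ℝ) (y v : ℂ) :
    fderiv ℝ (pt t) y v = pt t y * (-1 / (2 * t)) * inner ℝ y v := by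
  rw [(pt_hasFDerivAt t y).fderiv]
  simp

theorem pt_fderiv2 (t : ℝ) (y v : ℂ) :
    fderiv ℝ (fun y => fderiv ℝ (pt t) y v) y v =
      pt t y * ((-1 / (2 * t)) ^ 2 * (inner ℝ y v) ^ 2 + (-1 / (2 * t)) * inner ℝ v v) := by
  have e : (fun y => fderiv ℝ (pt t) y v) = fun y => pt t y * ((-1 / (2 * t)) * inner ℝ y v) := by
    funext y
    rw [pt_fderiv]
    ring
  have h1 : HasFDerivAt (fun y : ℂ => (-1 / (2 * t)) * inner ℝ y v)
      ((-1 / (2 * t)) • (innerSL ℝ v)) y := by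
    have h2 : HasFDerivAt (fun y : ℂ => innerSL ℝ v y) (innerSL ℝ v) y :=
      (innerSL ℝ v).hasFDerivAt
    have h3 := h2.const_mul (-1 / (2 * t))
    have e3 : (fun y : ℂ => (-1 / (2 * t)) * inner ℝ y v) =
        fun y => (-1 / (2 * t)) * innerSL ℝ v y := by
      funext y
      simp [real_inner_comm]
    rw [e3]
    exact h3
  have h4 : HasFDerivAt (fun y : ℂ => pt t y * ((-1 / (2 * t)) * inner ℝ y v)) _ y :=
    (pt_hasFDerivAt t y).mul h1
  rw [e, h4.fderiv]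
  simp
  ring

theorem pt_lap {t : ℝ} (ht : 0 < t) (w : ℂ) :
    lap (pt t) w = pt t w * (‖w‖ ^ 2 / (4 * t ^ 2) - 1 / t) := by
  rw [lap_eq_dir ((pt_sphSmooth ht).1.of_le sph_two_le), pt_fderiv2, pt_fderiv2]
  have h1 : (inner ℝ w (1 : ℂ) : ℝ) = w.re := by simp [Complex.inner]
  have h2 : (inner ℝ w Complex.I : ℝ) = w.im := by simp [Complex.inner]
  have h3 : (inner ℝ (1 : ℂ) (1 : ℂ) : ℝ) = 1 := by simp
  have h4 : (inner ℝ Complex.I Complex.I : ℝ) = 1 := by simp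
  have h5 : ‖w‖ ^ 2 = w.re ^ 2 + w.im ^ 2 := by
    rw [← Complex.normSq_eq_norm_sq, Complex.normSq_apply]; ring
  rw [h1, h2, h3, h4, h5]
  field_simp
  ring

theorem pt_hasDerivAt {t : ℝ} (ht : 0 < t) (w : ℂ) :
    HasDerivAt (fun t => pt t w) (pt t w * (‖w‖ ^ 2 / (4 * t ^ 2) - 1 / t)) t := by
  have hp := Real.pi_pos
  have h1 : HasDerivAt (fun t : ℝ => t⁻¹) (-(t ^ 2)⁻¹) t := hasDerivAt_inv ht.ne'
  have h2 : HasDerivAt (fun t : ℝ => Real.exp (-(‖w‖ ^ 2) / 4 * t⁻¹))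
      (Real.exp (-(‖w‖ ^ 2) / 4 * t⁻¹) * (-(‖w‖ ^ 2) / 4 * -(t ^ 2)⁻¹)) t :=
    (h1.const_mul _).exp
  have h3 := h2.mul (h1.const_mul ((4 * π)⁻¹))
  have e : (fun t : ℝ => pt t w) =
      fun t => Real.exp (-(‖w‖ ^ 2) / 4 * t⁻¹) * ((4 * π)⁻¹ * t⁻¹) := by
    funext t
    unfold pt
    rw [div_eq_mul_inv, mul_inv, div_eq_mul_inv, mul_inv]
    congr 2
    ring
  have e' : pt t w = Real.exp (-(‖w‖ ^ 2) / 4 * t⁻¹) * ((4 * π)⁻¹ * t⁻¹) := congrFun e t
  rw [e, e']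
  refine h3.congr_deriv ?_
  field_simp
  ring

theorem heat_hasDerivAt (hχ : SphSmooth χ) {t : ℝ} (ht : 0 < t) :
    HasDerivAt (fun t => ∫ w, pt t w * χ w) (∫ w, pt t w * lap χ w) t := by
  have hp := Real.pi_pos
  obtain ⟨C, hC0, hC⟩ := hχ.bdd
  have hcont : Continuous χ := hχ.1.continuous
  have key := hasDerivAt_integral_of_dominated_loc_of_deriv_le (μ := volume) (𝕜 := ℝ)
    (F := fun t w => pt t w * χ w) (x₀ := t) (s := Ioo (t / 2) (2 * t))
    (F' := fun t w => pt t w * (‖w‖ ^ 2 / (4 * t ^ 2) - 1 / t) * χ w)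
    (bound := fun w => C * ((2 * π * t)⁻¹ * (18 / t)) * Real.exp (-(1 / (16 * t)) * ‖w‖ ^ 2))
    (Ioo_mem_nhds (by linarith) (by linarith))
    (Eventually.of_forall fun s => ((pt_continuous s).mul hcont).aestronglyMeasurable)
    ((pt_integrable ht).mul_bdd (c := C) hcont.aestronglyMeasurable (Eventually.of_forall fun w => by
      rw [Real.norm_eq_abs]; exact hC w))
    (by
      have h1 : Continuous fun w => pt t w * (‖w‖ ^ 2 / (4 * t ^ 2) - 1 / t) * χ w :=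
        ((pt_continuous t).mul (((continuous_norm.pow 2).div_const _).sub continuous_const)).mul
          hcont
      exact h1.aestronglyMeasurable)
    (Eventually.of_forall fun w s hs => ?_)
    ((heat_gauss_integrable (by positivity)).const_mul _)
    (Eventually.of_forall fun w s hs => (pt_hasDerivAt (by linarith [hs.1]) w).mul_const _)
  · have h2 := key.2
    have e : ∫ w, pt t w * (‖w‖ ^ 2 / (4 * t ^ 2) - 1 / t) * χ w = ∫ w, pt t w * lap χ w := by
      rw [green_symm (pt_sphSmooth ht) hχ]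
      congr 1
      funext w
      rw [pt_lap ht]
      ring
    rw [e] at h2
    exact h2
  · obtain ⟨hs1, hs2⟩ := hs
    have hs0 : 0 < s := by linarith
    rw [norm_mul, norm_mul, Real.norm_of_nonneg (pt_pos hs0 w).le, Real.norm_eq_abs,
      Real.norm_eq_abs]
    have hq : 0 ≤ ‖w‖ ^ 2 := by positivity
    have a1 : pt s w ≤ (2 * π * t)⁻¹ * Real.exp (-(1 / (8 * t)) * ‖w‖ ^ 2) := by
      rw [pt_eq]
      apply mul_le_mul
      · apply inv_anti₀ (by positivity)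
        nlinarith
      · apply Real.exp_le_exp.2
        have : 1 / (8 * t) ≤ 1 / (4 * s) := one_div_le_one_div_of_le (by positivity) (by linarith)
        nlinarith
      · positivity
      · positivity
    have a2 : |‖w‖ ^ 2 / (4 * s ^ 2) - 1 / s| ≤ ‖w‖ ^ 2 / t ^ 2 + 2 / t := by
      have b1 : ‖w‖ ^ 2 / (4 * s ^ 2) ≤ ‖w‖ ^ 2 / t ^ 2 :=
        div_le_div_of_nonneg_left hq (by positivity) (by nlinarith)
      have b2 : 1 / s ≤ 2 / t := by
        rw [div_le_div_iff₀ hs0 ht]; linarith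
      have b3 : 0 ≤ ‖w‖ ^ 2 / (4 * s ^ 2) := by positivity
      have b4 : 0 ≤ 1 / s := by positivity
      rw [abs_le]
      constructor <;> linarith
    have a3 : (‖w‖ ^ 2 / t ^ 2 + 2 / t) * Real.exp (-(1 / (16 * t)) * ‖w‖ ^ 2) ≤ 18 / t := by
      have c1 : 1 / (16 * t) * ‖w‖ ^ 2 ≤ Real.exp (1 / (16 * t) * ‖w‖ ^ 2) := by
        have := Real.add_one_le_exp (1 / (16 * t) * ‖w‖ ^ 2)
        linarith
      have c2 : Real.exp (1 / (16 * t) * ‖w‖ ^ 2) * Real.exp (-(1 / (16 * t)) * ‖w‖ ^ 2) = 1 := by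
        rw [← Real.exp_add]
        simp
      have c3 : Real.exp (-(1 / (16 * t)) * ‖w‖ ^ 2) ≤ 1 := by
        rw [Real.exp_le_one_iff]
        have : 0 ≤ 1 / (16 * t) := by positivity
        nlinarith
      have c4 : 0 < Real.exp (-(1 / (16 * t)) * ‖w‖ ^ 2) := Real.exp_pos _
      have c5 : ‖w‖ ^ 2 / t ^ 2 = (16 / t) * (1 / (16 * t) * ‖w‖ ^ 2) := by
        field_simp
      rw [c5, add_mul, mul_assoc]
      have c6 : 1 / (16 * t) * ‖w‖ ^ 2 * Real.exp (-(1 / (16 * t)) * ‖w‖ ^ 2) ≤ 1 :=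
        (mul_le_mul_of_nonneg_right c1 c4.le).trans c2.le
      have c7 : 16 / t * (1 / (16 * t) * ‖w‖ ^ 2 * Real.exp (-(1 / (16 * t)) * ‖w‖ ^ 2)) ≤
          16 / t * 1 := mul_le_mul_of_nonneg_left c6 (by positivity)
      have c8 : 2 / t * Real.exp (-(1 / (16 * t)) * ‖w‖ ^ 2) ≤ 2 / t * 1 :=
        mul_le_mul_of_nonneg_left c3 (by positivity)
      have c9 : 16 / t * 1 + 2 / t * 1 = 18 / t := by ring
      linarith
    have a4 : Real.exp (-(1 / (8 * t)) * ‖w‖ ^ 2) =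
        Real.exp (-(1 / (16 * t)) * ‖w‖ ^ 2) * Real.exp (-(1 / (16 * t)) * ‖w‖ ^ 2) := by
      rw [← Real.exp_add]
      congr 1
      field_simp
      ring
    have a5 : pt s w * |‖w‖ ^ 2 / (4 * s ^ 2) - 1 / s| ≤
        ((2 * π * t)⁻¹ * Real.exp (-(1 / (8 * t)) * ‖w‖ ^ 2)) * (‖w‖ ^ 2 / t ^ 2 + 2 / t) :=
      mul_le_mul a1 a2 (abs_nonneg _) (by positivity)
    have a6 : ((2 * π * t)⁻¹ * Real.exp (-(1 / (8 * t)) * ‖w‖ ^ 2)) *
        (‖w‖ ^ 2 / t ^ 2 + 2 / t) =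
        ((2 * π * t)⁻¹ * Real.exp (-(1 / (16 * t)) * ‖w‖ ^ 2)) *
        ((‖w‖ ^ 2 / t ^ 2 + 2 / t) * Real.exp (-(1 / (16 * t)) * ‖w‖ ^ 2)) := by
      rw [a4]; ring
    have a7 : ((2 * π * t)⁻¹ * Real.exp (-(1 / (16 * t)) * ‖w‖ ^ 2)) *
        ((‖w‖ ^ 2 / t ^ 2 + 2 / t) * Real.exp (-(1 / (16 * t)) * ‖w‖ ^ 2)) ≤
        ((2 * π * t)⁻¹ * Real.exp (-(1 / (16 * t)) * ‖w‖ ^ 2)) * (18 / t) :=
      mul_le_mul_of_nonneg_left a3 (by positivity)
    calc pt s w * |‖w‖ ^ 2 / (4 * s ^ 2) - 1 / s| * |χ w|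
        ≤ (((2 * π * t)⁻¹ * Real.exp (-(1 / (16 * t)) * ‖w‖ ^ 2)) * (18 / t)) * C :=
          mul_le_mul (a5.trans (a6.le.trans a7)) (hC w) (abs_nonneg _) (by positivity)
      _ = C * ((2 * π * t)⁻¹ * (18 / t)) * Real.exp (-(1 / (16 * t)) * ‖w‖ ^ 2) := by ring

theorem heat_scale (χ : ℂ → ℝ) {t : ℝ} (ht : 0 < t) :
    ∫ w, pt t w * χ w = ∫ u, pt 1 u * χ (√t • u) := by
  have hp := Real.pi_pos
  have h := Measure.integral_comp_smul (volume : Measure ℂ) (fun w => pt t w * χ w) (√t)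
  rw [Complex.finrank_real_complex, Real.sq_sqrt ht.le, abs_of_pos (inv_pos.2 ht),
    smul_eq_mul] at h
  have e : ∀ u : ℂ, pt t (√t • u) * χ (√t • u) = t⁻¹ * (pt 1 u * χ (√t • u)) := by
    intro u
    have : pt t (√t • u) = t⁻¹ * pt 1 u := by
      unfold pt
      rw [norm_smul, Real.norm_of_nonneg (Real.sqrt_nonneg t), mul_pow, Real.sq_sqrt ht.le]
      have : -(t * ‖u‖ ^ 2) / (4 * t) = -(‖u‖ ^ 2) / (4 * 1) := by
        field_simp
      rw [this]
      field_simp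
    rw [this]
    ring
  simp_rw [e] at h
  rw [integral_const_mul] at h
  exact (mul_left_cancel₀ (inv_pos.2 ht).ne' h).symm

theorem heat_tendsto (hχ : SphSmooth χ) :
    Tendsto (fun t => ∫ w, pt t w * χ w) (𝓝[>] 0) (𝓝 (χ 0)) := by
  obtain ⟨C, hC0, hC⟩ := hχ.bdd
  have hcont : Continuous χ := hχ.1.continuous
  have h1 : Tendsto (fun t : ℝ => ∫ u, pt 1 u * χ (√t • u)) (𝓝[>] 0) (𝓝 (∫ u, pt 1 u * χ 0)) := by
    apply tendsto_integral_filter_of_dominated_convergence (fun u => pt 1 u * C)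
    · refine Eventually.of_forall fun t => ?_
      have : Continuous fun u : ℂ => pt 1 u * χ (√t • u) :=
        (pt_continuous 1).mul (hcont.comp (continuous_const_smul _))
      exact this.aestronglyMeasurable
    · refine Eventually.of_forall fun t => Eventually.of_forall fun u => ?_
      rw [norm_mul, Real.norm_of_nonneg (pt_pos one_pos u).le, Real.norm_eq_abs]
      exact mul_le_mul_of_nonneg_left (hC _) (pt_pos one_pos u).le
    · exact (pt_integrable one_pos).mul_const _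
    · refine Eventually.of_forall fun u => ?_
      have h2 : Tendsto (fun t : ℝ => √t • u) (𝓝[>] 0) (𝓝 0) := by
        have h3 : Continuous fun t : ℝ => √t • u := by fun_prop
        have h4 := h3.tendsto 0
        simp only [Real.sqrt_zero, zero_smul] at h4
        exact h4.mono_left nhdsWithin_le_nhds
      exact ((hcont.tendsto 0).comp h2).const_mul _
  rw [integral_mul_const, integral_pt one_pos, one_mul] at h1
  refine h1.congr' ?_
  filter_upwards [self_mem_nhdsWithin] with t ht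
  exact (heat_scale χ ht).symm

end

end LQZ
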