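import Pool.Agent.LQZ.Base
import Pool.Agent.LQZ.Sphere
import Pool.Agent.LQZ.IBP
import Pool.Agent.LQZ.Heat
import Pool.Agent.LQZ.Bessel

/-!
# Project LQZ, module FLAT: flat resolvent identities
-/

open MeasureTheory Set Filter Topology InnerProductSpace
open scoped ContDiff ENNReal NNReal Real

namespace LQZ

noncomputable section

variable {χ : ℂ → ℝ}

theorem flat_pt_meas : Measurable (Function.uncurry pt) := by
  have : Function.uncurry pt = fun p : ℝ × ℂ =>
      Real.exp (-(‖p.2‖ ^ 2) / (4 * p.1)) / (4 * π * p.1) := by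
    funext p
    rfl
  rw [this]
  fun_prop

theorem flat_kB {z : ℝ} (hz : 0 < z) (w : ℂ) :
    kB (√z * ‖w‖) = ∫ t in Ioi (0 : ℝ), Real.exp (-(z * t)) * pt t w := by
  have hp := Real.pi_pos
  have h := integral_comp_mul_left_Ioi
    (fun t => Real.exp (-t - (√z * ‖w‖) ^ 2 / (4 * t)) / (4 * π * t)) 0 hz
  rw [mul_zero] at h
  have h2 : kB (√z * ‖w‖) = z * ∫ t in Ioi (0 : ℝ),
      Real.exp (-(z * t) - (√z * ‖w‖) ^ 2 / (4 * (z * t))) / (4 * π * (z * t)) := by
    rw [h, smul_eq_mul, mul_inv_cancel_left₀ hz.ne']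
    rfl
  rw [h2, ← integral_const_mul]
  refine setIntegral_congr_fun measurableSet_Ioi fun t ht => ?_
  have ht' : 0 < t := ht
  unfold pt
  rw [mul_pow, Real.sq_sqrt hz.le, sub_eq_add_neg, Real.exp_add]
  have e : -(z * ‖w‖ ^ 2 / (4 * (z * t))) = -(‖w‖ ^ 2) / (4 * t) := by
    field_simp
  rw [e]
  field_simp

theorem flat_mB {z : ℝ} (hz : 0 < z) (w : ℂ) :
    z⁻¹ * mB (√z * ‖w‖) = ∫ t in Ioi (0 : ℝ), (t * Real.exp (-(z * t))) * pt t w := by
  have hp := Real.pi_pos
  have h := integral_comp_mul_left_Ioi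
    (fun t => Real.exp (-t - (√z * ‖w‖) ^ 2 / (4 * t)) / (4 * π)) 0 hz
  rw [mul_zero] at h
  have h2 : z⁻¹ * mB (√z * ‖w‖) = ∫ t in Ioi (0 : ℝ),
      Real.exp (-(z * t) - (√z * ‖w‖) ^ 2 / (4 * (z * t))) / (4 * π) := by
    rw [h, smul_eq_mul]
    rfl
  rw [h2]
  refine setIntegral_congr_fun measurableSet_Ioi fun t ht => ?_
  have ht' : 0 < t := ht
  unfold pt
  rw [mul_pow, Real.sq_sqrt hz.le, sub_eq_add_neg, Real.exp_add]
  have e : -(z * ‖w‖ ^ 2 / (4 * (z * t))) = -(‖w‖ ^ 2) / (4 * t) := by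
    field_simp
  rw [e]
  field_simp

theorem flat_expInt {z : ℝ} (hz : 0 < z) :
    IntegrableOn (fun t : ℝ => Real.exp (-(z * t))) (Ioi 0) := by
  have := integrableOn_exp_mul_Ioi (neg_lt_zero.2 hz) 0
  simpa [neg_mul] using this

theorem flat_mulExpInt {z : ℝ} (hz : 0 < z) :
    IntegrableOn (fun t : ℝ => t * Real.exp (-(z * t))) (Ioi 0) := by
  have h1 := (flat_expInt (half_pos hz)).const_mul (2 / z)
  refine Integrable.mono' h1 (by
    have : Continuous fun t : ℝ => t * Real.exp (-(z * t)) := by fun_prop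
    exact this.aestronglyMeasurable) ?_
  filter_upwards [ae_restrict_mem measurableSet_Ioi] with t ht
  have ht' : 0 < t := ht
  rw [Real.norm_of_nonneg (by positivity)]
  have h2 : z / 2 * t ≤ Real.exp (z / 2 * t) := by
    linarith [Real.add_one_le_exp (z / 2 * t)]
  have h3 : Real.exp (z / 2 * t) * Real.exp (-(z * t)) = Real.exp (-(z / 2 * t)) := by
    rw [← Real.exp_add]; congr 1; ring
  rw [← h3]
  have h4 : t = 2 / z * (z / 2 * t) := by field_simp
  calc t * Real.exp (-(z * t)) = 2 / z * (z / 2 * t) * Real.exp (-(z * t)) := by rw [← h4]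
    _ ≤ 2 / z * Real.exp (z / 2 * t) * Real.exp (-(z * t)) := by
        apply mul_le_mul_of_nonneg_right _ (Real.exp_pos _).le
        exact mul_le_mul_of_nonneg_left h2 (by positivity)
    _ = 2 / z * (Real.exp (z / 2 * t) * Real.exp (-(z * t))) := by ring

theorem flat_prodInt {a : ℝ → ℝ} (ha : IntegrableOn a (Ioi 0)) (hm : Measurable a) :
    Integrable (fun p : ℝ × ℂ => a p.1 * pt p.1 p.2)
      ((volume.restrict (Ioi 0)).prod volume) := by
  have hmeas : Measurable fun p : ℝ × ℂ => a p.1 * pt p.1 p.2 :=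
    (hm.comp measurable_fst).mul flat_pt_meas
  rw [integrable_prod_iff hmeas.aestronglyMeasurable]
  constructor
  · filter_upwards [ae_restrict_mem measurableSet_Ioi] with t ht
    exact (pt_integrable ht).const_mul _
  · refine (ha.norm).congr ?_
    filter_upwards [ae_restrict_mem measurableSet_Ioi] with t ht
    have : ∀ w, ‖a t * pt t w‖ = ‖a t‖ * pt t w := by
      intro w
      rw [norm_mul, Real.norm_of_nonneg (pt_pos ht w).le]
    simp only [this]
    rw [integral_const_mul, integral_pt ht, mul_one]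

theorem flat_prodInt' {a : ℝ → ℝ} (ha : IntegrableOn a (Ioi 0)) (hm : Measurable a)
    {g : ℂ → ℝ} (hg : Continuous g) {C : ℝ} (hC : ∀ w, |g w| ≤ C) :
    Integrable (fun p : ℝ × ℂ => (a p.1 * pt p.1 p.2) * g p.2)
      ((volume.restrict (Ioi 0)).prod volume) :=
  (flat_prodInt ha hm).mul_bdd (c := C) (hg.comp continuous_snd).aestronglyMeasurable
    (Eventually.of_forall fun p => by rw [Real.norm_eq_abs]; exact hC _)

theorem flat_fub {a : ℝ → ℝ} (ha : IntegrableOn a (Ioi 0)) (hm : Measurable a)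
    {g : ℂ → ℝ} (hg : Continuous g) {C : ℝ} (hC : ∀ w, |g w| ≤ C) :
    Integrable (fun w => ∫ t in Ioi (0 : ℝ), a t * pt t w) ∧
    IntegrableOn (fun t => a t * ∫ w, pt t w * g w) (Ioi 0) ∧
    ∫ w, (∫ t in Ioi (0 : ℝ), a t * pt t w) * g w =
      ∫ t in Ioi (0 : ℝ), a t * ∫ w, pt t w * g w := by
  have h1 := flat_prodInt ha hm
  have h2 := flat_prodInt' ha hm hg hC
  have e : ∀ t : ℝ, ∫ w, (a t * pt t w) * g w = a t * ∫ w, pt t w * g w := by
    intro t
    rw [← integral_const_mul]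
    congr 1
    funext w
    ring
  refine ⟨h1.integral_prod_right, ?_, ?_⟩
  · have h3 := h2.integral_prod_left
    refine h3.congr (Eventually.of_forall fun t => ?_)
    exact e t
  · have h4 := integral_integral_swap (f := fun (t : ℝ) (w : ℂ) => (a t * pt t w) * g w) h2
    simp only [e] at h4
    rw [h4]
    congr 1
    funext w
    rw [integral_mul_const]

/-- fundamental theorem on the half line with a one-sided limit -/
theorem flat_ftc {f f' : ℝ → ℝ} {l m : ℝ} (hd : ∀ x, 0 < x → HasDerivAt f (f' x) x)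
    (hi : IntegrableOn f' (Ioi 0)) (h0 : Tendsto f (𝓝[>] 0) (𝓝 l)) (h1 : Tendsto f atTop (𝓝 m)) :
    ∫ x in Ioi (0 : ℝ), f' x = m - l := by
  classical
  obtain ⟨g, hg⟩ : ∃ g : ℝ → ℝ, g = Function.update f 0 l := ⟨_, rfl⟩
  have hg0 : g 0 = l := by rw [hg]; simp
  have hgf : ∀ x, x ≠ 0 → g x = f x := by
    intro x hx
    rw [hg, Function.update_of_ne hx]
  have hc : ContinuousWithinAt g (Ici 0) 0 := by
    rw [← continuousWithinAt_Ioi_iff_Ici]
    unfold ContinuousWithinAt
    rw [hg0]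
    refine h0.congr' ?_
    filter_upwards [self_mem_nhdsWithin] with x hx
    exact (hgf x (ne_of_gt hx)).symm
  have h := integral_Ioi_of_hasDerivAt_of_tendsto (m := m) hc (fun x hx => by
    have hx' : 0 < x := hx
    refine (hd x hx').congr_of_eventuallyEq ?_
    filter_upwards [lt_mem_nhds hx'] with y hy
    exact hgf y (ne_of_gt hy)) hi (by
    refine h1.congr' ?_
    filter_upwards [eventually_gt_atTop 0] with x hx
    exact (hgf x (ne_of_gt hx)).symm)
  rw [h, hg0]

theorem flat_U_le {g : ℂ → ℝ} {C : ℝ} (hC : ∀ w, |g w| ≤ C) {t : ℝ}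
    (ht : 0 < t) : |∫ w, pt t w * g w| ≤ C := by
  have h1 : ‖∫ w, pt t w * g w‖ ≤ ∫ w, pt t w * C := by
    apply norm_integral_le_of_norm_le ((pt_integrable ht).mul_const C)
    refine Eventually.of_forall fun w => ?_
    rw [norm_mul, Real.norm_of_nonneg (pt_pos ht w).le, Real.norm_eq_abs]
    exact mul_le_mul_of_nonneg_left (hC w) (pt_pos ht w).le
  rw [integral_mul_const, integral_pt ht, one_mul] at h1
  exact h1

theorem flat_split (hχ : SphSmooth χ) (z : ℝ) {t : ℝ} (ht : 0 < t) :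
    ∫ w, pt t w * (-lap χ w + z * χ w) =
      z * (∫ w, pt t w * χ w) - ∫ w, pt t w * lap χ w := by
  obtain ⟨C1, -, hC1⟩ := hχ.bdd
  obtain ⟨C2, -, hC2⟩ := hχ.lap_sph.bdd
  have i1 : Integrable fun w => pt t w * χ w :=
    (pt_integrable ht).mul_bdd (c := C1) hχ.1.continuous.aestronglyMeasurable
      (Eventually.of_forall fun w => by rw [Real.norm_eq_abs]; exact hC1 w)
  have i2 : Integrable fun w => pt t w * lap χ w :=
    (pt_integrable ht).mul_bdd (c := C2) hχ.lap_sph.1.continuous.aestronglyMeasurable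
      (Eventually.of_forall fun w => by rw [Real.norm_eq_abs]; exact hC2 w)
  have e : ∀ w, pt t w * (-lap χ w + z * χ w) = z * (pt t w * χ w) - pt t w * lap χ w := by
    intro w; ring
  simp_rw [e]
  rw [integral_sub (i1.const_mul z) i2, integral_const_mul]

theorem flat_bdd (hχ : SphSmooth χ) (z : ℝ) :
    ∃ C : ℝ, 0 ≤ C ∧ ∀ w, |-lap χ w + z * χ w| ≤ C :=
  (hχ.lap_sph.neg.add (hχ.const_mul z)).bdd

theorem flat_cont (hχ : SphSmooth χ) (z : ℝ) : Continuous fun w => -lap χ w + z * χ w :=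
  (hχ.lap_sph.neg.add (hχ.const_mul z)).1.continuous

theorem flat_exp_tendsto {z : ℝ} (hz : 0 < z) :
    Tendsto (fun t : ℝ => Real.exp (-(z * t))) atTop (𝓝 0) := by
  have h1 : Tendsto (fun t : ℝ => z * t) atTop atTop := tendsto_id.const_mul_atTop hz
  exact Real.tendsto_exp_neg_atTop_nhds_zero.comp h1

theorem flat_mulExp_tendsto {z : ℝ} (hz : 0 < z) :
    Tendsto (fun t : ℝ => t * Real.exp (-(z * t))) atTop (𝓝 0) := by
  have h1 : Tendsto (fun t : ℝ => z * t) atTop atTop := tendsto_id.const_mul_atTop hz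
  have h2 := ((Real.tendsto_pow_mul_exp_neg_atTop_nhds_zero 1).comp h1).const_mul (z⁻¹)
  rw [mul_zero] at h2
  refine h2.congr fun t => ?_
  simp only [Function.comp_apply, pow_one]
  field_simp

theorem flat_bdd_tendsto {a U : ℝ → ℝ} {C : ℝ} (ha : Tendsto a atTop (𝓝 0))
    (hU : ∀ t, 0 < t → |U t| ≤ C) : Tendsto (fun t => a t * U t) atTop (𝓝 0) := by
  have hC : 0 ≤ C := (abs_nonneg _).trans (hU 1 one_pos)
  have h1 : Tendsto (fun t => |a t| * C) atTop (𝓝 0) := by
    have := ha.abs.mul_const C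
    simpa using this
  refine squeeze_zero_norm' ?_ h1
  filter_upwards [eventually_gt_atTop 0] with t ht
  rw [norm_mul, Real.norm_eq_abs, Real.norm_eq_abs]
  exact mul_le_mul_of_nonneg_left (hU t ht) (abs_nonneg _)

/-- `∫ k(√z|w|) (-Δχ + zχ) dw = χ(0)` (from `k(√z|w|) = ∫_0^∞ e^{-zt} p_t(w) dt`). -/
theorem flat_k (hχ : SphSmooth χ) {z : ℝ} (hz : 0 < z) :
    Integrable (fun w : ℂ => kB (√z * ‖w‖)) ∧
    ∫ w : ℂ, kB (√z * ‖w‖) * (-lap χ w + z * χ w) = χ 0 := by
  obtain ⟨C, -, hC⟩ := flat_bdd hχ z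
  obtain ⟨C1, -, hC1⟩ := hχ.bdd
  have ha := flat_expInt hz
  have hm : Measurable fun t : ℝ => Real.exp (-(z * t)) := by fun_prop
  obtain ⟨h1, h2, h3⟩ := flat_fub ha hm (flat_cont hχ z) hC
  simp_rw [flat_kB hz]
  refine ⟨h1, ?_⟩
  rw [h3]
  obtain ⟨U, hU⟩ : ∃ U : ℝ → ℝ, U = fun t => ∫ w, pt t w * χ w := ⟨_, rfl⟩
  have hder : ∀ t, 0 < t → HasDerivAt (fun t => -(Real.exp (-(z * t)) * U t))
      (Real.exp (-(z * t)) * ∫ w, pt t w * (-lap χ w + z * χ w)) t := by
    intro t ht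
    have g1 : HasDerivAt U (∫ w, pt t w * lap χ w) t := by
      rw [hU]; exact heat_hasDerivAt hχ ht
    have g2 : HasDerivAt (fun t : ℝ => Real.exp (-(z * t))) (Real.exp (-(z * t)) * -(z * 1)) t :=
      (((hasDerivAt_id t).const_mul z).neg).exp
    have g3 := (g2.mul g1).neg
    refine g3.congr_deriv ?_
    rw [flat_split hχ z ht, hU]
    ring
  have h0 : Tendsto (fun t => -(Real.exp (-(z * t)) * U t)) (𝓝[>] 0) (𝓝 (-χ 0)) := by
    have g1 : Tendsto U (𝓝[>] 0) (𝓝 (χ 0)) := by rw [hU]; exact heat_tendsto hχ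
    have g2 : Tendsto (fun t : ℝ => Real.exp (-(z * t))) (𝓝[>] 0) (𝓝 1) := by
      have g3 : Continuous fun t : ℝ => Real.exp (-(z * t)) := by fun_prop
      have g4 := (g3.tendsto 0).mono_left (nhdsWithin_le_nhds (s := Ioi (0 : ℝ)))
      simpa using g4
    have g5 := (g2.mul g1).neg
    rw [one_mul] at g5
    exact g5
  have hinf : Tendsto (fun t => -(Real.exp (-(z * t)) * U t)) atTop (𝓝 0) := by
    have g1 := (flat_bdd_tendsto (flat_exp_tendsto hz) (U := U) (C := C1) (fun t ht => by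
      rw [hU]; exact flat_U_le hC1 ht)).neg
    rw [neg_zero] at g1
    exact g1
  rw [flat_ftc hder h2 h0 hinf]
  ring

/-- `∫ m_z (-Δχ + zχ) dw = ∫ k_z χ dw` -/
theorem flat_m (hχ : SphSmooth χ) {z : ℝ} (hz : 0 < z) :
    Integrable (fun w : ℂ => mB (√z * ‖w‖)) ∧
    ∫ w : ℂ, z⁻¹ * mB (√z * ‖w‖) * (-lap χ w + z * χ w) =
      ∫ w : ℂ, kB (√z * ‖w‖) * χ w := by
  obtain ⟨C, -, hC⟩ := flat_bdd hχ z
  obtain ⟨C1, -, hC1⟩ := hχ.bdd
  have hm : Measurable fun t : ℝ => Real.exp (-(z * t)) := by fun_prop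
  have hm2 : Measurable fun t : ℝ => t * Real.exp (-(z * t)) := by fun_prop
  obtain ⟨h1, h2, h3⟩ := flat_fub (flat_mulExpInt hz) hm2 (flat_cont hχ z) hC
  obtain ⟨k1, k2, k3⟩ := flat_fub (flat_expInt hz) hm hχ.1.continuous hC1
  constructor
  · have e : (fun w : ℂ => mB (√z * ‖w‖)) =
        fun w => z * ∫ t in Ioi (0 : ℝ), (t * Real.exp (-(z * t))) * pt t w := by
      funext w
      rw [← flat_mB hz, mul_inv_cancel_left₀ hz.ne']
    rw [e]
    exact h1.const_mul z
  simp_rw [flat_kB hz, flat_mB hz]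
  rw [h3, k3]
  obtain ⟨U, hU⟩ : ∃ U : ℝ → ℝ, U = fun t => ∫ w, pt t w * χ w := ⟨_, rfl⟩
  have hder : ∀ t, 0 < t → HasDerivAt (fun t => (t * Real.exp (-(z * t))) * U t)
      ((Real.exp (-(z * t)) * ∫ w, pt t w * χ w) -
        (t * Real.exp (-(z * t))) * ∫ w, pt t w * (-lap χ w + z * χ w)) t := by
    intro t ht
    have g1 : HasDerivAt U (∫ w, pt t w * lap χ w) t := by
      rw [hU]; exact heat_hasDerivAt hχ ht
    have g2 : HasDerivAt (fun t : ℝ => Real.exp (-(z * t))) (Real.exp (-(z * t)) * -(z * 1)) t :=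
      (((hasDerivAt_id t).const_mul z).neg).exp
    have g3 : HasDerivAt (fun t : ℝ => (t * Real.exp (-(z * t))) * U t)
        ((1 * Real.exp (-(z * t)) + t * (Real.exp (-(z * t)) * -(z * 1))) * U t +
          (t * Real.exp (-(z * t))) * ∫ w, pt t w * lap χ w) t :=
      ((hasDerivAt_id' t).mul g2).mul g1
    refine g3.congr_deriv ?_
    rw [flat_split hχ z ht, hU]
    ring
  have h0 : Tendsto (fun t => (t * Real.exp (-(z * t))) * U t) (𝓝[>] 0) (𝓝 0) := by
    have g1 : Tendsto U (𝓝[>] 0) (𝓝 (χ 0)) := by rw [hU]; exact heat_tendsto hχ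
    have g2 : Tendsto (fun t : ℝ => t * Real.exp (-(z * t))) (𝓝[>] 0) (𝓝 0) := by
      have g3 : Continuous fun t : ℝ => t * Real.exp (-(z * t)) := by fun_prop
      have g4 := (g3.tendsto 0).mono_left (nhdsWithin_le_nhds (s := Ioi (0 : ℝ)))
      simpa using g4
    have g5 := g2.mul g1
    rw [zero_mul] at g5
    exact g5
  have hinf : Tendsto (fun t => (t * Real.exp (-(z * t))) * U t) atTop (𝓝 0) :=
    flat_bdd_tendsto (flat_mulExp_tendsto hz) (U := U) (C := C1) (fun t ht => by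
      rw [hU]; exact flat_U_le hC1 ht)
  have hint : IntegrableOn (fun t => (Real.exp (-(z * t)) * ∫ w, pt t w * χ w) -
        (t * Real.exp (-(z * t))) * ∫ w, pt t w * (-lap χ w + z * χ w)) (Ioi 0) := k2.sub h2
  have key := flat_ftc hder hint h0 hinf
  rw [integral_sub k2 h2] at key
  linarith

/-- `∫∫ g(s+t) ds dt = ∫ r g(r) dr` on the positive quadrant -/
theorem flat_quad {g : ℝ → ℝ≥0∞} (hg : Measurable g) :
    ∫⁻ s in Ioi (0 : ℝ), ∫⁻ t in Ioi (0 : ℝ), g (s + t) =
      ∫⁻ r in Ioi (0 : ℝ), ENNReal.ofReal r * g r := by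
  have h1 : ∀ s : ℝ, ∫⁻ t in Ioi (0 : ℝ), g (s + t) = ∫⁻ r, (Ioi s).indicator g r := by
    intro s
    rw [← lintegral_indicator measurableSet_Ioi,
      ← lintegral_add_left_eq_self ((Ioi s).indicator g) s]
    congr 1
    funext t
    by_cases ht : 0 < t
    · rw [indicator_of_mem (mem_Ioi.2 ht), indicator_of_mem (mem_Ioi.2 (by linarith))]
    · rw [indicator_of_notMem (by simpa using ht), indicator_of_notMem (by
        simp only [mem_Ioi, not_lt] at ht ⊢; linarith)]
  simp_rw [h1]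
  have hm : Measurable (Function.uncurry fun s r : ℝ => (Ioi s).indicator g r) := by
    have : (Function.uncurry fun s r : ℝ => (Ioi s).indicator g r) =
        {p : ℝ × ℝ | p.1 < p.2}.indicator (fun p => g p.2) := by
      funext p
      simp only [Function.uncurry, indicator, mem_Ioi]
      rfl
    rw [this]
    exact (hg.comp measurable_snd).indicator (measurableSet_lt measurable_fst measurable_snd)
  rw [lintegral_lintegral_swap hm.aemeasurable, ← lintegral_indicator measurableSet_Ioi]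
  congr 1
  funext r
  have h2 : ∀ s : ℝ, (Ioi s).indicator g r = (Iio r).indicator (fun _ => g r) s := by
    intro s
    by_cases h : s < r
    · rw [indicator_of_mem (mem_Ioi.2 h), indicator_of_mem (mem_Iio.2 h)]
    · rw [indicator_of_notMem (by simpa using h), indicator_of_notMem (by simpa using h)]
  simp_rw [h2]
  rw [lintegral_indicator measurableSet_Iio, lintegral_const, Measure.restrict_apply_univ,
    Measure.restrict_apply measurableSet_Iio]
  by_cases hr : 0 < r
  · rw [indicator_of_mem (mem_Ioi.2 hr)]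
    have : Iio r ∩ Ioi 0 = Ioo 0 r := by
      ext s; simp [and_comm]
    rw [this, Real.volume_Ioo, sub_zero, mul_comm]
  · rw [indicator_of_notMem (by simpa using hr)]
    have : Iio r ∩ Ioi 0 = ∅ := by
      ext s
      simp only [mem_inter_iff, mem_Iio, mem_Ioi, mem_empty_iff_false, iff_false, not_and,
        not_lt]
      intro h
      linarith [not_lt.1 hr]
    rw [this, measure_empty, mul_zero]

theorem flat_k_sq {z : ℝ} (hz : 0 < z) :
    ∫⁻ w : ℂ, ENNReal.ofReal (kB (√z * ‖w‖) ^ 2) = ENNReal.ofReal (1 / (4 * π * z)) := by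
  have hp := Real.pi_pos
  have hm : Measurable fun t : ℝ => Real.exp (-(z * t)) := by fun_prop
  have hint := flat_prodInt (flat_expInt hz) hm
  obtain ⟨K, hK⟩ : ∃ K : ℝ → ℂ → ℝ≥0∞, K = fun t w =>
    ENNReal.ofReal (Real.exp (-(z * t)) * pt t w) := ⟨_, rfl⟩
  have hKm : Measurable (Function.uncurry K) := by
    rw [hK]
    exact ((hm.comp measurable_fst).mul flat_pt_meas).ennreal_ofReal
  have hae : ∀ᵐ w : ℂ, ENNReal.ofReal (kB (√z * ‖w‖) ^ 2) =
      ∫⁻ s in Ioi (0 : ℝ), ∫⁻ t in Ioi (0 : ℝ), K s w * K t w := by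
    filter_upwards [hint.prod_left_ae] with w hw
    have h1 : ENNReal.ofReal (kB (√z * ‖w‖)) = ∫⁻ t in Ioi (0 : ℝ), K t w := by
      rw [flat_kB hz, hK, ofReal_integral_eq_lintegral_ofReal hw]
      filter_upwards [ae_restrict_mem measurableSet_Ioi] with t ht
      exact mul_nonneg (Real.exp_pos _).le (pt_pos ht w).le
    rw [ENNReal.ofReal_pow (kB_nonneg _), h1, sq, ← lintegral_mul_const]
    · congr 1
      funext s
      rw [lintegral_const_mul]
      exact hKm.comp (measurable_id.prodMk measurable_const)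
    · exact hKm.comp (measurable_id.prodMk measurable_const)
  rw [lintegral_congr_ae hae]
  have m1 : Measurable fun q : ℂ × ℝ => ∫⁻ t in Ioi (0 : ℝ), K q.2 q.1 * K t q.1 := by
    apply Measurable.lintegral_prod_right
      (f := fun (q : ℂ × ℝ) (t : ℝ) => K q.2 q.1 * K t q.1)
    exact (hKm.comp (by fun_prop : Measurable fun p : (ℂ × ℝ) × ℝ => (p.1.2, p.1.1))).mul
      (hKm.comp (by fun_prop : Measurable fun p : (ℂ × ℝ) × ℝ => (p.2, p.1.1)))
  rw [lintegral_lintegral_swap m1.aemeasurable]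
  have e1 : ∀ s : ℝ, ∫⁻ w : ℂ, ∫⁻ t in Ioi (0 : ℝ), K s w * K t w =
      ∫⁻ t in Ioi (0 : ℝ), ∫⁻ w : ℂ, K s w * K t w := by
    intro s
    apply lintegral_lintegral_swap
    exact ((hKm.comp (by fun_prop : Measurable fun p : ℂ × ℝ => (s, p.1))).mul
      (hKm.comp (by fun_prop : Measurable fun p : ℂ × ℝ => (p.2, p.1)))).aemeasurable
  simp_rw [e1]
  have e2 : ∀ s ∈ Ioi (0 : ℝ), ∀ t ∈ Ioi (0 : ℝ), ∫⁻ w : ℂ, K s w * K t w =
      ENNReal.ofReal (Real.exp (-(z * (s + t))) / (4 * π * (s + t))) := by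
    intro s hs t ht
    have hs' : 0 < s := hs
    have ht' : 0 < t := ht
    have h1 : ∀ w, K s w * K t w =
        ENNReal.ofReal (Real.exp (-(z * (s + t))) * (pt s w * pt t w)) := by
      intro w
      rw [hK]
      simp only
      rw [← ENNReal.ofReal_mul (mul_nonneg (Real.exp_pos _).le (pt_pos hs w).le)]
      congr 1
      have : Real.exp (-(z * (s + t))) = Real.exp (-(z * s)) * Real.exp (-(z * t)) := by
        rw [← Real.exp_add]; congr 1; ring
      rw [this]
      ring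
    simp_rw [h1]
    rw [← ofReal_integral_eq_lintegral_ofReal]
    · rw [integral_const_mul, integral_pt_mul hs' ht']
      congr 1
      ring
    · have i1 : Integrable fun w => pt s w * pt t w := by
        refine (pt_integrable hs').mul_bdd (c := (4 * π * t)⁻¹)
          (pt_continuous t).aestronglyMeasurable (Eventually.of_forall fun w => ?_)
        rw [Real.norm_of_nonneg (pt_pos ht' w).le, pt_eq]
        have h2 : Real.exp (-(1 / (4 * t)) * ‖w‖ ^ 2) ≤ 1 := by
          rw [Real.exp_le_one_iff]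
          have : 0 ≤ 1 / (4 * t) := by positivity
          nlinarith [sq_nonneg ‖w‖]
        have h3 : 0 ≤ (4 * π * t)⁻¹ := by positivity
        nlinarith
      exact i1.const_mul _
    · exact Eventually.of_forall fun w =>
        mul_nonneg (Real.exp_pos _).le (mul_nonneg (pt_pos hs' w).le (pt_pos ht' w).le)
  have e3 : ∫⁻ s in Ioi (0 : ℝ), ∫⁻ t in Ioi (0 : ℝ), ∫⁻ w : ℂ, K s w * K t w =
      ∫⁻ s in Ioi (0 : ℝ), ∫⁻ t in Ioi (0 : ℝ),
        ENNReal.ofReal (Real.exp (-(z * (s + t))) / (4 * π * (s + t))) := by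
    refine setLIntegral_congr_fun measurableSet_Ioi fun s hs => ?_
    exact setLIntegral_congr_fun measurableSet_Ioi fun t ht => e2 s hs t ht
  rw [e3, flat_quad (g := fun r => ENNReal.ofReal (Real.exp (-(z * r)) / (4 * π * r)))
    (by fun_prop)]
  have e4 : ∫⁻ r in Ioi (0 : ℝ), ENNReal.ofReal r *
      ENNReal.ofReal (Real.exp (-(z * r)) / (4 * π * r)) =
      ∫⁻ r in Ioi (0 : ℝ), ENNReal.ofReal ((4 * π)⁻¹ * Real.exp (-(z * r))) := by
    refine setLIntegral_congr_fun measurableSet_Ioi fun r hr => ?_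
    have hr' : 0 < r := hr
    rw [← ENNReal.ofReal_mul hr'.le]
    congr 1
    field_simp
  rw [e4, ← ofReal_integral_eq_lintegral_ofReal]
  · rw [integral_const_mul]
    have h5 := integral_exp_mul_Ioi (neg_lt_zero.2 hz) 0
    simp only [neg_mul, mul_zero, Real.exp_zero] at h5
    rw [h5]
    congr 1
    field_simp
  · exact (flat_expInt hz).const_mul _
  · exact Eventually.of_forall fun r => by positivity

end

end LQZ
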