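import Pool.Agent.LQZ.Mobius
import Pool.Agent.LQZ.Met
import Pool.Agent.LQZ.Bessel
import Pool.Agent.LQZ.Flat
import Pool.Agent.LQZ.KerNorm

/-! # Project LQZ, module WKER: weak equations of the kernels -/

open MeasureTheory Set Filter Topology InnerProductSpace
open scoped ContDiff ENNReal NNReal Real

namespace LQZ

noncomputable section

variable {ψ χ f g η φ φ' u : ℂ → ℝ} {a a' : ℂ → ℂ} {D D' : ℂ → ℝ}

/-! ### Auxiliary lemmas -/

/-- the Jacobian factor `E² / |1 - a v / 2|⁴` -/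
def wkW (φ : ℂ → ℝ) (a : ℂ → ℂ) (y x : ℂ) : ℝ :=
  Real.exp (φ y) ^ 2 / ‖1 - a y * (x - y) / 2‖ ^ 4

theorem wk_ae (a : ℂ → ℂ) (y : ℂ) : ∀ᵐ x : ℂ, 1 - a y * (x - y) / 2 ≠ 0 := by
  have := mobS_compl_null (a y) y
  rw [← mem_ae_iff] at this
  exact this

theorem wk_sK (φ : ℂ → ℝ) (a : ℂ → ℂ) (x y : ℂ) :
    ‖fM (Real.exp (φ y)) (a y) y x‖ = sK φ a x y := by
  unfold fM sK
  rw [norm_div, norm_mul, Complex.norm_real, Real.norm_of_nonneg (Real.exp_nonneg _)]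

theorem wk_rK (h : ℝ → ℝ) (φ : ℂ → ℝ) (a : ℂ → ℂ) (z : ℝ) {x y : ℂ}
    (hx : 1 - a y * (x - y) / 2 ≠ 0) :
    rK h φ a z x y = h (√z * ‖fM (Real.exp (φ y)) (a y) y x‖) := by
  rw [rK, if_neg hx, wk_sK]

theorem wk_JK (φ : ℂ → ℝ) (a : ℂ → ℂ) (x y : ℂ) :
    Real.exp (2 * φ x) * JK φ a x y = wkW φ a y x := by
  unfold JK wkW
  rw [← mul_div_assoc, ← Real.exp_add, ← Real.exp_nat_mul]
  congr 2
  push_cast
  ring

theorem wk_rK_meas {h : ℝ → ℝ} (hh : Measurable h) (φ : ℂ → ℝ) (a : ℂ → ℂ) (z : ℝ) (y : ℂ) :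
    Measurable fun x => rK h φ a z x y := by
  unfold rK sK
  refine Measurable.ite ?_ measurable_const ?_
  · exact (isClosed_eq (by fun_prop) continuous_const).measurableSet
  · refine hh.comp ?_
    fun_prop

/-- pull back of integrals -/
theorem wk_integral (φ : ℂ → ℝ) (a : ℂ → ℂ) (y : ℂ) (h : ℂ → ℝ) :
    (∫ x, h (fM (Real.exp (φ y)) (a y) y x) * wkW φ a y x = ∫ w, h w) ∧
    (Integrable h → Integrable fun x => h (fM (Real.exp (φ y)) (a y) y x) * wkW φ a y x) :=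
  mob_integral (Real.exp_pos _) (a y) y h

theorem wk_mul_bdd {h b : ℂ → ℝ} (hh : Integrable h) (hb : Continuous b)
    (hC : ∃ C : ℝ, 0 ≤ C ∧ ∀ x, |b x| ≤ C) : Integrable fun x => h x * b x := by
  obtain ⟨C, -, hC⟩ := hC
  exact hh.mul_bdd (c := C) hb.aestronglyMeasurable (Eventually.of_forall fun x => hC x)

theorem SphSmooth.wk_cont (h : SphSmooth χ) : Continuous χ := h.1.continuous

theorem wk_EK_integrable (hM : IsMet φ φ' a a' D D') {z : ℝ} (hz : 1 ≤ z) {y : ℂ} (hy : y ≠ 0) :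
    Integrable (fun x => EK φ a z x y) (vol φ) := by
  obtain ⟨C, -, hC⟩ := ker_norms hM
  have h1 := (hC z hz).2.2.2.2.2 y hy
  have hm : Measurable fun x => EK φ a z x y :=
    (EK_meas hM z).comp (measurable_id.prodMk measurable_const)
  refine ⟨hm.aestronglyMeasurable, ?_⟩
  rw [hasFiniteIntegral_iff_norm]
  refine lt_of_le_of_lt ?_ (lt_of_le_of_lt h1 ENNReal.ofReal_lt_top)
  exact le_of_eq rfl

/-- `e^{2φ} (1 - J) rK kB` is integrable -/
theorem wk_k1 (hM : IsMet φ φ' a a' D D') {z : ℝ} (hz : 1 ≤ z) {y : ℂ} (hy : y ≠ 0) :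
    Integrable fun x => (Real.exp (2 * φ x) - wkW φ a y x) * rK kB φ a z x y := by
  have hG : IsGrow φ := hM.c0.toIsGrow
  have h1 := (hG.integrable_vol _).1 (wk_EK_integrable hM hz hy)
  have h2 := h1.const_mul z⁻¹
  refine h2.congr (Eventually.of_forall fun x => ?_)
  have hz0 : z ≠ 0 := by positivity
  simp only [EK]
  rw [← wk_JK φ a x y]
  field_simp

/-- `W rK kB` is integrable -/
theorem wk_k2 (φ : ℂ → ℝ) (a : ℂ → ℂ) {z : ℝ} (hz : 1 ≤ z) (y : ℂ) :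
    Integrable fun x => wkW φ a y x * rK kB φ a z x y := by
  have hz0 : 0 < z := by positivity
  have h1 := (flat_k (SphSmooth.const 0) hz0).1
  have h2 := (wk_integral φ a y _).2 h1
  refine h2.congr ?_
  filter_upwards [wk_ae a y] with x hx
  rw [wk_rK kB φ a z hx, mul_comm]

theorem wk_m2 (φ : ℂ → ℝ) (a : ℂ → ℂ) {z : ℝ} (hz : 1 ≤ z) (y : ℂ) :
    Integrable fun x => wkW φ a y x * rK mB φ a z x y := by
  have hz0 : 0 < z := by positivity
  have h1 := (flat_m (SphSmooth.const 0) hz0).1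
  have h2 := (wk_integral φ a y _).2 h1
  refine h2.congr ?_
  filter_upwards [wk_ae a y] with x hx
  rw [wk_rK mB φ a z hx, mul_comm]

theorem wk_m1 (hM : IsMet φ φ' a a' D D') {z : ℝ} (hz : 1 ≤ z) (y : ℂ) :
    Integrable fun x => Real.exp (2 * φ x) * rK mB φ a z x y := by
  have hG : IsGrow φ := hM.c0.toIsGrow
  rw [← hG.integrable_vol]
  have := hG.finite
  obtain ⟨C, hC, hm⟩ := mB_le
  refine Integrable.of_bound (C := C) (wk_rK_meas mB_meas φ a z y).aestronglyMeasurable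
    (Eventually.of_forall fun x => ?_)
  rw [Real.norm_eq_abs, rK]
  split_ifs with h
  · simpa using hC.le
  · have hs : 0 ≤ √z * sK φ a x y := by unfold sK; positivity
    rw [abs_of_nonneg (mB_nonneg _)]
    refine (hm _ hs).trans ?_
    have : Real.exp (-(√z * sK φ a x y) / 2) ≤ 1 := Real.exp_le_one_iff.2 (by linarith)
    nlinarith

theorem weak_P (hM : IsMet φ φ' a a' D D') (hψ : SphSmooth ψ) {z : ℝ} (hz : 1 ≤ z) {y : ℂ}
    (hy : y ≠ 0) :
    ∫ x, PK φ a z x y * (lapG φ ψ x + z * ψ x) ∂(vol φ) =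
      ψ y + ∫ x, EK φ a z x y * ψ x ∂(vol φ) := by
  have hG : IsGrow φ := hM.c0.toIsGrow
  have hz0 : 0 < z := by positivity
  obtain ⟨χ, hχ, hχ0, hχx⟩ := mob_pull hψ (Real.exp_pos (φ y)) (a y) y
  obtain ⟨hk1, hk2⟩ := flat_k hχ hz0
  rw [hG.integral_vol, hG.integral_vol, ← hχ0, ← hk2,
    ← (wk_integral φ a y (fun w => kB (√z * ‖w‖) * (-lap χ w + z * χ w))).1]
  have hb : Integrable fun x => (kB (√z * ‖fM (Real.exp (φ y)) (a y) y x‖) *
      (-lap χ (fM (Real.exp (φ y)) (a y) y x) + z * χ (fM (Real.exp (φ y)) (a y) y x))) *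
      wkW φ a y x := by
    refine (wk_integral φ a y
      (fun w => kB (√z * ‖w‖) * (-lap χ w + z * χ w))).2 ?_
    have hs : SphSmooth fun w => -lap χ w + z * χ w := (hχ.lap_sph.neg).add (hχ.const_mul z)
    exact wk_mul_bdd hk1 hs.wk_cont hs.bdd
  have he : Integrable fun x => Real.exp (2 * φ x) * (EK φ a z x y * ψ x) := by
    have := (hG.integrable_vol _).1 (wk_EK_integrable hM hz hy)
    have h2 := wk_mul_bdd this hψ.wk_cont hψ.bdd
    refine h2.congr (Eventually.of_forall fun x => ?_)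
    simp only; ring
  rw [← integral_add hb he]
  refine integral_congr_ae ?_
  filter_upwards [wk_ae a y] with x hx
  obtain ⟨hc1, hc2⟩ := hχx x hx
  have hJ := wk_JK φ a x y
  simp only [PK, EK, lapG]
  rw [wk_rK kB φ a z hx, hc1]
  have e1 : Real.exp (2 * φ x) * Real.exp (-(2 * φ x)) = 1 := by
    rw [← Real.exp_add]; simp
  have hl : lap ψ x = wkW φ a y x * lap χ (fM (Real.exp (φ y)) (a y) y x) := hc2
  rw [hl]
  linear_combination (-(kB (√z * ‖fM (Real.exp (φ y)) (a y) y x‖) * (wkW φ a y x *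
    lap χ (fM (Real.exp (φ y)) (a y) y x)))) * e1 +
    (z * kB (√z * ‖fM (Real.exp (φ y)) (a y) y x‖) * ψ x) * hJ

theorem weak_M (hM : IsMet φ φ' a a' D D') (hψ : SphSmooth ψ) {z : ℝ} (hz : 1 ≤ z) {y : ℂ}
    (hy : y ≠ 0) :
    ∫ x, MK φ a z x y * (lapG φ ψ x + z * ψ x) ∂(vol φ) =
      ∫ x, PK φ a z x y * ψ x ∂(vol φ) + ∫ x, E2K φ a z x y * ψ x ∂(vol φ) := by
  have hG : IsGrow φ := hM.c0.toIsGrow
  have hz0 : 0 < z := by positivity
  obtain ⟨χ, hχ, hχ0, hχx⟩ := mob_pull hψ (Real.exp_pos (φ y)) (a y) y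
  obtain ⟨hk1, -⟩ := flat_k hχ hz0
  obtain ⟨hm1, hm2⟩ := flat_m hχ hz0
  have ik1 := wk_k1 hM hz hy
  have ik2 := wk_k2 φ a hz y
  have im1 := wk_m1 hM hz y
  have im2 := wk_m2 φ a hz y
  have hP : Integrable fun x => Real.exp (2 * φ x) * (PK φ a z x y * ψ x) := by
    have h2 := wk_mul_bdd (ik1.add ik2) hψ.wk_cont hψ.bdd
    refine h2.congr (Eventually.of_forall fun x => ?_)
    simp only [Pi.add_apply, PK]; ring
  have hE2 : Integrable fun x => Real.exp (2 * φ x) * (E2K φ a z x y * ψ x) := by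
    have h2 := wk_mul_bdd ((im1.sub im2).sub ik1) hψ.wk_cont hψ.bdd
    refine h2.congr (Eventually.of_forall fun x => ?_)
    simp only [Pi.sub_apply, E2K]
    rw [← wk_JK φ a x y]
    ring
  have hZ : Integrable fun x => (z⁻¹ * mB (√z * ‖fM (Real.exp (φ y)) (a y) y x‖) *
      (-lap χ (fM (Real.exp (φ y)) (a y) y x) + z * χ (fM (Real.exp (φ y)) (a y) y x)) -
      kB (√z * ‖fM (Real.exp (φ y)) (a y) y x‖) * χ (fM (Real.exp (φ y)) (a y) y x)) *
      wkW φ a y x := by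
    refine (wk_integral φ a y
      (fun w => z⁻¹ * mB (√z * ‖w‖) * (-lap χ w + z * χ w) - kB (√z * ‖w‖) * χ w)).2 ?_
    have hs : SphSmooth fun w => -lap χ w + z * χ w := (hχ.lap_sph.neg).add (hχ.const_mul z)
    exact (wk_mul_bdd (hm1.const_mul z⁻¹) hs.wk_cont hs.bdd).sub
      (wk_mul_bdd hk1 hχ.wk_cont hχ.bdd)
  have hZ0 : ∫ x, (z⁻¹ * mB (√z * ‖fM (Real.exp (φ y)) (a y) y x‖) *
      (-lap χ (fM (Real.exp (φ y)) (a y) y x) + z * χ (fM (Real.exp (φ y)) (a y) y x)) -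
      kB (√z * ‖fM (Real.exp (φ y)) (a y) y x‖) * χ (fM (Real.exp (φ y)) (a y) y x)) *
      wkW φ a y x = 0 := by
    rw [(wk_integral φ a y
      (fun w => z⁻¹ * mB (√z * ‖w‖) * (-lap χ w + z * χ w) - kB (√z * ‖w‖) * χ w)).1]
    have hs : SphSmooth fun w => -lap χ w + z * χ w := (hχ.lap_sph.neg).add (hχ.const_mul z)
    rw [integral_sub (wk_mul_bdd (hm1.const_mul z⁻¹) hs.wk_cont hs.bdd)
      (wk_mul_bdd hk1 hχ.wk_cont hχ.bdd), hm2, sub_self]
  rw [hG.integral_vol, hG.integral_vol, hG.integral_vol, ← integral_add hP hE2]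
  rw [← sub_zero (∫ x, Real.exp (2 * φ x) * (MK φ a z x y * (lapG φ ψ x + z * ψ x))), ← hZ0]
  have hMi : Integrable fun x => Real.exp (2 * φ x) * (MK φ a z x y *
      (lapG φ ψ x + z * ψ x)) := by
    have hL := hG.lapG_meas hψ
    obtain ⟨C1, hC1, hL1⟩ := hG.lapG_bdd hψ
    obtain ⟨C2, hC2, hL2⟩ := hψ.bdd
    have h2 := wk_mul_bdd (b := fun x => lapG φ ψ x + z * ψ x) (im1.const_mul z⁻¹)
      (hL.add (hψ.wk_cont.const_mul z))
      ⟨C1 + z * C2, by positivity, fun x => by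
        refine (abs_add_le _ _).trans (add_le_add (hL1 x) ?_)
        rw [abs_mul, abs_of_pos hz0]
        exact mul_le_mul_of_nonneg_left (hL2 x) hz0.le⟩
    refine h2.congr (Eventually.of_forall fun x => ?_)
    simp only [MK]; ring
  rw [← integral_sub hMi hZ]
  refine integral_congr_ae ?_
  filter_upwards [wk_ae a y] with x hx
  obtain ⟨hc1, hc2⟩ := hχx x hx
  have hJ := wk_JK φ a x y
  simp only [PK, MK, E2K, lapG]
  rw [wk_rK kB φ a z hx, wk_rK mB φ a z hx, hc1]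
  have e1 : Real.exp (2 * φ x) * Real.exp (-(2 * φ x)) = 1 := by
    rw [← Real.exp_add]; simp
  have hl : lap ψ x = wkW φ a y x * lap χ (fM (Real.exp (φ y)) (a y) y x) := hc2
  rw [hl]
  have e2 : z⁻¹ * z = 1 := inv_mul_cancel₀ hz0.ne'
  set K := kB (√z * ‖fM (Real.exp (φ y)) (a y) y x‖)
  set M := mB (√z * ‖fM (Real.exp (φ y)) (a y) y x‖)
  set L := lap χ (fM (Real.exp (φ y)) (a y) y x)
  set W := wkW φ a y x
  linear_combination (-(z⁻¹ * M * (W * L))) * e1 +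
    (Real.exp (2 * φ x) * M * ψ x - W * M * ψ x) * e2 + (M - K) * ψ x * hJ

/-- the exact part of the trace -/
theorem integral_JK_kB_sq (hM : IsMet φ φ' a a' D D') {z : ℝ} (hz : 1 ≤ z) (y : ℂ) :
    ∫ x, JK φ a x y * rK kB φ a z x y ^ 2 ∂(vol φ) = 1 / (4 * π * z) := by
  have hG : IsGrow φ := hM.c0.toIsGrow
  have hz0 : 0 < z := by positivity
  rw [hG.integral_vol]
  have e : ∫ x, Real.exp (2 * φ x) * (JK φ a x y * rK kB φ a z x y ^ 2) =
      ∫ x, (fun w : ℂ => kB (√z * ‖w‖) ^ 2) (fM (Real.exp (φ y)) (a y) y x) * wkW φ a y x := by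
    refine integral_congr_ae ?_
    filter_upwards [wk_ae a y] with x hx
    rw [wk_rK kB φ a z hx, ← wk_JK φ a x y]
    ring
  rw [e, (wk_integral φ a y (fun w : ℂ => kB (√z * ‖w‖) ^ 2)).1,
    integral_eq_lintegral_of_nonneg_ae, flat_k_sq hz0,
    ENNReal.toReal_ofReal (by positivity)]
  · exact Eventually.of_forall fun w => sq_nonneg _
  · exact ((kB_meas.comp (by fun_prop)).pow_const 2).aestronglyMeasurable

end

end LQZ
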