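import Pool.Agent.LQZ.Local1
import Pool.Agent.LQZ.Local2
import Pool.Agent.LQZ.Local3
import Pool.Agent.LQZ.MetInv
import Pool.Agent.LQZ.KerNorm
import Pool.Agent.LQZ.WeakKer

/-! # Project LQZ, module ASYM: main term of the trace asymptotics -/

open MeasureTheory Set Filter Topology InnerProductSpace
open scoped ContDiff ENNReal NNReal Real

namespace LQZ

noncomputable section

variable {ψ φ φ' : ℂ → ℝ} {a a' : ℂ → ℂ} {D D' : ℂ → ℝ}

/-- the local error term -/
def asN (φ : ℂ → ℝ) (a : ℂ → ℂ) (z : ℝ) (y : ℂ) : ℝ :=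
  ∫ x, (1 - JK φ a x y) * rK FB φ a z x y ∂(vol φ)

def asMain (φ : ℂ → ℝ) (z r0 : ℝ) (y : ℂ) : ℝ :=
  4 * π * Real.exp (2 * φ y) * ∫ r in Ioo 0 r0,
    FB (√z * (Real.exp (φ y) * r)) * (Real.circleAverage φ y r - φ y) * r

theorem as_circleAverage_continuous (hφ : Continuous φ) :
    Continuous fun p : ℂ × ℝ => Real.circleAverage φ p.1 p.2 := by
  have h : Continuous fun p : ℂ × ℝ => ∫ θ in (0 : ℝ)..2 * π, φ (circleMap p.1 p.2 θ) := by
    refine intervalIntegral.continuous_parametric_intervalIntegral_of_continuous' ?_ _ _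
    exact hφ.comp (by unfold circleMap; fun_prop)
  exact h.const_smul ((2 * π)⁻¹ : ℝ)

theorem as_FB_meas : Measurable FB :=
  (kB_meas.pow_const 2).sub ((mB_meas.const_mul 2).mul kB_meas)

theorem asMain_meas (hφ : Continuous φ) (z r0 : ℝ) : Measurable (asMain φ z r0) := by
  unfold asMain
  refine Measurable.mul ?_ ?_
  · exact (by fun_prop : Continuous fun y => 4 * π * Real.exp (2 * φ y)).measurable
  · have hm : Measurable fun p : ℂ × ℝ =>
        FB (√z * (Real.exp (φ p.1) * p.2)) * (Real.circleAverage φ p.1 p.2 - φ p.1) * p.2 := by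
      refine Measurable.mul (Measurable.mul ?_ ?_) measurable_snd
      · refine as_FB_meas.comp ?_
        exact (by fun_prop : Continuous fun p : ℂ × ℝ => √z * (Real.exp (φ p.1) * p.2)).measurable
      · exact ((as_circleAverage_continuous hφ).sub (hφ.comp continuous_fst)).measurable
    exact (hm.stronglyMeasurable.integral_prod_right' (ν := volume.restrict (Ioo 0 r0))).measurable

theorem as_chart {R : ℝ} (hR : R ≤ 2) (hφ : IsChart φ a D R) : ∃ B C : ℝ, ∀ z : ℝ, 1 ≤ z →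
    IntegrableOn (asN φ a z) (Metric.ball 0 R) (vol φ) →
    |∫ y in Metric.ball 0 R, asN φ a z y ∂(vol φ) - B / z ^ 2| ≤ C * z ^ (-(9 / 4) : ℝ) := by
  obtain ⟨Ca, hCa⟩ := hφ.abd
  set r0 : ℝ := 1 / (5 * (1 + |Ca|)) with hr0
  have hden : 0 < 5 * (1 + |Ca|) := by positivity
  have h0 : 0 < r0 := by positivity
  have h0' : r0 ≤ 1 / 5 := by
    rw [hr0]
    refine one_div_le_one_div_of_le (by norm_num) ?_
    have := abs_nonneg Ca
    linarith
  have ha : ∀ y, ‖y‖ ≤ R → ‖a y‖ * r0 ≤ 1 / 2 := by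
    intro y hy
    have h1 := (hCa y hy).trans (le_abs_self Ca)
    rw [hr0, mul_one_div, div_le_iff₀ hden]
    have := abs_nonneg Ca
    linarith
  obtain ⟨C1, h1⟩ := local_near hR hφ h0 h0' ha
  obtain ⟨B, C3, h3⟩ := local_main hφ h0 h0'
  have hfin : IsFiniteMeasure (vol φ) := hφ.toIsGrow.finite
  refine ⟨B, |C1| * (vol φ univ).toReal + C3, fun z hz hint => ?_⟩
  have hz0 : 0 < z := by linarith
  have hzp : 0 < z ^ (-(9 / 4) : ℝ) := by positivity
  -- pointwise comparison on the ball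
  have hpt : ∀ y, ‖y‖ ≤ R → |asN φ a z y - asMain φ z r0 y| ≤ C1 * z ^ (-(9 / 4) : ℝ) := by
    intro y hy
    have e := h1 z hz y hy
    rw [local_polar hφ h0 h0' hz (ha y hy)] at e
    exact e
  have hmain : IntegrableOn (asMain φ z r0) (Metric.ball 0 R) (vol φ) := by
    have hd : IntegrableOn (fun y => asN φ a z y - asMain φ z r0 y) (Metric.ball 0 R) (vol φ) := by
      refine Integrable.mono' (g := fun _ => C1 * z ^ (-(9 / 4) : ℝ))
        (integrable_const _) ?_ ?_
      · exact hint.aestronglyMeasurable.sub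
          (asMain_meas hφ.cont z r0).stronglyMeasurable.aestronglyMeasurable
      · refine (ae_restrict_mem measurableSet_ball).mono fun y hy => ?_
        rw [Real.norm_eq_abs]
        exact hpt y (by rw [mem_ball_zero_iff] at hy; exact hy.le)
    have := hint.sub hd
    refine this.congr (Eventually.of_forall fun y => ?_)
    simp
  have e1 : ∫ y in Metric.ball 0 R, asN φ a z y ∂(vol φ) - B / z ^ 2 =
      ∫ y in Metric.ball 0 R, (asN φ a z y - asMain φ z r0 y) ∂(vol φ) +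
      (∫ y in Metric.ball 0 R, asMain φ z r0 y ∂(vol φ) - B / z ^ 2) := by
    rw [integral_sub hint hmain]; ring
  rw [e1]
  refine (abs_add_le _ _).trans ?_
  rw [add_mul]
  refine add_le_add ?_ (h3 z hz)
  have h4 := norm_setIntegral_le_of_norm_le_const (μ := vol φ)
    (s := Metric.ball (0 : ℂ) R) (f := fun y => asN φ a z y - asMain φ z r0 y)
    (C := C1 * z ^ (-(9 / 4) : ℝ)) (measure_lt_top _ _) (fun y hy => by
      rw [Real.norm_eq_abs]
      exact hpt y (by rw [mem_ball_zero_iff] at hy; exact hy.le))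
  rw [Real.norm_eq_abs] at h4
  refine h4.trans ?_
  have h5 : (vol φ).real (Metric.ball (0 : ℂ) R) ≤ (vol φ univ).toReal := by
    rw [measureReal_def]
    exact ENNReal.toReal_mono (measure_ne_top _ _) (measure_mono (subset_univ _))
  calc C1 * z ^ (-(9 / 4) : ℝ) * (vol φ).real (Metric.ball (0 : ℂ) R)
      ≤ |C1| * z ^ (-(9 / 4) : ℝ) * (vol φ univ).toReal := by
        refine mul_le_mul ?_ h5 measureReal_nonneg (by positivity)
        exact mul_le_mul_of_nonneg_right (le_abs_self _) hzp.le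
    _ = _ := by ring

/-- reduction of the trace to the local term -/
theorem as_reduce (hM : IsMet φ φ' a a' D D') {z : ℝ} (hz : 1 ≤ z) :
    Integrable (asN φ a z) (vol φ) ∧
    ∫ x, ∫ y, PK φ a z x y ^ 2 ∂(vol φ) ∂(vol φ) -
      2 * ∫ x, ∫ y, MK φ a z x y * EK φ a z x y ∂(vol φ) ∂(vol φ) =
      (vol φ univ).toReal / (4 * π) / z + ∫ y, asN φ a z y ∂(vol φ) := by
  have hfin : IsFiniteMeasure (vol φ) := hM.c0.toIsGrow.finite
  have hz0 : 0 < z := by linarith
  obtain ⟨C, hC0, hC⟩ := ker_norms hM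
  obtain ⟨⟨hP, -⟩, ⟨hE, -⟩, ⟨hMM, -⟩, -⟩ := hC z hz
  have iP : Integrable (fun p : ℂ × ℂ => PK φ a z p.1 p.2 ^ 2) ((vol φ).prod (vol φ)) :=
    hP.integrable_sq
  have iME : Integrable (fun p : ℂ × ℂ => MK φ a z p.1 p.2 * EK φ a z p.1 p.2)
      ((vol φ).prod (vol φ)) := MemLp.integrable_mul hMM hE
  set f : ℂ → ℂ → ℝ := fun x y => PK φ a z x y ^ 2 - 2 * (MK φ a z x y * EK φ a z x y) with hf
  have iF : Integrable (fun p : ℂ × ℂ => f p.1 p.2) ((vol φ).prod (vol φ)) :=
    iP.sub (iME.const_mul 2)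
  have e1 : ∫ x, ∫ y, PK φ a z x y ^ 2 ∂(vol φ) ∂(vol φ) -
      2 * ∫ x, ∫ y, MK φ a z x y * EK φ a z x y ∂(vol φ) ∂(vol φ) =
      ∫ y, ∫ x, f x y ∂(vol φ) ∂(vol φ) := by
    have k1 : ∫ x, ∫ y, PK φ a z x y ^ 2 ∂(vol φ) ∂(vol φ) =
        ∫ p : ℂ × ℂ, PK φ a z p.1 p.2 ^ 2 ∂((vol φ).prod (vol φ)) :=
      (integral_prod (fun p : ℂ × ℂ => PK φ a z p.1 p.2 ^ 2) iP).symm
    have k2 : ∫ x, ∫ y, MK φ a z x y * EK φ a z x y ∂(vol φ) ∂(vol φ) =
        ∫ p : ℂ × ℂ, MK φ a z p.1 p.2 * EK φ a z p.1 p.2 ∂((vol φ).prod (vol φ)) :=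
      (integral_prod (fun p : ℂ × ℂ => MK φ a z p.1 p.2 * EK φ a z p.1 p.2) iME).symm
    have k3 : ∫ y, ∫ x, f x y ∂(vol φ) ∂(vol φ) =
        ∫ p : ℂ × ℂ, f p.1 p.2 ∂((vol φ).prod (vol φ)) :=
      (integral_prod_symm (fun p : ℂ × ℂ => f p.1 p.2) iF).symm
    rw [k1, k2, k3, ← integral_const_mul, ← integral_sub iP (iME.const_mul 2)]
  -- pointwise identity
  have hpt : ∀ x y, f x y = JK φ a x y * rK kB φ a z x y ^ 2 +
      (1 - JK φ a x y) * rK FB φ a z x y := by
    intro x y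
    simp only [hf, PK, MK, EK, rK]
    by_cases h : 1 - a y * (x - y) / 2 = 0
    · rw [if_pos h, if_pos h, if_pos h]; ring
    · rw [if_neg h, if_neg h, if_neg h]
      unfold FB
      field_simp
      ring
  have hJ : ∀ y, Integrable (fun x => JK φ a x y * rK kB φ a z x y ^ 2) (vol φ) := by
    intro y
    refine Integrable.of_integral_ne_zero ?_
    rw [integral_JK_kB_sq hM hz y]
    have := Real.pi_pos
    positivity
  have hsec : ∀ᵐ y ∂(vol φ), Integrable (fun x => f x y) (vol φ) := iF.prod_left_ae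
  have hae : ∀ᵐ y ∂(vol φ), ∫ x, f x y ∂(vol φ) = 1 / (4 * π * z) + asN φ a z y := by
    filter_upwards [hsec] with y hy
    have e2 : (fun x => (1 - JK φ a x y) * rK FB φ a z x y) =
        fun x => f x y - JK φ a x y * rK kB φ a z x y ^ 2 := by
      ext x; rw [hpt x y]; ring
    unfold asN
    rw [e2, integral_sub hy (hJ y), integral_JK_kB_sq hM hz y]
    ring
  have hF2 : Integrable (fun y => ∫ x, f x y ∂(vol φ)) (vol φ) := iF.integral_prod_right
  have hN : Integrable (asN φ a z) (vol φ) := by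
    have h1 : Integrable (fun y => ∫ x, f x y ∂(vol φ) - 1 / (4 * π * z)) (vol φ) :=
      hF2.sub (integrable_const _)
    refine h1.congr ?_
    filter_upwards [hae] with y hy
    rw [hy]; ring
  refine ⟨hN, ?_⟩
  rw [e1, integral_congr_ae hae, integral_add (integrable_const _) hN, integral_const,
    measureReal_def, smul_eq_mul]
  congr 1
  field_simp

theorem trace_main (hM : IsMet φ φ' a a' D D') : ∃ A B C : ℝ, ∀ z : ℝ, 1 ≤ z →
    |∫ x, ∫ y, PK φ a z x y ^ 2 ∂(vol φ) ∂(vol φ) -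
      2 * ∫ x, ∫ y, MK φ a z x y * EK φ a z x y ∂(vol φ) ∂(vol φ) - A / z - B / z ^ 2| ≤
      C * z ^ (-(9 / 4) : ℝ) := by
  obtain ⟨B0, C0, h0⟩ := as_chart le_rfl hM.c0
  obtain ⟨B1, C1, h1⟩ := as_chart (by norm_num) hM.c1
  refine ⟨(vol φ univ).toReal / (4 * π), B0 + B1, C0 + C1, fun z hz => ?_⟩
  obtain ⟨hN, hred⟩ := as_reduce hM hz
  rw [hred]
  -- the second chart
  have hrelN : ∀ y : ℂ, y ≠ 0 → asN φ a z y⁻¹ = asN φ' a' z y := by
    intro y hy
    unfold asN
    rw [hM.integral_inv]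
    refine integral_congr_ae ?_
    have hne : ∀ᵐ x ∂(vol φ'), x ≠ 0 := by
      have h : ∀ᵐ x : ℂ, x ≠ 0 := by rw [ae_iff]; simp
      exact (vol_ac φ').ae_le h
    filter_upwards [hne] with x hx
    have e1 := hM.JK_inv (inv_ne_zero hx) (inv_ne_zero hy)
    have e2 := hM.rK_inv FB z (inv_ne_zero hx) (inv_ne_zero hy)
    rw [inv_inv, inv_inv] at e1 e2
    rw [← e1, ← e2]
  have hne' : ∀ᵐ y ∂(vol φ'), y ≠ 0 := by
    have h : ∀ᵐ x : ℂ, x ≠ 0 := by rw [ae_iff]; simp
    exact (vol_ac φ').ae_le h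
  have hN' : Integrable (asN φ' a' z) (vol φ') := by
    have hinvE : MeasurableEmbedding (fun x : ℂ => x⁻¹) :=
      (MeasurableEquiv.inv ℂ).measurableEmbedding
    have h2 : Integrable (fun y => asN φ a z y⁻¹) (vol φ') := by
      rw [← hM.map_inv, hinvE.integrable_map_iff]
      refine hN.congr (Eventually.of_forall fun y => ?_)
      simp
    refine h2.congr ?_
    filter_upwards [hne'] with y hy
    exact hrelN y hy
  have hsplit : ∫ y, asN φ a z y ∂(vol φ) = ∫ y in Metric.ball 0 2, asN φ a z y ∂(vol φ) +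
      ∫ y in Metric.ball 0 (1 / 2), asN φ' a' z y ∂(vol φ') := by
    rw [← integral_add_compl (measurableSet_ball (x := (0 : ℂ)) (ε := 2)) hN]
    congr 1
    rw [← integral_indicator measurableSet_ball.compl, hM.integral_inv,
      ← integral_indicator measurableSet_ball]
    refine integral_congr_ae ?_
    have hsph : ∀ᵐ y ∂(vol φ'), ‖y‖ ≠ 1 / 2 := by
      have h : ∀ᵐ y : ℂ, ‖y‖ ≠ 1 / 2 := by
        have h3 := Measure.addHaar_sphere (volume : Measure ℂ) (0 : ℂ) (1 / 2)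
        rw [ae_iff]
        refine measure_mono_null (fun y hy => ?_) h3
        simpa using hy
      exact (vol_ac φ').ae_le h
    filter_upwards [hne', hsph] with y hy hy2
    have hyn : 0 < ‖y‖ := norm_pos_iff.2 hy
    by_cases hb : ‖y‖ < 1 / 2
    · rw [indicator_of_mem, indicator_of_mem]
      · exact hrelN y hy
      · rw [mem_ball_zero_iff]; exact hb
      · rw [mem_compl_iff, mem_ball_zero_iff, norm_inv, not_lt]
        rw [le_inv_comm₀ (by norm_num) hyn]
        norm_num at hb ⊢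
        exact hb.le
    · have hb2 : 1 / 2 < ‖y‖ := lt_of_le_of_ne (not_lt.1 hb) (Ne.symm hy2)
      rw [indicator_of_notMem, indicator_of_notMem]
      · rw [mem_ball_zero_iff]; exact hb
      · rw [mem_compl_iff, mem_ball_zero_iff, norm_inv, not_not]
        rw [inv_lt_comm₀ hyn (by norm_num)]
        norm_num at hb2 ⊢
        exact hb2
  rw [hsplit]
  have k0 := h0 z hz hN.integrableOn
  have k1 := h1 z hz hN'.integrableOn
  have e : (vol φ univ).toReal / (4 * π) / z + (∫ y in Metric.ball 0 2, asN φ a z y ∂(vol φ) +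
      ∫ y in Metric.ball 0 (1 / 2), asN φ' a' z y ∂(vol φ')) -
      (vol φ univ).toReal / (4 * π) / z - (B0 + B1) / z ^ 2 =
      (∫ y in Metric.ball 0 2, asN φ a z y ∂(vol φ) - B0 / z ^ 2) +
      (∫ y in Metric.ball 0 (1 / 2), asN φ' a' z y ∂(vol φ') - B1 / z ^ 2) := by ring
  rw [e, add_mul]
  exact (abs_add_le _ _).trans (add_le_add k0 k1)

end

end LQZ
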