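import Pool.Agent.LQZ.Defs

/-!
# Project LQZ: definitions used in the proof
-/

open MeasureTheory Set Filter Topology InnerProductSpace
open scoped ContDiff ENNReal NNReal Real

namespace LQZ

noncomputable section

/-- Chordal distance on the sphere (with values in `[0, 1]`). -/
def chord (x y : ℂ) : ℝ := ‖x - y‖ / (√(1 + ‖x‖ ^ 2) * √(1 + ‖y‖ ^ 2))

/-- Two-sided bound of the conformal factor: `φ = -log(1+|x|²) + O(1)`. -/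
structure IsGrow (φ : ℂ → ℝ) : Prop where
  cont : Continuous φ
  growth : ∃ C : ℝ, ∀ x, |φ x + Real.log (1 + ‖x‖ ^ 2)| ≤ C

/-- Local hypotheses on a chart function `φ` on the disc of radius `R`: first order Taylor
expansion with remainder `O(|x-y|^{3/2})` (the derivative is coded by the complex number
`a y = ∂ₓφ - i ∂ᵧφ`), and second order expansion of circle averages in `L¹`. -/
structure IsChart (φ : ℂ → ℝ) (a : ℂ → ℂ) (D : ℂ → ℝ) (R : ℝ) : Prop extends IsGrow φ where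
  ameas : Measurable a
  abd : ∃ C : ℝ, ∀ y, ‖y‖ ≤ R → ‖a y‖ ≤ C
  taylor : ∃ C : ℝ, ∀ x y, ‖y‖ ≤ R → ‖x - y‖ ≤ 1 / 5 →
    |φ x - φ y - (a y * (x - y)).re| ≤ C * ‖x - y‖ ^ (3 / 2 : ℝ)
  Dint : IntegrableOn D (Metric.ball 0 R)
  avg : ∃ C : ℝ, ∀ r, 0 < r → r ≤ 1 / 5 →
    ∫ y in Metric.ball 0 R, |Real.circleAverage φ y r - φ y - r ^ 2 / 4 * D y| ≤ C * r ^ 3

/-- A metric `e^{2φ}|dz|²` on the sphere given by its two chart functions `φ` (chart `z`) and `φ'`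
(chart `w = 1/z`). -/
structure IsMet (φ φ' : ℂ → ℝ) (a a' : ℂ → ℂ) (D D' : ℂ → ℝ) : Prop where
  c0 : IsChart φ a D 2
  c1 : IsChart φ' a' D' (1 / 2)
  rel : ∀ w, w ≠ 0 → φ' w = φ w⁻¹ - 2 * Real.log ‖w‖
  arel : ∀ y, y ≠ 0 → a' y⁻¹ = -(a y * y ^ 2) - 2 * y

/-- Weak form of `Δ_g u = g` on the sphere with metric `e^{2φ}|dz|²`. -/
def WeakEq (φ u g : ℂ → ℝ) : Prop :=
  ∀ ψ : ℂ → ℝ, SphSmooth ψ →
    ∫ x, u x * lapG φ ψ x ∂(vol φ) = ∫ x, g x * ψ x ∂(vol φ)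

/-! ## Bessel-type functions -/

/-- `k(u) = K₀(u)/(2π)`: the resolvent kernel `(-Δ+1)^{-1}` of the plane at distance `u`. -/
def kB (u : ℝ) : ℝ := ∫ t in Ioi (0 : ℝ), Real.exp (-t - u ^ 2 / (4 * t)) / (4 * π * t)

/-- `m(u) = u K₁(u)/(4π)`: the kernel of `(-Δ+1)^{-2}` of the plane at distance `u`. -/
def mB (u : ℝ) : ℝ := ∫ t in Ioi (0 : ℝ), Real.exp (-t - u ^ 2 / (4 * t)) / (4 * π)

def FB (u : ℝ) : ℝ := kB u ^ 2 - 2 * mB u * kB u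

/-! ## The parametrix -/

/-- `s = |f_y(x)|` for the Moebius map `f_y(x) = e^{φ(y)} v / (1 - a(y) v / 2)`, `v = x - y`. -/
def sK (φ : ℂ → ℝ) (a : ℂ → ℂ) (x y : ℂ) : ℝ :=
  Real.exp (φ y) * ‖x - y‖ / ‖1 - a y * (x - y) / 2‖

/-- `J = |f_y'(x)|² e^{-2φ(x)}`. -/
def JK (φ : ℂ → ℝ) (a : ℂ → ℂ) (x y : ℂ) : ℝ :=
  Real.exp (2 * φ y - 2 * φ x) / ‖1 - a y * (x - y) / 2‖ ^ 4

/-- The kernel `(x, y) ↦ h(√z s(x, y))`, set to `0` at the pole of `f_y`. -/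
def rK (h : ℝ → ℝ) (φ : ℂ → ℝ) (a : ℂ → ℂ) (z : ℝ) (x y : ℂ) : ℝ :=
  if 1 - a y * (x - y) / 2 = 0 then 0 else h (√z * sK φ a x y)

/-- parametrix of `(Δ_g + z)^{-1}` -/
def PK (φ : ℂ → ℝ) (a : ℂ → ℂ) (z : ℝ) (x y : ℂ) : ℝ := rK kB φ a z x y
/-- its error: `(Δ_g + z) P = 1 + E` -/
def EK (φ : ℂ → ℝ) (a : ℂ → ℂ) (z : ℝ) (x y : ℂ) : ℝ := z * (1 - JK φ a x y) * rK kB φ a z x y
/-- parametrix of `(Δ_g + z)^{-2}` -/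
def MK (φ : ℂ → ℝ) (a : ℂ → ℂ) (z : ℝ) (x y : ℂ) : ℝ := z⁻¹ * rK mB φ a z x y
/-- its error: `(Δ_g + z) M = P + E2` -/
def E2K (φ : ℂ → ℝ) (a : ℂ → ℂ) (z : ℝ) (x y : ℂ) : ℝ :=
  (1 - JK φ a x y) * (rK mB φ a z x y - rK kB φ a z x y)

/-- `T` is the integral operator with kernel `K` on `L²(μ)`. -/
def IsKerOp {α : Type*} [MeasurableSpace α] (μ : Measure α) (K : α → α → ℝ)
    (T : Lp ℝ 2 μ →L[ℝ] Lp ℝ 2 μ) : Prop :=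
  ∀ f : Lp ℝ 2 μ, (T f : α → ℝ) =ᵐ[μ] fun x => ∫ y, K x y * f y ∂μ

/-! ## Potentials of squares -/

/-- `Λ 1_S (y) = -(1/2π) ∫_S log|x-y| dx`. -/
def LamS (S : Dy) (y : ℂ) : ℝ := -(1 / (2 * π)) * ∫ x in S.set, Real.log ‖x - y‖

/-- its complex derivative `∂ₓ - i∂ᵧ`: `-(1/2π) ∫_S dx/(y-x)`. -/
def aS (S : Dy) (y : ℂ) : ℂ := -(1 / (2 * π)) * ∫ x in S.set, (y - x)⁻¹

/-- the potential in the chart at infinity: `-(1/2π) ∫_S log|1-wx| dx`. -/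
def LamS' (S : Dy) (w : ℂ) : ℝ := -(1 / (2 * π)) * ∫ x in S.set, Real.log ‖1 - w * x‖

def aS' (S : Dy) (w : ℂ) : ℂ := 1 / (2 * π) * ∫ x in S.set, x / (1 - w * x)

/-- the complex derivative `∂ₓφ - i∂ᵧφ` of a real function. -/
def cGrad (φ : ℂ → ℝ) (y : ℂ) : ℂ := (fderiv ℝ φ y 1 : ℂ) - Complex.I * (fderiv ℝ φ y Complex.I : ℂ)

/-- `Φ_S = Λ 1_S - (ℓ²/4π) σ₀`: it solves `-Δ Φ_S = 1̃_S`. -/
def PhiS (σ₀ : ℂ → ℝ) (S : Dy) (y : ℂ) : ℝ := LamS S y - S.side ^ 2 / (4 * π) * σ₀ y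

end

end LQZ
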