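import Pool.Agent.LQZ.IntOp

/-!
# Project LQZ, module CPT: Hilbert-Schmidt operators are compact
-/

open MeasureTheory Set Filter Topology InnerProductSpace
open scoped ContDiff ENNReal NNReal Real

namespace LQZ

noncomputable section

/-- the truncation of `T` to a finite set of basis vectors -/
def cptTrunc {H : Type*} [NormedAddCommGroup H] [InnerProductSpace ℝ H]
    {ι : Type*} (b : HilbertBasis ι ℝ H) (T : H →L[ℝ] H) (s : Finset ι) : H →L[ℝ] H :=
  ∑ i ∈ s, (innerSL ℝ (b i)).smulRight (T (b i))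

theorem cptTrunc_apply {H : Type*} [NormedAddCommGroup H] [InnerProductSpace ℝ H]
    {ι : Type*} (b : HilbertBasis ι ℝ H) (T : H →L[ℝ] H) (s : Finset ι) (f : H) :
    cptTrunc b T s f = ∑ i ∈ s, (inner ℝ (b i) f : ℝ) • T (b i) := by
  simp [cptTrunc]

theorem cptTrunc_compact {H : Type*} [NormedAddCommGroup H] [InnerProductSpace ℝ H]
    {ι : Type*} (b : HilbertBasis ι ℝ H) (T : H →L[ℝ] H) (s : Finset ι) :
    IsCompactOperator (cptTrunc b T s) := by
  have h1 : ∀ i, IsCompactOperator ((innerSL ℝ (b i)).smulRight (T (b i)) : H →L[ℝ] H) := by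
    intro i
    have h2 : IsCompactOperator (innerSL ℝ (b i) : H →L[ℝ] ℝ) :=
      isCompactOperator_of_locallyCompactSpace_dom _
    have h3 := h2.clm_comp (ContinuousLinearMap.toSpanSingleton ℝ (T (b i)))
    have h4 : ((innerSL ℝ (b i)).smulRight (T (b i)) : H → H) =
        (ContinuousLinearMap.toSpanSingleton ℝ (T (b i))) ∘ (innerSL ℝ (b i)) := by
      funext f
      simp [ContinuousLinearMap.toSpanSingleton_apply]
    rw [h4]
    exact h3
  classical
  unfold cptTrunc
  induction s using Finset.induction_on with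
  | empty =>
    rw [Finset.sum_empty]
    exact isCompactOperator_zero
  | insert a s ha ih =>
    rw [Finset.sum_insert ha, FunLike.coe_add]
    exact (h1 a).add ih

theorem isCompact_of_summable {H : Type*} [NormedAddCommGroup H] [InnerProductSpace ℝ H]
    [CompleteSpace H] {ι : Type*} (b : HilbertBasis ι ℝ H) (T : H →L[ℝ] H)
    (h : Summable fun i => ‖T (b i)‖ ^ 2) : IsCompactOperator T := by
  classical
  have hlim : ∀ f, Tendsto (fun t => cptTrunc b T t f) atTop (𝓝 (T f)) := by
    intro f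
    have h1 := (b.hasSum_repr f).mapL T
    have h2 : (fun i => T (b.repr f i • b i)) = fun i => (inner ℝ (b i) f : ℝ) • T (b i) := by
      funext i
      rw [map_smul, b.repr_apply_apply]
    rw [h2] at h1
    have h3 : (fun t => cptTrunc b T t f) = fun t => ∑ i ∈ t, (inner ℝ (b i) f : ℝ) • T (b i) := by
      funext t
      exact cptTrunc_apply b T t f
    rw [h3]
    exact h1
  refine isCompactOperator_of_tendsto (l := atTop) (F := fun s => cptTrunc b T s) ?_
    (Eventually.of_forall fun s => cptTrunc_compact b T s)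
  rw [Metric.tendsto_atTop]
  intro ε hε
  obtain ⟨s₀, hs₀⟩ := summable_iff_vanishing_norm.1 h ((ε / 2) ^ 2) (by positivity)
  refine ⟨s₀, fun s hs => ?_⟩
  rw [dist_comm, dist_eq_norm]
  refine lt_of_le_of_lt ?_ (half_lt_self hε)
  refine ContinuousLinearMap.opNorm_le_bound _ (by positivity) fun f => ?_
  rw [sub_apply]
  have ht : Tendsto (fun t => ‖cptTrunc b T t f - cptTrunc b T s f‖) atTop
      (𝓝 ‖T f - cptTrunc b T s f‖) := ((hlim f).sub_const _).norm
  refine le_of_tendsto ht ?_
  filter_upwards [eventually_ge_atTop s] with t hst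
  have h1 : cptTrunc b T t f - cptTrunc b T s f =
      ∑ i ∈ t \ s, (inner ℝ (b i) f : ℝ) • T (b i) := by
    rw [cptTrunc_apply, cptTrunc_apply, ← Finset.sum_sdiff hst, add_sub_cancel_right]
  have h2 : ‖∑ i ∈ t \ s, (inner ℝ (b i) f : ℝ) • T (b i)‖ ≤
      ∑ i ∈ t \ s, |(inner ℝ (b i) f : ℝ)| * ‖T (b i)‖ := by
    refine (norm_sum_le _ _).trans (le_of_eq ?_)
    refine Finset.sum_congr rfl fun i _ => ?_
    rw [norm_smul, Real.norm_eq_abs]
  have h3 : ∑ i ∈ t \ s, |(inner ℝ (b i) f : ℝ)| ^ 2 ≤ ‖f‖ ^ 2 := by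
    have h4 := b.orthonormal.sum_inner_products_le f (s := t \ s)
    simpa only [Real.norm_eq_abs] using h4
  have h5 : ∑ i ∈ t \ s, ‖T (b i)‖ ^ 2 ≤ (ε / 2) ^ 2 := by
    have h6 : Disjoint (t \ s) s₀ := by
      have : Disjoint (t \ s) s := Finset.sdiff_disjoint
      exact this.mono_right hs
    have h7 := hs₀ _ h6
    rw [Real.norm_eq_abs] at h7
    exact ((le_abs_self _).trans_lt h7).le
  have h8 : (∑ i ∈ t \ s, |(inner ℝ (b i) f : ℝ)| * ‖T (b i)‖) ^ 2 ≤ (ε / 2 * ‖f‖) ^ 2 := by
    refine (Finset.sum_mul_sq_le_sq_mul_sq _ _ _).trans ?_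
    rw [mul_pow, mul_comm]
    exact mul_le_mul h5 h3 (Finset.sum_nonneg fun i _ => by positivity) (by positivity)
  rw [h1]
  refine h2.trans ?_
  exact (le_abs_self _).trans (abs_le_of_sq_le_sq h8 (by positivity))

/-- an orthonormal family in `L²` of a countably generated finite measure space is countable -/
theorem countable_of_hilbertBasis {α : Type*} [MeasurableSpace α] {μ : Measure α}
    [IsFiniteMeasure μ] [MeasurableSpace.CountablyGenerated α] {ι : Type*}
    (b : HilbertBasis ι ℝ (Lp ℝ 2 μ)) : Countable ι := by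
  have : Fact ((2 : ℝ≥0∞) ≠ ⊤) := ⟨by norm_num⟩
  have : SecondCountableTopology (Lp ℝ 2 μ) := Lp.SecondCountableTopology
  have hdist : ∀ i j : ι, i ≠ j → (1 : ℝ) ≤ dist (b i) (b j) := by
    intro i j hij
    have h1 : (inner ℝ (b i) (b j) : ℝ) = 0 := b.orthonormal.2 hij
    have h2 : ‖b i - b j‖ ^ 2 = 2 := by
      rw [norm_sub_sq_real, h1, b.orthonormal.1 i, b.orthonormal.1 j]
      norm_num
    rw [dist_eq_norm]
    nlinarith [norm_nonneg (b i - b j)]
  have hd : (univ : Set ι).PairwiseDisjoint fun i => Metric.ball (b i) (1 / 2 : ℝ) := by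
    intro i _ j _ hij
    refine Metric.ball_disjoint_ball ?_
    have := hdist i j hij
    linarith
  have hc : (univ : Set ι).Countable :=
    hd.countable_of_isOpen (fun i _ => Metric.isOpen_ball)
      (fun i _ => Metric.nonempty_ball.2 (by norm_num))
  exact countable_univ_iff.1 hc

theorem kerOp_compact {α : Type*} [MeasurableSpace α] {μ : Measure α} [IsFiniteMeasure μ]
    [MeasurableSpace.CountablyGenerated α] {K : α → α → ℝ}
    (hK : MemLp (Function.uncurry K) 2 (μ.prod μ)) {T : Lp ℝ 2 μ →L[ℝ] Lp ℝ 2 μ}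
    (hT : IsKerOp μ K T) : IsCompactOperator T := by
  obtain ⟨w, b, -⟩ := exists_hilbertBasis ℝ (Lp ℝ 2 μ)
  have : Countable w := countable_of_hilbertBasis b
  have h := (kerOp_hasSum b hK hK hT hT).summable
  refine isCompact_of_summable b T (h.congr fun i => ?_)
  rw [real_inner_self_eq_norm_sq]

end

end LQZ
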