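import Pool.Agent.LQZ.Base

/-! # Project LQZ, module CONGR: dependence on `φ` only through its a.e. class -/

open MeasureTheory Set Filter Topology InnerProductSpace
open scoped ContDiff ENNReal NNReal Real

namespace LQZ

noncomputable section

/-- the fields of `DiscreteSpectrum` for a general family of subspaces -/
private structure DSx (μ : Measure ℂ) (E : ℝ → Submodule ℝ (Lp ℝ 2 μ)) : Prop where
  area_pos : 0 < μ univ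
  area_fin : μ univ < ⊤
  neg : ∀ lam : ℝ, lam < 0 → E lam = ⊥
  zero : ∀ u : Lp ℝ 2 μ, u ∈ E 0 ↔ ∃ c : ℝ, u =ᵐ[μ] fun _ => c
  findim : ∀ lam : ℝ, Module.Finite ℝ (E lam)
  discrete : ∀ b : ℝ, {lam : ℝ | lam ≤ b ∧ E lam ≠ ⊥}.Finite
  orth : ∀ lam lam' : ℝ, lam ≠ lam' → E lam ⟂ E lam'
  dense : (⨆ lam : ℝ, E lam)ᗮ = ⊥
  summable : ∀ s : ℂ, 1 < s.re → Summable fun lam : {l : ℝ // 0 < l} =>
    (Module.finrank ℝ (E lam) : ℂ) * ((lam : ℝ) : ℂ) ^ (-s)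

private def zetax (μ : Measure ℂ) (E : ℝ → Submodule ℝ (Lp ℝ 2 μ)) (s : ℂ) : ℂ :=
  ∑' lam : {l : ℝ // 0 < l}, (Module.finrank ℝ (E lam) : ℂ) * ((lam : ℝ) : ℂ) ^ (-s)

private def memx (μ : Measure ℂ) (L : (ℂ → ℝ) → ℂ → ℝ) (lam : ℝ) (u : Lp ℝ 2 μ) : Prop :=
  ∀ ψ : ℂ → ℝ, SphSmooth ψ →
    Integrable (fun x => u x * L ψ x) μ ∧ Integrable (fun x => u x * ψ x) μ ∧
      ∫ x, u x * L ψ x ∂μ = lam * ∫ x, u x * ψ x ∂μ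

private theorem dsx_iff (φ : ℂ → ℝ) : DiscreteSpectrum φ ↔ DSx (vol φ) (eigenspace φ) :=
  ⟨fun h => ⟨h.1, h.2, h.3, h.4, h.5, h.6, h.7, h.8, h.9⟩,
    fun h => ⟨h.1, h.2, h.3, h.4, h.5, h.6, h.7, h.8, h.9⟩⟩

private theorem transfer {μ₁ μ₂ : Measure ℂ} (hμ : μ₁ = μ₂) (E₁ : ℝ → Submodule ℝ (Lp ℝ 2 μ₁))
    (E₂ : ℝ → Submodule ℝ (Lp ℝ 2 μ₂)) (L₁ L₂ : (ℂ → ℝ) → ℂ → ℝ)
    (h₁ : ∀ lam u, u ∈ E₁ lam ↔ memx μ₁ L₁ lam u) (h₂ : ∀ lam u, u ∈ E₂ lam ↔ memx μ₂ L₂ lam u)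
    (hL : ∀ ψ : ℂ → ℝ, L₁ ψ =ᵐ[μ₁] L₂ ψ) :
    (DSx μ₁ E₁ → DSx μ₂ E₂) ∧ ∀ s, zetax μ₁ E₁ s = zetax μ₂ E₂ s := by
  subst hμ
  have hE : E₁ = E₂ := by
    funext lam
    ext u
    rw [h₁, h₂]
    have key : ∀ ψ : ℂ → ℝ, (fun x => u x * L₁ ψ x) =ᵐ[μ₁] fun x => u x * L₂ ψ x := fun ψ => by
      filter_upwards [hL ψ] with x hx
      rw [hx]
    constructor
    · intro h ψ hψ
      obtain ⟨a, b, c⟩ := h ψ hψ
      exact ⟨a.congr (key ψ), b, by rw [← integral_congr_ae (key ψ)]; exact c⟩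
    · intro h ψ hψ
      obtain ⟨a, b, c⟩ := h ψ hψ
      exact ⟨a.congr (key ψ).symm, b, by rw [integral_congr_ae (key ψ)]; exact c⟩
  subst hE
  exact ⟨id, fun _ => rfl⟩

theorem discreteSpectrum_congr {φ φ₂ : ℂ → ℝ} (h : φ =ᵐ[volume] φ₂) :
    (DiscreteSpectrum φ → DiscreteSpectrum φ₂) ∧ (ZetaExtends φ → ZetaExtends φ₂) := by
  have hvol : vol φ = vol φ₂ := by
    unfold vol
    refine withDensity_congr_ae ?_
    filter_upwards [h] with x hx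
    rw [hx]
  have hac : vol φ ≪ volume := withDensity_absolutelyContinuous _ _
  have hL : ∀ ψ : ℂ → ℝ, lapG φ ψ =ᵐ[vol φ] lapG φ₂ ψ := by
    intro ψ
    filter_upwards [hac.ae_le h] with x hx
    unfold lapG
    rw [hx]
  have key := transfer hvol (eigenspace φ) (eigenspace φ₂) (lapG φ) (lapG φ₂)
    (fun lam u => Iff.rfl) (fun lam u => Iff.rfl) hL
  refine ⟨fun hd => (dsx_iff φ₂).2 (key.1 ((dsx_iff φ).1 hd)), ?_⟩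
  rintro ⟨U, h1, h2, h3, h4, F, h5, h6⟩
  refine ⟨U, h1, h2, h3, h4, F, h5, fun s hs => ?_⟩
  rw [h6 s hs]
  exact key.2 s

end

end LQZ
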