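import Pool.Agent.LQZ.Defs

/-!
# Project LQZ: the squares of `𝒫^ε` form a partition of the unit square
-/

open MeasureTheory Set Filter Topology

namespace LQZ

noncomputable section

namespace Cover

/-- The ancestor `m` levels up (the root square when `m ≥ S.k`). -/
def anc (S : Dy) (m : ℕ) : Dy where
  k := S.k - m
  i := S.i / 2 ^ m
  j := S.j / 2 ^ m
  hi := by
    rcases le_or_gt m S.k with h | h
    · apply Nat.div_lt_of_lt_mul
      rw [← pow_add, Nat.add_sub_cancel' h]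
      exact S.hi
    · rw [Nat.div_eq_of_lt (lt_trans S.hi (Nat.pow_lt_pow_right (by norm_num) h))]
      positivity
  hj := by
    rcases le_or_gt m S.k with h | h
    · apply Nat.div_lt_of_lt_mul
      rw [← pow_add, Nat.add_sub_cancel' h]
      exact S.hj
    · rw [Nat.div_eq_of_lt (lt_trans S.hj (Nat.pow_lt_pow_right (by norm_num) h))]
      positivity

theorem Dy_ext {S T : Dy} (h1 : S.k = T.k) (h2 : S.i = T.i) (h3 : S.j = T.j) : S = T := by
  cases S; cases T; simp only at h1 h2 h3; subst h1 h2 h3; rfl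

theorem anc_zero (S : Dy) : anc S 0 = S := Dy_ext (by simp [anc]) (by simp [anc]) (by simp [anc])

theorem anc_anc (S : Dy) (m n : ℕ) : anc (anc S m) n = anc S (m + n) :=
  Dy_ext (by simp only [anc]; omega) (by simp only [anc]; rw [Nat.div_div_eq_div_mul, pow_add])
    (by simp only [anc]; rw [Nat.div_div_eq_div_mul, pow_add])

theorem anc_child (S : Dy) (p q : Fin 2) : anc (S.child p q) 1 = S := by
  have := p.isLt
  have := q.isLt
  exact Dy_ext (by simp [anc, Dy.child]) (by simp only [anc, Dy.child, pow_one]; omega)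
    (by simp only [anc, Dy.child, pow_one]; omega)

theorem side_pos (S : Dy) : 0 < S.side := by unfold Dy.side; positivity

/-- One coordinate: the interval of the ancestor contains the interval. -/
theorem interval_anc {k m i : ℕ} (hm : m ≤ k) {x : ℝ} (h1 : i * (2 ^ k : ℝ)⁻¹ ≤ x)
    (h2 : x ≤ (i + 1) * (2 ^ k : ℝ)⁻¹) :
    ((i / 2 ^ m : ℕ) : ℝ) * (2 ^ (k - m) : ℝ)⁻¹ ≤ x ∧
      x ≤ (((i / 2 ^ m : ℕ) : ℝ) + 1) * (2 ^ (k - m) : ℝ)⁻¹ := by
  have hk : (2 ^ k : ℝ) = 2 ^ m * 2 ^ (k - m) := by rw [← pow_add, Nat.add_sub_cancel' hm]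
  have e1 : ((i / 2 ^ m : ℕ) : ℝ) * 2 ^ m ≤ i := by
    have := Nat.div_mul_le_self i (2 ^ m)
    exact_mod_cast this
  have e2 : (i : ℝ) + 1 ≤ (((i / 2 ^ m : ℕ) : ℝ) + 1) * 2 ^ m := by
    have := Nat.lt_div_mul_add (a := i) (b := 2 ^ m) (by positivity)
    have h3 : i + 1 ≤ (i / 2 ^ m + 1) * 2 ^ m := by
      rw [add_mul, one_mul]; omega
    exact_mod_cast h3
  have hp : (0 : ℝ) < 2 ^ m := by positivity
  have hq : (0 : ℝ) < 2 ^ (k - m) := by positivity
  have hpq : (0 : ℝ) < 2 ^ k := by positivity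
  have key : (2 ^ (k - m) : ℝ)⁻¹ = 2 ^ m * (2 ^ k : ℝ)⁻¹ := by
    rw [hk]; field_simp
  constructor
  · refine le_trans ?_ h1
    rw [key, ← mul_assoc]
    exact mul_le_mul_of_nonneg_right e1 (by positivity)
  · refine le_trans h2 ?_
    rw [key, ← mul_assoc]
    exact mul_le_mul_of_nonneg_right e2 (by positivity)

theorem subset_anc (S : Dy) {m : ℕ} (hm : m ≤ S.k) : S.set ⊆ (anc S m).set := by
  rintro z ⟨h1, h2, h3, h4⟩
  obtain ⟨a1, a2⟩ := interval_anc hm h1 h2
  obtain ⟨b1, b2⟩ := interval_anc hm h3 h4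
  exact ⟨a1, a2, b1, b2⟩

theorem set_eq (S : Dy) : S.set =
    Icc (S.i * S.side) ((S.i + 1) * S.side) ×ℂ Icc (S.j * S.side) ((S.j + 1) * S.side) := by
  ext z
  rw [Complex.mem_reProdIm]
  exact ⟨fun ⟨h1, h2, h3, h4⟩ => ⟨⟨h1, h2⟩, h3, h4⟩, fun ⟨⟨h1, h2⟩, h3, h4⟩ => ⟨h1, h2, h3, h4⟩⟩

theorem interior_eq (S : Dy) : interior S.set =
    Ioo (S.i * S.side) ((S.i + 1) * S.side) ×ℂ Ioo (S.j * S.side) ((S.j + 1) * S.side) := by
  rw [set_eq, Complex.interior_reProdIm, interior_Icc, interior_Icc]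

theorem interior_nonempty (S : Dy) : (interior S.set).Nonempty := by
  rw [interior_eq]
  have := side_pos S
  refine ⟨⟨(S.i + 1 / 2) * S.side, (S.j + 1 / 2) * S.side⟩, ?_⟩
  rw [Complex.mem_reProdIm]
  refine ⟨⟨?_, ?_⟩, ?_, ?_⟩ <;> nlinarith

/-- One coordinate: overlapping dyadic intervals are nested. -/
theorem interval_nest {k l i i' : ℕ} (hl : l ≤ k) {x : ℝ} (h1 : i * (2 ^ k : ℝ)⁻¹ < x)
    (h2 : x < (i + 1) * (2 ^ k : ℝ)⁻¹) (h3 : i' * (2 ^ l : ℝ)⁻¹ < x)
    (h4 : x < (i' + 1) * (2 ^ l : ℝ)⁻¹) : i' = i / 2 ^ (k - l) := by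
  have hk : (2 ^ k : ℝ) = 2 ^ (k - l) * 2 ^ l := by rw [← pow_add, Nat.sub_add_cancel hl]
  have hp : (0 : ℝ) < 2 ^ l := by positivity
  have hpq : (0 : ℝ) < 2 ^ k := by positivity
  have key : (2 ^ l : ℝ)⁻¹ = 2 ^ (k - l) * (2 ^ k : ℝ)⁻¹ := by
    rw [hk]; field_simp
  have e1 : (i' : ℝ) * 2 ^ (k - l) < i + 1 := by
    have := lt_trans h3 h2
    rw [key, ← mul_assoc] at this
    exact lt_of_mul_lt_mul_right this (by positivity)
  have e2 : (i : ℝ) < (i' + 1) * 2 ^ (k - l) := by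
    have := lt_trans h1 h4
    rw [key, ← mul_assoc] at this
    exact lt_of_mul_lt_mul_right this (by positivity)
  have f1 : i' * 2 ^ (k - l) < i + 1 := by exact_mod_cast e1
  have f2 : i < (i' + 1) * 2 ^ (k - l) := by exact_mod_cast e2
  symm
  rw [Nat.div_eq_iff (by positivity)]
  rw [add_mul, one_mul] at f2
  omega

theorem nest {S T : Dy} (hk : T.k ≤ S.k) (h : (interior S.set ∩ interior T.set).Nonempty) :
    T = anc S (S.k - T.k) := by
  obtain ⟨z, hz1, hz2⟩ := h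
  rw [interior_eq, Complex.mem_reProdIm] at hz1 hz2
  obtain ⟨⟨a1, a2⟩, a3, a4⟩ := hz1
  obtain ⟨⟨b1, b2⟩, b3, b4⟩ := hz2
  refine Dy_ext ?_ ?_ ?_
  · simp only [anc]; omega
  · exact interval_nest hk a1 a2 b1 b2
  · exact interval_nest hk a3 a4 b3 b4

theorem inter_of_subset {S T : Dy} (h : S.set ⊆ T.set) :
    (interior S.set ∩ interior T.set).Nonempty := by
  obtain ⟨z, hz⟩ := interior_nonempty S
  exact ⟨z, hz, interior_mono h hz⟩

theorem ssubset_anc {S T : Dy} (h : S.set ⊂ T.set) :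
    T.k < S.k ∧ T = anc S (S.k - T.k) := by
  have hi := inter_of_subset h.1
  have hlt : T.k < S.k := by
    by_contra hc
    push Not at hc
    have := nest hc (by rw [inter_comm]; exact hi)
    apply h.2
    rw [this]
    exact subset_anc T (by omega)
  exact ⟨hlt, nest hlt.le hi⟩

theorem mem_peps {Q ε : ℝ} {a : Dy → ℝ} {S : Dy} (h1 : Asz Q a S ≤ ε)
    (h2 : ∀ m, 1 ≤ m → m ≤ S.k → ε < Asz Q a (anc S m)) : S ∈ Peps Q ε a := by
  refine ⟨h1, fun T hT => ?_⟩
  obtain ⟨h3, h4⟩ := ssubset_anc hT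
  rw [h4]
  exact h2 _ (by omega) (by omega)

/-- Among the ancestors of a small square one is in `Peps`. -/
theorem exists_anc_mem {Q ε : ℝ} {a : Dy → ℝ} (T : Dy) (h1 : Asz Q a T ≤ ε) :
    ∃ m ≤ T.k, anc T m ∈ Peps Q ε a := by
  classical
  have hex : ∃ m ≤ T.k, Asz Q a (anc T m) ≤ ε := ⟨0, Nat.zero_le _, by rw [anc_zero]; exact h1⟩
  obtain ⟨m, hm, hmax⟩ : ∃ m, (m ≤ T.k ∧ Asz Q a (anc T m) ≤ ε) ∧
      ∀ n, (n ≤ T.k ∧ Asz Q a (anc T n) ≤ ε) → n ≤ m := by
    have hs : ((Finset.range (T.k + 1)).filter fun m => Asz Q a (anc T m) ≤ ε).Nonempty := by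
      obtain ⟨m, hm, hm'⟩ := hex
      exact ⟨m, by simp only [Finset.mem_filter, Finset.mem_range]; exact ⟨by omega, hm'⟩⟩
    refine ⟨Finset.max' _ hs, ?_, fun n hn => Finset.le_max' _ n ?_⟩
    · have := Finset.max'_mem _ hs
      simp only [Finset.mem_filter, Finset.mem_range] at this
      exact ⟨by omega, this.2⟩
    · simp only [Finset.mem_filter, Finset.mem_range]
      exact ⟨by omega, hn.2⟩
  refine ⟨m, hm.1, mem_peps hm.2 fun n hn hn' => ?_⟩
  rw [anc_anc]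
  by_contra hc
  push Not at hc
  have h3 : (anc T m).k = T.k - m := rfl
  have := hmax (m + n) ⟨by have := hm.1; omega, hc⟩
  omega

/-- Descending to the child with the smallest average. -/
theorem exists_desc {a : Dy → ℝ} (ha : Consistent a) (S : Dy) (n : ℕ) :
    ∃ T : Dy, T.k = S.k + n ∧ anc T n = S ∧ a T ≤ a S := by
  induction n with
  | zero => exact ⟨S, rfl, anc_zero S, le_rfl⟩
  | succ n ih =>
    obtain ⟨T, h1, h2, h3⟩ := ih
    have hc : ∃ p q : Fin 2, a (T.child p q) ≤ a T := by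
      by_contra hcon
      push Not at hcon
      have := ha T
      have h00 := hcon 0 0
      have h01 := hcon 0 1
      have h10 := hcon 1 0
      have h11 := hcon 1 1
      linarith
    obtain ⟨p, q, hpq⟩ := hc
    refine ⟨T.child p q, ?_, ?_, hpq.trans h3⟩
    · change T.k + 1 = S.k + (n + 1)
      omega
    · rw [add_comm n 1, ← anc_anc, anc_child, h2]

theorem exists_small {Q ε : ℝ} (hQ : 0 < Q) (hε : 0 < ε) {a : Dy → ℝ} (ha : Consistent a)
    (S : Dy) : ∃ (n : ℕ) (T : Dy), T.k = S.k + n ∧ anc T n = S ∧ Asz Q a T ≤ ε := by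
  have hlim : Tendsto (fun n : ℕ => Real.exp (a S / Q) * (2 ^ (S.k + n) : ℝ)⁻¹) atTop (𝓝 0) := by
    have h1 : Tendsto (fun n : ℕ => ((1 / 2 : ℝ)) ^ (n + S.k)) atTop (𝓝 0) :=
      (tendsto_add_atTop_iff_nat (f := fun n : ℕ => ((1 / 2 : ℝ)) ^ n) S.k).2
        (tendsto_pow_atTop_nhds_zero_of_lt_one (by norm_num) (by norm_num))
    have h2 := h1.const_mul (Real.exp (a S / Q))
    rw [mul_zero] at h2
    refine h2.congr fun n => ?_
    rw [one_div, inv_pow, add_comm]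
  obtain ⟨n, hn⟩ := (hlim.eventually_le_const hε).exists
  obtain ⟨T, h1, h2, h3⟩ := exists_desc ha S n
  refine ⟨n, T, h1, h2, le_trans ?_ hn⟩
  unfold Asz Dy.side
  rw [h1]
  refine mul_le_mul_of_nonneg_right ?_ (by positivity)
  exact Real.exp_le_exp.2 (div_le_div_of_nonneg_right h3 hQ.le)

/-- A square of a given level containing a given point. -/
theorem exists_mem_level {z : ℂ} (hz : z ∈ unitSquare) (N : ℕ) : ∃ S : Dy, S.k = N ∧ z ∈ S.set := by
  have aux : ∀ x : ℝ, 0 ≤ x → x ≤ 1 → ∃ i : ℕ, i < 2 ^ N ∧ i * (2 ^ N : ℝ)⁻¹ ≤ x ∧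
      x ≤ (i + 1) * (2 ^ N : ℝ)⁻¹ := by
    intro x h0 h1
    have hp : (0 : ℝ) < 2 ^ N := by positivity
    rcases lt_or_eq_of_le h1 with h1 | h1
    · refine ⟨⌊x * 2 ^ N⌋₊, ?_, ?_, ?_⟩
      · rw [Nat.floor_lt (by positivity)]
        push_cast
        nlinarith
      · rw [← div_eq_mul_inv, div_le_iff₀ hp]
        exact Nat.floor_le (by positivity)
      · rw [← div_eq_mul_inv, le_div_iff₀ hp]
        exact (Nat.lt_floor_add_one _).le
    · refine ⟨2 ^ N - 1, Nat.sub_lt (by positivity) one_pos, ?_, ?_⟩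
      · rw [h1, ← div_eq_mul_inv, div_le_iff₀ hp, one_mul]
        have : (2 ^ N - 1 : ℕ) ≤ 2 ^ N := Nat.sub_le _ _
        exact_mod_cast this
      · rw [h1, ← div_eq_mul_inv, le_div_iff₀ hp, one_mul]
        have : 2 ^ N ≤ (2 ^ N - 1 : ℕ) + 1 := by omega
        exact_mod_cast this
  obtain ⟨h1, h2, h3, h4⟩ := hz
  obtain ⟨i, a1, a2, a3⟩ := aux _ h1 h2
  obtain ⟨j, b1, b2, b3⟩ := aux _ h3 h4
  exact ⟨⟨N, i, j, a1, b1⟩, rfl, a2, a3, b2, b3⟩

theorem set_subset_unit (S : Dy) : S.set ⊆ unitSquare := by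
  have h := subset_anc S (le_refl S.k)
  refine h.trans ?_
  rintro z ⟨h1, h2, h3, h4⟩
  have hk : (anc S S.k).side = 1 := by simp [anc, Dy.side]
  have hi : (anc S S.k).i = 0 := Nat.div_eq_of_lt S.hi
  have hj : (anc S S.k).j = 0 := Nat.div_eq_of_lt S.hj
  rw [hk, hi] at h1 h2
  rw [hk, hj] at h3 h4
  simp only [Nat.cast_zero, zero_mul, zero_add, one_mul] at h1 h2 h3 h4
  exact ⟨h1, h2, h3, h4⟩

end Cover

open Cover in
theorem peps_partition {Q ε : ℝ} (hQ : 0 < Q) (hε : 0 < ε) {a : Dy → ℝ} (ha : Consistent a)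
    (hf : (Peps Q ε a).Finite) : IsPartition (Peps Q ε a) := by
  constructor
  · apply Subset.antisymm
    · exact iUnion₂_subset fun S _ => set_subset_unit S
    · intro z hz
      obtain ⟨N, hN⟩ : ∃ N, ∀ S ∈ Peps Q ε a, S.k < N := by
        obtain ⟨N, hN⟩ := (hf.image Dy.k).bddAbove
        exact ⟨N + 1, fun S hS => Nat.lt_succ_of_le (hN ⟨S, hS, rfl⟩)⟩
      obtain ⟨S, hS, hzS⟩ := exists_mem_level hz N
      obtain ⟨n, T, h1, h2, h3⟩ := exists_small hQ hε ha S
      obtain ⟨m, hm, hmem⟩ := exists_anc_mem T h3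
      have h4 := hN _ hmem
      have h5 : (anc T m).k = T.k - m := rfl
      have h6 : anc T m = anc S (m - n) := by
        rw [← h2, anc_anc]
        congr 1
        omega
      rw [mem_iUnion₂]
      refine ⟨anc T m, hmem, ?_⟩
      rw [h6]
      exact subset_anc S (by omega) hzS
  · intro S hS T hT hne
    rw [disjoint_iff_inter_eq_empty]
    by_contra hcon
    have hcon := nonempty_iff_ne_empty.2 hcon
    wlog hk : T.k ≤ S.k generalizing S T
    · exact this hT hS hne.symm (by rw [inter_comm]; exact hcon.ne_empty)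
        (by rw [inter_comm]; exact hcon) (by omega)
    have h1 := nest hk hcon
    have h2 : S.set ⊆ T.set := by
      rw [h1]; exact subset_anc S (by omega)
    have hlt : T.k < S.k := by
      rcases lt_or_eq_of_le hk with h | h
      · exact h
      · exfalso
        apply hne
        rw [h1, h, Nat.sub_self, anc_zero]
    have hss : S.set ⊂ T.set := by
      refine ⟨h2, fun h3 => ?_⟩
      have hS' : S.side < T.side := by
        unfold Dy.side
        have : (2 : ℝ) ^ T.k < 2 ^ S.k := pow_lt_pow_right₀ (by norm_num) hlt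
        exact inv_strictAnti₀ (by positivity) this
      have hc1 : (⟨T.i * T.side, T.j * T.side⟩ : ℂ) ∈ S.set :=
        h3 ⟨le_rfl, by nlinarith [side_pos T], le_rfl, by nlinarith [side_pos T]⟩
      have hc2 : (⟨(T.i + 1) * T.side, T.j * T.side⟩ : ℂ) ∈ S.set :=
        h3 ⟨by nlinarith [side_pos T], le_rfl, le_rfl, by nlinarith [side_pos T]⟩
      have e1 := hc1.1
      have e2 := hc2.2.1
      simp only at e1 e2
      nlinarith
    exact absurd (hS.2 T hss) (not_lt.2 hT.1)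

end

end LQZ
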