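import Pool.Agent.LQZ.IBP

/-! # Project LQZ, module LOGG: the logarithmic kernel -/

open MeasureTheory Set Filter Topology InnerProductSpace
open scoped ContDiff ENNReal NNReal Real

namespace LQZ

noncomputable section

variable {ψ χ f g η φ φ' u : ℂ → ℝ}

/-! ## elementary integrability -/

/-- `‖x‖^{-s}` is integrable on balls for `s < 2`. -/
theorem logg_integrable_ball {s : ℝ} (hs : s < 2) (R : ℝ) :
    Integrable ((Metric.ball (0 : ℂ) R).indicator fun x => ‖x‖ ^ (-s)) := by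
  have h1 : (Metric.ball (0 : ℂ) R).indicator (fun x : ℂ => ‖x‖ ^ (-s)) =
      fun x : ℂ => (Iio R).indicator (fun t : ℝ => t ^ (-s)) ‖x‖ := by
    ext x
    by_cases hx : ‖x‖ < R
    · rw [indicator_of_mem (by rw [mem_ball_zero_iff]; exact hx),
        indicator_of_mem (show ‖x‖ ∈ Iio R from hx)]
    · rw [indicator_of_notMem (by rw [mem_ball_zero_iff]; exact hx),
        indicator_of_notMem (show ‖x‖ ∉ Iio R from hx)]
  rw [h1, integrable_fun_norm_addHaar (μ := (volume : Measure ℂ))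
    (f := (Iio R).indicator (fun t : ℝ => t ^ (-s)))]
  rw [Complex.finrank_real_complex]
  have h2 : IntegrableOn (fun y : ℝ => y ^ (1 - s)) (Ioo 0 R) := by
    rcases le_or_gt R 0 with hR | hR
    · rw [Ioo_eq_empty (by linarith)]; exact integrableOn_empty
    · have h3 : IntervalIntegrable (fun y : ℝ => y ^ (1 - s)) volume 0 R :=
        intervalIntegral.intervalIntegrable_rpow' (by linarith)
      rw [intervalIntegrable_iff_integrableOn_Ioo_of_le hR.le] at h3
      exact h3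
  have h4 : IntegrableOn ((Iio R).indicator fun y : ℝ => y ^ (1 - s)) (Ioi 0) := by
    rw [IntegrableOn, integrable_indicator_iff measurableSet_Iio, IntegrableOn,
      Measure.restrict_restrict measurableSet_Iio]
    have : Iio R ∩ Ioi 0 = Ioo 0 R := by
      ext t; simp [and_comm]
    rw [this]; exact h2
  refine h4.congr_fun (fun y hy => ?_) measurableSet_Ioi
  have hy0 : (0 : ℝ) < y := hy
  by_cases hyR : y < R
  · simp only [indicator_of_mem (show y ∈ Iio R from hyR), smul_eq_mul]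
    rw [sub_eq_add_neg, Real.rpow_add hy0, Real.rpow_one]
    norm_num
  · simp only [indicator_of_notMem (show y ∉ Iio R from hyR), smul_zero]

theorem logg_integrable_ball' {s : ℝ} (hs : s < 2) (R : ℝ) (y : ℂ) :
    Integrable ((Metric.ball y R).indicator fun x => ‖x - y‖ ^ (-s)) := by
  have h := (logg_integrable_ball hs R).comp_sub_right y
  refine h.congr (Eventually.of_forall fun x => ?_)
  by_cases hx : ‖x - y‖ < R
  · simp only
    rw [indicator_of_mem (by rw [mem_ball_zero_iff]; exact hx),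
      indicator_of_mem (by rw [Metric.mem_ball, dist_eq_norm]; exact hx)]
  · simp only
    rw [indicator_of_notMem (by rw [mem_ball_zero_iff]; exact hx),
      indicator_of_notMem (by rw [Metric.mem_ball, dist_eq_norm]; exact hx)]

theorem logg_abs_log {t : ℝ} (ht : 0 < t) :
    |Real.log t| ≤ 2 * t ^ (1 / 2 : ℝ) + 2 * t ^ (-(1 / 2) : ℝ) := by
  have h1 : Real.log t ≤ 2 * t ^ (1 / 2 : ℝ) := by
    have h := Real.log_le_sub_one_of_pos (show 0 < t ^ (1 / 2 : ℝ) by positivity)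
    rw [Real.log_rpow ht] at h
    linarith
  have h2 : -Real.log t ≤ 2 * t ^ (-(1 / 2) : ℝ) := by
    have h := Real.log_le_sub_one_of_pos (show 0 < t ^ (-(1 / 2) : ℝ) by positivity)
    rw [Real.log_rpow ht] at h
    linarith
  have p1 : 0 < t ^ (1 / 2 : ℝ) := by positivity
  have p2 : 0 < t ^ (-(1 / 2) : ℝ) := by positivity
  rw [abs_le]
  constructor <;> linarith

/-- the standard dominating function for `log|x-y|` against `(1+|x|²)^{-2}` -/
def loggDom (y x : ℂ) : ℝ :=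
  2 * (Metric.ball y 1).indicator (fun x => ‖x - y‖ ^ (-(1 / 2) : ℝ)) x +
    (4 + 2 * ‖y‖) * (1 + ‖x‖) / (1 + ‖x‖ ^ 2) ^ 2

theorem logg_lin_integrable (C : ℝ) :
    Integrable fun x : ℂ => C * (1 + ‖x‖) / (1 + ‖x‖ ^ 2) ^ 2 := by
  have h1 : Integrable fun x : ℂ => (1 + ‖x‖) / (1 + ‖x‖ ^ 2) ^ 2 := by
    refine ibp_integrable_of_le (C := 4) ?_ fun x => ?_
    · refine Continuous.aestronglyMeasurable ?_
      refine Continuous.div (by fun_prop) (by fun_prop) fun x => by positivity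
    · rw [abs_of_nonneg (by positivity), div_le_div_iff₀ (by positivity) (by positivity)]
      have h := norm_nonneg x
      have h2 : (1 + ‖x‖) ^ 2 ≤ 2 * (1 + ‖x‖ ^ 2) := by nlinarith [sq_nonneg (1 - ‖x‖)]
      calc (1 + ‖x‖) * (1 + ‖x‖) ^ 3 = ((1 + ‖x‖) ^ 2) ^ 2 := by ring
        _ ≤ (2 * (1 + ‖x‖ ^ 2)) ^ 2 := pow_le_pow_left₀ (by positivity) h2 2
        _ = _ := by ring
  refine (h1.const_mul C).congr (Eventually.of_forall fun x => ?_)
  simp only
  ring

theorem loggDom_integrable (y : ℂ) : Integrable (loggDom y) := by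
  exact ((logg_integrable_ball' (by norm_num) 1 y).const_mul 2).add (logg_lin_integrable _)

theorem logg_dom (y x : ℂ) : |Real.log ‖x - y‖| / (1 + ‖x‖ ^ 2) ^ 2 ≤ loggDom y x := by
  have hq : 1 ≤ (1 + ‖x‖ ^ 2) ^ 2 := one_le_pow₀ (by nlinarith [sq_nonneg ‖x‖])
  have hq0 : 0 < (1 + ‖x‖ ^ 2) ^ 2 := by linarith
  by_cases hxy : x = y
  · subst hxy
    simp only [sub_self, norm_zero, Real.log_zero, abs_zero, zero_div]
    unfold loggDom
    have : 0 ≤ (Metric.ball x 1).indicator (fun z => ‖z - x‖ ^ (-(1 / 2) : ℝ)) x :=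
      indicator_nonneg (fun z _ => by positivity) x
    positivity
  have hpos : 0 < ‖x - y‖ := norm_pos_iff.2 (sub_ne_zero.2 hxy)
  have hlog := logg_abs_log hpos
  have h1 : ‖x - y‖ ^ (1 / 2 : ℝ) ≤ 1 + ‖x - y‖ := by
    rcases le_total ‖x - y‖ 1 with h | h
    · have := Real.rpow_le_one hpos.le h (by norm_num : (0 : ℝ) ≤ 1 / 2)
      linarith
    · have := Real.rpow_le_rpow_of_exponent_le h (by norm_num : (1 / 2 : ℝ) ≤ 1)
      rw [Real.rpow_one] at this
      linarith
  have h2 : ‖x - y‖ ≤ ‖x‖ + ‖y‖ := norm_sub_le _ _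
  have h3 : ‖x - y‖ ^ (-(1 / 2) : ℝ) ≤
      (Metric.ball y 1).indicator (fun x => ‖x - y‖ ^ (-(1 / 2) : ℝ)) x + 1 := by
    by_cases hb : ‖x - y‖ < 1
    · rw [indicator_of_mem (by rw [Metric.mem_ball, dist_eq_norm]; exact hb)]
      linarith
    · rw [indicator_of_notMem (by rw [Metric.mem_ball, dist_eq_norm]; exact hb)]
      have := Real.rpow_le_one_of_one_le_of_nonpos (not_lt.1 hb)
        (by norm_num : (-(1 / 2) : ℝ) ≤ 0)
      linarith
  set I := (Metric.ball y 1).indicator (fun x => ‖x - y‖ ^ (-(1 / 2) : ℝ)) x with hI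
  have hI0 : 0 ≤ I := indicator_nonneg (fun z _ => by positivity) x
  have h4 : |Real.log ‖x - y‖| ≤ 2 * I + (4 + 2 * ‖y‖) * (1 + ‖x‖) := by
    have := norm_nonneg x
    have := norm_nonneg y
    nlinarith
  have h5 : 2 * I / (1 + ‖x‖ ^ 2) ^ 2 ≤ 2 * I := div_le_self (by positivity) hq
  calc |Real.log ‖x - y‖| / (1 + ‖x‖ ^ 2) ^ 2
      ≤ (2 * I + (4 + 2 * ‖y‖) * (1 + ‖x‖)) / (1 + ‖x‖ ^ 2) ^ 2 :=
        div_le_div_of_nonneg_right h4 hq0.le
    _ = 2 * I / (1 + ‖x‖ ^ 2) ^ 2 + (4 + 2 * ‖y‖) * (1 + ‖x‖) / (1 + ‖x‖ ^ 2) ^ 2 := by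
        rw [add_div]
    _ ≤ loggDom y x := by unfold loggDom; linarith

theorem logg_log_one_add (x : ℂ) : |1 / 2 * Real.log (‖x‖ ^ 2 + 1)| ≤ 1 + ‖x‖ := by
  have h0 := norm_nonneg x
  have h1 : 0 ≤ Real.log (‖x‖ ^ 2 + 1) := Real.log_nonneg (by nlinarith)
  rw [abs_of_nonneg (by positivity)]
  have h2 : Real.log (‖x‖ ^ 2 + 1) ≤ Real.log ((1 + ‖x‖) ^ 2) :=
    Real.log_le_log (by positivity) (by nlinarith)
  rw [Real.log_pow] at h2
  have h3 := Real.log_le_sub_one_of_pos (show 0 < 1 + ‖x‖ by positivity)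
  push_cast at h2
  linarith

/-! ## the regularised logarithm -/

def logR (δ : ℝ) (w : ℂ) : ℝ := 1 / 2 * Real.log (‖w‖ ^ 2 + δ ^ 2)

theorem logR_contDiff {δ : ℝ} (hδ : 0 < δ) : ContDiff ℝ ∞ (logR δ) := by
  have h1 : ContDiff ℝ ∞ fun w : ℂ => ‖w‖ ^ 2 + δ ^ 2 := (contDiff_norm_sq ℝ).add contDiff_const
  exact contDiff_const.mul (h1.log fun w => by positivity)

theorem logR_fderiv {δ : ℝ} (hδ : 0 < δ) (w v : ℂ) :
    fderiv ℝ (logR δ) w v = (w.re * v.re + w.im * v.im) / (‖w‖ ^ 2 + δ ^ 2) := by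
  have h1 : HasFDerivAt (fun w : ℂ => ‖w‖ ^ 2 + δ ^ 2) (2 • (innerSL ℝ w)) w := by
    have := (hasStrictFDerivAt_norm_sq w).hasFDerivAt
    exact this.add_const _
  have h2 := (h1.log (by positivity : ‖w‖ ^ 2 + δ ^ 2 ≠ 0)).const_mul (1 / 2 : ℝ)
  have h3 : fderiv ℝ (logR δ) w = (1 / 2 : ℝ) • ((‖w‖ ^ 2 + δ ^ 2)⁻¹ • (2 • (innerSL ℝ w))) :=
    h2.fderiv
  rw [h3]
  simp only [_root_.smul_apply, innerSL_apply_apply, smul_eq_mul, nsmul_eq_mul]
  have h4 : (inner ℝ w v : ℝ) = w.re * v.re + w.im * v.im := by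
    rw [Complex.inner]; simp; ring
  rw [h4]
  push_cast
  ring

theorem logR_lap {δ : ℝ} (hδ : 0 < δ) (w : ℂ) :
    lap (logR δ) w = 2 * δ ^ 2 / (‖w‖ ^ 2 + δ ^ 2) ^ 2 := by
  rw [lap_eq_dir ((logR_contDiff hδ).of_le sph_two_le)]
  have e : ∀ v : ℂ, (fun y => fderiv ℝ (logR δ) y v) =
      fun y : ℂ => (y.re * v.re + y.im * v.im) / (‖y‖ ^ 2 + δ ^ 2) := by
    intro v; ext y; exact logR_fderiv hδ y v
  have hd : ∀ v : ℂ, fderiv ℝ (fun y => fderiv ℝ (logR δ) y v) w v =
      ((v.re * v.re + v.im * v.im) * (‖w‖ ^ 2 + δ ^ 2) -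
        (w.re * v.re + w.im * v.im) * (2 * (w.re * v.re + w.im * v.im))) /
        (‖w‖ ^ 2 + δ ^ 2) ^ 2 := by
    intro v
    rw [e v]
    have h1 : HasFDerivAt (fun w : ℂ => ‖w‖ ^ 2 + δ ^ 2) (2 • (innerSL ℝ w)) w := by
      have := (hasStrictFDerivAt_norm_sq w).hasFDerivAt
      exact this.add_const _
    have h2 : HasFDerivAt (fun y : ℂ => y.re * v.re + y.im * v.im)
        (v.re • Complex.reCLM + v.im • Complex.imCLM) w :=
      (Complex.reCLM.hasFDerivAt.mul_const v.re).add (Complex.imCLM.hasFDerivAt.mul_const v.im)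
    have hne : ‖w‖ ^ 2 + δ ^ 2 ≠ 0 := by positivity
    have h1i : HasFDerivAt (fun w : ℂ => (‖w‖ ^ 2 + δ ^ 2)⁻¹)
        ((-((‖w‖ ^ 2 + δ ^ 2) ^ 2)⁻¹) • (2 • (innerSL ℝ w))) w :=
      (hasDerivAt_inv hne).comp_hasFDerivAt w h1
    have h3 := (h2.fun_mul h1i).fderiv
    have h3' : (fun y : ℂ => (y.re * v.re + y.im * v.im) / (‖y‖ ^ 2 + δ ^ 2)) =
      fun y : ℂ => (y.re * v.re + y.im * v.im) * (‖y‖ ^ 2 + δ ^ 2)⁻¹ := rfl
    rw [h3', h3]
    have h4 : (inner ℝ w v : ℝ) = w.re * v.re + w.im * v.im := by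
      rw [Complex.inner]; simp; ring
    simp only [_root_.smul_apply, _root_.add_apply, innerSL_apply_apply,
      smul_eq_mul, nsmul_eq_mul, Complex.reCLM_apply, Complex.imCLM_apply, h4]
    push_cast
    field_simp
    ring
  rw [hd 1, hd Complex.I]
  have hn : ‖w‖ ^ 2 = w.re ^ 2 + w.im ^ 2 := by
    rw [← Complex.normSq_eq_norm_sq, Complex.normSq_apply]; ring
  simp only [Complex.one_re, Complex.one_im, Complex.I_re, Complex.I_im]
  rw [← add_div]
  congr 1
  rw [hn]; ring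

/-- the regularised version, used for potentials of squares -/
theorem log_reg_lap (y x : ℂ) {δ : ℝ} (hδ : 0 < δ) :
    lap (fun x => 1 / 2 * Real.log (‖x - y‖ ^ 2 + δ ^ 2)) x =
      2 * δ ^ 2 / (‖x - y‖ ^ 2 + δ ^ 2) ^ 2 := by
  have h := lap_affine ((logR_contDiff hδ).of_le sph_two_le) 1 (-y) x
  have e : (fun x => logR δ (1 * x + -y)) = fun x => 1 / 2 * Real.log (‖x - y‖ ^ 2 + δ ^ 2) := by
    ext x; simp only [logR, one_mul]; rw [← sub_eq_add_neg]
  rw [e] at h
  rw [h, logR_lap hδ, norm_one, one_mul, ← sub_eq_add_neg]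
  ring

theorem logg_integral_round : ∫ x : ℂ, 2 / (1 + ‖x‖ ^ 2) ^ 2 = 2 * π := by
  have h := integral_fun_norm_addHaar (volume : Measure ℂ) (fun t : ℝ => 2 / (1 + t ^ 2) ^ 2)
  rw [h, Complex.finrank_real_complex]
  have hv : (volume : Measure ℂ).real (Metric.ball 0 1) = π := by
    rw [measureReal_def, Complex.volume_ball]
    simp
  have hint : ∫ y in Ioi (0 : ℝ), y ^ (2 - 1) • (2 / (1 + y ^ 2) ^ 2) = 1 := by
    have hder : ∀ x ∈ Ici (0 : ℝ), HasDerivAt (fun y : ℝ => -(1 + y ^ 2)⁻¹)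
        (x ^ (2 - 1) • (2 / (1 + x ^ 2) ^ 2)) x := by
      intro x _
      have h1 : HasDerivAt (fun y : ℝ => 1 + y ^ 2) (2 * x) x := by
        simpa using (hasDerivAt_pow 2 x).const_add 1
      have h2 := (h1.inv (by positivity : (1 + x ^ 2) ≠ 0)).neg
      refine (h2.congr_deriv ?_)
      simp only [smul_eq_mul]
      norm_num
      ring
    have hlim : Tendsto (fun y : ℝ => -(1 + y ^ 2)⁻¹) atTop (𝓝 0) := by
      have h1 : Tendsto (fun t : ℝ => 1 + t ^ 2) atTop atTop :=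
        tendsto_atTop_add_const_left _ _ (tendsto_pow_atTop (by norm_num))
      have := h1.inv_tendsto_atTop.neg
      simpa using this
    rw [integral_Ioi_of_hasDerivAt_of_nonneg' hder (fun x hx => ?_) hlim]
    · norm_num
    · have : (0 : ℝ) < x := hx
      simp only [smul_eq_mul]
      positivity
  rw [hint, hv]
  simp

theorem logg_sph {δ : ℝ} (hδ : 0 < δ) (y : ℂ) :
    SphSmooth fun x => logR δ (x - y) - logR 1 x := by
  have hc1 : ContDiff ℝ ∞ fun x : ℂ => x - y := contDiff_id.sub contDiff_const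
  refine sph_mk (g₀ := fun w => 1 / 2 * Real.log (‖1 - y * w‖ ^ 2 + δ ^ 2 * ‖w‖ ^ 2) -
    1 / 2 * Real.log (1 + ‖w‖ ^ 2)) (((logR_contDiff hδ).comp hc1).sub (logR_contDiff one_pos)) ?_ ?_
  · have h1 : ContDiffAt ℝ ∞ (fun w : ℂ => ‖1 - y * w‖ ^ 2 + δ ^ 2 * ‖w‖ ^ 2) 0 := by
      have : ContDiff ℝ ∞ (fun w : ℂ => 1 - y * w) :=
        contDiff_const.sub (contDiff_const.mul contDiff_id)
      exact ((this.norm_sq ℝ).add (contDiff_const.mul (contDiff_norm_sq ℝ))).contDiffAt
    have h2 : ContDiffAt ℝ ∞ (fun w : ℂ => 1 + ‖w‖ ^ 2) 0 :=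
      (contDiff_const.add (contDiff_norm_sq ℝ)).contDiffAt
    exact (contDiffAt_const.mul (h1.log (by simp))).sub
      (contDiffAt_const.mul (h2.log (by simp)))
  · filter_upwards [self_mem_nhdsWithin] with w hw0
    have hw : w ≠ 0 := hw0
    have hwn : 0 < ‖w‖ := norm_pos_iff.2 hw
    have e1 : ‖w⁻¹ - y‖ ^ 2 + δ ^ 2 = (‖1 - y * w‖ ^ 2 + δ ^ 2 * ‖w‖ ^ 2) / ‖w‖ ^ 2 := by
      have : w⁻¹ - y = (1 - y * w) / w := by field_simp
      rw [this, norm_div]
      field_simp
    have e2 : ‖w⁻¹‖ ^ 2 + 1 ^ 2 = (1 + ‖w‖ ^ 2) / ‖w‖ ^ 2 := by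
      rw [norm_inv]; field_simp
    have p1 : 0 < ‖1 - y * w‖ ^ 2 + δ ^ 2 * ‖w‖ ^ 2 := by positivity
    simp only [logR]
    rw [e1, e2, Real.log_div p1.ne' (by positivity), Real.log_div (by positivity) (by positivity)]
    ring

theorem logg_bound {δ : ℝ} (hδ : 0 < δ) (hδ1 : δ ≤ 1) {w : ℂ} (hw : w ≠ 0) :
    |logR δ w| ≤ |Real.log ‖w‖| + (1 + ‖w‖) := by
  have hwn : 0 < ‖w‖ := norm_pos_iff.2 hw
  have h1 : Real.log ‖w‖ ≤ logR δ w := by
    have : Real.log (‖w‖ ^ 2) ≤ Real.log (‖w‖ ^ 2 + δ ^ 2) :=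
      Real.log_le_log (by positivity) (by nlinarith)
    rw [Real.log_pow] at this
    unfold logR
    push_cast at this
    linarith
  have h2 : logR δ w ≤ 1 / 2 * Real.log (‖w‖ ^ 2 + 1) := by
    unfold logR
    have : Real.log (‖w‖ ^ 2 + δ ^ 2) ≤ Real.log (‖w‖ ^ 2 + 1) :=
      Real.log_le_log (by positivity) (by nlinarith)
    linarith
  have h3 := logg_log_one_add w
  have h4 := le_abs_self (1 / 2 * Real.log (‖w‖ ^ 2 + 1))
  have h5 := neg_abs_le (Real.log ‖w‖)
  have h6 := abs_nonneg (Real.log ‖w‖)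
  have h7 := norm_nonneg w
  rw [abs_le]
  constructor <;> linarith

theorem logg_main (hψ : SphSmooth ψ) (y : ℂ) :
    ∫ x, (Real.log ‖x - y‖ - logR 1 x) * lap ψ x =
      2 * π * ψ y - ∫ x, 2 * ψ x / (1 + ‖x‖ ^ 2) ^ 2 := by
  obtain ⟨C, hC0, hC⟩ := hψ.lap_le
  obtain ⟨K, hK0, hK⟩ := hψ.bdd
  have hψc := hψ.1.continuous
  have hlc := hψ.lap_sph.1.continuous
  have hround : Integrable fun x : ℂ => 2 * ψ x / (1 + ‖x‖ ^ 2) ^ 2 := by
    refine ibp_integrable_of_le' (C := 2 * K) ?_ (by positivity) fun x => ?_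
    · exact ((continuous_const.mul hψc).div (by fun_prop) fun x => by positivity).aestronglyMeasurable
    · rw [abs_div, abs_mul, abs_two, abs_of_nonneg (by positivity : (0:ℝ) ≤ (1 + ‖x‖ ^ 2) ^ 2)]
      exact div_le_div_of_nonneg_right (by have := hK x; linarith) (by positivity)
  -- identity for δ > 0
  have hid : ∀ δ : ℝ, 0 < δ → ∫ x, (logR δ (x - y) - logR 1 x) * lap ψ x =
      (∫ u : ℂ, ψ (y + δ • u) * (2 / (1 + ‖u‖ ^ 2) ^ 2)) -
        ∫ x, 2 * ψ x / (1 + ‖x‖ ^ 2) ^ 2 := by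
    intro δ hδ
    rw [green_symm (logg_sph hδ y) hψ]
    have e1 : ∀ x, lap (fun x => logR δ (x - y) - logR 1 x) x =
        2 * δ ^ 2 / (‖x - y‖ ^ 2 + δ ^ 2) ^ 2 - 2 / (1 + ‖x‖ ^ 2) ^ 2 := by
      intro x
      have c1 : ContDiffAt ℝ 2 (fun x => logR δ (x - y)) x :=
        (((logR_contDiff hδ).comp (contDiff_id.sub contDiff_const)).of_le sph_two_le).contDiffAt
      have c2 : ContDiffAt ℝ 2 (logR 1) x :=
        ((logR_contDiff one_pos).of_le sph_two_le).contDiffAt
      have := c1.laplacian_sub c2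
      have h2 : lap (fun x => logR δ (x - y) - logR 1 x) x =
        lap (fun x => logR δ (x - y)) x - lap (logR 1) x := this
      rw [h2, logR_lap one_pos]
      have h3 := log_reg_lap y x hδ
      have h4 : lap (fun x => logR δ (x - y)) x = 2 * δ ^ 2 / (‖x - y‖ ^ 2 + δ ^ 2) ^ 2 := h3
      rw [h4]
      congr 1
      rw [one_pow, mul_one, add_comm]
    have i1 : Integrable fun x : ℂ => ψ x * (2 * δ ^ 2 / (‖x - y‖ ^ 2 + δ ^ 2) ^ 2) := by
      have hb : Integrable fun x : ℂ => 2 * δ ^ 2 / (‖x - y‖ ^ 2 + δ ^ 2) ^ 2 := by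
        have hb0 : Integrable fun x : ℂ => 2 * δ ^ 2 / (‖x‖ ^ 2 + δ ^ 2) ^ 2 := by
          have hs : Integrable fun x : ℂ => 2 * δ ^ 2 / (δ ^ 4) * (1 / (1 + ‖δ⁻¹ • x‖ ^ 2) ^ 2) := by
            have h0 : Integrable fun x : ℂ => (1 : ℝ) / (1 + ‖x‖ ^ 2) ^ 2 := by
              refine ibp_integrable_of_le' (C := 1) ?_ (by norm_num) fun x => ?_
              · refine Continuous.aestronglyMeasurable ?_
                exact continuous_const.div (by fun_prop) fun x => by positivity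
              · rw [abs_of_nonneg (by positivity)]
            exact (h0.comp_smul (inv_ne_zero hδ.ne')).const_mul _
          refine hs.congr (Eventually.of_forall fun x => ?_)
          simp only
          rw [norm_smul, norm_inv, Real.norm_eq_abs, abs_of_pos hδ]
          field_simp
          ring
        exact hb0.comp_sub_right y
      refine (hb.bdd_mul (c := K) hψc.aestronglyMeasurable (Eventually.of_forall fun x => ?_))
      rw [Real.norm_eq_abs]; exact hK x
    have e2 : ∀ x, ψ x * lap (fun x => logR δ (x - y) - logR 1 x) x =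
        ψ x * (2 * δ ^ 2 / (‖x - y‖ ^ 2 + δ ^ 2) ^ 2) - 2 * ψ x / (1 + ‖x‖ ^ 2) ^ 2 := by
      intro x; rw [e1 x]; ring
    simp_rw [e2]
    rw [integral_sub i1 hround]
    congr 1
    -- change of variables
    have h3 := Measure.integral_comp_smul (volume : Measure ℂ)
      (fun w : ℂ => ψ (y + w) * (2 * δ ^ 2 / (‖w‖ ^ 2 + δ ^ 2) ^ 2)) δ
    rw [Complex.finrank_real_complex, abs_of_pos (by positivity)] at h3
    have h4 : ∫ w : ℂ, ψ (y + w) * (2 * δ ^ 2 / (‖w‖ ^ 2 + δ ^ 2) ^ 2) =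
        ∫ x : ℂ, ψ x * (2 * δ ^ 2 / (‖x - y‖ ^ 2 + δ ^ 2) ^ 2) := by
      have := integral_add_left_eq_self (μ := (volume : Measure ℂ))
        (fun x : ℂ => ψ x * (2 * δ ^ 2 / (‖x - y‖ ^ 2 + δ ^ 2) ^ 2)) y
      rw [← this]
      congr 1; ext w
      rw [add_sub_cancel_left]
    rw [← h4]
    have h5 : ∫ w : ℂ, ψ (y + w) * (2 * δ ^ 2 / (‖w‖ ^ 2 + δ ^ 2) ^ 2) =
        δ ^ 2 * ∫ u : ℂ, ψ (y + δ • u) * (2 * δ ^ 2 / (‖δ • u‖ ^ 2 + δ ^ 2) ^ 2) := by
      rw [h3, smul_eq_mul, ← mul_assoc, mul_inv_cancel₀ (by positivity), one_mul]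
    rw [h5, ← integral_const_mul]
    congr 1; ext u
    rw [norm_smul, Real.norm_eq_abs, abs_of_pos hδ]
    field_simp
    ring
  -- limits
  have hL : Tendsto (fun δ : ℝ => ∫ x, (logR δ (x - y) - logR 1 x) * lap ψ x) (𝓝[>] 0)
      (𝓝 (∫ x, (Real.log ‖x - y‖ - logR 1 x) * lap ψ x)) := by
    refine tendsto_integral_filter_of_dominated_convergence
      (fun x => C * (loggDom y x + (3 + ‖y‖) * (1 + ‖x‖) / (1 + ‖x‖ ^ 2) ^ 2)) ?_ ?_ ?_ ?_
    · filter_upwards [self_mem_nhdsWithin] with δ hδ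
      refine Continuous.aestronglyMeasurable ?_
      exact (logg_sph hδ y).1.continuous.mul hlc
    · have hlt : ∀ᶠ δ : ℝ in 𝓝[>] 0, δ ≤ 1 := by
        have : Iic (1 : ℝ) ∈ 𝓝 (0 : ℝ) := Iic_mem_nhds one_pos
        exact mem_nhdsWithin_of_mem_nhds this
      filter_upwards [self_mem_nhdsWithin, hlt] with δ hδ hδ1
      have hae : ∀ᵐ x : ℂ, x ≠ y := by
        rw [ae_iff]; simp
      filter_upwards [hae] with x hx
      rw [Real.norm_eq_abs, abs_mul]
      have b1 := logg_bound hδ hδ1 (sub_ne_zero.2 hx)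
      have b2 : |logR 1 x| ≤ 1 + ‖x‖ := by
        have := logg_log_one_add x
        simpa [logR] using this
      have b3 : ‖x - y‖ ≤ ‖x‖ + ‖y‖ := norm_sub_le _ _
      have b4 : |logR δ (x - y) - logR 1 x| ≤
          |Real.log ‖x - y‖| + (3 + ‖y‖) * (1 + ‖x‖) := by
        refine (abs_sub _ _).trans ?_
        have := norm_nonneg x
        have := norm_nonneg y
        nlinarith
      calc |logR δ (x - y) - logR 1 x| * |lap ψ x|
          ≤ (|Real.log ‖x - y‖| + (3 + ‖y‖) * (1 + ‖x‖)) * (C / (1 + ‖x‖ ^ 2) ^ 2) :=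
            mul_le_mul b4 (hC x) (abs_nonneg _) (by positivity)
        _ = C * (|Real.log ‖x - y‖| / (1 + ‖x‖ ^ 2) ^ 2 +
              (3 + ‖y‖) * (1 + ‖x‖) / (1 + ‖x‖ ^ 2) ^ 2) := by ring
        _ ≤ _ := by
            refine mul_le_mul_of_nonneg_left ?_ hC0
            have := logg_dom y x
            linarith
    · exact ((loggDom_integrable y).add (logg_lin_integrable _)).const_mul C
    · have hae : ∀ᵐ x : ℂ, x ≠ y := by
        rw [ae_iff]; simp
      filter_upwards [hae] with x hx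
      have hpos : 0 < ‖x - y‖ := norm_pos_iff.2 (sub_ne_zero.2 hx)
      have hc : ContinuousAt (fun δ : ℝ => (logR δ (x - y) - logR 1 x) * lap ψ x) 0 := by
        have : ContinuousAt (fun δ : ℝ => logR δ (x - y)) 0 := by
          unfold logR
          refine continuousAt_const.mul (ContinuousAt.log (by fun_prop) ?_)
          have : 0 < ‖x - y‖ ^ 2 + 0 ^ 2 := by positivity
          exact this.ne'
        exact (this.sub continuousAt_const).mul continuousAt_const
      have h0 : logR 0 (x - y) = Real.log ‖x - y‖ := by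
        unfold logR
        rw [zero_pow (by norm_num), add_zero, Real.log_pow]
        push_cast; ring
      have := hc.tendsto
      rw [h0] at this
      exact this.mono_left nhdsWithin_le_nhds
  have hR : Tendsto (fun δ : ℝ => (∫ u : ℂ, ψ (y + δ • u) * (2 / (1 + ‖u‖ ^ 2) ^ 2)) -
        ∫ x, 2 * ψ x / (1 + ‖x‖ ^ 2) ^ 2) (𝓝[>] 0)
      (𝓝 (2 * π * ψ y - ∫ x, 2 * ψ x / (1 + ‖x‖ ^ 2) ^ 2)) := by
    refine Tendsto.sub_const ?_ _
    have e3 : 2 * π * ψ y = ∫ u : ℂ, ψ y * (2 / (1 + ‖u‖ ^ 2) ^ 2) := by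
      rw [integral_const_mul, logg_integral_round]; ring
    rw [e3]
    have hrd : Integrable fun u : ℂ => (2 : ℝ) / (1 + ‖u‖ ^ 2) ^ 2 := by
      refine ibp_integrable_of_le' (C := 2) ?_ (by norm_num) fun x => ?_
      · exact (continuous_const.div (by fun_prop) fun x => by positivity).aestronglyMeasurable
      · rw [abs_of_nonneg (by positivity)]
    refine tendsto_integral_filter_of_dominated_convergence
      (fun u => K * (2 / (1 + ‖u‖ ^ 2) ^ 2)) ?_ ?_ (hrd.const_mul K) ?_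
    · refine Eventually.of_forall fun δ => Continuous.aestronglyMeasurable ?_
      refine (hψc.comp (by fun_prop)).mul ?_
      exact continuous_const.div (by fun_prop) fun x => by positivity
    · refine Eventually.of_forall fun δ => Eventually.of_forall fun u => ?_
      rw [norm_mul, Real.norm_eq_abs, Real.norm_eq_abs,
        abs_of_nonneg (by positivity : (0 : ℝ) ≤ 2 / (1 + ‖u‖ ^ 2) ^ 2)]
      exact mul_le_mul_of_nonneg_right (hK _) (by positivity)
    · refine Eventually.of_forall fun u => ?_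
      have hc : ContinuousAt (fun δ : ℝ => ψ (y + δ • u) * (2 / (1 + ‖u‖ ^ 2) ^ 2)) 0 := by
        refine ContinuousAt.mul ?_ continuousAt_const
        exact (hψc.comp (by fun_prop : Continuous fun δ : ℝ => y + δ • u)).continuousAt
      have := hc.tendsto
      simp only [zero_smul, add_zero] at this
      exact this.mono_left nhdsWithin_le_nhds
  refine tendsto_nhds_unique hL (hR.congr' ?_)
  filter_upwards [self_mem_nhdsWithin] with δ hδ
  exact (hid δ hδ).symm

theorem logg_log_mul_integrable (hψ : SphSmooth ψ) (y : ℂ) :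
    Integrable fun x => Real.log ‖x - y‖ * lap ψ x := by
  obtain ⟨C, hC0, hC⟩ := hψ.lap_le
  refine ((loggDom_integrable y).const_mul C).mono' ?_ (Eventually.of_forall fun x => ?_)
  · refine AEStronglyMeasurable.mul ?_ hψ.lap_sph.1.continuous.aestronglyMeasurable
    exact (Real.measurable_log.comp (by fun_prop : Measurable fun x : ℂ => ‖x - y‖)).aestronglyMeasurable
  · rw [Real.norm_eq_abs, abs_mul]
    calc |Real.log ‖x - y‖| * |lap ψ x| ≤ |Real.log ‖x - y‖| * (C / (1 + ‖x‖ ^ 2) ^ 2) :=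
          mul_le_mul_of_nonneg_left (hC x) (abs_nonneg _)
      _ = C * (|Real.log ‖x - y‖| / (1 + ‖x‖ ^ 2) ^ 2) := by ring
      _ ≤ _ := mul_le_mul_of_nonneg_left (logg_dom y x) hC0

theorem logg_logR_mul_integrable (hψ : SphSmooth ψ) :
    Integrable fun x => logR 1 x * lap ψ x := by
  obtain ⟨C, hC0, hC⟩ := hψ.lap_le
  refine (logg_lin_integrable C).mono' ?_ (Eventually.of_forall fun x => ?_)
  · exact ((logR_contDiff one_pos).continuous.mul hψ.lap_sph.1.continuous).aestronglyMeasurable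
  · rw [Real.norm_eq_abs, abs_mul]
    have b2 : |logR 1 x| ≤ 1 + ‖x‖ := by
      have := logg_log_one_add x
      simpa [logR] using this
    calc |logR 1 x| * |lap ψ x| ≤ (1 + ‖x‖) * (C / (1 + ‖x‖ ^ 2) ^ 2) :=
          mul_le_mul b2 (hC x) (abs_nonneg _) (by positivity)
      _ = _ := by ring

theorem logg_log_chord {x y : ℂ} (hxy : x ≠ y) :
    Real.log (chord x y) = Real.log ‖x - y‖ - logR 1 x - logR 1 y := by
  have hpos : 0 < ‖x - y‖ := norm_pos_iff.2 (sub_ne_zero.2 hxy)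
  have h1 : ∀ x : ℂ, logR 1 x = Real.log (√(1 + ‖x‖ ^ 2)) := by
    intro x
    unfold logR
    rw [Real.log_sqrt (by positivity), one_pow, add_comm]; ring
  unfold chord
  rw [Real.log_div hpos.ne' (by positivity), Real.log_mul (by positivity) (by positivity),
    ← h1, ← h1]
  ring

/-- Green's function of the round sphere is `-(1/2π) log chord`. -/
theorem log_chord_green (hψ : SphSmooth ψ) (y : ℂ) :
    Integrable (fun x => Real.log (chord x y) * lap ψ x) ∧
    ∫ x, Real.log (chord x y) * lap ψ x =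
      2 * π * ψ y - ∫ x, 2 * ψ x / (1 + ‖x‖ ^ 2) ^ 2 := by
  have hae : ∀ᵐ x : ℂ, x ≠ y := by
    rw [ae_iff]; simp
  have e : (fun x => Real.log (chord x y) * lap ψ x) =ᵐ[volume]
      fun x => (Real.log ‖x - y‖ * lap ψ x - logR 1 x * lap ψ x) - logR 1 y * lap ψ x := by
    filter_upwards [hae] with x hx
    rw [logg_log_chord hx]; ring
  have i1 := logg_log_mul_integrable hψ y
  have i2 := logg_logR_mul_integrable hψ
  have i3 : Integrable fun x => logR 1 y * lap ψ x := by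
    obtain ⟨C, hC0, hC⟩ := hψ.lap_le
    exact (ibp_integrable_of_le' hψ.lap_sph.1.continuous.aestronglyMeasurable hC0 hC).const_mul _
  refine ⟨((i1.sub i2).sub i3).congr e.symm, ?_⟩
  have i12 : Integrable fun x => Real.log ‖x - y‖ * lap ψ x - logR 1 x * lap ψ x := i1.sub i2
  rw [integral_congr_ae e, integral_sub i12 i3, integral_const_mul, integral_lap hψ, mul_zero,
    sub_zero, ← logg_main hψ y]
  congr 1; ext x; ring

/-- Green's identity against a compactly supported function -/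
theorem green_compact {F : ℂ → ℝ} (hF : ContDiff ℝ ∞ F) (hη : ContDiff ℝ ∞ η)
    (hc : HasCompactSupport η) : ∫ x, F x * lap η x = ∫ x, η x * lap F x := by
  have hone : ∀ v : ℂ, (∫ x, F x * fderiv ℝ (fun y => fderiv ℝ η y v) x v =
      ∫ x, η x * fderiv ℝ (fun y => fderiv ℝ F y v) x v) ∧
      Integrable (fun x => F x * fderiv ℝ (fun y => fderiv ℝ η y v) x v) ∧
      Integrable (fun x => η x * fderiv ℝ (fun y => fderiv ℝ F y v) x v) := by
    intro v
    have hdF : ContDiff ℝ ∞ fun y => fderiv ℝ F y v :=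
      (hF.fderiv_right (m := ∞) (by norm_num)).clm_apply contDiff_const
    have hdη : ContDiff ℝ ∞ fun y => fderiv ℝ η y v :=
      (hη.fderiv_right (m := ∞) (by norm_num)).clm_apply contDiff_const
    have hddF : Continuous fun x => fderiv ℝ (fun y => fderiv ℝ F y v) x v :=
      ((hdF.fderiv_right (m := ∞) (by norm_num)).clm_apply contDiff_const).continuous
    have hddη : Continuous fun x => fderiv ℝ (fun y => fderiv ℝ η y v) x v :=
      ((hdη.fderiv_right (m := ∞) (by norm_num)).clm_apply contDiff_const).continuous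
    have cη : HasCompactSupport fun y => fderiv ℝ η y v := hc.fderiv_apply ℝ v
    have cηη : HasCompactSupport fun x => fderiv ℝ (fun y => fderiv ℝ η y v) x v :=
      cη.fderiv_apply ℝ v
    have j1 : Integrable (fun x => F x * fderiv ℝ (fun y => fderiv ℝ η y v) x v) :=
      (hF.continuous.mul hddη).integrable_of_hasCompactSupport cηη.mul_left
    have j2 : Integrable (fun x => fderiv ℝ F x v * fderiv ℝ η x v) :=
      (hdF.continuous.mul hdη.continuous).integrable_of_hasCompactSupport cη.mul_left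
    have j3 : Integrable (fun x => F x * fderiv ℝ η x v) :=
      (hF.continuous.mul hdη.continuous).integrable_of_hasCompactSupport cη.mul_left
    have j4 : Integrable (fun x => fderiv ℝ (fun y => fderiv ℝ F y v) x v * η x) :=
      (hddF.mul hη.continuous).integrable_of_hasCompactSupport hc.mul_left
    have j5 : Integrable (fun x => fderiv ℝ F x v * η x) :=
      (hdF.continuous.mul hη.continuous).integrable_of_hasCompactSupport hc.mul_left
    have dF : Differentiable ℝ F := hF.differentiable (by norm_num)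
    have dη : Differentiable ℝ η := hη.differentiable (by norm_num)
    have ddF : Differentiable ℝ fun y => fderiv ℝ F y v := hdF.differentiable (by norm_num)
    have ddη : Differentiable ℝ fun y => fderiv ℝ η y v := hdη.differentiable (by norm_num)
    have k1 := integral_mul_fderiv_eq_neg_fderiv_mul_of_integrable (μ := (volume : Measure ℂ))
      (v := v) j2 j1 j3 (fun x _ => dF x) (fun x _ => ddη x)
    have k2 := integral_mul_fderiv_eq_neg_fderiv_mul_of_integrable (μ := (volume : Measure ℂ))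
      (v := v) j4 j2 j5 (fun x _ => ddF x) (fun x _ => dη x)
    refine ⟨?_, j1, ?_⟩
    · rw [k1, k2, neg_neg]
      congr 1; ext x; ring
    · exact j4.congr (Eventually.of_forall fun x => mul_comm _ _)
  have e1 : ∀ x, F x * lap η x = F x * fderiv ℝ (fun y => fderiv ℝ η y 1) x 1 +
      F x * fderiv ℝ (fun y => fderiv ℝ η y Complex.I) x Complex.I := fun x => by
    rw [lap_eq_dir (hη.of_le sph_two_le) x]; ring
  have e2 : ∀ x, η x * lap F x = η x * fderiv ℝ (fun y => fderiv ℝ F y 1) x 1 +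
      η x * fderiv ℝ (fun y => fderiv ℝ F y Complex.I) x Complex.I := fun x => by
    rw [lap_eq_dir (hF.of_le sph_two_le) x]; ring
  simp_rw [e1, e2]
  rw [integral_add (hone 1).2.1 (hone Complex.I).2.1, (hone 1).1, (hone Complex.I).1,
    integral_add (hone 1).2.2 (hone Complex.I).2.2]

theorem log_green_compact (hη : ContDiff ℝ ∞ η) (hc : HasCompactSupport η) (x : ℂ) :
    ∫ y, Real.log ‖x - y‖ * lap η y = 2 * π * η x := by
  have hs := SphSmooth.of_compact hη hc
  have h1 := logg_main hs x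
  have e1 : ∀ y, (Real.log ‖y - x‖ - logR 1 y) * lap η y =
      Real.log ‖y - x‖ * lap η y - logR 1 y * lap η y := fun y => by ring
  simp_rw [e1] at h1
  rw [integral_sub (logg_log_mul_integrable hs x) (logg_logR_mul_integrable hs)] at h1
  have h2 := green_compact (logR_contDiff one_pos) hη hc
  have h3 : ∫ y, η y * lap (logR 1) y = ∫ y, 2 * η y / (1 + ‖y‖ ^ 2) ^ 2 := by
    congr 1; ext y
    rw [logR_lap one_pos, one_pow, add_comm (‖y‖ ^ 2)]; ring
  rw [h3] at h2
  have h4 : ∫ y, Real.log ‖x - y‖ * lap η y = ∫ y, Real.log ‖y - x‖ * lap η y := by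
    congr 1; ext y; rw [norm_sub_rev]
  rw [h4]
  linarith

end

end LQZ
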