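import Pool.Agent.LQZ.IBP
import Pool.Agent.LQZ.LogGreen

/-! # Project LQZ, module CURV: Gauss-Bonnet -/

open MeasureTheory Set Filter Topology InnerProductSpace
open scoped ContDiff ENNReal NNReal Real

namespace LQZ

noncomputable section

theorem curv_aux {σ₀ : ℂ → ℝ} (hσ : SmoothMetric σ₀) :
    SphSmooth fun x => σ₀ x + 2 * logR 1 x := by
  obtain ⟨h1, σ', h2, h3⟩ := hσ
  refine sph_mk (g₀ := fun w => σ' w + Real.log (1 + ‖w‖ ^ 2))
    (h1.add (contDiff_const.mul (logR_contDiff one_pos))) ?_ ?_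
  · have h4 : ContDiffAt ℝ ∞ (fun w : ℂ => 1 + ‖w‖ ^ 2) 0 :=
      (contDiff_const.add (contDiff_norm_sq ℝ)).contDiffAt
    exact h2.contDiffAt.add (h4.log (by simp))
  · filter_upwards [self_mem_nhdsWithin] with w hw0
    have hw : w ≠ 0 := hw0
    have hwn : 0 < ‖w‖ := norm_pos_iff.2 hw
    rw [h3 w hw]
    have e2 : ‖w⁻¹‖ ^ 2 + 1 ^ 2 = (1 + ‖w‖ ^ 2) / ‖w‖ ^ 2 := by
      rw [norm_inv]; field_simp
    unfold logR
    rw [e2, Real.log_div (by positivity) (by positivity), Real.log_pow]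
    push_cast
    ring

theorem curv_lap {σ₀ : ℂ → ℝ} (hσ : SmoothMetric σ₀) (x : ℂ) :
    curvDens σ₀ x = 4 / (1 + ‖x‖ ^ 2) ^ 2 - lap (fun x => σ₀ x + 2 * logR 1 x) x := by
  have c1 : ContDiffAt ℝ 2 σ₀ x := (hσ.1.of_le sph_two_le).contDiffAt
  have c2 : ContDiffAt ℝ 2 (logR 1) x := ((logR_contDiff one_pos).of_le sph_two_le).contDiffAt
  have c3 : ContDiffAt ℝ 2 (fun x => 2 * logR 1 x) x := contDiffAt_const.mul c2
  have h1 : lap (fun x => σ₀ x + 2 * logR 1 x) x = lap σ₀ x + lap (fun x => 2 * logR 1 x) x :=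
    c1.laplacian_add c3
  have h2 : lap (fun x => 2 * logR 1 x) x = 2 * lap (logR 1) x := laplacian_smul (2 : ℝ) c2
  rw [h1, h2, logR_lap one_pos]
  unfold curvDens
  rw [one_pow, add_comm (‖x‖ ^ 2)]
  ring

theorem curvDens_le {σ₀ : ℂ → ℝ} (hσ : SmoothMetric σ₀) : Continuous (curvDens σ₀) ∧
    ∃ C : ℝ, 0 ≤ C ∧ ∀ x, |curvDens σ₀ x| ≤ C / (1 + ‖x‖ ^ 2) ^ 2 := by
  obtain ⟨C, hC0, hC⟩ := (curv_aux hσ).lap_le
  have e : curvDens σ₀ = fun x => 4 / (1 + ‖x‖ ^ 2) ^ 2 - lap (fun x => σ₀ x + 2 * logR 1 x) x :=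
    funext fun x => curv_lap hσ x
  refine ⟨?_, 4 + C, by positivity, fun x => ?_⟩
  · rw [e]
    refine Continuous.sub ?_ (curv_aux hσ).lap_sph.1.continuous
    exact continuous_const.div (by fun_prop) fun x => by positivity
  · rw [curv_lap hσ x, add_div]
    refine (abs_sub _ _).trans (add_le_add ?_ (hC x))
    rw [abs_of_nonneg (by positivity)]

theorem integral_curvDens {σ₀ : ℂ → ℝ} (hσ : SmoothMetric σ₀) :
    Integrable (curvDens σ₀) ∧ ∫ x, curvDens σ₀ x = 4 * π := by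
  obtain ⟨hc, C, hC0, hC⟩ := curvDens_le hσ
  refine ⟨ibp_integrable_of_le' hc.aestronglyMeasurable hC0 hC, ?_⟩
  have hrd : Integrable fun u : ℂ => (4 : ℝ) / (1 + ‖u‖ ^ 2) ^ 2 := by
    refine ibp_integrable_of_le' (C := 4) ?_ (by norm_num) fun x => ?_
    · exact (continuous_const.div (by fun_prop) fun x => by positivity).aestronglyMeasurable
    · rw [abs_of_nonneg (by positivity)]
  obtain ⟨C', hC0', hC'⟩ := (curv_aux hσ).lap_le
  have hl : Integrable (lap fun x => σ₀ x + 2 * logR 1 x) :=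
    ibp_integrable_of_le' (curv_aux hσ).lap_sph.1.continuous.aestronglyMeasurable hC0' hC'
  have e : ∫ x, curvDens σ₀ x =
      ∫ x : ℂ, (4 / (1 + ‖x‖ ^ 2) ^ 2 - lap (fun x => σ₀ x + 2 * logR 1 x) x) :=
    integral_congr_ae (Eventually.of_forall fun x => curv_lap hσ x)
  rw [e, integral_sub hrd hl, integral_lap (curv_aux hσ), sub_zero]
  have e2 : ∀ x : ℂ, (4 : ℝ) / (1 + ‖x‖ ^ 2) ^ 2 = 2 * (2 / (1 + ‖x‖ ^ 2) ^ 2) := fun x => by ring
  simp_rw [e2]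
  rw [integral_const_mul, logg_integral_round]
  ring

end

end LQZ
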