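import Mathlib

/-!
# Project LQZ (MP_e66c58_pr): definitions

The spectral zeta function of the square-subdivision regularised Liouville quantum gravity sphere.
-/

open MeasureTheory Set Filter Topology InnerProductSpace ProbabilityTheory
open scoped ContDiff ENNReal NNReal

namespace LQZ

noncomputable section

/-! ## The Riemann sphere in the chart `ℂ`

Functions on the sphere `ℂ ∪ {∞}` are represented by their restriction to `ℂ`; the second chart is
`w = 1 / z`. -/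

/-- The flat Laplacian `∂²/∂x² + ∂²/∂y²` of a function on the plane (Mathlib's Laplacian). -/
abbrev lap (ψ : ℂ → ℝ) : ℂ → ℝ := Laplacian.laplacian ψ

/-- `ψ` is (the restriction to `ℂ` of) a smooth real function on the Riemann sphere: it is smooth
on `ℂ` and `w ↦ ψ (1 / w)` extends to a smooth function near `w = 0`. -/
def SphSmooth (ψ : ℂ → ℝ) : Prop :=
  ContDiff ℝ ∞ ψ ∧ ∃ ψ' : ℂ → ℝ, ContDiff ℝ ∞ ψ' ∧ ∀ w : ℂ, w ≠ 0 → ψ' w = ψ w⁻¹

/-- `e^{2σ}|dz|²` is a smooth Riemannian metric on the Riemann sphere: `σ` is smooth on `ℂ`, and in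
the chart `w = 1 / z`, where the metric is `e^{2(σ(1/w) - 2 log|w|)}|dw|²`, the exponent extends
smoothly to `w = 0`. -/
def SmoothMetric (σ : ℂ → ℝ) : Prop :=
  ContDiff ℝ ∞ σ ∧
    ∃ σ' : ℂ → ℝ, ContDiff ℝ ∞ σ' ∧ ∀ w : ℂ, w ≠ 0 → σ' w = σ w⁻¹ - 2 * Real.log ‖w‖

/-- The closed unit square `[0,1]²`. -/
def unitSquare : Set ℂ := {z | 0 ≤ z.re ∧ z.re ≤ 1 ∧ 0 ≤ z.im ∧ z.im ≤ 1}

/-- The background metric of the problem: a smooth metric `g₀ = e^{2σ₀}|dz|²` on the sphere with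
`σ₀ = 0` near the unit square. -/
def BaseMetric (σ₀ : ℂ → ℝ) : Prop :=
  SmoothMetric σ₀ ∧ ∀ᶠ z in 𝓝ˢ unitSquare, σ₀ z = 0

/-- The area measure of the metric `e^{2φ}|dz|²` (the point `∞` has no mass). -/
def vol (φ : ℂ → ℝ) : Measure ℂ :=
  volume.withDensity fun z => ENNReal.ofReal (Real.exp (2 * φ z))

/-- The Laplace-Beltrami operator `Δ_g ψ = -e^{-2φ} Δ ψ ≥ 0` of the metric `g = e^{2φ}|dz|²`,
applied to a smooth function `ψ`. -/
def lapG (φ ψ : ℂ → ℝ) (x : ℂ) : ℝ := -(Real.exp (-(2 * φ x)) * lap ψ x)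

/-! ## The spectrum of the metric `g = e^{2φ}|dz|²` -/

/-- The eigenspace of the Laplace-Beltrami operator `Δ_g` of `g = e^{2φ}|dz|²` for the eigenvalue
`lam`: the functions `u ∈ L²(g)` with `Δ_g u = lam * u` weakly, that is
`∫ u (Δ_g ψ) dVol_g = lam ∫ u ψ dVol_g` for all smooth functions `ψ` on the sphere. -/
def eigenspace (φ : ℂ → ℝ) (lam : ℝ) : Submodule ℝ (Lp ℝ 2 (vol φ)) where
  carrier := {u | ∀ ψ : ℂ → ℝ, SphSmooth ψ →
    Integrable (fun x => u x * lapG φ ψ x) (vol φ) ∧ Integrable (fun x => u x * ψ x) (vol φ) ∧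
      ∫ x, u x * lapG φ ψ x ∂(vol φ) = lam * ∫ x, u x * ψ x ∂(vol φ)}
  add_mem' := by
    intro u v hu hv ψ hψ
    obtain ⟨hu1, hu2, hu3⟩ := hu ψ hψ
    obtain ⟨hv1, hv2, hv3⟩ := hv ψ hψ
    have key := Lp.coeFn_add u v
    have e1 : (fun x => (u + v : Lp ℝ 2 (vol φ)) x * lapG φ ψ x) =ᵐ[vol φ]
        fun x => u x * lapG φ ψ x + v x * lapG φ ψ x := by
      filter_upwards [key] with x hx
      rw [hx, Pi.add_apply]; ring
    have e2 : (fun x => (u + v : Lp ℝ 2 (vol φ)) x * ψ x) =ᵐ[vol φ]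
        fun x => u x * ψ x + v x * ψ x := by
      filter_upwards [key] with x hx
      rw [hx, Pi.add_apply]; ring
    refine ⟨(hu1.add hv1).congr e1.symm, (hu2.add hv2).congr e2.symm, ?_⟩
    rw [integral_congr_ae e1, integral_congr_ae e2, integral_add hu1 hv1, integral_add hu2 hv2,
      hu3, hv3]
    ring
  zero_mem' := by
    intro ψ _
    have key : ((0 : Lp ℝ 2 (vol φ)) : ℂ → ℝ) =ᵐ[vol φ] 0 := Lp.coeFn_zero ℝ 2 (vol φ)
    have e1 : (fun x => (0 : Lp ℝ 2 (vol φ)) x * lapG φ ψ x) =ᵐ[vol φ] fun _ => 0 := by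
      filter_upwards [key] with x hx
      rw [hx, Pi.zero_apply, zero_mul]
    have e2 : (fun x => (0 : Lp ℝ 2 (vol φ)) x * ψ x) =ᵐ[vol φ] fun _ => 0 := by
      filter_upwards [key] with x hx
      rw [hx, Pi.zero_apply, zero_mul]
    refine ⟨(integrable_zero _ _ _).congr e1.symm, (integrable_zero _ _ _).congr e2.symm, ?_⟩
    rw [integral_congr_ae e1, integral_congr_ae e2]
    simp
  smul_mem' := by
    intro c u hu ψ hψ
    obtain ⟨hu1, hu2, hu3⟩ := hu ψ hψ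
    have key := Lp.coeFn_smul c u
    have e1 : (fun x => (c • u : Lp ℝ 2 (vol φ)) x * lapG φ ψ x) =ᵐ[vol φ]
        fun x => c * (u x * lapG φ ψ x) := by
      filter_upwards [key] with x hx
      rw [hx, Pi.smul_apply, smul_eq_mul]; ring
    have e2 : (fun x => (c • u : Lp ℝ 2 (vol φ)) x * ψ x) =ᵐ[vol φ]
        fun x => c * (u x * ψ x) := by
      filter_upwards [key] with x hx
      rw [hx, Pi.smul_apply, smul_eq_mul]; ring
    refine ⟨(hu1.const_mul c).congr e1.symm, (hu2.const_mul c).congr e2.symm, ?_⟩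
    rw [integral_congr_ae e1, integral_congr_ae e2, integral_const_mul, integral_const_mul, hu3]
    ring

/-- The spectral zeta function `ζ_g(s) = ∑_{λ > 0} mult(λ) λ^{-s}` (the sum runs over the positive
eigenvalues, each counted with its multiplicity; `s` with `Re s > 1`). -/
def specZeta (φ : ℂ → ℝ) (s : ℂ) : ℂ :=
  ∑' lam : {l : ℝ // 0 < l}, (Module.finrank ℝ (eigenspace φ lam) : ℂ) * ((lam : ℝ) : ℂ) ^ (-s)

/-- The eigenspaces of `Δ_g` describe a nonnegative operator with discrete spectrum on `L²(g)`: the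
total area is finite and positive, there are no negative eigenvalues, the eigenvalue `0` is simple
(constants), all multiplicities are finite, only finitely many eigenvalues lie below any bound,
eigenspaces for different eigenvalues are orthogonal, the eigenspaces span a dense subspace of
`L²(g)`, and the series of `ζ_g(s)` converges absolutely for `Re s > 1`. -/
structure DiscreteSpectrum (φ : ℂ → ℝ) : Prop where
  area_pos : 0 < vol φ univ
  area_fin : vol φ univ < ⊤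
  neg : ∀ lam : ℝ, lam < 0 → eigenspace φ lam = ⊥
  zero : ∀ u : Lp ℝ 2 (vol φ), u ∈ eigenspace φ 0 ↔ ∃ c : ℝ, u =ᵐ[vol φ] fun _ => c
  findim : ∀ lam : ℝ, Module.Finite ℝ (eigenspace φ lam)
  discrete : ∀ b : ℝ, {lam : ℝ | lam ≤ b ∧ eigenspace φ lam ≠ ⊥}.Finite
  orth : ∀ lam lam' : ℝ, lam ≠ lam' → eigenspace φ lam ⟂ eigenspace φ lam'
  dense : (⨆ lam : ℝ, eigenspace φ lam)ᗮ = ⊥
  summable : ∀ s : ℂ, 1 < s.re → Summable fun lam : {l : ℝ // 0 < l} =>
    (Module.finrank ℝ (eigenspace φ lam) : ℂ) * ((lam : ℝ) : ℂ) ^ (-s)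

/-- The spectral zeta function of `e^{2φ}|dz|²` extends analytically from `{Re s > 1}` to a domain
(connected open set) containing a neighbourhood of `0`. -/
def ZetaExtends (φ : ℂ → ℝ) : Prop :=
  ∃ U : Set ℂ, IsOpen U ∧ IsPreconnected U ∧ {s : ℂ | 1 < s.re} ⊆ U ∧ (0 : ℂ) ∈ U ∧
    ∃ F : ℂ → ℂ, AnalyticOnNhd ℂ F U ∧ ∀ s : ℂ, 1 < s.re → F s = specZeta φ s

/-! ## Dyadic squares and the square subdivision -/

/-- A dyadic square `[i 2^{-k}, (i+1) 2^{-k}] × [j 2^{-k}, (j+1) 2^{-k}]` inside `[0,1]²`. -/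
structure Dy where
  k : ℕ
  i : ℕ
  j : ℕ
  hi : i < 2 ^ k
  hj : j < 2 ^ k

/-- The side length `ℓ(S) = 2^{-k}`. -/
def Dy.side (S : Dy) : ℝ := (2 ^ S.k : ℝ)⁻¹

/-- The closed square as a subset of the plane. -/
def Dy.set (S : Dy) : Set ℂ :=
  {z | S.i * S.side ≤ z.re ∧ z.re ≤ (S.i + 1) * S.side ∧
    S.j * S.side ≤ z.im ∧ z.im ≤ (S.j + 1) * S.side}

/-- The four dyadic squares of half the side inside `S`. -/
def Dy.child (S : Dy) (p q : Fin 2) : Dy where
  k := S.k + 1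
  i := 2 * S.i + p
  j := 2 * S.j + q
  hi := by have := S.hi; have := p.isLt; rw [pow_succ]; omega
  hj := by have := S.hj; have := q.isLt; rw [pow_succ]; omega

/-- `A_h(S) = e^{h_S/Q} ℓ(S)`, where `a S` is the average `h_S` of the field over `S`. -/
def Asz (Q : ℝ) (a : Dy → ℝ) (S : Dy) : ℝ := Real.exp (a S / Q) * S.side

/-- The set `𝒫^ε` of dyadic squares `S` with `A_h(S) ≤ ε` and `A_h(S') > ε` for every strictly
larger dyadic square `S' ⊃ S`. -/
def Peps (Q ε : ℝ) (a : Dy → ℝ) : Set Dy :=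
  {S | Asz Q a S ≤ ε ∧ ∀ S' : Dy, S.set ⊂ S'.set → ε < Asz Q a S'}

/-- The square averages of a function (or of a field) are consistent: the average over a square is
the mean of the averages over its four children. -/
def Consistent (a : Dy → ℝ) : Prop :=
  ∀ S : Dy, a S = (a (S.child 0 0) + a (S.child 0 1) + a (S.child 1 0) + a (S.child 1 1)) / 4

/-! ## The conditional expectation `h^𝒫` -/

/-- The density of `K₀ dVol_{g₀}` with respect to Lebesgue measure `dz`, for `g₀ = e^{2σ₀}|dz|²`: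
since `K₀ = -e^{-2σ₀} Δ σ₀` it is `-Δ σ₀`. -/
def curvDens (σ₀ : ℂ → ℝ) (z : ℂ) : ℝ := -lap σ₀ z

/-- `f̃`: the density `f dz` minus the multiple of `K₀ dVol_{g₀}` that gives it total mass `0`. -/
def tilde (σ₀ f : ℂ → ℝ) (z : ℂ) : ℝ :=
  f z - (∫ x, f x) / (∫ x, curvDens σ₀ x) * curvDens σ₀ z

/-- The indicator density of a square (`dVol_{g₀} = dz` near the unit square). -/
def ind (S : Dy) : ℂ → ℝ := S.set.indicator fun _ => 1

/-- `u` has the weak gradient `(p, q)` on the plane. -/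
def HasWeakGrad (u p q : ℂ → ℝ) : Prop :=
  ∀ ψ : ℂ → ℝ, ContDiff ℝ ∞ ψ → HasCompactSupport ψ →
    ∫ x, u x * fderiv ℝ ψ x 1 = -∫ x, p x * ψ x ∧
    ∫ x, u x * fderiv ℝ ψ x Complex.I = -∫ x, q x * ψ x

/-- `u` is in the Sobolev space `H¹` of the sphere, with gradient `(p, q)` (the Dirichlet energy
`∫ (p² + q²) dz` is conformally invariant). -/
structure InH1 (σ₀ u p q : ℂ → ℝ) : Prop where
  memLp : MemLp u 2 (vol σ₀)
  memLp_p : MemLp p 2
  memLp_q : MemLp q 2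
  grad : HasWeakGrad u p q

/-- `u` is a mean-zero `H¹` function with `(u, 1̃_S) = (h, 1̃_S) = ℓ(S)² h_S` for all `S ∈ P`. -/
structure Admissible (σ₀ : ℂ → ℝ) (P : Set Dy) (a : Dy → ℝ) (u p q : ℂ → ℝ) : Prop where
  inH1 : InH1 σ₀ u p q
  mean : ∫ x, u x ∂(vol σ₀) = 0
  constr : ∀ S ∈ P, ∫ x, u x * tilde σ₀ (ind S) x = S.side ^ 2 * a S

/-- `u` has minimal Dirichlet energy among the admissible functions. -/
def IsMinimizer (σ₀ : ℂ → ℝ) (P : Set Dy) (a : Dy → ℝ) (u : ℂ → ℝ) : Prop :=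
  ∃ p q : ℂ → ℝ, Admissible σ₀ P a u p q ∧
    ∀ u' p' q' : ℂ → ℝ, Admissible σ₀ P a u' p' q' →
      ∫ x, (p x ^ 2 + q x ^ 2) ≤ ∫ x, (p' x ^ 2 + q' x ^ 2)

/-- `h` is (a version of) `h^𝒫`: the minimiser plus the constant for which `(h, K₀) = 0`. -/
def IsHP (σ₀ : ℂ → ℝ) (P : Set Dy) (a : Dy → ℝ) (h : ℂ → ℝ) : Prop :=
  (∃ u : ℂ → ℝ, IsMinimizer σ₀ P a u ∧ ∃ c : ℝ, h =ᵐ[volume] fun x => u x + c) ∧
    ∫ x, h x * curvDens σ₀ x = 0

/-- The exponent `φ` of the metric `g = e^{2φ}|dz|² = e^{2(h/Q + C)} g₀` with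
`C = ¼ log n - ¾ log Vol_{e^{2h/Q} g₀}`. -/
def gExp (σ₀ : ℂ → ℝ) (Q : ℝ) (n : ℕ) (h : ℂ → ℝ) (x : ℂ) : ℝ :=
  σ₀ x + h x / Q +
    (1 / 4 * Real.log n - 3 / 4 * Real.log ((vol fun y => σ₀ y + h y / Q) univ).toReal)

/-! ## The Gaussian free field -/

/-- Bounded measurable test functions on the sphere. -/
def IsTest (f : ℂ → ℝ) : Prop := Measurable f ∧ ∃ C : ℝ, ∀ x, |f x| ≤ C

/-- The variance of the GFF on `(ℂ ∪ {∞}, g₀)`, normalised by `∫ h K₀ dVol_{g₀} = 0`, tested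
against `f`: `∬ -log|x - y| f̃(x) f̃(y) dx dy`, where `f̃` is `f dVol_{g₀}` minus the multiple of
`K₀ dVol_{g₀}` that gives it total mass zero. -/
def gffVar (σ₀ f : ℂ → ℝ) : ℝ :=
  ∫ x, ∫ y, -Real.log ‖x - y‖ * (tilde σ₀ (fun z => f z * Real.exp (2 * σ₀ z)) x *
    tilde σ₀ (fun z => f z * Real.exp (2 * σ₀ z)) y)

/-- `X f = ∫ h f dVol_{g₀}` is a Gaussian free field `h` on the sphere with metric
`g₀ = e^{2σ₀}|dz|²`, normalised by `∫ h K₀ dVol_{g₀} = 0`: a linear family of centred Gaussian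
random variables with the variances `gffVar`. -/
structure IsGFF {W : Type*} [MeasurableSpace W] (σ₀ : ℂ → ℝ) (X : (ℂ → ℝ) → W → ℝ)
    (P : Measure W) : Prop where
  add : ∀ f g : ℂ → ℝ, IsTest f → IsTest g → X (fun x => f x + g x) =ᵐ[P] fun o => X f o + X g o
  smul : ∀ (c : ℝ) (f : ℂ → ℝ), IsTest f → X (fun x => c * f x) =ᵐ[P] fun o => c * X f o
  law : ∀ f : ℂ → ℝ, IsTest f → HasLaw (X f) (gaussianReal 0 (gffVar σ₀ f).toNNReal) P

/-- The average `h_S` of the field over the square `S` (`dVol_{g₀} = dz` on the unit square). -/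
def fieldAvg {W : Type*} (X : (ℂ → ℝ) → W → ℝ) (o : W) (S : Dy) : ℝ :=
  X (ind S) o / S.side ^ 2

/-! ## The statement -/

/-- `P` is a partition of the unit square into dyadic squares (with disjoint interiors). -/
def IsPartition (P : Set Dy) : Prop :=
  (⋃ S ∈ P, S.set) = unitSquare ∧ P.Pairwise fun S T => Disjoint (interior S.set) (interior T.set)

/-- The statement for one realisation `a` of the square averages with `𝒫^ε` finite: `𝒫^ε` is a
partition of the unit square, `h^ε = h^{𝒫^ε}` exists and is unique up to null sets, the metric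
`g = e^{2(h^ε/Q + C)} g₀` has discrete spectrum, and `ζ_g` extends analytically to a domain
containing `0`. -/
def Statement (σ₀ : ℂ → ℝ) (Q ε : ℝ) (a : Dy → ℝ) : Prop :=
  IsPartition (Peps Q ε a) ∧
  (∃ h : ℂ → ℝ, IsHP σ₀ (Peps Q ε a) a h ∧
    ∀ h' : ℂ → ℝ, IsHP σ₀ (Peps Q ε a) a h' → h' =ᵐ[volume] h) ∧
  ∀ h : ℂ → ℝ, IsHP σ₀ (Peps Q ε a) a h →
    DiscreteSpectrum (gExp σ₀ Q (Peps Q ε a).ncard h) ∧
      ZetaExtends (gExp σ₀ Q (Peps Q ε a).ncard h)

end

end LQZ
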