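import Pool.Agent.LQZ.Base

/-! # Project LQZ, module GFF: the square averages of the field are consistent -/

open MeasureTheory Set Filter Topology InnerProductSpace ProbabilityTheory
open scoped ENNReal NNReal Real

namespace LQZ

noncomputable section

theorem gff_measSet (S : Dy) : MeasurableSet S.set := by
  unfold Dy.set
  refine MeasurableSet.inter ?_ (MeasurableSet.inter ?_ (MeasurableSet.inter ?_ ?_))
  · exact measurableSet_le measurable_const Complex.measurable_re
  · exact measurableSet_le Complex.measurable_re measurable_const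
  · exact measurableSet_le measurable_const Complex.measurable_im
  · exact measurableSet_le Complex.measurable_im measurable_const

theorem gff_test_ind (S : Dy) : IsTest (ind S) := by
  refine ⟨measurable_const.indicator (gff_measSet S), 1, fun x => ?_⟩
  unfold ind
  by_cases hx : x ∈ S.set
  · rw [indicator_of_mem hx]; simp
  · rw [indicator_of_notMem hx]; simp

theorem gff_side_child (S : Dy) (p q : Fin 2) : (S.child p q).side = S.side / 2 := by
  unfold Dy.side Dy.child
  simp only
  rw [pow_succ]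
  field_simp

theorem gff_side_pos (S : Dy) : 0 < S.side := by unfold Dy.side; positivity

/-- null sets -/
theorem gff_vert (c : ℝ) : ∀ᵐ z : ℂ, z.re ≠ c := by
  have h : volume {z : ℂ | z.re = c} = 0 := by
    have hp := Complex.volume_preserving_equiv_real_prod
    have e : {z : ℂ | z.re = c} = Complex.measurableEquivRealProd ⁻¹' ({c} ×ˢ univ) := by
      ext z; simp [Complex.measurableEquivRealProd]
    rw [e, hp.measure_preimage_emb Complex.measurableEquivRealProd.measurableEmbedding,
      Measure.volume_eq_prod, Measure.prod_prod]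
    simp
  rw [ae_iff]
  simpa using h

theorem gff_horiz (c : ℝ) : ∀ᵐ z : ℂ, z.im ≠ c := by
  have h : volume {z : ℂ | z.im = c} = 0 := by
    have hp := Complex.volume_preserving_equiv_real_prod
    have e : {z : ℂ | z.im = c} = Complex.measurableEquivRealProd ⁻¹' (univ ×ˢ {c}) := by
      ext z; simp [Complex.measurableEquivRealProd]
    rw [e, hp.measure_preimage_emb Complex.measurableEquivRealProd.measurableEmbedding,
      Measure.volume_eq_prod, Measure.prod_prod]
    simp
  rw [ae_iff]
  simpa using h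

private def bx (l r x : ℝ) : ℝ := if l ≤ x ∧ x ≤ r then 1 else 0

private theorem bx_split {l m r x : ℝ} (h1 : l ≤ m) (h2 : m ≤ r) (hx : x ≠ m) :
    bx l r x = bx l m x + bx m r x := by
  unfold bx
  rcases lt_or_gt_of_ne hx with h | h
  · rw [if_neg (show ¬ (m ≤ x ∧ x ≤ r) from fun h' => absurd h'.1 (not_le.2 h)), add_zero]
    by_cases hl : l ≤ x
    · rw [if_pos ⟨hl, by linarith⟩, if_pos ⟨hl, h.le⟩]
    · rw [if_neg fun h' => hl h'.1, if_neg fun h' => hl h'.1]
  · rw [if_neg (show ¬ (l ≤ x ∧ x ≤ m) from fun h' => absurd h'.2 (not_le.2 h)), zero_add]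
    by_cases hr : x ≤ r
    · rw [if_pos ⟨by linarith, hr⟩, if_pos ⟨h.le, hr⟩]
    · rw [if_neg fun h' => hr h'.2, if_neg fun h' => hr h'.2]

private theorem ind_eq_bx (S : Dy) (z : ℂ) : ind S z =
    bx (S.i * S.side) ((S.i + 1) * S.side) z.re * bx (S.j * S.side) ((S.j + 1) * S.side) z.im := by
  unfold ind bx
  by_cases h1 : (S.i : ℝ) * S.side ≤ z.re ∧ z.re ≤ (S.i + 1) * S.side
  · by_cases h2 : (S.j : ℝ) * S.side ≤ z.im ∧ z.im ≤ (S.j + 1) * S.side
    · rw [if_pos h1, if_pos h2, indicator_of_mem]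
      · norm_num
      · exact ⟨h1.1, h1.2, h2.1, h2.2⟩
    · rw [if_neg h2, indicator_of_notMem]
      · norm_num
      · intro h; exact h2 ⟨h.2.2.1, h.2.2.2⟩
  · rw [if_neg h1, indicator_of_notMem]
    · norm_num
    · intro h; exact h1 ⟨h.1, h.2.1⟩

/-- the sum of the indicators of the children is the indicator of the square a.e. -/
theorem gff_ind_sum (S : Dy) : ∀ᵐ z : ℂ, ind S z =
    ind (S.child 0 0) z + ind (S.child 0 1) z + ind (S.child 1 0) z + ind (S.child 1 1) z := by
  have hs := gff_side_pos S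
  filter_upwards [gff_vert ((2 * S.i + 1) * (S.side / 2)), gff_horiz ((2 * S.j + 1) * (S.side / 2))]
    with z hx hy
  simp only [ind_eq_bx, gff_side_child]
  have e1 : (S.i : ℝ) * S.side = (2 * S.i) * (S.side / 2) := by ring
  have e2 : ((S.i : ℝ) + 1) * S.side = (2 * S.i + 2) * (S.side / 2) := by ring
  have e3 : (S.j : ℝ) * S.side = (2 * S.j) * (S.side / 2) := by ring
  have e4 : ((S.j : ℝ) + 1) * S.side = (2 * S.j + 2) * (S.side / 2) := by ring
  have c0 : ∀ p q : Fin 2, ((S.child p q).i : ℝ) = 2 * S.i + (p : ℕ) := fun p q => by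
    simp [Dy.child]
  have c1 : ∀ p q : Fin 2, ((S.child p q).j : ℝ) = 2 * S.j + (q : ℕ) := fun p q => by
    simp [Dy.child]
  simp only [c0, c1, Fin.val_zero, Fin.val_one, Nat.cast_zero, Nat.cast_one, add_zero]
  rw [e1, e2, e3, e4]
  have hs2 : 0 < S.side / 2 := by positivity
  rw [bx_split (m := (2 * S.i + 1) * (S.side / 2)) (by nlinarith) (by nlinarith) hx,
    bx_split (m := (2 * S.j + 1) * (S.side / 2)) (by nlinarith) (by nlinarith) hy]
  have e5 : (2 * (S.i : ℝ) + 1 + 1) = 2 * S.i + 2 := by ring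
  have e6 : (2 * (S.j : ℝ) + 1 + 1) = 2 * S.j + 2 := by ring
  rw [e5, e6]
  ring

/-- test functions vanishing a.e. are not seen by the field -/
theorem gff_null {W : Type*} [MeasurableSpace W] {P : Measure W} [IsProbabilityMeasure P]
    {σ₀ : ℂ → ℝ} {X : (ℂ → ℝ) → W → ℝ} (hX : IsGFF σ₀ X P) {f : ℂ → ℝ} (hf : IsTest f)
    (h0 : f =ᵐ[volume] 0) : X f =ᵐ[P] 0 := by
  have hlaw := hX.law f hf
  have hv : gffVar σ₀ f = 0 := by
    unfold gffVar
    have h1 : (fun z => f z * Real.exp (2 * σ₀ z)) =ᵐ[volume] 0 := by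
      filter_upwards [h0] with z hz
      simp only [Pi.zero_apply] at hz ⊢
      rw [hz, zero_mul]
    have h2 : (∫ z, f z * Real.exp (2 * σ₀ z)) = 0 := by
      rw [integral_congr_ae h1]; simp
    have h3 : ∀ᵐ z : ℂ, tilde σ₀ (fun z => f z * Real.exp (2 * σ₀ z)) z = 0 := by
      filter_upwards [h1] with z hz
      unfold tilde
      simp only [Pi.zero_apply] at hz
      simp only [hz, h2]; simp
    have h4 : ∀ᵐ x : ℂ, (∫ y, -Real.log ‖x - y‖ *
        (tilde σ₀ (fun z => f z * Real.exp (2 * σ₀ z)) x *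
          tilde σ₀ (fun z => f z * Real.exp (2 * σ₀ z)) y)) = 0 := by
      filter_upwards [h3] with x hx
      rw [hx]; simp
    rw [integral_congr_ae h4]; simp
  rw [hv, Real.toNNReal_zero, gaussianReal_zero_var] at hlaw
  have h5 : P.map (X f) = Measure.dirac 0 := hlaw.map_eq
  have h6 : ∀ᵐ t ∂(P.map (X f)), t = 0 := by
    rw [h5, ae_dirac_eq]; simp
  have h7 := ae_of_ae_map hlaw.aemeasurable h6
  filter_upwards [h7] with o ho
  exact ho

theorem gff_consistent {W : Type*} [MeasurableSpace W] {P : Measure W} [IsProbabilityMeasure P]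
    {σ₀ : ℂ → ℝ} {X : (ℂ → ℝ) → W → ℝ} (_hσ : BaseMetric σ₀) (hX : IsGFF σ₀ X P) :
    ∀ᵐ o ∂P, Consistent (fieldAvg X o) := by
  have hcount : Countable Dy := by
    refine Function.Injective.countable (f := fun S : Dy => (S.k, S.i, S.j)) ?_
    intro S T h
    cases S; cases T
    simp only [Prod.mk.injEq] at h
    obtain ⟨rfl, rfl, rfl⟩ := h
    rfl
  have hadd : ∀ {f g : ℂ → ℝ}, IsTest f → IsTest g → IsTest fun x => f x + g x := by
    rintro f g ⟨h1, C, hC⟩ ⟨k1, K, hK⟩
    exact ⟨h1.add k1, C + K, fun x => (abs_add_le _ _).trans (add_le_add (hC x) (hK x))⟩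
  have hone : ∀ S : Dy, ∀ᵐ o ∂P, X (ind S) o = X (ind (S.child 0 0)) o +
      X (ind (S.child 0 1)) o + X (ind (S.child 1 0)) o + X (ind (S.child 1 1)) o := by
    intro S
    set f0 := ind (S.child 0 0)
    set f1 := ind (S.child 0 1)
    set f2 := ind (S.child 1 0)
    set f3 := ind (S.child 1 1)
    have t0 : IsTest f0 := gff_test_ind _
    have t1 : IsTest f1 := gff_test_ind _
    have t2 : IsTest f2 := gff_test_ind _
    have t3 : IsTest f3 := gff_test_ind _
    have t01 := hadd t0 t1
    have t012 := hadd t01 t2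
    have t0123 := hadd t012 t3
    set r : ℂ → ℝ := fun z => ind S z + (-1) * (f0 z + f1 z + f2 z + f3 z) with hr
    have tneg : IsTest fun z => (-1) * (f0 z + f1 z + f2 z + f3 z) := by
      obtain ⟨h1, C, hC⟩ := t0123
      exact ⟨h1.const_mul _, C, fun x => by rw [abs_mul]; simpa using hC x⟩
    have tr : IsTest r := hadd (gff_test_ind S) tneg
    have hr0 : r =ᵐ[volume] 0 := by
      filter_upwards [gff_ind_sum S] with z hz
      simp only [hr, Pi.zero_apply]
      rw [hz]; ring
    have a0 := hX.add f0 f1 t0 t1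
    have a1 := hX.add _ f2 t01 t2
    have a2 := hX.add _ f3 t012 t3
    have a3 := hX.smul (-1) _ t0123
    have a4 := hX.add (ind S) _ (gff_test_ind S) tneg
    have a5 := gff_null hX tr hr0
    filter_upwards [a0, a1, a2, a3, a4, a5] with o b0 b1 b2 b3 b4 b5
    have b5' : X (fun z => ind S z + (-1) * (f0 z + f1 z + f2 z + f3 z)) o = 0 := b5
    rw [b4, b3, b2, b1, b0] at b5'
    linarith
  have hall := ae_all_iff.2 hone
  filter_upwards [hall] with o ho S
  have hs := gff_side_pos S
  simp only [fieldAvg, gff_side_child]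
  rw [ho S]
  field_simp
  ring

end

end LQZ
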