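import Pool.Agent.LQZ.Base

/-!
# Project LQZ, module POT: potentials of squares, chart 0
-/

open MeasureTheory Set Filter Topology InnerProductSpace ProbabilityTheory
open scoped ContDiff ENNReal NNReal Real

namespace LQZ

noncomputable section

/-! ### The squares -/

theorem pot_side_pos (S : Dy) : 0 < S.side := by
  unfold Dy.side
  positivity

theorem pot_set_eq (S : Dy) : S.set = Complex.measurableEquivRealProd ⁻¹'
    (Icc (S.i * S.side) ((S.i + 1) * S.side) ×ˢ Icc (S.j * S.side) ((S.j + 1) * S.side)) := by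
  ext z
  simp only [Dy.set, mem_ofPred_eq, mem_preimage, Complex.measurableEquivRealProd_apply, mem_prod,
    mem_Icc]
  tauto

theorem pot_measurable (S : Dy) : MeasurableSet S.set := by
  rw [pot_set_eq]
  exact Complex.measurableEquivRealProd.measurable (measurableSet_Icc.prod measurableSet_Icc)

theorem pot_volume (S : Dy) : volume S.set = ENNReal.ofReal (S.side ^ 2) := by
  rw [pot_set_eq, Complex.volume_preserving_equiv_real_prod.measure_preimage
    (measurableSet_Icc.prod measurableSet_Icc).nullMeasurableSet, Measure.volume_eq_prod,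
    Measure.prod_prod, Real.volume_Icc, Real.volume_Icc, ← ENNReal.ofReal_mul]
  · congr 1
    ring
  · have := pot_side_pos S
    linarith

theorem pot_volume_real (S : Dy) : volume.real S.set = S.side ^ 2 := by
  rw [measureReal_def, pot_volume, ENNReal.toReal_ofReal (by positivity)]

theorem pot_volume_ne_top (S : Dy) : volume S.set ≠ ⊤ := by
  rw [pot_volume]
  exact ENNReal.ofReal_ne_top

theorem pot_sub_unit (S : Dy) : S.set ⊆ unitSquare := by
  rintro z ⟨h1, h2, h3, h4⟩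
  have hs := pot_side_pos S
  have key : ∀ n : ℕ, n < 2 ^ S.k → ((n : ℝ) + 1) * S.side ≤ 1 := by
    intro n hn
    have h5 : ((n : ℝ) + 1) ≤ 2 ^ S.k := by exact_mod_cast hn
    calc ((n : ℝ) + 1) * S.side ≤ 2 ^ S.k * S.side := mul_le_mul_of_nonneg_right h5 hs.le
      _ = 1 := by
          unfold Dy.side
          exact mul_inv_cancel₀ (by positivity)
  have hi := key S.i S.hi
  have hj := key S.j S.hj
  have hi0 : 0 ≤ (S.i : ℝ) * S.side := by positivity
  have hj0 : 0 ≤ (S.j : ℝ) * S.side := by positivity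
  exact ⟨by linarith, by linarith, by linarith, by linarith⟩

theorem pot_norm_le {S : Dy} {u : ℂ} (hu : u ∈ S.set) : ‖u‖ ≤ 2 := by
  obtain ⟨h1, h2, h3, h4⟩ := pot_sub_unit S hu
  have h5 := Complex.norm_le_abs_re_add_abs_im u
  rw [abs_of_nonneg h1, abs_of_nonneg h3] at h5
  linarith

/-! ### Elementary inequalities -/

private lemma rpow_three_half {x : ℝ} (hx : 0 ≤ x) : x ^ (3 / 2 : ℝ) = √x ^ 3 := by
  rw [Real.sqrt_eq_rpow, ← Real.rpow_natCast, ← Real.rpow_mul hx]
  norm_num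

private lemma rpow_neg_three_half {x : ℝ} (hx : 0 ≤ x) : x ^ (-(3 / 2) : ℝ) = (√x)⁻¹ ^ 3 := by
  rw [Real.rpow_neg hx, rpow_three_half hx, inv_pow]

private lemma neg_log_le {x : ℝ} (hx : 0 < x) : -Real.log x ≤ 2 * (√x)⁻¹ := by
  have h1 : 0 < √x := Real.sqrt_pos.2 hx
  have h2 : Real.log x = 2 * Real.log (√x) := by
    rw [Real.log_sqrt hx.le]
    ring
  have h3 : Real.log ((√x)⁻¹) ≤ (√x)⁻¹ - 1 := Real.log_le_sub_one_of_pos (by positivity)
  rw [Real.log_inv] at h3
  rw [h2]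
  linarith

/-- `|log|1+q| - Re q| ≤ 8 |q|^{3/2} (1 + |1+q|^{-1/2})` -/
theorem pot_log_ineq {q : ℂ} (hq : 1 + q ≠ 0) :
    |Real.log ‖1 + q‖ - q.re| ≤ 8 * √‖q‖ ^ 3 * (1 + (√‖1 + q‖)⁻¹) := by
  set t := √‖q‖ with ht
  have ht0 : 0 ≤ t := Real.sqrt_nonneg _
  have htq : ‖q‖ = t ^ 2 := (Real.sq_sqrt (norm_nonneg q)).symm
  have hn : 0 < ‖1 + q‖ := norm_pos_iff.2 hq
  have hi : 0 < (√‖1 + q‖)⁻¹ := inv_pos.2 (Real.sqrt_pos.2 hn)
  rcases le_or_gt ‖q‖ (1 / 2) with h | h
  · have h1 : ‖Complex.log (1 + q) - q‖ ≤ ‖q‖ ^ 2 * (1 - ‖q‖)⁻¹ / 2 :=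
      Complex.norm_log_one_add_sub_self_le (by linarith)
    have h2 : (1 - ‖q‖)⁻¹ ≤ 2 := by
      rw [inv_le_comm₀ (by linarith) (by norm_num)]
      linarith
    have h3 : |Real.log ‖1 + q‖ - q.re| ≤ ‖Complex.log (1 + q) - q‖ := by
      have h4 : Real.log ‖1 + q‖ - q.re = (Complex.log (1 + q) - q).re := by
        rw [Complex.sub_re, Complex.log_re]
      rw [h4]
      exact Complex.abs_re_le_norm _
    have h5 : ‖q‖ ^ 2 * (1 - ‖q‖)⁻¹ / 2 ≤ ‖q‖ ^ 2 := by
      have := mul_le_mul_of_nonneg_left h2 (sq_nonneg ‖q‖)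
      linarith
    have h6 : ‖q‖ ^ 2 ≤ t ^ 3 := by
      rw [htq]
      have h7 : t ≤ 1 := by
        rw [htq] at h
        nlinarith
      have h8 : 0 ≤ t ^ 3 := by positivity
      nlinarith
    have h9 : t ^ 3 ≤ 8 * t ^ 3 * (1 + (√‖1 + q‖)⁻¹) := by
      have h8 : 0 ≤ t ^ 3 := by positivity
      nlinarith [mul_nonneg h8 hi.le]
    linarith
  · rw [htq] at h
    have h0 : 0.7 < t := by nlinarith
    have h1 : t ^ 2 ≤ 2 * t ^ 3 := by nlinarith [mul_nonneg ht0 ht0, sq_nonneg t]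
    have h2 : 1 ≤ 4 * t ^ 3 := by nlinarith [mul_nonneg ht0 ht0, sq_nonneg t]
    have h3 : |q.re| ≤ 2 * t ^ 3 := by
      have := Complex.abs_re_le_norm q
      rw [htq] at this
      linarith
    have h4 : Real.log ‖1 + q‖ ≤ 2 * t ^ 3 := by
      have h5 := Real.log_le_sub_one_of_pos hn
      have h6 : ‖1 + q‖ ≤ 1 + ‖q‖ := by
        have := norm_add_le (1 : ℂ) q
        rwa [norm_one] at this
      rw [htq] at h6
      linarith
    have h5 : -Real.log ‖1 + q‖ ≤ 8 * t ^ 3 * (√‖1 + q‖)⁻¹ := by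
      have h6 := neg_log_le hn
      nlinarith [mul_le_mul_of_nonneg_right h2 hi.le]
    have h6 := abs_le.1 h3
    have h8 : 0 ≤ t ^ 3 := by positivity
    have h9 := mul_nonneg h8 hi.le
    rw [abs_le]
    constructor
    · nlinarith [h6.1, h6.2]
    · nlinarith [h6.1, h6.2]

private lemma pot_young {b d : ℝ} (hb : 0 ≤ b) (hd : 0 ≤ d) : b ^ 2 * d ≤ b ^ 3 + d ^ 3 := by
  rcases le_total b d with h | h
  · nlinarith [mul_nonneg (mul_nonneg hb hb) hb, mul_nonneg (mul_nonneg hd hd) (sub_nonneg.2 h),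
      mul_nonneg (mul_nonneg hb hd) (sub_nonneg.2 h), mul_nonneg hd (sub_nonneg.2 h),
      mul_nonneg hb (sub_nonneg.2 h), pow_le_pow_left₀ hb h 2,
      mul_le_mul_of_nonneg_right (pow_le_pow_left₀ hb h 2) hd]
  · have h1 : b ^ 2 * d ≤ b ^ 2 * b := mul_le_mul_of_nonneg_left h (by positivity)
    have h2 : 0 ≤ d ^ 3 := by positivity
    nlinarith

/-- the pointwise estimate behind the Taylor expansion -/
theorem pot_pointwise {x y u : ℂ} (hy : y - u ≠ 0) (hx : x - u ≠ 0) :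
    |Real.log ‖u - x‖ - Real.log ‖u - y‖ - ((y - u)⁻¹ * (x - y)).re| ≤
      ‖x - y‖ ^ (3 / 2 : ℝ) * (16 * ‖y - u‖ ^ (-(3 / 2) : ℝ) + 8 * ‖x - u‖ ^ (-(3 / 2) : ℝ)) := by
  set q : ℂ := (y - u)⁻¹ * (x - y) with hq
  have h1q : 1 + q = (y - u)⁻¹ * (x - u) := by
    rw [hq]
    field_simp
    ring
  have hne : 1 + q ≠ 0 := by
    rw [h1q]
    exact mul_ne_zero (inv_ne_zero hy) hx
  have hny : 0 < ‖y - u‖ := norm_pos_iff.2 hy
  have hnx : 0 < ‖x - u‖ := norm_pos_iff.2 hx
  have hlog : Real.log ‖u - x‖ - Real.log ‖u - y‖ = Real.log ‖1 + q‖ := by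
    rw [h1q, norm_mul, norm_inv, Real.log_mul (by positivity) (by positivity), Real.log_inv,
      norm_sub_rev u x, norm_sub_rev u y]
    ring
  rw [hlog]
  refine (pot_log_ineq hne).trans ?_
  rw [rpow_three_half (norm_nonneg _), rpow_neg_three_half (norm_nonneg _),
    rpow_neg_three_half (norm_nonneg _)]
  have e1 : √‖q‖ = (√‖y - u‖)⁻¹ * √‖x - y‖ := by
    rw [hq, norm_mul, norm_inv, Real.sqrt_mul (by positivity), Real.sqrt_inv]
  have e2 : (√‖1 + q‖)⁻¹ = √‖y - u‖ * (√‖x - u‖)⁻¹ := by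
    rw [h1q, norm_mul, norm_inv, Real.sqrt_mul (by positivity), Real.sqrt_inv, mul_inv, inv_inv]
  rw [e1, e2]
  set A := √‖x - y‖ with hA
  set b := (√‖y - u‖)⁻¹ with hb
  set d := (√‖x - u‖)⁻¹ with hd
  have hA0 : 0 ≤ A := Real.sqrt_nonneg _
  have hb0 : 0 < b := inv_pos.2 (Real.sqrt_pos.2 hny)
  have hd0 : 0 < d := inv_pos.2 (Real.sqrt_pos.2 hnx)
  have hbb : √‖y - u‖ = b⁻¹ := by rw [hb, inv_inv]
  rw [hbb]
  have h2 : 8 * (b * A) ^ 3 * (1 + b⁻¹ * d) = A ^ 3 * (8 * b ^ 3 + 8 * (b ^ 2 * d)) := by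
    field_simp
  rw [h2]
  apply mul_le_mul_of_nonneg_left _ (by positivity)
  have := pot_young hb0.le hd0.le
  linarith

/-! ### Uniform integrability of `|y-u|^{-3/2}` -/

private def gsing : ℂ → ℝ := (Metric.ball (0 : ℂ) 1).indicator fun w => ‖w‖ ^ (-(3 / 2) : ℝ)

private lemma gsing_nonneg (w : ℂ) : 0 ≤ gsing w :=
  indicator_nonneg (fun _ _ => by positivity) w

private lemma gsing_int : Integrable gsing := by
  rw [gsing, integrable_indicator_iff measurableSet_ball]
  refine integrableOn_ball_of_norm_le_rpow (C := 1) (α := 3 / 2) ?_ ?_ ?_ ?_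
  · rw [Complex.finrank_real_complex]
    norm_num
  · rw [Complex.finrank_real_complex]
    norm_num
  · refine Filter.Eventually.of_forall fun x => ?_
    rw [Real.norm_of_nonneg (by positivity), one_mul]
  · exact (measurable_norm.pow_const _).aestronglyMeasurable

private lemma le_gsing (w : ℂ) : ‖w‖ ^ (-(3 / 2) : ℝ) ≤ gsing w + 1 := by
  by_cases h : w ∈ Metric.ball (0 : ℂ) 1
  · rw [gsing, indicator_of_mem h]
    linarith
  · rw [gsing, indicator_of_notMem h, zero_add]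
    have h1 : 1 ≤ ‖w‖ := by simpa using h
    exact Real.rpow_le_one_of_one_le_of_nonpos h1 (by norm_num)

/-- the uniform bound of `∫_S |y-u|^{-3/2} du` -/
theorem pot_sing (S : Dy) : ∃ C : ℝ, 0 ≤ C ∧ ∀ y : ℂ,
    IntegrableOn (fun u => ‖y - u‖ ^ (-(3 / 2) : ℝ)) S.set ∧
    ∫ u in S.set, ‖y - u‖ ^ (-(3 / 2) : ℝ) ≤ C := by
  refine ⟨(∫ w, gsing w) + S.side ^ 2, ?_, fun y => ?_⟩
  · have h0 : 0 ≤ ∫ w, gsing w := integral_nonneg (fun w => gsing_nonneg w)
    positivity
  · have hi1 : Integrable (fun u => gsing (y - u)) := gsing_int.comp_sub_left y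
    have hi2 : IntegrableOn (fun _ : ℂ => (1 : ℝ)) S.set := integrableOn_const (pot_volume_ne_top S)
    have hi3 : IntegrableOn (fun u => gsing (y - u) + 1) S.set := hi1.integrableOn.add hi2
    have hi4 : IntegrableOn (fun u => ‖y - u‖ ^ (-(3 / 2) : ℝ)) S.set := by
      apply hi3.mono'
      · exact ((measurable_const.sub measurable_id).norm.pow_const _).aestronglyMeasurable
      · refine Filter.Eventually.of_forall fun u => ?_
        rw [Real.norm_of_nonneg (by positivity)]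
        exact le_gsing (y - u)
    refine ⟨hi4, ?_⟩
    calc ∫ u in S.set, ‖y - u‖ ^ (-(3 / 2) : ℝ) ≤ ∫ u in S.set, (gsing (y - u) + 1) :=
          integral_mono hi4 hi3 (fun u => le_gsing (y - u))
      _ = (∫ u in S.set, gsing (y - u)) + ∫ u in S.set, (1 : ℝ) :=
          integral_add hi1.integrableOn hi2
      _ ≤ (∫ w, gsing w) + S.side ^ 2 := by
          apply add_le_add
          · calc ∫ u in S.set, gsing (y - u) ≤ ∫ u, gsing (y - u) :=
                  setIntegral_le_integral hi1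
                    (Filter.Eventually.of_forall fun u => gsing_nonneg _)
              _ = ∫ w, gsing w := integral_sub_left_eq_self gsing volume y
          · rw [setIntegral_const, pot_volume_real]
            simp

private lemma inv_le_sing {t : ℝ} (ht : 0 ≤ t) : t⁻¹ ≤ 1 + t ^ (-(3 / 2) : ℝ) := by
  rcases le_or_gt 1 t with h | h
  · have h1 : t⁻¹ ≤ 1 := inv_le_one_of_one_le₀ h
    have h2 : 0 ≤ t ^ (-(3 / 2) : ℝ) := by positivity
    linarith
  · rcases ht.eq_or_lt with h0 | h0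
    · rw [← h0, inv_zero]
      positivity
    · have h1 : t⁻¹ = t ^ (-(1 : ℝ)) := by rw [Real.rpow_neg_one]
      rw [h1]
      have h2 : t ^ (-(1 : ℝ)) ≤ t ^ (-(3 / 2) : ℝ) :=
        Real.rpow_le_rpow_of_exponent_ge h0 h.le (by norm_num)
      linarith

private lemma sqrt_inv_le_sing {t : ℝ} (ht : 0 ≤ t) : (√t)⁻¹ ≤ 1 + t ^ (-(3 / 2) : ℝ) := by
  rcases le_or_gt 1 t with h | h
  · have h1 : (√t)⁻¹ ≤ 1 := inv_le_one_of_one_le₀ (Real.one_le_sqrt.2 h)
    have h2 : 0 ≤ t ^ (-(3 / 2) : ℝ) := by positivity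
    linarith
  · rcases ht.eq_or_lt with h0 | h0
    · rw [← h0, Real.sqrt_zero, inv_zero]
      positivity
    · have h1 : (√t)⁻¹ = t ^ (-(1 / 2) : ℝ) := by rw [Real.rpow_neg ht, Real.sqrt_eq_rpow]
      rw [h1]
      have h2 : t ^ (-(1 / 2) : ℝ) ≤ t ^ (-(3 / 2) : ℝ) :=
        Real.rpow_le_rpow_of_exponent_ge h0 h.le (by norm_num)
      linarith

theorem pot_inv_integrable (S : Dy) (y : ℂ) : IntegrableOn (fun u => (y - u)⁻¹) S.set := by
  obtain ⟨C, -, hC⟩ := pot_sing S
  have hi2 : IntegrableOn (fun _ : ℂ => (1 : ℝ)) S.set := integrableOn_const (pot_volume_ne_top S)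
  refine (hi2.add (hC y).1).mono' ?_ ?_
  · exact (measurable_const.sub measurable_id).inv.aestronglyMeasurable
  · refine Filter.Eventually.of_forall fun u => ?_
    rw [norm_inv]
    exact inv_le_sing (norm_nonneg _)

theorem pot_log_integrable (S : Dy) (y : ℂ) :
    IntegrableOn (fun u => Real.log ‖u - y‖) S.set := by
  obtain ⟨C, -, hC⟩ := pot_sing S
  have hi2 : IntegrableOn (fun _ : ℂ => (4 + ‖y‖ : ℝ)) S.set :=
    integrableOn_const (pot_volume_ne_top S)
  refine (hi2.add ((hC y).1.const_mul 2)).mono' ?_ ?_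
  · exact (Real.measurable_log.comp (measurable_id.sub measurable_const).norm).aestronglyMeasurable
  · filter_upwards [ae_restrict_mem (pot_measurable S)] with u hu
    have h0 : 0 ≤ ‖y - u‖ ^ (-(3 / 2) : ℝ) := by positivity
    have h1 : ‖u - y‖ ≤ 2 + ‖y‖ := by
      have := norm_sub_le u y
      have := pot_norm_le hu
      linarith
    rw [Real.norm_eq_abs, Pi.add_apply]
    rcases (norm_nonneg (u - y)).eq_or_lt with h2 | h2
    · rw [← h2, Real.log_zero, abs_zero]
      positivity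
    · rw [abs_le]
      constructor
      · have h3 := neg_log_le h2
        have h4 := sqrt_inv_le_sing (norm_nonneg (u - y))
        rw [norm_sub_rev u y] at h3 h4 ⊢
        have := norm_nonneg y
        linarith
      · have h3 := Real.log_le_sub_one_of_pos h2
        linarith

/-! ### The statements -/

theorem aS_meas (S : Dy) : Measurable (aS S) := by
  unfold aS
  apply Measurable.const_mul
  have h : StronglyMeasurable (Function.uncurry fun (y u : ℂ) => (y - u)⁻¹) :=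
    (measurable_fst.sub measurable_snd).inv.stronglyMeasurable
  exact (h.integral_prod_right (ν := volume.restrict S.set)).measurable

theorem aS_bdd (S : Dy) : ∃ C : ℝ, 0 ≤ C ∧ ∀ y, ‖aS S y‖ ≤ C := by
  obtain ⟨C, hC0, hC⟩ := pot_sing S
  refine ⟨1 / (2 * π) * (S.side ^ 2 + C), by positivity, fun y => ?_⟩
  have hi2 : IntegrableOn (fun _ : ℂ => (1 : ℝ)) S.set := integrableOn_const (pot_volume_ne_top S)
  unfold aS
  rw [norm_mul]
  have h1 : ‖(-(1 / (2 * π)) : ℂ)‖ = 1 / (2 * π) := by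
    rw [norm_neg, norm_div, norm_mul, norm_one]
    simp [abs_of_pos Real.pi_pos]
  rw [h1]
  apply mul_le_mul_of_nonneg_left _ (by positivity)
  calc ‖∫ x in S.set, (y - x)⁻¹‖ ≤ ∫ x in S.set, ‖(y - x)⁻¹‖ := norm_integral_le_integral_norm _
    _ ≤ ∫ x in S.set, (1 + ‖y - x‖ ^ (-(3 / 2) : ℝ)) := by
        apply integral_mono (pot_inv_integrable S y).norm (hi2.add (hC y).1)
        intro u
        show ‖(y - u)⁻¹‖ ≤ 1 + ‖y - u‖ ^ (-(3 / 2) : ℝ)
        rw [norm_inv]
        exact inv_le_sing (norm_nonneg _)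
    _ = (∫ x in S.set, (1 : ℝ)) + ∫ x in S.set, ‖y - x‖ ^ (-(3 / 2) : ℝ) :=
        integral_add hi2 (hC y).1
    _ ≤ S.side ^ 2 + C := by
        apply add_le_add _ (hC y).2
        rw [setIntegral_const, pot_volume_real]
        simp

/-- from `|log|1+q| - Re q| ≤ C|q|^{3/2}(1 + |1+q|^{-1/2})`, `q = (x-y)/(y-u)` -/
theorem LamS_taylor (S : Dy) : ∃ C : ℝ, ∀ x y,
    |LamS S x - LamS S y - (aS S y * (x - y)).re| ≤ C * ‖x - y‖ ^ (3 / 2 : ℝ) := by
  obtain ⟨C, hC0, hC⟩ := pot_sing S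
  refine ⟨1 / (2 * π) * (24 * C), fun x y => ?_⟩
  have hlx := pot_log_integrable S x
  have hly := pot_log_integrable S y
  have hinv := pot_inv_integrable S y
  have hre : IntegrableOn (fun u => ((y - u)⁻¹ * (x - y)).re) S.set :=
    (hinv.mul_const (x - y)).re
  have e1 : (aS S y * (x - y)).re =
      -(1 / (2 * π)) * ∫ u in S.set, ((y - u)⁻¹ * (x - y)).re := by
    have h1 : aS S y * (x - y) = ((-(1 / (2 * π)) : ℝ) : ℂ) * ∫ u in S.set, (y - u)⁻¹ * (x - y) := by
      unfold aS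
      rw [integral_mul_const]
      push_cast
      ring
    rw [h1, Complex.re_ofReal_mul]
    congr 1
    exact (integral_re (hinv.mul_const (x - y))).symm
  have e2 : LamS S x - LamS S y - (aS S y * (x - y)).re = -(1 / (2 * π)) *
      ∫ u in S.set, (Real.log ‖u - x‖ - Real.log ‖u - y‖ - ((y - u)⁻¹ * (x - y)).re) := by
    have h1 : ∫ u in S.set, (Real.log ‖u - x‖ - Real.log ‖u - y‖ - ((y - u)⁻¹ * (x - y)).re) =
        (∫ u in S.set, Real.log ‖u - x‖) - (∫ u in S.set, Real.log ‖u - y‖) -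
          ∫ u in S.set, ((y - u)⁻¹ * (x - y)).re := by
      rw [← integral_sub hlx hly]
      exact integral_sub (hlx.sub hly) hre
    rw [h1, e1]
    unfold LamS
    ring
  rw [e2, abs_mul, abs_neg, abs_of_pos (by positivity : (0 : ℝ) < 1 / (2 * π)), mul_assoc]
  apply mul_le_mul_of_nonneg_left _ (by positivity)
  have hb1 := (hC y).1.const_mul 16
  have hb2 := (hC x).1.const_mul 8
  have hae : ∀ᵐ u ∂(volume.restrict S.set),
      ‖Real.log ‖u - x‖ - Real.log ‖u - y‖ - ((y - u)⁻¹ * (x - y)).re‖ ≤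
      ‖x - y‖ ^ (3 / 2 : ℝ) * (16 * ‖y - u‖ ^ (-(3 / 2) : ℝ) + 8 * ‖x - u‖ ^ (-(3 / 2) : ℝ)) := by
    have hx : ∀ᵐ u : ℂ, u ≠ x := by
      rw [ae_iff]
      simp
    have hy : ∀ᵐ u : ℂ, u ≠ y := by
      rw [ae_iff]
      simp
    filter_upwards [ae_restrict_of_ae hx, ae_restrict_of_ae hy] with u h1 h2
    exact pot_pointwise (sub_ne_zero.2 (Ne.symm h2)) (sub_ne_zero.2 (Ne.symm h1))
  calc |∫ u in S.set, (Real.log ‖u - x‖ - Real.log ‖u - y‖ - ((y - u)⁻¹ * (x - y)).re)|
      ≤ ∫ u in S.set, ‖x - y‖ ^ (3 / 2 : ℝ) *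
        (16 * ‖y - u‖ ^ (-(3 / 2) : ℝ) + 8 * ‖x - u‖ ^ (-(3 / 2) : ℝ)) :=
        norm_integral_le_of_norm_le ((hb1.add hb2).const_mul _) hae
    _ = ‖x - y‖ ^ (3 / 2 : ℝ) * (16 * (∫ u in S.set, ‖y - u‖ ^ (-(3 / 2) : ℝ)) +
        8 * ∫ u in S.set, ‖x - u‖ ^ (-(3 / 2) : ℝ)) := by
        rw [integral_const_mul, integral_add hb1 hb2, integral_const_mul, integral_const_mul]
    _ ≤ ‖x - y‖ ^ (3 / 2 : ℝ) * (16 * C + 8 * C) := by
        apply mul_le_mul_of_nonneg_left _ (by positivity)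
        have h1 := (hC y).2
        have h2 := (hC x).2
        linarith
    _ = 24 * C * ‖x - y‖ ^ (3 / 2 : ℝ) := by ring

theorem LamS_cont (S : Dy) : Continuous (LamS S) := by
  obtain ⟨C, hC⟩ := LamS_taylor S
  rw [continuous_iff_continuousAt]
  intro y
  have hlim : Tendsto (fun x => LamS S y + (aS S y * (x - y)).re +
      (LamS S x - LamS S y - (aS S y * (x - y)).re)) (𝓝 y) (𝓝 (LamS S y + 0 + 0)) := by
    apply Tendsto.add
    · apply tendsto_const_nhds.add
      have h1 : Continuous fun x : ℂ => (aS S y * (x - y)).re := by fun_prop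
      have h2 := h1.tendsto y
      simpa using h2
    · rw [tendsto_zero_iff_norm_tendsto_zero]
      refine squeeze_zero (fun x => norm_nonneg _) (fun x => hC x y) ?_
      have h1 : Continuous fun x : ℂ => C * ‖x - y‖ ^ (3 / 2 : ℝ) := by
        apply continuous_const.mul
        apply Continuous.rpow_const (by fun_prop)
        intro x
        right
        norm_num
      have h2 := h1.tendsto y
      simpa using h2
  rw [add_zero, add_zero] at hlim
  refine hlim.congr fun x => ?_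
  ring

theorem LamS_growth (S : Dy) : ∃ C : ℝ, ∀ y,
    |LamS S y + S.side ^ 2 / (4 * π) * Real.log (1 + ‖y‖ ^ 2)| ≤ C := by
  -- bounded region
  have hcont : Continuous fun y => LamS S y + S.side ^ 2 / (4 * π) * Real.log (1 + ‖y‖ ^ 2) := by
    apply (LamS_cont S).add
    apply continuous_const.mul
    apply Continuous.log (by fun_prop)
    intro y
    positivity
  obtain ⟨C, hC⟩ := (isCompact_closedBall (0 : ℂ) 4).exists_bound_of_continuousOn
    hcont.continuousOn
  refine ⟨max C (1 / (2 * π) * (2 * S.side ^ 2)), fun y => ?_⟩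
  rcases le_or_gt ‖y‖ 4 with hy | hy
  · exact (hC y (by simpa using hy)).trans (le_max_left _ _)
  refine le_trans ?_ (le_max_right _ _)
  have hconst : IntegrableOn (fun _ : ℂ => 1 / 2 * Real.log (1 + ‖y‖ ^ 2)) S.set :=
    integrableOn_const (pot_volume_ne_top S)
  have e1 : LamS S y + S.side ^ 2 / (4 * π) * Real.log (1 + ‖y‖ ^ 2) =
      -(1 / (2 * π)) * ∫ x in S.set, (Real.log ‖x - y‖ - 1 / 2 * Real.log (1 + ‖y‖ ^ 2)) := by
    rw [integral_sub (pot_log_integrable S y) hconst, setIntegral_const, pot_volume_real]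
    unfold LamS
    rw [smul_eq_mul]
    field_simp
    ring
  rw [e1, abs_mul, abs_neg, abs_of_pos (by positivity : (0 : ℝ) < 1 / (2 * π))]
  apply mul_le_mul_of_nonneg_left _ (by positivity)
  have hb : ∀ x ∈ S.set, ‖Real.log ‖x - y‖ - 1 / 2 * Real.log (1 + ‖y‖ ^ 2)‖ ≤ 2 := by
    intro x hx
    have hxn := pot_norm_le hx
    have hy0 : 0 < ‖y‖ := by linarith
    have h1 : ‖y‖ / 2 ≤ ‖x - y‖ := by
      have := norm_sub_norm_le y x
      rw [norm_sub_rev] at this
      linarith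
    have h2 : ‖x - y‖ ≤ 2 * ‖y‖ := by
      have := norm_sub_le x y
      linarith
    have h3 : 0 < ‖x - y‖ := by linarith
    have h4 : Real.log ‖x - y‖ ≤ Real.log 2 + Real.log ‖y‖ := by
      rw [← Real.log_mul (by norm_num) hy0.ne']
      exact Real.log_le_log h3 h2
    have h5 : Real.log ‖y‖ - Real.log 2 ≤ Real.log ‖x - y‖ := by
      rw [← Real.log_div hy0.ne' (by norm_num)]
      exact Real.log_le_log (by positivity) h1
    have h6 : Real.log (1 + ‖y‖ ^ 2) ≤ Real.log 2 + 2 * Real.log ‖y‖ := by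
      have h7 : 2 * Real.log ‖y‖ = Real.log (‖y‖ ^ 2) := by
        rw [Real.log_pow]
        norm_num
      rw [h7, ← Real.log_mul (by norm_num) (by positivity)]
      apply Real.log_le_log (by positivity)
      nlinarith
    have h8 : 2 * Real.log ‖y‖ ≤ Real.log (1 + ‖y‖ ^ 2) := by
      have h7 : 2 * Real.log ‖y‖ = Real.log (‖y‖ ^ 2) := by
        rw [Real.log_pow]
        norm_num
      rw [h7]
      exact Real.log_le_log (by positivity) (by linarith)
    have h9 : Real.log 2 ≤ 1 := by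
      have := Real.log_le_sub_one_of_pos (by norm_num : (0 : ℝ) < 2)
      linarith
    rw [Real.norm_eq_abs, abs_le]
    constructor <;> linarith
  have := norm_setIntegral_le_of_norm_le_const (pot_volume S ▸ ENNReal.ofReal_lt_top) hb
  rw [pot_volume_real] at this
  exact this

end

end LQZ
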