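import Pool.Agent.LQZ.Base
import Pool.Agent.LQZ.Pot

/-!
# Project LQZ, module POT2: potentials of squares in the chart at infinity
-/

open MeasureTheory Set Filter Topology InnerProductSpace ProbabilityTheory
open scoped ContDiff ENNReal NNReal Real

namespace LQZ

noncomputable section

theorem pot2_norm_le {S : Dy} {u : ℂ} (hu : u ∈ S.set) : ‖u‖ ≤ 1415 / 1000 := by
  obtain ⟨h1, h2, h3, h4⟩ := pot_sub_unit S hu
  have h5 : ‖u‖ ^ 2 = u.re * u.re + u.im * u.im := by
    rw [Complex.sq_norm, Complex.normSq_apply]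
  by_contra h
  push Not at h
  nlinarith [norm_nonneg u]

private lemma den_lower {S : Dy} {u y : ℂ} (hu : u ∈ S.set) {t : ℝ} (hy : ‖y‖ ≤ t) :
    1 - t * (1415 / 1000) ≤ ‖1 - y * u‖ := by
  have h1 := pot2_norm_le hu
  have h2 : ‖y * u‖ ≤ t * (1415 / 1000) := by
    rw [norm_mul]
    exact mul_le_mul hy h1 (norm_nonneg _) ((norm_nonneg y).trans hy)
  have h3 := norm_sub_norm_le (1 : ℂ) (y * u)
  rw [norm_one] at h3
  linarith

private lemma den_upper {S : Dy} {u y : ℂ} (hu : u ∈ S.set) (hy : ‖y‖ ≤ 1 / 2) :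
    ‖1 - y * u‖ ≤ 2 := by
  have h1 := pot2_norm_le hu
  have h2 : ‖y * u‖ ≤ 1 / 2 * (1415 / 1000) := by
    rw [norm_mul]
    exact mul_le_mul hy h1 (norm_nonneg _) (by norm_num)
  have h3 := norm_sub_le (1 : ℂ) (y * u)
  rw [norm_one] at h3
  linarith

private lemma const_int (S : Dy) (c : ℝ) : IntegrableOn (fun _ : ℂ => c) S.set :=
  integrableOn_const (pot_volume_ne_top S)

theorem LamS'_rel (S : Dy) {w : ℂ} (hw : w ≠ 0) :
    LamS' S w = LamS S w⁻¹ - S.side ^ 2 / (2 * π) * Real.log ‖w‖ := by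
  have h1 : ∫ x in S.set, Real.log ‖1 - w * x‖ =
      ∫ x in S.set, (Real.log ‖w‖ + Real.log ‖x - w⁻¹‖) := by
    apply integral_congr_ae
    have hx : ∀ᵐ u : ℂ, u ≠ w⁻¹ := by
      rw [ae_iff]
      simp
    filter_upwards [ae_restrict_of_ae hx] with u hu
    have h2 : 1 - w * u = -(w * (u - w⁻¹)) := by
      field_simp
      ring
    rw [h2, norm_neg, norm_mul, Real.log_mul (norm_ne_zero_iff.2 hw)
      (norm_ne_zero_iff.2 (sub_ne_zero.2 hu))]
  unfold LamS' LamS
  rw [h1, integral_add (const_int S _) (pot_log_integrable S w⁻¹), setIntegral_const,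
    pot_volume_real, smul_eq_mul]
  ring

theorem aS'_rel (S : Dy) {y : ℂ} (hy : y ≠ 0) :
    aS' S y⁻¹ = -(aS S y * y ^ 2) - (S.side ^ 2 / (2 * π) : ℝ) * y := by
  have h1 : ∫ x in S.set, x / (1 - y⁻¹ * x) = ∫ x in S.set, ((y - x)⁻¹ * y ^ 2 - y) := by
    apply integral_congr_ae
    have hx : ∀ᵐ u : ℂ, u ≠ y := by
      rw [ae_iff]
      simp
    filter_upwards [ae_restrict_of_ae hx] with u hu
    have h2 : y - u ≠ 0 := sub_ne_zero.2 (Ne.symm hu)
    have h3 : 1 - y⁻¹ * u = y⁻¹ * (y - u) := by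
      field_simp
    rw [h3]
    field_simp
    ring
  have hc : IntegrableOn (fun _ : ℂ => y) S.set := integrableOn_const (pot_volume_ne_top S)
  unfold aS' aS
  rw [h1, integral_sub ((pot_inv_integrable S y).mul_const (y ^ 2)) hc, setIntegral_const,
    pot_volume_real, integral_mul_const]
  rw [Complex.real_smul]
  push_cast
  ring

private lemma LamS'_small (S : Dy) {w : ℂ} (hw : ‖w‖ ≤ 1 / 4) :
    |LamS' S w| ≤ 1 / (2 * π) * (3 * S.side ^ 2) * ‖w‖ := by
  have hb : ∀ u ∈ S.set, ‖Real.log ‖1 - w * u‖‖ ≤ 3 * ‖w‖ := by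
    intro u hu
    have h1 : ‖-(w * u)‖ ≤ 2 * ‖w‖ := by
      rw [norm_neg, norm_mul, mul_comm]
      exact mul_le_mul_of_nonneg_right (pot_norm_le hu) (norm_nonneg w)
    have h2 : ‖Complex.log (1 + -(w * u))‖ ≤ 3 / 2 * ‖-(w * u)‖ :=
      Complex.norm_log_one_add_half_le_self (by linarith)
    have h3 : Real.log ‖1 - w * u‖ = (Complex.log (1 + -(w * u))).re := by
      rw [Complex.log_re, ← sub_eq_add_neg]
    rw [h3, Real.norm_eq_abs]
    refine (Complex.abs_re_le_norm _).trans ?_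
    linarith
  have h4 := norm_setIntegral_le_of_norm_le_const
    (pot_volume S ▸ ENNReal.ofReal_lt_top : volume S.set < ⊤) hb
  rw [pot_volume_real] at h4
  unfold LamS'
  rw [abs_mul, abs_neg, abs_of_pos (by positivity : (0 : ℝ) < 1 / (2 * π)), mul_assoc]
  apply mul_le_mul_of_nonneg_left _ (by positivity)
  rw [Real.norm_eq_abs] at h4
  linarith

private lemma LamS'_zero (S : Dy) : LamS' S 0 = 0 := by
  have h := LamS'_small S (w := 0) (by simp)
  rw [norm_zero, mul_zero] at h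
  exact abs_eq_zero.1 (le_antisymm h (abs_nonneg _))

theorem LamS'_cont (S : Dy) : Continuous (LamS' S) := by
  rw [continuous_iff_continuousAt]
  intro w
  rcases eq_or_ne w 0 with rfl | hw
  · rw [ContinuousAt, LamS'_zero, tendsto_zero_iff_norm_tendsto_zero]
    have h1 : Tendsto (fun w : ℂ => 1 / (2 * π) * (3 * S.side ^ 2) * ‖w‖) (𝓝 0) (𝓝 0) := by
      have h2 : Continuous fun w : ℂ => 1 / (2 * π) * (3 * S.side ^ 2) * ‖w‖ := by fun_prop
      have h3 := h2.tendsto 0
      simpa using h3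
    refine squeeze_zero' (Filter.Eventually.of_forall fun w => norm_nonneg _) ?_ h1
    filter_upwards [Metric.ball_mem_nhds (0 : ℂ) (by norm_num : (0 : ℝ) < 1 / 4)] with z hz
    apply LamS'_small
    simpa using (mem_ball_zero_iff.1 hz).le
  · have h1 : LamS' S =ᶠ[𝓝 w] fun w => LamS S w⁻¹ - S.side ^ 2 / (2 * π) * Real.log ‖w‖ := by
      filter_upwards [isOpen_ne.mem_nhds hw] with z hz
      exact LamS'_rel S hz
    refine ContinuousAt.congr ?_ h1.symm
    apply ContinuousAt.sub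
    · exact (LamS_cont S).continuousAt.comp (continuousAt_inv₀ hw)
    · exact continuousAt_const.mul (continuous_norm.continuousAt.log (norm_ne_zero_iff.2 hw))

theorem LamS'_growth (S : Dy) : ∃ C : ℝ, ∀ y,
    |LamS' S y + S.side ^ 2 / (4 * π) * Real.log (1 + ‖y‖ ^ 2)| ≤ C := by
  obtain ⟨C, hC⟩ := LamS_growth S
  have hC0 : 0 ≤ C := (abs_nonneg _).trans (hC 0)
  refine ⟨C, fun y => ?_⟩
  rcases eq_or_ne y 0 with rfl | hy
  · rw [LamS'_zero]
    simpa using hC0
  · have hn : 0 < ‖y‖ := norm_pos_iff.2 hy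
    have h1 : Real.log (1 + ‖y⁻¹‖ ^ 2) = Real.log (1 + ‖y‖ ^ 2) - 2 * Real.log ‖y‖ := by
      have h2 : 2 * Real.log ‖y‖ = Real.log (‖y‖ ^ 2) := by
        rw [Real.log_pow]
        norm_num
      rw [h2, ← Real.log_div (by positivity) (by positivity), norm_inv]
      congr 1
      field_simp
      ring
    have h3 : LamS' S y + S.side ^ 2 / (4 * π) * Real.log (1 + ‖y‖ ^ 2) =
        LamS S y⁻¹ + S.side ^ 2 / (4 * π) * Real.log (1 + ‖y⁻¹‖ ^ 2) := by
      rw [LamS'_rel S hy, h1]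
      field_simp
      ring
    rw [h3]
    exact hC y⁻¹

theorem aS'_meas (S : Dy) : Measurable (aS' S) := by
  unfold aS'
  apply Measurable.const_mul
  have h : StronglyMeasurable (Function.uncurry fun (w x : ℂ) => x / (1 - w * x)) :=
    (measurable_snd.div (measurable_const.sub (measurable_fst.mul measurable_snd))).stronglyMeasurable
  exact (h.integral_prod_right (ν := volume.restrict S.set)).measurable

private lemma quot_bound {S : Dy} {u y : ℂ} (hu : u ∈ S.set) (hy : ‖y‖ ≤ 1 / 2) :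
    ‖u / (1 - y * u)‖ ≤ 5 := by
  have h1 := den_lower hu hy
  have h2 := pot2_norm_le hu
  have h3 : 0 < ‖1 - y * u‖ := by
    refine lt_of_lt_of_le ?_ h1
    norm_num
  rw [norm_div, div_le_iff₀ h3]
  norm_num at h1
  linarith

theorem aS'_bdd (S : Dy) : ∃ C : ℝ, 0 ≤ C ∧ ∀ y, ‖y‖ ≤ 1 / 2 → ‖aS' S y‖ ≤ C := by
  refine ⟨1 / (2 * π) * (5 * S.side ^ 2), by positivity, fun y hy => ?_⟩
  unfold aS'
  rw [norm_mul]
  have h1 : ‖(1 / (2 * π) : ℂ)‖ = 1 / (2 * π) := by
    rw [norm_div, norm_mul, norm_one]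
    simp [abs_of_pos Real.pi_pos]
  rw [h1]
  apply mul_le_mul_of_nonneg_left _ (by positivity)
  have h4 := norm_setIntegral_le_of_norm_le_const
    (pot_volume S ▸ ENNReal.ofReal_lt_top : volume S.set < ⊤)
    (fun u hu => quot_bound (y := y) hu hy)
  rw [pot_volume_real] at h4
  exact h4

private lemma log_den_int (S : Dy) {x : ℂ} (hx : ‖x‖ ≤ 7 / 10) :
    IntegrableOn (fun u => Real.log ‖1 - x * u‖) S.set := by
  refine (const_int S 1000).mono' ?_ ?_
  · exact (Real.measurable_log.comp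
      (measurable_const.sub (measurable_const.mul measurable_id)).norm).aestronglyMeasurable
  · filter_upwards [ae_restrict_mem (pot_measurable S)] with u hu
    have h1 := den_lower hu hx
    norm_num at h1
    have h3 : 0 < ‖1 - x * u‖ := by linarith
    have h2 : ‖1 - x * u‖ ≤ 3 := by
      have h4 := pot2_norm_le hu
      have h5 : ‖x * u‖ ≤ 7 / 10 * (1415 / 1000) := by
        rw [norm_mul]
        exact mul_le_mul hx h4 (norm_nonneg _) (by norm_num)
      have h6 := norm_sub_le (1 : ℂ) (x * u)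
      rw [norm_one] at h6
      linarith
    rw [Real.norm_eq_abs, abs_le]
    constructor
    · have h5 := Real.log_le_sub_one_of_pos (inv_pos.2 h3)
      rw [Real.log_inv] at h5
      have h6 : (‖1 - x * u‖)⁻¹ ≤ 1000 := by
        rw [inv_le_comm₀ h3 (by norm_num)]
        linarith
      linarith
    · have h5 := Real.log_le_sub_one_of_pos h3
      linarith

theorem LamS'_taylor (S : Dy) : ∃ C : ℝ, ∀ x y, ‖y‖ ≤ 1 / 2 → ‖x - y‖ ≤ 1 / 5 →
    |LamS' S x - LamS' S y - (aS' S y * (x - y)).re| ≤ C * ‖x - y‖ ^ (3 / 2 : ℝ) := by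
  refine ⟨1 / (2 * π) * (8 * √5 ^ 3 * 16 * S.side ^ 2), fun x y hy hxy => ?_⟩
  have hx : ‖x‖ ≤ 7 / 10 := by
    have h1 := norm_add_le (x - y) y
    rw [sub_add_cancel] at h1
    linarith
  have hy7 : ‖y‖ ≤ 7 / 10 := by linarith
  have hlx := log_den_int S hx
  have hly := log_den_int S hy7
  have hq : IntegrableOn (fun u => u / (1 - y * u) * (x - y)) S.set := by
    refine (const_int S (5 * ‖x - y‖)).mono' ?_ ?_
    · exact ((measurable_id.div (measurable_const.sub
        (measurable_const.mul measurable_id))).mul_const _).aestronglyMeasurable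
    · filter_upwards [ae_restrict_mem (pot_measurable S)] with u hu
      rw [norm_mul]
      exact mul_le_mul_of_nonneg_right (quot_bound hu hy) (norm_nonneg _)
  have hre : IntegrableOn (fun u => (u / (1 - y * u) * (x - y)).re) S.set := hq.re
  have e1 : (aS' S y * (x - y)).re =
      1 / (2 * π) * ∫ u in S.set, (u / (1 - y * u) * (x - y)).re := by
    have h1 : aS' S y * (x - y) = ((1 / (2 * π) : ℝ) : ℂ) *
        ∫ u in S.set, u / (1 - y * u) * (x - y) := by
      unfold aS'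
      rw [integral_mul_const]
      push_cast
      ring
    rw [h1, Complex.re_ofReal_mul]
    congr 1
    exact (integral_re hq).symm
  have e2 : LamS' S x - LamS' S y - (aS' S y * (x - y)).re = -(1 / (2 * π)) *
      ∫ u in S.set, (Real.log ‖1 - x * u‖ - Real.log ‖1 - y * u‖ +
        (u / (1 - y * u) * (x - y)).re) := by
    have h1 : ∫ u in S.set, (Real.log ‖1 - x * u‖ - Real.log ‖1 - y * u‖ +
        (u / (1 - y * u) * (x - y)).re) =
        (∫ u in S.set, Real.log ‖1 - x * u‖) - (∫ u in S.set, Real.log ‖1 - y * u‖) +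
          ∫ u in S.set, (u / (1 - y * u) * (x - y)).re := by
      rw [← integral_sub hlx hly]
      exact integral_add (hlx.sub hly) hre
    rw [h1, e1]
    unfold LamS'
    ring
  rw [e2, abs_mul, abs_neg, abs_of_pos (by positivity : (0 : ℝ) < 1 / (2 * π)), mul_assoc]
  apply mul_le_mul_of_nonneg_left _ (by positivity)
  have hb : ∀ u ∈ S.set, ‖Real.log ‖1 - x * u‖ - Real.log ‖1 - y * u‖ +
      (u / (1 - y * u) * (x - y)).re‖ ≤ 8 * √5 ^ 3 * 16 * ‖x - y‖ ^ (3 / 2 : ℝ) := by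
    intro u hu
    have hdx := den_lower hu hx
    have hdy := den_lower hu hy
    have hdy2 := den_upper hu hy
    norm_num at hdx hdy
    have hx0 : 0 < ‖1 - x * u‖ := by linarith
    have hy0 : 0 < ‖1 - y * u‖ := by linarith
    have hyne : 1 - y * u ≠ 0 := norm_pos_iff.1 hy0
    have hxne : 1 - x * u ≠ 0 := norm_pos_iff.1 hx0
    set q : ℂ := -(u / (1 - y * u) * (x - y)) with hqd
    have h1q : 1 + q = (1 - x * u) / (1 - y * u) := by
      have h0 : u / (1 - y * u) * (1 - y * u) = u := div_mul_cancel₀ _ hyne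
      rw [eq_div_iff hyne, hqd]
      linear_combination -(x - y) * h0
    have hne : 1 + q ≠ 0 := by
      rw [h1q]
      exact div_ne_zero hxne hyne
    have hlog : Real.log ‖1 - x * u‖ - Real.log ‖1 - y * u‖ = Real.log ‖1 + q‖ := by
      rw [h1q, norm_div, Real.log_div hx0.ne' hy0.ne']
    have hqre : (u / (1 - y * u) * (x - y)).re = -q.re := by
      rw [hqd, Complex.neg_re, neg_neg]
    rw [hlog, hqre, ← sub_eq_add_neg, Real.norm_eq_abs]
    refine (pot_log_ineq hne).trans ?_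
    have hqn : ‖q‖ ≤ 5 * ‖x - y‖ := by
      rw [hqd, norm_neg, norm_mul]
      exact mul_le_mul_of_nonneg_right (quot_bound hu hy) (norm_nonneg _)
    have h1 : √‖q‖ ≤ √5 * √‖x - y‖ := by
      rw [← Real.sqrt_mul (by norm_num)]
      exact Real.sqrt_le_sqrt hqn
    have h2 : √‖q‖ ^ 3 ≤ √5 ^ 3 * √‖x - y‖ ^ 3 := by
      rw [← mul_pow]
      exact pow_le_pow_left₀ (Real.sqrt_nonneg _) h1 3
    have h3 : ‖x - y‖ ^ (3 / 2 : ℝ) = √‖x - y‖ ^ 3 := by
      rw [Real.sqrt_eq_rpow, ← Real.rpow_natCast, ← Real.rpow_mul (norm_nonneg _)]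
      norm_num
    have h4 : (√‖1 + q‖)⁻¹ ≤ 15 := by
      have h5 : 1 / 225 ≤ ‖1 + q‖ := by
        rw [h1q, norm_div, le_div_iff₀ hy0]
        linarith
      have h6 : (1 / 15 : ℝ) ≤ √‖1 + q‖ := by
        apply Real.le_sqrt_of_sq_le
        norm_num at h5 ⊢
        exact h5
      rw [inv_le_comm₀ (lt_of_lt_of_le (by norm_num) h6) (by norm_num)]
      norm_num at h6 ⊢
      exact h6
    rw [h3]
    have h7 : 0 ≤ (√‖1 + q‖)⁻¹ := by positivity
    calc 8 * √‖q‖ ^ 3 * (1 + (√‖1 + q‖)⁻¹) ≤ 8 * (√5 ^ 3 * √‖x - y‖ ^ 3) * (1 + 15) := by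
          gcongr
      _ = 8 * √5 ^ 3 * 16 * √‖x - y‖ ^ 3 := by ring
  have h4 := norm_setIntegral_le_of_norm_le_const
    (pot_volume S ▸ ENNReal.ofReal_lt_top : volume S.set < ⊤) hb
  rw [pot_volume_real] at h4
  rw [Real.norm_eq_abs] at h4
  linarith

end

end LQZ
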