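import Pool.Agent.LQZ.Sphere

/-!
# Project LQZ, module SMA: smooth functions, Taylor expansion and circle averages
-/

open MeasureTheory Set Filter Topology InnerProductSpace ProbabilityTheory
open scoped ContDiff ENNReal NNReal Real

namespace LQZ

noncomputable section

variable {φ φ' : ℂ → ℝ}

theorem sma_decomp (v : ℂ) : v = v.re • (1 : ℂ) + v.im • Complex.I := by
  apply Complex.ext <;> simp

theorem sma_clm (L : ℂ →L[ℝ] ℝ) (v : ℂ) : L v = v.re * L 1 + v.im * L Complex.I := by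
  conv_lhs => rw [sma_decomp v]
  rw [map_add, map_smul, map_smul, smul_eq_mul, smul_eq_mul]

theorem sma_cGrad_re (φ : ℂ → ℝ) (y v : ℂ) : (cGrad φ y * v).re = fderiv ℝ φ y v := by
  rw [sma_clm (fderiv ℝ φ y) v]
  simp only [cGrad, Complex.mul_re, Complex.sub_re, Complex.ofReal_re, Complex.I_re,
    Complex.ofReal_im, Complex.I_im, Complex.sub_im, Complex.mul_im]
  ring

theorem sma_cGrad_eq {y g : ℂ} (h : ∀ v : ℂ, fderiv ℝ φ y v = (g * v).re) : cGrad φ y = g := by
  unfold cGrad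
  rw [h 1, h Complex.I]
  apply Complex.ext <;> simp

theorem sma_one_le : (1 : WithTop ℕ∞) ≤ ((⊤ : ℕ∞) : WithTop ℕ∞) := by
  exact_mod_cast le_top

theorem cGrad_cont (hσ : ContDiff ℝ ∞ φ) : Continuous (cGrad φ) := by
  have h := hσ.continuous_fderiv (by simp)
  unfold cGrad
  fun_prop

theorem sma_taylor1 {E : Type*} [NormedAddCommGroup E] [NormedSpace ℝ E] {F : ℂ → E}
    (hF : ContDiff ℝ ∞ F) (R : ℝ) : ∃ C : ℝ, 0 ≤ C ∧ ∀ x y : ℂ, ‖y‖ ≤ R → ‖x - y‖ ≤ 1 / 5 →
      ‖F x - F y - fderiv ℝ F y (x - y)‖ ≤ C * ‖x - y‖ ^ 2 := by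
  have h1 : ContDiff ℝ ∞ (fderiv ℝ F) := hF.fderiv_right (m := ∞) (by simp)
  have h2 : Continuous (fderiv ℝ (fderiv ℝ F)) := h1.continuous_fderiv (by simp)
  have h2' : Continuous fun z => ‖fderiv ℝ (fderiv ℝ F) z‖  :=
    @Continuous.norm _ (ℂ →L[ℝ] ℂ →L[ℝ] E) _ _ _ h2
  obtain ⟨C, hC⟩ := (isCompact_closedBall (0 : ℂ) (R + 1)).exists_bound_of_continuousOn
    h2'.continuousOn
  refine ⟨max C 0, le_max_right _ _, fun x y hy hxy => ?_⟩
  set r := ‖x - y‖ with hr
  have hr0 : 0 ≤ r := norm_nonneg _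
  have hsub : Metric.closedBall y r ⊆ Metric.closedBall (0 : ℂ) (R + 1) := by
    intro z hz
    rw [mem_closedBall_iff_norm] at hz
    rw [mem_closedBall_zero_iff]
    calc ‖z‖ = ‖(z - y) + y‖ := by rw [sub_add_cancel]
      _ ≤ ‖z - y‖ + ‖y‖ := norm_add_le _ _
      _ ≤ R + 1 := by linarith
  have hy' : y ∈ Metric.closedBall y r := Metric.mem_closedBall_self hr0
  have hx' : x ∈ Metric.closedBall y r := by
    rw [mem_closedBall_iff_norm]
  have hd1 : ∀ z ∈ Metric.closedBall y r, ‖fderiv ℝ F z - fderiv ℝ F y‖ ≤ max C 0 * r := by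
    intro z hz
    have h3 := (convex_closedBall y r).norm_image_sub_le_of_norm_fderiv_le (𝕜 := ℝ)
      (f := fderiv ℝ F) (C := max C 0)
      (fun w _ => (h1.differentiable (by simp)) w)
      (fun w hw => ((norm_norm _).symm.le.trans (hC w (hsub hw))).trans (le_max_left _ _)) hy' hz
    refine h3.trans (mul_le_mul_of_nonneg_left ?_ (le_max_right _ _))
    rwa [mem_closedBall_iff_norm] at hz
  have h4 := (convex_closedBall y r).norm_image_sub_le_of_norm_fderiv_le' (𝕜 := ℝ) (f := F)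
    (φ := fderiv ℝ F y) (fun w _ => (hF.differentiable (by simp)) w) hd1 hy' hx'
  calc ‖F x - F y - fderiv ℝ F y (x - y)‖ ≤ max C 0 * r * ‖x - y‖ := h4
    _ = max C 0 * r ^ 2 := by rw [← hr]; ring

theorem smooth_taylor (hσ : ContDiff ℝ ∞ φ) (R : ℝ) : ∃ C : ℝ, ∀ x y, ‖y‖ ≤ R →
    ‖x - y‖ ≤ 1 / 5 → |φ x - φ y - (cGrad φ y * (x - y)).re| ≤ C * ‖x - y‖ ^ (3 / 2 : ℝ) := by
  obtain ⟨C, hC0, hC⟩ := sma_taylor1 hσ R
  refine ⟨C, fun x y hy hxy => ?_⟩
  rw [sma_cGrad_re]
  refine (hC x y hy hxy).trans (mul_le_mul_of_nonneg_left ?_ hC0)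
  rcases (norm_nonneg (x - y)).eq_or_lt with h | h
  · rw [← h]
    rw [Real.zero_rpow (by norm_num)]
    norm_num
  · rw [← Real.rpow_natCast]
    exact Real.rpow_le_rpow_of_exponent_ge h (by linarith) (by norm_num)

theorem sma_taylor2 (hσ : ContDiff ℝ ∞ φ) (R : ℝ) : ∃ C : ℝ, 0 ≤ C ∧ ∀ x y : ℂ, ‖y‖ ≤ R →
    ‖x - y‖ ≤ 1 / 5 →
      |φ x - φ y - fderiv ℝ φ y (x - y) - 1 / 2 * fderiv ℝ (fderiv ℝ φ) y (x - y) (x - y)| ≤
        C * ‖x - y‖ ^ 3 := by
  have h1 : ContDiff ℝ ∞ (fderiv ℝ φ) := hσ.fderiv_right (m := ∞) (by simp)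
  obtain ⟨C, hC0, hC⟩ := sma_taylor1 h1 R
  refine ⟨C, hC0, fun x y hy hxy => ?_⟩
  set r := ‖x - y‖ with hr
  have hr0 : 0 ≤ r := norm_nonneg _
  set B := fderiv ℝ (fderiv ℝ φ) y with hB
  have hsym : ∀ v w : ℂ, B v w = B w v := by
    have : IsSymmSndFDerivAt ℝ φ y := (hσ.contDiffAt (x := y)).isSymmSndFDerivAt
      (by simpa using sph_two_le)
    exact fun v w => this v w
  set H : ℂ → ℝ := fun z => φ z - φ y - fderiv ℝ φ y (z - y) - 1 / 2 * B (z - y) (z - y) with hH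
  have hHd : ∀ z, HasFDerivAt H (fderiv ℝ φ z - fderiv ℝ φ y - B (z - y)) z := by
    intro z
    have e1 : HasFDerivAt φ (fderiv ℝ φ z) z := ((hσ.differentiable (by simp)) z).hasFDerivAt
    have e0 : HasFDerivAt (fun z : ℂ => z - y) (ContinuousLinearMap.id ℝ ℂ) z :=
      (hasFDerivAt_id z).sub_const y
    have e2 : HasFDerivAt (fun z : ℂ => fderiv ℝ φ y (z - y))
        ((fderiv ℝ φ y).comp (ContinuousLinearMap.id ℝ ℂ)) z :=
      (fderiv ℝ φ y).hasFDerivAt.comp z e0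
    have e3 : HasFDerivAt (fun z : ℂ => B (z - y)) (B.comp (ContinuousLinearMap.id ℝ ℂ)) z :=
      B.hasFDerivAt.comp z e0
    have e4 := e3.clm_apply e0
    have e5 := ((e1.sub_const (φ y)).sub e2).sub (e4.const_mul (1 / 2))
    refine e5.congr_fderiv ?_
    refine ContinuousLinearMap.ext fun v => ?_
    have a1 := hsym v z
    have a2 := hsym v y
    simp
    linarith
  have hbd : ∀ z ∈ Metric.closedBall y r, ‖fderiv ℝ H z‖ ≤ C * r ^ 2 := by
    intro z hz
    rw [mem_closedBall_iff_norm] at hz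
    rw [(hHd z).fderiv]
    refine (hC z y hy (hz.trans hxy)).trans (mul_le_mul_of_nonneg_left ?_ hC0)
    exact pow_le_pow_left₀ (norm_nonneg _) hz 2
  have hy' : y ∈ Metric.closedBall y r := Metric.mem_closedBall_self hr0
  have hx' : x ∈ Metric.closedBall y r := by
    rw [mem_closedBall_iff_norm]
  have h4 := (convex_closedBall y r).norm_image_sub_le_of_norm_fderiv_le (𝕜 := ℝ) (f := H)
    (fun w _ => (hHd w).differentiableAt) hbd hy' hx'
  have hHy : H y = 0 := by simp [hH]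
  rw [hHy, sub_zero, Real.norm_eq_abs] at h4
  calc |H x| ≤ C * r ^ 2 * ‖x - y‖ := h4
    _ = C * r ^ 3 := by rw [← hr]; ring

theorem sma_lap (hσ : ContDiff ℝ ∞ φ) (y : ℂ) : lap φ y =
    fderiv ℝ (fderiv ℝ φ) y 1 1 + fderiv ℝ (fderiv ℝ φ) y Complex.I Complex.I := by
  have h1 : ContDiff ℝ ∞ (fderiv ℝ φ) := hσ.fderiv_right (m := ∞) (by simp)
  have hd : DifferentiableAt ℝ (fderiv ℝ φ) y := (h1.differentiable (by simp)) y
  have e : ∀ v w : ℂ, fderiv ℝ (fun z => fderiv ℝ φ z v) y w =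
      fderiv ℝ (fderiv ℝ φ) y w v := by
    intro v w
    have := (hd.hasFDerivAt.clm_apply (hasFDerivAt_const v y)).fderiv
    rw [this]
    simp
  rw [lap_eq_dir (hσ.of_le sph_two_le), e, e]

theorem smooth_avg (hσ : ContDiff ℝ ∞ φ) (R : ℝ) : ∃ C : ℝ, ∀ y r, ‖y‖ ≤ R → 0 < r →
    r ≤ 1 / 5 → |Real.circleAverage φ y r - φ y - r ^ 2 / 4 * lap φ y| ≤ C * r ^ 3 := by
  obtain ⟨C, hC0, hC⟩ := sma_taylor2 hσ R
  refine ⟨C, fun y r hy hr hr5 => ?_⟩
  set B := fderiv ℝ (fderiv ℝ φ) y with hB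
  set L := fderiv ℝ φ y with hL
  have hcm : ∀ θ : ℝ, circleMap y r θ - y = (r * Real.cos θ : ℝ) • (1 : ℂ) +
      (r * Real.sin θ : ℝ) • Complex.I := by
    intro θ
    rw [circleMap, add_sub_cancel_left]
    apply Complex.ext
    · simp only [Complex.mul_re, Complex.ofReal_re, Complex.ofReal_im,
        Complex.exp_ofReal_mul_I_re, Complex.add_re, Complex.smul_re, Complex.one_re,
        Complex.I_re, smul_eq_mul]
      ring
    · simp only [Complex.mul_im, Complex.ofReal_re, Complex.ofReal_im,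
        Complex.exp_ofReal_mul_I_im, Complex.add_im, Complex.smul_im, Complex.one_im,
        Complex.I_im, smul_eq_mul]
      ring
  have hn : ∀ θ : ℝ, ‖circleMap y r θ - y‖ = r := by
    intro θ
    rw [circleMap_sub_center, norm_circleMap_zero, abs_of_pos hr]
  have hLB : ∀ θ : ℝ, L (circleMap y r θ - y) + 1 / 2 * B (circleMap y r θ - y)
      (circleMap y r θ - y) = (r * L 1) * Real.cos θ + (r * L Complex.I) * Real.sin θ +
        ((r ^ 2 / 2 * B 1 1) * Real.cos θ ^ 2 + (r ^ 2 / 2 * B Complex.I Complex.I) *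
          Real.sin θ ^ 2 + (r ^ 2 / 2 * (B 1 Complex.I + B Complex.I 1)) *
          (Real.sin θ * Real.cos θ)) := by
    intro θ
    rw [hcm θ]
    simp only [map_add, map_smul, smul_eq_mul, add_apply, smul_apply]
    ring
  have hint : ∫ θ in (0 : ℝ)..2 * π, (L (circleMap y r θ - y) + 1 / 2 * B (circleMap y r θ - y)
      (circleMap y r θ - y)) = 2 * π * (r ^ 2 / 4 * lap φ y) := by
    simp_rw [hLB]
    have c1 : Continuous fun θ : ℝ => (r * L 1) * Real.cos θ := by fun_prop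
    have c2 : Continuous fun θ : ℝ => (r * L Complex.I) * Real.sin θ := by fun_prop
    have c3 : Continuous fun θ : ℝ => (r ^ 2 / 2 * B 1 1) * Real.cos θ ^ 2 := by fun_prop
    have c4 : Continuous fun θ : ℝ => (r ^ 2 / 2 * B Complex.I Complex.I) * Real.sin θ ^ 2 := by
      fun_prop
    have c5 : Continuous fun θ : ℝ => (r ^ 2 / 2 * (B 1 Complex.I + B Complex.I 1)) *
        (Real.sin θ * Real.cos θ) := by fun_prop
    have e12 := intervalIntegral.integral_add (μ := volume) (c1.intervalIntegrable 0 (2 * π))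
      (c2.intervalIntegrable 0 (2 * π))
    have e34 := intervalIntegral.integral_add (μ := volume) (c3.intervalIntegrable 0 (2 * π))
      (c4.intervalIntegrable 0 (2 * π))
    have e345 := intervalIntegral.integral_add (μ := volume)
      ((c3.add c4).intervalIntegrable 0 (2 * π)) (c5.intervalIntegrable 0 (2 * π))
    have e := intervalIntegral.integral_add (μ := volume)
      ((c1.add c2).intervalIntegrable 0 (2 * π))
      (((c3.add c4).add c5).intervalIntegrable 0 (2 * π))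
    simp only [Pi.add_apply] at e12 e34 e345 e
    rw [e, e12, e345, e34]
    simp only [intervalIntegral.integral_const_mul]
    rw [integral_cos, integral_sin, integral_cos_sq, integral_sin_sq, integral_sin_mul_cos₁,
      sma_lap hσ]
    simp only [Real.sin_two_pi, Real.cos_two_pi, Real.sin_zero, Real.cos_zero]
    ring
  have hcont : Continuous fun θ : ℝ => φ (circleMap y r θ) :=
    hσ.continuous.comp (continuous_circleMap y r)
  have hcont2 : Continuous fun θ : ℝ => (L (circleMap y r θ - y) +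
      1 / 2 * B (circleMap y r θ - y) (circleMap y r θ - y)) := by
    have := continuous_circleMap y r
    fun_prop
  have key : 2 * π * (Real.circleAverage φ y r - φ y - r ^ 2 / 4 * lap φ y) =
      ∫ θ in (0 : ℝ)..2 * π, (φ (circleMap y r θ) - φ y - (L (circleMap y r θ - y) +
        1 / 2 * B (circleMap y r θ - y) (circleMap y r θ - y))) := by
    have e1 := intervalIntegral.integral_sub (μ := volume)
      (((hcont.sub (continuous_const (y := φ y))).intervalIntegrable 0 (2 * π)))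
      (hcont2.intervalIntegrable 0 (2 * π))
    have e2 := intervalIntegral.integral_sub (μ := volume)
      (hcont.intervalIntegrable 0 (2 * π))
      ((continuous_const (y := φ y)).intervalIntegrable 0 (2 * π))
    simp only [Pi.sub_apply] at e1
    rw [e1, e2, hint, intervalIntegral.integral_const, Real.circleAverage_def, smul_eq_mul,
      smul_eq_mul]
    have : (π : ℝ) ≠ 0 := Real.pi_ne_zero
    field_simp
    ring
  have hb : |∫ θ in (0 : ℝ)..2 * π, (φ (circleMap y r θ) - φ y - (L (circleMap y r θ - y) +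
        1 / 2 * B (circleMap y r θ - y) (circleMap y r θ - y)))| ≤
      (C * r ^ 3) * |2 * π - 0| := by
    rw [← Real.norm_eq_abs (∫ θ in (0 : ℝ)..2 * π, _)]
    refine intervalIntegral.norm_integral_le_of_norm_le_const fun θ _ => ?_
    have := hC (circleMap y r θ) y hy (by rw [hn]; exact hr5)
    rw [hn] at this
    rw [Real.norm_eq_abs]
    convert this using 2
    ring
  rw [← key, abs_mul, sub_zero, abs_of_pos Real.two_pi_pos, mul_comm] at hb
  exact le_of_mul_le_mul_right hb Real.two_pi_pos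

theorem sma_log {w : ℂ} (hw : w ≠ 0) :
    HasFDerivAt (fun z : ℂ => Real.log ‖z‖) (Complex.reCLM.comp
      ((ContinuousLinearMap.mul ℝ ℂ) w⁻¹)) w := by
  have h1 : HasFDerivAt (fun z : ℂ => ‖z‖ ^ 2) (2 • (innerSL ℝ w)) w :=
    (hasStrictFDerivAt_norm_sq w).hasFDerivAt
  have h2 := h1.log (by positivity)
  have h3 := h2.const_mul (1 / 2 : ℝ)
  have e : (fun z : ℂ => Real.log ‖z‖) = fun z : ℂ => 1 / 2 * Real.log (‖z‖ ^ 2) := by
    ext z
    rw [Real.log_pow]; push_cast; ring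
  rw [e]
  refine h3.congr_fderiv ?_
  have hn : (‖w‖ ^ 2 : ℝ) = w.re ^ 2 + w.im ^ 2 := by
    rw [← Complex.normSq_eq_norm_sq, Complex.normSq_apply]; ring
  have hne : w.re ^ 2 + w.im ^ 2 ≠ 0 := by rw [← hn]; positivity
  refine ContinuousLinearMap.ext fun v => ?_
  simp only [smul_apply, ContinuousLinearMap.comp_apply,
    ContinuousLinearMap.mul_apply', Complex.reCLM_apply, innerSL_apply_apply, smul_eq_mul,
    Complex.mul_re, Complex.inv_re, Complex.inv_im, Complex.inner, hn, Complex.normSq_apply,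
    Complex.conj_re, Complex.conj_im, nsmul_eq_mul]
  have hne' : w.re * w.re + w.im * w.im ≠ 0 := by
    intro h; apply hne; rw [← h]; ring
  push_cast
  field_simp

theorem cGrad_rel (hφ : ContDiff ℝ ∞ φ) (hφ' : ContDiff ℝ ∞ φ')
    (rel : ∀ w, w ≠ 0 → φ' w = φ w⁻¹ - 2 * Real.log ‖w‖) {y : ℂ} (hy : y ≠ 0) :
    cGrad φ' y⁻¹ = -(cGrad φ y * y ^ 2) - 2 * y := by
  have hw : y⁻¹ ≠ 0 := inv_ne_zero hy
  have e : φ' =ᶠ[𝓝 y⁻¹] fun w => φ w⁻¹ - 2 * Real.log ‖w‖ := by
    filter_upwards [isOpen_ne.mem_nhds hw] with w hw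
    exact rel w hw
  apply sma_cGrad_eq
  intro v
  have hi : HasFDerivAt (fun w : ℂ => w⁻¹)
      ((ContinuousLinearMap.toSpanSingleton ℂ (-(y⁻¹ ^ 2)⁻¹ : ℂ)).restrictScalars ℝ) y⁻¹ :=
    ((hasDerivAt_inv hw).hasFDerivAt).restrictScalars ℝ
  have h1 : HasFDerivAt φ (fderiv ℝ φ y) (y⁻¹)⁻¹ := by
    rw [inv_inv]; exact ((hφ.differentiable (by simp)) y).hasFDerivAt
  have h2 := h1.comp y⁻¹ hi
  have h3 := h2.sub ((sma_log hw).const_mul 2)
  have h4 : HasFDerivAt φ' _ y⁻¹ := h3.congr_of_eventuallyEq e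
  rw [h4.fderiv]
  simp only [sub_apply, ContinuousLinearMap.comp_apply,
    smul_apply, ContinuousLinearMap.coe_restrictScalars',
    ContinuousLinearMap.toSpanSingleton_apply, Complex.reCLM_apply,
    ContinuousLinearMap.mul_apply', smul_eq_mul, inv_inv]
  rw [← sma_cGrad_re φ y]
  have : (cGrad φ y * (v * -(y⁻¹ ^ 2)⁻¹)).re - 2 * (y * v).re =
      ((-(cGrad φ y * y ^ 2) - 2 * y) * v).re := by
    rw [inv_pow, inv_inv]
    have e2 : (-(cGrad φ y * y ^ 2) - 2 * y) * v = cGrad φ y * (v * -(y ^ 2)) - 2 * (y * v) := by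
      ring
    rw [e2, Complex.sub_re]
    congr 1
    simp
  exact this

theorem smoothMetric_grow (hσ : SmoothMetric φ) : IsGrow φ := by
  obtain ⟨h1, φ', h2, h3⟩ := hσ
  refine ⟨h1.continuous, ?_⟩
  have hc : Continuous fun x : ℂ => φ x + Real.log (1 + ‖x‖ ^ 2) := by
    refine h1.continuous.add (Continuous.log (by fun_prop) fun x => by positivity)
  obtain ⟨C1, hC1⟩ := (isCompact_closedBall (0 : ℂ) 1).exists_bound_of_continuousOn
    hc.continuousOn
  obtain ⟨C2, hC2⟩ := (isCompact_closedBall (0 : ℂ) 1).exists_bound_of_continuousOn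
    h2.continuous.continuousOn
  refine ⟨max C1 (C2 + Real.log 2), fun x => ?_⟩
  rcases le_or_gt ‖x‖ 1 with h | h
  · exact (hC1 x (mem_closedBall_zero_iff.2 h)).trans (le_max_left _ _)
  · refine le_trans ?_ (le_max_right _ _)
    have hx : x ≠ 0 := by
      intro h0; rw [h0, norm_zero] at h; linarith
    have hn : 0 < ‖x‖ := by linarith
    have h4 := h3 x⁻¹ (inv_ne_zero hx)
    rw [inv_inv, norm_inv, Real.log_inv] at h4
    have h5 : φ x + Real.log (1 + ‖x‖ ^ 2) = φ' x⁻¹ + Real.log (1 + (‖x‖⁻¹) ^ 2) := by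
      have e : 1 + (‖x‖⁻¹) ^ 2 = (1 + ‖x‖ ^ 2) / ‖x‖ ^ 2 := by field_simp; ring
      rw [e, Real.log_div (by positivity) (by positivity), Real.log_pow, h4]
      push_cast; ring
    rw [h5]
    have h6 : ‖x⁻¹‖ ≤ 1 := by
      rw [norm_inv]; exact inv_le_one_of_one_le₀ h.le
    have h7 := hC2 x⁻¹ (mem_closedBall_zero_iff.2 h6)
    rw [norm_inv] at h6
    rw [Real.norm_eq_abs] at h7
    have h8 : 0 ≤ Real.log (1 + (‖x‖⁻¹) ^ 2) := Real.log_nonneg (by nlinarith [sq_nonneg ‖x‖⁻¹])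
    have h9 : Real.log (1 + (‖x‖⁻¹) ^ 2) ≤ Real.log 2 :=
      Real.log_le_log (by positivity) (by nlinarith [inv_nonneg.2 hn.le])
    refine (abs_add_le _ _).trans ?_
    rw [abs_of_nonneg h8]
    linarith

end

end LQZ
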