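import Pool.Agent.LQZ.WeakGrad
import Pool.Agent.LQZ.Pot2
import Pool.Agent.LQZ.SmoothAvg
import Pool.Agent.LQZ.Curv

/-!
# Project LQZ, module PHI: the functions `Φ_S`
-/

open MeasureTheory Set Filter Topology InnerProductSpace
open scoped ContDiff ENNReal NNReal Real

namespace LQZ

noncomputable section

/-- gradient of `Φ_S` coded by `aS S - (ℓ²/4π) cGrad σ₀` -/
def gPhi (σ₀ : ℂ → ℝ) (S : Dy) (y : ℂ) : ℂ := aS S y - (S.side ^ 2 / (4 * π) : ℝ) * cGrad σ₀ y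

/-- the real linear form `v ↦ Re (g v)` -/
def phiL (g : ℂ) : ℂ →L[ℝ] ℝ := Complex.reCLM.comp ((ContinuousLinearMap.mul ℝ ℂ) g)

theorem phiL_apply (g v : ℂ) : phiL g v = (g * v).re := rfl

theorem phi_LamS_fderiv (S : Dy) (y : ℂ) : HasFDerivAt (LamS S) (phiL (aS S y)) y := by
  obtain ⟨C, hC⟩ := LamS_taylor S
  rw [hasFDerivAt_iff_tendsto]
  have hlim : Tendsto (fun x : ℂ => C * ‖x - y‖ ^ (1 / 2 : ℝ)) (𝓝 y) (𝓝 0) := by
    have hc : Continuous fun x : ℂ => C * ‖x - y‖ ^ (1 / 2 : ℝ) := by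
      refine continuous_const.mul ?_
      exact (continuous_id.sub continuous_const).norm.rpow_const fun x => Or.inr (by norm_num)
    have h := hc.tendsto y
    simpa using h
  refine squeeze_zero (fun x => by positivity) (fun x => ?_) hlim
  have h1 : ‖LamS S x - LamS S y - phiL (aS S y) (x - y)‖ ≤ C * ‖x - y‖ ^ (3 / 2 : ℝ) := hC x y
  have h2 : ‖x - y‖⁻¹ * ‖x - y‖ ^ (3 / 2 : ℝ) ≤ ‖x - y‖ ^ (1 / 2 : ℝ) := by
    rcases (norm_nonneg (x - y)).eq_or_lt with h | h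
    · rw [← h]
      simp
    · refine le_of_eq ?_
      have e : (3 / 2 : ℝ) = 1 + 1 / 2 := by norm_num
      rw [e, Real.rpow_add h, Real.rpow_one, ← mul_assoc, inv_mul_cancel₀ h.ne', one_mul]
  rcases (norm_nonneg (x - y)).eq_or_lt with h | h
  · rw [← h]
    simp
  · have hC0 : 0 ≤ C := by
      by_contra hcon
      push Not at hcon
      have h3 : C * ‖x - y‖ ^ (3 / 2 : ℝ) < 0 := mul_neg_of_neg_of_pos hcon (by positivity)
      exact absurd ((norm_nonneg _).trans h1) (not_le.2 h3)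
    calc ‖x - y‖⁻¹ * ‖LamS S x - LamS S y - phiL (aS S y) (x - y)‖
        ≤ ‖x - y‖⁻¹ * (C * ‖x - y‖ ^ (3 / 2 : ℝ)) :=
          mul_le_mul_of_nonneg_left h1 (by positivity)
      _ = C * (‖x - y‖⁻¹ * ‖x - y‖ ^ (3 / 2 : ℝ)) := by ring
      _ ≤ C * ‖x - y‖ ^ (1 / 2 : ℝ) := mul_le_mul_of_nonneg_left h2 hC0

theorem phi_fderiv {σ₀ : ℂ → ℝ} (hσ : ContDiff ℝ ∞ σ₀) (S : Dy) (y : ℂ) :
    HasFDerivAt (PhiS σ₀ S) (phiL (gPhi σ₀ S y)) y := by
  have h1 : HasFDerivAt σ₀ (fderiv ℝ σ₀ y) y :=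
    (hσ.contDiffAt.differentiableAt (by simp)).hasFDerivAt
  have h2 := (phi_LamS_fderiv S y).sub (h1.const_mul (S.side ^ 2 / (4 * π)))
  refine h2.congr_fderiv ?_
  ext v
  simp only [_root_.sub_apply, _root_.smul_apply, smul_eq_mul, phiL_apply, gPhi]
  rw [← sma_cGrad_re σ₀ y v, sub_mul, Complex.sub_re, mul_assoc, Complex.re_ofReal_mul]

theorem gPhi_meas {σ₀ : ℂ → ℝ} (hσ : ContDiff ℝ ∞ σ₀) (S : Dy) : Measurable (gPhi σ₀ S) :=
  (aS_meas S).sub (measurable_const.mul (cGrad_cont hσ).measurable)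

/-- decay of the gradient -/
theorem gPhi_le {σ₀ : ℂ → ℝ} (hσ : SmoothMetric σ₀) (S : Dy) :
    ∃ C : ℝ, 0 ≤ C ∧ ∀ y, ‖gPhi σ₀ S y‖ ≤ C / (1 + ‖y‖ ^ 2) := by
  obtain ⟨h1, σ', h2, h3⟩ := hσ
  obtain ⟨C1, hC10, hC1⟩ := aS_bdd S
  obtain ⟨C2, hC20, hC2⟩ := aS'_bdd S
  obtain ⟨C3, hC3⟩ := (isCompact_closedBall (0 : ℂ) 2).exists_bound_of_continuousOn
    (cGrad_cont h1).continuousOn
  obtain ⟨C4, hC4⟩ := (isCompact_closedBall (0 : ℂ) 2).exists_bound_of_continuousOn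
    (cGrad_cont h2).continuousOn
  have hC30 : 0 ≤ C3 := (norm_nonneg _).trans (hC3 0 (by simp))
  have hC40 : 0 ≤ C4 := (norm_nonneg _).trans (hC4 0 (by simp))
  have hs : 0 ≤ S.side ^ 2 / (4 * π) := by positivity
  set s : ℝ := S.side ^ 2 / (4 * π) with hsdef
  refine ⟨5 * (C1 + s * C3) + 2 * (C2 + s * C4), by positivity, fun y => ?_⟩
  have hy1 : (0 : ℝ) < 1 + ‖y‖ ^ 2 := by positivity
  rw [le_div_iff₀ hy1]
  rcases le_or_gt ‖y‖ 2 with hy | hy
  · have e1 : ‖gPhi σ₀ S y‖ ≤ C1 + s * C3 := by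
      unfold gPhi
      refine (norm_sub_le _ _).trans (add_le_add (hC1 y) ?_)
      rw [norm_mul, Complex.norm_real, Real.norm_eq_abs, abs_of_nonneg hs]
      exact mul_le_mul_of_nonneg_left (hC3 y (by simpa using hy)) hs
    have e2 : 1 + ‖y‖ ^ 2 ≤ 5 := by nlinarith [norm_nonneg y]
    calc ‖gPhi σ₀ S y‖ * (1 + ‖y‖ ^ 2) ≤ (C1 + s * C3) * 5 :=
          mul_le_mul e1 e2 hy1.le (by positivity)
      _ ≤ 5 * (C1 + s * C3) + 2 * (C2 + s * C4) := by
          have : 0 ≤ 2 * (C2 + s * C4) := by positivity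
          linarith
  · have hy0 : y ≠ 0 := by
      intro h
      rw [h, norm_zero] at hy
      linarith
    have hyi : ‖y⁻¹‖ ≤ 1 / 2 := by
      rw [norm_inv, inv_eq_one_div]
      exact one_div_le_one_div_of_le (by norm_num) hy.le
    have e1 : gPhi σ₀ S y * y ^ 2 = -(aS' S y⁻¹) + (s : ℝ) * cGrad σ' y⁻¹ := by
      rw [aS'_rel S hy0, cGrad_rel h1 h2 h3 hy0]
      unfold gPhi
      have e5 : (S.side ^ 2 / (2 * π) : ℝ) = 2 * s := by rw [hsdef]; ring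
      rw [e5, ← hsdef]
      push_cast
      ring
    have e2 : ‖gPhi σ₀ S y‖ * ‖y‖ ^ 2 ≤ C2 + s * C4 := by
      rw [← norm_pow, ← norm_mul, e1]
      refine (norm_add_le _ _).trans (add_le_add ?_ ?_)
      · rw [norm_neg]
        exact hC2 _ hyi
      · rw [norm_mul, Complex.norm_real, Real.norm_eq_abs, abs_of_nonneg hs]
        refine mul_le_mul_of_nonneg_left (hC4 _ ?_) hs
        rw [mem_closedBall_zero_iff]
        linarith
    have e3 : 1 + ‖y‖ ^ 2 ≤ 2 * ‖y‖ ^ 2 := by nlinarith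
    calc ‖gPhi σ₀ S y‖ * (1 + ‖y‖ ^ 2) ≤ ‖gPhi σ₀ S y‖ * (2 * ‖y‖ ^ 2) :=
          mul_le_mul_of_nonneg_left e3 (norm_nonneg _)
      _ = 2 * (‖gPhi σ₀ S y‖ * ‖y‖ ^ 2) := by ring
      _ ≤ 5 * (C1 + s * C3) + 2 * (C2 + s * C4) := by
          have : 0 ≤ 5 * (C1 + s * C3) := by positivity
          linarith

theorem phi_L2 {F : ℂ → ℝ} (hF : Measurable F) {C : ℝ}
    (hC : ∀ x, |F x| ≤ C / (1 + ‖x‖ ^ 2)) : MemLp F 2 := by
  rw [memLp_two_iff_integrable_sq hF.aestronglyMeasurable]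
  refine Integrable.mono' (integrable_round.const_mul (C ^ 2))
    (hF.pow_const 2).aestronglyMeasurable ?_
  filter_upwards with x
  have hx : (0 : ℝ) < 1 + ‖x‖ ^ 2 := by positivity
  rw [Real.norm_eq_abs, abs_pow]
  calc |F x| ^ 2 ≤ (C / (1 + ‖x‖ ^ 2)) ^ 2 := pow_le_pow_left₀ (abs_nonneg _) (hC x) 2
    _ = C ^ 2 * (1 / (1 + ‖x‖ ^ 2) ^ 2) := by field_simp

theorem phi_cont_bdd {σ₀ : ℂ → ℝ} (hσ : SmoothMetric σ₀) (S : Dy) :
    Continuous (PhiS σ₀ S) ∧ ∃ C : ℝ, ∀ x, |PhiS σ₀ S x| ≤ C := by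
  refine ⟨(LamS_cont S).sub (continuous_const.mul hσ.1.continuous), ?_⟩
  obtain ⟨C1, hC1⟩ := LamS_growth S
  obtain ⟨C2, hC2⟩ := (smoothMetric_grow hσ).growth
  have hs : 0 ≤ S.side ^ 2 / (4 * π) := by positivity
  refine ⟨C1 + S.side ^ 2 / (4 * π) * C2, fun x => ?_⟩
  have e : PhiS σ₀ S x = (LamS S x + S.side ^ 2 / (4 * π) * Real.log (1 + ‖x‖ ^ 2)) -
      S.side ^ 2 / (4 * π) * (σ₀ x + Real.log (1 + ‖x‖ ^ 2)) := by
    unfold PhiS
    ring
  rw [e]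
  refine (abs_sub _ _).trans (add_le_add (hC1 x) ?_)
  rw [abs_mul, abs_of_nonneg hs]
  exact mul_le_mul_of_nonneg_left (hC2 x) hs

theorem PhiS_inH1 {σ₀ : ℂ → ℝ} (hσ : SmoothMetric σ₀) (S : Dy) :
    (Continuous (PhiS σ₀ S) ∧ ∃ C : ℝ, ∀ x, |PhiS σ₀ S x| ≤ C) ∧
    InH1 σ₀ (PhiS σ₀ S) (fun x => (gPhi σ₀ S x).re) (fun x => -(gPhi σ₀ S x).im) := by
  have hcb := phi_cont_bdd hσ S
  obtain ⟨hcont, C0, hC0⟩ := phi_cont_bdd hσ S
  obtain ⟨C, hCn, hC⟩ := gPhi_le hσ S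
  have hfin := (smoothMetric_grow hσ).finite
  have hgm := gPhi_meas hσ.1 S
  have hrm : Measurable fun x => (gPhi σ₀ S x).re := Complex.measurable_re.comp hgm
  have him : Measurable fun x => -(gPhi σ₀ S x).im := (Complex.measurable_im.comp hgm).neg
  have hrb : ∀ x, |(gPhi σ₀ S x).re| ≤ C / (1 + ‖x‖ ^ 2) := fun x =>
    (Complex.abs_re_le_norm _).trans (hC x)
  have hib : ∀ x, |-(gPhi σ₀ S x).im| ≤ C / (1 + ‖x‖ ^ 2) := fun x => by
    rw [abs_neg]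
    exact (Complex.abs_im_le_norm _).trans (hC x)
  have hle : ∀ x : ℂ, C / (1 + ‖x‖ ^ 2) ≤ C := fun x =>
    div_le_self hCn (by nlinarith [norm_nonneg x])
  refine ⟨hcb, ⟨?_, phi_L2 hrm hrb, phi_L2 him hib, ?_⟩⟩
  · exact MemLp.of_bound hcont.aestronglyMeasurable C0 (Eventually.of_forall hC0)
  · intro ψ hψ hc
    have hd : ∀ x, HasFDerivAt (PhiS σ₀ S) (phiL (gPhi σ₀ S x)) x := fun x => phi_fderiv hσ.1 S x
    have hfd : ∀ x v, fderiv ℝ (PhiS σ₀ S) x v = (gPhi σ₀ S x * v).re := fun x v => by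
      rw [(hd x).fderiv, phiL_apply]
    have hψi : Integrable ψ := hψ.continuous.integrable_of_hasCompactSupport hc
    have key : ∀ (v : ℂ) (G : ℂ → ℝ), Measurable G → (∀ x, |G x| ≤ C / (1 + ‖x‖ ^ 2)) →
        (∀ x, fderiv ℝ (PhiS σ₀ S) x v = G x) →
        ∫ x, PhiS σ₀ S x * fderiv ℝ ψ x v = -∫ x, G x * ψ x := by
      intro v G hGm hGb hG
      have h1 := integral_mul_fderiv_eq_neg_fderiv_mul_of_integrable (μ := (volume : Measure ℂ))
        (f := PhiS σ₀ S) (g := ψ) (v := v) ?_ ?_ ?_ (fun x _ => (hd x).differentiableAt)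
        (fun x _ => hψ.contDiffAt.differentiableAt (by simp))
      · rw [h1]
        simp only [hG]
      · simp only [hG]
        refine hψi.bdd_mul hGm.aestronglyMeasurable (c := C) (Eventually.of_forall fun x => ?_)
        exact (hGb x).trans (hle x)
      · refine Continuous.integrable_of_hasCompactSupport
          (hcont.mul (wgr_cont_dir hψ v)) ?_
        exact (((hc.fderiv ℝ).comp_left (g := fun L : ℂ →L[ℝ] ℝ => L v) (by simp))).mul_left
      · exact (hcont.mul hψ.continuous).integrable_of_hasCompactSupport hc.mul_left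
    constructor
    · refine key 1 _ hrm hrb fun x => ?_
      rw [hfd, mul_one]
    · refine key Complex.I _ him hib fun x => ?_
      rw [hfd]
      simp

/-! ## regularised potentials of points -/

/-- regularised Green function with pole `x` -/
def phiEta (σ₀ : ℂ → ℝ) (δ : ℝ) (x y : ℂ) : ℝ :=
  -(1 / (2 * π)) * logR δ (y - x) - 1 / (4 * π) * σ₀ y

/-- the regularised `1 / w` -/
def phiT (δ : ℝ) (w : ℂ) : ℂ := (((‖w‖ ^ 2 + δ ^ 2)⁻¹ : ℝ) : ℂ) * (starRingEnd ℂ) w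

/-- its gradient -/
def phiA (σ₀ : ℂ → ℝ) (δ : ℝ) (x y : ℂ) : ℂ :=
  ((-(1 / (2 * π)) : ℝ) : ℂ) * phiT δ (y - x) - ((1 / (4 * π) : ℝ) : ℂ) * cGrad σ₀ y

/-- the regularised point mass -/
def phiK (δ : ℝ) (w : ℂ) : ℝ := 1 / π * (δ ^ 2 / (‖w‖ ^ 2 + δ ^ 2) ^ 2)

theorem phiEta_sph {σ₀ : ℂ → ℝ} (hσ : SmoothMetric σ₀) {δ : ℝ} (hδ : 0 < δ) (x : ℂ) :
    SphSmooth (phiEta σ₀ δ x) := by
  have h1 := (logg_sph hδ x).const_mul (-(1 / (2 * π)))
  have h2 := (curv_aux hσ).const_mul (1 / (4 * π))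
  have h3 := h1.sub h2
  have e : phiEta σ₀ δ x = fun y => -(1 / (2 * π)) * (logR δ (y - x) - logR 1 y) -
      1 / (4 * π) * (σ₀ y + 2 * logR 1 y) := by
    funext y
    unfold phiEta
    ring
  rw [e]
  exact h3

theorem phiEta_fderiv {σ₀ : ℂ → ℝ} (hσ : ContDiff ℝ ∞ σ₀) {δ : ℝ} (hδ : 0 < δ) (x y v : ℂ) :
    fderiv ℝ (phiEta σ₀ δ x) y v = (phiA σ₀ δ x y * v).re := by
  have h1 : HasFDerivAt (fun y : ℂ => y - x) (ContinuousLinearMap.id ℝ ℂ) y :=
    (hasFDerivAt_id y).sub_const x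
  have h2 : HasFDerivAt (logR δ) (fderiv ℝ (logR δ) (y - x)) (y - x) :=
    ((logR_contDiff hδ).contDiffAt.differentiableAt (by simp)).hasFDerivAt
  have h3 := h2.comp y h1
  have h4 : HasFDerivAt σ₀ (fderiv ℝ σ₀ y) y :=
    (hσ.contDiffAt.differentiableAt (by simp)).hasFDerivAt
  have h5 : HasFDerivAt (phiEta σ₀ δ x)
      (-(1 / (2 * π)) • (fderiv ℝ (logR δ) (y - x)).comp (ContinuousLinearMap.id ℝ ℂ) -
        (1 / (4 * π)) • fderiv ℝ σ₀ y) y :=
    (h3.const_mul (-(1 / (2 * π)))).sub (h4.const_mul (1 / (4 * π)))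
  rw [h5.fderiv]
  simp only [_root_.sub_apply, _root_.smul_apply, smul_eq_mul, ContinuousLinearMap.comp_id]
  have key : (phiA σ₀ δ x y * v).re = -(1 / (2 * π)) * (phiT δ (y - x) * v).re -
      1 / (4 * π) * (cGrad σ₀ y * v).re := by
    unfold phiA
    rw [sub_mul, Complex.sub_re, mul_assoc, mul_assoc, Complex.re_ofReal_mul,
      Complex.re_ofReal_mul]
  have key2 : ∀ w : ℂ, (phiT δ w * v).re =
      (w.re * v.re + w.im * v.im) / (‖w‖ ^ 2 + δ ^ 2) := by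
    intro w
    unfold phiT
    rw [mul_assoc, Complex.re_ofReal_mul, Complex.mul_re, Complex.conj_re, Complex.conj_im]
    field_simp
    ring
  rw [key, key2, logR_fderiv hδ, ← sma_cGrad_re σ₀ y v]

theorem phiEta_lap {σ₀ : ℂ → ℝ} (hσ : SmoothMetric σ₀) {δ : ℝ} (hδ : 0 < δ) (x y : ℂ) :
    -lap (phiEta σ₀ δ x) y = phiK δ (y - x) - 1 / (4 * π) * curvDens σ₀ y := by
  have c1 : ContDiffAt ℝ 2 σ₀ y := (hσ.1.of_le sph_two_le).contDiffAt
  have c0 : ContDiff ℝ 2 (fun y : ℂ => logR δ (y - x)) :=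
    ((logR_contDiff hδ).of_le sph_two_le).comp (contDiff_id.sub contDiff_const)
  have c2 : ContDiffAt ℝ 2 (fun y : ℂ => -(1 / (2 * π)) * logR δ (y - x)) y :=
    contDiffAt_const.mul c0.contDiffAt
  have c3 : ContDiffAt ℝ 2 (fun y => -(1 / (4 * π)) * σ₀ y) y := contDiffAt_const.mul c1
  have e0 : phiEta σ₀ δ x = (fun y : ℂ => -(1 / (2 * π)) * logR δ (y - x)) +
      fun y => -(1 / (4 * π)) * σ₀ y := by
    funext y
    unfold phiEta
    simp only [Pi.add_apply]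
    ring
  have h1 : lap (phiEta σ₀ δ x) y = lap (fun y : ℂ => -(1 / (2 * π)) * logR δ (y - x)) y +
      lap (fun y => -(1 / (4 * π)) * σ₀ y) y := by
    rw [e0]
    exact c2.laplacian_add c3
  have h2 : lap (fun y : ℂ => -(1 / (2 * π)) * logR δ (y - x)) y =
      -(1 / (2 * π)) * lap (fun y : ℂ => logR δ (y - x)) y :=
    laplacian_smul (-(1 / (2 * π)) : ℝ) c0.contDiffAt
  have h3 : lap (fun y => -(1 / (4 * π)) * σ₀ y) y = -(1 / (4 * π)) * lap σ₀ y :=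
    laplacian_smul (-(1 / (4 * π)) : ℝ) c1
  have h4 : lap (fun y : ℂ => logR δ (y - x)) y = 2 * δ ^ 2 / (‖y - x‖ ^ 2 + δ ^ 2) ^ 2 :=
    log_reg_lap x y hδ
  rw [h1, h2, h3, h4]
  unfold phiK curvDens
  have := Real.pi_pos
  field_simp
  ring

/-! ## bounds -/

theorem phiT_norm {δ : ℝ} (hδ : 0 < δ) (w : ℂ) : ‖phiT δ w‖ = ‖w‖ / (‖w‖ ^ 2 + δ ^ 2) := by
  unfold phiT
  rw [norm_mul, Complex.norm_real, Real.norm_eq_abs, abs_of_pos (by positivity),
    RCLike.norm_conj]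
  ring

theorem phiT_le_inv {δ : ℝ} (hδ : 0 < δ) (w : ℂ) : ‖phiT δ w‖ ≤ ‖w‖⁻¹ := by
  rw [phiT_norm hδ]
  rcases (norm_nonneg w).eq_or_lt with h | h
  · rw [← h]; simp
  · rw [inv_eq_one_div, div_le_div_iff₀ (by positivity) h]
    nlinarith [sq_nonneg δ]

theorem phiT_le_delta {δ : ℝ} (hδ : 0 < δ) (w : ℂ) : ‖phiT δ w‖ ≤ δ⁻¹ := by
  rw [phiT_norm hδ, inv_eq_one_div, div_le_div_iff₀ (by positivity) hδ]
  nlinarith [sq_nonneg (‖w‖ - δ), norm_nonneg w]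

/-- far estimate -/
theorem phiT_far {δ : ℝ} (hδ : 0 < δ) (hδ1 : δ ≤ 1) {x y : ℂ} (hx : ‖x‖ ≤ 2) (hy : 4 < ‖y‖) :
    ‖phiT δ (y - x) - y⁻¹‖ * ‖y‖ ^ 2 ≤ 6 := by
  set w := y - x with hw
  have hwn : ‖y‖ / 2 ≤ ‖w‖ := by
    have := norm_sub_norm_le y x
    linarith
  have hyp : 0 < ‖y‖ := by linarith
  have hwp : 0 < ‖w‖ := by linarith
  have hw2 : 2 < ‖w‖ := by linarith
  have hw0 : w ≠ 0 := norm_pos_iff.1 hwp
  have hy0 : y ≠ 0 := norm_pos_iff.1 hyp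
  have e1 : phiT δ w - w⁻¹ = -(((δ ^ 2 / (‖w‖ ^ 2 + δ ^ 2) : ℝ) : ℂ) * w⁻¹) := by
    have h1 : (starRingEnd ℂ) w = ((‖w‖ ^ 2 : ℝ) : ℂ) * w⁻¹ := by
      rw [eq_mul_inv_iff_mul_eq₀ hw0, mul_comm, Complex.mul_conj, Complex.normSq_eq_norm_sq]
    have h2 : ((‖w‖ ^ 2 + δ ^ 2)⁻¹ : ℝ) * ‖w‖ ^ 2 - 1 = -(δ ^ 2 / (‖w‖ ^ 2 + δ ^ 2)) := by
      field_simp
      ring
    unfold phiT
    rw [h1, ← mul_assoc, ← Complex.ofReal_mul]
    have h3 : ((((‖w‖ ^ 2 + δ ^ 2)⁻¹ * ‖w‖ ^ 2 : ℝ) : ℂ)) * w⁻¹ - w⁻¹ =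
        (((‖w‖ ^ 2 + δ ^ 2)⁻¹ * ‖w‖ ^ 2 - 1 : ℝ) : ℂ) * w⁻¹ := by
      push_cast
      ring
    rw [h3, h2]
    push_cast
    ring
  have e2 : w⁻¹ - y⁻¹ = x * (w⁻¹ * y⁻¹) := by
    rw [hw]
    have hw0' : y - x ≠ 0 := hw0
    field_simp
    ring
  have e3 : ‖phiT δ w - w⁻¹‖ ≤ ‖w‖⁻¹ * (‖w‖ ^ 2)⁻¹ := by
    rw [e1, norm_neg, norm_mul, norm_inv, Complex.norm_real, Real.norm_eq_abs,
      abs_of_pos (by positivity), mul_comm]
    refine mul_le_mul_of_nonneg_left ?_ (by positivity)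
    rw [inv_eq_one_div, div_le_div_iff₀ (by positivity) (by positivity)]
    have hd2 : δ ^ 2 ≤ 1 := by nlinarith
    nlinarith [mul_le_mul_of_nonneg_right hd2 (sq_nonneg ‖w‖), sq_nonneg δ]
  have e4 : ‖w⁻¹ - y⁻¹‖ ≤ 2 * (‖w‖⁻¹ * ‖y‖⁻¹) := by
    rw [e2, norm_mul, norm_mul, norm_inv, norm_inv]
    exact mul_le_mul_of_nonneg_right hx (by positivity)
  have e5 : ‖phiT δ w - y⁻¹‖ ≤ ‖w‖⁻¹ * (‖w‖ ^ 2)⁻¹ + 2 * (‖w‖⁻¹ * ‖y‖⁻¹) := by
    have := norm_add_le (phiT δ w - w⁻¹) (w⁻¹ - y⁻¹)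
    rw [sub_add_sub_cancel] at this
    linarith
  have e6 : ‖w‖⁻¹ ≤ 2 / ‖y‖ := by
    rw [inv_eq_one_div, div_le_div_iff₀ hwp hyp]
    linarith
  have e7 : (‖w‖ ^ 2)⁻¹ ≤ 4 / ‖y‖ ^ 2 := by
    rw [inv_eq_one_div, div_le_div_iff₀ (by positivity) (by positivity)]
    nlinarith
  calc ‖phiT δ w - y⁻¹‖ * ‖y‖ ^ 2
      ≤ (‖w‖⁻¹ * (‖w‖ ^ 2)⁻¹ + 2 * (‖w‖⁻¹ * ‖y‖⁻¹)) * ‖y‖ ^ 2 :=
        mul_le_mul_of_nonneg_right e5 (by positivity)
    _ ≤ (2 / ‖y‖ * (4 / ‖y‖ ^ 2) + 2 * (2 / ‖y‖ * ‖y‖⁻¹)) * ‖y‖ ^ 2 := by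
        refine mul_le_mul_of_nonneg_right ?_ (by positivity)
        refine add_le_add (mul_le_mul e6 e7 (by positivity) (by positivity)) ?_
        refine mul_le_mul_of_nonneg_left ?_ (by norm_num)
        exact mul_le_mul_of_nonneg_right e6 (by positivity)
    _ = 8 / ‖y‖ + 4 := by field_simp; ring
    _ ≤ 6 := by
        have : 8 / ‖y‖ ≤ 2 := by
          rw [div_le_iff₀ hyp]
          linarith
        linarith

/-- the bound of the gradient -/
theorem phiA_le {σ₀ : ℂ → ℝ} (hσ : SmoothMetric σ₀) : ∃ C : ℝ, 0 ≤ C ∧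
    ∀ δ : ℝ, 0 < δ → δ ≤ 1 → ∀ x y : ℂ, ‖x‖ ≤ 2 →
      ‖phiA σ₀ δ x y‖ * (1 + ‖y‖ ^ 2) ≤ C * (1 + ‖y - x‖⁻¹) ∧
      ‖phiA σ₀ δ x y‖ * (1 + ‖y‖ ^ 2) ≤ C * (1 + δ⁻¹) := by
  obtain ⟨h1, σ', h2, h3⟩ := hσ
  obtain ⟨C3, hC3⟩ := (isCompact_closedBall (0 : ℂ) 4).exists_bound_of_continuousOn
    (cGrad_cont h1).continuousOn
  obtain ⟨C4, hC4⟩ := (isCompact_closedBall (0 : ℂ) 4).exists_bound_of_continuousOn
    (cGrad_cont h2).continuousOn
  have hC30 : 0 ≤ C3 := (norm_nonneg _).trans (hC3 0 (by simp))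
  have hC40 : 0 ≤ C4 := (norm_nonneg _).trans (hC4 0 (by simp))
  have hpi := Real.pi_gt_three
  refine ⟨17 * (1 + C3) + (12 + C4), by positivity, fun δ hδ hδ1 x y hx => ?_⟩
  have hA : ‖phiA σ₀ δ x y‖ ≤ ‖phiT δ (y - x) + (1 / 2 : ℝ) * cGrad σ₀ y‖ := by
    have e : phiA σ₀ δ x y = ((-(1 / (2 * π)) : ℝ) : ℂ) *
        (phiT δ (y - x) + (1 / 2 : ℝ) * cGrad σ₀ y) := by
      unfold phiA
      push_cast
      field_simp
      ring
    rw [e, norm_mul, Complex.norm_real, Real.norm_eq_abs, abs_neg, abs_of_pos (by positivity)]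
    refine mul_le_of_le_one_left (norm_nonneg _) ?_
    rw [div_le_one (by positivity)]
    linarith
  have hy1 : (0 : ℝ) < 1 + ‖y‖ ^ 2 := by positivity
  rcases le_or_gt ‖y‖ 4 with hy | hy
  · have e1 : ‖phiT δ (y - x) + (1 / 2 : ℝ) * cGrad σ₀ y‖ ≤ ‖phiT δ (y - x)‖ + C3 := by
      refine (norm_add_le _ _).trans (add_le_add le_rfl ?_)
      rw [norm_mul, Complex.norm_real, Real.norm_eq_abs, abs_of_pos (by norm_num)]
      have := hC3 y (by simpa using hy)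
      have := norm_nonneg (cGrad σ₀ y)
      linarith
    have e2 : 1 + ‖y‖ ^ 2 ≤ 17 := by nlinarith [norm_nonneg y]
    have key : ∀ t : ℝ, 0 ≤ t → ‖phiT δ (y - x)‖ ≤ t →
        ‖phiA σ₀ δ x y‖ * (1 + ‖y‖ ^ 2) ≤ (17 * (1 + C3) + (12 + C4)) * (1 + t) := by
      intro t ht hT
      calc ‖phiA σ₀ δ x y‖ * (1 + ‖y‖ ^ 2) ≤ (t + C3) * 17 :=
            mul_le_mul (hA.trans (e1.trans (by linarith))) e2 hy1.le (by positivity)
        _ ≤ (17 * (1 + C3) + (12 + C4)) * (1 + t) := by nlinarith [mul_nonneg hC30 ht]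
    exact ⟨key _ (by positivity) (phiT_le_inv hδ _), key _ (by positivity) (phiT_le_delta hδ _)⟩
  · have hy0 : y ≠ 0 := by
      intro h
      rw [h, norm_zero] at hy
      linarith
    have hyp : 0 < ‖y‖ := by linarith
    have hyi : ‖y⁻¹‖ ≤ 4 := by
      rw [norm_inv, inv_eq_one_div]
      have : 1 / ‖y‖ ≤ 1 / 4 := one_div_le_one_div_of_le (by norm_num) hy.le
      linarith
    have e1 : (phiT δ (y - x) + (1 / 2 : ℝ) * cGrad σ₀ y) * y ^ 2 =
        (phiT δ (y - x) - y⁻¹) * y ^ 2 - (1 / 2 : ℝ) * cGrad σ' y⁻¹ := by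
      rw [cGrad_rel h1 h2 h3 hy0]
      push_cast
      field_simp
      ring
    have e2 : ‖phiT δ (y - x) + (1 / 2 : ℝ) * cGrad σ₀ y‖ * ‖y‖ ^ 2 ≤ 6 + C4 / 2 := by
      rw [← norm_pow, ← norm_mul, e1]
      refine (norm_sub_le _ _).trans (add_le_add ?_ ?_)
      · rw [norm_mul, norm_pow]
        exact phiT_far hδ hδ1 hx hy
      · rw [norm_mul, Complex.norm_real, Real.norm_eq_abs, abs_of_pos (by norm_num)]
        have := hC4 y⁻¹ (by simpa using hyi)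
        linarith
    have e3 : 1 + ‖y‖ ^ 2 ≤ 2 * ‖y‖ ^ 2 := by nlinarith
    have e4 : ‖phiA σ₀ δ x y‖ * (1 + ‖y‖ ^ 2) ≤ 12 + C4 := by
      calc ‖phiA σ₀ δ x y‖ * (1 + ‖y‖ ^ 2)
          ≤ ‖phiT δ (y - x) + (1 / 2 : ℝ) * cGrad σ₀ y‖ * (2 * ‖y‖ ^ 2) :=
            mul_le_mul hA e3 hy1.le (norm_nonneg _)
        _ = 2 * (‖phiT δ (y - x) + (1 / 2 : ℝ) * cGrad σ₀ y‖ * ‖y‖ ^ 2) := by ring
        _ ≤ 2 * (6 + C4 / 2) := mul_le_mul_of_nonneg_left e2 (by norm_num)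
        _ = 12 + C4 := by ring
    have key : ∀ t : ℝ, 0 ≤ t →
        ‖phiA σ₀ δ x y‖ * (1 + ‖y‖ ^ 2) ≤ (17 * (1 + C3) + (12 + C4)) * (1 + t) := by
      intro t ht
      nlinarith [mul_nonneg hC30 ht, mul_nonneg hC40 ht]
    exact ⟨key _ (by positivity), key _ (by positivity)⟩

/-! ## integration over the square -/

theorem phi_inv_bdd (S : Dy) : ∃ C : ℝ, 0 ≤ C ∧ ∀ y, ∫ x in S.set, ‖y - x‖⁻¹ ≤ C := by
  obtain ⟨C, hC0, hC⟩ := pot_sing S
  have hi2 : IntegrableOn (fun _ : ℂ => (1 : ℝ)) S.set := integrableOn_const (pot_volume_ne_top S)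
  refine ⟨S.side ^ 2 + C, by positivity, fun y => ?_⟩
  have hle : ∀ t : ℝ, 0 ≤ t → t⁻¹ ≤ 1 + t ^ (-(3 / 2) : ℝ) := by
    intro t ht
    rcases le_or_gt 1 t with h | h
    · have h1 : t⁻¹ ≤ 1 := inv_le_one_of_one_le₀ h
      have h2 : 0 ≤ t ^ (-(3 / 2) : ℝ) := by positivity
      linarith
    · rcases ht.eq_or_lt with h0 | h0
      · rw [← h0, inv_zero]
        positivity
      · have h1 : t⁻¹ = t ^ (-(1 : ℝ)) := by rw [Real.rpow_neg_one]
        rw [h1]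
        have h2 : t ^ (-(1 : ℝ)) ≤ t ^ (-(3 / 2) : ℝ) :=
          Real.rpow_le_rpow_of_exponent_ge h0 h.le (by norm_num)
        linarith
  have hi : IntegrableOn (fun x => ‖y - x‖⁻¹) S.set := by
    have h := (pot_inv_integrable S y).norm
    simp only [norm_inv] at h
    exact h
  calc ∫ x in S.set, ‖y - x‖⁻¹ ≤ ∫ x in S.set, (1 + ‖y - x‖ ^ (-(3 / 2) : ℝ)) :=
        integral_mono hi (hi2.add (hC y).1) fun u => hle _ (norm_nonneg _)
    _ = (∫ x in S.set, (1 : ℝ)) + ∫ x in S.set, ‖y - x‖ ^ (-(3 / 2) : ℝ) :=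
        integral_add hi2 (hC y).1
    _ ≤ S.side ^ 2 + C := by
        apply add_le_add _ (hC y).2
        rw [setIntegral_const, pot_volume_real]
        simp

/-- the regularised gradient of `Φ_S` -/
def phiG (σ₀ : ℂ → ℝ) (δ : ℝ) (S : Dy) (y : ℂ) : ℂ := ∫ x in S.set, phiA σ₀ δ x y

theorem phiA_cont {σ₀ : ℂ → ℝ} (hσ : ContDiff ℝ ∞ σ₀) {δ : ℝ} (hδ : 0 < δ) :
    Continuous fun z : ℂ × ℂ => phiA σ₀ δ z.1 z.2 := by
  unfold phiA phiT
  refine Continuous.sub (continuous_const.mul (Continuous.mul ?_ ?_))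
    (continuous_const.mul ((cGrad_cont hσ).comp continuous_snd))
  · refine Complex.continuous_ofReal.comp (Continuous.inv₀ (by fun_prop) fun z => ?_)
    positivity
  · exact Complex.continuous_conj.comp (continuous_snd.sub continuous_fst)

theorem phiG_meas {σ₀ : ℂ → ℝ} (hσ : ContDiff ℝ ∞ σ₀) {δ : ℝ} (hδ : 0 < δ) (S : Dy) :
    StronglyMeasurable (phiG σ₀ δ S) := by
  have h : StronglyMeasurable (Function.uncurry fun (y x : ℂ) => phiA σ₀ δ x y) :=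
    ((phiA_cont hσ hδ).comp continuous_swap).stronglyMeasurable
  exact h.integral_prod_right (ν := volume.restrict S.set)

theorem phiA_intS {σ₀ : ℂ → ℝ} (hσ : SmoothMetric σ₀) {δ : ℝ} (hδ : 0 < δ) (hδ1 : δ ≤ 1)
    (S : Dy) (y : ℂ) : IntegrableOn (fun x => phiA σ₀ δ x y) S.set := by
  obtain ⟨C, hC0, hC⟩ := phiA_le hσ
  have hi2 : IntegrableOn (fun _ : ℂ => (C * (1 + δ⁻¹) : ℝ)) S.set :=
    integrableOn_const (pot_volume_ne_top S)
  refine hi2.mono' ((phiA_cont hσ.1 hδ).comp (continuous_id.prodMk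
    continuous_const)).aestronglyMeasurable ?_
  filter_upwards [ae_restrict_mem (pot_measurable S)] with x hx
  have h1 := (hC δ hδ hδ1 x y (pot_norm_le hx)).2
  have h2 : ‖phiA σ₀ δ x y‖ ≤ ‖phiA σ₀ δ x y‖ * (1 + ‖y‖ ^ 2) :=
    le_mul_of_one_le_right (norm_nonneg _) (by nlinarith [norm_nonneg y])
  exact h2.trans h1

theorem phiG_le {σ₀ : ℂ → ℝ} (hσ : SmoothMetric σ₀) (S : Dy) : ∃ C : ℝ, 0 ≤ C ∧
    ∀ δ : ℝ, 0 < δ → δ ≤ 1 → ∀ y : ℂ, ‖phiG σ₀ δ S y‖ ≤ C / (1 + ‖y‖ ^ 2) := by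
  obtain ⟨C, hC0, hC⟩ := phiA_le hσ
  obtain ⟨C', hC0', hC'⟩ := phi_inv_bdd S
  have hi2 : IntegrableOn (fun _ : ℂ => (1 : ℝ)) S.set := integrableOn_const (pot_volume_ne_top S)
  refine ⟨C * (S.side ^ 2 + C'), by positivity, fun δ hδ hδ1 y => ?_⟩
  have hy1 : (0 : ℝ) < 1 + ‖y‖ ^ 2 := by positivity
  have hi : IntegrableOn (fun x => ‖y - x‖⁻¹) S.set := by
    have h := (pot_inv_integrable S y).norm
    simp only [norm_inv] at h
    exact h
  have h1 : ‖phiG σ₀ δ S y‖ ≤ ∫ x in S.set, C / (1 + ‖y‖ ^ 2) * (1 + ‖y - x‖⁻¹) := by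
    refine (norm_integral_le_integral_norm _).trans ?_
    refine integral_mono_ae (phiA_intS hσ hδ hδ1 S y).norm ((hi2.add hi).const_mul _) ?_
    filter_upwards [ae_restrict_mem (pot_measurable S)] with x hx
    have h2 := (hC δ hδ hδ1 x y (pot_norm_le hx)).1
    have h3 : C / (1 + ‖y‖ ^ 2) * (1 + ‖y - x‖⁻¹) = C * (1 + ‖y - x‖⁻¹) / (1 + ‖y‖ ^ 2) := by
      ring
    show ‖phiA σ₀ δ x y‖ ≤ C / (1 + ‖y‖ ^ 2) * (1 + ‖y - x‖⁻¹)
    rw [h3, le_div_iff₀ hy1]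
    exact h2
  refine h1.trans ?_
  rw [integral_const_mul, integral_add hi2 hi, setIntegral_const, pot_volume_real]
  have h4 := hC' y
  have h5 : C * (S.side ^ 2 + C') / (1 + ‖y‖ ^ 2) =
      C / (1 + ‖y‖ ^ 2) * (S.side ^ 2 + C') := by ring
  rw [h5]
  refine mul_le_mul_of_nonneg_left ?_ (by positivity)
  simp only [smul_eq_mul, mul_one]
  linarith

theorem phiT_tendsto {w : ℂ} (hw : w ≠ 0) :
    Tendsto (fun n => phiT (wgrR n) w) atTop (𝓝 w⁻¹) := by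
  have hwp : 0 < ‖w‖ := norm_pos_iff.2 hw
  have h1 : Tendsto (fun n => (‖w‖ ^ 2 + wgrR n ^ 2)⁻¹) atTop (𝓝 ((‖w‖ ^ 2 + 0 ^ 2)⁻¹)) :=
    (tendsto_const_nhds.add (wgrR_tendsto.pow 2)).inv₀ (by positivity)
  have h2 : Tendsto (fun n => phiT (wgrR n) w) atTop
      (𝓝 ((((‖w‖ ^ 2 + 0 ^ 2)⁻¹ : ℝ) : ℂ) * (starRingEnd ℂ) w)) :=
    ((Complex.continuous_ofReal.tendsto _).comp h1).mul_const _
  have e : (((‖w‖ ^ 2 + 0 ^ 2)⁻¹ : ℝ) : ℂ) * (starRingEnd ℂ) w = w⁻¹ := by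
    have h1 : (starRingEnd ℂ) w = ((‖w‖ ^ 2 : ℝ) : ℂ) * w⁻¹ := by
      rw [eq_mul_inv_iff_mul_eq₀ hw, mul_comm, Complex.mul_conj, Complex.normSq_eq_norm_sq]
    rw [h1, ← mul_assoc, ← Complex.ofReal_mul]
    have h3 : (‖w‖ ^ 2 + 0 ^ 2)⁻¹ * ‖w‖ ^ 2 = 1 := by
      field_simp
      ring
    rw [h3]
    simp
  rwa [e] at h2

theorem phiG_tendsto {σ₀ : ℂ → ℝ} (hσ : SmoothMetric σ₀) (S : Dy) (y : ℂ) :
    Tendsto (fun n => phiG σ₀ (wgrR n) S y) atTop (𝓝 (gPhi σ₀ S y)) := by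
  obtain ⟨C, hC0, hC⟩ := phiA_le hσ
  have hi2 : IntegrableOn (fun _ : ℂ => (1 : ℝ)) S.set := integrableOn_const (pot_volume_ne_top S)
  have hi3 : IntegrableOn (fun _ : ℂ => ((1 / (4 * π) : ℝ) : ℂ) * cGrad σ₀ y) S.set :=
    integrableOn_const (pot_volume_ne_top S)
  have hi : IntegrableOn (fun x => ‖y - x‖⁻¹) S.set := by
    have h := (pot_inv_integrable S y).norm
    simp only [norm_inv] at h
    exact h
  have e : gPhi σ₀ S y = ∫ x in S.set, (((-(1 / (2 * π)) : ℝ) : ℂ) * (y - x)⁻¹ -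
      ((1 / (4 * π) : ℝ) : ℂ) * cGrad σ₀ y) := by
    rw [integral_sub ((pot_inv_integrable S y).const_mul _) hi3, integral_const_mul,
      setIntegral_const, pot_volume_real]
    unfold gPhi aS
    rw [Complex.real_smul]
    push_cast
    ring
  rw [e]
  refine tendsto_integral_of_dominated_convergence (fun x => C * (1 + ‖y - x‖⁻¹)) ?_
    ((hi2.add hi).const_mul C) ?_ ?_
  · intro n
    exact (phiA_intS hσ (wgrR_pos n) (wgrR_le n) S y).1
  · intro n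
    filter_upwards [ae_restrict_mem (pot_measurable S)] with x hx
    have h1 := (hC _ (wgrR_pos n) (wgrR_le n) x y (pot_norm_le hx)).1
    have h2 : ‖phiA σ₀ (wgrR n) x y‖ ≤ ‖phiA σ₀ (wgrR n) x y‖ * (1 + ‖y‖ ^ 2) :=
      le_mul_of_one_le_right (norm_nonneg _) (by nlinarith [norm_nonneg y])
    exact h2.trans h1
  · have hne : ∀ᵐ x ∂(volume.restrict S.set), x ≠ y := ae_restrict_of_ae (by simp [ae_iff])
    filter_upwards [hne] with x hx
    have hw : y - x ≠ 0 := sub_ne_zero.2 (Ne.symm hx)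
    exact ((phiT_tendsto hw).const_mul _).sub_const _

/-! ## the mass -/

/-- the regularised indicator of the square -/
def phiM (δ : ℝ) (S : Dy) (y : ℂ) : ℝ := ∫ x in S.set, phiK δ (y - x)

/-- the profile -/
def phiKap (s : ℂ) : ℝ := 1 / π * (1 / (1 + ‖s‖ ^ 2) ^ 2)

theorem phiKap_int : Integrable phiKap := integrable_round.const_mul _

theorem phiKap_integral : ∫ s, phiKap s = 1 := by
  have h := logg_integral_round
  have e : ∀ x : ℂ, (2 : ℝ) / (1 + ‖x‖ ^ 2) ^ 2 = (2 * π) * phiKap x := by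
    intro x
    unfold phiKap
    have := Real.pi_pos
    field_simp
  simp only [e] at h
  rw [integral_const_mul] at h
  have := Real.pi_pos
  have h2 : (2 * π) * (∫ s, phiKap s) = (2 * π) * 1 := by rw [h]; ring
  exact mul_left_cancel₀ (by positivity) h2

theorem phiKap_nonneg (s : ℂ) : 0 ≤ phiKap s := by unfold phiKap; positivity

theorem phiM_eq {δ : ℝ} (hδ : 0 < δ) (S : Dy) (y : ℂ) :
    phiM δ S y = ∫ s, ind S (y - δ • s) * phiKap s := by
  have h1 : phiM δ S y = ∫ x, ind S (y - (y - x)) * phiK δ (y - x) := by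
    unfold phiM
    rw [← integral_indicator (pot_measurable S)]
    refine integral_congr_ae (Eventually.of_forall fun x => ?_)
    simp only [sub_sub_cancel]
    by_cases hx : x ∈ S.set
    · rw [indicator_of_mem hx, ind, indicator_of_mem hx, one_mul]
    · rw [indicator_of_notMem hx, ind, indicator_of_notMem hx, zero_mul]
  have h2 := integral_sub_left_eq_self (fun w => ind S (y - w) * phiK δ w) volume y
  have h3 := Measure.integral_comp_smul (volume : Measure ℂ)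
    (fun w => ind S (y - w) * phiK δ w) δ
  rw [h1, h2]
  rw [Complex.finrank_real_complex, abs_of_pos (by positivity), smul_eq_mul] at h3
  have h4 : ∫ w, ind S (y - w) * phiK δ w =
      δ ^ 2 * ∫ s, ind S (y - δ • s) * phiK δ (δ • s) := by
    rw [h3, ← mul_assoc, mul_inv_cancel₀ (by positivity), one_mul]
  rw [h4, ← integral_const_mul]
  refine integral_congr_ae (Eventually.of_forall fun s => ?_)
  simp only
  unfold phiK phiKap
  rw [norm_smul, Real.norm_eq_abs, abs_of_pos hδ]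
  have h5 : (δ * ‖s‖) ^ 2 + δ ^ 2 = δ ^ 2 * (1 + ‖s‖ ^ 2) := by ring
  rw [h5]
  field_simp

theorem ind_meas (S : Dy) : Measurable (ind S) :=
  measurable_const.indicator (pot_measurable S)

theorem ind_nonneg (S : Dy) (y : ℂ) : 0 ≤ ind S y := indicator_nonneg (fun _ _ => zero_le_one) y

theorem ind_le_one (S : Dy) (y : ℂ) : ind S y ≤ 1 := indicator_le_self' (fun _ _ => zero_le_one) y

theorem phiM_int (δ : ℝ) (S : Dy) (y : ℂ) :
    Integrable fun s : ℂ => ind S (y - δ • s) * phiKap s := by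
  refine phiKap_int.bdd_mul (c := 1) ?_ (Eventually.of_forall fun s => ?_)
  · exact ((ind_meas S).comp (measurable_const.sub (measurable_id.const_smul δ))).aestronglyMeasurable
  · rw [Real.norm_eq_abs, abs_of_nonneg (ind_nonneg _ _)]
    exact ind_le_one _ _

theorem phiM_nonneg {δ : ℝ} (hδ : 0 < δ) (S : Dy) (y : ℂ) : 0 ≤ phiM δ S y := by
  rw [phiM_eq hδ]
  exact integral_nonneg fun s => mul_nonneg (ind_nonneg _ _) (phiKap_nonneg _)

theorem phiM_le_one {δ : ℝ} (hδ : 0 < δ) (S : Dy) (y : ℂ) : phiM δ S y ≤ 1 := by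
  rw [phiM_eq hδ, ← phiKap_integral]
  refine integral_mono (phiM_int δ S y) phiKap_int fun s => ?_
  exact mul_le_of_le_one_left (phiKap_nonneg _) (ind_le_one _ _)

/-- far estimate of the kernel -/
theorem phiK_far {δ : ℝ} (hδ : 0 < δ) (hδ1 : δ ≤ 1) {x y : ℂ} (hx : ‖x‖ ≤ 2) (hy : 4 < ‖y‖) :
    phiK δ (y - x) * (1 + ‖y‖ ^ 2) ^ 2 ≤ 64 := by
  have hwn : ‖y‖ / 2 ≤ ‖y - x‖ := by
    have := norm_sub_norm_le y x
    linarith
  have hyp : 0 < ‖y‖ := by linarith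
  have hwp : 0 < ‖y - x‖ := by linarith
  have hd2 : δ ^ 2 ≤ 1 := by nlinarith
  have h1 : phiK δ (y - x) ≤ 16 / ‖y‖ ^ 4 := by
    unfold phiK
    have h2 : 1 / π ≤ 1 := by
      rw [div_le_one Real.pi_pos]
      linarith [Real.pi_gt_three]
    have h3 : ‖y‖ ^ 2 / 4 ≤ ‖y - x‖ ^ 2 + δ ^ 2 := by nlinarith
    have h4 : (‖y‖ ^ 2 / 4) ^ 2 ≤ (‖y - x‖ ^ 2 + δ ^ 2) ^ 2 :=
      pow_le_pow_left₀ (by positivity) h3 2
    have h5 : δ ^ 2 / (‖y - x‖ ^ 2 + δ ^ 2) ^ 2 ≤ 16 / ‖y‖ ^ 4 := by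
      rw [div_le_div_iff₀ (by positivity) (by positivity)]
      have h6 : δ ^ 2 * ‖y‖ ^ 4 ≤ 1 * ‖y‖ ^ 4 := mul_le_mul_of_nonneg_right hd2 (by positivity)
      nlinarith
    calc 1 / π * (δ ^ 2 / (‖y - x‖ ^ 2 + δ ^ 2) ^ 2) ≤ 1 * (16 / ‖y‖ ^ 4) :=
          mul_le_mul h2 h5 (by positivity) (by norm_num)
      _ = 16 / ‖y‖ ^ 4 := one_mul _
  have h6 : (1 + ‖y‖ ^ 2) ^ 2 ≤ 4 * ‖y‖ ^ 4 := by
    have h7 : 1 + ‖y‖ ^ 2 ≤ 2 * ‖y‖ ^ 2 := by nlinarith
    calc (1 + ‖y‖ ^ 2) ^ 2 ≤ (2 * ‖y‖ ^ 2) ^ 2 := pow_le_pow_left₀ (by positivity) h7 2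
      _ = 4 * ‖y‖ ^ 4 := by ring
  calc phiK δ (y - x) * (1 + ‖y‖ ^ 2) ^ 2 ≤ 16 / ‖y‖ ^ 4 * (4 * ‖y‖ ^ 4) :=
        mul_le_mul h1 h6 (by positivity) (by positivity)
    _ = 64 := by field_simp; norm_num

theorem phiK_nonneg (δ : ℝ) (w : ℂ) : 0 ≤ phiK δ w := by unfold phiK; positivity

theorem phiK_cont {δ : ℝ} (hδ : 0 < δ) : Continuous (phiK δ) := by
  unfold phiK
  refine continuous_const.mul (continuous_const.div (by fun_prop) fun w => by positivity)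

theorem phiK_le {δ : ℝ} (hδ : 0 < δ) (w : ℂ) : phiK δ w ≤ (δ ^ 2)⁻¹ := by
  unfold phiK
  have h2 : 1 / π ≤ 1 := by
    rw [div_le_one Real.pi_pos]
    linarith [Real.pi_gt_three]
  have h3 : δ ^ 2 / (‖w‖ ^ 2 + δ ^ 2) ^ 2 ≤ (δ ^ 2)⁻¹ := by
    rw [inv_eq_one_div, div_le_div_iff₀ (by positivity) (by positivity)]
    nlinarith [sq_nonneg ‖w‖, sq_nonneg δ, mul_nonneg (sq_nonneg ‖w‖) (sq_nonneg δ),
      sq_nonneg (‖w‖ ^ 2)]
  calc 1 / π * (δ ^ 2 / (‖w‖ ^ 2 + δ ^ 2) ^ 2) ≤ 1 * (δ ^ 2)⁻¹ :=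
        mul_le_mul h2 h3 (by positivity) (by norm_num)
    _ = (δ ^ 2)⁻¹ := one_mul _

theorem phiK_bd {δ : ℝ} (hδ : 0 < δ) (hδ1 : δ ≤ 1) {x y : ℂ} (hx : ‖x‖ ≤ 2) :
    phiK δ (y - x) ≤ (289 * (δ ^ 2)⁻¹ + 64) / (1 + ‖y‖ ^ 2) ^ 2 := by
  have hy1 : (0 : ℝ) < (1 + ‖y‖ ^ 2) ^ 2 := by positivity
  rw [le_div_iff₀ hy1]
  rcases le_or_gt ‖y‖ 4 with hy | hy
  · have e2 : 1 + ‖y‖ ^ 2 ≤ 17 := by nlinarith [norm_nonneg y]
    have e3 : (1 + ‖y‖ ^ 2) ^ 2 ≤ 289 := by nlinarith [norm_nonneg y, sq_nonneg ‖y‖]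
    calc phiK δ (y - x) * (1 + ‖y‖ ^ 2) ^ 2 ≤ (δ ^ 2)⁻¹ * 289 :=
          mul_le_mul (phiK_le hδ _) e3 hy1.le (by positivity)
      _ ≤ 289 * (δ ^ 2)⁻¹ + 64 := by linarith
  · have := phiK_far hδ hδ1 hx hy
    have h2 : 0 ≤ 289 * (δ ^ 2)⁻¹ := by positivity
    linarith

theorem phiM_le {δ : ℝ} (hδ : 0 < δ) (hδ1 : δ ≤ 1) (S : Dy) (y : ℂ) :
    phiM δ S y ≤ (289 + 64 * S.side ^ 2) / (1 + ‖y‖ ^ 2) ^ 2 := by
  have hy1 : (0 : ℝ) < (1 + ‖y‖ ^ 2) ^ 2 := by positivity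
  rw [le_div_iff₀ hy1]
  rcases le_or_gt ‖y‖ 4 with hy | hy
  · have e2 : 1 + ‖y‖ ^ 2 ≤ 17 := by nlinarith [norm_nonneg y]
    have e3 : (1 + ‖y‖ ^ 2) ^ 2 ≤ 289 := by nlinarith [norm_nonneg y, sq_nonneg ‖y‖]
    calc phiM δ S y * (1 + ‖y‖ ^ 2) ^ 2 ≤ 1 * 289 :=
          mul_le_mul (phiM_le_one hδ S y) e3 hy1.le (by norm_num)
      _ ≤ 289 + 64 * S.side ^ 2 := by nlinarith [sq_nonneg S.side]
  · have h1 : phiM δ S y ≤ ∫ x in S.set, 64 / (1 + ‖y‖ ^ 2) ^ 2 := by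
      refine integral_mono_of_nonneg (Eventually.of_forall fun x => phiK_nonneg _ _)
        (integrableOn_const (pot_volume_ne_top S)) ?_
      filter_upwards [ae_restrict_mem (pot_measurable S)] with x hx
      rw [le_div_iff₀ hy1]
      exact phiK_far hδ hδ1 (pot_norm_le hx) hy
    rw [setIntegral_const, pot_volume_real, smul_eq_mul] at h1
    have h2 : phiM δ S y * (1 + ‖y‖ ^ 2) ^ 2 ≤ 64 * S.side ^ 2 := by
      calc phiM δ S y * (1 + ‖y‖ ^ 2) ^ 2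
          ≤ S.side ^ 2 * (64 / (1 + ‖y‖ ^ 2) ^ 2) * (1 + ‖y‖ ^ 2) ^ 2 :=
            mul_le_mul_of_nonneg_right h1 hy1.le
        _ = 64 * S.side ^ 2 := by field_simp
    linarith

theorem phi_convex (S : Dy) : Convex ℝ S.set := by
  have h1 : Convex ℝ {z : ℂ | S.i * S.side ≤ z.re} :=
    (convex_halfSpace_re_ge _)
  have h2 : Convex ℝ {z : ℂ | z.re ≤ (S.i + 1) * S.side} :=
    (convex_halfSpace_re_le _)
  have h3 : Convex ℝ {z : ℂ | S.j * S.side ≤ z.im} :=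
    (convex_halfSpace_im_ge _)
  have h4 : Convex ℝ {z : ℂ | z.im ≤ (S.j + 1) * S.side} :=
    (convex_halfSpace_im_le _)
  exact h1.inter (h2.inter (h3.inter h4))

theorem phiM_tendsto (S : Dy) {y : ℂ} (hy : y ∉ frontier S.set) :
    Tendsto (fun n => phiM (wgrR n) S y) atTop (𝓝 (ind S y)) := by
  have e : ∀ n, phiM (wgrR n) S y = ∫ s, ind S (y - wgrR n • s) * phiKap s := fun n =>
    phiM_eq (wgrR_pos n) S y
  have e2 : ind S y = ∫ s, ind S y * phiKap s := by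
    rw [integral_const_mul, phiKap_integral, mul_one]
  simp only [e]
  rw [e2]
  refine tendsto_integral_of_dominated_convergence phiKap ?_ phiKap_int ?_ ?_
  · intro n
    exact (phiM_int _ S y).1
  · intro n
    filter_upwards with s
    rw [Real.norm_eq_abs, abs_mul, abs_of_nonneg (ind_nonneg _ _),
      abs_of_nonneg (phiKap_nonneg _)]
    exact mul_le_of_le_one_left (phiKap_nonneg _) (ind_le_one _ _)
  · filter_upwards with s
    refine Tendsto.mul_const _ ?_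
    have h1 : Tendsto (fun n => y - wgrR n • s) atTop (𝓝 (y - (0 : ℝ) • s)) :=
      tendsto_const_nhds.sub (wgrR_tendsto.smul_const s)
    rw [zero_smul, sub_zero] at h1
    by_cases hyS : y ∈ S.set
    · have h2 : S.set ∈ 𝓝 y := by
        rw [← mem_interior_iff_mem_nhds]
        by_contra hcon
        exact hy ⟨subset_closure hyS, hcon⟩
      have h3 : ∀ᶠ n in atTop, ind S (y - wgrR n • s) = ind S y := by
        filter_upwards [h1 h2] with n hn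
        rw [ind, indicator_of_mem hyS, indicator_of_mem (by exact hn)]
      exact tendsto_const_nhds.congr' (h3.mono fun n hn => hn.symm)
    · have h2 : S.setᶜ ∈ 𝓝 y := by
        have h4 : y ∉ closure S.set := by
          intro hcl
          refine hy ⟨hcl, fun hin => hyS (interior_subset hin)⟩
        exact mem_of_superset (isClosed_closure.isOpen_compl.mem_nhds h4)
          (compl_subset_compl.2 subset_closure)
      have h3 : ∀ᶠ n in atTop, ind S (y - wgrR n • s) = ind S y := by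
        filter_upwards [h1 h2] with n hn
        rw [ind, indicator_of_notMem hyS, indicator_of_notMem (by exact hn)]
      exact tendsto_const_nhds.congr' (h3.mono fun n hn => hn.symm)

/-- the identity for the regularised potential -/
theorem phi_pair_reg {σ₀ : ℂ → ℝ} (hσ : SmoothMetric σ₀) (S : Dy) {u p q : ℂ → ℝ}
    (h : InH1 σ₀ u p q) {δ : ℝ} (hδ : 0 < δ) (hδ1 : δ ≤ 1) :
    ∫ y, (p y * (phiG σ₀ δ S y).re + q y * -(phiG σ₀ δ S y).im) =
      ∫ y, u y * (phiM δ S y - S.side ^ 2 / (4 * π) * curvDens σ₀ y) := by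
  have hG := smoothMetric_grow hσ
  obtain ⟨hdiv, hloc, -⟩ := h.locInt hG
  obtain ⟨CA, hCA0, hCA⟩ := phiA_le hσ
  obtain ⟨hKc, CK, hCK0, hCK⟩ := curvDens_le hσ
  have hμ : IsFiniteMeasure (volume.restrict S.set) :=
    ⟨by rw [Measure.restrict_apply_univ]; exact (pot_volume_ne_top S).lt_top⟩
  -- the identity for one point
  have hpt : ∀ x : ℂ, ∫ y, (p y * (phiA σ₀ δ x y).re + q y * -(phiA σ₀ δ x y).im) =
      ∫ y, u y * (phiK δ (y - x) - 1 / (4 * π) * curvDens σ₀ y) := by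
    intro x
    have h1 := h.green hG (phiEta_sph hσ hδ x)
    have e1 : ∀ y, p y * fderiv ℝ (phiEta σ₀ δ x) y 1 +
        q y * fderiv ℝ (phiEta σ₀ δ x) y Complex.I =
        p y * (phiA σ₀ δ x y).re + q y * -(phiA σ₀ δ x y).im := by
      intro y
      rw [phiEta_fderiv hσ.1 hδ, phiEta_fderiv hσ.1 hδ, mul_one]
      simp
    simp only [e1] at h1
    rw [h1, ← integral_neg]
    refine integral_congr_ae (Eventually.of_forall fun y => ?_)
    simp only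
    rw [← phiEta_lap hσ hδ x y]
    ring
  -- integrability on the product
  have hA2 : ∀ x ∈ S.set, ∀ y, ‖phiA σ₀ δ x y‖ ≤ CA * (1 + δ⁻¹) / (1 + ‖y‖ ^ 2) := by
    intro x hx y
    rw [le_div_iff₀ (by positivity)]
    exact (hCA δ hδ hδ1 x y (pot_norm_le hx)).2
  have hdecL2 : ∀ {r : ℂ → ℝ}, MemLp r 2 → Integrable fun y => |r y| * (1 / (1 + ‖y‖ ^ 2)) := by
    intro r hr
    have h1 : MemLp (fun y : ℂ => 1 / (1 + ‖y‖ ^ 2)) 2 :=
      phi_L2 (C := 1) (by fun_prop) fun y => by rw [abs_of_pos (by positivity)]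
    exact hr.abs.integrable_mul h1
  have iA : Integrable (Function.uncurry fun x y : ℂ =>
      p y * (phiA σ₀ δ x y).re + q y * -(phiA σ₀ δ x y).im)
      ((volume.restrict S.set).prod volume) := by
    have hdom : Integrable (fun y : ℂ => (CA * (1 + δ⁻¹)) *
        (|p y| * (1 / (1 + ‖y‖ ^ 2)) + |q y| * (1 / (1 + ‖y‖ ^ 2)))) :=
      ((hdecL2 h.memLp_p).add (hdecL2 h.memLp_q)).const_mul _
    refine Integrable.mono' (hdom.comp_snd (volume.restrict S.set)) ?_ ?_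
    · have hre : Continuous fun z : ℂ × ℂ => (phiA σ₀ δ z.1 z.2).re :=
        Complex.continuous_re.comp (phiA_cont hσ.1 hδ)
      have him : Continuous fun z : ℂ × ℂ => -(phiA σ₀ δ z.1 z.2).im :=
        (Complex.continuous_im.comp (phiA_cont hσ.1 hδ)).neg
      exact (h.memLp_p.1.comp_snd.mul hre.aestronglyMeasurable).add
        (h.memLp_q.1.comp_snd.mul him.aestronglyMeasurable)
    · have hmem : ∀ᵐ z ∂((volume.restrict S.set).prod (volume : Measure ℂ)), z.1 ∈ S.set := by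
        have h1 : ∀ᵐ x ∂(volume.restrict S.set), x ∈ S.set := ae_restrict_mem (pot_measurable S)
        exact Measure.quasiMeasurePreserving_fst.ae h1
      filter_upwards [hmem] with z hz
      obtain ⟨x, y⟩ := z
      have hx : x ∈ S.set := hz
      have hb := hA2 x hx y
      have hre : |(phiA σ₀ δ x y).re| ≤ CA * (1 + δ⁻¹) / (1 + ‖y‖ ^ 2) :=
        (Complex.abs_re_le_norm _).trans hb
      have him : |-(phiA σ₀ δ x y).im| ≤ CA * (1 + δ⁻¹) / (1 + ‖y‖ ^ 2) := by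
        rw [abs_neg]
        exact (Complex.abs_im_le_norm _).trans hb
      simp only [Function.uncurry_apply_pair]
      rw [Real.norm_eq_abs]
      calc |p y * (phiA σ₀ δ x y).re + q y * -(phiA σ₀ δ x y).im|
          ≤ |p y| * |(phiA σ₀ δ x y).re| + |q y| * |-(phiA σ₀ δ x y).im| := by
            refine (abs_add_le _ _).trans ?_
            rw [abs_mul, abs_mul]
        _ ≤ |p y| * (CA * (1 + δ⁻¹) / (1 + ‖y‖ ^ 2)) + |q y| * (CA * (1 + δ⁻¹) / (1 + ‖y‖ ^ 2)) :=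
            add_le_add (mul_le_mul_of_nonneg_left hre (abs_nonneg _))
              (mul_le_mul_of_nonneg_left him (abs_nonneg _))
        _ = (CA * (1 + δ⁻¹)) * (|p y| * (1 / (1 + ‖y‖ ^ 2)) + |q y| * (1 / (1 + ‖y‖ ^ 2))) := by
            ring
  have iK : Integrable (Function.uncurry fun x y : ℂ =>
      u y * (phiK δ (y - x) - 1 / (4 * π) * curvDens σ₀ y))
      ((volume.restrict S.set).prod volume) := by
    set D : ℝ := 289 * (δ ^ 2)⁻¹ + 64 + CK with hD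
    have hdom : Integrable (fun y : ℂ => D * ‖u y / (1 + ‖y‖ ^ 2) ^ 2‖) := hdiv.norm.const_mul _
    refine Integrable.mono' (hdom.comp_snd (volume.restrict S.set)) ?_ ?_
    · have hc : Continuous fun z : ℂ × ℂ => phiK δ (z.2 - z.1) - 1 / (4 * π) * curvDens σ₀ z.2 :=
        ((phiK_cont hδ).comp (continuous_snd.sub continuous_fst)).sub
          (continuous_const.mul (hKc.comp continuous_snd))
      exact hloc.aestronglyMeasurable.comp_snd.mul hc.aestronglyMeasurable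
    · have hmem : ∀ᵐ z ∂((volume.restrict S.set).prod (volume : Measure ℂ)), z.1 ∈ S.set := by
        have h1 : ∀ᵐ x ∂(volume.restrict S.set), x ∈ S.set := ae_restrict_mem (pot_measurable S)
        exact Measure.quasiMeasurePreserving_fst.ae h1
      filter_upwards [hmem] with z hz
      obtain ⟨x, y⟩ := z
      have hx : x ∈ S.set := hz
      simp only [Function.uncurry_apply_pair]
      have hy1 : (0 : ℝ) < (1 + ‖y‖ ^ 2) ^ 2 := by positivity
      rw [Real.norm_eq_abs, Real.norm_eq_abs, abs_mul, abs_div, abs_of_pos hy1]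
      have e1 : |phiK δ (y - x) - 1 / (4 * π) * curvDens σ₀ y| ≤ D / (1 + ‖y‖ ^ 2) ^ 2 := by
        have e2 := phiK_bd hδ hδ1 (y := y) (pot_norm_le hx)
        have e3 := hCK y
        have e4 : |1 / (4 * π) * curvDens σ₀ y| ≤ CK / (1 + ‖y‖ ^ 2) ^ 2 := by
          rw [abs_mul, abs_of_pos (by positivity)]
          have e5 : 1 / (4 * π) ≤ 1 := by
            rw [div_le_one (by positivity)]
            linarith [Real.pi_gt_three]
          calc 1 / (4 * π) * |curvDens σ₀ y| ≤ 1 * (CK / (1 + ‖y‖ ^ 2) ^ 2) :=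
                mul_le_mul e5 e3 (abs_nonneg _) (by norm_num)
            _ = CK / (1 + ‖y‖ ^ 2) ^ 2 := one_mul _
        have e6 := abs_sub (phiK δ (y - x)) (1 / (4 * π) * curvDens σ₀ y)
        rw [abs_of_nonneg (phiK_nonneg _ _)] at e6
        have e7 : D / (1 + ‖y‖ ^ 2) ^ 2 = (289 * (δ ^ 2)⁻¹ + 64) / (1 + ‖y‖ ^ 2) ^ 2 +
            CK / (1 + ‖y‖ ^ 2) ^ 2 := by rw [hD]; ring
        rw [e7]
        linarith
      calc |u y| * |phiK δ (y - x) - 1 / (4 * π) * curvDens σ₀ y|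
          ≤ |u y| * (D / (1 + ‖y‖ ^ 2) ^ 2) := mul_le_mul_of_nonneg_left e1 (abs_nonneg _)
        _ = D * (|u y| / (1 + ‖y‖ ^ 2) ^ 2) := by ring
  have s1 := integral_integral_swap iA
  have s2 := integral_integral_swap iK
  have s3 : ∫ x in S.set, ∫ y, (p y * (phiA σ₀ δ x y).re + q y * -(phiA σ₀ δ x y).im) =
      ∫ x in S.set, ∫ y, u y * (phiK δ (y - x) - 1 / (4 * π) * curvDens σ₀ y) := by
    refine integral_congr_ae (Eventually.of_forall fun x => ?_)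
    exact hpt x
  have e1 : ∀ y, p y * (phiG σ₀ δ S y).re + q y * -(phiG σ₀ δ S y).im =
      ∫ x in S.set, (p y * (phiA σ₀ δ x y).re + q y * -(phiA σ₀ δ x y).im) := by
    intro y
    have hi := phiA_intS hσ hδ hδ1 S y
    have hr : ∫ x in S.set, (phiA σ₀ δ x y).re = (phiG σ₀ δ S y).re := by
      have := integral_re hi
      exact this
    have hm : ∫ x in S.set, (phiA σ₀ δ x y).im = (phiG σ₀ δ S y).im := by
      have := integral_im hi
      exact this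
    have j1 : Integrable (fun x => p y * (phiA σ₀ δ x y).re) (volume.restrict S.set) :=
      hi.re.const_mul _
    have j2 : Integrable (fun x => q y * -(phiA σ₀ δ x y).im) (volume.restrict S.set) :=
      hi.im.neg.const_mul _
    rw [integral_add j1 j2, integral_const_mul, integral_const_mul, integral_neg, hr, hm]
  have e2 : ∀ y, u y * (phiM δ S y - S.side ^ 2 / (4 * π) * curvDens σ₀ y) =
      ∫ x in S.set, u y * (phiK δ (y - x) - 1 / (4 * π) * curvDens σ₀ y) := by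
    intro y
    have hi : IntegrableOn (fun x => phiK δ (y - x)) S.set := by
      have hc : Continuous fun x => phiK δ (y - x) :=
        (phiK_cont hδ).comp (continuous_const.sub continuous_id)
      refine (integrableOn_const (C := (δ ^ 2)⁻¹) (pot_volume_ne_top S)).mono'
        hc.aestronglyMeasurable (Eventually.of_forall fun x => ?_)
      rw [Real.norm_eq_abs, abs_of_nonneg (phiK_nonneg _ _)]
      exact phiK_le hδ _
    rw [integral_const_mul, integral_sub hi (integrableOn_const (pot_volume_ne_top S)),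
      setIntegral_const, pot_volume_real, smul_eq_mul]
    unfold phiM
    ring
  simp only [e1, e2]
  exact s1.symm.trans (s3.trans s2)

theorem ind_integral (S : Dy) : ∫ x, ind S x = S.side ^ 2 := by
  unfold ind
  rw [integral_indicator (pot_measurable S), setIntegral_const, pot_volume_real]
  simp

theorem PhiS_pair {σ₀ : ℂ → ℝ} (hσ : SmoothMetric σ₀) (S : Dy) {u p q : ℂ → ℝ}
    (h : InH1 σ₀ u p q) :
    ∫ x, (p x * (gPhi σ₀ S x).re + q x * -(gPhi σ₀ S x).im) =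
      ∫ x, u x * tilde σ₀ (ind S) x := by
  have hG := smoothMetric_grow hσ
  obtain ⟨hdiv, hloc, -⟩ := h.locInt hG
  obtain ⟨CG, hCG0, hCG⟩ := phiG_le hσ S
  obtain ⟨hKc, CK, hCK0, hCK⟩ := curvDens_le hσ
  have htil : ∀ x, tilde σ₀ (ind S) x = ind S x - S.side ^ 2 / (4 * π) * curvDens σ₀ x := by
    intro x
    unfold tilde
    rw [ind_integral, (integral_curvDens hσ).2]
  have hdecL2 : ∀ {r : ℂ → ℝ}, MemLp r 2 → Integrable fun y => |r y| * (1 / (1 + ‖y‖ ^ 2)) := by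
    intro r hr
    have h1 : MemLp (fun y : ℂ => 1 / (1 + ‖y‖ ^ 2)) 2 :=
      phi_L2 (C := 1) (by fun_prop) fun y => by rw [abs_of_pos (by positivity)]
    exact hr.abs.integrable_mul h1
  have t1 : Tendsto (fun n => ∫ y, (p y * (phiG σ₀ (wgrR n) S y).re +
      q y * -(phiG σ₀ (wgrR n) S y).im)) atTop
      (𝓝 (∫ x, (p x * (gPhi σ₀ S x).re + q x * -(gPhi σ₀ S x).im))) := by
    refine tendsto_integral_of_dominated_convergence (fun y => CG *
        (|p y| * (1 / (1 + ‖y‖ ^ 2)) + |q y| * (1 / (1 + ‖y‖ ^ 2)))) ?_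
      (((hdecL2 h.memLp_p).add (hdecL2 h.memLp_q)).const_mul _) ?_ ?_
    · intro n
      have hm := phiG_meas hσ.1 (wgrR_pos n) S
      have hre : AEStronglyMeasurable (fun y => (phiG σ₀ (wgrR n) S y).re) volume :=
        (Complex.measurable_re.comp hm.measurable).aestronglyMeasurable
      have him : AEStronglyMeasurable (fun y => -(phiG σ₀ (wgrR n) S y).im) volume :=
        (Complex.measurable_im.comp hm.measurable).neg.aestronglyMeasurable
      exact (h.memLp_p.1.mul hre).add (h.memLp_q.1.mul him)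
    · intro n
      filter_upwards with y
      have hb := hCG _ (wgrR_pos n) (wgrR_le n) y
      have hre : |(phiG σ₀ (wgrR n) S y).re| ≤ CG / (1 + ‖y‖ ^ 2) :=
        (Complex.abs_re_le_norm _).trans hb
      have him : |-(phiG σ₀ (wgrR n) S y).im| ≤ CG / (1 + ‖y‖ ^ 2) := by
        rw [abs_neg]
        exact (Complex.abs_im_le_norm _).trans hb
      rw [Real.norm_eq_abs]
      calc |p y * (phiG σ₀ (wgrR n) S y).re + q y * -(phiG σ₀ (wgrR n) S y).im|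
          ≤ |p y| * |(phiG σ₀ (wgrR n) S y).re| + |q y| * |-(phiG σ₀ (wgrR n) S y).im| := by
            refine (abs_add_le _ _).trans ?_
            rw [abs_mul, abs_mul]
        _ ≤ |p y| * (CG / (1 + ‖y‖ ^ 2)) + |q y| * (CG / (1 + ‖y‖ ^ 2)) :=
            add_le_add (mul_le_mul_of_nonneg_left hre (abs_nonneg _))
              (mul_le_mul_of_nonneg_left him (abs_nonneg _))
        _ = CG * (|p y| * (1 / (1 + ‖y‖ ^ 2)) + |q y| * (1 / (1 + ‖y‖ ^ 2))) := by ring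
    · filter_upwards with y
      have hl := phiG_tendsto hσ S y
      have hre := (Complex.continuous_re.tendsto _).comp hl
      have him := ((Complex.continuous_im.tendsto _).comp hl).neg
      exact (hre.const_mul (p y)).add (him.const_mul (q y))
  have t2 : Tendsto (fun n => ∫ y, u y * (phiM (wgrR n) S y -
      S.side ^ 2 / (4 * π) * curvDens σ₀ y)) atTop
      (𝓝 (∫ x, u x * tilde σ₀ (ind S) x)) := by
    simp only [htil]
    set D : ℝ := (289 + 64 * S.side ^ 2) + S.side ^ 2 / (4 * π) * CK with hD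
    have hloc' := hloc.aestronglyMeasurable
    refine tendsto_integral_of_dominated_convergence
      (fun y => D * ‖u y / (1 + ‖y‖ ^ 2) ^ 2‖) ?_ (hdiv.norm.const_mul _) ?_ ?_
    · intro n
      have hm : StronglyMeasurable (phiM (wgrR n) S) := by
        have hh : StronglyMeasurable (Function.uncurry fun (y x : ℂ) => phiK (wgrR n) (y - x)) :=
          ((phiK_cont (wgrR_pos n)).comp (continuous_fst.sub continuous_snd)).stronglyMeasurable
        exact hh.integral_prod_right (ν := volume.restrict S.set)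
      exact hloc'.mul (hm.aestronglyMeasurable.sub
        (continuous_const.mul hKc).aestronglyMeasurable)
    · intro n
      filter_upwards with y
      have hy1 : (0 : ℝ) < (1 + ‖y‖ ^ 2) ^ 2 := by positivity
      rw [Real.norm_eq_abs, Real.norm_eq_abs, abs_mul, abs_div, abs_of_pos hy1]
      have e1 : |phiM (wgrR n) S y - S.side ^ 2 / (4 * π) * curvDens σ₀ y| ≤
          D / (1 + ‖y‖ ^ 2) ^ 2 := by
        have e2 := phiM_le (wgrR_pos n) (wgrR_le n) S y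
        have e4 : |S.side ^ 2 / (4 * π) * curvDens σ₀ y| ≤
            S.side ^ 2 / (4 * π) * (CK / (1 + ‖y‖ ^ 2) ^ 2) := by
          rw [abs_mul, abs_of_nonneg (by positivity)]
          exact mul_le_mul_of_nonneg_left (hCK y) (by positivity)
        have e6 := abs_sub (phiM (wgrR n) S y) (S.side ^ 2 / (4 * π) * curvDens σ₀ y)
        rw [abs_of_nonneg (phiM_nonneg (wgrR_pos n) S y)] at e6
        have e7 : D / (1 + ‖y‖ ^ 2) ^ 2 = (289 + 64 * S.side ^ 2) / (1 + ‖y‖ ^ 2) ^ 2 +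
            S.side ^ 2 / (4 * π) * (CK / (1 + ‖y‖ ^ 2) ^ 2) := by rw [hD]; ring
        rw [e7]
        linarith
      calc |u y| * |phiM (wgrR n) S y - S.side ^ 2 / (4 * π) * curvDens σ₀ y|
          ≤ |u y| * (D / (1 + ‖y‖ ^ 2) ^ 2) := mul_le_mul_of_nonneg_left e1 (abs_nonneg _)
        _ = D * (|u y| / (1 + ‖y‖ ^ 2) ^ 2) := by ring
    · have hfr : ∀ᵐ y : ℂ, y ∉ frontier S.set := by
        rw [ae_iff]
        simp only [not_not]
        exact (phi_convex S).addHaar_frontier volume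
      filter_upwards [hfr] with y hy
      exact ((phiM_tendsto S hy).sub_const _).const_mul _
  have e : (fun n => ∫ y, (p y * (phiG σ₀ (wgrR n) S y).re +
      q y * -(phiG σ₀ (wgrR n) S y).im)) = fun n => ∫ y, u y * (phiM (wgrR n) S y -
      S.side ^ 2 / (4 * π) * curvDens σ₀ y) :=
    funext fun n => phi_pair_reg hσ S h (wgrR_pos n) (wgrR_le n)
  rw [e] at t1
  exact tendsto_nhds_unique t1 t2

end

end LQZ
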