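import Pool.Agent.LQZ.WeakGrad
import Pool.Agent.LQZ.Curv
import Pool.Agent.LQZ.Cover
import Pool.Agent.LQZ.SmoothAvg
import Pool.Agent.LQZ.PhiReg

/-!
# Project LQZ, module HP: the minimiser `h^P`
-/

open MeasureTheory Set Filter Topology InnerProductSpace ProbabilityTheory
open scoped ContDiff ENNReal NNReal Real

namespace LQZ

noncomputable section

namespace HPm

variable {σ₀ u p q u' p' q' : ℂ → ℝ}

theorem inH1_add (hσ : IsGrow σ₀) (h : InH1 σ₀ u p q) (h' : InH1 σ₀ u' p' q') :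
    InH1 σ₀ (fun x => u x + u' x) (fun x => p x + p' x) (fun x => q x + q' x) := by
  refine ⟨h.memLp.add h'.memLp, h.memLp_p.add h'.memLp_p, h.memLp_q.add h'.memLp_q, ?_⟩
  intro ψ hψ hc
  have hl1 := (h.locInt hσ).2.1
  have hl2 := (h'.locInt hσ).2.1
  have hlp := h.memLp_p.locallyIntegrable (by norm_num)
  have hlp' := h'.memLp_p.locallyIntegrable (by norm_num)
  have hlq := h.memLp_q.locallyIntegrable (by norm_num)
  have hlq' := h'.memLp_q.locallyIntegrable (by norm_num)
  have hd : ∀ v : ℂ, HasCompactSupport fun x => fderiv ℝ ψ x v := fun v => hc.fderiv_apply ℝ v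
  have hcd : ∀ v : ℂ, Continuous fun x => fderiv ℝ ψ x v := fun v => wgr_cont_dir hψ v
  obtain ⟨a1, a2⟩ := h.grad ψ hψ hc
  obtain ⟨b1, b2⟩ := h'.grad ψ hψ hc
  simp only [add_mul]
  constructor
  · rw [integral_add (wgr_mul_int hl1 (hcd 1) (hd 1)) (wgr_mul_int hl2 (hcd 1) (hd 1)),
      integral_add (wgr_mul_int hlp hψ.continuous hc) (wgr_mul_int hlp' hψ.continuous hc),
      a1, b1]
    ring
  · rw [integral_add (wgr_mul_int hl1 (hcd _) (hd _)) (wgr_mul_int hl2 (hcd _) (hd _)),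
      integral_add (wgr_mul_int hlq hψ.continuous hc) (wgr_mul_int hlq' hψ.continuous hc),
      a2, b2]
    ring

theorem inH1_smul (c : ℝ) (h : InH1 σ₀ u p q) :
    InH1 σ₀ (fun x => c * u x) (fun x => c * p x) (fun x => c * q x) := by
  refine ⟨h.memLp.const_mul c, h.memLp_p.const_mul c, h.memLp_q.const_mul c, ?_⟩
  intro ψ hψ hc
  obtain ⟨a1, a2⟩ := h.grad ψ hψ hc
  simp only [mul_assoc]
  constructor
  · rw [integral_const_mul, integral_const_mul, a1]; ring
  · rw [integral_const_mul, integral_const_mul, a2]; ring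

theorem inH1_const (hσ : IsGrow σ₀) (c : ℝ) :
    InH1 σ₀ (fun _ => c) (fun _ => 0) (fun _ => 0) := by
  have hfin := hσ.finite
  refine ⟨memLp_const c, MemLp.zero' , MemLp.zero', ?_⟩
  intro ψ hψ hc
  have key : ∀ v : ℂ, ∫ x, c * fderiv ℝ ψ x v = 0 := by
    intro v
    have := integral_mul_fderiv_eq_neg_fderiv_mul_of_integrable (μ := (volume : Measure ℂ))
      (f := fun _ : ℂ => c) (g := ψ) (v := v) (by simp)
      (((wgr_cont_dir hψ v).integrable_of_hasCompactSupport (hc.fderiv_apply ℝ v)).const_mul c)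
      ((hψ.continuous.integrable_of_hasCompactSupport hc).const_mul c)
      (fun x _ => differentiableAt_const c) (fun x _ => (hψ.differentiable (by simp)) x)
    simpa using this
  rw [key, key]
  simp

theorem inH1_smooth (hσ : IsGrow σ₀) {f : ℂ → ℝ} (hf : ContDiff ℝ ∞ f)
    (hc : HasCompactSupport f) :
    InH1 σ₀ f (fun x => fderiv ℝ f x 1) (fun x => fderiv ℝ f x Complex.I) := by
  have hfin := hσ.finite
  refine ⟨hf.continuous.memLp_of_hasCompactSupport hc,
    (wgr_cont_dir hf _).memLp_of_hasCompactSupport (hc.fderiv_apply ℝ _),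
    (wgr_cont_dir hf _).memLp_of_hasCompactSupport (hc.fderiv_apply ℝ _), ?_⟩
  intro ψ hψ hc'
  have key : ∀ v : ℂ, ∫ x, f x * fderiv ℝ ψ x v = -∫ x, fderiv ℝ f x v * ψ x := by
    intro v
    refine integral_mul_fderiv_eq_neg_fderiv_mul_of_integrable ?_ ?_ ?_
      (fun x _ => (hf.differentiable (by simp)) x) (fun x _ => (hψ.differentiable (by simp)) x)
    · exact ((wgr_cont_dir hf v).mul hψ.continuous).integrable_of_hasCompactSupport hc'.mul_left
    · exact (hf.continuous.mul (wgr_cont_dir hψ v)).integrable_of_hasCompactSupport hc.mul_right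
    · exact (hf.continuous.mul hψ.continuous).integrable_of_hasCompactSupport hc.mul_right
  exact ⟨key 1, key Complex.I⟩

theorem inH1_sum (hσ : IsGrow σ₀) (P : Finset Dy) (c : Dy → ℝ) {U Up Uq : Dy → ℂ → ℝ}
    (h : ∀ S ∈ P, InH1 σ₀ (U S) (Up S) (Uq S)) :
    InH1 σ₀ (fun x => ∑ S ∈ P, c S * U S x) (fun x => ∑ S ∈ P, c S * Up S x)
      (fun x => ∑ S ∈ P, c S * Uq S x) := by
  classical
  induction P using Finset.induction_on with
  | empty => simpa using inH1_const hσ 0
  | insert S P hS ih =>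
    have h1 := inH1_smul (c S) (h S (Finset.mem_insert_self _ _))
    have h2 := ih fun T hT => h T (Finset.mem_insert_of_mem hT)
    have h3 := inH1_add hσ h1 h2
    simpa only [Finset.sum_insert hS] using h3

/-- integrability against bounded densities -/
theorem int_mul {F : ℂ → ℝ} (hu : Integrable fun x => u x / (1 + ‖x‖ ^ 2) ^ 2)
    (hF : Measurable F) {C : ℝ} (hC : ∀ x, |F x| ≤ C / (1 + ‖x‖ ^ 2) ^ 2) :
    Integrable fun x => u x * F x := by
  have hm : Measurable fun x : ℂ => (1 + ‖x‖ ^ 2) ^ 2 := by fun_prop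
  have h1 : Integrable fun x => (F x * (1 + ‖x‖ ^ 2) ^ 2) * (u x / (1 + ‖x‖ ^ 2) ^ 2) := by
    refine hu.bdd_mul (c := C) (hF.mul hm).aestronglyMeasurable (Eventually.of_forall fun x => ?_)
    have hp : (0 : ℝ) < (1 + ‖x‖ ^ 2) ^ 2 := by positivity
    rw [Real.norm_eq_abs, abs_mul, abs_of_pos hp, ← le_div_iff₀ hp]
    exact hC x
  refine h1.congr (Eventually.of_forall fun x => ?_)
  have hp : (1 + ‖x‖ ^ 2) ^ 2 ≠ 0 := by positivity
  simp only
  field_simp

theorem ind_meas (S : Dy) : Measurable (ind S) := by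
  unfold ind
  refine measurable_const.indicator ?_
  rw [Cover.set_eq]
  exact (isClosed_Icc.reProdIm isClosed_Icc).measurableSet

theorem ind_le (S : Dy) (x : ℂ) : |ind S x| ≤ 9 / (1 + ‖x‖ ^ 2) ^ 2 := by
  unfold ind
  by_cases hx : x ∈ S.set
  · rw [indicator_of_mem hx, abs_one, le_div_iff₀ (by positivity), one_mul]
    obtain ⟨h1, h2, h3, h4⟩ := Cover.set_subset_unit S hx
    have hn : ‖x‖ ^ 2 = x.re ^ 2 + x.im ^ 2 := by
      rw [← Complex.normSq_eq_norm_sq, Complex.normSq_apply]; ring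
    rw [hn]
    nlinarith [mul_nonneg h1 (sub_nonneg.2 h2), mul_nonneg h3 (sub_nonneg.2 h4)]
  · rw [indicator_of_notMem hx, abs_zero]
    positivity

theorem tilde_le (hσ : SmoothMetric σ₀) (S : Dy) : Measurable (tilde σ₀ (ind S)) ∧
    ∃ C : ℝ, ∀ x, |tilde σ₀ (ind S) x| ≤ C / (1 + ‖x‖ ^ 2) ^ 2 := by
  obtain ⟨h1, C, hC0, hC⟩ := curvDens_le hσ
  constructor
  · exact (ind_meas S).sub (h1.measurable.const_mul _)
  · refine ⟨9 + |(∫ x, ind S x) / (∫ x, curvDens σ₀ x)| * C, fun x => ?_⟩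
    unfold tilde
    refine (abs_sub _ _).trans ?_
    rw [abs_mul, add_div, mul_div_assoc]
    exact add_le_add (ind_le S x) (mul_le_mul_of_nonneg_left (hC x) (abs_nonneg _))

theorem tilde_int (hσ : SmoothMetric σ₀) (S : Dy) :
    Integrable (tilde σ₀ (ind S)) ∧ ∫ x, tilde σ₀ (ind S) x = 0 := by
  obtain ⟨h1, h2⟩ := integral_curvDens hσ
  have h3 : Integrable (ind S) := by
    have := int_mul (u := fun _ => 1) integrable_round (ind_meas S) (ind_le S)
    simpa using this
  constructor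
  · exact h3.sub (h1.const_mul _)
  · unfold tilde
    rw [integral_sub h3 (h1.const_mul _), integral_const_mul, h2]
    have : (π : ℝ) ≠ 0 := Real.pi_ne_zero
    field_simp
    ring

theorem vol_eq (hσ : IsGrow σ₀) (f : ℂ → ℝ) (c : ℝ) (hf : Integrable f (vol σ₀)) :
    ∫ x, (f x + c) ∂(vol σ₀) = ∫ x, f x ∂(vol σ₀) + c * ((vol σ₀) univ).toReal := by
  have hfin := hσ.finite
  rw [integral_add hf (integrable_const c), integral_const, smul_eq_mul, mul_comm c]
  rfl

/-- the energy pairing -/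
theorem ener_int (h : InH1 σ₀ u p q) (h' : InH1 σ₀ u' p' q') :
    Integrable fun x => p x * p' x + q x * q' x :=
  (h.memLp_p.integrable_mul h'.memLp_p).add (h.memLp_q.integrable_mul h'.memLp_q)

variable (σ₀) in
/-- the `x` derivative of `Φ_S` -/
def gp (S : Dy) (x : ℂ) : ℝ := (gPhi σ₀ S x).re

variable (σ₀) in
/-- the `y` derivative of `Φ_S` -/
def gq (S : Dy) (x : ℂ) : ℝ := -(gPhi σ₀ S x).im

theorem comb_inH1 (hσ : SmoothMetric σ₀) (P : Finset Dy) (c : Dy → ℝ) :
    InH1 σ₀ (fun x => ∑ S ∈ P, c S * PhiS σ₀ S x) (fun x => ∑ S ∈ P, c S * gp σ₀ S x)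
      (fun x => ∑ S ∈ P, c S * gq σ₀ S x) :=
  inH1_sum (smoothMetric_grow hσ) P c fun S _ => (PhiS_inH1 hσ S).2

theorem pair_comb (hσ : SmoothMetric σ₀) (P : Finset Dy) (c : Dy → ℝ) (h : InH1 σ₀ u p q) :
    ∫ x, (p x * (∑ S ∈ P, c S * gp σ₀ S x) + q x * ∑ S ∈ P, c S * gq σ₀ S x) =
      ∑ S ∈ P, c S * ∫ x, u x * tilde σ₀ (ind S) x := by
  have e : ∀ x, p x * (∑ S ∈ P, c S * gp σ₀ S x) + q x * ∑ S ∈ P, c S * gq σ₀ S x =
      ∑ S ∈ P, c S * (p x * gp σ₀ S x + q x * gq σ₀ S x) := by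
    intro x
    rw [Finset.mul_sum, Finset.mul_sum, ← Finset.sum_add_distrib]
    exact Finset.sum_congr rfl fun S _ => by ring
  simp_rw [e]
  rw [integral_finsetSum]
  · refine Finset.sum_congr rfl fun S _ => ?_
    rw [integral_const_mul]
    congr 1
    exact PhiS_pair hσ S h
  · intro S _
    exact (ener_int h (PhiS_inH1 hσ S).2).const_mul _

theorem curv_zero (hσ : BaseMetric σ₀) {x : ℂ} (hx : x ∈ unitSquare) : curvDens σ₀ x = 0 := by
  have h1 : ∀ᶠ z in 𝓝 x, σ₀ z = 0 := (nhds_le_nhdsSet hx) hσ.2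
  have h2 : σ₀ =ᶠ[𝓝 x] fun _ => (0 : ℝ) := h1
  unfold curvDens
  have h3 : lap σ₀ x = lap (fun _ => (0 : ℝ)) x := (laplacian_congr_nhds h2).eq_of_nhds
  rw [h3]
  have h4 : lap (fun _ : ℂ => (0 : ℝ)) x = 0 := by
    rw [lap_eq_dir contDiff_const]
    simp
  rw [h4, neg_zero]

/-- A test function in the interior of a square. -/
theorem exists_bump (hσ : BaseMetric σ₀) (P : Finset Dy)
    (hd : (P : Set Dy).Pairwise fun S T => Disjoint (interior S.set) (interior T.set))
    {T : Dy} (hT : T ∈ P) : ∃ f g h : ℂ → ℝ, InH1 σ₀ f g h ∧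
      (∀ S ∈ P, S ≠ T → ∫ x, f x * tilde σ₀ (ind S) x = 0) ∧
      0 < ∫ x, f x * tilde σ₀ (ind T) x := by
  have hσ1 := smoothMetric_grow hσ.1
  have hs := Cover.side_pos T
  obtain ⟨z, hz⟩ := Cover.interior_nonempty T
  obtain ⟨r, hr, hball⟩ := Metric.isOpen_iff.1 isOpen_interior z hz
  let B : ContDiffBump z := ⟨r / 2, r, by positivity, by linarith⟩
  have hsupp : ∀ x, x ∉ interior T.set → B x = 0 := by
    intro x hx
    refine B.zero_of_le_dist ?_
    by_contra hcon
    push Not at hcon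
    exact hx (hball hcon)
  have hsm : ContDiff ℝ ∞ (B : ℂ → ℝ) := B.contDiff
  refine ⟨B, _, _, inH1_smooth hσ1 hsm B.hasCompactSupport, ?_, ?_⟩
  · intro S hS hne
    have : ∀ x, B x * tilde σ₀ (ind S) x = 0 := by
      intro x
      by_cases hx : x ∈ interior T.set
      · have h1 : curvDens σ₀ x = 0 := curv_zero hσ (Cover.set_subset_unit T (interior_subset hx))
        have h2 : ind S x = 0 := by
          unfold ind
          refine indicator_of_notMem ?_ _
          intro hxS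
          have hdis := hd hS hT hne
          have hcl : S.set ⊆ closure (interior S.set) := by
            rw [Cover.interior_eq, Complex.closure_reProdIm, Cover.set_eq]
            have := Cover.side_pos S
            rw [closure_Ioo (by nlinarith), closure_Ioo (by nlinarith)]
          have h3 := (mem_closure_iff.1 (hcl hxS)) (interior T.set) isOpen_interior hx
          rw [inter_comm] at h3
          exact h3.ne_empty (disjoint_iff_inter_eq_empty.1 hdis)
        unfold tilde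
        rw [h1, h2]
        ring
      · rw [hsupp x hx, zero_mul]
    simp only [this, integral_zero]
  · have : ∀ x, B x * tilde σ₀ (ind T) x = B x := by
      intro x
      by_cases hx : x ∈ interior T.set
      · have h1 : curvDens σ₀ x = 0 := curv_zero hσ (Cover.set_subset_unit T (interior_subset hx))
        have h2 : ind T x = 1 := by
          unfold ind
          exact indicator_of_mem (interior_subset hx) _
        unfold tilde
        rw [h1, h2]
        ring
      · rw [hsupp x hx, zero_mul]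
    simp only [this]
    exact B.integral_pos

variable (σ₀) in
/-- Gram matrix -/
def Gm (S T : Dy) : ℝ := ∫ x, PhiS σ₀ S x * tilde σ₀ (ind T) x

theorem comb_tilde (hσ : SmoothMetric σ₀) (P : Finset Dy) (c : Dy → ℝ) (k : ℝ) (T : Dy) :
    ∫ x, ((∑ S ∈ P, c S * PhiS σ₀ S x) + k) * tilde σ₀ (ind T) x =
      ∑ S ∈ P, c S * Gm σ₀ S T := by
  have hσ1 := smoothMetric_grow hσ
  obtain ⟨hm, C, hC⟩ := tilde_le hσ T
  obtain ⟨ht1, ht2⟩ := tilde_int hσ T
  have hi : ∀ S, Integrable fun x => PhiS σ₀ S x * tilde σ₀ (ind T) x := fun S =>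
    int_mul ((PhiS_inH1 hσ S).2.locInt hσ1).1 hm hC
  have e : ∀ x, ((∑ S ∈ P, c S * PhiS σ₀ S x) + k) * tilde σ₀ (ind T) x =
      (∑ S ∈ P, c S * (PhiS σ₀ S x * tilde σ₀ (ind T) x)) + k * tilde σ₀ (ind T) x := by
    intro x
    rw [add_mul, Finset.sum_mul]
    congr 1
    exact Finset.sum_congr rfl fun S _ => by ring
  simp_rw [e]
  rw [integral_add (integrable_finsetSum _ fun S _ => (hi S).const_mul _) (ht1.const_mul _),
    integral_const_mul, ht2, mul_zero, add_zero, integral_finsetSum _ fun S _ =>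
      (hi S).const_mul _]
  exact Finset.sum_congr rfl fun S _ => integral_const_mul _ _

/-- zero energy -/
theorem grad_zero (h : InH1 σ₀ u p q) (h0 : ∫ x, (p x * p x + q x * q x) = 0) :
    p =ᵐ[volume] 0 ∧ q =ᵐ[volume] 0 := by
  have h1 := (integral_eq_zero_iff_of_nonneg (fun x => add_nonneg (mul_self_nonneg _)
    (mul_self_nonneg _)) (ener_int h h)).1 h0
  constructor
  · filter_upwards [h1] with x hx
    simp only [Pi.zero_apply] at hx ⊢
    nlinarith [mul_self_nonneg (p x), mul_self_nonneg (q x)]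
  · filter_upwards [h1] with x hx
    simp only [Pi.zero_apply] at hx ⊢
    nlinarith [mul_self_nonneg (p x), mul_self_nonneg (q x)]

/-- the Gram matrix is injective -/
theorem gram_inj (hσ : BaseMetric σ₀) (P : Finset Dy)
    (hd : (P : Set Dy).Pairwise fun S T => Disjoint (interior S.set) (interior T.set))
    (c : Dy → ℝ) (hc : ∀ T ∈ P, ∑ S ∈ P, c S * Gm σ₀ S T = 0) : ∀ T ∈ P, c T = 0 := by
  have hv := comb_inH1 hσ.1 P c
  have hE : ∫ x, ((∑ S ∈ P, c S * gp σ₀ S x) * (∑ S ∈ P, c S * gp σ₀ S x) +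
      (∑ S ∈ P, c S * gq σ₀ S x) * ∑ S ∈ P, c S * gq σ₀ S x) = 0 := by
    rw [pair_comb hσ.1 P c hv]
    refine Finset.sum_eq_zero fun T hT => ?_
    have := comb_tilde hσ.1 P c 0 T
    simp only [add_zero] at this
    rw [this, hc T hT, mul_zero]
  obtain ⟨hp, hq⟩ := grad_zero hv hE
  intro T hT
  obtain ⟨f, g, h, hf, h1, h2⟩ := exists_bump hσ P hd hT
  have h3 := pair_comb hσ.1 P c hf
  have h4 : ∫ x, (g x * (∑ S ∈ P, c S * gp σ₀ S x) + h x * ∑ S ∈ P, c S * gq σ₀ S x) = 0 := by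
    rw [integral_eq_zero_of_ae]
    filter_upwards [hp, hq] with x hx hx'
    simp only [Pi.zero_apply] at hx hx' ⊢
    rw [hx, hx']
    ring
  rw [h4, Finset.sum_eq_single T (fun S hS hne => by rw [h1 S hS hne, mul_zero])
    (fun hn => absurd hT hn)] at h3
  exact (mul_eq_zero.1 h3.symm).resolve_right h2.ne'

/-- solve the linear system -/
theorem gram_solve (hσ : BaseMetric σ₀) (P : Finset Dy)
    (hd : (P : Set Dy).Pairwise fun S T => Disjoint (interior S.set) (interior T.set))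
    (b : Dy → ℝ) : ∃ c : Dy → ℝ, ∀ T ∈ P, ∑ S ∈ P, c S * Gm σ₀ S T = b T := by
  classical
  let L : (P → ℝ) →ₗ[ℝ] (P → ℝ) :=
    { toFun := fun c T => ∑ S : P, c S * Gm σ₀ S T
      map_add' := fun c c' => by
        ext T
        simp only [Pi.add_apply, add_mul, Finset.sum_add_distrib]
      map_smul' := fun r c => by
        ext T
        simp only [Pi.smul_apply, smul_eq_mul, RingHom.id_apply, mul_assoc, Finset.mul_sum] }
  have hinj : Function.Injective L := by
    rw [← LinearMap.ker_eq_bot, LinearMap.ker_eq_bot']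
    intro c hc
    have h1 := gram_inj hσ P hd (fun S => if h : S ∈ P then c ⟨S, h⟩ else 0) (fun T hT => by
      have h2 : L c ⟨T, hT⟩ = 0 := by rw [hc]; rfl
      rw [← h2, ← Finset.sum_coe_sort P]
      change _ = ∑ S : P, c S * Gm σ₀ S T
      refine Finset.sum_congr rfl fun S _ => ?_
      rw [dif_pos S.2])
    ext T
    have h3 := h1 T T.2
    simp only [T.2, dite_true] at h3
    exact h3
  obtain ⟨c, hc⟩ := (LinearMap.injective_iff_surjective.1 hinj) fun T => b T
  refine ⟨fun S => if h : S ∈ P then c ⟨S, h⟩ else 0, fun T hT => ?_⟩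
  have h2 : L c ⟨T, hT⟩ = b T := by rw [hc]
  rw [← h2, ← Finset.sum_coe_sort P]
  change _ = ∑ S : P, c S * Gm σ₀ S T
  refine Finset.sum_congr rfl fun S _ => ?_
  simp only [S.2, dite_true]

end HPm

open HPm in
theorem hp_rep {σ₀ : ℂ → ℝ} (hσ : BaseMetric σ₀) (P : Finset Dy)
    (hd : (P : Set Dy).Pairwise fun S T => Disjoint (interior S.set) (interior T.set))
    (a : Dy → ℝ) : ∃ (c : Dy → ℝ) (c₁ : ℝ),
      IsHP σ₀ P a (fun x => ∑ S ∈ P, c S * PhiS σ₀ S x + c₁) ∧
      ∀ h : ℂ → ℝ, IsHP σ₀ P a h →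
        h =ᵐ[volume] fun x => ∑ S ∈ P, c S * PhiS σ₀ S x + c₁ := by
  have hσ1 := smoothMetric_grow hσ.1
  have hfin := hσ1.finite
  have hvol : 0 < ((vol σ₀) univ).toReal :=
    ENNReal.toReal_pos (vol_pos hσ1).ne' (measure_ne_top _ _)
  obtain ⟨c, hc⟩ := gram_solve hσ P hd fun T => T.side ^ 2 * a T
  set V : ℂ → ℝ := fun x => ∑ S ∈ P, c S * PhiS σ₀ S x with hV
  have hVH : InH1 σ₀ V (fun x => ∑ S ∈ P, c S * gp σ₀ S x) (fun x => ∑ S ∈ P, c S * gq σ₀ S x) :=
    comb_inH1 hσ.1 P c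
  have hVi : Integrable V (vol σ₀) := hVH.memLp.integrable (by norm_num)
  set k : ℝ := -(∫ x, V x ∂(vol σ₀)) / ((vol σ₀) univ).toReal with hk
  -- the minimiser
  have hus : InH1 σ₀ (fun x => V x + k) (fun x => ∑ S ∈ P, c S * gp σ₀ S x)
      (fun x => ∑ S ∈ P, c S * gq σ₀ S x) := by
    have := inH1_add hσ1 hVH (inH1_const hσ1 k)
    simpa only [add_zero] using this
  have hadm : Admissible σ₀ P a (fun x => V x + k) (fun x => ∑ S ∈ P, c S * gp σ₀ S x)
      (fun x => ∑ S ∈ P, c S * gq σ₀ S x) := by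
    refine ⟨hus, ?_, ?_⟩
    · rw [vol_eq hσ1 V k hVi, hk]
      field_simp
      ring
    · intro T hT
      rw [comb_tilde hσ.1 P c k T]
      exact hc T hT
  -- difference with an admissible function
  have hdiff : ∀ u p q : ℂ → ℝ, Admissible σ₀ P a u p q →
      ∃ w wp wq : ℂ → ℝ, InH1 σ₀ w wp wq ∧ (∀ x, w x = u x - (V x + k)) ∧
        ∫ x, w x ∂(vol σ₀) = 0 ∧
        ∫ x, (p x ^ 2 + q x ^ 2) = (∫ x, ((∑ S ∈ P, c S * gp σ₀ S x) ^ 2 +
          (∑ S ∈ P, c S * gq σ₀ S x) ^ 2)) + ∫ x, (wp x * wp x + wq x * wq x) := by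
    intro u p q hu
    have hw := inH1_add hσ1 hu.inH1 (inH1_smul (-1) hus)
    refine ⟨_, _, _, hw, fun x => by ring, ?_, ?_⟩
    · rw [integral_add (hu.inH1.memLp.integrable (by norm_num))
        ((hus.memLp.integrable (by norm_num)).const_mul _), integral_const_mul, hu.mean,
        hadm.mean]
      ring
    · have hz : ∀ S ∈ P, ∫ x, (u x + -1 * (V x + k)) * tilde σ₀ (ind S) x = 0 := by
        intro S hS
        obtain ⟨hm, C, hC⟩ := tilde_le hσ.1 S
        have i1 : Integrable fun x => u x * tilde σ₀ (ind S) x :=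
          int_mul (hu.inH1.locInt hσ1).1 hm hC
        have i2 : Integrable fun x => (V x + k) * tilde σ₀ (ind S) x :=
          int_mul (hus.locInt hσ1).1 hm hC
        have e : ∀ x, (u x + -1 * (V x + k)) * tilde σ₀ (ind S) x =
            u x * tilde σ₀ (ind S) x - (V x + k) * tilde σ₀ (ind S) x := fun x => by ring
        simp_rw [e]
        rw [integral_sub i1 i2, hu.constr S hS, hadm.constr S hS, sub_self]
      have hcross := pair_comb hσ.1 P c hw
      rw [Finset.sum_eq_zero fun S hS => by rw [hz S hS, mul_zero]] at hcross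
      have hint1 := ener_int hus hus
      have hint2 := ener_int hw hw
      have hint3 := ener_int hw hus
      have e : ∀ x, p x ^ 2 + q x ^ 2 =
          ((∑ S ∈ P, c S * gp σ₀ S x) ^ 2 + (∑ S ∈ P, c S * gq σ₀ S x) ^ 2) +
          ((p x + -1 * ∑ S ∈ P, c S * gp σ₀ S x) * (p x + -1 * ∑ S ∈ P, c S * gp σ₀ S x) +
            (q x + -1 * ∑ S ∈ P, c S * gq σ₀ S x) * (q x + -1 * ∑ S ∈ P, c S * gq σ₀ S x)) +
          2 * ((p x + -1 * ∑ S ∈ P, c S * gp σ₀ S x) * (∑ S ∈ P, c S * gp σ₀ S x) +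
            (q x + -1 * ∑ S ∈ P, c S * gq σ₀ S x) * ∑ S ∈ P, c S * gq σ₀ S x) := fun x => by ring
      have i1 : Integrable fun x => ((∑ S ∈ P, c S * gp σ₀ S x) ^ 2 +
          (∑ S ∈ P, c S * gq σ₀ S x) ^ 2) := by
        simpa only [sq] using hint1
      have e1 := integral_add (i1.add hint2) (hint3.const_mul 2)
      simp only [Pi.add_apply] at e1
      rw [integral_congr_ae (Eventually.of_forall e), e1, integral_add i1 hint2,
        integral_const_mul, hcross]
      ring
  have hmin : IsMinimizer σ₀ P a fun x => V x + k := by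
    refine ⟨_, _, hadm, fun u p q hu => ?_⟩
    obtain ⟨w, wp, wq, -, -, -, h4⟩ := hdiff u p q hu
    rw [h4]
    have : 0 ≤ ∫ x, (wp x * wp x + wq x * wq x) :=
      integral_nonneg fun x => add_nonneg (mul_self_nonneg _) (mul_self_nonneg _)
    linarith
  have huniq : ∀ u : ℂ → ℝ, IsMinimizer σ₀ P a u → u =ᵐ[volume] fun x => V x + k := by
    rintro u ⟨p, q, hu, hle⟩
    obtain ⟨w, wp, wq, hw, h2, h3, h4⟩ := hdiff u p q hu
    have h5 := hle _ _ _ hadm
    have h6 : 0 ≤ ∫ x, (wp x * wp x + wq x * wq x) :=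
      integral_nonneg fun x => add_nonneg (mul_self_nonneg _) (mul_self_nonneg _)
    have h7 : ∫ x, (wp x * wp x + wq x * wq x) = 0 := by linarith
    obtain ⟨hp, hq⟩ := grad_zero hw h7
    obtain ⟨r, hr⟩ := hw.const_of_grad_zero hσ1 hp hq
    have h8 : r = 0 := by
      have h9 : w =ᵐ[vol σ₀] fun _ => r := (vol_ac σ₀).ae_eq hr
      rw [integral_congr_ae h9, integral_const, smul_eq_mul] at h3
      exact (mul_eq_zero.1 h3).resolve_left hvol.ne'
    filter_upwards [hr] with x hx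
    rw [h2 x, h8] at hx
    linarith
  -- the constant
  obtain ⟨hcI, hcv⟩ := integral_curvDens hσ.1
  obtain ⟨hcc, C, hC0, hC⟩ := curvDens_le hσ.1
  have hVc : Integrable fun x => V x * curvDens σ₀ x :=
    int_mul (hVH.locInt hσ1).1 hcc.measurable hC
  have hconst : ∀ r : ℝ, ∫ x, (V x + r) * curvDens σ₀ x =
      (∫ x, V x * curvDens σ₀ x) + r * (4 * π) := by
    intro r
    have e : ∀ x, (V x + r) * curvDens σ₀ x = V x * curvDens σ₀ x + r * curvDens σ₀ x :=
      fun x => by ring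
    simp_rw [e]
    rw [integral_add hVc (hcI.const_mul r), integral_const_mul, hcv]
  refine ⟨c, -(∫ x, V x * curvDens σ₀ x) / (4 * π), ⟨⟨fun x => V x + k, hmin,
    -(∫ x, V x * curvDens σ₀ x) / (4 * π) - k, ?_⟩, ?_⟩, ?_⟩
  · exact Eventually.of_forall fun x => by simp only [hV]; ring
  · rw [hconst]
    have : (π : ℝ) ≠ 0 := Real.pi_ne_zero
    field_simp
    ring
  · rintro h ⟨⟨u, hu, r, hr⟩, h0⟩
    have h1 := huniq u hu
    have h2 : h =ᵐ[volume] fun x => V x + (k + r) := by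
      filter_upwards [hr, h1] with x hx hx'
      rw [hx, hx']; ring
    have h3 : ∫ x, h x * curvDens σ₀ x = ∫ x, (V x + (k + r)) * curvDens σ₀ x := by
      refine integral_congr_ae ?_
      filter_upwards [h2] with x hx
      rw [hx]
    rw [h0, hconst] at h3
    have h4 : k + r = -(∫ x, V x * curvDens σ₀ x) / (4 * π) := by
      rw [eq_div_iff (by positivity)]
      linarith
    rw [h4] at h2
    exact h2

end

end LQZ
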