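import Pool.Agent.LQZ.Base
import Pool.Agent.LQZ.Pot
import Pool.Agent.LQZ.Pot2

/-!
# Project LQZ, module AVG: circle averages of the potentials
-/

open MeasureTheory Set Filter Topology InnerProductSpace ProbabilityTheory
open scoped ContDiff ENNReal NNReal Real

namespace LQZ

noncomputable section

/-! ### Circle averages and integrals over squares -/

private lemma avg_fubini {k : ℂ → ℂ → ℝ} (hk : Measurable (Function.uncurry k)) (S : Dy)
    {y : ℂ} {r B : ℝ} (hr : 0 ≤ r) (hint : ∀ w, ‖w - y‖ = r → IntegrableOn (k w) S.set)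
    (hB : ∀ w, ‖w - y‖ = r → ∫ x in S.set, ‖k w x‖ ≤ B) :
    Real.circleAverage (fun w => ∫ x in S.set, k w x) y r =
      ∫ x in S.set, Real.circleAverage (fun w => k w x) y r := by
  have hc : ∀ θ : ℝ, ‖circleMap y r θ - y‖ = r := by
    intro θ
    rw [circleMap_sub_center, norm_circleMap_zero, abs_of_nonneg hr]
  have hm : Measurable (Function.uncurry fun (θ : ℝ) (x : ℂ) => k (circleMap y r θ) x) := by
    have h1 : Measurable fun p : ℝ × ℂ => (circleMap y r p.1, p.2) :=
      ((continuous_circleMap y r).measurable.comp measurable_fst).prodMk measurable_snd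
    exact hk.comp h1
  have hI : Integrable (Function.uncurry fun (θ : ℝ) (x : ℂ) => k (circleMap y r θ) x)
      ((volume.restrict (Ioc 0 (2 * π))).prod (volume.restrict S.set)) := by
    rw [integrable_prod_iff hm.aestronglyMeasurable]
    constructor
    · exact Filter.Eventually.of_forall fun θ => hint _ (hc θ)
    · refine (integrable_const B).mono' ?_ ?_
      · exact hm.aestronglyMeasurable.norm.integral_prod_right'
      · refine Filter.Eventually.of_forall fun θ => ?_
        rw [Real.norm_of_nonneg (integral_nonneg fun x => norm_nonneg _)]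
        exact hB _ (hc θ)
  simp only [Real.circleAverage_def]
  rw [intervalIntegral.integral_of_le (by positivity), integral_integral_swap hI, ← integral_smul]
  congr 1
  funext x
  rw [intervalIntegral.integral_of_le (by positivity)]

/-! ### The kernel -/

private def Hk (r ρ : ℝ) : ℝ := max 0 (Real.log r - Real.log ρ)

private lemma Hk_nonneg (r ρ : ℝ) : 0 ≤ Hk r ρ := le_max_left _ _

private lemma Hk_zero {r ρ : ℝ} (hr : 0 < r) (h : r ≤ ρ) : Hk r ρ = 0 := by
  have := Real.log_le_log hr h
  exact max_eq_left (by linarith)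

private lemma Hk_eq {r ρ : ℝ} (hρ : 0 < ρ) (h : ρ ≤ r) : Hk r ρ = Real.log r - Real.log ρ := by
  have := Real.log_le_log hρ h
  exact max_eq_right (by linarith)

private lemma posLog_Hk {r ρ : ℝ} (hr : 0 < r) (hρ : 0 < ρ) :
    Real.log r + Real.posLog (r⁻¹ * ρ) = Real.log ρ + Hk r ρ := by
  rw [Real.posLog, Real.log_mul (by positivity) hρ.ne', Real.log_inv, Hk]
  rcases le_total (Real.log r) (Real.log ρ) with h | h
  · rw [max_eq_right (by linarith), max_eq_left (by linarith)]
    ring
  · rw [max_eq_left (by linarith), max_eq_right (by linarith)]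
    ring

private lemma Hk_radial_int {r : ℝ} (hr : 0 < r) :
    IntegrableOn (fun ρ => ρ ^ (Module.finrank ℝ ℂ - 1) • Hk r ρ) (Ioi 0) ∧
    ∫ ρ in Ioi (0 : ℝ), ρ ^ (Module.finrank ℝ ℂ - 1) • Hk r ρ = r ^ 2 / 4 := by
  rw [Complex.finrank_real_complex]
  norm_num
  have hcont : Continuous fun ρ : ℝ => ρ * Real.log r - ρ * Real.log ρ :=
    (continuous_id.mul continuous_const).sub Real.continuous_mul_log
  have heq : ∀ ρ ∈ Ioc 0 r, ρ * Hk r ρ = ρ * Real.log r - ρ * Real.log ρ := by
    intro ρ hρ
    rw [Hk_eq hρ.1 hρ.2, mul_sub]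
  have h0 : ∀ ρ ∈ Ioi (0 : ℝ) \ Ioc 0 r, ρ * Hk r ρ = 0 := by
    rintro ρ ⟨h1, h2⟩
    rw [Hk_zero hr, mul_zero]
    by_contra h3
    exact h2 ⟨h1, (not_le.1 h3).le⟩
  have hi1 : IntegrableOn (fun ρ : ℝ => ρ * Hk r ρ) (Ioc 0 r) := by
    have h1 : IntegrableOn (fun ρ : ℝ => ρ * Real.log r - ρ * Real.log ρ) (Ioc 0 r) :=
      (hcont.continuousOn.integrableOn_Icc (a := 0) (b := r)).mono_set Ioc_subset_Icc_self
    exact h1.congr_fun (fun ρ hρ => (heq ρ hρ).symm) measurableSet_Ioc
  refine ⟨hi1.of_forall_sdiff_eq_zero measurableSet_Ioi h0, ?_⟩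
  rw [setIntegral_eq_of_subset_of_forall_sdiff_eq_zero measurableSet_Ioi
    (fun ρ hρ => hρ.1 : Ioc 0 r ⊆ Ioi 0) h0, setIntegral_congr_fun measurableSet_Ioc heq,
    ← intervalIntegral.integral_of_le hr.le]
  have hF : ∫ ρ in (0 : ℝ)..r, (ρ * Real.log r - ρ * Real.log ρ) =
      (fun ρ : ℝ => ρ ^ 2 / 2 * Real.log r - ρ / 2 * (ρ * Real.log ρ) + ρ ^ 2 / 4) r -
      (fun ρ : ℝ => ρ ^ 2 / 2 * Real.log r - ρ / 2 * (ρ * Real.log ρ) + ρ ^ 2 / 4) 0 := by
    refine intervalIntegral.integral_eq_sub_of_hasDeriv_right_of_le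
      (f := fun ρ : ℝ => ρ ^ 2 / 2 * Real.log r - ρ / 2 * (ρ * Real.log ρ) + ρ ^ 2 / 4)
      (f' := fun ρ : ℝ => ρ * Real.log r - ρ * Real.log ρ) hr.le ?_ ?_ ?_
    · apply Continuous.continuousOn
      have := Real.continuous_mul_log
      fun_prop
    · intro ρ hρ
      apply HasDerivAt.hasDerivWithinAt
      have h1 : HasDerivAt (fun ρ : ℝ => ρ ^ 2 / 2 * Real.log r) (ρ * Real.log r) ρ := by
        have h2 := ((hasDerivAt_pow 2 ρ).div_const 2).mul_const (Real.log r)
        convert! h2 using 1
        push_cast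
        ring
      have h3 : HasDerivAt (fun ρ : ℝ => ρ / 2 * (ρ * Real.log ρ))
          (ρ * Real.log ρ + ρ / 2) ρ := by
        have h4 : HasDerivAt (fun ρ : ℝ => ρ * Real.log ρ) (1 * Real.log ρ + ρ * ρ⁻¹) ρ :=
          (hasDerivAt_id ρ).mul (Real.hasDerivAt_log hρ.1.ne')
        have h5 := ((hasDerivAt_id ρ).div_const 2).mul h4
        convert! h5 using 1
        have := hρ.1.ne'
        simp only [id]
        field_simp
        ring
      have h6 : HasDerivAt (fun ρ : ℝ => ρ ^ 2 / 4) (ρ / 2) ρ := by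
        have h7 := (hasDerivAt_pow 2 ρ).div_const 4
        convert! h7 using 1
        push_cast
        ring
      have h8 := (h1.sub h3).add h6
      convert! h8 using 1
      ring
    · exact hcont.intervalIntegrable _ _
  rw [hF]
  simp only
  rw [Real.log_zero]
  ring

private lemma Hk_int {r : ℝ} (hr : 0 < r) : Integrable (fun v : ℂ => Hk r ‖v‖) ∧
    ∫ v : ℂ, Hk r ‖v‖ = π * r ^ 2 / 2 := by
  obtain ⟨h1, h2⟩ := Hk_radial_int hr
  refine ⟨(integrable_fun_norm_addHaar (μ := (volume : Measure ℂ)) (f := Hk r)).2 h1, ?_⟩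
  rw [integral_fun_norm_addHaar (μ := (volume : Measure ℂ)) (Hk r), h2,
    Complex.finrank_real_complex, measureReal_def, Complex.volume_ball]
  simp
  ring

/-! ### The formula for the average of the potential -/

private lemma const_intS (S : Dy) (c : ℝ) : IntegrableOn (fun _ : ℂ => c) S.set :=
  integrableOn_const (pot_volume_ne_top S)

private lemma log_abs_le {S : Dy} {u : ℂ} (hu : u ∈ S.set) (w : ℂ) :
    ‖Real.log ‖u - w‖‖ ≤ (4 + ‖w‖) + 2 * ‖w - u‖ ^ (-(3 / 2) : ℝ) := by
  have h0 : 0 ≤ ‖w - u‖ ^ (-(3 / 2) : ℝ) := by positivity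
  have h1 : ‖u - w‖ ≤ 2 + ‖w‖ := by
    have := norm_sub_le u w
    have := pot_norm_le hu
    linarith
  have hw := norm_nonneg w
  rcases (norm_nonneg (u - w)).eq_or_lt with h2 | h2
  · rw [← h2, Real.log_zero, norm_zero]
    positivity
  · rw [Real.norm_eq_abs, abs_le]
    constructor
    · have h3 : Real.log (‖u - w‖⁻¹) ≤ 2 * (1 + ‖u - w‖ ^ (-(3 / 2) : ℝ)) := by
        rcases le_or_gt 1 ‖u - w‖ with h | h
        · have h4 : Real.log (‖u - w‖⁻¹) ≤ 0 :=
            Real.log_nonpos (by positivity) (inv_le_one_of_one_le₀ h)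
          have h5 : 0 ≤ ‖u - w‖ ^ (-(3 / 2) : ℝ) := by positivity
          linarith
        · have h4 : Real.log (‖u - w‖⁻¹) ≤ ‖u - w‖⁻¹ - 1 := Real.log_le_sub_one_of_pos (by positivity)
          have h5 : ‖u - w‖⁻¹ ≤ ‖u - w‖ ^ (-(3 / 2) : ℝ) := by
            rw [← Real.rpow_neg_one]
            exact Real.rpow_le_rpow_of_exponent_ge h2 h.le (by norm_num)
          have h6 : 0 ≤ ‖u - w‖ ^ (-(3 / 2) : ℝ) := by positivity
          linarith
      rw [Real.log_inv] at h3
      rw [norm_sub_rev w u]
      linarith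
    · have h3 := Real.log_le_sub_one_of_pos h2
      linarith

private lemma avg_formula (S : Dy) (y : ℂ) {r : ℝ} (hr : 0 < r) :
    Real.circleAverage (LamS S) y r - LamS S y =
      -(1 / (2 * π)) * ∫ x in S.set, Hk r ‖x - y‖ := by
  obtain ⟨C, hC0, hC⟩ := pot_sing S
  have h1 : Real.circleAverage (fun w => ∫ x in S.set, Real.log ‖x - w‖) y r =
      ∫ x in S.set, Real.circleAverage (fun w => Real.log ‖x - w‖) y r := by
    apply avg_fubini (B := (4 + (‖y‖ + r)) * S.side ^ 2 + 2 * C) _ S hr.le
    · intro w _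
      exact pot_log_integrable S w
    · intro w hw
      have hwn : ‖w‖ ≤ ‖y‖ + r := by
        have := norm_add_le (w - y) y
        rw [sub_add_cancel, hw] at this
        linarith
      calc ∫ x in S.set, ‖Real.log ‖x - w‖‖
          ≤ ∫ x in S.set, ((4 + ‖w‖) + 2 * ‖w - x‖ ^ (-(3 / 2) : ℝ)) := by
            apply setIntegral_mono_on (pot_log_integrable S w).norm
              ((const_intS S _).add ((hC w).1.const_mul 2)) (pot_measurable S)
            intro u hu
            exact log_abs_le hu w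
        _ = (4 + ‖w‖) * S.side ^ 2 + 2 * ∫ x in S.set, ‖w - x‖ ^ (-(3 / 2) : ℝ) := by
            rw [integral_add (const_intS S _) ((hC w).1.const_mul 2), setIntegral_const,
              pot_volume_real, smul_eq_mul, integral_const_mul]
            ring
        _ ≤ (4 + (‖y‖ + r)) * S.side ^ 2 + 2 * C := by
            have h2 := (hC w).2
            have h3 : (4 + ‖w‖) * S.side ^ 2 ≤ (4 + (‖y‖ + r)) * S.side ^ 2 :=
              mul_le_mul_of_nonneg_right (by linarith) (by positivity)
            linarith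
    · exact Real.measurable_log.comp (measurable_snd.sub measurable_fst).norm
  have h2 : Real.circleAverage (LamS S) y r = -(1 / (2 * π)) *
      Real.circleAverage (fun w => ∫ x in S.set, Real.log ‖x - w‖) y r := by
    have h3 : LamS S = fun w => (-(1 / (2 * π)) : ℝ) • ∫ x in S.set, Real.log ‖x - w‖ := rfl
    rw [h3, Real.circleAverage_fun_smul, smul_eq_mul]
  have h4 : ∫ x in S.set, Real.circleAverage (fun w => Real.log ‖x - w‖) y r =
      ∫ x in S.set, (Real.log ‖x - y‖ + Hk r ‖x - y‖) := by
    apply integral_congr_ae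
    have hx : ∀ᵐ u : ℂ, u ≠ y := by
      rw [ae_iff]
      simp
    filter_upwards [ae_restrict_of_ae hx] with u hu
    have h5 : 0 < ‖u - y‖ := norm_pos_iff.2 (sub_ne_zero.2 hu)
    have h6 : (fun w => Real.log ‖u - w‖) = (fun w => Real.log ‖w - u‖) := by
      funext w
      rw [norm_sub_rev]
    rw [h6, circleAverage_log_norm_sub_const_eq_log_radius_add_posLog hr.ne', norm_sub_rev y u]
    exact posLog_Hk hr h5
  have hHi : IntegrableOn (fun x => Hk r ‖x - y‖) S.set :=
    ((Hk_int hr).1.comp_sub_right y).integrableOn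
  rw [h2, h1, h4, integral_add (pot_log_integrable S y) hHi]
  unfold LamS
  ring

/-! ### Inner and outer squares -/

private def rect (a b c d : ℝ) : Set ℂ :=
  Complex.measurableEquivRealProd ⁻¹' (Icc a b ×ˢ Icc c d)

private lemma mem_rect {a b c d : ℝ} {z : ℂ} :
    z ∈ rect a b c d ↔ (a ≤ z.re ∧ z.re ≤ b) ∧ (c ≤ z.im ∧ z.im ≤ d) := by
  simp only [rect, mem_preimage, Complex.measurableEquivRealProd_apply, mem_prod, mem_Icc]

private lemma rect_meas (a b c d : ℝ) : MeasurableSet (rect a b c d) :=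
  Complex.measurableEquivRealProd.measurable (measurableSet_Icc.prod measurableSet_Icc)

private lemma rect_vol (a b c d : ℝ) :
    volume (rect a b c d) = ENNReal.ofReal (b - a) * ENNReal.ofReal (d - c) := by
  rw [rect, Complex.volume_preserving_equiv_real_prod.measure_preimage
    (measurableSet_Icc.prod measurableSet_Icc).nullMeasurableSet, Measure.volume_eq_prod,
    Measure.prod_prod, Real.volume_Icc, Real.volume_Icc]

private lemma rect_volr (a b c d : ℝ) :
    volume.real (rect a b c d) = max (b - a) 0 * max (d - c) 0 := by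
  rw [measureReal_def, rect_vol, ENNReal.toReal_mul]
  rfl

private lemma rect_fin (a b c d : ℝ) : volume (rect a b c d) ≠ ⊤ := by
  rw [rect_vol]
  exact ENNReal.mul_ne_top ENNReal.ofReal_ne_top ENNReal.ofReal_ne_top

/-- the square enlarged by `t` -/
private def fat (S : Dy) (t : ℝ) : Set ℂ :=
  rect (S.i * S.side - t) ((S.i + 1) * S.side + t) (S.j * S.side - t) ((S.j + 1) * S.side + t)

private lemma fat_meas (S : Dy) (t : ℝ) : MeasurableSet (fat S t) := rect_meas _ _ _ _

private lemma fat_fin (S : Dy) (t : ℝ) : volume (fat S t) ≠ ⊤ := rect_fin _ _ _ _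

private lemma fat_zero (S : Dy) : fat S 0 = S.set := by
  ext z
  rw [fat, mem_rect, Dy.set, mem_ofPred_eq]
  simp only [sub_zero, add_zero]
  tauto

private lemma fat_mono (S : Dy) {s t : ℝ} (h : s ≤ t) : fat S s ⊆ fat S t := by
  intro z hz
  rw [fat, mem_rect] at hz ⊢
  obtain ⟨⟨h1, h2⟩, h3, h4⟩ := hz
  exact ⟨⟨by linarith, by linarith⟩, by linarith, by linarith⟩

private lemma fat_move {S : Dy} {s : ℝ} {x y : ℂ} {r : ℝ} (hy : y ∈ fat S s) (h : ‖x - y‖ < r) :
    x ∈ fat S (s + r) := by
  rw [fat, mem_rect] at hy ⊢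
  obtain ⟨⟨h1, h2⟩, h3, h4⟩ := hy
  have h5 := (Complex.abs_re_le_norm (x - y)).trans h.le
  have h6 := (Complex.abs_im_le_norm (x - y)).trans h.le
  rw [Complex.sub_re, abs_le] at h5
  rw [Complex.sub_im, abs_le] at h6
  exact ⟨⟨by linarith, by linarith⟩, by linarith, by linarith⟩

private lemma fat_vol (S : Dy) (t : ℝ) : volume.real (fat S t) = max (S.side + 2 * t) 0 ^ 2 := by
  rw [fat, rect_volr, sq]
  congr 2 <;> ring

private lemma side_le_one (S : Dy) : S.side ≤ 1 := by
  unfold Dy.side
  exact inv_le_one_of_one_le₀ (one_le_pow₀ (by norm_num))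

private lemma shell_vol (S : Dy) {r : ℝ} (hr : 0 < r) (hr' : r ≤ 1 / 5) :
    volume.real (fat S r) - volume.real (fat S (-r)) ≤ 8 * r := by
  rw [fat_vol, fat_vol]
  have h1 := side_le_one S
  have h2 := pot_side_pos S
  rw [max_eq_left (by positivity)]
  rcases le_total 0 (S.side + 2 * -r) with h | h
  · rw [max_eq_left h]
    nlinarith
  · rw [max_eq_right h]
    nlinarith

private lemma pointwise_bound (S : Dy) (y : ℂ) {r : ℝ} (hr : 0 < r) :
    |Real.circleAverage (LamS S) y r - LamS S y - r ^ 2 / 4 * -(ind S y)| ≤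
      r ^ 2 / 4 * ((fat S r).indicator (fun _ => (1 : ℝ)) y -
        (fat S (-r)).indicator (fun _ => (1 : ℝ)) y) := by
  obtain ⟨hHi, hHv⟩ := Hk_int hr
  have hHi' : Integrable fun x => Hk r ‖x - y‖ := hHi.comp_sub_right y
  have hHv' : ∫ x : ℂ, Hk r ‖x - y‖ = π * r ^ 2 / 2 := by
    rw [← hHv]
    exact integral_sub_right_eq_self (fun v : ℂ => Hk r ‖v‖) y
  have hI0 : 0 ≤ ∫ x in S.set, Hk r ‖x - y‖ := integral_nonneg fun x => Hk_nonneg _ _
  have hI1 : ∫ x in S.set, Hk r ‖x - y‖ ≤ π * r ^ 2 / 2 := by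
    rw [← hHv']
    exact setIntegral_le_integral hHi' (Filter.Eventually.of_forall fun x => Hk_nonneg _ _)
  have hpi : 0 < π := Real.pi_pos
  have hscale : 1 / (2 * π) * (π * r ^ 2 / 2) = r ^ 2 / 4 := by
    field_simp
    ring
  rw [avg_formula S y hr]
  by_cases hin : y ∈ fat S (-r)
  · have hyS : y ∈ S.set := by
      rw [← fat_zero]
      exact fat_mono S (by linarith) hin
    have hyo : y ∈ fat S r := fat_mono S (by linarith) hin
    have hfull : ∫ x in S.set, Hk r ‖x - y‖ = π * r ^ 2 / 2 := by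
      rw [← hHv']
      apply setIntegral_eq_integral_of_forall_compl_eq_zero
      intro x hx
      apply Hk_zero hr
      by_contra h
      push Not at h
      apply hx
      have := fat_move hin h
      rwa [neg_add_cancel, fat_zero] at this
    rw [hfull, ind, indicator_of_mem hyS, indicator_of_mem hyo, indicator_of_mem hin]
    have : -(1 / (2 * π)) * (π * r ^ 2 / 2) - r ^ 2 / 4 * -1 = 0 := by
      rw [neg_mul, hscale]
      ring
    rw [this]
    simp
  · by_cases hout : y ∈ fat S r
    · rw [indicator_of_mem hout, indicator_of_notMem hin]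
      have h1 : 0 ≤ 1 / (2 * π) * ∫ x in S.set, Hk r ‖x - y‖ := by positivity
      have h2 : 1 / (2 * π) * ∫ x in S.set, Hk r ‖x - y‖ ≤ r ^ 2 / 4 := by
        rw [← hscale]
        exact mul_le_mul_of_nonneg_left hI1 (by positivity)
      have h3 : 0 ≤ ind S y ∧ ind S y ≤ 1 := by
        unfold ind
        by_cases h : y ∈ S.set
        · rw [indicator_of_mem h]
          norm_num
        · rw [indicator_of_notMem h]
          norm_num
      have h4 : 0 ≤ r ^ 2 / 4 := by positivity
      have h5 : r ^ 2 / 4 * ind S y ≤ r ^ 2 / 4 := by nlinarith [h3.2]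
      have h6 : 0 ≤ r ^ 2 / 4 * ind S y := mul_nonneg h4 h3.1
      rw [abs_le]
      constructor <;> nlinarith
    · have hyS : y ∉ S.set := by
        intro h
        apply hout
        rw [← fat_zero] at h
        exact fat_mono S hr.le h
      have hzero : ∫ x in S.set, Hk r ‖x - y‖ = 0 := by
        apply setIntegral_eq_zero_of_forall_eq_zero
        intro x hx
        apply Hk_zero hr
        by_contra h
        push Not at h
        apply hout
        rw [norm_sub_rev] at h
        rw [← fat_zero] at hx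
        have := fat_move hx h
        rwa [zero_add] at this
      rw [hzero, ind, indicator_of_notMem hyS, indicator_of_notMem hout, indicator_of_notMem hin]
      simp

theorem LamS_avg (S : Dy) (R : ℝ) : ∃ C : ℝ, ∀ r, 0 < r → r ≤ 1 / 5 →
    ∫ y in Metric.ball 0 R,
      |Real.circleAverage (LamS S) y r - LamS S y - r ^ 2 / 4 * -(ind S y)| ≤ C * r ^ 3 := by
  refine ⟨2, fun r hr hr' => ?_⟩
  have hi : ∀ t, Integrable ((fat S t).indicator (fun _ => (1 : ℝ))) := by
    intro t
    exact (integrableOn_const (fat_fin S t)).integrable_indicator (fat_meas S t)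
  have hiv : ∀ t, ∫ y, (fat S t).indicator (fun _ => (1 : ℝ)) y = volume.real (fat S t) := by
    intro t
    rw [integral_indicator (fat_meas S t), setIntegral_const, smul_eq_mul, mul_one]
  have hg : Integrable fun y => r ^ 2 / 4 * ((fat S r).indicator (fun _ => (1 : ℝ)) y -
        (fat S (-r)).indicator (fun _ => (1 : ℝ)) y) := ((hi r).sub (hi (-r))).const_mul _
  have hg0 : ∀ y, 0 ≤ r ^ 2 / 4 * ((fat S r).indicator (fun _ => (1 : ℝ)) y -
        (fat S (-r)).indicator (fun _ => (1 : ℝ)) y) := fun y =>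
    (abs_nonneg _).trans (pointwise_bound S y hr)
  calc ∫ y in Metric.ball 0 R,
        |Real.circleAverage (LamS S) y r - LamS S y - r ^ 2 / 4 * -(ind S y)|
      ≤ ∫ y in Metric.ball 0 R, r ^ 2 / 4 * ((fat S r).indicator (fun _ => (1 : ℝ)) y -
        (fat S (-r)).indicator (fun _ => (1 : ℝ)) y) := by
        apply integral_mono_of_nonneg (Filter.Eventually.of_forall fun y => abs_nonneg _)
          hg.integrableOn (Filter.Eventually.of_forall fun y => pointwise_bound S y hr)
    _ ≤ ∫ y, r ^ 2 / 4 * ((fat S r).indicator (fun _ => (1 : ℝ)) y -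
        (fat S (-r)).indicator (fun _ => (1 : ℝ)) y) :=
        setIntegral_le_integral hg (Filter.Eventually.of_forall hg0)
    _ = r ^ 2 / 4 * (volume.real (fat S r) - volume.real (fat S (-r))) := by
        rw [integral_const_mul, integral_sub (hi r) (hi (-r)), hiv, hiv]
    _ ≤ r ^ 2 / 4 * (8 * r) := mul_le_mul_of_nonneg_left (shell_vol S hr hr') (by positivity)
    _ = 2 * r ^ 3 := by ring

/-! ### The chart at infinity -/

theorem LamS'_avg (S : Dy) {y : ℂ} {r : ℝ} (hy : ‖y‖ < 1 / 2) (hr : 0 < r) (hr' : r ≤ 1 / 5) :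
    Real.circleAverage (LamS' S) y r = LamS' S y := by
  have hbd : ∀ w : ℂ, ‖w‖ ≤ 7 / 10 → ∀ u ∈ S.set, ‖Real.log ‖1 - w * u‖‖ ≤ 1000 := by
    intro w hw u hu
    have h4 := pot2_norm_le hu
    have h5 : ‖w * u‖ ≤ 7 / 10 * (1415 / 1000) := by
      rw [norm_mul]
      exact mul_le_mul hw h4 (norm_nonneg _) (by norm_num)
    have h6 := norm_sub_le (1 : ℂ) (w * u)
    have h7 := norm_sub_norm_le (1 : ℂ) (w * u)
    rw [norm_one] at h6 h7
    have h3 : 0 < ‖1 - w * u‖ := by linarith
    rw [Real.norm_eq_abs, abs_le]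
    constructor
    · have h8 := Real.log_le_sub_one_of_pos (inv_pos.2 h3)
      rw [Real.log_inv] at h8
      have h9 : (‖1 - w * u‖)⁻¹ ≤ 1000 := by
        rw [inv_le_comm₀ h3 (by norm_num)]
        linarith
      linarith
    · have h8 := Real.log_le_sub_one_of_pos h3
      linarith
  have hint : ∀ w : ℂ, ‖w‖ ≤ 7 / 10 → IntegrableOn (fun u => Real.log ‖1 - w * u‖) S.set := by
    intro w hw
    refine (const_intS S 1000).mono' ?_ ?_
    · exact (Real.measurable_log.comp
        (measurable_const.sub (measurable_const.mul measurable_id)).norm).aestronglyMeasurable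
    · filter_upwards [ae_restrict_mem (pot_measurable S)] with u hu
      exact hbd w hw u hu
  have hw7 : ∀ w : ℂ, ‖w - y‖ = r → ‖w‖ ≤ 7 / 10 := by
    intro w hw
    have := norm_add_le (w - y) y
    rw [sub_add_cancel, hw] at this
    linarith
  have h1 : Real.circleAverage (fun w => ∫ x in S.set, Real.log ‖1 - w * x‖) y r =
      ∫ x in S.set, Real.circleAverage (fun w => Real.log ‖1 - w * x‖) y r := by
    apply avg_fubini (B := 1000 * S.side ^ 2) _ S hr.le
    · intro w hw
      exact hint w (hw7 w hw)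
    · intro w hw
      calc ∫ x in S.set, ‖Real.log ‖1 - w * x‖‖ ≤ ∫ x in S.set, (1000 : ℝ) := by
            apply setIntegral_mono_on (hint w (hw7 w hw)).norm (const_intS S _) (pot_measurable S)
            intro u hu
            exact hbd w (hw7 w hw) u hu
        _ = 1000 * S.side ^ 2 := by
            rw [setIntegral_const, pot_volume_real, smul_eq_mul]
            ring
    · exact Real.measurable_log.comp
        (measurable_const.sub (measurable_fst.mul measurable_snd)).norm
  have h2 : Real.circleAverage (LamS' S) y r = -(1 / (2 * π)) *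
      Real.circleAverage (fun w => ∫ x in S.set, Real.log ‖1 - w * x‖) y r := by
    have h3 : LamS' S = fun w => (-(1 / (2 * π)) : ℝ) • ∫ x in S.set, Real.log ‖1 - w * x‖ := rfl
    rw [h3, Real.circleAverage_fun_smul, smul_eq_mul]
  have h4 : ∫ x in S.set, Real.circleAverage (fun w => Real.log ‖1 - w * x‖) y r =
      ∫ x in S.set, Real.log ‖1 - y * x‖ := by
    apply setIntegral_congr_fun (pot_measurable S)
    intro u hu
    show Real.circleAverage (fun w => Real.log ‖1 - w * u‖) y r = Real.log ‖1 - y * u‖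
    rcases eq_or_ne u 0 with rfl | hu0
    · simp only [mul_zero, sub_zero, norm_one, Real.log_one]
      exact Real.circleAverage_const 0 y r
    · have hun : 0 < ‖u‖ := norm_pos_iff.2 hu0
      have hinv : 1000 / 1415 ≤ ‖u⁻¹‖ := by
        rw [norm_inv, le_inv_comm₀ (by norm_num) hun]
        have := pot2_norm_le hu
        norm_num
        linarith
      have hsplit : ∀ w : ℂ, ‖1 - w * u‖ = ‖u‖ * ‖w - u⁻¹‖ := by
        intro w
        rw [← norm_mul, ← norm_neg]
        congr 1
        field_simp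
        ring
      have hfar : r < ‖y - u⁻¹‖ := by
        have := norm_sub_norm_le (u⁻¹) y
        rw [norm_sub_rev] at this
        linarith
      have hne : ∀ w ∈ Metric.sphere y |r|, w - u⁻¹ ≠ 0 := by
        intro w hw h
        rw [sub_eq_zero] at h
        rw [mem_sphere_iff_norm, h, norm_sub_rev, abs_of_pos hr] at hw
        linarith
      have h5 : Real.circleAverage (fun w => Real.log ‖1 - w * u‖) y r =
          Real.circleAverage (fun w => Real.log ‖u‖ + Real.log ‖w - u⁻¹‖) y r := by
        apply Real.circleAverage_congr_sphere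
        intro w hw
        show Real.log ‖1 - w * u‖ = Real.log ‖u‖ + Real.log ‖w - u⁻¹‖
        rw [hsplit, Real.log_mul hun.ne' (norm_ne_zero_iff.2 (hne w hw))]
      have hci : CircleIntegrable (fun w => Real.log ‖w - u⁻¹‖) y r := by
        apply ContinuousOn.circleIntegrable'
        apply ContinuousOn.log
        · fun_prop
        · intro w hw
          exact norm_ne_zero_iff.2 (hne w hw)
      rw [h5, Real.circleAverage_fun_add (circleIntegrable_const _ _ _) hci,
        Real.circleAverage_const,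
        circleAverage_log_norm_sub_const_eq_log_radius_add_posLog hr.ne',
        posLog_Hk hr (by linarith), Hk_zero hr hfar.le, add_zero, hsplit,
        Real.log_mul hun.ne' (by linarith)]
  rw [h2, h1, h4]
  rfl

end

end LQZ
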