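import Pool.Agent.LQZ.Sphere
import Pool.Agent.LQZ.Pot
import Pool.Agent.LQZ.Pot2
import Pool.Agent.LQZ.PotAvg
import Pool.Agent.LQZ.SmoothAvg

/-! # Project LQZ, module MBUILD: the metric of the problem -/

open MeasureTheory Set Filter Topology InnerProductSpace
open scoped ContDiff ENNReal NNReal Real

namespace LQZ

noncomputable section

/-- `IsChart` with general coefficient of the logarithm at infinity -/
structure PreChart (φ : ℂ → ℝ) (a : ℂ → ℂ) (D : ℂ → ℝ) (R κ : ℝ) : Prop where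
  cont : Continuous φ
  growth : ∃ C : ℝ, ∀ x, |φ x + κ * Real.log (1 + ‖x‖ ^ 2)| ≤ C
  ameas : Measurable a
  abd : ∃ C : ℝ, ∀ y, ‖y‖ ≤ R → ‖a y‖ ≤ C
  taylor : ∃ C : ℝ, ∀ x y, ‖y‖ ≤ R → ‖x - y‖ ≤ 1 / 5 →
    |φ x - φ y - (a y * (x - y)).re| ≤ C * ‖x - y‖ ^ (3 / 2 : ℝ)
  Dint : IntegrableOn D (Metric.ball 0 R)
  avg : ∃ C : ℝ, ∀ r, 0 < r → r ≤ 1 / 5 →
    ∫ y in Metric.ball 0 R, |Real.circleAverage φ y r - φ y - r ^ 2 / 4 * D y| ≤ C * r ^ 3

theorem PreChart.isChart {φ : ℂ → ℝ} {a : ℂ → ℂ} {D : ℂ → ℝ} {R : ℝ} (h : PreChart φ a D R 1) :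
    IsChart φ a D R where
  cont := h.cont
  growth := by simpa using h.growth
  ameas := h.ameas
  abd := h.abd
  taylor := h.taylor
  Dint := h.Dint
  avg := h.avg

theorem mb_circleAverage_continuous {φ : ℂ → ℝ} (hφ : Continuous φ) (r : ℝ) :
    Continuous fun y : ℂ => Real.circleAverage φ y r := by
  have h : Continuous fun y : ℂ => ∫ θ in (0 : ℝ)..2 * π, φ (circleMap y r θ) := by
    refine intervalIntegral.continuous_parametric_intervalIntegral_of_continuous' ?_ _ _
    exact hφ.comp (by unfold circleMap; fun_prop)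
  exact h.const_smul ((2 * π)⁻¹ : ℝ)

theorem mb_circleIntegrable {φ : ℂ → ℝ} (hφ : Continuous φ) (y : ℂ) (r : ℝ) :
    CircleIntegrable φ y r :=
  (hφ.comp (continuous_circleMap y r)).intervalIntegrable _ _

theorem mb_avg_integrable {φ D : ℂ → ℝ} (hφ : Continuous φ) {R : ℝ}
    (hD : IntegrableOn D (Metric.ball 0 R)) (r : ℝ) :
    IntegrableOn (fun y => Real.circleAverage φ y r - φ y - r ^ 2 / 4 * D y)
      (Metric.ball 0 R) := by
  have h1 : ∀ {F : ℂ → ℝ}, Continuous F → IntegrableOn F (Metric.ball 0 R) := by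
    intro F hF
    exact (hF.continuousOn.integrableOn_compact (isCompact_closedBall (0 : ℂ) R)).mono_set
      Metric.ball_subset_closedBall
  exact ((h1 (mb_circleAverage_continuous hφ r)).sub (h1 hφ)).sub (hD.const_mul _)

theorem PreChart.add {φ ψ : ℂ → ℝ} {a b : ℂ → ℂ} {D E : ℂ → ℝ} {R κ l : ℝ}
    (h : PreChart φ a D R κ) (k : PreChart ψ b E R l) :
    PreChart (fun x => φ x + ψ x) (fun x => a x + b x) (fun x => D x + E x) R (κ + l) where
  cont := h.cont.add k.cont
  growth := by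
    obtain ⟨C, hC⟩ := h.growth
    obtain ⟨K, hK⟩ := k.growth
    refine ⟨C + K, fun x => ?_⟩
    have e : φ x + ψ x + (κ + l) * Real.log (1 + ‖x‖ ^ 2) =
      (φ x + κ * Real.log (1 + ‖x‖ ^ 2)) + (ψ x + l * Real.log (1 + ‖x‖ ^ 2)) := by ring
    rw [e]
    exact (abs_add_le _ _).trans (add_le_add (hC x) (hK x))
  ameas := h.ameas.add k.ameas
  abd := by
    obtain ⟨C, hC⟩ := h.abd
    obtain ⟨K, hK⟩ := k.abd
    exact ⟨C + K, fun y hy => (norm_add_le _ _).trans (add_le_add (hC y hy) (hK y hy))⟩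
  taylor := by
    obtain ⟨C, hC⟩ := h.taylor
    obtain ⟨K, hK⟩ := k.taylor
    refine ⟨C + K, fun x y hy hxy => ?_⟩
    have e : φ x + ψ x - (φ y + ψ y) - ((a y + b y) * (x - y)).re =
        (φ x - φ y - (a y * (x - y)).re) + (ψ x - ψ y - (b y * (x - y)).re) := by
      rw [add_mul, Complex.add_re]; ring
    rw [e, add_mul]
    exact (abs_add_le _ _).trans (add_le_add (hC x y hy hxy) (hK x y hy hxy))
  Dint := h.Dint.add k.Dint
  avg := by
    obtain ⟨C, hC⟩ := h.avg
    obtain ⟨K, hK⟩ := k.avg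
    refine ⟨C + K, fun r hr hr' => ?_⟩
    have i1 := (mb_avg_integrable h.cont h.Dint r).abs
    have i2 := (mb_avg_integrable k.cont k.Dint r).abs
    have i3 := (mb_avg_integrable (h.cont.add k.cont) (h.Dint.add k.Dint) r).abs
    have i12 : IntegrableOn (fun y => |Real.circleAverage φ y r - φ y - r ^ 2 / 4 * D y| +
        |Real.circleAverage ψ y r - ψ y - r ^ 2 / 4 * E y|) (Metric.ball 0 R) := i1.add i2
    have hle : ∀ y, |Real.circleAverage (fun x => φ x + ψ x) y r - (φ y + ψ y) -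
        r ^ 2 / 4 * (D y + E y)| ≤ |Real.circleAverage φ y r - φ y - r ^ 2 / 4 * D y| +
        |Real.circleAverage ψ y r - ψ y - r ^ 2 / 4 * E y| := by
      intro y
      have e : Real.circleAverage (fun x => φ x + ψ x) y r =
          Real.circleAverage φ y r + Real.circleAverage ψ y r :=
        Real.circleAverage_fun_add (mb_circleIntegrable h.cont y r) (mb_circleIntegrable k.cont y r)
      rw [e]
      have e2 : Real.circleAverage φ y r + Real.circleAverage ψ y r - (φ y + ψ y) -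
        r ^ 2 / 4 * (D y + E y) = (Real.circleAverage φ y r - φ y - r ^ 2 / 4 * D y) +
        (Real.circleAverage ψ y r - ψ y - r ^ 2 / 4 * E y) := by ring
      rw [e2]
      exact abs_add_le _ _
    calc ∫ y in Metric.ball 0 R, |Real.circleAverage (fun x => φ x + ψ x) y r - (φ y + ψ y) -
        r ^ 2 / 4 * (D y + E y)|
        ≤ ∫ y in Metric.ball 0 R, (|Real.circleAverage φ y r - φ y - r ^ 2 / 4 * D y| +
            |Real.circleAverage ψ y r - ψ y - r ^ 2 / 4 * E y|) :=
          integral_mono i3 i12 hle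
      _ = _ := integral_add i1 i2
      _ ≤ C * r ^ 3 + K * r ^ 3 := add_le_add (hC r hr hr') (hK r hr hr')
      _ = _ := by ring

theorem PreChart.smul {φ : ℂ → ℝ} {a : ℂ → ℂ} {D : ℂ → ℝ} {R κ : ℝ} (c : ℝ)
    (h : PreChart φ a D R κ) :
    PreChart (fun x => c * φ x) (fun x => (c : ℂ) * a x) (fun x => c * D x) R (c * κ) where
  cont := continuous_const.mul h.cont
  growth := by
    obtain ⟨C, hC⟩ := h.growth
    refine ⟨|c| * C, fun x => ?_⟩
    have e : c * φ x + c * κ * Real.log (1 + ‖x‖ ^ 2) =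
      c * (φ x + κ * Real.log (1 + ‖x‖ ^ 2)) := by ring
    rw [e, abs_mul]
    exact mul_le_mul_of_nonneg_left (hC x) (abs_nonneg c)
  ameas := h.ameas.const_mul _
  abd := by
    obtain ⟨C, hC⟩ := h.abd
    refine ⟨|c| * C, fun y hy => ?_⟩
    rw [norm_mul, Complex.norm_real, Real.norm_eq_abs]
    exact mul_le_mul_of_nonneg_left (hC y hy) (abs_nonneg c)
  taylor := by
    obtain ⟨C, hC⟩ := h.taylor
    refine ⟨|c| * C, fun x y hy hxy => ?_⟩
    have e : c * φ x - c * φ y - ((c : ℂ) * a y * (x - y)).re =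
        c * (φ x - φ y - (a y * (x - y)).re) := by
      rw [mul_assoc, Complex.re_ofReal_mul]; ring
    rw [e, abs_mul, mul_assoc]
    exact mul_le_mul_of_nonneg_left (hC x y hy hxy) (abs_nonneg c)
  Dint := h.Dint.const_mul c
  avg := by
    obtain ⟨C, hC⟩ := h.avg
    refine ⟨|c| * C, fun r hr hr' => ?_⟩
    have e : ∀ y, |Real.circleAverage (fun x => c * φ x) y r - c * φ y - r ^ 2 / 4 * (c * D y)| =
        |c| * |Real.circleAverage φ y r - φ y - r ^ 2 / 4 * D y| := by
      intro y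
      have e1 : Real.circleAverage (fun x => c * φ x) y r = c * Real.circleAverage φ y r := by
        have := Real.circleAverage_fun_smul (f := φ) (c := y) (R := r) (a := c)
        simpa [smul_eq_mul] using this
      rw [e1, ← abs_mul]
      congr 1; ring
    simp_rw [e]
    rw [integral_const_mul, mul_assoc]
    exact mul_le_mul_of_nonneg_left (hC r hr hr') (abs_nonneg c)

theorem PreChart.const (c R : ℝ) :
    PreChart (fun _ => c) (fun _ => 0) (fun _ => 0) R 0 where
  cont := continuous_const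
  growth := ⟨|c|, fun x => by simp⟩
  ameas := measurable_const
  abd := ⟨0, fun y _ => by simp⟩
  taylor := ⟨0, fun x y _ _ => by simp⟩
  Dint := integrableOn_zero
  avg := ⟨0, fun r _ _ => by simp [Real.circleAverage_const]⟩

theorem PreChart.sum {ι : Type*} (P : Finset ι) {φ : ι → ℂ → ℝ} {a : ι → ℂ → ℂ}
    {D : ι → ℂ → ℝ} {R : ℝ} {κ : ι → ℝ} (h : ∀ i, PreChart (φ i) (a i) (D i) R (κ i)) :
    PreChart (fun x => ∑ i ∈ P, φ i x) (fun x => ∑ i ∈ P, a i x) (fun x => ∑ i ∈ P, D i x) R
      (∑ i ∈ P, κ i) := by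
  classical
  induction P using Finset.induction_on with
  | empty => simpa using PreChart.const 0 R
  | insert i s hi ih =>
    have := (h i).add ih
    simpa only [Finset.sum_insert hi] using this

theorem PreChart.smooth {σ : ℂ → ℝ} (hσ : SmoothMetric σ) (R : ℝ) :
    PreChart σ (cGrad σ) (lap σ) R 1 where
  cont := hσ.1.continuous
  growth := by
    obtain ⟨C, hC⟩ := (smoothMetric_grow hσ).growth
    exact ⟨C, fun x => by simpa using hC x⟩
  ameas := (cGrad_cont hσ.1).measurable
  abd := by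
    obtain ⟨K, hK⟩ := (isCompact_closedBall (0 : ℂ) R).exists_bound_of_continuousOn
      (cGrad_cont hσ.1).continuousOn
    exact ⟨K, fun y hy => hK y (by rw [mem_closedBall_zero_iff]; exact hy)⟩
  taylor := smooth_taylor hσ.1 R
  Dint := by
    have hc : Continuous (lap σ) := by
      have e : lap σ = fun x => fderiv ℝ (fun y => fderiv ℝ σ y 1) x 1 +
          fderiv ℝ (fun y => fderiv ℝ σ y Complex.I) x Complex.I := by
        ext x
        exact lap_eq_dir (hσ.1.of_le (WithTop.coe_le_coe.2 le_top)) x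
      have h1 : ∀ v : ℂ, Continuous fun x => fderiv ℝ (fun y => fderiv ℝ σ y v) x v := by
        intro v
        have hd : ContDiff ℝ ∞ fun y => fderiv ℝ σ y v :=
          (hσ.1.fderiv_right (m := ∞) (by norm_num)).clm_apply contDiff_const
        exact ((hd.fderiv_right (m := ∞) (by norm_num)).clm_apply contDiff_const).continuous
      rw [e]
      exact (h1 1).add (h1 Complex.I)
    exact (hc.continuousOn.integrableOn_compact (isCompact_closedBall (0 : ℂ) R)).mono_set
      Metric.ball_subset_closedBall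
  avg := by
    obtain ⟨C, hC⟩ := smooth_avg hσ.1 R
    refine ⟨C * (volume (Metric.ball (0 : ℂ) R)).toReal, fun r hr hr' => ?_⟩
    have h1 : ∀ y ∈ Metric.ball (0 : ℂ) R,
        ‖|Real.circleAverage σ y r - σ y - r ^ 2 / 4 * lap σ y|‖ ≤ C * r ^ 3 := by
      intro y hy
      rw [Real.norm_eq_abs, abs_abs]
      exact hC y r (by rw [mem_ball_zero_iff] at hy; exact hy.le) hr hr'
    have h2 := norm_setIntegral_le_of_norm_le_const (μ := (volume : Measure ℂ))
      (s := Metric.ball (0 : ℂ) R) measure_ball_lt_top h1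
    rw [Real.norm_eq_abs, measureReal_def] at h2
    refine (le_abs_self _).trans (h2.trans (le_of_eq ?_))
    ring

theorem PreChart.square (S : Dy) (R : ℝ) :
    PreChart (LamS S) (aS S) (fun y => -(ind S y)) R (S.side ^ 2 / (4 * π)) where
  cont := LamS_cont S
  growth := LamS_growth S
  ameas := aS_meas S
  abd := by
    obtain ⟨C, -, hC⟩ := aS_bdd S
    exact ⟨C, fun y _ => hC y⟩
  taylor := by
    obtain ⟨C, hC⟩ := LamS_taylor S
    exact ⟨C, fun x y _ _ => hC x y⟩
  Dint := by
    have hm : MeasurableSet S.set := by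
      unfold Dy.set
      refine MeasurableSet.inter ?_ (MeasurableSet.inter ?_ (MeasurableSet.inter ?_ ?_))
      · exact measurableSet_le measurable_const Complex.measurable_re
      · exact measurableSet_le Complex.measurable_re measurable_const
      · exact measurableSet_le measurable_const Complex.measurable_im
      · exact measurableSet_le Complex.measurable_im measurable_const
    have h1 : IntegrableOn (fun _ : ℂ => (1 : ℝ)) (Metric.ball 0 R) := by
      rw [integrableOn_const_iff]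
      right; exact measure_ball_lt_top
    exact (h1.indicator hm).neg
  avg := LamS_avg S R

theorem PreChart.square' (S : Dy) :
    PreChart (LamS' S) (aS' S) (fun _ => 0) (1 / 2) (S.side ^ 2 / (4 * π)) where
  cont := LamS'_cont S
  growth := LamS'_growth S
  ameas := aS'_meas S
  abd := by
    obtain ⟨C, -, hC⟩ := aS'_bdd S
    exact ⟨C, hC⟩
  taylor := LamS'_taylor S
  Dint := integrableOn_zero
  avg := by
    refine ⟨0, fun r hr hr' => ?_⟩
    rw [zero_mul]
    refine le_of_eq ?_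
    have : ∀ y ∈ Metric.ball (0 : ℂ) (1 / 2),
        |Real.circleAverage (LamS' S) y r - LamS' S y - r ^ 2 / 4 * 0| = 0 := by
      intro y hy
      rw [LamS'_avg S (by rw [mem_ball_zero_iff] at hy; exact hy) hr hr']
      simp
    rw [setIntegral_congr_fun measurableSet_ball this]
    simp

theorem isMet_of_squares {σ₀ : ℂ → ℝ} (hσ : SmoothMetric σ₀) (P : Finset Dy) (β : Dy → ℝ)
    (β₀ β₁ : ℝ) (hn : β₀ + ∑ S ∈ P, β S * (S.side ^ 2 / (4 * π)) = 1) :
    ∃ (φ' : ℂ → ℝ) (a a' : ℂ → ℂ) (D D' : ℂ → ℝ),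
      IsMet (fun x => β₀ * σ₀ x + ∑ S ∈ P, β S * LamS S x + β₁) φ' a a' D D' := by
  obtain ⟨h1, σ', h2, h3⟩ := hσ
  have hσ : SmoothMetric σ₀ := ⟨h1, σ', h2, h3⟩
  have hσ' : SmoothMetric σ' := by
    refine ⟨h2, σ₀, h1, fun w hw => ?_⟩
    rw [h3 _ (inv_ne_zero hw), inv_inv, norm_inv, Real.log_inv]
    ring
  have c0 := (((PreChart.smooth hσ 2).smul β₀).add
    (PreChart.sum P fun S => (PreChart.square S 2).smul (β S))).add (PreChart.const β₁ 2)
  have c1 := (((PreChart.smooth hσ' (1 / 2)).smul β₀).add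
    (PreChart.sum P fun S => (PreChart.square' S).smul (β S))).add (PreChart.const β₁ (1 / 2))
  have hk : β₀ * 1 + ∑ S ∈ P, β S * (S.side ^ 2 / (4 * π)) + 0 = 1 := by
    rw [mul_one, add_zero]; exact hn
  rw [hk] at c0 c1
  refine ⟨_, _, _, _, _, ⟨c0.isChart, c1.isChart, fun w hw => ?_, fun y hy => ?_⟩⟩
  · have e : ∑ S ∈ P, β S * LamS' S w = ∑ S ∈ P, β S * LamS S w⁻¹ -
        (∑ S ∈ P, β S * (S.side ^ 2 / (4 * π))) * (2 * Real.log ‖w‖) := by
      rw [Finset.sum_mul, ← Finset.sum_sub_distrib]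
      refine Finset.sum_congr rfl fun S _ => ?_
      rw [LamS'_rel S hw]
      have := Real.pi_pos
      field_simp
      ring
    rw [h3 w hw, e]
    have e2 : ∑ S ∈ P, β S * (S.side ^ 2 / (4 * π)) = 1 - β₀ := by linarith
    rw [e2]; ring
  · have e : ∑ S ∈ P, (β S : ℂ) * aS' S y⁻¹ = -((∑ S ∈ P, (β S : ℂ) * aS S y) * y ^ 2) -
        ((∑ S ∈ P, β S * (S.side ^ 2 / (4 * π)) : ℝ) : ℂ) * (2 * y) := by
      rw [Complex.ofReal_sum, Finset.sum_mul, Finset.sum_mul, ← Finset.sum_neg_distrib,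
        ← Finset.sum_sub_distrib]
      refine Finset.sum_congr rfl fun S _ => ?_
      rw [aS'_rel S hy]
      have : (π : ℂ) ≠ 0 := by exact_mod_cast Real.pi_pos.ne'
      push_cast
      field_simp
      ring
    rw [cGrad_rel h1 h2 h3 hy, e]
    have e2 : ∑ S ∈ P, β S * (S.side ^ 2 / (4 * π)) = 1 - β₀ := by linarith
    rw [e2]; push_cast; ring

end

end LQZ
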