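import Pool.Agent.LQZ.ZetaFinal
import Pool.Agent.LQZ.MetBuild
import Pool.Agent.LQZ.HP
import Pool.Agent.LQZ.Cover
import Pool.Agent.LQZ.GFF
import Pool.Agent.LQZ.Congr

/-! # Project LQZ, module FINAL: assembly -/

open MeasureTheory Set Filter Topology InnerProductSpace
open scoped ContDiff ENNReal NNReal Real

namespace LQZ

noncomputable section

theorem final_metric {σ₀ : ℂ → ℝ} (hσ : BaseMetric σ₀) (P : Finset Dy) (c : Dy → ℝ) (c₁ Q K : ℝ)
    (hQ : 0 < Q) {φ h : ℂ → ℝ} (hh : h =ᵐ[volume] fun x => ∑ S ∈ P, c S * PhiS σ₀ S x + c₁)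
    (hφ : ∀ x, φ x = σ₀ x + h x / Q + K) : DiscreteSpectrum φ ∧ ZetaExtends φ := by
  set β : Dy → ℝ := fun S => c S / Q with hβ
  set β₀ : ℝ := 1 - ∑ S ∈ P, β S * (S.side ^ 2 / (4 * π)) with hβ₀
  set β₁ : ℝ := c₁ / Q + K with hβ₁
  obtain ⟨φ', a, a', D, D', hM⟩ := isMet_of_squares hσ.1 P β β₀ β₁ (by rw [hβ₀]; ring)
  have hz := isMet_zeta hM
  have heq : (fun x => β₀ * σ₀ x + ∑ S ∈ P, β S * LamS S x + β₁) =ᵐ[volume] φ := by
    filter_upwards [hh] with x hx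
    rw [hφ x, hx]
    simp only [PhiS, hβ₀, hβ₁, hβ]
    have e1 : ∑ S ∈ P, c S * (LamS S x - S.side ^ 2 / (4 * π) * σ₀ x) =
        ∑ S ∈ P, c S * LamS S x - (∑ S ∈ P, c S * (S.side ^ 2 / (4 * π))) * σ₀ x := by
      rw [Finset.sum_mul, ← Finset.sum_sub_distrib]
      refine Finset.sum_congr rfl fun S _ => ?_
      ring
    have e2 : ∑ S ∈ P, c S / Q * (S.side ^ 2 / (4 * π)) =
        (∑ S ∈ P, c S * (S.side ^ 2 / (4 * π))) / Q := by
      rw [Finset.sum_div]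
      refine Finset.sum_congr rfl fun S _ => ?_
      ring
    have e3 : ∑ S ∈ P, c S / Q * LamS S x = (∑ S ∈ P, c S * LamS S x) / Q := by
      rw [Finset.sum_div]
      refine Finset.sum_congr rfl fun S _ => ?_
      ring
    rw [e1, e2, e3]
    field_simp
    ring
  have hc := discreteSpectrum_congr heq
  exact ⟨hc.1 hz.1, hc.2 hz.2⟩

theorem main_pathwise {σ₀ : ℂ → ℝ} (hσ : BaseMetric σ₀) {Q ε : ℝ} (hQ : 0 < Q) (hε : 0 < ε)
    {a : Dy → ℝ} (ha : Consistent a) (hf : (Peps Q ε a).Finite) : Statement σ₀ Q ε a := by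
  have hp := peps_partition hQ hε ha hf
  have hd : ((hf.toFinset : Finset Dy) : Set Dy).Pairwise
      fun S T => Disjoint (interior S.set) (interior T.set) := by
    rw [hf.coe_toFinset]; exact hp.2
  obtain ⟨c, c₁, hHP, huniq⟩ := hp_rep hσ hf.toFinset hd a
  rw [hf.coe_toFinset] at hHP huniq
  refine ⟨hp, ⟨_, hHP, huniq⟩, fun h hh => ?_⟩
  exact final_metric hσ hf.toFinset c c₁ Q _ hQ (huniq h hh) (fun x => rfl)

theorem main_gff {σ₀ : ℂ → ℝ} (hσ : BaseMetric σ₀) {Q ε : ℝ} (hQ : 0 < Q) (hε : 0 < ε)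
    {W : Type*} [MeasurableSpace W] {P : Measure W} [IsProbabilityMeasure P]
    {X : (ℂ → ℝ) → W → ℝ} (hX : IsGFF σ₀ X P) :
    ∀ᵐ o ∂P, (Peps Q ε (fieldAvg X o)).Finite → Statement σ₀ Q ε (fieldAvg X o) := by
  filter_upwards [gff_consistent hσ hX] with o ho hf
  exact main_pathwise hσ hQ hε ho hf

end

end LQZ
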