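import Pool.Agent.LQZ.LogGreen

/-! # Project LQZ, module LIOU: Liouville theorem -/

open MeasureTheory Set Filter Topology InnerProductSpace
open scoped ContDiff ENNReal NNReal Real Convolution

namespace LQZ

noncomputable section

variable {ψ χ f g η φ φ' u : ℂ → ℝ}

theorem liou_log_loc : LocallyIntegrable (fun x : ℂ => Real.log ‖x‖) := by
  intro x
  refine ⟨Metric.ball x 1, Metric.ball_mem_nhds x one_pos, ?_⟩
  have h := loggDom_integrable 0
  have hb : Integrable (fun z : ℂ => (1 + (1 + ‖x‖) ^ 2) ^ 2 * loggDom 0 z) := h.const_mul _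
  refine hb.integrableOn.mono' ?_ ?_
  · exact (Real.measurable_log.comp measurable_norm).aestronglyMeasurable
  · refine (ae_restrict_mem measurableSet_ball).mono fun z hz => ?_
    have h1 := logg_dom 0 z
    rw [sub_zero, div_le_iff₀ (by positivity)] at h1
    have hz' : ‖z‖ ≤ 1 + ‖x‖ := by
      rw [Metric.mem_ball, dist_eq_norm] at hz
      have := norm_add_le (z - x) x
      rw [sub_add_cancel] at this
      linarith
    have h2 : (1 + ‖z‖ ^ 2) ^ 2 ≤ (1 + (1 + ‖x‖) ^ 2) ^ 2 := by
      refine pow_le_pow_left₀ (by positivity) ?_ 2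
      have := pow_le_pow_left₀ (norm_nonneg z) hz' 2
      linarith
    have h3 : 0 ≤ loggDom 0 z := by
      have := (div_nonneg (abs_nonneg (Real.log ‖z - 0‖))
        (by positivity : (0 : ℝ) ≤ (1 + ‖z‖ ^ 2) ^ 2)).trans (logg_dom 0 z)
      exact this
    rw [Real.norm_eq_abs]
    refine h1.trans ?_
    rw [mul_comm]
    exact mul_le_mul_of_nonneg_right h2 h3

/-- the logarithmic potential as a convolution -/
def liouP (η : ℂ → ℝ) : ℂ → ℝ :=
  (fun x : ℂ => Real.log ‖x‖) ⋆[ContinuousLinearMap.mul ℝ ℝ, volume] η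

theorem liouP_eq (η : ℂ → ℝ) (x : ℂ) : liouP η x = ∫ y, Real.log ‖x - y‖ * η y := by
  unfold liouP
  rw [convolution_def]
  simp only [ContinuousLinearMap.mul_apply']
  have := integral_sub_left_eq_self (μ := (volume : Measure ℂ))
    (fun y => Real.log ‖x - y‖ * η y) x
  rw [← this]
  congr 1; ext t
  rw [sub_sub_cancel]

theorem liouP_dir (hη : ContDiff ℝ ∞ η) (hc : HasCompactSupport η) (v x : ℂ) :
    fderiv ℝ (liouP η) x v = liouP (fun y => fderiv ℝ η y v) x := by
  have h := hc.hasFDerivAt_convolution_right (ContinuousLinearMap.mul ℝ ℝ) liou_log_loc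
    (hη.of_le (by norm_num)) x
  have h2 : fderiv ℝ (liouP η) x = _ := h.fderiv
  rw [h2, convolution_precompR_apply]
  · rfl
  · exact liou_log_loc
  · exact hc.fderiv ℝ
  · exact hη.continuous_fderiv (by norm_num)

theorem liouP_contDiff (hη : ContDiff ℝ ∞ η) (hc : HasCompactSupport η) :
    ContDiff ℝ ∞ (liouP η) :=
  hc.contDiff_convolution_right _ liou_log_loc hη

theorem liouP_lap (hη : ContDiff ℝ ∞ η) (hc : HasCompactSupport η) (x : ℂ) :
    lap (liouP η) x = 2 * π * η x := by
  rw [lap_eq_dir ((liouP_contDiff hη hc).of_le sph_two_le)]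
  have hd : ∀ v : ℂ, ContDiff ℝ ∞ fun y => fderiv ℝ η y v := fun v =>
    (hη.fderiv_right (m := ∞) (by norm_num)).clm_apply contDiff_const
  have cd : ∀ v : ℂ, HasCompactSupport fun y => fderiv ℝ η y v := fun v => hc.fderiv_apply ℝ v
  have e : ∀ v : ℂ, fderiv ℝ (fun y => fderiv ℝ (liouP η) y v) x v =
      ∫ y, Real.log ‖x - y‖ * fderiv ℝ (fun y => fderiv ℝ η y v) y v := by
    intro v
    have h1 : (fun y => fderiv ℝ (liouP η) y v) = liouP (fun y => fderiv ℝ η y v) := by
      ext y; exact liouP_dir hη hc v y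
    rw [h1, liouP_dir (hd v) (cd v), liouP_eq]
  have hint : ∀ v : ℂ, Integrable fun y =>
      Real.log ‖x - y‖ * fderiv ℝ (fun y => fderiv ℝ η y v) y v := by
    intro v
    have h1 : LocallyIntegrable (fun y : ℂ => Real.log ‖x - y‖) := by
      have h0 : (fun y : ℂ => Real.log ‖x - y‖) = fun y : ℂ => Real.log ‖y - x‖ := by
        ext y; rw [norm_sub_rev]
      rw [h0]
      intro z
      obtain ⟨s, hs, hi⟩ := liou_log_loc (z - x)
      refine ⟨(fun y => y - x) ⁻¹' s, ?_, ?_⟩
      · exact (continuous_id.sub continuous_const).continuousAt.preimage_mem_nhds hs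
      · have hmp : MeasurePreserving (fun y : ℂ => y - x) volume volume :=
          measurePreserving_sub_right volume x
        exact (hmp.integrableOn_comp_preimage
          (Homeomorph.subRight x).measurableEmbedding).2 hi
    have h2 : Continuous fun y => fderiv ℝ (fun y => fderiv ℝ η y v) y v :=
      (((hd v).fderiv_right (m := ∞) (by norm_num)).clm_apply contDiff_const).continuous
    have h3 := h1.integrable_smul_left_of_hasCompactSupport h2 ((cd v).fderiv_apply ℝ v)
    refine h3.congr (Eventually.of_forall fun y => ?_)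
    simp only [smul_eq_mul, mul_comm]
  rw [e 1, e Complex.I, ← integral_add (hint 1) (hint Complex.I), ← log_green_compact hη hc x]
  congr 1; ext y
  rw [lap_eq_dir (hη.of_le sph_two_le) y]; ring

/-- behaviour at infinity -/
theorem liou_infty (hη : Continuous η) (hc : HasCompactSupport η) :
    ContDiffAt ℝ ∞ (fun w : ℂ => ∫ y, Real.log ‖1 - w * y‖ * η y) 0 := by
  obtain ⟨R0, hR0⟩ := hc.isCompact.isBounded.subset_closedBall (0 : ℂ)
  set R : ℝ := max R0 1 with hRdef
  have hR1 : 1 ≤ R := le_max_right _ _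
  have hsupp : ∀ y, η y ≠ 0 → ‖y‖ ≤ R := by
    intro y hy
    have := hR0 (subset_tsupport η hy)
    rw [mem_closedBall_zero_iff] at this
    exact this.trans (le_max_left _ _)
  set H : ℂ → ℂ := fun w => ∫ y, Complex.log (1 - w * y) * (η y : ℂ) with hH
  set s : Set ℂ := Metric.ball 0 (1 / (2 * R)) with hs
  have hηc : Continuous fun y => (η y : ℂ) := Complex.continuous_ofReal.comp hη
  have hηi : Integrable fun y => (η y : ℂ) := by
    refine hηc.integrable_of_hasCompactSupport ?_
    exact hc.comp_left (g := fun t : ℝ => (t : ℂ)) (by simp)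
  have hwy : ∀ w ∈ s, ∀ y, η y ≠ 0 → ‖w * y‖ ≤ 1 / 2 := by
    intro w hw y hy
    rw [hs, mem_ball_zero_iff] at hw
    rw [norm_mul]
    calc ‖w‖ * ‖y‖ ≤ 1 / (2 * R) * R :=
          mul_le_mul hw.le (hsupp y hy) (norm_nonneg _) (by positivity)
      _ = 1 / 2 := by field_simp
  have hslit : ∀ q : ℂ, ‖q‖ ≤ 1 / 2 → 1 - q ∈ Complex.slitPlane := by
    intro q hq
    left
    have := Complex.re_le_norm q
    simp only [Complex.sub_re, Complex.one_re]
    linarith
  have hden : ∀ q : ℂ, ‖q‖ ≤ 1 / 2 → 1 / 2 ≤ ‖1 - q‖ := by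
    intro q hq
    have := norm_sub_norm_le (1 : ℂ) q
    rw [norm_one] at this
    linarith
  have hlogb : ∀ q : ℂ, ‖q‖ ≤ 1 / 2 → ‖Complex.log (1 - q)‖ ≤ 10 := by
    intro q hq
    have h1 := Complex.norm_log_one_add_half_le_self (z := -q) (by rw [norm_neg]; exact hq)
    rw [norm_neg, ← sub_eq_add_neg] at h1
    linarith
  have hmeas : ∀ w : ℂ, AEStronglyMeasurable (fun y => Complex.log (1 - w * y) * (η y : ℂ))
      volume := by
    intro w
    refine AEStronglyMeasurable.mul ?_ hηc.aestronglyMeasurable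
    exact (Complex.measurable_log.comp (by fun_prop : Measurable fun y : ℂ => 1 - w * y)).aestronglyMeasurable
  have hint : ∀ w ∈ s, Integrable fun y => Complex.log (1 - w * y) * (η y : ℂ) := by
    intro w hw
    refine (hηi.norm.const_mul 10).mono' (hmeas w) (Eventually.of_forall fun y => ?_)
    rw [norm_mul]
    by_cases hy : η y = 0
    · simp [hy]
    · exact mul_le_mul_of_nonneg_right (hlogb _ (hwy w hw y hy)) (norm_nonneg _)
  have hder : ∀ w ∈ s, HasDerivAt H (∫ y, (-y / (1 - w * y)) * (η y : ℂ)) w := by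
    intro w hw
    refine (hasDerivAt_integral_of_dominated_loc_of_deriv_le (s := s)
      (F := fun w y => Complex.log (1 - w * y) * (η y : ℂ))
      (F' := fun w y => (-y / (1 - w * y)) * (η y : ℂ))
      (bound := fun y => 2 * R * ‖(η y : ℂ)‖) ?_ ?_ (hint w hw) ?_ ?_ ?_ ?_).2
    · exact Metric.isOpen_ball.mem_nhds hw
    · exact Eventually.of_forall fun w => hmeas w
    · refine AEStronglyMeasurable.mul ?_ hηc.aestronglyMeasurable
      exact (by fun_prop : Measurable fun y : ℂ => -y / (1 - w * y)).aestronglyMeasurable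
    · refine Eventually.of_forall fun y w hw => ?_
      rw [norm_mul]
      by_cases hy : η y = 0
      · simp [hy]
      · refine mul_le_mul_of_nonneg_right ?_ (norm_nonneg _)
        have h1 := hden _ (hwy w hw y hy)
        have h2 := hsupp y hy
        rw [norm_div, norm_neg, div_le_iff₀ (by linarith)]
        nlinarith
    · exact (hηi.norm.const_mul _)
    · refine Eventually.of_forall fun y w hw => ?_
      by_cases hy : η y = 0
      · simp only [hy, Complex.ofReal_zero, mul_zero]
        exact hasDerivAt_const _ _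
      · refine HasDerivAt.mul_const ?_ _
        have h1 : HasDerivAt (fun w : ℂ => 1 - w * y) (-y) w := by
          simpa using ((hasDerivAt_id w).mul_const y).const_sub 1
        exact h1.clog (hslit _ (hwy w hw y hy))
  have hsn : s ∈ 𝓝 (0 : ℂ) := Metric.ball_mem_nhds _ (by positivity)
  have hH1 : DifferentiableOn ℂ H s := fun w hw =>
    (hder w hw).differentiableAt.differentiableWithinAt
  have hH2 : ContDiffAt ℝ ∞ H 0 := by
    have h1 : AnalyticAt ℂ H 0 := hH1.analyticAt hsn
    exact (h1.contDiffAt (n := ∞)).restrict_scalars ℝ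
  have hH3 : ContDiffAt ℝ ∞ (fun w => (H w).re) 0 :=
    Complex.reCLM.contDiff.contDiffAt.comp (0 : ℂ) hH2
  refine hH3.congr_of_eventuallyEq ?_
  filter_upwards [hsn] with w hw
  simp only [hH]
  have h1 := (Complex.reCLM.integral_comp_comm (hint w hw))
  simp only [Complex.reCLM_apply] at h1
  rw [← h1]
  congr 1; ext y
  rw [Complex.re_mul_ofReal, Complex.log_re]

theorem exists_log_potential (hη : ContDiff ℝ ∞ η) (hc : HasCompactSupport η)
    (h0 : ∫ x, η x = 0) : ∃ ψ : ℂ → ℝ, SphSmooth ψ ∧ ∀ x, lap ψ x = η x := by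
  have hs : SphSmooth (liouP η) := by
    refine sph_mk (g₀ := fun w : ℂ => ∫ y, Real.log ‖1 - w * y‖ * η y) (liouP_contDiff hη hc)
      (liou_infty hη.continuous hc) ?_
    filter_upwards [self_mem_nhdsWithin] with w hw0
    have hw : w ≠ 0 := hw0
    have hwn : 0 < ‖w‖ := norm_pos_iff.2 hw
    rw [liouP_eq]
    -- compare the two integrands up to a multiple of `η`
    have hηi : Integrable η := hη.continuous.integrable_of_hasCompactSupport hc
    have e : (fun y => Real.log ‖w⁻¹ - y‖ * η y) =ᵐ[volume]
        fun y => Real.log ‖1 - w * y‖ * η y - Real.log ‖w‖ * η y := by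
      have hae : ∀ᵐ y : ℂ, y ≠ w⁻¹ := by
        rw [ae_iff]; simp
      filter_upwards [hae] with y hy
      have h1 : w⁻¹ - y = (1 - w * y) / w := by field_simp
      have h2 : 1 - w * y ≠ 0 := by
        intro h
        apply hy
        have : w * y = 1 := by linear_combination -h
        exact eq_inv_of_mul_eq_one_right this
      rw [h1, norm_div, Real.log_div (norm_ne_zero_iff.2 h2) hwn.ne']
      ring
    have i2 : Integrable fun y => Real.log ‖w‖ * η y := hηi.const_mul _
    have i0 : Integrable fun y => Real.log ‖w⁻¹ - y‖ * η y := by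
      have h1 : LocallyIntegrable (fun y : ℂ => Real.log ‖w⁻¹ - y‖) := by
        have h0 : (fun y : ℂ => Real.log ‖w⁻¹ - y‖) = fun y : ℂ => Real.log ‖y - w⁻¹‖ := by
          ext y; rw [norm_sub_rev]
        rw [h0]
        intro z
        obtain ⟨s, hs, hi⟩ := liou_log_loc (z - w⁻¹)
        refine ⟨(fun y => y - w⁻¹) ⁻¹' s, ?_, ?_⟩
        · exact (continuous_id.sub continuous_const).continuousAt.preimage_mem_nhds hs
        · have hmp : MeasurePreserving (fun y : ℂ => y - w⁻¹) volume volume :=
            measurePreserving_sub_right volume w⁻¹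
          exact (hmp.integrableOn_comp_preimage
            (Homeomorph.subRight w⁻¹).measurableEmbedding).2 hi
      have h3 := h1.integrable_smul_left_of_hasCompactSupport hη.continuous hc
      refine h3.congr (Eventually.of_forall fun y => ?_)
      simp only [smul_eq_mul, mul_comm]
    have i1 : Integrable fun y => Real.log ‖1 - w * y‖ * η y := by
      refine (i0.add i2).congr ?_
      filter_upwards [e] with y hy
      simp only [Pi.add_apply]
      rw [hy]; ring
    rw [integral_congr_ae e, integral_sub i1 i2, integral_const_mul, h0, mul_zero, sub_zero]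
  refine ⟨fun x => 1 / (2 * π) * liouP η x, hs.const_mul _, fun x => ?_⟩
  have h1 : lap (fun x => 1 / (2 * π) * liouP η x) x = 1 / (2 * π) * lap (liouP η) x := by
    have := laplacian_smul (x := x) (1 / (2 * π) : ℝ)
      (((liouP_contDiff hη hc).of_le sph_two_le).contDiffAt)
    exact this
  rw [h1, liouP_lap hη hc]
  have := Real.pi_pos
  field_simp

theorem liouville (hi : Integrable fun x => u x / (1 + ‖x‖ ^ 2) ^ 2)
    (h : ∀ ψ : ℂ → ℝ, SphSmooth ψ → ∫ x, u x * lap ψ x = 0) :
    ∃ c : ℝ, u =ᵐ[volume] fun _ => c := by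
  have hloc : LocallyIntegrable u := by
    have h1 := hi.locallyIntegrable
    have hcq : Continuous fun x : ℂ => (1 + ‖x‖ ^ 2) ^ 2 := by fun_prop
    have h2 : LocallyIntegrable fun x : ℂ => (1 + ‖x‖ ^ 2) ^ 2 • (u x / (1 + ‖x‖ ^ 2) ^ 2) :=
      h1.continuous_smul hcq
    refine h2.congr (Eventually.of_forall fun x => ?_)
    simp only [smul_eq_mul]
    have : (0 : ℝ) < (1 + ‖x‖ ^ 2) ^ 2 := by positivity
    field_simp
  -- a test function of mass one
  let B : ContDiffBump (0 : ℂ) := ⟨1, 2, one_pos, by norm_num⟩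
  set ρ : ℂ → ℝ := B.normed volume with hρ
  have hρs : ContDiff ℝ ∞ ρ := B.contDiff_normed
  have hρc : HasCompactSupport ρ := B.hasCompactSupport_normed
  have hρ1 : ∫ x, ρ x = 1 := B.integral_normed
  have hmul : ∀ {η : ℂ → ℝ}, Continuous η → HasCompactSupport η → Integrable fun x => u x * η x := by
    intro η hη hc
    have h3 := hloc.integrable_smul_left_of_hasCompactSupport hη hc
    refine h3.congr (Eventually.of_forall fun y => ?_)
    simp only [smul_eq_mul, mul_comm]
  set c : ℝ := ∫ x, u x * ρ x with hcdef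
  refine ⟨c, ?_⟩
  have hkey : ∀ η : ℂ → ℝ, ContDiff ℝ ∞ η → HasCompactSupport η →
      ∫ x, u x * η x = (∫ x, η x) * c := by
    intro η hη hc
    have hηi : Integrable η := hη.continuous.integrable_of_hasCompactSupport hc
    have hρi : Integrable ρ := hρs.continuous.integrable_of_hasCompactSupport hρc
    set m := ∫ x, η x with hm
    have h1 : ContDiff ℝ ∞ fun x => η x - m * ρ x := hη.sub (contDiff_const.mul hρs)
    have h2 : HasCompactSupport fun x => η x - m * ρ x := by
      exact hc.sub (hρc.mul_left)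
    have h3 : ∫ x, (η x - m * ρ x) = 0 := by
      rw [integral_sub hηi (hρi.const_mul m), integral_const_mul, hρ1, ← hm]; ring
    obtain ⟨ψ, hψ, hψl⟩ := exists_log_potential h1 h2 h3
    have h4 := h ψ hψ
    have h5 : ∫ x, u x * lap ψ x = ∫ x, (u x * η x - m * (u x * ρ x)) := by
      congr 1; ext x; rw [hψl x]; ring
    rw [h5, integral_sub (hmul hη.continuous hc) ((hmul hρs.continuous hρc).const_mul m),
      integral_const_mul] at h4
    linarith
  have hfin : (fun x => u x - c) =ᵐ[volume] 0 := by
    have hloc' : LocallyIntegrable fun x => u x - c := hloc.sub (locallyIntegrable_const c)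
    refine ae_eq_zero_of_integral_contDiff_smul_eq_zero hloc' fun η hη hc => ?_
    have e : ∀ x, η x • (u x - c) = u x * η x - c * η x := fun x => by
      rw [smul_eq_mul]; ring
    simp_rw [e]
    rw [integral_sub (hmul hη.continuous hc)
      ((hη.continuous.integrable_of_hasCompactSupport hc).const_mul c), integral_const_mul,
      hkey η hη hc]
    ring
  filter_upwards [hfin] with x hx
  have : u x - c = 0 := hx
  linarith

end

end LQZ
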