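import Pool.Agent.LQZ.ChordInt

/-!
# Project LQZ, module POSI: positivity of the log kernel

On the sphere `-2 log chord = log 2 + ∑ ⟨p, q⟩ ^ n / n`, and the kernels `⟨p, q⟩ ^ n` are positive.
-/

open MeasureTheory Set Filter Topology InnerProductSpace ProbabilityTheory
open scoped ContDiff ENNReal NNReal Real

namespace LQZ

noncomputable section

namespace Posi

/-- The coordinates of the inverse stereographic projection. -/
def st (i : Fin 3) (x : ℂ) : ℝ :=
  (![2 * x.re, 2 * x.im, ‖x‖ ^ 2 - 1] i) / (1 + ‖x‖ ^ 2)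

/-- The scalar product of two points of the sphere. -/
def tK (x y : ℂ) : ℝ := ∑ i, st i x * st i y

theorem st_meas (i : Fin 3) : Measurable (st i) := by
  have h0 : Measurable fun x : ℂ => 1 + ‖x‖ ^ 2 := by fun_prop
  fin_cases i
  · exact (Complex.measurable_re.const_mul 2).div h0
  · exact (Complex.measurable_im.const_mul 2).div h0
  · exact Measurable.div (by simp only; fun_prop) h0

theorem norm_sq (x : ℂ) : ‖x‖ ^ 2 = x.re ^ 2 + x.im ^ 2 := by
  rw [← Complex.normSq_eq_norm_sq, Complex.normSq_apply]; ring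

theorem st_le (i : Fin 3) (x : ℂ) : |st i x| ≤ 1 := by
  have h := norm_sq x
  have hp : 0 < 1 + ‖x‖ ^ 2 := by positivity
  unfold st
  rw [abs_div, abs_of_pos hp, div_le_one hp, abs_le, h]
  fin_cases i
  · simp only [Fin.zero_eta, Matrix.cons_val_zero]
    constructor <;> nlinarith [sq_nonneg (x.re + 1), sq_nonneg (x.re - 1), sq_nonneg x.im]
  · simp only [Fin.mk_one, Matrix.cons_val_one, Matrix.cons_val_zero]
    constructor <;> nlinarith [sq_nonneg (x.im + 1), sq_nonneg (x.im - 1), sq_nonneg x.re]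
  · simp only [Fin.reduceFinMk, Matrix.cons_val]
    constructor <;> nlinarith [sq_nonneg x.im, sq_nonneg x.re]

theorem chord_sq (x y : ℂ) : 1 - tK x y = 2 * chord x y ^ 2 := by
  have hx := norm_sq x
  have hy := norm_sq y
  have hxy := norm_sq (x - y)
  have hpx : (1 + (x.re ^ 2 + x.im ^ 2)) ≠ 0 := by positivity
  have hpy : (1 + (y.re ^ 2 + y.im ^ 2)) ≠ 0 := by positivity
  unfold tK chord st
  rw [div_pow, mul_pow, Real.sq_sqrt (by positivity), Real.sq_sqrt (by positivity), hx, hy, hxy]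
  simp only [Fin.sum_univ_three, Matrix.cons_val, Complex.sub_re, Complex.sub_im]
  field_simp
  ring

theorem tK_meas : Measurable fun z : ℂ × ℂ => tK z.1 z.2 := by
  unfold tK
  exact Finset.measurable_fun_sum _ fun i _ =>
    ((st_meas i).comp measurable_fst).mul ((st_meas i).comp measurable_snd)

theorem chord_nonneg (x y : ℂ) : 0 ≤ chord x y := by unfold chord; positivity

theorem chord_le (x y : ℂ) : chord x y ^ 2 ≤ 1 := by
  unfold chord
  rw [div_pow, mul_pow, Real.sq_sqrt (by positivity), Real.sq_sqrt (by positivity),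
    div_le_one (by positivity), norm_sq (x - y), norm_sq x, norm_sq y]
  simp only [Complex.sub_re, Complex.sub_im]
  nlinarith [sq_nonneg (x.re * y.re + x.im * y.im + 1), sq_nonneg (x.re * y.im - x.im * y.re)]

theorem tK_le (x y : ℂ) : |tK x y| ≤ 1 := by
  have h := chord_sq x y
  have h1 := chord_le x y
  have h2 := sq_nonneg (chord x y)
  rw [abs_le]
  constructor <;> linarith

variable {μ : Measure ℂ} [IsFiniteMeasure μ]

/-- The kernels `⟨p, q⟩ ^ n` are positive. -/
theorem pow_pos (n : ℕ) : ∀ {g : ℂ → ℝ}, Integrable g μ →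
    0 ≤ ∫ z, tK z.1 z.2 ^ n * (g z.1 * g z.2) ∂(μ.prod μ) := by
  induction n with
  | zero =>
    intro g _
    simp only [pow_zero, one_mul]
    rw [integral_prod_mul]
    exact mul_self_nonneg _
  | succ n ih =>
    intro g hg
    have hgi : ∀ i, Integrable (fun x => st i x * g x) μ := fun i =>
      hg.bdd_mul (c := 1) (st_meas i).aestronglyMeasurable
        (Eventually.of_forall fun x => st_le i x)
    have e : ∀ z : ℂ × ℂ, tK z.1 z.2 ^ (n + 1) * (g z.1 * g z.2) =
        ∑ i, tK z.1 z.2 ^ n * ((st i z.1 * g z.1) * (st i z.2 * g z.2)) := by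
      intro z
      rw [← Finset.mul_sum, pow_succ]
      have : ∑ i, st i z.1 * g z.1 * (st i z.2 * g z.2) = tK z.1 z.2 * (g z.1 * g z.2) := by
        rw [tK, Finset.sum_mul]
        exact Finset.sum_congr rfl fun i _ => by ring
      rw [this]; ring
    simp_rw [e]
    rw [integral_finsetSum]
    · exact Finset.sum_nonneg fun i _ => ih (hgi i)
    · intro i _
      refine ((hgi i).mul_prod (hgi i)).bdd_mul (c := 1) (tK_meas.pow_const n).aestronglyMeasurable
        (Eventually.of_forall fun z => ?_)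
      rw [Real.norm_eq_abs, abs_pow]
      exact pow_le_one₀ (abs_nonneg _) (tK_le _ _)

/-- Abel means of the logarithmic kernel. -/
theorem abel_pos {g : ℂ → ℝ} (hg : Integrable g μ) {r : ℝ} (hr0 : 0 < r) (hr1 : r < 1) :
    0 ≤ ∫ z, -Real.log (1 - r * tK z.1 z.2) * (g z.1 * g z.2) ∂(μ.prod μ) := by
  have hG := hg.mul_prod hg
  have habs : ∀ z : ℂ × ℂ, |r * tK z.1 z.2| ≤ r := fun z => by
    rw [abs_mul, abs_of_pos hr0]
    exact mul_le_of_le_one_right hr0.le (tK_le _ _)
  have hsum : ∀ x : ℝ, |x| < 1 → HasSum (fun n : ℕ => x ^ (n + 1) / (n + 1)) (-Real.log (1 - x)) :=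
    fun x hx => Real.hasSum_pow_div_log_of_abs_lt_one hx
  have hlim : Tendsto (fun N : ℕ => ∫ z, (∑ n ∈ Finset.range N,
      (r * tK z.1 z.2) ^ (n + 1) / (n + 1)) * (g z.1 * g z.2) ∂(μ.prod μ)) atTop
      (𝓝 (∫ z, -Real.log (1 - r * tK z.1 z.2) * (g z.1 * g z.2) ∂(μ.prod μ))) := by
    refine tendsto_integral_of_dominated_convergence
      (fun z => -Real.log (1 - r) * ‖g z.1 * g z.2‖) (fun N => ?_) (hG.norm.const_mul _)
      (fun N => ?_) ?_
    · refine AEStronglyMeasurable.mul ?_ hG.aestronglyMeasurable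
      refine Measurable.aestronglyMeasurable ?_
      exact Finset.measurable_fun_sum _ fun n _ =>
        ((tK_meas.const_mul r).pow_const _).div_const _
    · refine Eventually.of_forall fun z => ?_
      rw [norm_mul]
      refine mul_le_mul_of_nonneg_right ?_ (norm_nonneg _)
      have h1 : ‖∑ n ∈ Finset.range N, (r * tK z.1 z.2) ^ (n + 1) / ((n : ℝ) + 1)‖ ≤
          ∑ n ∈ Finset.range N, r ^ (n + 1) / ((n : ℝ) + 1) := by
        refine norm_sum_le_of_le _ fun n _ => ?_
        rw [norm_div, norm_pow, Real.norm_eq_abs, Real.norm_eq_abs,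
          abs_of_pos (by positivity : (0 : ℝ) < n + 1)]
        exact div_le_div_of_nonneg_right (pow_le_pow_left₀ (abs_nonneg _) (habs z) _)
          (by positivity)
      refine h1.trans ?_
      refine sum_le_hasSum _ (fun n _ => by positivity) (hsum r ?_)
      rw [abs_of_pos hr0]; exact hr1
    · refine Eventually.of_forall fun z => ?_
      exact ((hsum _ (lt_of_le_of_lt (habs z) hr1)).tendsto_sum_nat).mul_const _
  refine ge_of_tendsto' hlim fun N => ?_
  have e : ∀ z : ℂ × ℂ, (∑ n ∈ Finset.range N,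
      (r * tK z.1 z.2) ^ (n + 1) / ((n : ℝ) + 1)) * (g z.1 * g z.2) =
      ∑ n ∈ Finset.range N, r ^ (n + 1) / ((n : ℝ) + 1) *
        (tK z.1 z.2 ^ (n + 1) * (g z.1 * g z.2)) := by
    intro z
    rw [Finset.sum_mul]
    refine Finset.sum_congr rfl fun n _ => ?_
    rw [mul_pow]; ring
  simp_rw [e]
  rw [integral_finsetSum]
  · refine Finset.sum_nonneg fun n _ => ?_
    rw [integral_const_mul]
    exact mul_nonneg (by positivity) (pow_pos _ hg)
  · intro n _
    refine Integrable.const_mul ?_ _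
    refine hG.bdd_mul (c := 1) (tK_meas.pow_const _).aestronglyMeasurable
      (Eventually.of_forall fun z => ?_)
    rw [Real.norm_eq_abs, abs_pow]
    exact pow_le_one₀ (abs_nonneg _) (tK_le _ _)

theorem chord_meas : Measurable fun z : ℂ × ℂ => chord z.1 z.2 := by
  unfold chord
  fun_prop

theorem log_bound {t r : ℝ} (ht : t < 1) (hr0 : 0 < r) (hr1 : r < 1) :
    |Real.log (1 - r * t)| ≤ |Real.log (1 - t)| := by
  rcases le_or_gt 0 t with h | h
  · have h1 : r * t ≤ t := by nlinarith
    have h2 : 0 ≤ r * t := by positivity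
    have h3 : Real.log (1 - t) ≤ Real.log (1 - r * t) :=
      Real.log_le_log (by linarith) (by linarith)
    have h4 : Real.log (1 - r * t) ≤ 0 := Real.log_nonpos (by linarith) (by linarith)
    rw [abs_of_nonpos h4, abs_of_nonpos (h3.trans h4)]
    linarith
  · have h1 : t ≤ r * t := by nlinarith
    have h2 : r * t ≤ 0 := by nlinarith
    have h3 : Real.log (1 - r * t) ≤ Real.log (1 - t) :=
      Real.log_le_log (by linarith) (by linarith)
    have h4 : 0 ≤ Real.log (1 - r * t) := Real.log_nonneg (by linarith)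
    rw [abs_of_nonneg h4, abs_of_nonneg (h4.trans h3)]
    exact h3

theorem main (hat : ∀ x : ℂ, μ {x} = 0) {C : ℝ}
    (hC : ∀ y : ℂ, ∫⁻ x, ENNReal.ofReal (Real.log (chord x y) ^ 2) ∂μ ≤ ENNReal.ofReal C)
    {g : ℂ → ℝ} (hg : MemLp g 2 μ) :
    0 ≤ ∫ x, ∫ y, -Real.log (chord x y) * (g x * g y) ∂μ ∂μ := by
  have hg1 : Integrable g μ := hg.integrable (by norm_num)
  have hG := hg1.mul_prod hg1
  have hG2 : Integrable (fun z : ℂ × ℂ => g z.1 ^ 2 * g z.2 ^ 2) (μ.prod μ) :=
    hg.integrable_sq.mul_prod hg.integrable_sq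
  have hlm : Measurable fun z : ℂ × ℂ => Real.log (chord z.1 z.2) :=
    Real.measurable_log.comp chord_meas
  have hK2 : Integrable (fun z : ℂ × ℂ => Real.log (chord z.1 z.2) ^ 2) (μ.prod μ) := by
    refine ⟨(hlm.pow_const 2).aestronglyMeasurable, ?_⟩
    rw [hasFiniteIntegral_iff_ofReal (Eventually.of_forall fun z => sq_nonneg _)]
    rw [lintegral_prod_symm _ ((hlm.pow_const 2).ennreal_ofReal.aemeasurable)]
    refine lt_of_le_of_lt (lintegral_mono fun y => hC y) ?_
    rw [lintegral_const]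
    exact ENNReal.mul_lt_top ENNReal.ofReal_lt_top (measure_lt_top _ _)
  have hI : Integrable (fun z : ℂ × ℂ => |Real.log (chord z.1 z.2)| * ‖g z.1 * g z.2‖)
      (μ.prod μ) := by
    refine Integrable.mono' (hK2.add hG2)
      ((continuous_abs.measurable.comp hlm).aestronglyMeasurable.mul hG.norm.aestronglyMeasurable)
      (Eventually.of_forall fun z => ?_)
    simp only [Pi.add_apply, Real.norm_eq_abs, abs_mul, abs_abs]
    rw [← sq_abs (Real.log (chord z.1 z.2)), ← sq_abs (g z.1), ← sq_abs (g z.2)]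
    nlinarith [sq_nonneg (|Real.log (chord z.1 z.2)| - |g z.1| * |g z.2|),
      mul_nonneg (abs_nonneg (Real.log (chord z.1 z.2)))
        (mul_nonneg (abs_nonneg (g z.1)) (abs_nonneg (g z.2))),
      sq_nonneg (|Real.log (chord z.1 z.2)|), sq_nonneg (|g z.1| * |g z.2|)]
  have hI' : Integrable (fun z : ℂ × ℂ => -Real.log (chord z.1 z.2) * (g z.1 * g z.2))
      (μ.prod μ) := by
    refine hI.mono (hlm.neg.aestronglyMeasurable.mul hG.aestronglyMeasurable)
      (Eventually.of_forall fun z => ?_)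
    simp only [norm_mul, norm_neg, Real.norm_eq_abs, abs_abs]
    exact le_rfl
  have hdiag : ∀ᵐ z ∂(μ.prod μ), z.1 ≠ z.2 := by
    have hm : MeasurableSet {z : ℂ × ℂ | z.1 = z.2} := measurableSet_eq_fun measurable_fst
      measurable_snd
    have h0 : (μ.prod μ) {z : ℂ × ℂ | z.1 = z.2} = 0 := by
      rw [Measure.measure_prod_null hm]
      refine Eventually.of_forall fun x => ?_
      have : Prod.mk x ⁻¹' {z : ℂ × ℂ | z.1 = z.2} = {x} := by
        ext y
        exact ⟨fun h => h.symm, fun h => h.symm⟩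
      simp only [this, hat, Pi.zero_apply]
    rw [ae_iff]
    simpa only [not_not] using h0
  -- Abel limit
  have hlim : Tendsto (fun r : ℝ => ∫ z, -Real.log (1 - r * tK z.1 z.2) * (g z.1 * g z.2)
      ∂(μ.prod μ)) (𝓝[<] 1)
      (𝓝 (∫ z, -Real.log (1 - tK z.1 z.2) * (g z.1 * g z.2) ∂(μ.prod μ))) := by
    refine tendsto_integral_filter_of_dominated_convergence
      (fun z => ‖g z.1 * g z.2‖ + 2 * (|Real.log (chord z.1 z.2)| * ‖g z.1 * g z.2‖))
      ?_ ?_ (hG.norm.add (hI.const_mul 2)) ?_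
    · refine Eventually.of_forall fun r => ?_
      refine AEStronglyMeasurable.mul ?_ hG.aestronglyMeasurable
      exact (Real.measurable_log.comp ((tK_meas.const_mul r).const_sub 1)).neg.aestronglyMeasurable
    · have h1 : ∀ᶠ r : ℝ in 𝓝[<] 1, 0 < r ∧ r < 1 := by
        have : Ioo (0 : ℝ) 1 ∈ 𝓝[<] (1 : ℝ) := Ioo_mem_nhdsLT (by norm_num)
        exact this
      filter_upwards [h1] with r hr
      filter_upwards [hdiag] with z hz
      have hc : 0 < chord z.1 z.2 := by
        unfold chord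
        have : 0 < ‖z.1 - z.2‖ := norm_pos_iff.2 (sub_ne_zero.2 hz)
        positivity
      have ht : 1 - tK z.1 z.2 = 2 * chord z.1 z.2 ^ 2 := chord_sq _ _
      have ht1 : tK z.1 z.2 < 1 := by nlinarith
      have hb := log_bound ht1 hr.1 hr.2
      rw [norm_mul, norm_neg, Real.norm_eq_abs]
      have h2 : |Real.log (1 - tK z.1 z.2)| ≤ 1 + 2 * |Real.log (chord z.1 z.2)| := by
        rw [ht, Real.log_mul (by norm_num) (by positivity), Real.log_pow]
        refine (abs_add_le _ _).trans ?_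
        rw [abs_mul]
        have h3 : |Real.log 2| ≤ 1 := by
          rw [abs_of_pos (Real.log_pos (by norm_num))]
          linarith [Real.log_two_lt_d9]
        have h4 : |((2 : ℕ) : ℝ)| = 2 := by norm_num
        rw [h4]
        linarith
      calc |Real.log (1 - r * tK z.1 z.2)| * ‖g z.1 * g z.2‖
          ≤ (1 + 2 * |Real.log (chord z.1 z.2)|) * ‖g z.1 * g z.2‖ :=
            mul_le_mul_of_nonneg_right (hb.trans h2) (norm_nonneg _)
        _ = _ := by ring
    · filter_upwards [hdiag] with z hz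
      have hc : 0 < chord z.1 z.2 := by
        unfold chord
        have : 0 < ‖z.1 - z.2‖ := norm_pos_iff.2 (sub_ne_zero.2 hz)
        positivity
      have ht : 1 - tK z.1 z.2 = 2 * chord z.1 z.2 ^ 2 := chord_sq _ _
      have hne : 1 - tK z.1 z.2 ≠ 0 := by rw [ht]; positivity
      refine Tendsto.mul_const _ (Tendsto.neg ?_)
      refine Tendsto.log ?_ hne
      have h5 : Tendsto (fun r : ℝ => 1 - r * tK z.1 z.2) (𝓝 1) (𝓝 (1 - 1 * tK z.1 z.2)) := by
        exact (continuous_const.sub (continuous_id.mul continuous_const)).tendsto 1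
      rw [one_mul] at h5
      exact h5.mono_left nhdsWithin_le_nhds
  have hpos : 0 ≤ ∫ z, -Real.log (1 - tK z.1 z.2) * (g z.1 * g z.2) ∂(μ.prod μ) := by
    refine ge_of_tendsto hlim ?_
    have h1 : ∀ᶠ r : ℝ in 𝓝[<] 1, 0 < r ∧ r < 1 := by
      have : Ioo (0 : ℝ) 1 ∈ 𝓝[<] (1 : ℝ) := Ioo_mem_nhdsLT (by norm_num)
      exact this
    filter_upwards [h1] with r hr
    exact abel_pos hg1 hr.1 hr.2
  have e : ∫ z, -Real.log (1 - tK z.1 z.2) * (g z.1 * g z.2) ∂(μ.prod μ) =
      -Real.log 2 * ∫ z, g z.1 * g z.2 ∂(μ.prod μ) +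
        2 * ∫ z, -Real.log (chord z.1 z.2) * (g z.1 * g z.2) ∂(μ.prod μ) := by
    rw [← integral_const_mul, ← integral_const_mul, ← integral_add (hG.const_mul _)
      (hI'.const_mul _)]
    refine integral_congr_ae ?_
    filter_upwards [hdiag] with z hz
    have hc : 0 < chord z.1 z.2 := by
      unfold chord
      have : 0 < ‖z.1 - z.2‖ := norm_pos_iff.2 (sub_ne_zero.2 hz)
      positivity
    rw [chord_sq, Real.log_mul (by norm_num) (by positivity), Real.log_pow]
    push_cast
    ring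
  rw [integral_prod_mul] at e
  rw [integral_integral hI']
  have h6 : 0 ≤ Real.log 2 * ((∫ x, g x ∂μ) * ∫ x, g x ∂μ) :=
    mul_nonneg (Real.log_nonneg (by norm_num)) (mul_self_nonneg _)
  nlinarith

end Posi

theorem log_chord_pos {φ : ℂ → ℝ} (hφ : IsGrow φ) {g : ℂ → ℝ} (hg : MemLp g 2 (vol φ))
    (_h0 : ∫ x, g x ∂(vol φ) = 0) :
    0 ≤ ∫ x, ∫ y, -Real.log (chord x y) * (g x * g y) ∂(vol φ) ∂(vol φ) := by
  have := hφ.finite
  obtain ⟨C, _, hC⟩ := chord_log_lintegral hφ
  exact Posi.main (fun x => vol_ac φ (measure_singleton x)) hC hg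

end

end LQZ
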