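import Pool.Agent.LQZ.LogGreen
import Pool.Agent.LQZ.Liouville
import Pool.Agent.LQZ.MetInv
import Pool.Agent.LQZ.ChordInt
import Pool.Agent.LQZ.Compact
import Pool.Agent.LQZ.Positive
import Pool.Agent.LQZ.IBP

/-!
# Project LQZ, module GOP: the Green operator
-/

open MeasureTheory Set Filter Topology InnerProductSpace
open scoped ContDiff ENNReal NNReal Real

namespace LQZ

noncomputable section

variable {ψ χ f g η φ φ' u : ℂ → ℝ} {a a' : ℂ → ℂ} {D D' : ℂ → ℝ}

/-- the logarithmic kernel -/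
def gopL (x y : ℂ) : ℝ := -(1 / (2 * π)) * Real.log (chord x y)

theorem gopL_symm (x y : ℂ) : gopL x y = gopL y x := by
  rw [gopL, gopL, chord_symm]

theorem gop_chord_cont : Continuous (fun p : ℂ × ℂ => chord p.1 p.2) := by
  unfold chord
  refine Continuous.div (by fun_prop) (by fun_prop) (fun p => by positivity)

theorem gopL_meas : Measurable (Function.uncurry gopL) :=
  (Real.measurable_log.comp gop_chord_cont.measurable).const_mul _

theorem gopL_meas' (x : ℂ) : Measurable (gopL x) :=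
  gopL_meas.comp measurable_prodMk_left

theorem gopL_sq_le (x y : ℂ) : gopL x y ^ 2 ≤ Real.log (chord x y) ^ 2 := by
  unfold gopL
  rw [mul_pow]
  have h1 : (-(1 / (2 * π))) ^ 2 ≤ 1 := by
    rw [neg_sq, div_pow, one_pow, div_le_one (by positivity)]
    have := Real.pi_gt_three
    nlinarith
  nlinarith [sq_nonneg (Real.log (chord x y))]

theorem gopL_bound (hφ : IsGrow φ) : ∃ C : ℝ, 0 < C ∧ ∀ x : ℂ,
    ∫⁻ y, ENNReal.ofReal (gopL x y ^ 2) ∂(vol φ) ≤ ENNReal.ofReal C := by
  obtain ⟨C, hC, h⟩ := chord_log_lintegral hφ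
  refine ⟨C, hC, fun x => le_trans (lintegral_mono fun y => ?_) (h x)⟩
  apply ENNReal.ofReal_le_ofReal
  rw [chord_symm y x]
  exact gopL_sq_le x y

theorem gopL_sq_integrable (hφ : IsGrow φ) (x : ℂ) :
    Integrable (fun y => gopL x y ^ 2) (vol φ) := by
  obtain ⟨C, hC, h⟩ := gopL_bound hφ
  refine ⟨((gopL_meas' x).pow_const 2).aestronglyMeasurable, ?_⟩
  rw [hasFiniteIntegral_iff_ofReal (Eventually.of_forall fun y => sq_nonneg _)]
  exact lt_of_le_of_lt (h x) ENNReal.ofReal_lt_top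

theorem gopL_memLp (hφ : IsGrow φ) (x : ℂ) : MemLp (gopL x) 2 (vol φ) := by
  rw [memLp_two_iff_integrable_sq (gopL_meas' x).aestronglyMeasurable]
  exact gopL_sq_integrable hφ x

theorem gopL_memLp2 (hφ : IsGrow φ) :
    MemLp (Function.uncurry gopL) 2 ((vol φ).prod (vol φ)) := by
  have := hφ.finite
  obtain ⟨C, hC, h⟩ := gopL_bound hφ
  rw [memLp_two_iff_integrable_sq gopL_meas.aestronglyMeasurable]
  refine ⟨(gopL_meas.pow_const 2).aestronglyMeasurable, ?_⟩
  rw [hasFiniteIntegral_iff_ofReal (Eventually.of_forall fun y => sq_nonneg _)]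
  rw [lintegral_prod _ ((gopL_meas.pow_const 2).ennreal_ofReal.aemeasurable)]
  refine lt_of_le_of_lt (lintegral_mono (g := fun _ => ENNReal.ofReal C) fun x => ?_) ?_
  · exact h x
  · rw [lintegral_const]
    exact ENNReal.mul_lt_top ENNReal.ofReal_lt_top (measure_lt_top _ _)

/-- the average of the logarithmic kernel -/
def gopA (φ : ℂ → ℝ) (x : ℂ) : ℝ := ((vol φ).real univ)⁻¹ * ∫ y, gopL x y ∂(vol φ)

theorem gop_V_pos (hφ : IsGrow φ) : 0 < (vol φ).real univ := by
  have := hφ.finite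
  exact ENNReal.toReal_pos (vol_pos hφ).ne' (measure_lt_top _ _).ne

theorem gopA_meas (hφ : IsGrow φ) : Measurable (gopA φ) := by
  have := hφ.finite
  exact (gopL_meas.stronglyMeasurable.integral_prod_right).measurable.const_mul _

theorem gopA_mul (hφ : IsGrow φ) (x : ℂ) :
    ∫ y, gopL x y ∂(vol φ) = (vol φ).real univ * gopA φ x := by
  rw [gopA, ← mul_assoc, mul_inv_cancel₀ (gop_V_pos hφ).ne', one_mul]

theorem gopA_bound (hφ : IsGrow φ) : ∃ C : ℝ, ∀ x, ‖gopA φ x‖ ≤ C := by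
  have := hφ.finite
  obtain ⟨C, hC, h⟩ := gopL_bound hφ
  refine ⟨((vol φ).real univ)⁻¹ * ((vol φ).real univ + C), fun x => ?_⟩
  have hV := gop_V_pos hφ
  rw [gopA, norm_mul, norm_inv, Real.norm_of_nonneg hV.le]
  gcongr
  have h1 : ∫ y, gopL x y ^ 2 ∂(vol φ) ≤ C := by
    rw [integral_eq_lintegral_of_nonneg_ae (Eventually.of_forall fun y => sq_nonneg _)
      ((gopL_meas' x).pow_const 2).aestronglyMeasurable]
    exact ENNReal.toReal_le_of_le_ofReal hC.le (h x)
  refine (norm_integral_le_integral_norm _).trans ?_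
  have hi := gopL_sq_integrable hφ x
  calc ∫ y, ‖gopL x y‖ ∂(vol φ) ≤ ∫ y, (1 + gopL x y ^ 2) ∂(vol φ) := by
        refine integral_mono ((gopL_memLp hφ x).integrable one_le_two).norm
          ((integrable_const _).add hi) (fun y => ?_)
        simp only [Real.norm_eq_abs]
        nlinarith [sq_abs (gopL x y), sq_nonneg (|gopL x y| - 1)]
    _ = (vol φ).real univ + ∫ y, gopL x y ^ 2 ∂(vol φ) := by
        rw [integral_add (integrable_const _) hi, integral_const, smul_eq_mul, mul_one]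
    _ ≤ _ := by linarith

/-- the mean of the average -/
def gopA0 (φ : ℂ → ℝ) : ℝ := ((vol φ).real univ)⁻¹ * ∫ x, gopA φ x ∂(vol φ)

/-- the Green kernel with mean zero -/
def gopG (φ : ℂ → ℝ) (x y : ℂ) : ℝ := gopL x y - gopA φ x - gopA φ y + gopA0 φ

theorem gopA_memLp (hφ : IsGrow φ) : MemLp (gopA φ) 2 (vol φ) := by
  have := hφ.finite
  obtain ⟨C, h⟩ := gopA_bound hφ
  exact MemLp.of_bound (gopA_meas hφ).aestronglyMeasurable C (Eventually.of_forall h)

theorem gopG_memLp (hφ : IsGrow φ) :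
    MemLp (Function.uncurry (gopG φ)) 2 ((vol φ).prod (vol φ)) := by
  have := hφ.finite
  obtain ⟨C, h⟩ := gopA_bound hφ
  have h1 : MemLp (fun p : ℂ × ℂ => gopA φ p.1) 2 ((vol φ).prod (vol φ)) :=
    MemLp.of_bound ((gopA_meas hφ).comp measurable_fst).aestronglyMeasurable C
      (Eventually.of_forall fun p => h p.1)
  have h2 : MemLp (fun p : ℂ × ℂ => gopA φ p.2) 2 ((vol φ).prod (vol φ)) :=
    MemLp.of_bound ((gopA_meas hφ).comp measurable_snd).aestronglyMeasurable C
      (Eventually.of_forall fun p => h p.2)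
  exact (((gopL_memLp2 hφ).sub h1).sub h2).add (memLp_const (gopA0 φ))

theorem gopG_symm (φ : ℂ → ℝ) (x y : ℂ) : gopG φ x y = gopG φ y x := by
  unfold gopG
  rw [gopL_symm]
  ring

theorem gop_apply (hφ : IsGrow φ) {f : ℂ → ℝ} (hf : MemLp f 2 (vol φ)) (x : ℂ) :
    ∫ y, gopG φ x y * f y ∂(vol φ) = ∫ y, gopL x y * f y ∂(vol φ) -
      gopA φ x * ∫ y, f y ∂(vol φ) - ∫ y, gopA φ y * f y ∂(vol φ) +
      gopA0 φ * ∫ y, f y ∂(vol φ) := by
  have := hφ.finite
  have i0 : Integrable f (vol φ) := hf.integrable one_le_two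
  have i1 : Integrable (fun y => gopL x y * f y) (vol φ) := (gopL_memLp hφ x).integrable_mul hf
  have i2 : Integrable (fun y => gopA φ x * f y) (vol φ) := i0.const_mul _
  have i3 : Integrable (fun y => gopA φ y * f y) (vol φ) := (gopA_memLp hφ).integrable_mul hf
  have i4 : Integrable (fun y => gopA0 φ * f y) (vol φ) := i0.const_mul _
  have e : (fun y => gopG φ x y * f y) =
      fun y => gopL x y * f y - gopA φ x * f y - gopA φ y * f y + gopA0 φ * f y := by
    funext y
    unfold gopG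
    ring
  have i12 : Integrable (fun y => gopL x y * f y - gopA φ x * f y) (vol φ) := i1.sub i2
  have i123 : Integrable (fun y => gopL x y * f y - gopA φ x * f y - gopA φ y * f y) (vol φ) :=
    i12.sub i3
  rw [e, integral_add i123 i4, integral_sub i12 i3, integral_sub i1 i2,
    integral_const_mul, integral_const_mul]

theorem gop_mul {μ : Measure ℂ} {f g : ℂ → ℝ} (hf : MemLp f 2 μ) (hg : MemLp g 2 μ) :
    Integrable (fun x => f x * g x) μ := hf.integrable_mul hg

theorem gop_lap_const (x : ℂ) (r : ℝ) : lap (fun _ : ℂ => r) x = 0 := by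
  rw [lap_eq_dir contDiff_const]
  simp

theorem gop_inner {μ : Measure ℂ} (f g : Lp ℝ 2 μ) :
    (inner ℝ f g : ℝ) = ∫ x, f x * g x ∂μ := by
  rw [L2.inner_def]
  refine integral_congr_ae (Eventually.of_forall fun x => ?_)
  simp [mul_comm]

theorem gop_lapG_memLp (hφ : IsGrow φ) (hψ : SphSmooth ψ) : MemLp (lapG φ ψ) 2 (vol φ) := by
  have := hφ.finite
  obtain ⟨C, -, h⟩ := hφ.lapG_bdd hψ
  exact MemLp.of_bound (hφ.lapG_meas hψ).aestronglyMeasurable C (Eventually.of_forall h)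

theorem gop_integral_lapG (hφ : IsGrow φ) (hψ : SphSmooth ψ) :
    ∫ x, lapG φ ψ x ∂(vol φ) = 0 := by
  have h := hφ.integral_lapG (fun _ => 1) ψ
  simp only [one_mul] at h
  rw [h, integral_neg, integral_lap hψ, neg_zero]

theorem gop_apply_lapG (hφ : IsGrow φ) (hψ : SphSmooth ψ) : ∃ c : ℝ, ∀ x,
    ∫ y, gopG φ x y * lapG φ ψ y ∂(vol φ) = ψ x + c := by
  refine ⟨-(1 / (2 * π)) * (∫ x, 2 * ψ x / (1 + ‖x‖ ^ 2) ^ 2) -
    ∫ y, gopA φ y * lapG φ ψ y ∂(vol φ), fun x => ?_⟩
  rw [gop_apply hφ (gop_lapG_memLp hφ hψ), gop_integral_lapG hφ hψ, hφ.integral_lapG]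
  have h1 := (log_chord_green hψ x).2
  have h2 : ∫ y, gopL x y * -lap ψ y = 1 / (2 * π) * ∫ y, Real.log (chord y x) * lap ψ y := by
    rw [← integral_const_mul]
    refine integral_congr_ae (Eventually.of_forall fun y => ?_)
    simp only [gopL]
    rw [chord_symm x y]
    ring
  rw [h2, h1]
  have hπ : π ≠ 0 := Real.pi_ne_zero
  field_simp
  ring

theorem exists_greenOp (hφ : IsGrow φ) : ∃ T : Lp ℝ 2 (vol φ) →L[ℝ] Lp ℝ 2 (vol φ),
    IsCompactOperator T ∧ T.IsSymmetric ∧ (∀ g, 0 ≤ (inner ℝ (T g) g : ℝ)) ∧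
    (∀ g, ∫ x, (T g : ℂ → ℝ) x ∂(vol φ) = 0) ∧
    (∀ g : Lp ℝ 2 (vol φ), ∫ x, g x ∂(vol φ) = 0 → WeakEq φ (T g) g) ∧
    (∀ g : Lp ℝ 2 (vol φ), (∃ c : ℝ, g =ᵐ[vol φ] fun _ => c) → T g = 0) ∧
    (∀ u g : Lp ℝ 2 (vol φ), WeakEq φ u g → ∫ x, g x ∂(vol φ) = 0 ∧
      ∃ c : ℝ, u =ᵐ[vol φ] fun x => (T g : ℂ → ℝ) x + c) := by
  have := hφ.finite
  obtain ⟨T, hT⟩ := exists_kerOp (gopG_memLp hφ)
  have hcomp : IsCompactOperator T := kerOp_compact (gopG_memLp hφ) hT
  have hsymm : T.IsSymmetric := kerOp_symm (gopG_memLp hφ)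
    (Eventually.of_forall fun p => gopG_symm φ p.1 p.2) hT
  have hV := gop_V_pos hφ
  -- the constant function
  set e : Lp ℝ 2 (vol φ) := (memLp_const (1 : ℝ)).toLp _ with he
  have hee : (e : ℂ → ℝ) =ᵐ[vol φ] fun _ => (1 : ℝ) := MemLp.coeFn_toLp _
  have hA : ∫ x, gopA φ x ∂(vol φ) = (vol φ).real univ * gopA0 φ := by
    rw [gopA0, ← mul_assoc, mul_inv_cancel₀ hV.ne', one_mul]
  have hTe : T e = 0 := by
    apply Lp.ext
    refine (hT e).trans (EventuallyEq.trans ?_ (Lp.coeFn_zero ℝ 2 (vol φ)).symm)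
    refine Eventually.of_forall fun x => ?_
    simp only [Pi.zero_apply]
    have h1 : ∫ y, gopG φ x y * e y ∂(vol φ) = ∫ y, gopG φ x y * 1 ∂(vol φ) := by
      refine integral_congr_ae ?_
      filter_upwards [hee] with y hy
      rw [hy]
    rw [h1, gop_apply hφ (memLp_const (1 : ℝ)) x]
    simp only [mul_one]
    rw [gopA_mul hφ, hA, integral_const, smul_eq_mul, mul_one]
    ring
  have hine : ∀ g : Lp ℝ 2 (vol φ), (inner ℝ g e : ℝ) = ∫ x, g x ∂(vol φ) := by
    intro g
    rw [gop_inner]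
    refine integral_congr_ae ?_
    filter_upwards [hee] with y hy
    rw [hy, mul_one]
  have hmean : ∀ g, ∫ x, (T g : ℂ → ℝ) x ∂(vol φ) = 0 := by
    intro g
    rw [← hine]
    have := hsymm g e
    rw [ContinuousLinearMap.coe_coe] at this
    rw [this, hTe, inner_zero_right]
  -- the weak equation
  have hweak : ∀ g : Lp ℝ 2 (vol φ), ∫ x, g x ∂(vol φ) = 0 → WeakEq φ (T g) g := by
    intro g hg ψ hψ
    obtain ⟨c, hc⟩ := gop_apply_lapG hφ hψ
    set l : Lp ℝ 2 (vol φ) := (gop_lapG_memLp hφ hψ).toLp _ with hl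
    have hll : (l : ℂ → ℝ) =ᵐ[vol φ] lapG φ ψ := MemLp.coeFn_toLp _
    have h1 : ∫ x, (T g : ℂ → ℝ) x * lapG φ ψ x ∂(vol φ) = (inner ℝ (T g) l : ℝ) := by
      rw [gop_inner]
      refine integral_congr_ae ?_
      filter_upwards [hll] with y hy
      rw [hy]
    have h2 : (inner ℝ (T g) l : ℝ) = inner ℝ g (T l) := hsymm g l
    have h3 : (T l : ℂ → ℝ) =ᵐ[vol φ] fun x => ψ x + c := by
      refine (hT l).trans (Eventually.of_forall fun x => ?_)
      simp only
      rw [← hc x]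
      refine integral_congr_ae ?_
      filter_upwards [hll] with y hy
      rw [hy]
    obtain ⟨Cψ, -, hCψ⟩ := hψ.bdd
    have hψm : MemLp ψ 2 (vol φ) := MemLp.of_bound hψ.1.continuous.aestronglyMeasurable Cψ
      (Eventually.of_forall hCψ)
    rw [h1, h2, gop_inner]
    have h4 : ∫ x, g x * (T l : ℂ → ℝ) x ∂(vol φ) =
        ∫ x, (g x * ψ x + c * g x) ∂(vol φ) := by
      refine integral_congr_ae ?_
      filter_upwards [h3] with y hy
      rw [hy]
      ring
    rw [h4, integral_add (gop_mul (Lp.memLp g) hψm)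
      (((Lp.memLp g).integrable one_le_two).const_mul c), integral_const_mul, hg, mul_zero,
      add_zero]
  -- positivity
  have hpos0 : ∀ g : Lp ℝ 2 (vol φ), ∫ x, g x ∂(vol φ) = 0 → 0 ≤ (inner ℝ (T g) g : ℝ) := by
    intro g hg
    have hgm : MemLp (g : ℂ → ℝ) 2 (vol φ) := Lp.memLp g
    have hp := log_chord_pos hφ hgm hg
    have hLm : MemLp (fun x => ∫ y, gopL x y * g y ∂(vol φ)) 2 (vol φ) :=
      ops_memLp (gopL_memLp2 hφ) hgm
    have h1 : (inner ℝ (T g) g : ℝ) =
        ∫ x, ((∫ y, gopL x y * g y ∂(vol φ)) * g x +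
          -(∫ y, gopA φ y * g y ∂(vol φ)) * g x) ∂(vol φ) := by
      rw [gop_inner]
      refine integral_congr_ae ?_
      filter_upwards [hT g] with x hx
      rw [hx, gop_apply hφ hgm x, hg]
      ring
    rw [h1, integral_add (gop_mul hLm hgm) ((hgm.integrable one_le_two).const_mul _),
      integral_const_mul, hg, mul_zero, add_zero]
    have h2 : ∫ x, (∫ y, gopL x y * g y ∂(vol φ)) * g x ∂(vol φ) =
        1 / (2 * π) * ∫ x, ∫ y, -Real.log (chord x y) * (g x * g y) ∂(vol φ) ∂(vol φ) := by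
      rw [← integral_const_mul]
      refine integral_congr_ae (Eventually.of_forall fun x => ?_)
      simp only
      rw [← integral_mul_const, ← integral_const_mul]
      refine integral_congr_ae (Eventually.of_forall fun y => ?_)
      simp only [gopL]
      ring
    rw [h2]
    exact mul_nonneg (by positivity) hp
  have hpos : ∀ g, 0 ≤ (inner ℝ (T g) g : ℝ) := by
    intro g
    set m : ℝ := ((vol φ).real univ)⁻¹ * ∫ x, g x ∂(vol φ) with hm
    set g₀ : Lp ℝ 2 (vol φ) := g - m • e with hg₀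
    have hgg : g = g₀ + m • e := by rw [hg₀]; abel
    have hee' : (inner ℝ e e : ℝ) = (vol φ).real univ := by
      rw [hine]
      have : ∫ x, (e : ℂ → ℝ) x ∂(vol φ) = ∫ _x, (1 : ℝ) ∂(vol φ) := integral_congr_ae hee
      rw [this, integral_const, smul_eq_mul, mul_one]
    have hmean0 : ∫ x, g₀ x ∂(vol φ) = 0 := by
      rw [← hine, hg₀, inner_sub_left, inner_smul_left, hee', hine]
      simp only [conj_trivial]
      rw [hm, mul_comm ((vol φ).real univ)⁻¹, mul_assoc, inv_mul_cancel₀ hV.ne', mul_one, sub_self]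
    have hTg : T g = T g₀ := by
      rw [hgg, map_add, map_smul, hTe, smul_zero, add_zero]
    rw [hTg]
    conv_rhs => rw [hgg]
    rw [inner_add_right, inner_smul_right, hine, hmean, mul_zero, add_zero]
    exact hpos0 g₀ hmean0
  refine ⟨T, hcomp, hsymm, hpos, hmean, hweak, ?_, ?_⟩
  · rintro g ⟨c, hc⟩
    have h1 : g = c • e := by
      apply Lp.ext
      refine hc.trans (EventuallyEq.trans ?_ (Lp.coeFn_smul c e).symm)
      filter_upwards [hee] with y hy
      simp [hy]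
    rw [h1, map_smul, hTe, smul_zero]
  · intro u g hug
    have hg : ∫ x, g x ∂(vol φ) = 0 := by
      have h1 := hug (fun _ => 1) (SphSmooth.const 1)
      have h2 : ∀ x, lapG φ (fun _ => (1 : ℝ)) x = 0 := by
        intro x
        unfold lapG
        rw [gop_lap_const, mul_zero, neg_zero]
      simp only [h2, mul_zero, integral_zero, mul_one] at h1
      exact h1.symm
    refine ⟨hg, ?_⟩
    have hw := hweak g hg
    set w : Lp ℝ 2 (vol φ) := u - T g with hw'
    have hwe : (w : ℂ → ℝ) =ᵐ[vol φ] fun x => u x - (T g : ℂ → ℝ) x := Lp.coeFn_sub u (T g)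
    have hwi : Integrable (w : ℂ → ℝ) (vol φ) := (Lp.memLp w).integrable one_le_two
    obtain ⟨c, hc⟩ := liouville (u := (w : ℂ → ℝ)) (hφ.integrable_div hwi) (by
      intro ψ hψ
      have hlm := gop_lapG_memLp hφ hψ
      have h1 : ∫ x, w x * lapG φ ψ x ∂(vol φ) = 0 := by
        have h2 : ∫ x, w x * lapG φ ψ x ∂(vol φ) =
            ∫ x, (u x * lapG φ ψ x - (T g : ℂ → ℝ) x * lapG φ ψ x) ∂(vol φ) := by
          refine integral_congr_ae ?_
          filter_upwards [hwe] with x hx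
          rw [hx]
          ring
        rw [h2, integral_sub (gop_mul (Lp.memLp u) hlm)
          (gop_mul (Lp.memLp (T g)) hlm), hug ψ hψ, hw ψ hψ, sub_self]
      rw [hφ.integral_lapG] at h1
      have h3 : ∫ x, w x * lap ψ x = -∫ x, w x * -lap ψ x := by
        rw [← integral_neg]
        refine integral_congr_ae (Eventually.of_forall fun x => ?_)
        simp only
        ring
      rw [h3, h1, neg_zero])
    refine ⟨c, ?_⟩
    have hc' : (w : ℂ → ℝ) =ᵐ[vol φ] fun _ => c := (vol_ac φ).ae_eq hc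
    filter_upwards [hwe, hc'] with x h1 h2
    rw [h1] at h2
    linarith

end

end LQZ
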