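import Pool.Agent.LQZ.Base

/-!
# Project LQZ, module OPS: integral operators on `L²` of a finite measure space
-/

open MeasureTheory Set Filter Topology InnerProductSpace
open scoped ContDiff ENNReal NNReal Real

namespace LQZ

noncomputable section

section ops
variable {α : Type*} [MeasurableSpace α] {μ : Measure α} [IsFiniteMeasure μ] {K L : α → α → ℝ}

theorem ops_sq {β : Type*} [MeasurableSpace β] (ν : Measure β) (f : β → ℝ) :
    eLpNorm f 2 ν ^ (2 : ℝ) = ∫⁻ x, ‖f x‖ₑ ^ (2 : ℝ) ∂ν := by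
  have h := eLpNorm_nnreal_pow_eq_lintegral (μ := ν) (f := f) (p := 2) (by norm_num)
  simpa using h

theorem ops_holder : (2 : ℝ).HolderConjugate 2 := Real.HolderConjugate.two_two

omit [IsFiniteMeasure μ] in
theorem ops_cs {k f : α → ℝ} (hk : AEStronglyMeasurable k μ) (hf : AEStronglyMeasurable f μ) :
    ‖∫ y, k y * f y ∂μ‖ₑ ^ (2 : ℝ) ≤
      (∫⁻ y, ‖k y‖ₑ ^ (2 : ℝ) ∂μ) * (∫⁻ y, ‖f y‖ₑ ^ (2 : ℝ) ∂μ) := by
  have h1 : ‖∫ y, k y * f y ∂μ‖ₑ ≤ ∫⁻ y, ‖k y‖ₑ * ‖f y‖ₑ ∂μ := by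
    refine (enorm_integral_le_lintegral_enorm _).trans (le_of_eq ?_)
    refine lintegral_congr fun y => ?_
    rw [enorm_mul]
  have h2 := ENNReal.lintegral_mul_le_Lp_mul_Lq μ ops_holder hk.enorm hf.enorm
  have h3 := ENNReal.rpow_le_rpow (h1.trans h2) (show (0 : ℝ) ≤ 2 by norm_num)
  refine h3.trans (le_of_eq ?_)
  rw [ENNReal.mul_rpow_of_nonneg _ _ (by norm_num), ← ENNReal.rpow_mul, ← ENNReal.rpow_mul]
  norm_num

theorem ops_aesm (hK : AEStronglyMeasurable (Function.uncurry K) (μ.prod μ)) :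
    ∀ᵐ x ∂μ, AEStronglyMeasurable (K x) μ := by
  have h := hK.prodMk_left
  filter_upwards [h] with x hx
  exact hx

theorem ops_mem (hK : MemLp (Function.uncurry K) 2 (μ.prod μ)) :
    ∀ᵐ x ∂μ, MemLp (K x) 2 μ := by
  have h1 : Integrable (fun p : α × α => Function.uncurry K p ^ 2) (μ.prod μ) := hK.integrable_sq
  filter_upwards [ops_aesm hK.1, h1.prod_right_ae] with x hx hx2
  rw [memLp_two_iff_integrable_sq hx]
  exact hx2

theorem ops_meas (hK : AEStronglyMeasurable (Function.uncurry K) (μ.prod μ)) {f : α → ℝ}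
    (hf : AEStronglyMeasurable f μ) :
    AEStronglyMeasurable (fun x => ∫ y, K x y * f y ∂μ) μ := by
  have h : AEStronglyMeasurable (fun p : α × α => Function.uncurry K p * f p.2) (μ.prod μ) :=
    hK.mul hf.comp_snd
  exact h.integral_prod_right'

theorem ops_bound (hK : MemLp (Function.uncurry K) 2 (μ.prod μ)) {f : α → ℝ}
    (hf : AEStronglyMeasurable f μ) :
    eLpNorm (fun x => ∫ y, K x y * f y ∂μ) 2 μ ≤
      eLpNorm (Function.uncurry K) 2 (μ.prod μ) * eLpNorm f 2 μ := by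
  have h0 : (0 : ℝ) < 2 := by norm_num
  rw [← ENNReal.rpow_le_rpow_iff h0, ENNReal.mul_rpow_of_nonneg _ _ h0.le, ops_sq, ops_sq, ops_sq]
  have h1 : ∫⁻ z, ‖Function.uncurry K z‖ₑ ^ (2 : ℝ) ∂(μ.prod μ) =
      ∫⁻ x, ∫⁻ y, ‖K x y‖ₑ ^ (2 : ℝ) ∂μ ∂μ := by
    rw [lintegral_prod _ (hK.1.enorm.pow_const _)]
    rfl
  rw [h1, ← lintegral_mul_const'']
  · refine lintegral_mono_ae ?_
    filter_upwards [ops_aesm hK.1] with x hx
    exact ops_cs hx hf
  · have h2 : AEMeasurable (fun z => ‖Function.uncurry K z‖ₑ ^ (2 : ℝ)) (μ.prod μ) :=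
      hK.1.enorm.pow_const _
    exact h2.lintegral_prod_right'

theorem ops_memLp (hK : MemLp (Function.uncurry K) 2 (μ.prod μ)) {f : α → ℝ}
    (hf : MemLp f 2 μ) : MemLp (fun x => ∫ y, K x y * f y ∂μ) 2 μ :=
  ⟨ops_meas hK.1 hf.1, lt_of_le_of_lt (ops_bound hK hf.1) (ENNReal.mul_lt_top hK.2 hf.2)⟩

theorem exists_kerOp (hK : MemLp (Function.uncurry K) 2 (μ.prod μ)) :
    ∃ T : Lp ℝ 2 μ →L[ℝ] Lp ℝ 2 μ, IsKerOp μ K T := by
  classical
  let T0 : Lp ℝ 2 μ →ₗ[ℝ] Lp ℝ 2 μ :=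
    { toFun := fun f => (ops_memLp hK (Lp.memLp f)).toLp _
      map_add' := by
        intro f g
        rw [← MemLp.toLp_add]
        refine (MemLp.toLp_eq_toLp_iff _ _).2 ?_
        filter_upwards [ops_mem hK] with x hx
        have i1 : Integrable (fun y => K x y * f y) μ := hx.integrable_mul (Lp.memLp f)
        have i2 : Integrable (fun y => K x y * g y) μ := hx.integrable_mul (Lp.memLp g)
        rw [Pi.add_apply, ← integral_add i1 i2]
        refine integral_congr_ae ?_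
        filter_upwards [Lp.coeFn_add f g] with y hy
        rw [hy, Pi.add_apply, mul_add]
      map_smul' := by
        intro c f
        rw [RingHom.id_apply, ← MemLp.toLp_const_smul]
        refine (MemLp.toLp_eq_toLp_iff _ _).2 ?_
        filter_upwards with x
        rw [Pi.smul_apply, smul_eq_mul, ← integral_const_mul]
        refine integral_congr_ae ?_
        filter_upwards [Lp.coeFn_smul c f] with y hy
        rw [hy, Pi.smul_apply, smul_eq_mul]
        ring }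
  refine ⟨T0.mkContinuous (eLpNorm (Function.uncurry K) 2 (μ.prod μ)).toReal ?_, ?_⟩
  · intro f
    have h1 : ‖T0 f‖ = (eLpNorm (fun x => ∫ y, K x y * f y ∂μ) 2 μ).toReal :=
      Lp.norm_toLp _ (ops_memLp hK (Lp.memLp f))
    rw [h1, Lp.norm_def, ← ENNReal.toReal_mul]
    exact ENNReal.toReal_mono (ENNReal.mul_lt_top hK.2 (Lp.memLp f).2).ne
      (ops_bound hK (Lp.memLp f).1)
  · intro f
    exact (ops_memLp hK (Lp.memLp f)).coeFn_toLp

/-- Parseval for a.e. `x`, then Tonelli. -/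
theorem kerOp_hasSum {ι : Type*} [Countable ι] (b : HilbertBasis ι ℝ (Lp ℝ 2 μ))
    (hK : MemLp (Function.uncurry K) 2 (μ.prod μ)) (hL : MemLp (Function.uncurry L) 2 (μ.prod μ))
    {T S : Lp ℝ 2 μ →L[ℝ] Lp ℝ 2 μ} (hT : IsKerOp μ K T) (hS : IsKerOp μ L S) :
    HasSum (fun i => (inner ℝ (T (b i)) (S (b i)) : ℝ)) (∫ x, ∫ y, K x y * L x y ∂μ ∂μ) := by
  have hinner : ∀ i, (inner ℝ (T (b i)) (S (b i)) : ℝ) =
      ∫ x, (∫ y, K x y * b i y ∂μ) * (∫ y, L x y * b i y ∂μ) ∂μ := by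
    intro i
    rw [L2.inner_def]
    refine integral_congr_ae ?_
    filter_upwards [hT (b i), hS (b i)] with x h1 h2
    rw [h1, h2]
    simp only [RCLike.inner_apply, conj_trivial]
    ring
  have hpar : ∀ {M N : α → ℝ}, MemLp M 2 μ → MemLp N 2 μ →
      HasSum (fun i => (∫ y, M y * b i y ∂μ) * (∫ y, N y * b i y ∂μ)) (∫ y, M y * N y ∂μ) := by
    intro M N hM hN
    have h := b.hasSum_inner_mul_inner (hM.toLp M) (hN.toLp N)
    have e1 : ∀ i, (inner ℝ (hM.toLp M) (b i) : ℝ) = ∫ y, M y * b i y ∂μ := by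
      intro i
      rw [L2.inner_def]
      refine integral_congr_ae ?_
      filter_upwards [hM.coeFn_toLp] with y hy
      rw [hy]
      simp only [RCLike.inner_apply, conj_trivial]
      ring
    have e2 : ∀ i, (inner ℝ (b i) (hN.toLp N) : ℝ) = ∫ y, N y * b i y ∂μ := by
      intro i
      rw [L2.inner_def]
      refine integral_congr_ae ?_
      filter_upwards [hN.coeFn_toLp] with y hy
      rw [hy]
      simp only [RCLike.inner_apply, conj_trivial]
    have e3 : (inner ℝ (hM.toLp M) (hN.toLp N) : ℝ) = ∫ y, M y * N y ∂μ := by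
      rw [L2.inner_def]
      refine integral_congr_ae ?_
      filter_upwards [hM.coeFn_toLp, hN.coeFn_toLp] with y hy hy2
      rw [hy, hy2]
      simp only [RCLike.inner_apply, conj_trivial]
      ring
    rw [e3] at h
    simp only [e1, e2] at h
    exact h
  simp only [hinner]
  refine hasSum_integral_of_dominated_convergence
    (fun i x => ((∫ y, K x y * b i y ∂μ) ^ 2 + (∫ y, L x y * b i y ∂μ) ^ 2) / 2) ?_ ?_ ?_ ?_ ?_
  · intro i
    exact (ops_meas hK.1 (Lp.memLp (b i)).1).mul (ops_meas hL.1 (Lp.memLp (b i)).1)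
  · intro i
    filter_upwards with x
    rw [Real.norm_eq_abs, abs_mul]
    nlinarith [sq_nonneg (|∫ y, K x y * b i y ∂μ| - |∫ y, L x y * b i y ∂μ|),
      sq_abs (∫ y, K x y * b i y ∂μ), sq_abs (∫ y, L x y * b i y ∂μ)]
  · filter_upwards [ops_mem hK, ops_mem hL] with x h1 h2
    have s1 := (hpar h1 h1).summable
    have s2 := (hpar h2 h2).summable
    have s3 := (s1.add s2).div_const 2
    refine s3.congr fun i => ?_
    ring
  · have i1 : Integrable (fun p : α × α => Function.uncurry K p ^ 2) (μ.prod μ) := hK.integrable_sq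
    have i2 : Integrable (fun p : α × α => Function.uncurry L p ^ 2) (μ.prod μ) := hL.integrable_sq
    have i3 := ((i1.integral_prod_left).add (i2.integral_prod_left)).div_const 2
    refine i3.congr ?_
    filter_upwards [ops_mem hK, ops_mem hL] with x h1 h2
    have s3 := ((hpar h1 h1).add (hpar h2 h2)).div_const 2
    have s4 := s3.tsum_eq
    simp only [Pi.add_apply, Function.uncurry_apply_pair]
    have e : ∀ i, ((∫ y, K x y * b i y ∂μ) ^ 2 + (∫ y, L x y * b i y ∂μ) ^ 2) / 2 =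
        ((∫ y, K x y * b i y ∂μ) * (∫ y, K x y * b i y ∂μ) +
          (∫ y, L x y * b i y ∂μ) * (∫ y, L x y * b i y ∂μ)) / 2 := by
      intro i; ring
    simp only [e]
    rw [s4]
    simp only [pow_two]
  · filter_upwards [ops_mem hK, ops_mem hL] with x h1 h2
    exact hpar h1 h2

omit [IsFiniteMeasure μ] in
/-- weighted Cauchy-Schwarz -/
theorem ops_wcs {k f : α → ℝ} (hk : AEStronglyMeasurable k μ) (hf : AEStronglyMeasurable f μ) :
    ‖∫ y, k y * f y ∂μ‖ₑ ^ (2 : ℝ) ≤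
      (∫⁻ y, ‖k y‖ₑ ∂μ) * (∫⁻ y, ‖k y‖ₑ * ‖f y‖ₑ ^ (2 : ℝ) ∂μ) := by
  have h1 : ‖∫ y, k y * f y ∂μ‖ₑ ≤
      ∫⁻ y, ‖k y‖ₑ ^ (1 / 2 : ℝ) * (‖k y‖ₑ ^ (1 / 2 : ℝ) * ‖f y‖ₑ) ∂μ := by
    refine (enorm_integral_le_lintegral_enorm _).trans (le_of_eq ?_)
    refine lintegral_congr fun y => ?_
    rw [enorm_mul, ← mul_assoc, ← ENNReal.rpow_add_of_nonneg _ _ (by norm_num) (by norm_num)]
    norm_num
  have h2 := ENNReal.lintegral_mul_le_Lp_mul_Lq μ ops_holder
    (hk.enorm.pow_const (1 / 2 : ℝ)) ((hk.enorm.pow_const (1 / 2 : ℝ)).mul hf.enorm)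
  have h3 := ENNReal.rpow_le_rpow (h1.trans h2) (show (0 : ℝ) ≤ 2 by norm_num)
  refine h3.trans (le_of_eq ?_)
  rw [ENNReal.mul_rpow_of_nonneg _ _ (by norm_num), ← ENNReal.rpow_mul, ← ENNReal.rpow_mul]
  have e1 : (1 / 2 : ℝ) * 2 = 1 := by norm_num
  rw [e1, ENNReal.rpow_one, ENNReal.rpow_one]
  congr 1
  · refine lintegral_congr fun y => ?_
    rw [← ENNReal.rpow_mul, e1, ENNReal.rpow_one]
  · refine lintegral_congr fun y => ?_
    rw [Pi.mul_apply, ENNReal.mul_rpow_of_nonneg _ _ (by norm_num), ← ENNReal.rpow_mul, e1,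
      ENNReal.rpow_one]

/-- Schur test -/
theorem kerOp_norm_le (hK : Measurable (Function.uncurry K)) {T : Lp ℝ 2 μ →L[ℝ] Lp ℝ 2 μ}
    (hT : IsKerOp μ K T) {A : ℝ} (hA : 0 ≤ A)
    (h1 : ∀ᵐ x ∂μ, ∫⁻ y, ENNReal.ofReal |K x y| ∂μ ≤ ENNReal.ofReal A)
    (h2 : ∀ᵐ y ∂μ, ∫⁻ x, ENNReal.ofReal |K x y| ∂μ ≤ ENNReal.ofReal A) : ‖T‖ ≤ A := by
  have h1' : ∀ᵐ x ∂μ, ∫⁻ y, ‖K x y‖ₑ ∂μ ≤ ENNReal.ofReal A := by
    filter_upwards [h1] with x hx
    simpa only [Real.enorm_eq_ofReal_abs] using hx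
  have h2' : ∀ᵐ y ∂μ, ∫⁻ x, ‖K x y‖ₑ ∂μ ≤ ENNReal.ofReal A := by
    filter_upwards [h2] with x hx
    simpa only [Real.enorm_eq_ofReal_abs] using hx
  refine ContinuousLinearMap.opNorm_le_bound _ hA fun f => ?_
  have h0 : (0 : ℝ) < 2 := by norm_num
  have hfm : AEMeasurable (fun y => ‖f y‖ₑ ^ (2 : ℝ)) μ := (Lp.memLp f).1.enorm.pow_const _
  have hKm : Measurable fun p : α × α => ‖Function.uncurry K p‖ₑ := hK.enorm
  have key : eLpNorm (T f) 2 μ ≤ ENNReal.ofReal A * eLpNorm f 2 μ := by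
    rw [← ENNReal.rpow_le_rpow_iff h0, ENNReal.mul_rpow_of_nonneg _ _ h0.le, ops_sq, ops_sq]
    have e1 : ∫⁻ x, ‖(T f : α → ℝ) x‖ₑ ^ (2 : ℝ) ∂μ ≤
        ∫⁻ x, ENNReal.ofReal A * ∫⁻ y, ‖K x y‖ₑ * ‖f y‖ₑ ^ (2 : ℝ) ∂μ ∂μ := by
      refine lintegral_mono_ae ?_
      filter_upwards [hT f, h1'] with x hx hx1
      rw [hx]
      have hkx : AEStronglyMeasurable (K x) μ :=
        (hK.comp measurable_prodMk_left).aestronglyMeasurable
      exact (ops_wcs hkx (Lp.memLp f).1).trans (mul_le_mul' hx1 le_rfl)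
    have hprod : AEMeasurable (fun p : α × α => ‖Function.uncurry K p‖ₑ * ‖f p.2‖ₑ ^ (2 : ℝ))
        (μ.prod μ) := hKm.aemeasurable.mul (hfm.comp_snd)
    refine e1.trans ?_
    have hpr : AEMeasurable (fun x => ∫⁻ y, ‖K x y‖ₑ * ‖f y‖ₑ ^ (2 : ℝ) ∂μ) μ :=
      hprod.lintegral_prod_right'
    rw [lintegral_const_mul'' _ hpr]
    have e2 : ∫⁻ x, ∫⁻ y, ‖K x y‖ₑ * ‖f y‖ₑ ^ (2 : ℝ) ∂μ ∂μ =
        ∫⁻ y, ∫⁻ x, ‖K x y‖ₑ * ‖f y‖ₑ ^ (2 : ℝ) ∂μ ∂μ := lintegral_lintegral_swap hprod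
    rw [e2]
    have e3 : ∫⁻ y, ∫⁻ x, ‖K x y‖ₑ * ‖f y‖ₑ ^ (2 : ℝ) ∂μ ∂μ ≤
        ∫⁻ y, ENNReal.ofReal A * ‖f y‖ₑ ^ (2 : ℝ) ∂μ := by
      refine lintegral_mono_ae ?_
      filter_upwards [h2'] with y hy
      have hky : Measurable fun x => ‖K x y‖ₑ := hKm.comp measurable_prodMk_right
      rw [lintegral_mul_const _ hky]
      exact mul_le_mul' hy le_rfl
    rw [lintegral_const_mul'' _ hfm] at e3
    refine (mul_le_mul' le_rfl e3).trans (le_of_eq ?_)
    rw [← mul_assoc]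
    congr 1
    have e4 : (2 : ℝ) = ((2 : ℕ) : ℝ) := by norm_num
    rw [e4, ENNReal.rpow_natCast, pow_two]
  rw [Lp.norm_def, Lp.norm_def]
  have h3 := ENNReal.toReal_mono
    (ENNReal.mul_lt_top ENNReal.ofReal_lt_top (Lp.memLp f).2).ne key
  rwa [ENNReal.toReal_mul, ENNReal.toReal_ofReal hA] at h3

theorem kerOp_symm (hK : MemLp (Function.uncurry K) 2 (μ.prod μ))
    (hs : ∀ᵐ p ∂(μ.prod μ), K p.1 p.2 = K p.2 p.1)
    {T : Lp ℝ 2 μ →L[ℝ] Lp ℝ 2 μ} (hT : IsKerOp μ K T) : T.IsSymmetric := by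
  intro f g
  have hfg : MemLp (fun p : α × α => g p.1 * f p.2) 2 (μ.prod μ) := by
    have hm : AEStronglyMeasurable (fun p : α × α => g p.1 * f p.2) (μ.prod μ) :=
      (Lp.memLp g).1.comp_fst.mul (Lp.memLp f).1.comp_snd
    rw [memLp_two_iff_integrable_sq hm]
    have h := (Lp.memLp g).integrable_sq.mul_prod (Lp.memLp f).integrable_sq
    refine h.congr ?_
    filter_upwards with p
    ring
  have hint : Integrable (fun p : α × α => Function.uncurry K p * (g p.1 * f p.2)) (μ.prod μ) :=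
    hK.integrable_mul hfg
  have e1 : (inner ℝ (T f) g : ℝ) = ∫ p, Function.uncurry K p * (g p.1 * f p.2) ∂(μ.prod μ) := by
    rw [L2.inner_def, integral_prod _ hint]
    refine integral_congr_ae ?_
    filter_upwards [hT f] with x hx
    simp only [RCLike.inner_apply, conj_trivial, Function.uncurry_apply_pair]
    rw [hx, ← integral_const_mul]
    refine integral_congr_ae ?_
    filter_upwards with y
    ring
  have e2 : (inner ℝ f (T g) : ℝ) = ∫ x, ∫ y, K x y * (g y * f x) ∂μ ∂μ := by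
    rw [L2.inner_def]
    refine integral_congr_ae ?_
    filter_upwards [hT g] with x hx
    simp only [RCLike.inner_apply, conj_trivial]
    rw [hx, ← integral_mul_const]
    refine integral_congr_ae ?_
    filter_upwards with y
    ring
  have e3 : ∫ p, Function.uncurry K p * (g p.1 * f p.2) ∂(μ.prod μ) =
      ∫ p, K p.2 p.1 * (g p.1 * f p.2) ∂(μ.prod μ) := by
    refine integral_congr_ae ?_
    filter_upwards [hs] with p hp
    rw [← hp]
    rfl
  have hint2 : Integrable (fun p : α × α => K p.2 p.1 * (g p.1 * f p.2)) (μ.prod μ) := by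
    refine hint.congr ?_
    filter_upwards [hs] with p hp
    rw [← hp]
    rfl
  have e4 : ∫ p, K p.2 p.1 * (g p.1 * f p.2) ∂(μ.prod μ) =
      ∫ x, ∫ y, K x y * (g y * f x) ∂μ ∂μ := by
    rw [integral_prod_symm _ hint2]
  change (inner ℝ (T f) g : ℝ) = inner ℝ f (T g)
  rw [e1, e2, e3, e4]

end ops

end

end LQZ
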