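import Pool.Agent.LQZ.SBound
import Pool.Agent.LQZ.Bessel

/-!
# Project LQZ, module KBD: pointwise kernel bounds
-/

open MeasureTheory Set Filter Topology InnerProductSpace ProbabilityTheory
open scoped ContDiff ENNReal NNReal Real

namespace LQZ

noncomputable section

variable {ψ χ f g η φ φ' u : ℂ → ℝ} {a a' : ℂ → ℂ} {D D' : ℂ → ℝ}

namespace KBD

lemma aux {u : ℝ} (hu : 0 < u) :
    u ^ (3 / 2 : ℝ) * (1 + u) ^ 3 * (u ^ (-(1 / 4) : ℝ) + 1) * Real.exp (-u / 2) ≤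
      2 * 20 ^ 5 * Real.exp (-u / 4) := by
  have h1 : u ^ (3 / 2 : ℝ) * (u ^ (-(1 / 4) : ℝ) + 1) ≤ 2 * (1 + u) ^ 2 := by
    have e1 : u ^ (3 / 2 : ℝ) * (u ^ (-(1 / 4) : ℝ) + 1) = u ^ (5 / 4 : ℝ) + u ^ (3 / 2 : ℝ) := by
      rw [mul_add, mul_one, ← Real.rpow_add hu]
      norm_num
    have e2 : ∀ p : ℝ, 0 ≤ p → p ≤ 2 → u ^ p ≤ (1 + u) ^ 2 := by
      intro p hp hp2
      calc u ^ p ≤ (1 + u) ^ p := Real.rpow_le_rpow hu.le (by linarith) hp
        _ ≤ (1 + u) ^ ((2 : ℕ) : ℝ) :=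
            Real.rpow_le_rpow_of_exponent_le (by linarith) (by exact_mod_cast hp2)
        _ = _ := Real.rpow_natCast _ _
    rw [e1]
    have := e2 (5 / 4) (by norm_num) (by norm_num)
    have := e2 (3 / 2) (by norm_num) (by norm_num)
    linarith
  have h2 : (1 + u) ^ 5 ≤ 20 ^ 5 * Real.exp (u / 4) := by
    have e1 : Real.exp (u / 4) = Real.exp (u / 20) ^ 5 := by
      rw [← Real.exp_nat_mul]
      congr 1
      push_cast
      ring
    rw [e1, ← mul_pow]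
    refine pow_le_pow_left₀ (by linarith) ?_ 5
    have := Real.add_one_le_exp (u / 20)
    linarith
  have h3 : Real.exp (-u / 2) * Real.exp (u / 4) = Real.exp (-u / 4) := by
    rw [← Real.exp_add]
    congr 1
    ring
  calc u ^ (3 / 2 : ℝ) * (1 + u) ^ 3 * (u ^ (-(1 / 4) : ℝ) + 1) * Real.exp (-u / 2)
      = (u ^ (3 / 2 : ℝ) * (u ^ (-(1 / 4) : ℝ) + 1)) * (1 + u) ^ 3 * Real.exp (-u / 2) := by ring
    _ ≤ (2 * (1 + u) ^ 2) * (1 + u) ^ 3 * Real.exp (-u / 2) := by gcongr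
    _ = 2 * (1 + u) ^ 5 * Real.exp (-u / 2) := by ring
    _ ≤ 2 * (20 ^ 5 * Real.exp (u / 4)) * Real.exp (-u / 2) := by gcongr
    _ = 2 * 20 ^ 5 * (Real.exp (-u / 2) * Real.exp (u / 4)) := by ring
    _ = _ := by rw [h3]

end KBD

theorem ker_bounds (hM : IsMet φ φ' a a' D D') : ∃ κ C : ℝ, 0 < κ ∧ 0 < C ∧
    ∀ z : ℝ, 1 ≤ z → ∀ x y : ℂ, x ≠ 0 → y ≠ 0 → x ≠ y →
      |PK φ a z x y| ≤ C * (√z * chord x y) ^ (-(1 / 4) : ℝ) * Real.exp (-(κ * (√z * chord x y))) ∧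
      |EK φ a z x y| ≤ C * z ^ (1 / 4 : ℝ) * Real.exp (-(κ * (√z * chord x y))) ∧
      |MK φ a z x y| ≤ C * z⁻¹ * Real.exp (-(κ * (√z * chord x y))) ∧
      |E2K φ a z x y| ≤ C * z ^ (-(3 / 4) : ℝ) * Real.exp (-(κ * (√z * chord x y))) := by
  obtain ⟨c, C₁, hc, hC₁, hs⟩ := hM.sK_bound
  obtain ⟨Ck, hCk, hk⟩ := kB_le
  obtain ⟨Cm, hCm, hm⟩ := mB_le
  set K : ℝ := 2 * 20 ^ 5 with hK
  have hK0 : 0 < K := by positivity
  set C : ℝ := Ck * c ^ (-(1 / 4) : ℝ) + Cm + C₁ * (Ck + Cm) * K with hC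
  have hC0 : 0 < C := by positivity
  refine ⟨c / 4, C, by positivity, hC0, fun z hz x y hx hy hxy => ?_⟩
  have hz0 : 0 < z := by linarith
  have hsz : 1 ≤ √z := Real.one_le_sqrt.2 hz
  have hd : 0 < chord x y := by
    unfold chord
    have := norm_pos_iff.2 (sub_ne_zero.2 hxy)
    positivity
  unfold PK EK MK E2K
  unfold rK
  by_cases hden : 1 - a y * (x - y) / 2 = 0
  · simp only [if_pos hden, mul_zero, sub_self, abs_zero]
    refine ⟨by positivity, by positivity, by positivity, by positivity⟩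
  simp only [if_neg hden]
  obtain ⟨h1, h2⟩ := hs x y hx hy hden
  set s := sK φ a x y with hsdef
  have hs0 : 0 < s := lt_of_lt_of_le (by positivity) h1
  set v := √z * s with hv
  have hv0 : 0 < v := by positivity
  set w := √z * chord x y with hw
  have hw0 : 0 < w := by positivity
  have hcw : c * w ≤ v := by
    rw [hw, hv]
    nlinarith
  have hexp : Real.exp (-v / 4) ≤ Real.exp (-(c / 4 * w)) := Real.exp_le_exp.2 (by linarith)
  have hexp2 : Real.exp (-v / 2) ≤ Real.exp (-v / 4) := Real.exp_le_exp.2 (by linarith)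
  have hkv := hk v hv0
  have hmv := hm v hv0.le
  have hk0 := kB_nonneg v
  have hm0 := mB_nonneg v
  -- the factor `1 - J`
  have hJ : |1 - JK φ a x y| ≤ C₁ * (z ^ (-(3 / 4) : ℝ) * (v ^ (3 / 2 : ℝ) * (1 + v) ^ 3)) := by
    have e1 : s ^ (3 / 2 : ℝ) = z ^ (-(3 / 4) : ℝ) * v ^ (3 / 2 : ℝ) := by
      rw [hv, Real.mul_rpow (by positivity) hs0.le, Real.sqrt_eq_rpow, ← Real.rpow_mul hz0.le,
        ← mul_assoc, ← Real.rpow_add hz0]
      norm_num
    have e2 : (1 + s) ^ 3 ≤ (1 + v) ^ 3 := by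
      refine pow_le_pow_left₀ (by linarith) ?_ 3
      have : s ≤ v := by rw [hv]; exact le_mul_of_one_le_left hs0.le hsz
      linarith
    refine h2.trans ?_
    rw [e1]
    calc C₁ * (z ^ (-(3 / 4) : ℝ) * v ^ (3 / 2 : ℝ)) * (1 + s) ^ 3
        ≤ C₁ * (z ^ (-(3 / 4) : ℝ) * v ^ (3 / 2 : ℝ)) * (1 + v) ^ 3 := by gcongr
      _ = _ := by ring
  have haux := KBD.aux hv0
  have hJk : |1 - JK φ a x y| * (mB v + kB v) ≤
      C₁ * (Ck + Cm) * K * z ^ (-(3 / 4) : ℝ) * Real.exp (-v / 4) := by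
    have e1 : mB v + kB v ≤ (Ck + Cm) * ((v ^ (-(1 / 4) : ℝ) + 1) * Real.exp (-v / 2)) := by
      have p1 : 0 ≤ Ck * Real.exp (-v / 2) := by positivity
      have p2 : 0 ≤ Cm * v ^ (-(1 / 4) : ℝ) * Real.exp (-v / 2) := by positivity
      nlinarith
    calc |1 - JK φ a x y| * (mB v + kB v)
        ≤ (C₁ * (z ^ (-(3 / 4) : ℝ) * (v ^ (3 / 2 : ℝ) * (1 + v) ^ 3))) *
          ((Ck + Cm) * ((v ^ (-(1 / 4) : ℝ) + 1) * Real.exp (-v / 2))) :=
          mul_le_mul hJ e1 (by positivity) (by positivity)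
      _ = C₁ * (Ck + Cm) * z ^ (-(3 / 4) : ℝ) *
          (v ^ (3 / 2 : ℝ) * (1 + v) ^ 3 * (v ^ (-(1 / 4) : ℝ) + 1) * Real.exp (-v / 2)) := by ring
      _ ≤ C₁ * (Ck + Cm) * z ^ (-(3 / 4) : ℝ) * (K * Real.exp (-v / 4)) := by gcongr
      _ = _ := by ring
  have hJk' : |1 - JK φ a x y| * (mB v + kB v) ≤
      C * z ^ (-(3 / 4) : ℝ) * Real.exp (-(c / 4 * w)) := by
    refine hJk.trans ?_
    have : C₁ * (Ck + Cm) * K ≤ C := by
      rw [hC]
      have : 0 < Ck * c ^ (-(1 / 4) : ℝ) := by positivity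
      linarith
    gcongr
  refine ⟨?_, ?_, ?_, ?_⟩
  · rw [abs_of_nonneg hk0]
    have e1 : v ^ (-(1 / 4) : ℝ) ≤ c ^ (-(1 / 4) : ℝ) * w ^ (-(1 / 4) : ℝ) := by
      rw [← Real.mul_rpow hc.le hw0.le]
      exact Real.rpow_le_rpow_of_nonpos (by positivity) hcw (by norm_num)
    calc kB v ≤ Ck * v ^ (-(1 / 4) : ℝ) * Real.exp (-v / 2) := hkv
      _ ≤ Ck * (c ^ (-(1 / 4) : ℝ) * w ^ (-(1 / 4) : ℝ)) * Real.exp (-(c / 4 * w)) := by
          gcongr
          linarith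
      _ = (Ck * c ^ (-(1 / 4) : ℝ)) * (w ^ (-(1 / 4) : ℝ) * Real.exp (-(c / 4 * w))) := by ring
      _ ≤ C * (w ^ (-(1 / 4) : ℝ) * Real.exp (-(c / 4 * w))) := by
          gcongr
          rw [hC]
          have : 0 < C₁ * (Ck + Cm) * K := by positivity
          linarith
      _ = _ := by ring
  · rw [abs_mul, abs_mul, abs_of_pos hz0, abs_of_nonneg hk0]
    have e1 : z * z ^ (-(3 / 4) : ℝ) = z ^ (1 / 4 : ℝ) := by
      nth_rewrite 1 [← Real.rpow_one z]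
      rw [← Real.rpow_add hz0]
      norm_num
    calc z * |1 - JK φ a x y| * kB v ≤ z * (|1 - JK φ a x y| * (mB v + kB v)) := by
          rw [mul_assoc]
          gcongr
          linarith
      _ ≤ z * (C * z ^ (-(3 / 4) : ℝ) * Real.exp (-(c / 4 * w))) := by gcongr
      _ = C * (z * z ^ (-(3 / 4) : ℝ)) * Real.exp (-(c / 4 * w)) := by ring
      _ = _ := by rw [e1]
  · rw [abs_mul, abs_of_pos (inv_pos.2 hz0), abs_of_nonneg hm0]
    calc z⁻¹ * mB v ≤ z⁻¹ * (Cm * Real.exp (-v / 2)) := by gcongr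
      _ ≤ z⁻¹ * (C * Real.exp (-(c / 4 * w))) := by
          have : Cm ≤ C := by
            rw [hC]
            have : 0 < Ck * c ^ (-(1 / 4) : ℝ) := by positivity
            have : 0 < C₁ * (Ck + Cm) * K := by positivity
            linarith
          gcongr
          linarith
      _ = _ := by ring
  · rw [abs_mul]
    refine le_trans ?_ hJk'
    refine mul_le_mul_of_nonneg_left ?_ (abs_nonneg _)
    rw [abs_le]
    constructor <;> linarith

end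

end LQZ
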