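import Pool.Agent.LQZ.MetInv

/-!
# Project LQZ, module SBD: the geometric estimates of `s` and `1 - J`
-/

open MeasureTheory Set Filter Topology InnerProductSpace ProbabilityTheory
open scoped ContDiff ENNReal NNReal Real

namespace LQZ

noncomputable section

variable {ψ χ f g η φ φ' u : ℂ → ℝ} {a a' : ℂ → ℂ} {D D' : ℂ → ℝ}

namespace SBD

lemma log_one_sub {w : ℂ} (hw : ‖w‖ ≤ 1 / 2) : |Real.log ‖1 - w‖ + w.re| ≤ ‖w‖ ^ 2 := by
  have h1 : ‖-w‖ < 1 := by rw [norm_neg]; linarith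
  have h := Complex.norm_log_one_add_sub_self_le h1
  rw [norm_neg, ← sub_eq_add_neg, sub_neg_eq_add] at h
  have h2 : Real.log ‖1 - w‖ + w.re = (Complex.log (1 - w) + w).re := by
    rw [Complex.add_re, Complex.log_re]
  rw [h2]
  refine (Complex.abs_re_le_norm _).trans (h.trans ?_)
  have h3 : (1 - ‖w‖)⁻¹ ≤ 2 := by
    rw [inv_le_comm₀ (by linarith) (by norm_num)]
    linarith
  nlinarith [sq_nonneg ‖w‖]

lemma abs_one_sub_exp (t : ℝ) : |1 - Real.exp t| ≤ |t| * Real.exp |t| := by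
  rcases le_or_gt 0 t with h | h
  · have h1 : 1 ≤ Real.exp t := Real.one_le_exp h
    rw [abs_of_nonpos (by linarith), abs_of_nonneg h]
    have h2 := Real.add_one_le_exp (-t)
    have h3 : Real.exp t * Real.exp (-t) = 1 := by rw [← Real.exp_add]; simp
    have h4 := mul_le_mul_of_nonneg_left h2 (Real.exp_pos t).le
    nlinarith
  · have h1 : Real.exp t ≤ 1 := Real.exp_le_one_iff.2 h.le
    rw [abs_of_nonneg (by linarith)]
    have h2 := Real.add_one_le_exp t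
    have h3 : 1 ≤ Real.exp |t| := Real.one_le_exp (abs_nonneg t)
    have h4 : |t| = -t := abs_of_neg h
    nlinarith [abs_nonneg t]

end SBD

open SBD in
theorem IsChart.sK_bound {R : ℝ} (hR : R ≤ 2) (hφ : IsChart φ a D R) : ∃ c C : ℝ, 0 < c ∧ 0 < C ∧
    ∀ x y : ℂ, ‖y‖ ≤ R → 1 - a y * (x - y) / 2 ≠ 0 →
      c * chord x y ≤ sK φ a x y ∧
      |1 - JK φ a x y| ≤ C * sK φ a x y ^ (3 / 2 : ℝ) * (1 + sK φ a x y) ^ 3 := by
  obtain ⟨C0, hC0⟩ := hφ.growth
  obtain ⟨A0, hA0⟩ := hφ.abd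
  obtain ⟨T0, hT0⟩ := hφ.taylor
  obtain ⟨A, hA1, hA⟩ : ∃ A : ℝ, 1 ≤ A ∧ ∀ y, ‖y‖ ≤ R → ‖a y‖ ≤ A :=
    ⟨max A0 1, le_max_right _ _, fun y hy => (hA0 y hy).trans (le_max_left _ _)⟩
  obtain ⟨T, hT1, hT⟩ : ∃ T : ℝ, 0 ≤ T ∧ ∀ x y, ‖y‖ ≤ R → ‖x - y‖ ≤ 1 / 5 →
      |φ x - φ y - (a y * (x - y)).re| ≤ T * ‖x - y‖ ^ (3 / 2 : ℝ) := by
    refine ⟨max T0 0, le_max_right _ _, fun x y hy hxy => (hT0 x y hy hxy).trans ?_⟩
    exact mul_le_mul_of_nonneg_right (le_max_left _ _) (by positivity)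
  obtain ⟨e0, he0, hE0⟩ : ∃ e0 : ℝ, 0 < e0 ∧ ∀ y, ‖y‖ ≤ R → e0 ≤ Real.exp (φ y) := by
    refine ⟨Real.exp (-C0) / 5, by positivity, fun y hy => ?_⟩
    have h1 := (abs_le.1 (hC0 y)).1
    have h2 : Real.log (1 + ‖y‖ ^ 2) ≤ Real.log 5 := by
      apply Real.log_le_log (by positivity)
      nlinarith [norm_nonneg y]
    rw [show Real.exp (-C0) / 5 = Real.exp (-C0 - Real.log 5) by
      rw [Real.exp_sub, Real.exp_log (by norm_num)]]
    exact Real.exp_le_exp.2 (by linarith)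
  have hE1 : ∀ y, Real.exp (φ y) ≤ Real.exp C0 := by
    intro y
    have h1 := (abs_le.1 (hC0 y)).2
    have h2 : 0 ≤ Real.log (1 + ‖y‖ ^ 2) := Real.log_nonneg (by nlinarith [norm_nonneg y])
    exact Real.exp_le_exp.2 (by linarith)
  obtain ⟨M, hM, hMd⟩ := hφ.toIsGrow.density
  have hden : ∀ x y, ‖y‖ ≤ R → ‖1 - a y * (x - y) / 2‖ ≤ 1 + A * ‖x - y‖ / 2 := by
    intro x y hy
    refine (norm_sub_le _ _).trans ?_
    rw [norm_one, norm_div, norm_mul, Complex.norm_ofNat]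
    have := mul_le_mul_of_nonneg_right (hA y hy) (norm_nonneg (x - y))
    linarith
  set ρ : ℝ := min (1 / 5) (1 / (2 * A)) with hρ
  have hρ0 : 0 < ρ := lt_min (by norm_num) (by positivity)
  set K1 : ℝ := T + A ^ 2 with hK1
  have hK10 : 0 ≤ K1 := by positivity
  set Cn : ℝ := 2 * K1 * Real.exp (2 * K1) * (5 / (4 * e0)) ^ (3 / 2 : ℝ) with hCn
  have hCn0 : 0 ≤ Cn := by positivity
  set L : ℝ := 1 / ρ ^ 2 + (1 + 2 / ρ) ^ 2 with hL
  have hL0 : 0 < L := by positivity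
  set c1 : ℝ := e0 / (1 / ρ + A / 2) with hc1
  have hc10 : 0 < c1 := by positivity
  set J1 : ℝ := Real.exp C0 ^ 2 * M * L ^ 2 / e0 ^ 4 with hJ1
  have hJ10 : 0 ≤ J1 := by positivity
  set Cf : ℝ := (1 / c1) ^ (3 / 2 : ℝ) + J1 with hCf
  have hCf0 : 0 < Cf := by positivity
  refine ⟨e0 / (1 + 3 / 2 * A), Cn + Cf, by positivity, by positivity, fun x y hy hd => ?_⟩
  have hd0 : 0 < ‖1 - a y * (x - y) / 2‖ := norm_pos_iff.2 hd
  have hd1 := hden x y hy
  have hE0y := hE0 y hy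
  have hv0 := norm_nonneg (x - y)
  have hs0 : 0 ≤ sK φ a x y := by unfold sK; positivity
  constructor
  · -- chord bound
    have h1 : 1 ≤ √(1 + ‖x‖ ^ 2) := Real.one_le_sqrt.2 (by nlinarith [norm_nonneg x])
    have h2 : 1 ≤ √(1 + ‖y‖ ^ 2) := Real.one_le_sqrt.2 (by nlinarith [norm_nonneg y])
    have h3 : ‖x‖ ≤ √(1 + ‖x‖ ^ 2) := Real.le_sqrt_of_sq_le (by linarith)
    have h4 : ‖x - y‖ ≤ ‖x‖ + 2 := (norm_sub_le x y).trans (by linarith)
    have h5 : ‖1 - a y * (x - y) / 2‖ ≤ (1 + 3 / 2 * A) * (√(1 + ‖x‖ ^ 2) * √(1 + ‖y‖ ^ 2)) := by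
      have h6 : ‖1 - a y * (x - y) / 2‖ ≤ (1 + 3 / 2 * A) * √(1 + ‖x‖ ^ 2) := by
        have h7 : A * ‖x - y‖ ≤ A * (‖x‖ + 2) := mul_le_mul_of_nonneg_left h4 (by linarith)
        nlinarith
      refine h6.trans ?_
      refine mul_le_mul_of_nonneg_left ?_ (by positivity)
      exact le_mul_of_one_le_right (by positivity) h2
    unfold sK chord
    rw [div_mul_div_comm]
    exact div_le_div₀ (by positivity) (mul_le_mul_of_nonneg_right hE0y hv0) hd0 h5
  · rcases le_or_gt ‖x - y‖ ρ with hv | hv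
    · -- near
      have hv1 : ‖x - y‖ ≤ 1 / 5 := hv.trans (min_le_left _ _)
      have hv2 : ‖x - y‖ ≤ 1 / (2 * A) := hv.trans (min_le_right _ _)
      have hv3 : A * ‖x - y‖ ≤ 1 / 2 := by
        have := mul_le_mul_of_nonneg_left hv2 (by linarith : 0 ≤ A)
        rwa [show A * (1 / (2 * A)) = 1 / 2 by field_simp] at this
      set w : ℂ := a y * (x - y) / 2 with hw
      have hwn : ‖w‖ ≤ A * ‖x - y‖ / 2 := by
        rw [hw, norm_div, norm_mul, Complex.norm_ofNat]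
        have := mul_le_mul_of_nonneg_right (hA y hy) hv0
        linarith
      have hw4 : ‖w‖ ≤ 1 / 2 := by linarith
      have hl := log_one_sub hw4
      set θ : ℝ := φ x - φ y + 2 * Real.log ‖1 - w‖ with hθ
      have hJ : JK φ a x y = Real.exp (-(2 * θ)) := by
        have e1 : Real.exp (4 * Real.log ‖1 - w‖) = ‖1 - w‖ ^ 4 := by
          rw [show 4 * Real.log ‖1 - w‖ = ((4 : ℕ) : ℝ) * Real.log ‖1 - w‖ by norm_num,
            Real.exp_nat_mul, Real.exp_log hd0]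
        unfold JK
        rw [← hw, ← e1, ← Real.exp_sub, hθ]
        congr 1
        ring
      have hsq : ‖x - y‖ ^ 2 ≤ ‖x - y‖ ^ (3 / 2 : ℝ) := by
        rcases eq_or_lt_of_le hv0 with h0 | h0
        · rw [← h0, zero_pow two_ne_zero]; positivity
        · rw [← Real.rpow_two]
          exact Real.rpow_le_rpow_of_exponent_ge h0 (by linarith) (by norm_num)
      have hθ1 : |θ| ≤ K1 * ‖x - y‖ ^ (3 / 2 : ℝ) := by
        have h1 := hT x y hy hv1
        have h2 : θ = (φ x - φ y - (a y * (x - y)).re) + 2 * (Real.log ‖1 - w‖ + w.re) := by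
          have : w.re = (a y * (x - y)).re / 2 := by
            rw [hw]
            simp
          rw [hθ, this]
          ring
        have h3 : |θ| ≤ |φ x - φ y - (a y * (x - y)).re| + 2 * |Real.log ‖1 - w‖ + w.re| := by
          rw [h2]
          refine (abs_add_le _ _).trans ?_
          rw [abs_mul, abs_of_pos (by norm_num : (0 : ℝ) < 2)]
        have h4 : ‖w‖ ^ 2 ≤ (A * ‖x - y‖ / 2) ^ 2 := pow_le_pow_left₀ (norm_nonneg w) hwn 2
        have h5 : A ^ 2 * ‖x - y‖ ^ 2 ≤ A ^ 2 * ‖x - y‖ ^ (3 / 2 : ℝ) :=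
          mul_le_mul_of_nonneg_left hsq (by positivity)
        have h6 : 0 ≤ A ^ 2 * ‖x - y‖ ^ 2 := by positivity
        rw [hK1, add_mul]
        nlinarith
      have hv4 : ‖x - y‖ ^ (3 / 2 : ℝ) ≤ 1 := Real.rpow_le_one hv0 (by linarith) (by norm_num)
      have hθ2 : |θ| ≤ K1 := hθ1.trans (mul_le_of_le_one_right hK10 hv4)
      have h1 : |1 - JK φ a x y| ≤ 2 * K1 * ‖x - y‖ ^ (3 / 2 : ℝ) * Real.exp (2 * K1) := by
        rw [hJ]
        refine (abs_one_sub_exp _).trans ?_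
        rw [abs_neg, abs_mul, abs_of_pos (by norm_num : (0 : ℝ) < 2)]
        refine mul_le_mul (by nlinarith) (Real.exp_le_exp.2 (by linarith)) (Real.exp_pos _).le
          (by positivity)
      have h2 : ‖x - y‖ ≤ 5 / (4 * e0) * sK φ a x y := by
        unfold sK
        rw [div_mul_div_comm, le_div_iff₀ (by positivity)]
        have h3 : ‖1 - w‖ ≤ 5 / 4 := by linarith
        have h4 : ‖x - y‖ * (4 * e0 * ‖1 - w‖) ≤ ‖x - y‖ * (5 * Real.exp (φ y)) := by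
          refine mul_le_mul_of_nonneg_left ?_ hv0
          nlinarith
        linarith
      have h3 : ‖x - y‖ ^ (3 / 2 : ℝ) ≤ (5 / (4 * e0)) ^ (3 / 2 : ℝ) * sK φ a x y ^ (3 / 2 : ℝ) := by
        rw [← Real.mul_rpow (by positivity) hs0]
        exact Real.rpow_le_rpow hv0 h2 (by norm_num)
      have h4 : |1 - JK φ a x y| ≤ Cn * sK φ a x y ^ (3 / 2 : ℝ) := by
        refine h1.trans ?_
        rw [hCn]
        have := mul_le_mul_of_nonneg_left h3 (by positivity : 0 ≤ 2 * K1 * Real.exp (2 * K1))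
        linarith
      have h5 : 1 ≤ (1 + sK φ a x y) ^ 3 := one_le_pow₀ (by linarith)
      have h6 : 0 ≤ sK φ a x y ^ (3 / 2 : ℝ) := by positivity
      calc |1 - JK φ a x y| ≤ Cn * sK φ a x y ^ (3 / 2 : ℝ) := h4
        _ ≤ (Cn + Cf) * sK φ a x y ^ (3 / 2 : ℝ) :=
            mul_le_mul_of_nonneg_right (by linarith) h6
        _ ≤ _ := le_mul_of_one_le_right (by positivity) h5
    · -- far
      have hvp : 0 < ‖x - y‖ := hρ0.trans hv
      have hs1 : c1 ≤ sK φ a x y := by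
        unfold sK
        rw [hc1, div_le_div_iff₀ (by positivity) hd0]
        have h1 : ‖1 - a y * (x - y) / 2‖ ≤ ‖x - y‖ * (1 / ρ + A / 2) := by
          have : 1 ≤ ‖x - y‖ * (1 / ρ) := by
            rw [mul_one_div, le_div_iff₀ hρ0]; linarith
          linarith
        calc e0 * ‖1 - a y * (x - y) / 2‖ ≤ Real.exp (φ y) * (‖x - y‖ * (1 / ρ + A / 2)) :=
              mul_le_mul hE0y h1 hd0.le (by positivity)
          _ = _ := by ring
      have hsp : 0 < sK φ a x y := hc10.trans_le hs1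
      have hx : 1 + ‖x‖ ^ 2 ≤ L * ‖x - y‖ ^ 2 := by
        have h1 : ‖x‖ ≤ ‖x - y‖ + 2 := by
          have : ‖x‖ ≤ ‖x - y‖ + ‖y‖ := by
            simpa using norm_add_le (x - y) y
          linarith
        have h2 : 1 ≤ 1 / ρ ^ 2 * ‖x - y‖ ^ 2 := by
          rw [div_mul_eq_mul_div, one_mul, le_div_iff₀ (by positivity), one_mul]
          exact pow_le_pow_left₀ hρ0.le hv.le 2
        have h3 : ‖x‖ ≤ (1 + 2 / ρ) * ‖x - y‖ := by
          have : 2 ≤ 2 / ρ * ‖x - y‖ := by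
            rw [div_mul_eq_mul_div, le_div_iff₀ hρ0]
            linarith
          linarith
        have h4 : ‖x‖ ^ 2 ≤ ((1 + 2 / ρ) * ‖x - y‖) ^ 2 := pow_le_pow_left₀ (norm_nonneg x) h3 2
        rw [hL, add_mul]
        rw [mul_pow] at h4
        linarith
      have hJ0 : 0 ≤ JK φ a x y := by unfold JK; positivity
      have hJ : JK φ a x y ≤ J1 * sK φ a x y ^ 4 := by
        have h1 : Real.exp (2 * φ y - 2 * φ x) ≤ Real.exp C0 ^ 2 * M * L ^ 2 * ‖x - y‖ ^ 4 := by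
          rw [sub_eq_add_neg, Real.exp_add, two_mul (φ y), Real.exp_add, ← sq]
          have h2 : Real.exp (φ y) ^ 2 ≤ Real.exp C0 ^ 2 :=
            pow_le_pow_left₀ (Real.exp_pos _).le (hE1 y) 2
          have h3 := (hMd x).2.2
          have h4 : (1 + ‖x‖ ^ 2) ^ 2 ≤ (L * ‖x - y‖ ^ 2) ^ 2 := pow_le_pow_left₀ (by positivity) hx 2
          calc Real.exp (φ y) ^ 2 * Real.exp (-(2 * φ x))
              ≤ Real.exp C0 ^ 2 * (M * (1 + ‖x‖ ^ 2) ^ 2) :=
                mul_le_mul h2 h3 (Real.exp_pos _).le (by positivity)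
            _ ≤ Real.exp C0 ^ 2 * (M * (L * ‖x - y‖ ^ 2) ^ 2) := by gcongr
            _ = _ := by ring
        have h5 : sK φ a x y ^ 4 = Real.exp (φ y) ^ 4 * ‖x - y‖ ^ 4 /
            ‖1 - a y * (x - y) / 2‖ ^ 4 := by
          unfold sK
          rw [div_pow, mul_pow]
        have h6 : e0 ^ 4 ≤ Real.exp (φ y) ^ 4 := pow_le_pow_left₀ he0.le hE0y 4
        rw [h5, hJ1]
        unfold JK
        rw [← mul_div_assoc]
        refine div_le_div_of_nonneg_right ?_ (by positivity)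
        refine h1.trans ?_
        rw [div_mul_eq_mul_div, le_div_iff₀ (by positivity)]
        have h7 : 0 ≤ Real.exp C0 ^ 2 * M * L ^ 2 * ‖x - y‖ ^ 4 := by positivity
        have h8 := mul_le_mul_of_nonneg_left h6 h7
        linarith
      have h1 : 1 ≤ (1 / c1) ^ (3 / 2 : ℝ) * sK φ a x y ^ (3 / 2 : ℝ) := by
        rw [← Real.mul_rpow (by positivity) hs0]
        apply Real.one_le_rpow _ (by norm_num)
        rw [div_mul_eq_mul_div, one_mul, le_div_iff₀ hc10, one_mul]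
        exact hs1
      have h2 : 1 ≤ (1 + sK φ a x y) ^ 3 := one_le_pow₀ (by linarith)
      have h6 : 0 ≤ sK φ a x y ^ (3 / 2 : ℝ) := by positivity
      have h3 : sK φ a x y ^ 4 ≤ sK φ a x y ^ (3 / 2 : ℝ) * (1 + sK φ a x y) ^ 3 := by
        have e1 : sK φ a x y ^ 4 = sK φ a x y ^ (3 / 2 : ℝ) * sK φ a x y ^ (5 / 2 : ℝ) := by
          rw [← Real.rpow_natCast, ← Real.rpow_add hsp]
          norm_num
        rw [e1]
        refine mul_le_mul_of_nonneg_left ?_ h6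
        calc sK φ a x y ^ (5 / 2 : ℝ) ≤ (1 + sK φ a x y) ^ (5 / 2 : ℝ) :=
              Real.rpow_le_rpow hs0 (by linarith) (by norm_num)
          _ ≤ (1 + sK φ a x y) ^ ((3 : ℕ) : ℝ) :=
              Real.rpow_le_rpow_of_exponent_le (by linarith) (by norm_num)
          _ = _ := Real.rpow_natCast _ _
      have h4 : |1 - JK φ a x y| ≤ 1 + JK φ a x y := by
        rw [abs_le]; constructor <;> linarith
      have h5 : JK φ a x y ≤ J1 * (sK φ a x y ^ (3 / 2 : ℝ) * (1 + sK φ a x y) ^ 3) :=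
        hJ.trans (mul_le_mul_of_nonneg_left h3 hJ10)
      have h7 : 1 ≤ (1 / c1) ^ (3 / 2 : ℝ) * (sK φ a x y ^ (3 / 2 : ℝ) * (1 + sK φ a x y) ^ 3) := by
        rw [← mul_assoc]
        exact h1.trans (le_mul_of_one_le_right (by positivity) h2)
      have h8 : 0 ≤ Cn * (sK φ a x y ^ (3 / 2 : ℝ) * (1 + sK φ a x y) ^ 3) := by positivity
      calc |1 - JK φ a x y| ≤ 1 + JK φ a x y := h4
        _ ≤ (Cn + Cf) * (sK φ a x y ^ (3 / 2 : ℝ) * (1 + sK φ a x y) ^ 3) := by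
            rw [hCf]
            nlinarith
        _ = _ := by ring

theorem IsMet.sK_bound (hM : IsMet φ φ' a a' D D') : ∃ c C : ℝ, 0 < c ∧ 0 < C ∧
    ∀ x y : ℂ, x ≠ 0 → y ≠ 0 → 1 - a y * (x - y) / 2 ≠ 0 →
      c * chord x y ≤ sK φ a x y ∧
      |1 - JK φ a x y| ≤ C * sK φ a x y ^ (3 / 2 : ℝ) * (1 + sK φ a x y) ^ 3 := by
  obtain ⟨c₁, C₁, hc₁, hC₁, h₁⟩ := hM.c0.sK_bound le_rfl
  obtain ⟨c₂, C₂, hc₂, hC₂, h₂⟩ := hM.c1.sK_bound (by norm_num)
  refine ⟨min c₁ c₂, max C₁ C₂, lt_min hc₁ hc₂, lt_max_of_lt_left hC₁, fun x y hx hy hd => ?_⟩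
  have hch : 0 ≤ chord x y := by unfold chord; positivity
  have hs0 : 0 ≤ sK φ a x y := by unfold sK; positivity
  have key : ∀ c C : ℝ, min c₁ c₂ ≤ c → C ≤ max C₁ C₂ →
      (c * chord x y ≤ sK φ a x y ∧
        |1 - JK φ a x y| ≤ C * sK φ a x y ^ (3 / 2 : ℝ) * (1 + sK φ a x y) ^ 3) →
      (min c₁ c₂ * chord x y ≤ sK φ a x y ∧
        |1 - JK φ a x y| ≤ max C₁ C₂ * sK φ a x y ^ (3 / 2 : ℝ) * (1 + sK φ a x y) ^ 3) := by
    intro c C hc hC h
    refine ⟨(mul_le_mul_of_nonneg_right hc hch).trans h.1, h.2.trans ?_⟩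
    gcongr
  rcases le_or_gt ‖y‖ 2 with h | h
  · exact key c₁ C₁ (min_le_left _ _) (le_max_left _ _) (h₁ x y h hd)
  · refine key c₂ C₂ (min_le_right _ _) (le_max_right _ _) ?_
    have hy' : ‖y⁻¹‖ ≤ 1 / 2 := by
      rw [norm_inv, inv_le_comm₀ (by linarith) (by norm_num)]
      norm_num
      exact h.le
    have hd' : 1 - a' y⁻¹ * (x⁻¹ - y⁻¹) / 2 ≠ 0 := by
      rw [hM.den_inv hx hy]
      exact mul_ne_zero (div_ne_zero hy hx) hd
    have := h₂ x⁻¹ y⁻¹ hy' hd'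
    rwa [chord_inv hx hy, hM.sK_inv hx hy, hM.JK_inv hx hy] at this

end

end LQZ
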