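import Pool.Agent.LQZ.Bessel
import Pool.Agent.LQZ.Met
import Pool.Agent.LQZ.SBound

/-!
# Project LQZ, module LOC1: near-diagonal approximation
-/

open MeasureTheory Set Filter Topology InnerProductSpace
open scoped ContDiff ENNReal NNReal Real

namespace LQZ

noncomputable section

variable {φ : ℂ → ℝ} {a : ℂ → ℂ} {D : ℂ → ℝ} {R r0 : ℝ}

private theorem loc1_log {q : ℂ} (hq : ‖q‖ ≤ 1 / 4) : |Real.log ‖1 - q‖ + q.re| ≤ ‖q‖ ^ 2 := by
  have h1 := Complex.norm_log_one_add_sub_self_le (z := -q) (by rw [norm_neg]; linarith)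
  rw [norm_neg] at h1
  have h2 : Real.log ‖1 - q‖ + q.re = (Complex.log (1 + -q) - -q).re := by
    rw [Complex.sub_re, Complex.log_re, Complex.neg_re, ← sub_eq_add_neg]
    ring
  rw [h2]
  refine (Complex.abs_re_le_norm _).trans (h1.trans ?_)
  have h3 : (1 - ‖q‖)⁻¹ ≤ 2 := by
    rw [inv_le_comm₀ (by linarith) two_pos]
    linarith
  nlinarith [norm_nonneg q, sq_nonneg ‖q‖]

private theorem loc1_exp1 (x : ℝ) : |Real.exp x - 1| ≤ |x| * Real.exp |x| := by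
  have h := Complex.norm_exp_sub_sum_le_norm_mul_exp (x : ℂ) 1
  simp only [Finset.sum_range_one, pow_zero, Nat.factorial, Nat.cast_one, div_one, pow_one] at h
  rw [← Complex.ofReal_exp, ← Complex.ofReal_one, ← Complex.ofReal_sub, Complex.norm_real,
    Complex.norm_real] at h
  exact h

private theorem loc1_exp2 (x : ℝ) : |Real.exp x - 1 - x| ≤ x ^ 2 * Real.exp |x| := by
  have h := Complex.norm_exp_sub_sum_le_norm_mul_exp (x : ℂ) 2
  have h' : ((x : ℂ)).exp - ∑ m ∈ Finset.range 2, (x : ℂ) ^ m / (m.factorial : ℂ) =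
      ((Real.exp x - 1 - x : ℝ) : ℂ) := by
    simp [Finset.sum_range_succ, Nat.factorial]
    ring
  rw [h', Complex.norm_real, Complex.norm_real, Real.norm_eq_abs, Real.norm_eq_abs, sq_abs] at h
  exact h

/-- the logarithmic ratio of the conformal factors -/
private def thL (φ : ℂ → ℝ) (a : ℂ → ℂ) (x y : ℂ) : ℝ :=
  φ x - φ y + 2 * Real.log ‖1 - a y * (x - y) / 2‖

private theorem loc1_q (h0 : 0 < r0) (ha : ∀ y, ‖y‖ ≤ R → ‖a y‖ * r0 ≤ 1 / 2) {x y : ℂ}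
    (hy : ‖y‖ ≤ R) (hx : ‖x - y‖ ≤ r0) :
    ‖a y * (x - y) / 2‖ ≤ 1 / 4 ∧ ‖a y * (x - y) / 2‖ ≤ ‖x - y‖ / (4 * r0) := by
  have h1 := ha y hy
  have h2 : ‖a y * (x - y) / 2‖ = ‖a y‖ * ‖x - y‖ / 2 := by
    rw [norm_div, norm_mul]
    norm_num
  have h3 : ‖a y‖ * ‖x - y‖ ≤ ‖a y‖ * r0 := mul_le_mul_of_nonneg_left hx (norm_nonneg _)
  have h4 : ‖a y‖ ≤ 1 / (2 * r0) := by
    rw [le_div_iff₀ (by positivity)]
    linarith
  refine ⟨by rw [h2]; linarith, ?_⟩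
  rw [h2]
  have h5 : ‖a y‖ * ‖x - y‖ ≤ 1 / (2 * r0) * ‖x - y‖ :=
    mul_le_mul_of_nonneg_right h4 (norm_nonneg _)
  calc ‖a y‖ * ‖x - y‖ / 2 ≤ 1 / (2 * r0) * ‖x - y‖ / 2 := by linarith
    _ = ‖x - y‖ / (4 * r0) := by field_simp; ring

private theorem loc1_rpow {v : ℝ} (hv : 0 ≤ v) (hv1 : v ≤ 1) :
    v ^ 2 ≤ v ^ (3 / 2 : ℝ) ∧ v ^ (3 / 2 : ℝ) ≤ v ∧ v ^ (3 / 2 : ℝ) ≤ 1 := by
  refine ⟨?_, ?_, Real.rpow_le_one hv hv1 (by norm_num)⟩
  · rw [← Real.rpow_natCast]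
    exact Real.rpow_le_rpow_of_exponent_ge' hv hv1 (by norm_num) (by norm_num)
  · calc v ^ (3 / 2 : ℝ) ≤ v ^ (1 : ℝ) :=
        Real.rpow_le_rpow_of_exponent_ge' hv hv1 (by norm_num) (by norm_num)
      _ = v := Real.rpow_one v

private theorem loc1_theta (hφ : IsChart φ a D R) (h0 : 0 < r0) (h0' : r0 ≤ 1 / 5)
    (ha : ∀ y, ‖y‖ ≤ R → ‖a y‖ * r0 ≤ 1 / 2) :
    ∃ K : ℝ, 0 ≤ K ∧ ∀ x y : ℂ, ‖y‖ ≤ R → ‖x - y‖ ≤ r0 →
      |thL φ a x y| ≤ K * ‖x - y‖ ^ (3 / 2 : ℝ) ∧ |φ x - φ y| ≤ K * ‖x - y‖ := by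
  obtain ⟨T, hT⟩ := hφ.taylor
  refine ⟨|T| + 1 / (2 * r0) + 1 / (8 * r0 ^ 2), by positivity, fun x y hy hx => ?_⟩
  obtain ⟨hq1, hq2⟩ := loc1_q h0 ha hy hx
  set v := ‖x - y‖ with hv
  have hv0 : 0 ≤ v := norm_nonneg _
  have hv1 : v ≤ 1 := by linarith
  obtain ⟨hp1, hp2, hp3⟩ := loc1_rpow hv0 hv1
  set p := v ^ (3 / 2 : ℝ) with hp
  have hp0 : 0 ≤ p := Real.rpow_nonneg hv0 _
  set q := a y * (x - y) / 2 with hq
  have htay := hT x y hy (by linarith)
  have hre : (a y * (x - y)).re = 2 * q.re := by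
    have : a y * (x - y) = 2 * q := by rw [hq]; ring
    rw [this]
    simp
  have ht2 : |φ x - φ y - (a y * (x - y)).re| ≤ |T| * p :=
    htay.trans (mul_le_mul_of_nonneg_right (le_abs_self T) hp0)
  have hl := loc1_log hq1
  have hqsq : ‖q‖ ^ 2 ≤ v ^ 2 / (16 * r0 ^ 2) := by
    have h1 : ‖q‖ ^ 2 ≤ (v / (4 * r0)) ^ 2 := pow_le_pow_left₀ (norm_nonneg _) hq2 2
    calc ‖q‖ ^ 2 ≤ (v / (4 * r0)) ^ 2 := h1
      _ = v ^ 2 / (16 * r0 ^ 2) := by rw [div_pow]; ring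
  constructor
  · have e1 : thL φ a x y = (φ x - φ y - (a y * (x - y)).re) +
        2 * (Real.log ‖1 - q‖ + q.re) := by
      rw [thL, hre, hq]
      ring
    rw [e1]
    have e2 : |2 * (Real.log ‖1 - q‖ + q.re)| ≤ 1 / (8 * r0 ^ 2) * p := by
      rw [abs_mul, abs_two]
      calc 2 * |Real.log ‖1 - q‖ + q.re| ≤ 2 * (v ^ 2 / (16 * r0 ^ 2)) := by linarith
        _ = 1 / (8 * r0 ^ 2) * v ^ 2 := by field_simp; ring
        _ ≤ 1 / (8 * r0 ^ 2) * p := mul_le_mul_of_nonneg_left hp1 (by positivity)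
    have e3 : 0 ≤ 1 / (2 * r0) * p := by positivity
    calc _ ≤ |φ x - φ y - (a y * (x - y)).re| + |2 * (Real.log ‖1 - q‖ + q.re)| := abs_add_le _ _
      _ ≤ |T| * p + 1 / (8 * r0 ^ 2) * p := add_le_add ht2 e2
      _ ≤ (|T| + 1 / (2 * r0) + 1 / (8 * r0 ^ 2)) * p := by linarith
  · have e1 : φ x - φ y = (φ x - φ y - (a y * (x - y)).re) + 2 * q.re := by
      rw [hre]
      ring
    rw [e1]
    have e2 : |2 * q.re| ≤ 1 / (2 * r0) * v := by
      rw [abs_mul, abs_two]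
      have := Complex.abs_re_le_norm q
      calc 2 * |q.re| ≤ 2 * (v / (4 * r0)) := by linarith
        _ = 1 / (2 * r0) * v := by field_simp; ring
    have e3 : |T| * p ≤ |T| * v := mul_le_mul_of_nonneg_left hp2 (abs_nonneg _)
    have e4 : 0 ≤ 1 / (8 * r0 ^ 2) * v := by positivity
    calc _ ≤ |φ x - φ y - (a y * (x - y)).re| + |2 * q.re| := abs_add_le _ _
      _ ≤ |T| * v + 1 / (2 * r0) * v := add_le_add (ht2.trans e3) e2
      _ ≤ (|T| + 1 / (2 * r0) + 1 / (8 * r0 ^ 2)) * v := by linarith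

private theorem loc1_phi (hφ : IsGrow φ) :
    ∃ b : ℝ, 0 ≤ b ∧ ∀ x : ℂ, ‖x‖ ≤ 3 → |φ x| ≤ b := by
  obtain ⟨G, hG⟩ := hφ.growth
  refine ⟨|G| + 9, by positivity, fun x hx => ?_⟩
  have h1 := hG x
  have h2 : 0 ≤ Real.log (1 + ‖x‖ ^ 2) := Real.log_nonneg (by nlinarith [norm_nonneg x])
  have h3 : Real.log (1 + ‖x‖ ^ 2) ≤ ‖x‖ ^ 2 := by
    have := Real.log_le_sub_one_of_pos (show 0 < 1 + ‖x‖ ^ 2 by positivity)
    linarith
  have h4 : ‖x‖ ^ 2 ≤ 9 := by nlinarith [norm_nonneg x]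
  have h5 := le_abs_self G
  rw [abs_le] at h1 ⊢
  constructor <;> linarith [h1.1, h1.2]

private theorem loc1_JK {x y : ℂ} (h : 1 - a y * (x - y) / 2 ≠ 0) :
    JK φ a x y = Real.exp (-(2 * thL φ a x y)) := by
  have hN : 0 < ‖1 - a y * (x - y) / 2‖ := norm_pos_iff.2 h
  rw [JK, thL]
  set N := ‖1 - a y * (x - y) / 2‖ with hNdef
  have e1 : N ^ 4 = Real.exp (4 * Real.log N) := by
    rw [show (4 : ℝ) * Real.log N = ((4 : ℕ) : ℝ) * Real.log N by norm_num, Real.exp_nat_mul,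
      Real.exp_log hN]
  rw [e1, ← Real.exp_sub]
  congr 1
  ring

private theorem loc1_err {K p v t E E' b : ℝ} (hK : 0 ≤ K) (hp : 0 ≤ p) (hv : 0 ≤ v)
    (hp1 : p ≤ 1) (hv1 : v ≤ 1) (hpv : p ≤ v)
    (ht : |t| ≤ K * p) (hE : |E - E'| ≤ K * v) (hb' : |E'| ≤ b) :
    |1 - Real.exp (-(2 * t))| ≤ 2 * K * Real.exp (2 * K) * p ∧
    |(1 - Real.exp (-(2 * t))) - 2 * t| ≤ 4 * K ^ 2 * Real.exp (2 * K) * (p * v) ∧
    |Real.exp (2 * E) - Real.exp (2 * E')| ≤ Real.exp (2 * b) * (2 * K * Real.exp (2 * K)) * v ∧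
    Real.exp (2 * E') ≤ Real.exp (2 * b) := by
  have htK : |t| ≤ K := ht.trans (by nlinarith)
  have e0 : |(-(2 * t))| = 2 * |t| := by rw [abs_neg, abs_mul, abs_two]
  have hexp : Real.exp |(-(2 * t))| ≤ Real.exp (2 * K) := by
    rw [e0]
    exact Real.exp_le_exp.2 (by linarith)
  refine ⟨?_, ?_, ?_, ?_⟩
  · rw [abs_sub_comm]
    refine (loc1_exp1 _).trans ?_
    rw [e0] at hexp ⊢
    calc 2 * |t| * Real.exp (2 * |t|) ≤ 2 * (K * p) * Real.exp (2 * K) :=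
          mul_le_mul (by linarith) hexp (Real.exp_pos _).le (by positivity)
      _ = 2 * K * Real.exp (2 * K) * p := by ring
  · have e1 : (1 - Real.exp (-(2 * t))) - 2 * t = -(Real.exp (-(2 * t)) - 1 - (-(2 * t))) := by
      ring
    rw [e1, abs_neg]
    refine (loc1_exp2 _).trans ?_
    have e2 : (-(2 * t)) ^ 2 = 4 * |t| ^ 2 := by rw [sq_abs]; ring
    rw [e2]
    have e3 : |t| ^ 2 ≤ K ^ 2 * (p * v) := by
      calc |t| ^ 2 ≤ (K * p) ^ 2 := pow_le_pow_left₀ (abs_nonneg _) ht 2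
        _ = K ^ 2 * (p * p) := by ring
        _ ≤ K ^ 2 * (p * v) := by gcongr
    calc 4 * |t| ^ 2 * Real.exp |(-(2 * t))| ≤ 4 * (K ^ 2 * (p * v)) * Real.exp (2 * K) :=
          mul_le_mul (by linarith) hexp (Real.exp_pos _).le (by positivity)
      _ = 4 * K ^ 2 * Real.exp (2 * K) * (p * v) := by ring
  · have e1 : Real.exp (2 * E) - Real.exp (2 * E') =
        Real.exp (2 * E') * (Real.exp (2 * (E - E')) - 1) := by
      rw [mul_sub, ← Real.exp_add, mul_one]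
      congr 2
      ring
    rw [e1, abs_mul, abs_of_pos (Real.exp_pos _), mul_assoc]
    have e2 : |2 * (E - E')| ≤ 2 * (K * v) := by
      rw [abs_mul, abs_two]
      linarith
    have e3 : |2 * (E - E')| ≤ 2 * K := e2.trans (by nlinarith)
    refine mul_le_mul (Real.exp_le_exp.2 (by linarith [le_abs_self E'])) ?_ (abs_nonneg _)
      (Real.exp_pos _).le
    calc |Real.exp (2 * (E - E')) - 1| ≤ |2 * (E - E')| * Real.exp |2 * (E - E')| := loc1_exp1 _
      _ ≤ 2 * (K * v) * Real.exp (2 * K) :=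
          mul_le_mul e2 (Real.exp_le_exp.2 e3) (Real.exp_pos _).le (by positivity)
      _ = 2 * K * Real.exp (2 * K) * v := by ring
  · exact Real.exp_le_exp.2 (by linarith [le_abs_self E'])

private theorem loc1_A {v z e b : ℝ} (hv : 0 < v) (hz : 1 ≤ z) (he : |e| ≤ b) :
    (√z * (Real.exp e * v)) ^ (-(1 / 2) : ℝ) * Real.exp (-(√z * (Real.exp e * v)) / 8) ≤
      Real.exp (b / 2) * z ^ (-(1 / 4) : ℝ) * v ^ (-(1 / 2) : ℝ) *
        Real.exp (-(Real.exp (-b) / 8 * (√z * v))) := by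
  have hz0 : 0 < z := by linarith
  have hsz : 0 < √z := Real.sqrt_pos.2 hz0
  have hw : Real.exp (-b) * (√z * v) ≤ √z * (Real.exp e * v) := by
    have h1 : Real.exp (-b) ≤ Real.exp e := Real.exp_le_exp.2 (by linarith [neg_abs_le e])
    calc Real.exp (-b) * (√z * v) ≤ Real.exp e * (√z * v) :=
          mul_le_mul_of_nonneg_right h1 (by positivity)
      _ = √z * (Real.exp e * v) := by ring
  have hw0 : 0 < Real.exp (-b) * (√z * v) := by positivity
  refine mul_le_mul ?_ ?_ (Real.exp_pos _).le (by positivity)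
  · refine (Real.rpow_le_rpow_of_nonpos hw0 hw (by norm_num)).trans (le_of_eq ?_)
    rw [Real.mul_rpow (Real.exp_pos _).le (by positivity), Real.mul_rpow hsz.le hv.le,
      ← Real.exp_mul, Real.sqrt_eq_rpow, ← Real.rpow_mul hz0.le]
    rw [show -b * (-(1 / 2) : ℝ) = b / 2 by ring,
      show (1 / 2 : ℝ) * (-(1 / 2)) = -(1 / 4) by norm_num]
    ring
  · refine Real.exp_le_exp.2 ?_
    linarith

private theorem loc1_near (hR : R ≤ 2) (hφ : IsChart φ a D R) (h0 : 0 < r0) (h0' : r0 ≤ 1 / 5)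
    (ha : ∀ y, ‖y‖ ≤ R → ‖a y‖ * r0 ≤ 1 / 2) :
    ∃ K κ : ℝ, 0 ≤ K ∧ 0 < κ ∧ ∀ z : ℝ, 1 ≤ z → ∀ x y : ℂ, ‖y‖ ≤ R → ‖x - y‖ < r0 →
      |2 * thL φ a x y * FB (√z * (Real.exp (φ y) * ‖x - y‖)) * Real.exp (2 * φ y)| ≤ K ∧
      |Real.exp (2 * φ x) * ((1 - JK φ a x y) * rK FB φ a z x y) -
        2 * thL φ a x y * FB (√z * (Real.exp (φ y) * ‖x - y‖)) * Real.exp (2 * φ y)| ≤
        K * z ^ (-(1 / 4) : ℝ) * (‖x - y‖ ^ 2 * Real.exp (-(κ * (√z * ‖x - y‖)))) := by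
  obtain ⟨K0, hK0, hth⟩ := loc1_theta hφ h0 h0' ha
  obtain ⟨b, hb0, hb⟩ := loc1_phi hφ.toIsGrow
  obtain ⟨C1, hC1, hF1⟩ := FB_le
  obtain ⟨C2, hC2, hF2⟩ := FB_lip
  set c1 := 2 * K0 * Real.exp (2 * K0) with hc1
  set c2 := 4 * K0 ^ 2 * Real.exp (2 * K0) with hc2
  set c3 := Real.exp (2 * b) * (2 * K0 * Real.exp (2 * K0)) with hc3
  have hc1' : 0 ≤ c1 := by positivity
  have hc2' : 0 ≤ c2 := by positivity
  have hc3' : 0 ≤ c3 := by positivity
  set Q := Real.exp (2 * b) * c1 * C2 * (1 / (3 * r0)) + C1 * (c1 * c3 + c2 * Real.exp (2 * b))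
    with hQ
  have hQ0 : 0 ≤ Q := by positivity
  refine ⟨(2 * K0 * C1 * Real.exp (2 * b) + Q) * Real.exp (b / 2), Real.exp (-b) / 8,
    by positivity, by positivity, fun z hz x y hy hx => ?_⟩
  have hz0 : 0 < z := by linarith
  have hsz : 0 < √z := Real.sqrt_pos.2 hz0
  rcases eq_or_ne x y with rfl | hxy
  · have e1 : thL φ a x x = 0 := by simp [thL]
    have e2 : JK φ a x x = 1 := by simp [JK]
    rw [e1, e2]
    simp only [sub_self, zero_mul, mul_zero, abs_zero, norm_zero]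
    constructor
    · positivity
    · norm_num
  obtain ⟨ht, hE⟩ := hth x y hy hx.le
  obtain ⟨hq1, hq2⟩ := loc1_q h0 ha hy hx.le
  have hv : 0 < ‖x - y‖ := norm_pos_iff.2 (sub_ne_zero.2 hxy)
  have hby : |φ y| ≤ b := hb y (by linarith)
  have hbx : |φ x| ≤ b := by
    refine hb x ?_
    have : ‖x‖ ≤ ‖x - y‖ + ‖y‖ := by simpa using norm_add_le (x - y) y
    linarith
  have hA := loc1_A hv hz hby
  set v := ‖x - y‖ with hvdef
  have hv1 : v ≤ 1 := by linarith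
  obtain ⟨hp1, hp2, hp3⟩ := loc1_rpow hv.le hv1
  set p := v ^ (3 / 2 : ℝ) with hpdef
  have hp0 : 0 ≤ p := Real.rpow_nonneg hv.le _
  set q := a y * (x - y) / 2 with hq
  set N := ‖1 - q‖ with hN
  have hN1 : 3 / 4 ≤ N := by
    have : ‖(1 : ℂ)‖ - ‖q‖ ≤ ‖1 - q‖ := norm_sub_norm_le _ _
    rw [norm_one] at this
    linarith
  have hN2 : N ≤ 5 / 4 := by
    have : ‖1 - q‖ ≤ ‖(1 : ℂ)‖ + ‖q‖ := norm_sub_le _ _
    rw [norm_one] at this
    linarith
  have hN3 : |1 - N| ≤ ‖q‖ := by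
    have := abs_norm_sub_norm_le (1 : ℂ) (1 - q)
    rw [norm_one] at this
    simpa using this
  have hN0 : 0 < N := by linarith
  have hden : 1 - a y * (x - y) / 2 ≠ 0 := by
    intro h
    rw [hN, hq, h, norm_zero] at hN0
    exact lt_irrefl _ hN0
  set l := 1 / N with hl
  have hlI : l ∈ Icc (1 / 2 : ℝ) 2 := by
    constructor
    · rw [hl]
      exact one_div_le_one_div_of_le hN0 (by linarith)
    · rw [hl, div_le_iff₀ hN0]
      linarith
  have hl1 : |l - 1| ≤ 1 / (3 * r0) * v := by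
    have e1 : l - 1 = (1 - N) / N := by rw [hl]; field_simp
    rw [e1, abs_div, abs_of_pos hN0, div_le_iff₀ hN0]
    calc |1 - N| ≤ v / (4 * r0) := hN3.trans hq2
      _ = 1 / (3 * r0) * v * (3 / 4) := by field_simp
      _ ≤ 1 / (3 * r0) * v * N := mul_le_mul_of_nonneg_left hN1 (by positivity)
  set u := √z * (Real.exp (φ y) * v) with hu
  have hu0 : 0 < u := by positivity
  have hrK : rK FB φ a z x y = FB (l * u) := by
    rw [rK, if_neg hden]
    congr 1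
    rw [sK, hl, hu]
    change √z * (Real.exp (φ y) * v / N) = 1 / N * (√z * (Real.exp (φ y) * v))
    ring
  set A := u ^ (-(1 / 2) : ℝ) * Real.exp (-u / 8) with hAdef
  have hA0 : 0 ≤ A := by positivity
  have hFu : |FB u| ≤ C1 * A := by
    refine (hF1 u hu0).trans ?_
    rw [hAdef, ← mul_assoc]
    refine mul_le_mul_of_nonneg_left (Real.exp_le_exp.2 (by linarith)) (by positivity)
  have hFl : |FB (l * u) - FB u| ≤ C2 * (1 / (3 * r0) * v) * A := by
    refine (hF2 u hu0 l hlI).trans ?_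
    rw [hAdef, ← mul_assoc]
    gcongr
  have hJ := loc1_JK (φ := φ) hden
  obtain ⟨g1, g2, g3, g4⟩ := loc1_err hK0 hp0 hv.le hp3 hv1 hp2 ht hE hby
  have g5 : Real.exp (2 * φ x) ≤ Real.exp (2 * b) :=
    Real.exp_le_exp.2 (by linarith [le_abs_self (φ x)])
  rw [hJ, hrK]
  set t := thL φ a x y with htdef
  set J := Real.exp (-(2 * t)) with hJdef
  set Ex := Real.exp (2 * φ x) with hEx
  set Ey := Real.exp (2 * φ y) with hEy
  have hEx0 : 0 < Ex := Real.exp_pos _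
  have hEy0 : 0 < Ey := Real.exp_pos _
  -- final powers
  have hpow1 : p * v ^ (-(1 / 2) : ℝ) = v := by
    rw [hpdef, ← Real.rpow_add hv]
    norm_num
  have hpow2 : p * v * v ^ (-(1 / 2) : ℝ) = v ^ 2 := by
    rw [mul_right_comm, hpow1]
    ring
  have hz4 : z ^ (-(1 / 4) : ℝ) ≤ 1 := Real.rpow_le_one_of_one_le_of_nonpos hz (by norm_num)
  have hz4' : 0 ≤ z ^ (-(1 / 4) : ℝ) := Real.rpow_nonneg hz0.le _
  set X := Real.exp (-(Real.exp (-b) / 8 * (√z * v))) with hX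
  have hX0 : 0 ≤ X := (Real.exp_pos _).le
  have hX1 : X ≤ 1 := by
    rw [hX]
    exact Real.exp_le_one_iff.2 (by
      have : 0 ≤ Real.exp (-b) / 8 * (√z * v) := by positivity
      linarith)
  constructor
  · have e1 : |2 * t * FB u * Ey| ≤ 2 * (K0 * p) * (C1 * A) * Real.exp (2 * b) := by
      rw [abs_mul, abs_mul, abs_mul, abs_two, abs_of_pos hEy0]
      gcongr
    have e2 : p * A ≤ Real.exp (b / 2) := by
      calc p * A ≤ p * (Real.exp (b / 2) * z ^ (-(1 / 4) : ℝ) * v ^ (-(1 / 2) : ℝ) * X) :=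
            mul_le_mul_of_nonneg_left hA hp0
        _ = Real.exp (b / 2) * (z ^ (-(1 / 4) : ℝ) * (p * v ^ (-(1 / 2) : ℝ)) * X) := by ring
        _ ≤ Real.exp (b / 2) * 1 := by
            refine mul_le_mul_of_nonneg_left ?_ (Real.exp_pos _).le
            rw [hpow1]
            have h1 : z ^ (-(1 / 4) : ℝ) * v ≤ 1 := mul_le_one₀ hz4 hv.le hv1
            exact mul_le_one₀ h1 hX0 hX1
        _ = Real.exp (b / 2) := mul_one _
    calc _ ≤ 2 * (K0 * p) * (C1 * A) * Real.exp (2 * b) := e1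
      _ = 2 * K0 * C1 * Real.exp (2 * b) * (p * A) := by ring
      _ ≤ 2 * K0 * C1 * Real.exp (2 * b) * Real.exp (b / 2) :=
          mul_le_mul_of_nonneg_left e2 (by positivity)
      _ ≤ (2 * K0 * C1 * Real.exp (2 * b) + Q) * Real.exp (b / 2) := by
          have : 0 ≤ Q * Real.exp (b / 2) := by positivity
          linarith
  · have e1 : Ex * ((1 - J) * FB (l * u)) - 2 * t * FB u * Ey =
        Ex * (1 - J) * (FB (l * u) - FB u) +
          FB u * ((1 - J) * (Ex - Ey) + (1 - J - 2 * t) * Ey) := by ring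
    have e2 : |Ex * (1 - J) * (FB (l * u) - FB u)| ≤
        Real.exp (2 * b) * (c1 * p) * (C2 * (1 / (3 * r0) * v) * A) := by
      rw [abs_mul, abs_mul, abs_of_pos hEx0]
      gcongr
    have e3 : |(1 - J) * (Ex - Ey) + (1 - J - 2 * t) * Ey| ≤
        c1 * p * (c3 * v) + c2 * (p * v) * Real.exp (2 * b) := by
      refine (abs_add_le _ _).trans ?_
      rw [abs_mul, abs_mul, abs_of_pos hEy0]
      gcongr
    have e4 : |FB u * ((1 - J) * (Ex - Ey) + (1 - J - 2 * t) * Ey)| ≤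
        C1 * A * (c1 * p * (c3 * v) + c2 * (p * v) * Real.exp (2 * b)) := by
      rw [abs_mul]
      gcongr
    rw [e1]
    calc _ ≤ _ := abs_add_le _ _
      _ ≤ Real.exp (2 * b) * (c1 * p) * (C2 * (1 / (3 * r0) * v) * A) +
          C1 * A * (c1 * p * (c3 * v) + c2 * (p * v) * Real.exp (2 * b)) := add_le_add e2 e4
      _ = Q * (p * v) * A := by rw [hQ]; ring
      _ ≤ Q * (p * v) * (Real.exp (b / 2) * z ^ (-(1 / 4) : ℝ) * v ^ (-(1 / 2) : ℝ) * X) :=
          mul_le_mul_of_nonneg_left hA (by positivity)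
      _ = Q * Real.exp (b / 2) * z ^ (-(1 / 4) : ℝ) * ((p * v * v ^ (-(1 / 2) : ℝ)) * X) := by
          ring
      _ = Q * Real.exp (b / 2) * z ^ (-(1 / 4) : ℝ) * (v ^ 2 * X) := by rw [hpow2]
      _ ≤ (2 * K0 * C1 * Real.exp (2 * b) + Q) * Real.exp (b / 2) * z ^ (-(1 / 4) : ℝ) *
          (v ^ 2 * X) := by
          have : 0 ≤ 2 * K0 * C1 * Real.exp (2 * b) := by positivity
          gcongr
          linarith

private theorem loc1_int {κ : ℝ} (hκ : 0 < κ) : ∃ K : ℝ, 0 ≤ K ∧ ∀ z : ℝ, 1 ≤ z → ∀ y : ℂ,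
    Integrable (fun x : ℂ => ‖x - y‖ ^ 2 * Real.exp (-(κ * (√z * ‖x - y‖)))) ∧
      ∫ x : ℂ, ‖x - y‖ ^ 2 * Real.exp (-(κ * (√z * ‖x - y‖))) ≤ K * z⁻¹ ^ 2 := by
  set f : ℂ → ℝ := fun w => ‖w‖ ^ 2 * Real.exp (-(κ * ‖w‖)) with hf
  have hfi : Integrable f := by
    have h3 : Integrable (fun w : ℂ => (1 + ‖w‖) ^ (-(3 : ℝ))) volume :=
      integrable_one_add_norm (by rw [Complex.finrank_real_complex]; norm_num)
    refine (h3.const_mul (120 * Real.exp κ / κ ^ 5)).mono'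
      (by fun_prop) (ae_of_all _ fun w => ?_)
    have ht : 0 ≤ ‖w‖ := norm_nonneg w
    have ht1 : 0 < 1 + ‖w‖ := by positivity
    rw [Real.norm_eq_abs, abs_of_nonneg (by positivity)]
    have h5 := Real.pow_div_factorial_le_exp (κ * (1 + ‖w‖)) (by positivity) 5
    rw [show ((Nat.factorial 5 : ℕ) : ℝ) = 120 by norm_num [Nat.factorial], mul_pow, mul_add,
      mul_one, Real.exp_add] at h5
    have h6 : (1 + ‖w‖) ^ 5 ≤ 120 * Real.exp κ / κ ^ 5 * Real.exp (κ * ‖w‖) := by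
      rw [div_le_iff₀ (by norm_num)] at h5
      rw [div_mul_eq_mul_div, le_div_iff₀ (by positivity)]
      linarith
    have h7 : (1 + ‖w‖) ^ (-(3 : ℝ)) = ((1 + ‖w‖) ^ 3)⁻¹ := by
      rw [Real.rpow_neg ht1.le]
      norm_cast
    change ‖w‖ ^ 2 * Real.exp (-(κ * ‖w‖)) ≤ _
    rw [h7, Real.exp_neg, ← div_eq_mul_inv, ← div_eq_mul_inv, div_le_div_iff₀ (Real.exp_pos _)
      (by positivity)]
    calc ‖w‖ ^ 2 * (1 + ‖w‖) ^ 3 ≤ (1 + ‖w‖) ^ 2 * (1 + ‖w‖) ^ 3 := by gcongr; linarith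
      _ = (1 + ‖w‖) ^ 5 := by ring
      _ ≤ _ := h6
  refine ⟨∫ w, f w, integral_nonneg fun w => by positivity, fun z hz y => ?_⟩
  have hz0 : 0 < z := by linarith
  have hsz : 0 < √z := Real.sqrt_pos.2 hz0
  have hsq : √z ^ 2 = z := Real.sq_sqrt hz0.le
  have e1 : ∀ x : ℂ, ‖x - y‖ ^ 2 * Real.exp (-(κ * (√z * ‖x - y‖))) =
      z⁻¹ * f (√z • (x - y)) := by
    intro x
    simp only [hf, norm_smul, Real.norm_eq_abs, abs_of_pos hsz, mul_pow, hsq]
    field_simp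
  have hsm : Integrable (fun x : ℂ => f (√z • x)) := hfi.comp_smul hsz.ne'
  simp_rw [e1]
  refine ⟨(hsm.comp_sub_right y).const_mul _, ?_⟩
  rw [integral_const_mul, integral_sub_right_eq_self (fun x : ℂ => f (√z • x)) y,
    Measure.integral_comp_smul, Complex.finrank_real_complex, hsq, smul_eq_mul,
    abs_of_pos (inv_pos.2 hz0)]
  apply le_of_eq
  ring

private theorem loc1_far (hR : R ≤ 2) (hφ : IsChart φ a D R) (h0 : 0 < r0) :
    ∃ K κ : ℝ, 0 ≤ K ∧ 0 < κ ∧ ∀ z : ℝ, 1 ≤ z → ∀ x y : ℂ, ‖y‖ ≤ R → r0 ≤ ‖x - y‖ →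
      |(1 - JK φ a x y) * rK FB φ a z x y| ≤ K * Real.exp (-(κ * √z)) := by
  obtain ⟨c, C, hc, hC, hs⟩ := hφ.sK_bound hR
  obtain ⟨C1, hC1, hF1⟩ := FB_le
  set σ := c * (1 / (3 * (1 + 3 / r0))) with hσ
  have hσ0 : 0 < σ := by positivity
  refine ⟨C * C1 * (6144 * Real.exp (1 / 4)), σ / 4, by positivity, by positivity,
    fun z hz x y hy hx => ?_⟩
  have hz0 : 0 < z := by linarith
  have hsz : 1 ≤ √z := Real.one_le_sqrt.2 hz
  by_cases hden : 1 - a y * (x - y) / 2 = 0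
  · rw [rK, if_pos hden, mul_zero, abs_zero]
    positivity
  obtain ⟨hs1, hs2⟩ := hs x y hy hden
  rw [rK, if_neg hden]
  set s := sK φ a x y with hsdef
  have hv : 0 < ‖x - y‖ := by linarith
  have hch : 1 / (3 * (1 + 3 / r0)) ≤ chord x y := by
    rw [chord]
    have h1 : √(1 + ‖y‖ ^ 2) ≤ 3 := by
      rw [Real.sqrt_le_left (by norm_num)]
      nlinarith [norm_nonneg y]
    have h2 : √(1 + ‖x‖ ^ 2) ≤ ‖x - y‖ * (1 + 3 / r0) := by
      have h3 : √(1 + ‖x‖ ^ 2) ≤ 1 + ‖x‖ := by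
        rw [Real.sqrt_le_left (by positivity)]
        nlinarith [norm_nonneg x]
      have h4 : ‖x‖ ≤ ‖x - y‖ + ‖y‖ := by simpa using norm_add_le (x - y) y
      have h5 : 3 ≤ ‖x - y‖ * (3 / r0) := by
        rw [mul_div_assoc', le_div_iff₀ h0]
        linarith
      linarith
    rw [div_le_div_iff₀ (by positivity) (by positivity), one_mul]
    calc √(1 + ‖x‖ ^ 2) * √(1 + ‖y‖ ^ 2) ≤ ‖x - y‖ * (1 + 3 / r0) * 3 :=
          mul_le_mul h2 h1 (Real.sqrt_nonneg _) (by positivity)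
      _ = ‖x - y‖ * (3 * (1 + 3 / r0)) := by ring
  have hsσ : σ ≤ s := (mul_le_mul_of_nonneg_left hch hc.le).trans hs1
  have hs0 : 0 < s := lt_of_lt_of_le hσ0 hsσ
  have hu0 : 0 < √z * s := by positivity
  have e1 : |FB (√z * s)| ≤ C1 * (s ^ (-(1 / 2) : ℝ)) *
      (Real.exp (-(s / 4)) * Real.exp (-(σ / 4 * √z))) := by
    refine (hF1 _ hu0).trans ?_
    have h1 : (√z * s) ^ (-(1 / 2) : ℝ) ≤ s ^ (-(1 / 2) : ℝ) :=
      Real.rpow_le_rpow_of_nonpos hs0 (by nlinarith) (by norm_num)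
    have h2 : Real.exp (-(√z * s) / 2) ≤ Real.exp (-(s / 4)) * Real.exp (-(σ / 4 * √z)) := by
      rw [← Real.exp_add]
      refine Real.exp_le_exp.2 ?_
      nlinarith
    gcongr
  have e2 : s ^ (3 / 2 : ℝ) * s ^ (-(1 / 2) : ℝ) = s := by
    rw [← Real.rpow_add hs0]
    norm_num
  have e3 : (1 + s) ^ 4 * Real.exp (-(s / 4)) ≤ 6144 * Real.exp (1 / 4) := by
    have h5 := Real.pow_div_factorial_le_exp ((1 + s) / 4) (by positivity) 4
    rw [show ((Nat.factorial 4 : ℕ) : ℝ) = 24 by norm_num [Nat.factorial], div_pow, add_div,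
      Real.exp_add] at h5
    rw [Real.exp_neg, ← div_eq_mul_inv, div_le_iff₀ (Real.exp_pos _)]
    rw [div_le_iff₀ (by norm_num), div_le_iff₀ (by norm_num)] at h5
    linarith
  rw [abs_mul]
  calc |1 - JK φ a x y| * |FB (√z * s)|
      ≤ (C * s ^ (3 / 2 : ℝ) * (1 + s) ^ 3) * (C1 * (s ^ (-(1 / 2) : ℝ)) *
      (Real.exp (-(s / 4)) * Real.exp (-(σ / 4 * √z)))) :=
        mul_le_mul hs2 e1 (abs_nonneg _) (by positivity)
    _ = C * C1 * ((s ^ (3 / 2 : ℝ) * s ^ (-(1 / 2) : ℝ)) * (1 + s) ^ 3 * Real.exp (-(s / 4))) *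
        Real.exp (-(σ / 4 * √z)) := by ring
    _ ≤ C * C1 * (6144 * Real.exp (1 / 4)) * Real.exp (-(σ / 4 * √z)) := by
        refine mul_le_mul_of_nonneg_right (mul_le_mul_of_nonneg_left ?_ (by positivity))
          (Real.exp_pos _).le
        rw [e2]
        refine le_trans ?_ e3
        refine mul_le_mul_of_nonneg_right ?_ (Real.exp_pos _).le
        calc s * (1 + s) ^ 3 ≤ (1 + s) * (1 + s) ^ 3 := by gcongr; linarith
          _ = (1 + s) ^ 4 := by ring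

private theorem loc1_decay {κ : ℝ} (hκ : 0 < κ) {z : ℝ} (hz : 1 ≤ z) :
    Real.exp (-(κ * √z)) ≤ 120 / κ ^ 5 * z ^ (-(9 / 4) : ℝ) := by
  have hz0 : 0 < z := by linarith
  have h5 := Real.pow_div_factorial_le_exp (κ * √z) (by positivity) 5
  rw [show ((Nat.factorial 5 : ℕ) : ℝ) = 120 by norm_num [Nat.factorial], mul_pow,
    div_le_iff₀ (by norm_num)] at h5
  have h6 : √z ^ 5 = z ^ (5 / 2 : ℝ) := by
    rw [Real.sqrt_eq_rpow, ← Real.rpow_natCast, ← Real.rpow_mul hz0.le]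
    norm_num
  have h7 : z ^ (9 / 4 : ℝ) ≤ z ^ (5 / 2 : ℝ) := Real.rpow_le_rpow_of_exponent_le hz (by norm_num)
  rw [h6] at h5
  rw [Real.exp_neg, Real.rpow_neg hz0.le, ← div_eq_mul_inv, div_div, ← one_div,
    div_le_div_iff₀ (Real.exp_pos _) (by positivity), one_mul]
  calc κ ^ 5 * z ^ (9 / 4 : ℝ) ≤ κ ^ 5 * z ^ (5 / 2 : ℝ) :=
        mul_le_mul_of_nonneg_left h7 (by positivity)
    _ ≤ _ := by linarith

private theorem loc1_FB_meas : Measurable FB :=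
  (kB_meas.pow_const 2).sub ((mB_meas.const_mul 2).mul kB_meas)

private theorem loc1_rK_meas (y : ℂ) (z : ℝ) : Measurable fun x => rK FB φ a z x y := by
  have h1 : Measurable fun x : ℂ => √z * sK φ a x y := by
    unfold sK
    fun_prop
  refine Measurable.ite ?_ measurable_const (loc1_FB_meas.comp h1)
  exact (isClosed_eq (by fun_prop) continuous_const).measurableSet

private theorem loc1_JK_meas (hφ : Continuous φ) (y : ℂ) : Measurable fun x => JK φ a x y := by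
  unfold JK
  have := hφ.measurable
  fun_prop

private theorem loc1_th_meas (hφ : Continuous φ) (y : ℂ) : Measurable fun x => thL φ a x y := by
  unfold thL
  have := hφ.measurable
  fun_prop

/-- error from replacing the exact integrand near the diagonal by its leading term, plus the far
part.  `θ = φ(x) - φ(y) + 2 log|1 - a v/2|`. -/
theorem local_near {R r0 : ℝ} (hR : R ≤ 2) (hφ : IsChart φ a D R) (h0 : 0 < r0) (h0' : r0 ≤ 1 / 5)
    (ha : ∀ y, ‖y‖ ≤ R → ‖a y‖ * r0 ≤ 1 / 2) : ∃ C : ℝ, ∀ z : ℝ, 1 ≤ z → ∀ y : ℂ, ‖y‖ ≤ R →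
      |∫ x, (1 - JK φ a x y) * rK FB φ a z x y ∂(vol φ) -
        ∫ x in Metric.ball y r0, 2 * (φ x - φ y + 2 * Real.log ‖1 - a y * (x - y) / 2‖) *
          FB (√z * (Real.exp (φ y) * ‖x - y‖)) * Real.exp (2 * φ y)| ≤
        C * z ^ (-(9 / 4) : ℝ) := by
  obtain ⟨K, κ, hK, hκ, hnear⟩ := loc1_near hR hφ h0 h0' ha
  obtain ⟨K2, κ2, hK2, hκ2, hfar⟩ := loc1_far hR hφ h0
  obtain ⟨K3, hK3, hint⟩ := loc1_int hκ
  obtain ⟨C0, hC0, hdens⟩ := hφ.toIsGrow.density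
  have hEi : Integrable fun x => Real.exp (2 * φ x) := by
    refine (integrable_round.const_mul C0).mono' ?_ (ae_of_all _ fun x => ?_)
    · have := hφ.cont
      exact (by fun_prop : Continuous fun x => Real.exp (2 * φ x)).aestronglyMeasurable
    · rw [Real.norm_eq_abs, abs_of_pos (Real.exp_pos _)]
      refine (hdens x).1.trans (le_of_eq ?_)
      ring
  set V := ∫ x, Real.exp (2 * φ x) with hV
  have hV0 : 0 ≤ V := integral_nonneg fun x => (Real.exp_pos _).le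
  refine ⟨K * K3 + K2 * V * (120 / κ2 ^ 5), fun z hz y hy => ?_⟩
  have hz0 : 0 < z := by linarith
  rw [hφ.toIsGrow.integral_vol]
  set F : ℂ → ℝ := fun x => Real.exp (2 * φ x) * ((1 - JK φ a x y) * rK FB φ a z x y) with hF
  set M : ℂ → ℝ := fun x => 2 * thL φ a x y * FB (√z * (Real.exp (φ y) * ‖x - y‖)) *
    Real.exp (2 * φ y) with hM
  change |(∫ x, F x) - ∫ x in Metric.ball y r0, M x| ≤ _
  have hFm : Measurable F := by
    have h1 := hφ.cont.measurable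
    have h2 := loc1_JK_meas (a := a) hφ.cont y
    have h3 := loc1_rK_meas (φ := φ) (a := a) y z
    fun_prop
  have hMm : Measurable M := by
    have h1 := loc1_th_meas (a := a) hφ.cont y
    have h2 : Measurable fun x : ℂ => FB (√z * (Real.exp (φ y) * ‖x - y‖)) :=
      loc1_FB_meas.comp (by fun_prop)
    exact ((h1.const_mul 2).mul h2).mul_const _
  set B := Metric.ball y r0 with hB
  have hBm : MeasurableSet B := measurableSet_ball
  have hMi : IntegrableOn M B := by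
    refine Measure.integrableOn_of_bounded (M := K) measure_ball_lt_top.ne
      hMm.aestronglyMeasurable ?_
    filter_upwards [ae_restrict_mem hBm] with x hx
    exact (hnear z hz x y hy (by simpa [hB, dist_eq_norm] using hx)).1
  obtain ⟨hgi, hgle⟩ := hint z hz y
  set g : ℂ → ℝ := fun x => ‖x - y‖ ^ 2 * Real.exp (-(κ * (√z * ‖x - y‖))) with hg
  have hg0 : ∀ x, 0 ≤ g x := fun x => by positivity
  have hz4 : 0 ≤ z ^ (-(1 / 4) : ℝ) := Real.rpow_nonneg hz0.le _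
  have hdiff : ∀ᵐ x ∂(volume.restrict B), ‖F x - M x‖ ≤ K * z ^ (-(1 / 4) : ℝ) * g x := by
    filter_upwards [ae_restrict_mem hBm] with x hx
    exact (hnear z hz x y hy (by simpa [hB, dist_eq_norm] using hx)).2
  have hgi' : IntegrableOn (fun x => K * z ^ (-(1 / 4) : ℝ) * g x) B :=
    (hgi.const_mul _).integrableOn
  have hFMi : IntegrableOn (fun x => F x - M x) B :=
    hgi'.mono' (hFm.sub hMm).aestronglyMeasurable hdiff
  have hFi : IntegrableOn F B := by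
    have := hFMi.add hMi
    refine this.congr (ae_of_all _ fun x => ?_)
    simp
  have hfar' : ∀ᵐ x ∂(volume.restrict Bᶜ), ‖F x‖ ≤
      K2 * Real.exp (-(κ2 * √z)) * Real.exp (2 * φ x) := by
    filter_upwards [ae_restrict_mem hBm.compl] with x hx
    have hx' : r0 ≤ ‖x - y‖ := by
      have : ¬ dist x y < r0 := hx
      rw [dist_eq_norm] at this
      linarith
    have h1 := hfar z hz x y hy hx'
    rw [Real.norm_eq_abs, hF, abs_mul, abs_of_pos (Real.exp_pos _), mul_comm]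
    exact mul_le_mul_of_nonneg_right h1 (Real.exp_pos _).le
  have hEi' : IntegrableOn (fun x => K2 * Real.exp (-(κ2 * √z)) * Real.exp (2 * φ x)) Bᶜ :=
    (hEi.const_mul _).integrableOn
  have hFi' : IntegrableOn F Bᶜ := hEi'.mono' hFm.aestronglyMeasurable hfar'
  have hFint : Integrable F := by
    rw [← integrableOn_univ, ← union_compl_self B]
    exact hFi.union hFi'
  have hsplit : (∫ x, F x) - ∫ x in B, M x = (∫ x in B, (F x - M x)) + ∫ x in Bᶜ, F x := by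
    rw [integral_sub hFi hMi, ← integral_add_compl hBm hFint]
    ring
  rw [hsplit]
  have e1 : |∫ x in B, (F x - M x)| ≤ K * K3 * z ^ (-(9 / 4) : ℝ) := by
    calc |∫ x in B, (F x - M x)| ≤ ∫ x in B, K * z ^ (-(1 / 4) : ℝ) * g x := by
          rw [← Real.norm_eq_abs]
          exact norm_integral_le_of_norm_le hgi' hdiff
      _ ≤ ∫ x, K * z ^ (-(1 / 4) : ℝ) * g x :=
          setIntegral_le_integral (hgi.const_mul _) (ae_of_all _ fun x => by
            have := hg0 x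
            positivity)
      _ = K * z ^ (-(1 / 4) : ℝ) * ∫ x, g x := integral_const_mul _ _
      _ ≤ K * z ^ (-(1 / 4) : ℝ) * (K3 * z⁻¹ ^ 2) :=
          mul_le_mul_of_nonneg_left hgle (by positivity)
      _ = K * K3 * (z ^ (-(1 / 4) : ℝ) * z⁻¹ ^ 2) := by ring
      _ = K * K3 * z ^ (-(9 / 4) : ℝ) := by
          have : z⁻¹ ^ 2 = z ^ (-2 : ℝ) := by
            rw [Real.rpow_neg hz0.le, inv_pow]
            norm_cast
          rw [this, ← Real.rpow_add hz0]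
          norm_num
  have e2 : |∫ x in Bᶜ, F x| ≤ K2 * V * (120 / κ2 ^ 5) * z ^ (-(9 / 4) : ℝ) := by
    calc |∫ x in Bᶜ, F x| ≤ ∫ x in Bᶜ, K2 * Real.exp (-(κ2 * √z)) * Real.exp (2 * φ x) := by
          rw [← Real.norm_eq_abs]
          exact norm_integral_le_of_norm_le hEi' hfar'
      _ ≤ ∫ x, K2 * Real.exp (-(κ2 * √z)) * Real.exp (2 * φ x) :=
          setIntegral_le_integral (hEi.const_mul _) (ae_of_all _ fun x => by positivity)
      _ = K2 * Real.exp (-(κ2 * √z)) * V := integral_const_mul _ _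
      _ ≤ K2 * (120 / κ2 ^ 5 * z ^ (-(9 / 4) : ℝ)) * V := by
          have := loc1_decay hκ2 hz
          gcongr
      _ = K2 * V * (120 / κ2 ^ 5) * z ^ (-(9 / 4) : ℝ) := by ring
  calc _ ≤ _ := abs_add_le _ _
    _ ≤ _ := add_le_add e1 e2
    _ = _ := by ring

end

end LQZ
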