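import Pool.Agent.LQZ.Sphere

/-! # Project LQZ, module MOB: covariance under Moebius maps -/

open MeasureTheory Set Filter Topology InnerProductSpace
open scoped ContDiff ENNReal NNReal Real

namespace LQZ

noncomputable section

variable {ψ χ f g η φ φ' u : ℂ → ℝ}

/-- `f(x) = E (x-y) / (1 - a (x-y)/2)` -/
def fM (E : ℝ) (a y x : ℂ) : ℂ := E * (x - y) / (1 - a * (x - y) / 2)

/-- determinant of the multiplication by a complex number -/
theorem mob_det (c : ℂ) :
    ((ContinuousLinearMap.toSpanSingleton ℂ c).restrictScalars ℝ : ℂ →L[ℝ] ℂ).det = ‖c‖ ^ 2 := by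
  have h1 : ((ContinuousLinearMap.toSpanSingleton ℂ c).restrictScalars ℝ : ℂ →L[ℝ] ℂ).det =
      LinearMap.det ((ContinuousLinearMap.toSpanSingleton ℂ c).restrictScalars ℝ : ℂ →ₗ[ℝ] ℂ) := rfl
  rw [h1, ← LinearMap.det_toMatrix Complex.basisOneI, Matrix.det_fin_two]
  simp [LinearMap.toMatrix_apply, Complex.basisOneI]
  rw [← Complex.normSq_eq_norm_sq, Complex.normSq_apply]

/-- the set where `f` is defined -/
def mobS (a y : ℂ) : Set ℂ := {x | 1 - a * (x - y) / 2 ≠ 0}

theorem mobS_open (a y : ℂ) : IsOpen (mobS a y) :=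
  isOpen_ne_fun (by fun_prop) continuous_const

theorem mobS_compl_null (a y : ℂ) : volume (mobS a y)ᶜ = 0 := by
  refine Set.Subsingleton.measure_zero ?_ _
  intro x hx x' hx'
  simp only [mobS, mem_compl_iff, mem_ofPred_eq, not_not] at hx hx'
  have ha : a ≠ 0 := by
    rintro rfl; simp at hx
  have : a * (x - x') = 0 := by linear_combination 2 * hx' - 2 * hx
  rcases mul_eq_zero.1 this with h | h
  · exact absurd h ha
  · exact sub_eq_zero.1 h

theorem mob_hasDerivAt (E : ℝ) (a y : ℂ) {x : ℂ} (hx : x ∈ mobS a y) :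
    HasDerivAt (fM E a y) (E / (1 - a * (x - y) / 2) ^ 2) x := by
  have hx' : 1 - a * (x - y) / 2 ≠ 0 := hx
  have h1 : HasDerivAt (fun x : ℂ => (E : ℂ) * (x - y)) E x := by
    simpa using ((hasDerivAt_id x).sub_const y).const_mul (E : ℂ)
  have h2 : HasDerivAt (fun x : ℂ => 1 - a * (x - y) / 2) (-(a / 2)) x := by
    have := ((((hasDerivAt_id x).sub_const y).const_mul a).div_const 2).const_sub 1
    simpa using this
  have h3 := h1.div h2 hx'
  refine h3.congr_deriv ?_
  field_simp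
  ring

theorem mob_inj {E : ℝ} (hE : 0 < E) (a y : ℂ) : InjOn (fM E a y) (mobS a y) := by
  intro x hx x' hx' h
  have h1 : 1 - a * (x - y) / 2 ≠ 0 := hx
  have h2 : 1 - a * (x' - y) / 2 ≠ 0 := hx'
  have hE' : (E : ℂ) ≠ 0 := by exact_mod_cast hE.ne'
  unfold fM at h
  rw [div_eq_div_iff h1 h2] at h
  have : (E : ℂ) * (x - x') = 0 := by linear_combination h
  rcases mul_eq_zero.1 this with h | h
  · exact absurd h hE'
  · exact sub_eq_zero.1 h

theorem mob_image_compl_null {E : ℝ} (hE : 0 < E) (a y : ℂ) :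
    volume (fM E a y '' mobS a y)ᶜ = 0 := by
  have hE' : (E : ℂ) ≠ 0 := by exact_mod_cast hE.ne'
  refine measure_mono_null (t := {w : ℂ | (E : ℂ) + a * w / 2 = 0}) ?_ ?_
  · intro w hw
    by_contra hne
    apply hw
    obtain ⟨d, hd⟩ : ∃ d : ℂ, d = (E : ℂ) + a * w / 2 := ⟨_, rfl⟩
    have hd0 : d ≠ 0 := by rw [hd]; exact hne
    have hEd : (E : ℂ) = d - a * w / 2 := by rw [hd]; ring
    have e1 : 1 - a * (y + w / d - y) / 2 = E / d := by
      rw [hEd]
      field_simp
      ring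
    refine ⟨y + w / d, ?_, ?_⟩
    · change 1 - a * (y + w / d - y) / 2 ≠ 0
      rw [e1]
      exact div_ne_zero hE' hd0
    · unfold fM
      rw [e1, add_sub_cancel_left]
      field_simp
  · refine Set.Subsingleton.measure_zero ?_ _
    intro x hx x' hx'
    simp only [mem_ofPred_eq] at hx hx'
    have ha : a ≠ 0 := by
      rintro rfl
      apply hE'
      simpa using hx
    have : a * (x - x') = 0 := by linear_combination 2 * hx - 2 * hx'
    rcases mul_eq_zero.1 this with h | h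
    · exact absurd h ha
    · exact sub_eq_zero.1 h

theorem mob_jac (E : ℝ) (a y x : ℂ) :
    |((ContinuousLinearMap.toSpanSingleton ℂ
      ((E : ℂ) / (1 - a * (x - y) / 2) ^ 2)).restrictScalars ℝ : ℂ →L[ℝ] ℂ).det| =
      E ^ 2 / ‖1 - a * (x - y) / 2‖ ^ 4 := by
  rw [mob_det, abs_of_nonneg (by positivity), norm_div, norm_pow, Complex.norm_real,
    Real.norm_eq_abs, div_pow, sq_abs, ← pow_mul]

theorem mob_lintegral {E : ℝ} (hE : 0 < E) (a y : ℂ) {h : ℂ → ℝ≥0∞} (_hh : Measurable h) :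
    ∫⁻ x, h (fM E a y x) * ENNReal.ofReal (E ^ 2 / ‖1 - a * (x - y) / 2‖ ^ 4) =
      ∫⁻ w, h w := by
  have key := lintegral_image_eq_lintegral_abs_det_fderiv_mul (volume : Measure ℂ)
    (mobS_open a y).measurableSet
    (fun x hx => ((mob_hasDerivAt E a y hx).hasFDerivAt.restrictScalars ℝ).hasFDerivWithinAt)
    (mob_inj hE a y) h
  have e1 : ∫⁻ w in fM E a y '' mobS a y, h w = ∫⁻ w, h w := by
    have hi : (fM E a y '' mobS a y) =ᵐ[volume] univ :=
      eventuallyEq_univ.2 (mem_ae_iff.2 (mob_image_compl_null hE a y))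
    rw [setLIntegral_congr hi, setLIntegral_univ]
  have e2 : ∫⁻ x in mobS a y, ENNReal.ofReal |((ContinuousLinearMap.toSpanSingleton ℂ
      ((E : ℂ) / (1 - a * (x - y) / 2) ^ 2)).restrictScalars ℝ : ℂ →L[ℝ] ℂ).det| *
        h (fM E a y x) =
      ∫⁻ x, h (fM E a y x) * ENNReal.ofReal (E ^ 2 / ‖1 - a * (x - y) / 2‖ ^ 4) := by
    have hs : (mobS a y) =ᵐ[volume] univ :=
      eventuallyEq_univ.2 (mem_ae_iff.2 (mobS_compl_null a y))
    rw [setLIntegral_congr hs, setLIntegral_univ]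
    refine lintegral_congr fun x => ?_
    rw [mob_jac, mul_comm]
  rw [← e2, ← key, e1]

theorem mob_integral {E : ℝ} (hE : 0 < E) (a y : ℂ) (h : ℂ → ℝ) :
    (∫ x, h (fM E a y x) * (E ^ 2 / ‖1 - a * (x - y) / 2‖ ^ 4) = ∫ w, h w) ∧
    (Integrable h → Integrable fun x => h (fM E a y x) * (E ^ 2 / ‖1 - a * (x - y) / 2‖ ^ 4)) := by
  have hsm := (mobS_open a y).measurableSet
  have hd : ∀ x ∈ mobS a y, HasFDerivWithinAt (fM E a y)
      ((ContinuousLinearMap.toSpanSingleton ℂ
        ((E : ℂ) / (1 - a * (x - y) / 2) ^ 2)).restrictScalars ℝ) (mobS a y) x :=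
    fun x hx => ((mob_hasDerivAt E a y hx).hasFDerivAt.restrictScalars ℝ).hasFDerivWithinAt
  have hs : (mobS a y) =ᵐ[volume] univ :=
    eventuallyEq_univ.2 (mem_ae_iff.2 (mobS_compl_null a y))
  have hi : (fM E a y '' mobS a y) =ᵐ[volume] univ :=
    eventuallyEq_univ.2 (mem_ae_iff.2 (mob_image_compl_null hE a y))
  have e3 : (fun x => |((ContinuousLinearMap.toSpanSingleton ℂ
      ((E : ℂ) / (1 - a * (x - y) / 2) ^ 2)).restrictScalars ℝ : ℂ →L[ℝ] ℂ).det| •
        h (fM E a y x)) = fun x => h (fM E a y x) * (E ^ 2 / ‖1 - a * (x - y) / 2‖ ^ 4) := by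
    ext x
    rw [mob_jac, smul_eq_mul, mul_comm]
  constructor
  · have key := integral_image_eq_integral_abs_det_fderiv_smul (volume : Measure ℂ) hsm hd
      (mob_inj hE a y) h
    rw [setIntegral_congr_set hi, setIntegral_univ, setIntegral_congr_set hs, setIntegral_univ,
      e3] at key
    exact key.symm
  · intro hh
    have key := (integrableOn_image_iff_integrableOn_abs_det_fderiv_smul (volume : Measure ℂ) hsm
      hd (mob_inj hE a y) h).1 hh.integrableOn
    rw [integrableOn_congr_set_ae hs, integrableOn_univ, e3] at key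
    exact key

theorem mob_pull (hψ : SphSmooth ψ) {E : ℝ} (hE : 0 < E) (a y : ℂ) :
    ∃ χ : ℂ → ℝ, SphSmooth χ ∧ χ 0 = ψ y ∧ ∀ x : ℂ, 1 - a * (x - y) / 2 ≠ 0 →
      χ (fM E a y x) = ψ x ∧
      lap ψ x = E ^ 2 / ‖1 - a * (x - y) / 2‖ ^ 4 * lap χ (fM E a y x) := by
  have hE' : (E : ℂ) ≠ 0 := by exact_mod_cast hE.ne'
  have h1 := hψ.affine one_ne_zero y
  obtain ⟨ψ2, h2, e2⟩ := h1.inv
  have h3 := h2.affine hE' (a / 2)
  obtain ⟨χ, h4, e4⟩ := h3.inv
  -- the relation away from `y`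
  have hrel : ∀ x, x ∈ mobS a y → x ≠ y → χ (fM E a y x) = ψ x := by
    intro x hx hxy
    have hx' : 1 - a * (x - y) / 2 ≠ 0 := hx
    have hv : x - y ≠ 0 := sub_ne_zero.2 hxy
    have hw : fM E a y x ≠ 0 := by
      unfold fM
      exact div_ne_zero (mul_ne_zero hE' hv) hx'
    rw [e4 _ hw]
    have e5 : (E : ℂ) * (fM E a y x)⁻¹ + a / 2 = (x - y)⁻¹ := by
      unfold fM
      rw [inv_div]
      field_simp
      ring
    rw [e5, e2 _ (inv_ne_zero hv), inv_inv]
    congr 1; ring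
  have hy : y ∈ mobS a y := by
    change 1 - a * (y - y) / 2 ≠ 0
    simp
  have hf0 : fM E a y y = 0 := by unfold fM; simp
  have hcont : ContinuousAt (fun x => χ (fM E a y x)) y :=
    ContinuousAt.comp (g := χ) h4.1.continuous.continuousAt (mob_hasDerivAt E a y hy).continuousAt
  have hchi0 : χ 0 = ψ y := by
    have t1 : Tendsto (fun x => χ (fM E a y x)) (𝓝[≠] y) (𝓝 (χ 0)) := by
      have := hcont.tendsto
      rw [hf0] at this
      exact this.mono_left nhdsWithin_le_nhds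
    have t2 : Tendsto (fun x => χ (fM E a y x)) (𝓝[≠] y) (𝓝 (ψ y)) := by
      have h5 : Tendsto ψ (𝓝[≠] y) (𝓝 (ψ y)) :=
        hψ.1.continuous.continuousAt.tendsto.mono_left nhdsWithin_le_nhds
      refine h5.congr' ?_
      filter_upwards [self_mem_nhdsWithin,
        mem_nhdsWithin_of_mem_nhds ((mobS_open a y).mem_nhds hy)] with x hx1 hx2
      exact (hrel x hx2 hx1).symm
    exact tendsto_nhds_unique t1 t2
  have hrel' : ∀ x, x ∈ mobS a y → χ (fM E a y x) = ψ x := by
    intro x hx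
    by_cases hxy : x = y
    · subst hxy
      rw [hf0]; exact hchi0
    · exact hrel x hx hxy
  refine ⟨χ, h4, hchi0, fun x hx => ⟨hrel' x hx, ?_⟩⟩
  have hx' : x ∈ mobS a y := hx
  have ha : AnalyticAt ℂ (fM E a y) x := by
    have hd : DifferentiableOn ℂ (fM E a y) (mobS a y) := fun z hz =>
      (mob_hasDerivAt E a y hz).differentiableAt.differentiableWithinAt
    exact hd.analyticAt ((mobS_open a y).mem_nhds hx')
  have e6 : ψ =ᶠ[𝓝 x] fun z => χ (fM E a y z) := by
    filter_upwards [(mobS_open a y).mem_nhds hx'] with z hz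
    exact (hrel' z hz).symm
  have e7 : lap ψ x = lap (fun z => χ (fM E a y z)) x := (laplacian_congr_nhds e6).eq_of_nhds
  rw [e7, sph_lap_comp ((h4.1.of_le sph_two_le).contDiffAt) ha, (mob_hasDerivAt E a y hx').deriv,
    norm_div, norm_pow, Complex.norm_real, Real.norm_eq_abs, div_pow, sq_abs, ← pow_mul]

end

end LQZ
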