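import Pool.Agent.LQZ.Compact
import Pool.Agent.LQZ.IBP
import Pool.Agent.LQZ.Met
import Pool.Agent.LQZ.GreenOp

/-!
# Project LQZ, module SPEC: spectral decomposition
-/

open MeasureTheory Set Filter Topology InnerProductSpace
open scoped ContDiff ENNReal NNReal Real

namespace LQZ

noncomputable section

variable {ψ φ : ℂ → ℝ}

/-- `b` is a basis of eigenfunctions with eigenvalues `lam`. -/
structure IsSpec (φ : ℂ → ℝ) {ι : Type} (b : HilbertBasis ι ℝ (Lp ℝ 2 (vol φ)))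
    (lam : ι → ℝ) : Prop where
  nonneg : ∀ i, 0 ≤ lam i
  zero : ∃! i, lam i = 0
  pair : ∀ u g : Lp ℝ 2 (vol φ), WeakEq φ u g → ∀ i,
    (inner ℝ g (b i) : ℝ) = lam i * (inner ℝ u (b i) : ℝ)
  fin : ∀ B : ℝ, {i | lam i ≤ B}.Finite
  mult : ∀ l : ℝ, 0 < l → Module.finrank ℝ (eigenspace φ l) = Nat.card {i // lam i = l}

/-- the properties of the Green operator -/
structure IsGreen (φ : ℂ → ℝ) (T : Lp ℝ 2 (vol φ) →L[ℝ] Lp ℝ 2 (vol φ)) : Prop where
  cpt : IsCompactOperator T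
  symm : T.IsSymmetric
  pos : ∀ g, 0 ≤ (inner ℝ (T g) g : ℝ)
  mean : ∀ g, ∫ x, (T g : ℂ → ℝ) x ∂(vol φ) = 0
  weak : ∀ g : Lp ℝ 2 (vol φ), ∫ x, g x ∂(vol φ) = 0 → WeakEq φ (T g) g
  const : ∀ g : Lp ℝ 2 (vol φ), (∃ c : ℝ, g =ᵐ[vol φ] fun _ => c) → T g = 0
  inv : ∀ u g : Lp ℝ 2 (vol φ), WeakEq φ u g → ∫ x, g x ∂(vol φ) = 0 ∧
    ∃ c : ℝ, u =ᵐ[vol φ] fun x => (T g : ℂ → ℝ) x + c

theorem spec_int (hφ : IsGrow φ) (u : Lp ℝ 2 (vol φ)) : Integrable u (vol φ) := by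
  have := hφ.finite
  exact (Lp.memLp u).integrable (by norm_num)

theorem spec_int_mul (hφ : IsGrow φ) (u : Lp ℝ 2 (vol φ)) {h : ℂ → ℝ} (hc : Continuous h)
    (hb : ∃ C : ℝ, 0 ≤ C ∧ ∀ x, |h x| ≤ C) : Integrable (fun x => u x * h x) (vol φ) := by
  obtain ⟨C, -, hC⟩ := hb
  exact (spec_int hφ u).mul_bdd hc.aestronglyMeasurable (Eventually.of_forall fun x => hC x)

theorem spec_integral_smul (l : ℝ) (u : Lp ℝ 2 (vol φ)) (h : ℂ → ℝ) :
    ∫ x, (l • u : Lp ℝ 2 (vol φ)) x * h x ∂(vol φ) = l * ∫ x, u x * h x ∂(vol φ) := by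
  rw [← integral_const_mul]
  refine integral_congr_ae ?_
  filter_upwards [Lp.coeFn_smul l u] with x hx
  rw [hx, Pi.smul_apply, smul_eq_mul]
  ring

theorem spec_mem_iff (hφ : IsGrow φ) (u : Lp ℝ 2 (vol φ)) (l : ℝ) :
    u ∈ eigenspace φ l ↔ WeakEq φ u (l • u : Lp ℝ 2 (vol φ)) := by
  constructor
  · intro h ψ hψ
    obtain ⟨-, -, h3⟩ := h ψ hψ
    rw [h3, spec_integral_smul]
  · intro h ψ hψ
    refine ⟨spec_int_mul hφ u (hφ.lapG_meas hψ) (hφ.lapG_bdd hψ),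
      spec_int_mul hφ u hψ.1.continuous hψ.bdd, ?_⟩
    rw [h ψ hψ, spec_integral_smul]

theorem WeakEq.smul_Lp {u g : Lp ℝ 2 (vol φ)} (h : WeakEq φ u g) (l : ℝ) :
    WeakEq φ (l • u : Lp ℝ 2 (vol φ)) (l • g : Lp ℝ 2 (vol φ)) := by
  intro ψ hψ
  rw [spec_integral_smul, spec_integral_smul, h ψ hψ]

theorem spec_const_weak (hφ : IsGrow φ) {u : Lp ℝ 2 (vol φ)} {c : ℝ}
    (hu : u =ᵐ[vol φ] fun _ => c) : WeakEq φ u ((0 : ℝ) • u : Lp ℝ 2 (vol φ)) := by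
  intro ψ hψ
  rw [spec_integral_smul, zero_mul]
  have h1 : ∫ x, u x * lapG φ ψ x ∂(vol φ) = ∫ x, c * lapG φ ψ x ∂(vol φ) := by
    refine integral_congr_ae ?_
    filter_upwards [hu] with x hx
    rw [hx]
  rw [h1, hφ.integral_lapG (fun _ => c) ψ, integral_const_mul, integral_neg, integral_lap hψ]
  ring

theorem IsGreen.ker_const (hφ : IsGrow φ) {T : Lp ℝ 2 (vol φ) →L[ℝ] Lp ℝ 2 (vol φ)}
    (hG : IsGreen φ T) {u : Lp ℝ 2 (vol φ)} (hu : T u = 0) : ∃ c : ℝ, u =ᵐ[vol φ] fun _ => c := by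
  have := hφ.finite
  set V : ℝ := ((vol φ) univ).toReal with hV
  have hVpos : 0 < V := ENNReal.toReal_pos (vol_pos hφ).ne' (measure_ne_top _ _)
  set m : ℝ := (∫ x, u x ∂(vol φ)) / V with hm
  set k : Lp ℝ 2 (vol φ) := Lp.const 2 (vol φ) m with hk
  have hkc : k =ᵐ[vol φ] fun _ => m := Lp.coeFn_const 2 (vol φ) m
  have hTk : T k = 0 := hG.const k ⟨m, hkc⟩
  have hTg : T (u - k) = 0 := by rw [map_sub, hu, hTk, sub_zero]
  have hsub : (u - k : Lp ℝ 2 (vol φ)) =ᵐ[vol φ] fun x => u x - m := by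
    filter_upwards [Lp.coeFn_sub u k, hkc] with x h1 h2
    rw [h1, Pi.sub_apply, h2]
  have hint : ∫ x, (u - k : Lp ℝ 2 (vol φ)) x ∂(vol φ) = 0 := by
    rw [integral_congr_ae hsub, integral_sub (spec_int hφ u) (integrable_const _),
      integral_const, smul_eq_mul, hm]
    change _ - V * _ = 0
    field_simp
    ring
  have hw := hG.weak _ hint
  rw [hTg] at hw
  have hz : ∀ ψ : ℂ → ℝ, SphSmooth ψ →
      ∫ x, (Real.exp (2 * φ x) * (u - k : Lp ℝ 2 (vol φ)) x) * ψ x = 0 := by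
    intro ψ hψ
    have h1 := hw ψ hψ
    have h2 : ∫ x, ((0 : Lp ℝ 2 (vol φ)) : ℂ → ℝ) x * lapG φ ψ x ∂(vol φ) = 0 := by
      refine integral_eq_zero_of_ae ?_
      filter_upwards [Lp.coeFn_zero ℝ 2 (vol φ)] with x hx
      rw [hx]
      simp
    rw [h2, hφ.integral_vol] at h1
    rw [h1]
    refine integral_congr_ae (Eventually.of_forall fun x => ?_)
    ring
  have hloc : LocallyIntegrable (fun x => Real.exp (2 * φ x) * (u - k : Lp ℝ 2 (vol φ)) x) :=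
    ((hφ.integrable_vol _).1 (spec_int hφ (u - k))).locallyIntegrable
  have hae := vol_ac φ |>.ae_le (ae_zero_of_sphSmooth hloc hz)
  refine ⟨m, ?_⟩
  filter_upwards [hae, hsub] with x h1 h2
  have h3 : (u - k : Lp ℝ 2 (vol φ)) x = 0 := by
    rcases mul_eq_zero.1 h1 with h | h
    · exact absurd h (Real.exp_pos _).ne'
    · exact h
  rw [h3] at h2
  linarith

theorem IsGreen.eig_mean {T : Lp ℝ 2 (vol φ) →L[ℝ] Lp ℝ 2 (vol φ)}
    (hG : IsGreen φ T) {u : Lp ℝ 2 (vol φ)} {κ : ℝ} (hκ : κ ≠ 0) (hu : T u = κ • u) :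
    ∫ x, u x ∂(vol φ) = 0 := by
  have h1 := hG.mean u
  rw [hu] at h1
  have h2 := spec_integral_smul κ u (fun _ => 1)
  simp only [mul_one] at h2
  rw [h1] at h2
  rcases mul_eq_zero.1 h2.symm with h | h
  · exact absurd h hκ
  · exact h

theorem IsGreen.eig_eq (hφ : IsGrow φ) {T : Lp ℝ 2 (vol φ) →L[ℝ] Lp ℝ 2 (vol φ)}
    (hG : IsGreen φ T) (l : ℝ) :
    eigenspace φ l = Module.End.eigenspace (T : Lp ℝ 2 (vol φ) →ₗ[ℝ] Lp ℝ 2 (vol φ)) l⁻¹ := by
  have := hφ.finite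
  ext u
  rw [spec_mem_iff hφ, Module.End.mem_eigenspace_iff]
  change _ ↔ T u = l⁻¹ • u
  rcases eq_or_ne l 0 with rfl | hl
  · rw [inv_zero]
    constructor
    · intro h
      obtain ⟨-, c, hc⟩ := hG.inv _ _ h
      rw [zero_smul]
      refine hG.const u ⟨c, ?_⟩
      rw [zero_smul, map_zero] at hc
      filter_upwards [hc, Lp.coeFn_zero ℝ 2 (vol φ)] with x h1 h2
      rw [h1, h2]
      simp
    · intro h
      rw [zero_smul] at h
      obtain ⟨c, hc⟩ := hG.ker_const hφ h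
      exact spec_const_weak hφ hc
  · constructor
    · intro h
      obtain ⟨h0, c, hc⟩ := hG.inv _ _ h
      have hu0 : ∫ x, u x ∂(vol φ) = 0 := by
        have h2 := spec_integral_smul l u (fun _ => 1)
        simp only [mul_one] at h2
        rw [h0] at h2
        rcases mul_eq_zero.1 h2.symm with h | h
        · exact absurd h hl
        · exact h
      have hc0 : c = 0 := by
        have h3 : ∫ x, u x ∂(vol φ) =
            ∫ x, ((T (l • u : Lp ℝ 2 (vol φ)) : ℂ → ℝ) x + c) ∂(vol φ) := integral_congr_ae hc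
        rw [integral_add (spec_int hφ _) (integrable_const _), hG.mean, hu0, integral_const,
          smul_eq_mul, zero_add] at h3
        rcases mul_eq_zero.1 h3.symm with h | h
        · exact absurd h (ENNReal.toReal_pos (vol_pos hφ).ne' (measure_ne_top _ _)).ne'
        · exact h
      have h4 : u = T (l • u) := by
        refine Lp.ext ?_
        filter_upwards [hc] with x hx
        rw [hx, hc0, add_zero]
      rw [map_smul] at h4
      rw [eq_comm]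
      calc l⁻¹ • u = l⁻¹ • (l • T u) := by rw [← h4]
        _ = T u := by rw [smul_smul, inv_mul_cancel₀ hl, one_smul]
    · intro h
      have h0 := hG.eig_mean (inv_ne_zero hl) h
      have h1 := (hG.weak u h0).smul_Lp l
      rw [h, smul_smul, mul_inv_cancel₀ hl, one_smul] at h1
      exact h1

/-- the eigenspace of the Green operator -/
abbrev spV {φ : ℂ → ℝ} (T : Lp ℝ 2 (vol φ) →L[ℝ] Lp ℝ 2 (vol φ)) (κ : ℝ) :
    Submodule ℝ (Lp ℝ 2 (vol φ)) :=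
  Module.End.eigenspace (T : Lp ℝ 2 (vol φ) →ₗ[ℝ] Lp ℝ 2 (vol φ)) κ

theorem mem_spV {T : Lp ℝ 2 (vol φ) →L[ℝ] Lp ℝ 2 (vol φ)} {κ : ℝ} {u : Lp ℝ 2 (vol φ)} :
    u ∈ spV T κ ↔ T u = κ • u := Module.End.mem_eigenspace_iff

/-- the constant function one -/
def spOne (φ : ℂ → ℝ) [IsFiniteMeasure (vol φ)] : Lp ℝ 2 (vol φ) := Lp.const 2 (vol φ) 1

theorem spOne_coe [IsFiniteMeasure (vol φ)] : spOne φ =ᵐ[vol φ] fun _ => 1 :=
  Lp.coeFn_const 2 (vol φ) 1

theorem spOne_ne_zero (hφ : IsGrow φ) [IsFiniteMeasure (vol φ)] : spOne φ ≠ 0 := by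
  intro h
  have h1 := Lp.coeFn_zero ℝ 2 (vol φ)
  rw [← h] at h1
  have h2 : ∀ᵐ x ∂(vol φ), False := by
    filter_upwards [h1, spOne_coe (φ := φ)] with x h3 h4
    rw [h4] at h3
    simp at h3
  rw [ae_iff] at h2
  simp only [not_false_eq_true, ofPred_true] at h2
  exact (vol_pos hφ).ne' h2

theorem IsGreen.spV_zero (hφ : IsGrow φ) [IsFiniteMeasure (vol φ)]
    {T : Lp ℝ 2 (vol φ) →L[ℝ] Lp ℝ 2 (vol φ)}
    (hG : IsGreen φ T) (u : Lp ℝ 2 (vol φ)) (hu : u ∈ spV T 0) : ∃ c : ℝ, c • spOne φ = u := by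
  rw [mem_spV, zero_smul] at hu
  obtain ⟨c, hc⟩ := hG.ker_const hφ hu
  refine ⟨c, Lp.ext ?_⟩
  filter_upwards [hc, Lp.coeFn_smul c (spOne φ), spOne_coe (φ := φ)] with x h1 h2 h3
  rw [h1, h2, Pi.smul_apply, h3, smul_eq_mul, mul_one]

theorem IsGreen.spOne_mem [IsFiniteMeasure (vol φ)] {T : Lp ℝ 2 (vol φ) →L[ℝ] Lp ℝ 2 (vol φ)}
    (hG : IsGreen φ T) : spOne φ ∈ spV T 0 := by
  rw [mem_spV, zero_smul]
  exact hG.const _ ⟨1, spOne_coe⟩

theorem IsGreen.finrank_zero (hφ : IsGrow φ) [IsFiniteMeasure (vol φ)]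
    {T : Lp ℝ 2 (vol φ) →L[ℝ] Lp ℝ 2 (vol φ)} (hG : IsGreen φ T) :
    Module.finrank ℝ (spV T 0) = 1 := by
  refine finrank_eq_one (⟨spOne φ, hG.spOne_mem⟩ : spV T 0) ?_ ?_
  · intro h
    exact spOne_ne_zero hφ (congrArg Subtype.val h)
  · rintro ⟨w, hw⟩
    obtain ⟨c, hc⟩ := hG.spV_zero hφ w hw
    exact ⟨c, Subtype.ext hc⟩

theorem IsGreen.findim (hφ : IsGrow φ) [IsFiniteMeasure (vol φ)]
    {T : Lp ℝ 2 (vol φ) →L[ℝ] Lp ℝ 2 (vol φ)} (hG : IsGreen φ T) (κ : ℝ) :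
    FiniteDimensional ℝ (spV T κ) := by
  rcases eq_or_ne κ 0 with rfl | h
  · exact Module.finite_of_finrank_pos (by rw [hG.finrank_zero hφ]; norm_num)
  · exact ContinuousLinearMap.finite_dimensional_eigenspace hG.cpt κ h

/-- index type of the eigenbasis -/
abbrev SpI {φ : ℂ → ℝ} (T : Lp ℝ 2 (vol φ) →L[ℝ] Lp ℝ 2 (vol φ)) : Type :=
  Σ κ : ℝ, Fin (Module.finrank ℝ (spV T κ))

theorem exists_eigenbasis {H : Type*} [NormedAddCommGroup H] [InnerProductSpace ℝ H]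
    [CompleteSpace H] {T : H →L[ℝ] H} (hc : IsCompactOperator T) (hs : T.IsSymmetric)
    (hfd : ∀ κ : ℝ, FiniteDimensional ℝ (Module.End.eigenspace (T : H →ₗ[ℝ] H) κ)) :
    ∃ b : HilbertBasis
      (Σ κ : ℝ, Fin (Module.finrank ℝ (Module.End.eigenspace (T : H →ₗ[ℝ] H) κ))) ℝ H,
      ∀ a, T (b a) = a.1 • b a := by
  let B : ∀ κ : ℝ, OrthonormalBasis
      (Fin (Module.finrank ℝ (Module.End.eigenspace (T : H →ₗ[ℝ] H) κ))) ℝ
      (Module.End.eigenspace (T : H →ₗ[ℝ] H) κ) :=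
    fun κ => stdOrthonormalBasis ℝ (Module.End.eigenspace (T : H →ₗ[ℝ] H) κ)
  have hsymm : (T : H →ₗ[ℝ] H).IsSymmetric := hs
  have hv : Orthonormal ℝ fun a : (Σ κ : ℝ,
      Fin (Module.finrank ℝ (Module.End.eigenspace (T : H →ₗ[ℝ] H) κ))) =>
      ((B a.1 a.2 : Module.End.eigenspace (T : H →ₗ[ℝ] H) a.1) : H) :=
    hsymm.orthogonalFamily_eigenspaces.orthonormal_sigma_orthonormal
      (fun κ => (B κ).orthonormal)
  have hsp : (Submodule.span ℝ (Set.range fun a : (Σ κ : ℝ,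
      Fin (Module.finrank ℝ (Module.End.eigenspace (T : H →ₗ[ℝ] H) κ))) =>
      ((B a.1 a.2 : Module.End.eigenspace (T : H →ₗ[ℝ] H) a.1) : H)))ᗮ = ⊥ := by
    have h1 := ContinuousLinearMap.orthogonalComplement_iSup_eigenspaces_eq_bot hc hs
    rw [eq_bot_iff, ← h1]
    refine Submodule.orthogonal_le (iSup_le fun κ => ?_)
    intro x hx
    have h2 := (B κ).sum_repr ⟨x, hx⟩
    have h3 : x = ∑ i, (B κ).repr ⟨x, hx⟩ i •
        ((B κ i : Module.End.eigenspace (T : H →ₗ[ℝ] H) κ) : H) := by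
      have h4 := congrArg (Submodule.subtype (Module.End.eigenspace (T : H →ₗ[ℝ] H) κ)) h2
      rw [map_sum] at h4
      simp only [map_smul, Submodule.subtype_apply] at h4
      exact h4.symm
    rw [h3]
    refine Submodule.sum_mem _ fun i _ => Submodule.smul_mem _ _ (Submodule.subset_span ?_)
    exact ⟨⟨κ, i⟩, rfl⟩
  refine ⟨HilbertBasis.mkOfOrthogonalEqBot hv hsp, fun a => ?_⟩
  rw [HilbertBasis.coe_mkOfOrthogonalEqBot]
  exact Module.End.mem_eigenspace_iff.1 (B a.1 a.2).2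

theorem exists_spBasis (hφ : IsGrow φ) [IsFiniteMeasure (vol φ)]
    {T : Lp ℝ 2 (vol φ) →L[ℝ] Lp ℝ 2 (vol φ)} (hG : IsGreen φ T) :
    ∃ b : HilbertBasis (SpI T) ℝ (Lp ℝ 2 (vol φ)), ∀ a, T (b a) = a.1 • b a :=
  exists_eigenbasis hG.cpt hG.symm (hG.findim hφ)

theorem IsGreen.eig_nonneg {T : Lp ℝ 2 (vol φ) →L[ℝ] Lp ℝ 2 (vol φ)} (hG : IsGreen φ T)
    {u : Lp ℝ 2 (vol φ)} {κ : ℝ} (hu : T u = κ • u) (h0 : u ≠ 0) : 0 ≤ κ := by
  have h1 := hG.pos u
  rw [hu, inner_smul_left, real_inner_self_eq_norm_sq] at h1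
  simp only [conj_trivial] at h1
  have h2 : 0 < ‖u‖ ^ 2 := by positivity
  exact nonneg_of_mul_nonneg_left h1 h2

theorem spec_finite {T : Lp ℝ 2 (vol φ) →L[ℝ] Lp ℝ 2 (vol φ)}
    (hG : IsGreen φ T) (b : HilbertBasis (SpI T) ℝ (Lp ℝ 2 (vol φ)))
    (hb : ∀ a, T (b a) = a.1 • b a) {δ : ℝ} (hδ : 0 < δ) :
    {a : SpI T | δ ≤ a.1}.Finite := by
  have hK := hG.cpt.isCompact_closure_image_closedBall
    (f := (T : Lp ℝ 2 (vol φ) →ₗ[ℝ] Lp ℝ 2 (vol φ))) 1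
  have htb := hK.totallyBounded
  rw [Metric.totallyBounded_iff] at htb
  obtain ⟨t, ht, hcov⟩ := htb (δ / 2) (by positivity)
  have hmem : ∀ a : SpI T, ∃ y ∈ t, dist (T (b a)) y < δ / 2 := by
    intro a
    have h1 : T (b a) ∈ closure ((T : Lp ℝ 2 (vol φ) → Lp ℝ 2 (vol φ)) '' Metric.closedBall 0 1) := by
      refine subset_closure ⟨b a, ?_, rfl⟩
      rw [mem_closedBall_zero_iff, b.orthonormal.1 a]
    have h2 := hcov h1
    simp only [mem_iUnion, Metric.mem_ball] at h2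
    obtain ⟨y, hy, hyd⟩ := h2
    exact ⟨y, hy, hyd⟩
  choose f hf1 hf2 using hmem
  refine Set.Finite.of_injOn (f := f) (fun a _ => hf1 a) ?_ ht
  intro a ha a' ha' haa
  by_contra hne
  have h1 : dist (T (b a)) (T (b a')) < δ := by
    have h2 := dist_triangle_right (T (b a)) (T (b a')) (f a)
    have h3 := hf2 a
    have h4 := hf2 a'
    rw [← haa] at h4
    linarith
  have h5 : (inner ℝ (b a) (b a') : ℝ) = 0 := b.orthonormal.2 hne
  have h6 : ‖T (b a) - T (b a')‖ ^ 2 = a.1 ^ 2 + a'.1 ^ 2 := by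
    rw [norm_sub_sq_real, hb, hb, norm_smul, norm_smul, b.orthonormal.1, b.orthonormal.1,
      inner_smul_left, inner_smul_right, h5]
    simp
  have h7 : δ ≤ a.1 := ha
  have h8 : δ ≤ a'.1 := ha'
  rw [dist_eq_norm] at h1
  nlinarith [norm_nonneg (T (b a) - T (b a'))]

theorem spec_inner_const (g : Lp ℝ 2 (vol φ)) {u : Lp ℝ 2 (vol φ)} {c : ℝ}
    (hu : u =ᵐ[vol φ] fun _ => c) : (inner ℝ g u : ℝ) = c * ∫ x, g x ∂(vol φ) := by
  rw [L2.inner_def, ← integral_const_mul]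
  refine integral_congr_ae ?_
  filter_upwards [hu] with x hx
  rw [hx]
  simp only [RCLike.inner_apply, conj_trivial]

theorem exists_isSpec (hφ : IsGrow φ) {T : Lp ℝ 2 (vol φ) →L[ℝ] Lp ℝ 2 (vol φ)}
    (hG : IsGreen φ T) (b : HilbertBasis (SpI T) ℝ (Lp ℝ 2 (vol φ)))
    (hb : ∀ a, T (b a) = a.1 • b a) : IsSpec φ b (fun a => a.1⁻¹) := by
  have := hφ.finite
  have hbne : ∀ a, b a ≠ 0 := fun a => b.orthonormal.ne_zero a
  have hnn : ∀ a : SpI T, 0 ≤ a.1 := fun a => hG.eig_nonneg (hb a) (hbne a)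
  refine ⟨fun a => inv_nonneg.2 (hnn a), ?_, ?_, ?_, ?_⟩
  · have h1 := hG.finrank_zero hφ
    refine ⟨⟨0, ⟨0, by rw [h1]; norm_num⟩⟩, by simp, ?_⟩
    rintro ⟨κ, j⟩ hj
    have hκ : κ = 0 := by simpa using hj
    subst hκ
    congr 1
    ext
    have := j.isLt
    simp only
    omega
  · intro u g hug a
    obtain ⟨h0, c, hc⟩ := hG.inv u g hug
    have hu : u = T g + Lp.const 2 (vol φ) c := by
      refine Lp.ext ?_
      filter_upwards [hc, Lp.coeFn_add (T g) (Lp.const 2 (vol φ) c),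
        Lp.coeFn_const 2 (vol φ) c] with x h1 h2 h3
      rw [h1, h2, Pi.add_apply, h3]
      rfl
    rcases eq_or_ne a.1 0 with ha | ha
    · have h1 : b a ∈ spV T 0 := by
        rw [mem_spV, hb, ha]
      rw [mem_spV, zero_smul] at h1
      obtain ⟨k, hk⟩ := hG.ker_const hφ h1
      rw [spec_inner_const g hk, h0, ha]
      simp
    · have h1 : ∫ x, b a x ∂(vol φ) = 0 := hG.eig_mean ha (hb a)
      have h2 : (inner ℝ (Lp.const 2 (vol φ) c : Lp ℝ 2 (vol φ)) (b a) : ℝ) = 0 := by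
        rw [real_inner_comm, spec_inner_const (b a) (Lp.coeFn_const 2 (vol φ) c), h1, mul_zero]
      have h3 : (inner ℝ (T g) (b a) : ℝ) = a.1 * inner ℝ g (b a) := by
        have h4 : (inner ℝ (T g) (b a) : ℝ) = inner ℝ g (T (b a)) := hG.symm g (b a)
        rw [h4, hb, inner_smul_right]
      rw [hu, inner_add_left, h2, add_zero, h3, ← mul_assoc, inv_mul_cancel₀ ha, one_mul]
  · intro B
    have h1 : {a : SpI T | a.1⁻¹ ≤ B} ⊆ {a | a.1 = 0} ∪ {a | (max B 1)⁻¹ ≤ a.1} := by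
      intro a ha
      rcases eq_or_ne a.1 0 with h0 | h0
      · exact Or.inl h0
      · right
        have hpos : 0 < a.1 := lt_of_le_of_ne (hnn a) (Ne.symm h0)
        have h2 : a.1⁻¹ ≤ max B 1 := le_trans ha (le_max_left _ _)
        exact (inv_le_comm₀ hpos (by positivity)).1 h2
    refine Set.Finite.subset ?_ h1
    refine Set.Finite.union ?_ (spec_finite hG b hb (by positivity))
    refine Set.Subsingleton.finite ?_
    have h2 := hG.finrank_zero hφ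
    rintro ⟨κ, j⟩ hj ⟨κ', j'⟩ hj'
    have hκ : κ = 0 := hj
    have hκ' : κ' = 0 := hj'
    subst hκ
    subst hκ'
    congr 1
    ext
    have h3 := j.isLt
    have h4 := j'.isLt
    omega
  · intro l hl
    rw [hG.eig_eq hφ l]
    have h1 : Function.Bijective (fun j : Fin (Module.finrank ℝ (spV T l⁻¹)) =>
        (⟨⟨l⁻¹, j⟩, inv_inv l⟩ : {a : SpI T // a.1⁻¹ = l})) := by
      constructor
      · intro j j' hjj
        have h2 := congrArg Subtype.val hjj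
        simpa using h2
      · rintro ⟨⟨κ, j⟩, h⟩
        have hκ : κ = l⁻¹ := by rw [← h, inv_inv]
        subst hκ
        exact ⟨j, rfl⟩
    rw [← Nat.card_congr (Equiv.ofBijective _ h1), Nat.card_fin]

theorem exists_spec (hφ : IsGrow φ) :
    (∃ (ι : Type) (_ : Countable ι) (b : HilbertBasis ι ℝ (Lp ℝ 2 (vol φ))) (lam : ι → ℝ),
      IsSpec φ b lam) ∧
    ((∀ s : ℂ, 1 < s.re → Summable fun lam : {l : ℝ // 0 < l} =>
      (Module.finrank ℝ (eigenspace φ lam) : ℂ) * ((lam : ℝ) : ℂ) ^ (-s)) →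
      DiscreteSpectrum φ) := by
  have hfin := hφ.finite
  obtain ⟨T, h1, h2, h3, h4, h5, h6, h7⟩ := exists_greenOp hφ
  have hG : IsGreen φ T := ⟨h1, h2, h3, h4, h5, h6, h7⟩
  obtain ⟨b, hb⟩ := exists_spBasis hφ hG
  have hS := exists_isSpec hφ hG b hb
  have hsymm : (T : Lp ℝ 2 (vol φ) →ₗ[ℝ] Lp ℝ 2 (vol φ)).IsSymmetric := hG.symm
  refine ⟨⟨SpI T, countable_of_hilbertBasis b, b, _, hS⟩, fun hsum => ?_⟩
  have hneg : ∀ lam : ℝ, lam < 0 → eigenspace φ lam = ⊥ := by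
    intro lam hlam
    rw [hG.eig_eq hφ, eq_bot_iff]
    intro u hu
    by_contra hne
    have h8 := hG.eig_nonneg (mem_spV.1 hu) hne
    exact absurd (inv_lt_zero.2 hlam) (not_lt.2 h8)
  refine ⟨vol_pos hφ, measure_lt_top _ _, hneg, ?_, ?_, ?_, ?_, ?_, hsum⟩
  · intro u
    rw [hG.eig_eq hφ, inv_zero]
    constructor
    · intro hu
      rw [mem_spV, zero_smul] at hu
      exact hG.ker_const hφ hu
    · intro hu
      rw [mem_spV, zero_smul]
      exact hG.const u hu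
  · intro lam
    rw [hG.eig_eq hφ]
    exact hG.findim hφ _
  · intro B
    refine ((hS.fin B).image fun a => a.1⁻¹).subset ?_
    rintro lam ⟨hlam, hne⟩
    rw [hG.eig_eq hφ] at hne
    have hfd := hG.findim hφ lam⁻¹
    have hpos : 0 < Module.finrank ℝ (spV T lam⁻¹) := by
      rw [Module.finrank_pos_iff]
      exact (Submodule.nontrivial_iff_ne_bot).2 hne
    refine ⟨⟨lam⁻¹, ⟨0, hpos⟩⟩, ?_, inv_inv lam⟩
    simpa using hlam
  · intro lam lam' hne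
    rw [hG.eig_eq hφ, hG.eig_eq hφ]
    rw [Submodule.isOrtho_iff_inner_eq]
    intro u hu v hv
    exact hsymm.orthogonalFamily_eigenspaces (inv_injective.ne hne) ⟨u, hu⟩ ⟨v, hv⟩
  · have h9 := ContinuousLinearMap.orthogonalComplement_iSup_eigenspaces_eq_bot hG.cpt hG.symm
    rw [eq_bot_iff, ← h9]
    refine Submodule.orthogonal_le (iSup_le fun κ => ?_)
    have h10 := hG.eig_eq hφ κ⁻¹
    rw [inv_inv] at h10
    rw [← h10]
    exact le_iSup (fun l => eigenspace φ l) κ⁻¹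

end

end LQZ
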