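import Pool.Agent.LQZ.Defs

/-!
# Project LQZ: the statement, with the spectrum as a sequence
-/

open MeasureTheory Set Filter Topology

namespace LQZ

noncomputable section

/-- `u ∈ L²(g)` satisfies `Δ_g u = l * u` weakly on the sphere with metric `g = e^{2φ}|dz|²`:
`∫ u (Δ_g ψ) dVol_g = l ∫ u ψ dVol_g` for all smooth functions `ψ` on the sphere. -/
def IsEigen (φ : ℂ → ℝ) (l : ℝ) (u : ℂ → ℝ) : Prop :=
  MemLp u 2 (vol φ) ∧ ∀ ψ : ℂ → ℝ, SphSmooth ψ →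
    Integrable (fun x => u x * lapG φ ψ x) (vol φ) ∧ Integrable (fun x => u x * ψ x) (vol φ) ∧
      ∫ x, u x * lapG φ ψ x ∂(vol φ) = l * ∫ x, u x * ψ x ∂(vol φ)

/-- `0 = lam 0 < lam 1 ≤ lam 2 ≤ ⋯` tends to infinity and `u 0, u 1, …` is an orthonormal basis of
`L²(g)` such that `u j` is an eigenfunction of `Δ_g` with eigenvalue `lam j`. -/
structure IsSpectrum (φ : ℂ → ℝ) (lam : ℕ → ℝ) (u : ℕ → ℂ → ℝ) : Prop where
  zero : lam 0 = 0
  pos : 0 < lam 1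
  mono : Monotone lam
  tendsto : Tendsto lam atTop atTop
  eigen : ∀ j, IsEigen φ (lam j) (u j)
  orthonormal : ∀ i j, ∫ x, u i x * u j x ∂(vol φ) = if i = j then 1 else 0
  complete : ∀ f : ℂ → ℝ, MemLp f 2 (vol φ) → (∀ j, ∫ x, f x * u j x ∂(vol φ) = 0) →
    f =ᵐ[vol φ] fun _ => 0

/-- The spectral zeta function `ζ_g(s) = ∑_{j ≥ 1} λ_j^{-s}` (`Re s > 1`). -/
def zetaSeries (lam : ℕ → ℝ) (s : ℂ) : ℂ := ∑' j : ℕ, ((lam (j + 1) : ℝ) : ℂ) ^ (-s)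

/-- The series of `ζ_g(s)` converges absolutely for `Re s > 1`, and `ζ_g` extends analytically from
`{Re s > 1}` to a domain (connected open set) containing a neighbourhood of `0`. -/
def ZetaContinues (lam : ℕ → ℝ) : Prop :=
  (∀ s : ℂ, 1 < s.re → Summable fun j : ℕ => ((lam (j + 1) : ℝ) : ℂ) ^ (-s)) ∧
  ∃ U : Set ℂ, IsOpen U ∧ IsPreconnected U ∧ {s : ℂ | 1 < s.re} ⊆ U ∧ (0 : ℂ) ∈ U ∧
    ∃ F : ℂ → ℂ, AnalyticOnNhd ℂ F U ∧ ∀ s : ℂ, 1 < s.re → F s = zetaSeries lam s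

/-- The metric `g = e^{2φ}|dz|²` has finite positive area, `L²(g)` has an orthonormal basis of
eigenfunctions with eigenvalues `0 = λ₀ < λ₁ ≤ λ₂ ≤ ⋯ → ∞`, and for every such basis all the
eigenfunctions with eigenvalue `l` are orthogonal to the members with eigenvalue `≠ l` (so the
`λ_j` are all the eigenvalues, with multiplicity), and `ζ_g` extends analytically to a domain
containing `0`. -/
def GoodMetric (φ : ℂ → ℝ) : Prop :=
  0 < vol φ univ ∧ vol φ univ < ⊤ ∧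
  (∃ (lam : ℕ → ℝ) (u : ℕ → ℂ → ℝ), IsSpectrum φ lam u) ∧
  ∀ (lam : ℕ → ℝ) (u : ℕ → ℂ → ℝ), IsSpectrum φ lam u →
    (∀ (l : ℝ) (w : ℂ → ℝ), IsEigen φ l w → ∀ j, lam j ≠ l → ∫ x, w x * u j x ∂(vol φ) = 0) ∧
      ZetaContinues lam

/-- The statement for one realisation `a` of the square averages with `𝒫^ε` finite: `𝒫^ε` is a
partition of the unit square, `h^ε = h^{𝒫^ε}` exists and is unique up to null sets, and the metric
`g = e^{2(h^ε/Q + C)} g₀` has discrete spectrum and a zeta function that extends analytically to a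
domain containing `0`. -/
def Answer (σ₀ : ℂ → ℝ) (Q ε : ℝ) (a : Dy → ℝ) : Prop :=
  IsPartition (Peps Q ε a) ∧
  (∃ h : ℂ → ℝ, IsHP σ₀ (Peps Q ε a) a h ∧
    ∀ h' : ℂ → ℝ, IsHP σ₀ (Peps Q ε a) a h' → h' =ᵐ[volume] h) ∧
  ∀ h : ℂ → ℝ, IsHP σ₀ (Peps Q ε a) a h → GoodMetric (gExp σ₀ Q (Peps Q ε a).ncard h)

end

end LQZ
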