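import Pool.Agent.LQZ.Final
import Pool.Agent.LQZ.SpecDefs

/-! # Project LQZ: from eigenspaces to sequences of eigenvalues -/

open MeasureTheory Set Filter Topology InnerProductSpace
open scoped ContDiff ENNReal NNReal Real

namespace LQZ

noncomputable section

/-- sorting a family that tends to infinity -/
theorem exists_sort {ι : Type} [Infinite ι] [Countable ι] (lam : ι → ℝ)
    (hfin : ∀ B : ℝ, {i | lam i ≤ B}.Finite) :
    ∃ e : ℕ ≃ ι, ∀ m n, m ≤ n → lam (e m) ≤ lam (e n) := by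
  obtain ⟨enc, henc⟩ := exists_injective_nat ι
  set lt : ι → ι → Prop := fun i j => lam i < lam j ∨ (lam i = lam j ∧ enc i < enc j) with hlt
  have hsub : ∀ j, {i | lt i j}.Finite := fun j =>
    (hfin (lam j)).subset fun i hi => by
      rcases hi with h | h
      · exact h.le
      · exact h.1.le
  set r : ι → ℕ := fun j => {i | lt i j}.ncard with hr
  have htr : ∀ i j k, lt i j → lt j k → lt i k := by
    intro i j k h1 h2
    rcases h1 with h1 | ⟨h1, h1'⟩ <;> rcases h2 with h2 | ⟨h2, h2'⟩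
    · exact Or.inl (h1.trans h2)
    · exact Or.inl (h2 ▸ h1)
    · exact Or.inl (h1 ▸ h2)
    · exact Or.inr ⟨h1.trans h2, h1'.trans h2'⟩
  have hirr : ∀ i, ¬ lt i i := by
    intro i h
    rcases h with h | h
    · exact lt_irrefl _ h
    · exact lt_irrefl _ h.2
  have hmono : ∀ i j, lt i j → r i < r j := by
    intro i j h
    refine Set.ncard_lt_ncard ?_ (hsub j)
    refine ⟨fun k hk => htr k i j hk h, fun hss => hirr i (hss h)⟩
  have htot : ∀ i j, i ≠ j → lt i j ∨ lt j i := by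
    intro i j hne
    rcases lt_trichotomy (lam i) (lam j) with h | h | h
    · exact Or.inl (Or.inl h)
    · rcases lt_trichotomy (enc i) (enc j) with h' | h' | h'
      · exact Or.inl (Or.inr ⟨h, h'⟩)
      · exact absurd (henc h') hne
      · exact Or.inr (Or.inr ⟨h.symm, h'⟩)
    · exact Or.inr (Or.inl h)
  have hinj : Function.Injective r := by
    intro i j h
    by_contra hne
    rcases htot i j hne with h' | h'
    · exact absurd (hmono i j h') (by rw [h]; exact lt_irrefl _)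
    · exact absurd (hmono j i h') (by rw [h]; exact lt_irrefl _)
  have hinf : Infinite (range r) := (Set.infinite_range_of_injective hinj).to_subtype
  have : DecidablePred (· ∈ range r) := Classical.decPred _
  set o := Nat.Subtype.orderIsoOfNat (range r)
  set q : ι ≃ range r := Equiv.ofInjective r hinj
  refine ⟨o.toEquiv.trans q.symm, fun m n hmn => ?_⟩
  by_contra hcon
  rw [not_le] at hcon
  have h1 : r (q.symm (o n)) < r (q.symm (o m)) := hmono _ _ (Or.inl hcon)
  have h2 : ∀ k, r (q.symm (o k)) = (o k : ℕ) := by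
    intro k
    have := q.apply_symm_apply (o k)
    exact congrArg Subtype.val this
  rw [h2, h2] at h1
  have h3 : (o m : ℕ) ≤ o n := o.monotone hmn
  omega

/-- a Hilbert basis adapted to a family of subspaces -/
theorem exists_adapted {H : Type*} [NormedAddCommGroup H] [InnerProductSpace ℝ H]
    [CompleteSpace H] (E : ℝ → Submodule ℝ H) (hfd : ∀ l, Module.Finite ℝ (E l))
    (ho : ∀ l l', l ≠ l' → E l ⟂ E l') (hd : (⨆ l, E l)ᗮ = ⊥) :
    ∃ b : HilbertBasis (Σ l : ℝ, Fin (Module.finrank ℝ (E l))) ℝ H, ∀ a, b a ∈ E a.1 := by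
  let B : ∀ l : ℝ, OrthonormalBasis (Fin (Module.finrank ℝ (E l))) ℝ (E l) :=
    fun l => stdOrthonormalBasis ℝ (E l)
  have hof : OrthogonalFamily ℝ (fun l => E l) fun l => (E l).subtypeₗᵢ := by
    intro l l' hne v w
    exact (Submodule.isOrtho_iff_inner_eq.1 (ho l l' hne)) v v.2 w w.2
  have hv : Orthonormal ℝ fun a : (Σ l : ℝ, Fin (Module.finrank ℝ (E l))) =>
      ((B a.1 a.2 : E a.1) : H) :=
    hof.orthonormal_sigma_orthonormal (fun l => (B l).orthonormal)
  have hsp : (Submodule.span ℝ (Set.range fun a : (Σ l : ℝ, Fin (Module.finrank ℝ (E l))) =>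
      ((B a.1 a.2 : E a.1) : H)))ᗮ = ⊥ := by
    rw [eq_bot_iff, ← hd]
    refine Submodule.orthogonal_le (iSup_le fun l => ?_)
    intro x hx
    have h2 := (B l).sum_repr ⟨x, hx⟩
    have h3 : x = ∑ i, (B l).repr ⟨x, hx⟩ i • ((B l i : E l) : H) := by
      have h4 := congrArg (Submodule.subtype (E l)) h2
      rw [map_sum] at h4
      simp only [map_smul, Submodule.subtype_apply] at h4
      exact h4.symm
    rw [h3]
    refine Submodule.sum_mem _ fun i _ => Submodule.smul_mem _ _ (Submodule.subset_span ?_)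
    exact ⟨⟨l, i⟩, rfl⟩
  refine ⟨HilbertBasis.mkOfOrthogonalEqBot hv hsp, fun a => ?_⟩
  rw [HilbertBasis.coe_mkOfOrthogonalEqBot]
  exact (B a.1 a.2).2

theorem inner_Lp {μ : Measure ℂ} (f g : Lp ℝ 2 μ) :
    (inner ℝ f g : ℝ) = ∫ x, f x * g x ∂μ := by
  rw [L2.inner_def]
  refine integral_congr_ae (Eventually.of_forall fun x => ?_)
  simp only [RCLike.inner_apply, conj_trivial]
  ring

/-- `L²` of a finite measure on the plane that charges all vertical strips is infinite
dimensional -/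
theorem infinite_index {μ : Measure ℂ} [IsFiniteMeasure μ] (hμ : ∀ n : ℕ,
    μ {z : ℂ | (n : ℝ) < z.re ∧ z.re < n + 1} ≠ 0) {ι : Type*} (b : HilbertBasis ι ℝ (Lp ℝ 2 μ)) :
    Infinite ι := by
  by_contra hni
  rw [not_infinite_iff_finite] at hni
  have hft : Fintype ι := Fintype.ofFinite ι
  have hfd : FiniteDimensional ℝ (Lp ℝ 2 μ) := by
    have := b.toOrthonormalBasis
    exact this.toBasis.finiteDimensional_of_finite
  set S : ℕ → Set ℂ := fun n => {z : ℂ | (n : ℝ) < z.re ∧ z.re < n + 1} with hS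
  have hSm : ∀ n, MeasurableSet (S n) := fun n =>
    (measurableSet_lt measurable_const Complex.measurable_re).inter
      (measurableSet_lt Complex.measurable_re measurable_const)
  have hSf : ∀ n, μ (S n) ≠ ⊤ := fun n => measure_ne_top _ _
  set v : ℕ → Lp ℝ 2 μ := fun n => indicatorConstLp 2 (hSm n) (hSf n) (1 : ℝ) with hv
  have hne : ∀ n, v n ≠ 0 := by
    intro n h0
    have h1 : (inner ℝ (v n) (v n) : ℝ) = 0 := by rw [h0, inner_zero_left]
    rw [hv] at h1
    simp only at h1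
    rw [L2.real_inner_indicatorConstLp_one_indicatorConstLp_one, inter_self] at h1
    have h2 : 0 < μ.real (S n) := by
      rw [measureReal_def]
      exact ENNReal.toReal_pos (hμ n) (hSf n)
    exact h2.ne' h1
  have hor : ∀ i j, i ≠ j → (inner ℝ (v i) (v j) : ℝ) = 0 := by
    intro i j hij
    rw [hv]
    simp only
    rw [L2.real_inner_indicatorConstLp_one_indicatorConstLp_one]
    have : S i ∩ S j = ∅ := by
      ext z
      simp only [hS, mem_inter_iff, mem_ofPred_eq, mem_empty_iff_false, iff_false, not_and, not_lt]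
      rintro ⟨h1, h2⟩ h3
      rcases lt_or_gt_of_ne hij with h | h
      · have : (i : ℝ) + 1 ≤ j := by exact_mod_cast h
        linarith
      · have : (j : ℝ) + 1 ≤ i := by exact_mod_cast h
        linarith
    rw [this]
    simp
  have hli : LinearIndependent ℝ v := linearIndependent_of_ne_zero_of_inner_eq_zero hne
    (fun i j hij => hor i j hij)
  have := hli.finite
  exact not_finite ℕ

variable {φ : ℂ → ℝ}

theorem mem_eig_of_isEigen {l : ℝ} {w : ℂ → ℝ} (h : IsEigen φ l w) :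
    h.1.toLp w ∈ eigenspace φ l := by
  intro ψ hψ
  obtain ⟨h1, h2, h3⟩ := h.2 ψ hψ
  have key := h.1.coeFn_toLp
  have e1 : (fun x => w x * lapG φ ψ x) =ᵐ[vol φ] fun x => (h.1.toLp w) x * lapG φ ψ x := by
    filter_upwards [key] with x hx
    rw [hx]
  have e2 : (fun x => w x * ψ x) =ᵐ[vol φ] fun x => (h.1.toLp w) x * ψ x := by
    filter_upwards [key] with x hx
    rw [hx]
  exact ⟨h1.congr e1, h2.congr e2, by
    rw [← integral_congr_ae e1, ← integral_congr_ae e2]; exact h3⟩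

theorem inner_toLp {f g : ℂ → ℝ} (hf : MemLp f 2 (vol φ)) (hg : MemLp g 2 (vol φ)) :
    (inner ℝ (hf.toLp f) (hg.toLp g) : ℝ) = ∫ x, f x * g x ∂(vol φ) := by
  rw [inner_Lp]
  refine integral_congr_ae ?_
  filter_upwards [hf.coeFn_toLp, hg.coeFn_toLp] with x h1 h2
  rw [h1, h2]

theorem hb_eq_zero {H : Type*} [NormedAddCommGroup H] [InnerProductSpace ℝ H] [CompleteSpace H]
    {ι : Type*} (b : HilbertBasis ι ℝ H) {v : H} (h : ∀ i, (inner ℝ (b i) v : ℝ) = 0) : v = 0 := by
  have h1 : b.repr v = 0 := by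
    ext i
    rw [b.repr_apply_apply, h i]
    rfl
  exact (LinearIsometryEquiv.map_eq_zero_iff b.repr).1 h1

/-- index type of the adapted basis -/
abbrev EIx (φ : ℂ → ℝ) : Type := Σ l : ℝ, Fin (Module.finrank ℝ (eigenspace φ l))

theorem exists_isSpectrum (hd : DiscreteSpectrum φ)
    (hμ : ∀ n : ℕ, vol φ {z : ℂ | (n : ℝ) < z.re ∧ z.re < n + 1} ≠ 0) :
    ∃ (lam : ℕ → ℝ) (u : ℕ → ℂ → ℝ), IsSpectrum φ lam u := by
  have hfm : IsFiniteMeasure (vol φ) := ⟨hd.area_fin⟩
  obtain ⟨b, hb⟩ : ∃ b : HilbertBasis (EIx φ) ℝ (Lp ℝ 2 (vol φ)), ∀ a, b a ∈ eigenspace φ a.1 :=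
    exists_adapted (eigenspace φ) hd.findim hd.orth hd.dense
  have hinf := infinite_index hμ b
  have hne : ∀ a : EIx φ, eigenspace φ a.1 ≠ ⊥ := by
    rintro ⟨l, j⟩ h0
    simp only at h0
    have h1 := j.isLt
    have h2 : Module.finrank ℝ (eigenspace φ l) = 0 := by
      rw [h0]
      exact finrank_bot ℝ _
    omega
  have hfin : ∀ B : ℝ, {a : EIx φ | a.1 ≤ B}.Finite := by
    intro B
    have h1 := hd.discrete B
    have h2 : {a : EIx φ | a.1 ≤ B} ⊆ ⋃ l ∈ {lam : ℝ | lam ≤ B ∧ eigenspace φ lam ≠ ⊥},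
        range (fun j : Fin (Module.finrank ℝ (eigenspace φ l)) => (⟨l, j⟩ : EIx φ)) := by
      rintro ⟨l, j⟩ ha
      simp only [mem_iUnion]
      exact ⟨l, ⟨ha, hne ⟨l, j⟩⟩, j, rfl⟩
    refine (Set.Finite.biUnion h1 fun l _ => finite_range _).subset h2
  have hcount : Countable (EIx φ) := by
    have h1 : (univ : Set (EIx φ)) = ⋃ n : ℕ, {a : EIx φ | a.1 ≤ n} := by
      ext a
      simp only [mem_univ, mem_iUnion, true_iff]
      exact exists_nat_ge a.1
    rw [← countable_univ_iff, h1]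
    exact countable_iUnion fun n => (hfin n).countable
  have hnn : ∀ a : EIx φ, 0 ≤ a.1 := by
    intro a
    by_contra h
    exact hne a (hd.neg _ (not_le.1 h))
  obtain ⟨e, he⟩ := exists_sort (fun a : EIx φ => a.1) hfin
  have hone : (Lp.const 2 (vol φ) (1 : ℝ)) ∈ eigenspace φ 0 :=
    (hd.zero _).2 ⟨1, Lp.coeFn_const 2 (vol φ) (1 : ℝ)⟩
  have hone0 : (Lp.const 2 (vol φ) (1 : ℝ)) ≠ 0 := by
    intro h0
    have h1 : (inner ℝ (Lp.const 2 (vol φ) (1 : ℝ)) (Lp.const 2 (vol φ) (1 : ℝ)) : ℝ) = 0 := by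
      rw [h0, inner_zero_left]
    rw [inner_Lp] at h1
    have h2 : ∫ x, (Lp.const 2 (vol φ) (1 : ℝ) : ℂ → ℝ) x * (Lp.const 2 (vol φ) (1 : ℝ) : ℂ → ℝ) x
        ∂(vol φ) = ∫ _, (1 : ℝ) ∂(vol φ) := by
      refine integral_congr_ae ?_
      filter_upwards [Lp.coeFn_const 2 (vol φ) (1 : ℝ)] with x hx
      rw [hx]
      simp
    rw [h2, integral_const, smul_eq_mul, mul_one] at h1
    have h3 : 0 < (vol φ).real univ := by
      rw [measureReal_def]
      exact ENNReal.toReal_pos hd.area_pos.ne' hd.area_fin.ne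
    exact h3.ne' h1
  have hex : ∃ a : EIx φ, a.1 = 0 := by
    by_contra hcon
    push Not at hcon
    refine hone0 (hb_eq_zero b fun a => ?_)
    exact (Submodule.isOrtho_iff_inner_eq.1 (hd.orth a.1 0 (hcon a))) _ (hb a) _ hone
  have huniq : ∀ a a' : EIx φ, a.1 = 0 → a'.1 = 0 → a = a' := by
    intro a a' h h'
    by_contra hne'
    have h1 := hb a
    have h1' := hb a'
    rw [h] at h1
    rw [h'] at h1'
    obtain ⟨c, hc⟩ := (hd.zero _).1 h1
    obtain ⟨c', hc'⟩ := (hd.zero _).1 h1'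
    have h2 : (inner ℝ (b a) (b a') : ℝ) = 0 := b.orthonormal.2 hne'
    have h3 : (inner ℝ (b a) (b a) : ℝ) = 1 := by
      rw [real_inner_self_eq_norm_sq, b.orthonormal.1 a]; norm_num
    have h3' : (inner ℝ (b a') (b a') : ℝ) = 1 := by
      rw [real_inner_self_eq_norm_sq, b.orthonormal.1 a']; norm_num
    rw [inner_Lp] at h2 h3 h3'
    have k2 : ∫ x, b a x * b a' x ∂(vol φ) = c * c' * (vol φ).real univ := by
      rw [integral_congr_ae (g := fun _ => c * c'), integral_const, smul_eq_mul, mul_comm]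
      filter_upwards [hc, hc'] with x e1 e2
      rw [e1, e2]
    have k3 : ∫ x, b a x * b a x ∂(vol φ) = c * c * (vol φ).real univ := by
      rw [integral_congr_ae (g := fun _ => c * c), integral_const, smul_eq_mul, mul_comm]
      filter_upwards [hc] with x e1
      rw [e1]
    have k3' : ∫ x, b a' x * b a' x ∂(vol φ) = c' * c' * (vol φ).real univ := by
      rw [integral_congr_ae (g := fun _ => c' * c'), integral_const, smul_eq_mul, mul_comm]
      filter_upwards [hc'] with x e1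
      rw [e1]
    rw [k2] at h2
    rw [k3] at h3
    rw [k3'] at h3'
    rcases mul_eq_zero.1 h2 with h4 | h4
    · rcases mul_eq_zero.1 h4 with h5 | h5
      · rw [h5] at h3; norm_num at h3
      · rw [h5] at h3'; norm_num at h3'
    · rw [h4] at h3; norm_num at h3
  refine ⟨fun n => (e n).1, fun n => ⇑(b (e n)), ?_⟩
  have h0 : (e 0).1 = 0 := by
    obtain ⟨a0, ha0⟩ := hex
    have h1 := he 0 (e.symm a0) (Nat.zero_le _)
    rw [e.apply_symm_apply] at h1
    exact le_antisymm (h1.trans ha0.le) (hnn _)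
  refine ⟨h0, ?_, fun m n hmn => he m n hmn, ?_, ?_, ?_, ?_⟩
  · refine lt_of_le_of_ne (hnn _) fun h1 => ?_
    have h2 := huniq (e 0) (e 1) h0 h1.symm
    have h3 := e.injective h2
    exact absurd h3 (by norm_num)
  · rw [tendsto_atTop]
    intro B
    have h1 : {n : ℕ | (e n).1 ≤ B}.Finite := (hfin B).preimage e.injective.injOn
    have h2 : ∀ᶠ n in cofinite, n ∉ {n : ℕ | (e n).1 ≤ B} := h1.compl_mem_cofinite
    rw [Nat.cofinite_eq_atTop] at h2
    filter_upwards [h2] with n hn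
    exact (not_le.1 hn).le
  · exact fun j => ⟨Lp.memLp _, hb (e j)⟩
  · intro i j
    have h1 := orthonormal_iff_ite.1 b.orthonormal (e i) (e j)
    rw [inner_Lp] at h1
    rw [h1]
    simp only [e.injective.eq_iff]
  · intro f hf hj
    have h1 : hf.toLp f = 0 := by
      refine hb_eq_zero b fun a => ?_
      rw [inner_Lp]
      have h2 := hj (e.symm a)
      rw [e.apply_symm_apply] at h2
      rw [← h2]
      refine integral_congr_ae ?_
      filter_upwards [hf.coeFn_toLp] with x hx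
      rw [hx, mul_comm]
    have h2 := hf.coeFn_toLp
    rw [h1] at h2
    filter_upwards [h2, Lp.coeFn_zero ℝ 2 (vol φ)] with x h3 h4
    rw [← h3, h4]
    rfl

theorem IsSpectrum.mult (hd : DiscreteSpectrum φ) {lam : ℕ → ℝ} {u : ℕ → ℂ → ℝ}
    (h : IsSpectrum φ lam u) (l : ℝ) :
    {j | lam j = l}.Finite ∧ Module.finrank ℝ (eigenspace φ l) = Nat.card {j // lam j = l} := by
  have hfinl : {j | lam j = l}.Finite := by
    have h1 := (tendsto_atTop.1 h.tendsto) (l + 1)
    rw [← Nat.cofinite_eq_atTop] at h1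
    refine Set.Finite.subset (eventually_cofinite.1 h1) fun j hj => ?_
    have h2 : lam j = l := hj
    simp only [mem_ofPred_eq, not_le]
    linarith
  refine ⟨hfinl, ?_⟩
  set v : ℕ → Lp ℝ 2 (vol φ) := fun j => (h.eigen j).1.toLp (u j) with hv
  have hvE : ∀ j, v j ∈ eigenspace φ (lam j) := fun j => mem_eig_of_isEigen (h.eigen j)
  have hon : Orthonormal ℝ v := by
    rw [orthonormal_iff_ite]
    intro i j
    rw [hv]
    simp only
    rw [inner_toLp, h.orthonormal]
  have hcomp : (Submodule.span ℝ (range v))ᗮ = ⊥ := by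
    rw [eq_bot_iff]
    intro w hw
    rw [Submodule.mem_bot]
    have h1 : ∀ j, ∫ x, w x * u j x ∂(vol φ) = 0 := by
      intro j
      have h2 : (inner ℝ (v j) w : ℝ) = 0 :=
        (Submodule.mem_orthogonal _ _).1 hw (v j) (Submodule.subset_span ⟨j, rfl⟩)
      rw [inner_Lp] at h2
      rw [← h2]
      refine integral_congr_ae ?_
      filter_upwards [(h.eigen j).1.coeFn_toLp] with x hx
      rw [hv]
      simp only
      rw [hx, mul_comm]
    have h3 := h.complete w (Lp.memLp w) h1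
    refine Lp.ext ?_
    filter_upwards [h3, Lp.coeFn_zero ℝ 2 (vol φ)] with x h4 h5
    rw [h4, h5]
    rfl
  set c := HilbertBasis.mkOfOrthogonalEqBot hon hcomp with hc
  have hcv : ∀ j, c j = v j := fun j => by rw [hc, HilbertBasis.coe_mkOfOrthogonalEqBot]
  have hft : Fintype {j // lam j = l} := hfinl.fintype
  have hspan : eigenspace φ l = Submodule.span ℝ (range fun j : {j // lam j = l} => v j) := by
    refine le_antisymm ?_ ?_
    · intro w hw
      have h1 := c.hasSum_repr w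
      have h2 : ∀ j, j ∉ hfinl.toFinset → c.repr w j • c j = 0 := by
        intro j hj
        have h3 : lam j ≠ l := fun h4 => hj (hfinl.mem_toFinset.2 h4)
        rw [c.repr_apply_apply, hcv]
        have h4 : (inner ℝ (v j) w : ℝ) = 0 :=
          (Submodule.isOrtho_iff_inner_eq.1 (hd.orth _ _ h3)) _ (hvE j) _ hw
        rw [h4, zero_smul]
      have h5 := h1.unique (hasSum_sum_of_ne_finset_zero h2)
      rw [h5]
      refine Submodule.sum_mem _ fun j hj => Submodule.smul_mem _ _ (Submodule.subset_span ?_)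
      exact ⟨⟨j, hfinl.mem_toFinset.1 hj⟩, (hcv j).symm⟩
    · rw [Submodule.span_le]
      rintro _ ⟨j, rfl⟩
      have := hvE j
      rw [j.2] at this
      exact this
  rw [hspan, finrank_span_eq_card, Nat.card_eq_fintype_card]
  exact (hon.comp _ Subtype.val_injective).linearIndependent

theorem isSpectrum_zeta (hd : DiscreteSpectrum φ) (hz : ZetaExtends φ) {lam : ℕ → ℝ}
    {u : ℕ → ℂ → ℝ} (h : IsSpectrum φ lam u) :
    (∀ (l : ℝ) (w : ℂ → ℝ), IsEigen φ l w → ∀ j, lam j ≠ l → ∫ x, w x * u j x ∂(vol φ) = 0) ∧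
      ZetaContinues lam := by
  constructor
  · intro l w hw j hj
    rw [← inner_toLp hw.1 (h.eigen j).1]
    exact (Submodule.isOrtho_iff_inner_eq.1 (hd.orth l (lam j) hj.symm)) _ (mem_eig_of_isEigen hw) _
      (mem_eig_of_isEigen (h.eigen j))
  -- positivity
  have hpos : ∀ j : ℕ, 0 < lam (j + 1) := fun j => h.pos.trans_le (h.mono (by omega))
  have hposi : ∀ j : ℕ, 0 < lam j → j ≠ 0 := by
    rintro j hj rfl
    rw [h.zero] at hj
    exact lt_irrefl _ hj
  let eqv : ℕ ≃ {j : ℕ // 0 < lam j} :=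
    ⟨fun j => ⟨j + 1, hpos j⟩, fun j => j.1 - 1, fun j => by simp,
      fun j => Subtype.ext (Nat.succ_pred_eq_of_ne_zero (hposi j.1 j.2))⟩
  set f : {j : ℕ // 0 < lam j} → {l : ℝ // 0 < l} := fun i => ⟨lam i, i.2⟩ with hf
  have hfib : ∀ l : {l : ℝ // 0 < l}, Finite {i // f i = l} := by
    intro l
    have := (h.mult hd l).1
    have hF : Finite {j : ℕ | lam j = (l : ℝ)} := this
    refine Finite.of_injective (fun i : {i // f i = l} =>
      (⟨((i : {i // 0 < lam i}) : ℕ), congrArg Subtype.val i.2⟩ : {j : ℕ | lam j = (l : ℝ)})) ?_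
    intro i j hij
    have h2 := congrArg Subtype.val hij
    exact Subtype.ext (Subtype.ext h2)
  have hcard : ∀ l : {l : ℝ // 0 < l}, Module.finrank ℝ (eigenspace φ l) =
      Nat.card {i // f i = l} := by
    intro l
    rw [(h.mult hd l).2]
    refine Nat.card_congr ?_
    refine ⟨fun i => ⟨⟨i.1, by rw [i.2]; exact l.2⟩, Subtype.ext i.2⟩,
      fun i => ⟨i.1.1, congrArg Subtype.val i.2⟩, fun i => rfl, fun i => rfl⟩
  have hval : ∀ (l : {l : ℝ // 0 < l}) (c : {i // f i = l}),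
      lam ((c : {i // 0 < lam i}) : ℕ) = (l : ℝ) := fun l c => congrArg Subtype.val c.2
  -- summability over the positive eigenvalues
  have hsum : ∀ s : ℂ, 1 < s.re →
      Summable fun i : {j : ℕ // 0 < lam j} => ((lam i : ℝ) : ℂ) ^ (-s) := by
    intro s hs
    refine Summable.of_norm ?_
    rw [← (Equiv.sigmaFiberEquiv f).summable_iff]
    show Summable (fun p : Σ l : {l : ℝ // 0 < l}, {i // f i = l} =>
      ‖((lam (p.2 : {i // 0 < lam i}) : ℝ) : ℂ) ^ (-s)‖)
    refine (summable_sigma_of_nonneg fun _ => norm_nonneg _).2 ⟨fun l => ?_, ?_⟩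
    · have := hfib l
      exact Summable.of_finite
    · have h1 := (hd.summable s hs).norm
      refine h1.congr fun l => ?_
      have := hfib l
      have hft : Fintype {i // f i = l} := Fintype.ofFinite _
      rw [tsum_fintype, norm_mul, Complex.norm_natCast, hcard l, Nat.card_eq_fintype_card]
      rw [Finset.sum_congr rfl fun c _ => by rw [hval l c], Finset.sum_const, nsmul_eq_mul]
      rfl
  have hseries : ∀ s : ℂ, 1 < s.re → zetaSeries lam s = specZeta φ s := by
    intro s hs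
    have h1 : zetaSeries lam s = ∑' i : {j : ℕ // 0 < lam j}, ((lam i : ℝ) : ℂ) ^ (-s) :=
      Equiv.tsum_eq eqv fun i : {j : ℕ // 0 < lam j} => ((lam i : ℝ) : ℂ) ^ (-s)
    have h2 : HasSum (fun p : Σ l : {l : ℝ // 0 < l}, {i // f i = l} =>
        ((lam (p.2 : {i // 0 < lam i}) : ℝ) : ℂ) ^ (-s))
        (∑' i : {j : ℕ // 0 < lam j}, ((lam i : ℝ) : ℂ) ^ (-s)) := by
      have := (Equiv.hasSum_iff (Equiv.sigmaFiberEquiv f)).2 (hsum s hs).hasSum
      exact this
    have h3 : HasSum (fun l : {l : ℝ // 0 < l} =>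
        (Module.finrank ℝ (eigenspace φ l) : ℂ) * ((l : ℝ) : ℂ) ^ (-s))
        (∑' i : {j : ℕ // 0 < lam j}, ((lam i : ℝ) : ℂ) ^ (-s)) := by
      refine h2.sigma fun l => ?_
      have := hfib l
      have hft : Fintype {i // f i = l} := Fintype.ofFinite _
      have h4 := hasSum_fintype
        (fun c : {i // f i = l} => ((lam (c : {i // 0 < lam i}) : ℝ) : ℂ) ^ (-s))
      have h5 : ∑ c : {i // f i = l}, ((lam (c : {i // 0 < lam i}) : ℝ) : ℂ) ^ (-s) =
          (Module.finrank ℝ (eigenspace φ l) : ℂ) * ((l : ℝ) : ℂ) ^ (-s) := by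
        rw [hcard l, Nat.card_eq_fintype_card]
        rw [Finset.sum_congr rfl fun c _ => by rw [hval l c], Finset.sum_const, nsmul_eq_mul]
        rfl
      rw [h5] at h4
      exact h4
    rw [h1, specZeta, h3.tsum_eq]
  refine ⟨fun s hs => ?_, ?_⟩
  · exact (eqv.summable_iff (f := fun i : {j : ℕ // 0 < lam j} => ((lam i : ℝ) : ℂ) ^ (-s))).2
      (hsum s hs)
  · obtain ⟨U, hU1, hU2, hU3, hU4, F, hF, hFe⟩ := hz
    exact ⟨U, hU1, hU2, hU3, hU4, F, hF, fun s hs => by rw [hFe s hs, hseries s hs]⟩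

theorem goodMetric_of (hd : DiscreteSpectrum φ) (hz : ZetaExtends φ)
    (hμ : ∀ n : ℕ, vol φ {z : ℂ | (n : ℝ) < z.re ∧ z.re < n + 1} ≠ 0) : GoodMetric φ :=
  ⟨hd.area_pos, hd.area_fin, exists_isSpectrum hd hμ, fun _ _ h => isSpectrum_zeta hd hz h⟩

theorem strip_ne_zero {φ₁ : ℂ → ℝ} (hg : IsGrow φ₁) (h : φ₁ =ᵐ[volume] φ) (n : ℕ) :
    vol φ {z : ℂ | (n : ℝ) < z.re ∧ z.re < n + 1} ≠ 0 := by
  have hvol : vol φ = vol φ₁ := by
    unfold vol
    refine withDensity_congr_ae ?_
    filter_upwards [h] with x hx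
    rw [hx]
  rw [hvol]
  intro h0
  have h1 := hg.ac h0
  have h2 : IsOpen {z : ℂ | (n : ℝ) < z.re ∧ z.re < n + 1} :=
    (isOpen_lt continuous_const Complex.continuous_re).inter
      (isOpen_lt Complex.continuous_re continuous_const)
  have h3 : {z : ℂ | (n : ℝ) < z.re ∧ z.re < n + 1}.Nonempty :=
    ⟨((n : ℝ) + 1 / 2 : ℝ), by
      constructor
      · rw [Complex.ofReal_re]; linarith
      · rw [Complex.ofReal_re]; linarith⟩
  exact (h2.measure_pos volume h3).ne' h1

theorem final_good {σ₀ : ℂ → ℝ} (hσ : BaseMetric σ₀) (P : Finset Dy) (c : Dy → ℝ) (c₁ Q K : ℝ)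
    (hQ : 0 < Q) {φ h : ℂ → ℝ} (hh : h =ᵐ[volume] fun x => ∑ S ∈ P, c S * PhiS σ₀ S x + c₁)
    (hφ : ∀ x, φ x = σ₀ x + h x / Q + K) : GoodMetric φ := by
  set β : Dy → ℝ := fun S => c S / Q with hβ
  set β₀ : ℝ := 1 - ∑ S ∈ P, β S * (S.side ^ 2 / (4 * π)) with hβ₀
  set β₁ : ℝ := c₁ / Q + K with hβ₁
  obtain ⟨φ', a, a', D, D', hM⟩ := isMet_of_squares hσ.1 P β β₀ β₁ (by rw [hβ₀]; ring)
  have hz := isMet_zeta hM
  have heq : (fun x => β₀ * σ₀ x + ∑ S ∈ P, β S * LamS S x + β₁) =ᵐ[volume] φ := by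
    filter_upwards [hh] with x hx
    rw [hφ x, hx]
    simp only [PhiS, hβ₀, hβ₁, hβ]
    have e1 : ∑ S ∈ P, c S * (LamS S x - S.side ^ 2 / (4 * π) * σ₀ x) =
        ∑ S ∈ P, c S * LamS S x - (∑ S ∈ P, c S * (S.side ^ 2 / (4 * π))) * σ₀ x := by
      rw [Finset.sum_mul, ← Finset.sum_sub_distrib]
      refine Finset.sum_congr rfl fun S _ => ?_
      ring
    have e2 : ∑ S ∈ P, c S / Q * (S.side ^ 2 / (4 * π)) =
        (∑ S ∈ P, c S * (S.side ^ 2 / (4 * π))) / Q := by
      rw [Finset.sum_div]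
      refine Finset.sum_congr rfl fun S _ => ?_
      ring
    have e3 : ∑ S ∈ P, c S / Q * LamS S x = (∑ S ∈ P, c S * LamS S x) / Q := by
      rw [Finset.sum_div]
      refine Finset.sum_congr rfl fun S _ => ?_
      ring
    rw [e1, e2, e3]
    field_simp
    ring
  have hc := discreteSpectrum_congr heq
  exact goodMetric_of (hc.1 hz.1) (hc.2 hz.2) (strip_ne_zero hM.c0.toIsGrow heq)

theorem main_answer {σ₀ : ℂ → ℝ} (hσ : BaseMetric σ₀) {Q ε : ℝ} (hQ : 0 < Q) (hε : 0 < ε)
    {a : Dy → ℝ} (ha : Consistent a) (hf : (Peps Q ε a).Finite) : Answer σ₀ Q ε a := by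
  have hp := peps_partition hQ hε ha hf
  have hd : ((hf.toFinset : Finset Dy) : Set Dy).Pairwise
      fun S T => Disjoint (interior S.set) (interior T.set) := by
    rw [hf.coe_toFinset]; exact hp.2
  obtain ⟨c, c₁, hHP, huniq⟩ := hp_rep hσ hf.toFinset hd a
  rw [hf.coe_toFinset] at hHP huniq
  refine ⟨hp, ⟨_, hHP, huniq⟩, fun h hh => ?_⟩
  exact final_good hσ hf.toFinset c c₁ Q _ hQ (huniq h hh) (fun x => rfl)

theorem main_gff_answer {σ₀ : ℂ → ℝ} (hσ : BaseMetric σ₀) {Q ε : ℝ} (hQ : 0 < Q) (hε : 0 < ε)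
    {W : Type*} [MeasurableSpace W] {P : Measure W} [IsProbabilityMeasure P]
    {X : (ℂ → ℝ) → W → ℝ} (hX : IsGFF σ₀ X P) :
    ∀ᵐ o ∂P, (Peps Q ε (fieldAvg X o)).Finite → Answer σ₀ Q ε (fieldAvg X o) := by
  filter_upwards [gff_consistent hσ hX] with o ho hf
  exact main_answer hσ hQ hε ho hf

end

end LQZ
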