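import Pool.Agent.LQZ.AbsTrace
import Pool.Agent.LQZ.Spec
import Pool.Agent.LQZ.KerNorm
import Pool.Agent.LQZ.WeakKer
import Pool.Agent.LQZ.IntOp
import Pool.Agent.LQZ.Met
import Pool.Agent.LQZ.Sphere

/-! # Project LQZ, module TR: first step of the trace asymptotics -/

open MeasureTheory Set Filter Topology InnerProductSpace
open scoped ContDiff ENNReal NNReal Real

namespace LQZ

noncomputable section

variable {ψ φ φ' : ℂ → ℝ} {a a' : ℂ → ℂ} {D D' : ℂ → ℝ}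

/-- pairing of an integral operator with a bounded function: Fubini -/
theorem tr_fubini {φ : ℂ → ℝ} [IsFiniteMeasure (vol φ)] {K : ℂ → ℂ → ℝ}
    (hK : MemLp (Function.uncurry K) 2 ((vol φ).prod (vol φ)))
    {T : Lp ℝ 2 (vol φ) →L[ℝ] Lp ℝ 2 (vol φ)} (hT : IsKerOp (vol φ) K T) (f : Lp ℝ 2 (vol φ))
    {w : ℂ → ℝ} (hw : Continuous w) (hwb : ∃ C : ℝ, ∀ x, |w x| ≤ C) :
    Integrable (fun x => (T f : ℂ → ℝ) x * w x) (vol φ) ∧
    Integrable (fun y => f y * ∫ x, K x y * w x ∂(vol φ)) (vol φ) ∧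
    ∫ x, (T f : ℂ → ℝ) x * w x ∂(vol φ) = ∫ y, f y * ∫ x, K x y * w x ∂(vol φ) ∂(vol φ) := by
  obtain ⟨C, hC⟩ := hwb
  have hf : MemLp (fun p : ℂ × ℂ => f p.2) 2 ((vol φ).prod (vol φ)) := by
    have := (Lp.memLp f)
    exact this.comp_snd (vol φ)
  have hKf : Integrable (fun p : ℂ × ℂ => K p.1 p.2 * f p.2) ((vol φ).prod (vol φ)) :=
    MemLp.integrable_mul hK hf
  have hKfw : Integrable (fun p : ℂ × ℂ => K p.1 p.2 * f p.2 * w p.1) ((vol φ).prod (vol φ)) := by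
    refine hKf.mul_bdd (c := C) ?_ ?_
    · exact (hw.comp continuous_fst).aestronglyMeasurable
    · exact Eventually.of_forall fun p => by rw [Real.norm_eq_abs]; exact hC p.1
  have e1 : (fun x => (T f : ℂ → ℝ) x * w x) =ᵐ[vol φ]
      fun x => ∫ y, K x y * f y * w x ∂(vol φ) := by
    filter_upwards [hT f] with x hx
    rw [hx, integral_mul_const]
  have e2 : (fun y => f y * ∫ x, K x y * w x ∂(vol φ)) =
      fun y => ∫ x, K x y * f y * w x ∂(vol φ) := by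
    ext y
    rw [← integral_const_mul]
    congr 1
    ext x; ring
  refine ⟨?_, ?_, ?_⟩
  · rw [integrable_congr e1]
    exact hKfw.integral_prod_left
  · rw [e2]
    exact hKfw.integral_prod_right
  · rw [integral_congr_ae e1, e2]
    exact integral_integral_swap hKfw

theorem tr_ne_zero (φ : ℂ → ℝ) : ∀ᵐ y ∂(vol φ), y ≠ 0 := by
  have h : ∀ᵐ y : ℂ, y ≠ 0 := by
    rw [ae_iff]
    simp
  exact (vol_ac φ).ae_le h

/-- the parametrix equation in operator form -/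
theorem tr_P (hM : IsMet φ φ' a a' D D') [IsFiniteMeasure (vol φ)] {z : ℝ} (hz : 1 ≤ z)
    (hP : MemLp (Function.uncurry (PK φ a z)) 2 ((vol φ).prod (vol φ)))
    (hE : MemLp (Function.uncurry (EK φ a z)) 2 ((vol φ).prod (vol φ)))
    {TP TE : Lp ℝ 2 (vol φ) →L[ℝ] Lp ℝ 2 (vol φ)} (hTP : IsKerOp (vol φ) (PK φ a z) TP)
    (hTE : IsKerOp (vol φ) (EK φ a z) TE) (f : Lp ℝ 2 (vol φ)) :
    WeakEq φ (TP f) (f + TE f - z • TP f : Lp ℝ 2 (vol φ)) := by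
  have hg : IsGrow φ := hM.c0.toIsGrow
  intro ψ hψ
  have hψc : Continuous ψ := hψ.1.continuous
  obtain ⟨Cψ, -, hCψ⟩ := hψ.bdd
  obtain ⟨CL, -, hCL⟩ := hg.lapG_bdd hψ
  have hLc : Continuous (lapG φ ψ) := hg.lapG_meas hψ
  have k1 := tr_fubini hP hTP f hLc ⟨CL, hCL⟩
  have k2 := tr_fubini hP hTP f hψc ⟨Cψ, hCψ⟩
  have k3 := tr_fubini hE hTE f hψc ⟨Cψ, hCψ⟩
  have k4 := tr_fubini hP hTP f (w := fun x => lapG φ ψ x + z * ψ x)
    (hLc.add (continuous_const.mul hψc)) ⟨CL + |z| * Cψ, fun x => by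
      calc |lapG φ ψ x + z * ψ x| ≤ |lapG φ ψ x| + |z * ψ x| := abs_add_le _ _
        _ ≤ CL + |z| * Cψ := by
          rw [abs_mul]
          exact add_le_add (hCL x) (mul_le_mul_of_nonneg_left (hCψ x) (abs_nonneg z))⟩
  have hfψ : Integrable (fun y => (f : ℂ → ℝ) y * ψ y) (vol φ) := by
    have hf1 : Integrable (f : ℂ → ℝ) (vol φ) := (Lp.memLp f).integrable (by norm_num)
    exact hf1.mul_bdd (c := Cψ) hψc.aestronglyMeasurable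
      (Eventually.of_forall fun p => by rw [Real.norm_eq_abs]; exact hCψ p)
  have hmain : ∫ x, (TP f : ℂ → ℝ) x * (lapG φ ψ x + z * ψ x) ∂(vol φ) =
      ∫ y, (f : ℂ → ℝ) y * ψ y ∂(vol φ) + ∫ x, (TE f : ℂ → ℝ) x * ψ x ∂(vol φ) := by
    rw [k4.2.2, k3.2.2, ← integral_add hfψ k3.2.1]
    refine integral_congr_ae ?_
    filter_upwards [tr_ne_zero φ] with y hy
    rw [weak_P hM hψ hz hy]
    ring
  have hsplit : ∫ x, (TP f : ℂ → ℝ) x * (lapG φ ψ x + z * ψ x) ∂(vol φ) =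
      ∫ x, (TP f : ℂ → ℝ) x * lapG φ ψ x ∂(vol φ) +
        z * ∫ x, (TP f : ℂ → ℝ) x * ψ x ∂(vol φ) := by
    rw [← integral_const_mul, ← integral_add k1.1 (k2.1.const_mul z)]
    congr 1
    ext x; ring
  have hcoe : (fun x => ((f + TE f - z • TP f : Lp ℝ 2 (vol φ)) : ℂ → ℝ) x * ψ x) =ᵐ[vol φ]
      fun x => ((f : ℂ → ℝ) x * ψ x + (TE f : ℂ → ℝ) x * ψ x) -
        z * ((TP f : ℂ → ℝ) x * ψ x) := by
    filter_upwards [Lp.coeFn_sub (f + TE f) (z • TP f), Lp.coeFn_add f (TE f),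
      Lp.coeFn_smul z (TP f)] with x h1 h2 h3
    rw [h1, Pi.sub_apply, h2, Pi.add_apply, h3, Pi.smul_apply, smul_eq_mul]
    ring
  have hadd : Integrable (fun x => (f : ℂ → ℝ) x * ψ x + (TE f : ℂ → ℝ) x * ψ x) (vol φ) :=
    hfψ.add k3.1
  rw [integral_congr_ae hcoe, integral_sub hadd (k2.1.const_mul z),
    integral_add hfψ k3.1, integral_const_mul, ← hmain, hsplit]
  ring

theorem tr_M (hM : IsMet φ φ' a a' D D') [IsFiniteMeasure (vol φ)] {z : ℝ} (hz : 1 ≤ z)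
    (hP : MemLp (Function.uncurry (PK φ a z)) 2 ((vol φ).prod (vol φ)))
    (hMM : MemLp (Function.uncurry (MK φ a z)) 2 ((vol φ).prod (vol φ)))
    (hE : MemLp (Function.uncurry (E2K φ a z)) 2 ((vol φ).prod (vol φ)))
    {TP TM TE : Lp ℝ 2 (vol φ) →L[ℝ] Lp ℝ 2 (vol φ)} (hTP : IsKerOp (vol φ) (PK φ a z) TP)
    (hTM : IsKerOp (vol φ) (MK φ a z) TM)
    (hTE : IsKerOp (vol φ) (E2K φ a z) TE) (f : Lp ℝ 2 (vol φ)) :
    WeakEq φ (TM f) (TP f + TE f - z • TM f : Lp ℝ 2 (vol φ)) := by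
  have hg : IsGrow φ := hM.c0.toIsGrow
  intro ψ hψ
  have hψc : Continuous ψ := hψ.1.continuous
  obtain ⟨Cψ, -, hCψ⟩ := hψ.bdd
  obtain ⟨CL, -, hCL⟩ := hg.lapG_bdd hψ
  have hLc : Continuous (lapG φ ψ) := hg.lapG_meas hψ
  have k1 := tr_fubini hMM hTM f hLc ⟨CL, hCL⟩
  have k2 := tr_fubini hMM hTM f hψc ⟨Cψ, hCψ⟩
  have k3 := tr_fubini hE hTE f hψc ⟨Cψ, hCψ⟩
  have k5 := tr_fubini hP hTP f hψc ⟨Cψ, hCψ⟩
  have k4 := tr_fubini hMM hTM f (w := fun x => lapG φ ψ x + z * ψ x)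
    (hLc.add (continuous_const.mul hψc)) ⟨CL + |z| * Cψ, fun x => by
      calc |lapG φ ψ x + z * ψ x| ≤ |lapG φ ψ x| + |z * ψ x| := abs_add_le _ _
        _ ≤ CL + |z| * Cψ := by
          rw [abs_mul]
          exact add_le_add (hCL x) (mul_le_mul_of_nonneg_left (hCψ x) (abs_nonneg z))⟩
  have hmain : ∫ x, (TM f : ℂ → ℝ) x * (lapG φ ψ x + z * ψ x) ∂(vol φ) =
      ∫ x, (TP f : ℂ → ℝ) x * ψ x ∂(vol φ) + ∫ x, (TE f : ℂ → ℝ) x * ψ x ∂(vol φ) := by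
    rw [k4.2.2, k3.2.2, k5.2.2, ← integral_add k5.2.1 k3.2.1]
    refine integral_congr_ae ?_
    filter_upwards [tr_ne_zero φ] with y hy
    rw [weak_M hM hψ hz hy]
    ring
  have hsplit : ∫ x, (TM f : ℂ → ℝ) x * (lapG φ ψ x + z * ψ x) ∂(vol φ) =
      ∫ x, (TM f : ℂ → ℝ) x * lapG φ ψ x ∂(vol φ) +
        z * ∫ x, (TM f : ℂ → ℝ) x * ψ x ∂(vol φ) := by
    rw [← integral_const_mul, ← integral_add k1.1 (k2.1.const_mul z)]
    congr 1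
    ext x; ring
  have hcoe : (fun x => ((TP f + TE f - z • TM f : Lp ℝ 2 (vol φ)) : ℂ → ℝ) x * ψ x) =ᵐ[vol φ]
      fun x => ((TP f : ℂ → ℝ) x * ψ x + (TE f : ℂ → ℝ) x * ψ x) -
        z * ((TM f : ℂ → ℝ) x * ψ x) := by
    filter_upwards [Lp.coeFn_sub (TP f + TE f) (z • TM f), Lp.coeFn_add (TP f) (TE f),
      Lp.coeFn_smul z (TM f)] with x h1 h2 h3
    rw [h1, Pi.sub_apply, h2, Pi.add_apply, h3, Pi.smul_apply, smul_eq_mul]
    ring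
  have hadd : Integrable (fun x => (TP f : ℂ → ℝ) x * ψ x + (TE f : ℂ → ℝ) x * ψ x) (vol φ) :=
    k5.1.add k3.1
  rw [integral_congr_ae hcoe, integral_sub hadd (k2.1.const_mul z),
    integral_add k5.1 k3.1, integral_const_mul, ← hmain, hsplit]
  ring

theorem tr_num {C z : ℝ} (hC : 0 < C) (hz : 1 ≤ z) :
    z⁻¹ ^ 2 * √(C * z ^ (-(1 / 2) : ℝ)) ^ 2 +
      2 * (z⁻¹ * √(C * z ^ (-1 : ℝ)) * (C * z ^ (-(3 / 4) : ℝ)) * √(C * z ^ (-(1 / 2) : ℝ)) +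
        √(C * z ^ (-3 : ℝ)) * (C * z ^ (-(3 / 4) : ℝ)) * √(C * z ^ (-(1 / 2) : ℝ)) +
        z⁻¹ * √(C * z ^ (-(5 / 2) : ℝ)) * √(C * z ^ (-(1 / 2) : ℝ)) *
          (1 + C * z ^ (-(3 / 4) : ℝ))) ≤
      (C + 2 * (C * C + C * C + C * (1 + C))) * z ^ (-(5 / 2) : ℝ) := by
  have hz0 : 0 < z := by linarith
  have hsq : ∀ e : ℝ, √(C * z ^ e) = √C * z ^ (e / 2) := by
    intro e
    rw [Real.sqrt_mul hC.le, Real.sqrt_eq_rpow (z ^ e), ← Real.rpow_mul hz0.le]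
    congr 2; ring
  have hCC : √C * √C = C := Real.mul_self_sqrt hC.le
  have hzi : z⁻¹ = z ^ (-1 : ℝ) := (Real.rpow_neg_one z).symm
  have hmul : ∀ e e' : ℝ, z ^ e * z ^ e' = z ^ (e + e') := fun e e' =>
    (Real.rpow_add hz0 e e').symm
  have t0 : z⁻¹ ^ 2 * √(C * z ^ (-(1 / 2) : ℝ)) ^ 2 = C * z ^ (-(5 / 2) : ℝ) := by
    rw [Real.sq_sqrt (by positivity), hzi, pow_two, hmul]
    calc z ^ (-1 + -1 : ℝ) * (C * z ^ (-(1 / 2) : ℝ)) =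
          C * (z ^ (-1 + -1 : ℝ) * z ^ (-(1 / 2) : ℝ)) := by ring
      _ = C * z ^ (-(5 / 2) : ℝ) := by rw [hmul]; norm_num
  have t1 : z⁻¹ * √(C * z ^ (-1 : ℝ)) * (C * z ^ (-(3 / 4) : ℝ)) * √(C * z ^ (-(1 / 2) : ℝ)) =
      C * C * z ^ (-(5 / 2) : ℝ) := by
    rw [hsq, hsq, hzi]
    calc z ^ (-1 : ℝ) * (√C * z ^ (-1 / 2 : ℝ)) * (C * z ^ (-(3 / 4) : ℝ)) *
          (√C * z ^ (-(1 / 2) / 2 : ℝ)) = (√C * √C) * C * (z ^ (-1 : ℝ) * z ^ (-1 / 2 : ℝ) *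
            z ^ (-(3 / 4) : ℝ) * z ^ (-(1 / 2) / 2 : ℝ)) := by ring
      _ = C * C * z ^ (-(5 / 2) : ℝ) := by rw [hCC, hmul, hmul, hmul]; norm_num
  have t2 : √(C * z ^ (-3 : ℝ)) * (C * z ^ (-(3 / 4) : ℝ)) * √(C * z ^ (-(1 / 2) : ℝ)) =
      C * C * z ^ (-(5 / 2) : ℝ) := by
    rw [hsq, hsq]
    calc √C * z ^ (-3 / 2 : ℝ) * (C * z ^ (-(3 / 4) : ℝ)) * (√C * z ^ (-(1 / 2) / 2 : ℝ)) =
          (√C * √C) * C * (z ^ (-3 / 2 : ℝ) * z ^ (-(3 / 4) : ℝ) * z ^ (-(1 / 2) / 2 : ℝ)) := by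
            ring
      _ = C * C * z ^ (-(5 / 2) : ℝ) := by rw [hCC, hmul, hmul]; norm_num
  have t3 : z⁻¹ * √(C * z ^ (-(5 / 2) : ℝ)) * √(C * z ^ (-(1 / 2) : ℝ)) =
      C * z ^ (-(5 / 2) : ℝ) := by
    rw [hsq, hsq, hzi]
    calc z ^ (-1 : ℝ) * (√C * z ^ (-(5 / 2) / 2 : ℝ)) * (√C * z ^ (-(1 / 2) / 2 : ℝ)) =
          (√C * √C) * (z ^ (-1 : ℝ) * z ^ (-(5 / 2) / 2 : ℝ) * z ^ (-(1 / 2) / 2 : ℝ)) := by ring
      _ = C * z ^ (-(5 / 2) : ℝ) := by rw [hCC, hmul, hmul]; norm_num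
  have hle : z ^ (-(3 / 4) : ℝ) ≤ 1 := Real.rpow_le_one_of_one_le_of_nonpos hz (by norm_num)
  rw [t0, t1, t2, t3]
  have hp : 0 < z ^ (-(5 / 2) : ℝ) := by positivity
  have : C * z ^ (-(5 / 2) : ℝ) * (1 + C * z ^ (-(3 / 4) : ℝ)) ≤
      C * z ^ (-(5 / 2) : ℝ) * (1 + C) := by
    refine mul_le_mul_of_nonneg_left ?_ (by positivity)
    nlinarith
  nlinarith

theorem trace_step (hM : IsMet φ φ' a a' D D') {ι : Type} [Countable ι]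
    (b : HilbertBasis ι ℝ (Lp ℝ 2 (vol φ))) (lam : ι → ℝ) (hs : IsSpec φ b lam) :
    ∃ C : ℝ, ∀ z : ℝ, 1 ≤ z → Summable (fun i => 1 / (lam i + z) ^ 2) ∧
      |∑' i, 1 / (lam i + z) ^ 2 -
        (∫ x, ∫ y, PK φ a z x y ^ 2 ∂(vol φ) ∂(vol φ) -
          2 * ∫ x, ∫ y, MK φ a z x y * EK φ a z x y ∂(vol φ) ∂(vol φ))| ≤
        C * z ^ (-(5 / 2) : ℝ) := by
  have hg : IsGrow φ := hM.c0.toIsGrow
  have : IsFiniteMeasure (vol φ) := hg.finite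
  obtain ⟨C, hC0, hC⟩ := ker_norms hM
  refine ⟨C + 2 * (C * C + C * C + C * (1 + C)), fun z hz => ?_⟩
  have hz0 : 0 < z := by linarith
  obtain ⟨⟨hP, hP'⟩, ⟨hE, hE'⟩, ⟨hMM, hMM'⟩, ⟨hE2, hE2'⟩, hs1, hs2⟩ := hC z hz
  obtain ⟨TP, hTP⟩ := exists_kerOp hP
  obtain ⟨TE, hTE⟩ := exists_kerOp hE
  obtain ⟨TM, hTM⟩ := exists_kerOp hMM
  obtain ⟨TE2, hTE2⟩ := exists_kerOp hE2
  have hsq : ∀ {K : ℂ → ℂ → ℝ} (hK : MemLp (Function.uncurry K) 2 ((vol φ).prod (vol φ)))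
      {T : Lp ℝ 2 (vol φ) →L[ℝ] Lp ℝ 2 (vol φ)} (hT : IsKerOp (vol φ) K T),
      HasSum (fun i => ‖T (b i)‖ ^ 2) (∫ x, ∫ y, K x y ^ 2 ∂(vol φ) ∂(vol φ)) := by
    intro K hK T hT
    have h := kerOp_hasSum b hK hK hT hT
    have e1 : (fun i => (inner ℝ (T (b i)) (T (b i)) : ℝ)) = fun i => ‖T (b i)‖ ^ 2 := by
      ext i; rw [real_inner_self_eq_norm_sq]
    have e2 : (∫ x, ∫ y, K x y * K x y ∂(vol φ) ∂(vol φ)) =
        ∫ x, ∫ y, K x y ^ 2 ∂(vol φ) ∂(vol φ) := by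
      congr 1; ext x; congr 1; ext y; ring
    rw [e1, e2] at h
    exact h
  have sumP := hsq hP hTP
  have sumE := hsq hE hTE
  have sumM := hsq hMM hTM
  have sumE2 := hsq hE2 hTE2
  have hME := (kerOp_hasSum b hMM hE hTM hTE).tsum_eq
  have hopE : ‖TE‖ ≤ C * z ^ (-(3 / 4) : ℝ) := by
    refine kerOp_norm_le (EK_meas hM z) hTE (by positivity) ?_ ?_
    · filter_upwards [tr_ne_zero φ] with x hx
      exact hs1 x hx
    · filter_upwards [tr_ne_zero φ] with y hy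
      exact hs2 y hy
  have hrpow : ∀ e : ℝ, (√(C * z ^ e)) ^ 2 = C * z ^ e := fun e =>
    Real.sq_sqrt (by positivity)
  have key := abs_trace b lam hs.nonneg hz0 TP TE TM TE2 ?_ ?_
    (Real.sqrt_nonneg (C * z ^ (-1 : ℝ))) (Real.sqrt_nonneg (C * z ^ (-(1 / 2) : ℝ)))
    (Real.sqrt_nonneg (C * z ^ (-3 : ℝ))) (Real.sqrt_nonneg (C * z ^ (-(5 / 2) : ℝ))) hopE
    sumP.summable ?_ sumE.summable ?_ sumM.summable ?_ sumE2.summable ?_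
  · refine ⟨key.1, ?_⟩
    have h2 := key.2
    rw [sumP.tsum_eq, hME] at h2
    exact h2.trans (tr_num hC0 hz)
  · intro f i
    have h := hs.pair _ _ (tr_P hM hz hP hE hTP hTE f) i
    rw [inner_sub_left, inner_smul_left] at h
    simp only [conj_trivial] at h
    rw [add_mul, ← h]; ring
  · intro f i
    have h := hs.pair _ _ (tr_M hM hz hP hMM hE2 hTP hTM hTE2 f) i
    rw [inner_sub_left, inner_smul_left] at h
    simp only [conj_trivial] at h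
    rw [add_mul, ← h]; ring
  · rw [sumP.tsum_eq, hrpow]
    rw [Real.rpow_neg_one]; exact hP'
  · rw [sumE.tsum_eq, hrpow]; exact hE'
  · rw [sumM.tsum_eq, hrpow]; exact hMM'
  · rw [sumE2.tsum_eq, hrpow]; exact hE2'

end

end LQZ
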