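import Pool.Agent.LQZ.Sphere
import Pool.Agent.LQZ.IBP
import Pool.Agent.LQZ.Met
import Pool.Agent.LQZ.Liouville

/-!
# Project LQZ, module WGR: weak gradients tested against smooth functions on the sphere
-/

open MeasureTheory Set Filter Topology InnerProductSpace
open scoped ContDiff ENNReal NNReal Real

namespace LQZ

noncomputable section

variable {ψ χ f g η φ φ' : ℂ → ℝ}

/-- the basic bump -/
def wgrB : ContDiffBump (0 : ℂ) := ⟨1, 2, one_pos, one_lt_two⟩

/-- the cut-off at radius `1 / r` -/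
def wgrC (r : ℝ) (x : ℂ) : ℝ := wgrB (r • x)

theorem wgrC_contDiff (r : ℝ) : ContDiff ℝ ∞ (wgrC r) :=
  wgrB.contDiff.comp (contDiff_const_smul r)

theorem wgrC_one {r : ℝ} (hr : 0 < r) {x : ℂ} (hx : r * ‖x‖ ≤ 1) : wgrC r x = 1 := by
  refine wgrB.one_of_mem_closedBall ?_
  rw [mem_closedBall_zero_iff, norm_smul, Real.norm_eq_abs, abs_of_pos hr]
  exact hx

theorem wgrC_zero {r : ℝ} (hr : 0 < r) {x : ℂ} (hx : 2 ≤ r * ‖x‖) : wgrC r x = 0 := by
  refine wgrB.zero_of_le_dist ?_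
  rw [dist_zero_right, norm_smul, Real.norm_eq_abs, abs_of_pos hr]
  exact hx

theorem wgrC_nonneg (r : ℝ) (x : ℂ) : 0 ≤ wgrC r x := wgrB.nonneg

theorem wgrC_le_one (r : ℝ) (x : ℂ) : wgrC r x ≤ 1 := wgrB.le_one

theorem wgrC_compact {r : ℝ} (hr : 0 < r) : HasCompactSupport (wgrC r) := by
  refine HasCompactSupport.of_support_subset_isCompact (isCompact_closedBall (0 : ℂ) (2 / r)) ?_
  intro x hx
  rw [mem_closedBall_zero_iff]
  by_contra hcon
  push Not at hcon
  refine hx (wgrC_zero hr ?_)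
  rw [div_lt_iff₀ hr] at hcon
  linarith

theorem wgrC_fderiv (r : ℝ) (x v : ℂ) : fderiv ℝ (wgrC r) x v = r * fderiv ℝ wgrB (r • x) v := by
  have h1 : HasFDerivAt (fun y : ℂ => r • y) (r • ContinuousLinearMap.id ℝ ℂ) x :=
    (hasFDerivAt_id x).const_smul r
  have h2 : HasFDerivAt (wgrB : ℂ → ℝ) (fderiv ℝ wgrB (r • x)) (r • x) :=
    (wgrB.contDiffAt (n := 1)).differentiableAt (by norm_num) |>.hasFDerivAt
  have h3 := (h2.comp x h1).fderiv
  change fderiv ℝ ((wgrB : ℂ → ℝ) ∘ fun y => r • y) x v = _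
  rw [h3]
  simp

theorem wgrC_bound : ∃ M : ℝ, 0 ≤ M ∧ ∀ r : ℝ, 0 < r → ∀ v : ℂ, v = 1 ∨ v = Complex.I →
    ∀ x : ℂ, |fderiv ℝ (wgrC r) x v| ≤ M * r := by
  have hc : HasCompactSupport (fderiv ℝ (wgrB : ℂ → ℝ)) := wgrB.hasCompactSupport.fderiv ℝ
  have hcont : Continuous (fderiv ℝ (wgrB : ℂ → ℝ)) := wgrB.contDiff.continuous_fderiv (n := 1)
    (by norm_num)
  obtain ⟨M, hM⟩ := hc.exists_bound_of_continuous hcont
  refine ⟨M, (norm_nonneg _).trans (hM 0), ?_⟩
  intro r hr v hv x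
  rw [wgrC_fderiv, abs_mul, abs_of_pos hr, mul_comm]
  refine mul_le_mul_of_nonneg_right ?_ hr.le
  have h1 : ‖v‖ = 1 := by rcases hv with h | h <;> simp [h]
  have h2 := (fderiv ℝ (wgrB : ℂ → ℝ) (r • x)).le_opNorm v
  rw [h1, mul_one] at h2
  exact h2.trans (hM _)

theorem wgrC_fderiv_zero {r : ℝ} (hr : 0 < r) {x : ℂ} (hx : r * ‖x‖ < 1 ∨ 2 < r * ‖x‖) (v : ℂ) :
    fderiv ℝ (wgrC r) x v = 0 := by
  have hcont : Continuous fun y : ℂ => r * ‖y‖ := by fun_prop
  rcases hx with hx | hx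
  · have h1 : wgrC r =ᶠ[𝓝 x] fun _ => 1 := by
      filter_upwards [hcont.continuousAt.eventually_lt continuousAt_const hx] with y hy
      exact wgrC_one hr hy.le
    rw [h1.fderiv_eq]
    simp
  · have h1 : wgrC r =ᶠ[𝓝 x] fun _ => 0 := by
      filter_upwards [continuousAt_const.eventually_lt hcont.continuousAt hx] with y hy
      exact wgrC_zero hr hy.le
    rw [h1.fderiv_eq]
    simp

/-- `r_n = 1 / (n + 1)` -/
def wgrR (n : ℕ) : ℝ := 1 / ((n : ℝ) + 1)

theorem wgrR_pos (n : ℕ) : 0 < wgrR n := by unfold wgrR; positivity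

theorem wgrR_le (n : ℕ) : wgrR n ≤ 1 := by
  unfold wgrR
  rw [div_le_one (by positivity)]
  have : (0 : ℝ) ≤ n := Nat.cast_nonneg n
  linarith

theorem wgrR_tendsto : Tendsto wgrR atTop (𝓝 0) := tendsto_one_div_add_atTop_nhds_zero_nat

theorem wgrC_tendsto (x : ℂ) : Tendsto (fun n => wgrC (wgrR n) x) atTop (𝓝 1) := by
  have h1 : Tendsto (fun n => wgrR n * ‖x‖) atTop (𝓝 (0 * ‖x‖)) := wgrR_tendsto.mul_const _
  rw [zero_mul] at h1
  have h2 : ∀ᶠ n in atTop, wgrC (wgrR n) x = 1 := by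
    filter_upwards [h1.eventually (gt_mem_nhds (show (0 : ℝ) < 1 by norm_num))] with n hn
    exact wgrC_one (wgrR_pos n) (le_of_lt hn)
  exact tendsto_const_nhds.congr' (h2.mono fun n hn => hn.symm)

theorem InH1.locInt {σ₀ u p q : ℂ → ℝ} (hσ : IsGrow σ₀) (h : InH1 σ₀ u p q) :
    Integrable (fun x => u x / (1 + ‖x‖ ^ 2) ^ 2) ∧ LocallyIntegrable u ∧
      Integrable (fun x => u x ^ 2 / (1 + ‖x‖ ^ 2) ^ 2) := by
  have hfin := hσ.finite
  have h1 : Integrable u (vol σ₀) := h.memLp.integrable (by norm_num)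
  have h2 := hσ.integrable_div h1
  refine ⟨h2, ?_, hσ.integrable_div h.memLp.integrable_sq⟩
  have hcq : Continuous fun x : ℂ => (1 + ‖x‖ ^ 2) ^ 2 := by fun_prop
  have h3 : LocallyIntegrable fun x : ℂ => (1 + ‖x‖ ^ 2) ^ 2 • (u x / (1 + ‖x‖ ^ 2) ^ 2) :=
    h2.locallyIntegrable.continuous_smul hcq
  refine h3.congr (Eventually.of_forall fun x => ?_)
  simp only [smul_eq_mul]
  have : (0 : ℝ) < (1 + ‖x‖ ^ 2) ^ 2 := by positivity
  field_simp

theorem wgr_mul_int {u : ℂ → ℝ} (hloc : LocallyIntegrable u) {F : ℂ → ℝ} (hF : Continuous F)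
    (hc : HasCompactSupport F) : Integrable fun x => u x * F x := by
  have h3 := hloc.integrable_smul_left_of_hasCompactSupport hF hc
  refine h3.congr (Eventually.of_forall fun y => ?_)
  simp only [smul_eq_mul, mul_comm]

/-- the cross term -/
def wgrW (η : ℂ → ℝ) (n : ℕ) (x : ℂ) : ℝ :=
  fderiv ℝ (wgrC (wgrR n)) x 1 * fderiv ℝ η x 1 +
    fderiv ℝ (wgrC (wgrR n)) x Complex.I * fderiv ℝ η x Complex.I

theorem wgr_cont_dir {F : ℂ → ℝ} (hF : ContDiff ℝ ∞ F) (v : ℂ) :
    Continuous fun x => fderiv ℝ F x v :=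
  (hF.continuous_fderiv (by simp)).clm_apply continuous_const

theorem wgrW_bound (hη : SphSmooth η) : ∃ C : ℝ, 0 ≤ C ∧ ∀ n x,
    |wgrW η n x| * (1 + ‖x‖ ^ 2) ≤ C * wgrR n := by
  obtain ⟨M, hM0, hM⟩ := wgrC_bound
  obtain ⟨C1, hC10, hC1⟩ := hη.dir_le 1
  obtain ⟨C2, hC20, hC2⟩ := hη.dir_le Complex.I
  refine ⟨M * C1 + M * C2, by positivity, fun n x => ?_⟩
  have hr := wgrR_pos n
  have hx : (0 : ℝ) < 1 + ‖x‖ ^ 2 := by positivity
  have e1 : |fderiv ℝ η x 1| * (1 + ‖x‖ ^ 2) ≤ C1 := by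
    have := hC1 x
    rwa [le_div_iff₀ hx] at this
  have e2 : |fderiv ℝ η x Complex.I| * (1 + ‖x‖ ^ 2) ≤ C2 := by
    have := hC2 x
    rwa [le_div_iff₀ hx] at this
  have e3 := hM _ hr 1 (Or.inl rfl) x
  have e4 := hM _ hr Complex.I (Or.inr rfl) x
  calc |wgrW η n x| * (1 + ‖x‖ ^ 2)
      ≤ (|fderiv ℝ (wgrC (wgrR n)) x 1| * |fderiv ℝ η x 1| +
          |fderiv ℝ (wgrC (wgrR n)) x Complex.I| * |fderiv ℝ η x Complex.I|) * (1 + ‖x‖ ^ 2) := by
        refine mul_le_mul_of_nonneg_right ?_ hx.le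
        unfold wgrW
        refine (abs_add_le _ _).trans ?_
        rw [abs_mul, abs_mul]
    _ = |fderiv ℝ (wgrC (wgrR n)) x 1| * (|fderiv ℝ η x 1| * (1 + ‖x‖ ^ 2)) +
          |fderiv ℝ (wgrC (wgrR n)) x Complex.I| *
            (|fderiv ℝ η x Complex.I| * (1 + ‖x‖ ^ 2)) := by ring
    _ ≤ (M * wgrR n) * C1 + (M * wgrR n) * C2 := by
        refine add_le_add (mul_le_mul e3 e1 (by positivity) (by positivity))
          (mul_le_mul e4 e2 (by positivity) (by positivity))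
    _ = (M * C1 + M * C2) * wgrR n := by ring

theorem wgrW_zero {n : ℕ} {x : ℂ} (hx : wgrR n * ‖x‖ < 1 ∨ 2 < wgrR n * ‖x‖) :
    wgrW η n x = 0 := by
  unfold wgrW
  rw [wgrC_fderiv_zero (wgrR_pos n) hx, wgrC_fderiv_zero (wgrR_pos n) hx]
  ring

theorem wgrW_cont (hη : SphSmooth η) (n : ℕ) : Continuous (wgrW η n) := by
  unfold wgrW
  exact ((wgr_cont_dir (wgrC_contDiff _) 1).mul (wgr_cont_dir hη.1 1)).add
    ((wgr_cont_dir (wgrC_contDiff _) Complex.I).mul (wgr_cont_dir hη.1 Complex.I))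

theorem wgrW_compact (n : ℕ) : HasCompactSupport (wgrW η n) := by
  have hr := wgrR_pos n
  refine HasCompactSupport.of_support_subset_isCompact
    (isCompact_closedBall (0 : ℂ) (2 / wgrR n)) ?_
  intro x hx
  rw [mem_closedBall_zero_iff]
  by_contra hcon
  push Not at hcon
  refine hx (wgrW_zero (Or.inr ?_))
  rw [div_lt_iff₀ hr] at hcon
  linarith

/-- the cross terms tend to zero -/
theorem wgr_cross {u : ℂ → ℝ} (hη : SphSmooth η)
    (hsq : Integrable fun x => u x ^ 2 / (1 + ‖x‖ ^ 2) ^ 2) :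
    Tendsto (fun n => ∫ x, u x * wgrW η n x) atTop (𝓝 0) := by
  obtain ⟨C, hC0, hC⟩ := wgrW_bound hη
  -- tails
  have htail : Tendsto (fun n : ℕ => ∫ x, {x : ℂ | 1 ≤ wgrR n * ‖x‖}.indicator
      (fun x => u x ^ 2 / (1 + ‖x‖ ^ 2) ^ 2) x) atTop (𝓝 0) := by
    have h0 : (0 : ℝ) = ∫ x : ℂ, (0 : ℝ) := by simp
    rw [h0]
    refine tendsto_integral_of_dominated_convergence
      (fun x => ‖u x ^ 2 / (1 + ‖x‖ ^ 2) ^ 2‖) ?_ hsq.norm ?_ ?_
    · intro n
      refine hsq.1.indicator ?_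
      exact measurableSet_le measurable_const (by fun_prop)
    · intro n
      filter_upwards with x
      exact norm_indicator_le_norm_self _ _
    · filter_upwards with x
      have h1 : Tendsto (fun n => wgrR n * ‖x‖) atTop (𝓝 (0 * ‖x‖)) := wgrR_tendsto.mul_const _
      rw [zero_mul] at h1
      have h2 : ∀ᶠ n in atTop, {x : ℂ | 1 ≤ wgrR n * ‖x‖}.indicator
          (fun x => u x ^ 2 / (1 + ‖x‖ ^ 2) ^ 2) x = 0 := by
        filter_upwards [h1.eventually (gt_mem_nhds (show (0 : ℝ) < 1 by norm_num))] with n hn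
        refine indicator_of_notMem ?_ _
        simp only [mem_ofPred_eq, not_le]
        exact hn
      exact tendsto_const_nhds.congr' (h2.mono fun n hn => hn.symm)
  rw [Metric.tendsto_atTop]
  intro ε hε
  set K : ℝ := 8 * (C ^ 2 * (4 * π) + 1) with hK
  have hKpos : 0 < K := by positivity
  set e : ℝ := ε / K with he
  have hepos : 0 < e := by positivity
  obtain ⟨N, hN⟩ := (Metric.tendsto_atTop.1 htail) (e * ε) (by positivity)
  refine ⟨N, fun n hn => ?_⟩
  have hr := wgrR_pos n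
  have hNn := hN n hn
  rw [dist_zero_right, Real.norm_eq_abs] at hNn
  rw [dist_zero_right, Real.norm_eq_abs]
  have hT := (le_abs_self _).trans_lt hNn
  -- pointwise bound
  set T : ℂ → ℝ := {x : ℂ | 1 ≤ wgrR n * ‖x‖}.indicator
      (fun x => u x ^ 2 / (1 + ‖x‖ ^ 2) ^ 2) with hTdef
  set S : ℂ → ℝ := (Metric.closedBall (0 : ℂ) (2 / wgrR n)).indicator
      (fun _ => C ^ 2 * wgrR n ^ 2) with hSdef
  have hTi : Integrable T := by
    refine hsq.indicator ?_
    exact measurableSet_le measurable_const (by fun_prop)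
  have hSi : Integrable S := by
    refine (integrable_indicator_iff measurableSet_closedBall).2 ?_
    exact integrableOn_const (measure_closedBall_lt_top.ne)
  have hpt : ∀ x, |u x * wgrW η n x| ≤ 1 / (2 * e) * T x + e / 2 * S x := by
    intro x
    have hTn : 0 ≤ T x := by
      refine indicator_nonneg (fun y _ => ?_) x
      positivity
    have hSn : 0 ≤ S x := by
      refine indicator_nonneg (fun y _ => ?_) x
      positivity
    by_cases hx1 : wgrR n * ‖x‖ < 1
    · rw [wgrW_zero (Or.inl hx1), mul_zero, abs_zero]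
      positivity
    by_cases hx2 : 2 < wgrR n * ‖x‖
    · rw [wgrW_zero (Or.inr hx2), mul_zero, abs_zero]
      positivity
    push Not at hx1 hx2
    have e1 : T x = u x ^ 2 / (1 + ‖x‖ ^ 2) ^ 2 := indicator_of_mem (by exact hx1) _
    have e2 : S x = C ^ 2 * wgrR n ^ 2 := by
      refine indicator_of_mem ?_ _
      rw [mem_closedBall_zero_iff, le_div_iff₀ hr]
      linarith
    have hx : (0 : ℝ) < 1 + ‖x‖ ^ 2 := by positivity
    have e3 := hC n x
    set A : ℝ := |u x| / (1 + ‖x‖ ^ 2) with hA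
    set B : ℝ := |wgrW η n x| * (1 + ‖x‖ ^ 2) with hB
    have e4 : |u x * wgrW η n x| = A * B := by
      rw [abs_mul, hA, hB]
      field_simp
    have e5 : T x = A ^ 2 := by
      rw [e1, hA, div_pow, sq_abs]
    have e6 : B ^ 2 ≤ S x := by
      rw [e2, ← mul_pow]
      exact pow_le_pow_left₀ (by positivity) e3 2
    rw [e4, e5]
    have e7 : A * B ≤ 1 / (2 * e) * A ^ 2 + e / 2 * B ^ 2 := by
      have h1 : 0 ≤ (A - e * B) ^ 2 / (2 * e) := by positivity
      have h2 : (A - e * B) ^ 2 / (2 * e) = 1 / (2 * e) * A ^ 2 + e / 2 * B ^ 2 - A * B := by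
        field_simp
        ring
      linarith
    have e8 : e / 2 * B ^ 2 ≤ e / 2 * S x := mul_le_mul_of_nonneg_left e6 (by positivity)
    linarith
  have hSint : ∫ x, S x = C ^ 2 * (4 * π) := by
    rw [hSdef, integral_indicator_const _ measurableSet_closedBall, Measure.real,
      Complex.volume_closedBall, smul_eq_mul, ENNReal.toReal_mul, ENNReal.toReal_pow,
      ENNReal.toReal_ofReal (by positivity)]
    have : ((NNReal.pi : ℝ≥0∞)).toReal = π := by simp
    rw [this]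
    field_simp
    ring
  have hfin : |∫ x, u x * wgrW η n x| ≤ 1 / (2 * e) * (∫ x, T x) + e / 2 * (C ^ 2 * (4 * π)) := by
    rw [← hSint, ← integral_const_mul, ← integral_const_mul,
      ← integral_add (hTi.const_mul _) (hSi.const_mul _)]
    refine (abs_integral_le_integral_abs).trans ?_
    refine integral_mono_of_nonneg (Eventually.of_forall fun x => abs_nonneg _)
      ((hTi.const_mul _).add (hSi.const_mul _)) (Eventually.of_forall hpt)
  have h1 : 1 / (2 * e) * ∫ x, T x ≤ 1 / (2 * e) * (e * ε) :=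
    mul_le_mul_of_nonneg_left hT.le (by positivity)
  have h2 : 1 / (2 * e) * (e * ε) = ε / 2 := by field_simp
  have h3 : e / 2 * (C ^ 2 * (4 * π)) ≤ ε / 16 := by
    have h4 : C ^ 2 * (4 * π) ≤ K / 8 := by rw [hK]; linarith
    calc e / 2 * (C ^ 2 * (4 * π)) ≤ e / 2 * (K / 8) := mul_le_mul_of_nonneg_left h4 (by positivity)
      _ = ε / 16 := by rw [he]; field_simp; ring
  linarith

/-- derivative of the test functions -/
theorem wgr_test_fderiv (hη : SphSmooth η) (r : ℝ) (x v : ℂ) :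
    fderiv ℝ (fun y => wgrC r y * fderiv ℝ η y v) x v =
      wgrC r x * fderiv ℝ (fun y => fderiv ℝ η y v) x v +
        fderiv ℝ (wgrC r) x v * fderiv ℝ η x v := by
  have h1 : DifferentiableAt ℝ (wgrC r) x :=
    (wgrC_contDiff r).contDiffAt.differentiableAt (by simp)
  have h2 : DifferentiableAt ℝ (fun y => fderiv ℝ η y v) x :=
    (hη.dir v).1.contDiffAt.differentiableAt (by simp)
  rw [fderiv_fun_mul h1 h2]
  simp only [add_apply, smul_apply, smul_eq_mul]
  ring

/-- square integrable functions against functions of size `O(1/(1+|x|²))` -/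
theorem wgr_L2_int {p F : ℂ → ℝ} (hp : MemLp p 2) (hF : Continuous F) {C : ℝ}
    (hC : ∀ x, |F x| ≤ C / (1 + ‖x‖ ^ 2)) : Integrable fun x => p x * F x := by
  have hF2 : MemLp F 2 := by
    rw [memLp_two_iff_integrable_sq hF.aestronglyMeasurable]
    refine Integrable.mono' (integrable_round.const_mul (C ^ 2)) (hF.pow 2).aestronglyMeasurable ?_
    filter_upwards with x
    have hx : (0 : ℝ) < 1 + ‖x‖ ^ 2 := by positivity
    rw [Real.norm_eq_abs, abs_pow]
    calc |F x| ^ 2 ≤ (C / (1 + ‖x‖ ^ 2)) ^ 2 := pow_le_pow_left₀ (abs_nonneg _) (hC x) 2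
      _ = C ^ 2 * (1 / (1 + ‖x‖ ^ 2) ^ 2) := by field_simp
  exact hp.integrable_mul hF2

/-- cut-offs `χ(x/R)`, `R → ∞`, applied to `∂_v η` -/
theorem InH1.green {σ₀ u p q : ℂ → ℝ} (hσ : IsGrow σ₀) (h : InH1 σ₀ u p q) (hη : SphSmooth η) :
    ∫ x, (p x * fderiv ℝ η x 1 + q x * fderiv ℝ η x Complex.I) = -∫ x, u x * lap η x := by
  obtain ⟨hdiv, hloc, hsq⟩ := h.locInt hσ
  obtain ⟨C1, -, hC1⟩ := hη.dir_le 1
  obtain ⟨C2, -, hC2⟩ := hη.dir_le Complex.I
  have ip : Integrable fun x => p x * fderiv ℝ η x 1 :=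
    wgr_L2_int h.memLp_p (wgr_cont_dir hη.1 1) hC1
  have iq : Integrable fun x => q x * fderiv ℝ η x Complex.I :=
    wgr_L2_int h.memLp_q (wgr_cont_dir hη.1 Complex.I) hC2
  have iu : Integrable fun x => u x * lap η x := by
    obtain ⟨C, hC0, hC⟩ := hη.lap_le
    refine Integrable.mono' (hdiv.norm.const_mul C)
      (hloc.aestronglyMeasurable.mul hη.lap_sph.1.continuous.aestronglyMeasurable) ?_
    filter_upwards with x
    have hx : (0 : ℝ) < (1 + ‖x‖ ^ 2) ^ 2 := by positivity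
    rw [Real.norm_eq_abs, Real.norm_eq_abs, abs_mul, abs_div, abs_of_pos hx]
    calc |u x| * |lap η x| ≤ |u x| * (C / (1 + ‖x‖ ^ 2) ^ 2) :=
          mul_le_mul_of_nonneg_left (hC x) (abs_nonneg _)
      _ = C * (|u x| / (1 + ‖x‖ ^ 2) ^ 2) := by ring
  -- the identity with cut-off
  have hid : ∀ n, (∫ x, wgrC (wgrR n) x * (u x * lap η x)) + ∫ x, u x * wgrW η n x =
      -∫ x, wgrC (wgrR n) x * (p x * fderiv ℝ η x 1 + q x * fderiv ℝ η x Complex.I) := by
    intro n
    have hr := wgrR_pos n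
    have hsm : ∀ v, ContDiff ℝ ∞ fun x => wgrC (wgrR n) x * fderiv ℝ η x v := fun v =>
      (wgrC_contDiff _).mul (hη.dir v).1
    have hcs : ∀ v, HasCompactSupport fun x => wgrC (wgrR n) x * fderiv ℝ η x v := fun v =>
      (wgrC_compact hr).mul_right
    have g1 := (h.grad _ (hsm 1) (hcs 1)).1
    have g2 := (h.grad _ (hsm Complex.I) (hcs Complex.I)).2
    have hcd : ∀ v, HasCompactSupport fun x =>
        fderiv ℝ (fun y => wgrC (wgrR n) y * fderiv ℝ η y v) x v := fun v =>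
      ((hcs v).fderiv ℝ).comp_left (g := fun L : ℂ →L[ℝ] ℝ => L v) (by simp)
    have i1 := wgr_mul_int hloc (wgr_cont_dir (hsm 1) 1) (hcd 1)
    have i2 := wgr_mul_int hloc (wgr_cont_dir (hsm Complex.I) Complex.I) (hcd Complex.I)
    have iW : Integrable fun x => u x * wgrW η n x :=
      wgr_mul_int hloc (wgrW_cont hη n) (wgrW_compact n)
    have hbd : ∀ {F : ℂ → ℝ}, Integrable F → Integrable fun x => wgrC (wgrR n) x * F x := by
      intro F hF
      refine hF.bdd_mul (wgrC_contDiff (wgrR n)).continuous.aestronglyMeasurable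
        (c := 1) (Eventually.of_forall fun x => ?_)
      rw [Real.norm_eq_abs, abs_of_nonneg (wgrC_nonneg _ _)]
      exact wgrC_le_one _ _
    have e1 : (∫ x, wgrC (wgrR n) x * (u x * lap η x)) + ∫ x, u x * wgrW η n x =
        (∫ x, u x * fderiv ℝ (fun y => wgrC (wgrR n) y * fderiv ℝ η y 1) x 1) +
        ∫ x, u x * fderiv ℝ (fun y => wgrC (wgrR n) y * fderiv ℝ η y Complex.I) x Complex.I := by
      rw [← integral_add (hbd iu) iW, ← integral_add i1 i2]
      refine integral_congr_ae (Eventually.of_forall fun x => ?_)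
      simp only
      rw [wgr_test_fderiv hη, wgr_test_fderiv hη, lap_eq_dir (hη.1.of_le sph_two_le)]
      unfold wgrW
      ring
    have e2 : (∫ x, wgrC (wgrR n) x * (p x * fderiv ℝ η x 1 + q x * fderiv ℝ η x Complex.I)) =
        (∫ x, p x * (wgrC (wgrR n) x * fderiv ℝ η x 1)) +
        ∫ x, q x * (wgrC (wgrR n) x * fderiv ℝ η x Complex.I) := by
      have j1 : Integrable fun x => p x * (wgrC (wgrR n) x * fderiv ℝ η x 1) := by
        refine (hbd ip).congr (Eventually.of_forall fun x => ?_)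
        ring
      have j2 : Integrable fun x => q x * (wgrC (wgrR n) x * fderiv ℝ η x Complex.I) := by
        refine (hbd iq).congr (Eventually.of_forall fun x => ?_)
        ring
      rw [← integral_add j1 j2]
      refine integral_congr_ae (Eventually.of_forall fun x => ?_)
      simp only
      ring
    rw [e1, e2, g1, g2]
    ring
  have hlim : ∀ {F : ℂ → ℝ}, Integrable F →
      Tendsto (fun n => ∫ x, wgrC (wgrR n) x * F x) atTop (𝓝 (∫ x, F x)) := by
    intro F hF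
    refine tendsto_integral_of_dominated_convergence (fun x => ‖F x‖) ?_ hF.norm ?_ ?_
    · intro n
      exact (wgrC_contDiff (wgrR n)).continuous.aestronglyMeasurable.mul hF.1
    · intro n
      filter_upwards with x
      rw [norm_mul, Real.norm_eq_abs (wgrC _ _), abs_of_nonneg (wgrC_nonneg _ _)]
      calc wgrC (wgrR n) x * ‖F x‖ ≤ 1 * ‖F x‖ :=
            mul_le_mul_of_nonneg_right (wgrC_le_one _ _) (norm_nonneg _)
        _ = ‖F x‖ := one_mul _
    · filter_upwards with x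
      have h1 := (wgrC_tendsto x).mul_const (F x)
      rwa [one_mul] at h1
  have t1 := (hlim iu).add (wgr_cross hη hsq)
  have t2 := (hlim (ip.add iq)).neg
  have t3 := tendsto_nhds_unique (t1.congr hid) t2
  simp only [Pi.add_apply] at t3
  rw [add_zero] at t3
  rw [t3, neg_neg]

/-- if the gradient vanishes the function is constant (LIOU) -/
theorem InH1.const_of_grad_zero {σ₀ u : ℂ → ℝ} (hσ : IsGrow σ₀) {p q : ℂ → ℝ}
    (h : InH1 σ₀ u p q) (hp : p =ᵐ[volume] 0) (hq : q =ᵐ[volume] 0) :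
    ∃ c : ℝ, u =ᵐ[volume] fun _ => c := by
  refine liouville (h.locInt hσ).1 fun ψ hψ => ?_
  have h1 := h.green hσ hψ
  have h2 : ∫ x, (p x * fderiv ℝ ψ x 1 + q x * fderiv ℝ ψ x Complex.I) = 0 := by
    refine integral_eq_zero_of_ae ?_
    filter_upwards [hp, hq] with x h3 h4
    rw [h3, h4]
    simp
  rw [h2] at h1
  linarith

end

end LQZ
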