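import Mathlib

/-!
# Project LQZ, module ZETA: abstract continuation of a spectral zeta function

If `∑ (λ_i+z)^{-2} = A/z + B/z² + O(z^{-9/4})` then `∑ λ_i^{-s}` continues analytically to
`{Re s > -1/4} \ {1}`.
-/

open MeasureTheory Set Filter Topology Asymptotics
open scoped ENNReal NNReal Real

namespace LQZ

namespace ZetaAux

/-- `∫₀^∞ z^{a-1} (1+z)^{-n} dz` is the beta integral. -/
lemma mellin_inv_pow (n : ℕ) (a : ℂ) :
    mellin (fun z : ℝ => ((((1 + z) ^ n)⁻¹ : ℝ) : ℂ)) a = Complex.betaIntegral a (n - a) := by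
  have himg : (fun x : ℝ => x / (1 - x)) '' (Ioo 0 1) = Ioi 0 := by
    ext z
    simp only [mem_image, mem_Ioo, mem_Ioi]
    constructor
    · rintro ⟨x, ⟨h0, h1⟩, rfl⟩
      exact div_pos h0 (by linarith)
    · intro hz
      refine ⟨z / (1 + z), ⟨by positivity, ?_⟩, ?_⟩
      · rw [div_lt_one (by linarith)]; linarith
      · field_simp
        ring
  have hd : ∀ x ∈ Ioo (0 : ℝ) 1, HasDerivWithinAt (fun x : ℝ => x / (1 - x))
      (((1 - x) ^ 2)⁻¹) (Ioo 0 1) x := by
    intro x hx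
    have h1 : (1 - x) ≠ 0 := by have := hx.2; intro h; linarith
    have := (hasDerivAt_id x).div ((hasDerivAt_const x (1:ℝ)).sub (hasDerivAt_id x)) h1
    refine (this.congr_deriv ?_).hasDerivWithinAt
    simp only [id, Pi.sub_apply]
    field_simp
    ring
  have hinj : InjOn (fun x : ℝ => x / (1 - x)) (Ioo 0 1) := by
    intro x hx y hy hxy
    have h1 : (1 - x) ≠ 0 := by have := hx.2; intro h; linarith
    have h2 : (1 - y) ≠ 0 := by have := hy.2; intro h; linarith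
    simp only at hxy
    rw [div_eq_div_iff h1 h2] at hxy
    linarith
  unfold mellin Complex.betaIntegral
  rw [← himg, integral_image_eq_integral_abs_deriv_smul measurableSet_Ioo hd hinj,
    intervalIntegral.integral_of_le zero_le_one, integral_Ioc_eq_integral_Ioo]
  refine setIntegral_congr_fun measurableSet_Ioo ?_
  intro x hx
  have h0 : 0 < x := hx.1
  have h1 : 0 < 1 - x := by linarith [hx.2]
  have h1' : ((1 - x : ℝ) : ℂ) ≠ 0 := by exact_mod_cast h1.ne'
  simp only [smul_eq_mul]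
  have e1 : (1 + x / (1 - x)) = (1 - x)⁻¹ := by
    field_simp
    ring
  rw [abs_of_pos (by positivity), e1, Complex.real_smul,
    show ((x / (1 - x) : ℝ) : ℂ) = ((x * (1 - x)⁻¹ : ℝ) : ℂ) by rw [div_eq_mul_inv],
    Complex.ofReal_mul, Complex.mul_cpow_ofReal_nonneg h0.le (by positivity)]
  have e2 : (((1 - x)⁻¹ : ℝ) : ℂ) ^ (a - 1) = ((1 - x : ℝ) : ℂ) ^ (1 - a) := by
    rw [Complex.ofReal_inv, Complex.inv_cpow, ← Complex.cpow_neg, neg_sub]
    rw [Complex.arg_ofReal_of_nonneg h1.le]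
    exact Real.pi_pos.ne
  rw [e2]
  have e3 : (1 - (x : ℂ)) ^ ((n : ℂ) - a - 1) =
      ((1 - x : ℝ) : ℂ) ^ (1 - a) * (((1 - x : ℝ) : ℂ) ^ n * ((((1 - x : ℝ) : ℂ)) ^ 2)⁻¹) := by
    rw [← Complex.cpow_natCast _ n, ← Complex.cpow_natCast _ 2, ← Complex.cpow_neg,
      ← Complex.cpow_add _ _ h1', ← Complex.cpow_add _ _ h1']
    push_cast
    congr 1
    ring
  rw [e3]
  push_cast
  rw [inv_pow, inv_inv]
  ring

lemma mellin_inv_one {a : ℂ} (h0 : 0 < a.re) (h1 : a.re < 1) :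
    mellin (fun z : ℝ => (((1 + z)⁻¹ : ℝ) : ℂ)) a = Complex.Gamma a * Complex.Gamma (1 - a) := by
  have h := mellin_inv_pow 1 a
  simp only [pow_one, Nat.cast_one] at h
  rw [h, Complex.Gamma_mul_Gamma_eq_betaIntegral h0 (by simp; linarith)]
  simp

lemma mellin_inv_two {a : ℂ} (h0 : 0 < a.re) (h1 : a.re < 2) :
    mellin (fun z : ℝ => ((((1 + z) ^ 2)⁻¹ : ℝ) : ℂ)) a =
      Complex.Gamma a * Complex.Gamma (2 - a) := by
  have h := mellin_inv_pow 2 a
  simp only [Nat.cast_ofNat] at h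
  rw [h, Complex.Gamma_mul_Gamma_eq_betaIntegral h0 (by simp; linarith)]
  have : Complex.Gamma (a + (2 - a)) = 1 := by
    rw [show a + (2 - a) = ((1 : ℕ) : ℂ) + 1 by push_cast; ring, Complex.Gamma_nat_eq_factorial]
    simp
  rw [this, one_mul]

lemma mellin_inv_two_scale {l : ℝ} (hl : 0 < l) {a : ℂ} (h0 : 0 < a.re) (h1 : a.re < 2) :
    mellin (fun z : ℝ => ((1 / (l + z) ^ 2 : ℝ) : ℂ)) a =
      Complex.Gamma a * Complex.Gamma (2 - a) * (l : ℂ) ^ (a - 2) := by
  have hl' : (l : ℂ) ≠ 0 := by exact_mod_cast hl.ne'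
  have e : (fun z : ℝ => ((1 / (l + z) ^ 2 : ℝ) : ℂ)) =
      fun z : ℝ => (((l ^ 2)⁻¹ : ℝ) : ℂ) • ((((1 + l⁻¹ * z) ^ 2)⁻¹ : ℝ) : ℂ) := by
    funext z
    rw [smul_eq_mul, ← Complex.ofReal_mul]
    congr 1
    rw [← mul_inv, ← mul_pow, mul_add, mul_one, ← mul_assoc, mul_inv_cancel₀ hl.ne', one_mul,
      one_div]
  rw [e, mellin_const_smul, mellin_comp_mul_left (fun z : ℝ => ((((1 + z) ^ 2)⁻¹ : ℝ) : ℂ)) a
    (inv_pos.2 hl), mellin_inv_two h0 h1, smul_eq_mul, smul_eq_mul]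
  have e2 : (((l⁻¹ : ℝ)) : ℂ) ^ (-a) = (l : ℂ) ^ a := by
    rw [Complex.ofReal_inv, Complex.inv_cpow, ← Complex.cpow_neg, neg_neg]
    rw [Complex.arg_ofReal_of_nonneg hl.le]
    exact Real.pi_pos.ne
  rw [e2, Complex.cpow_sub _ _ hl', Complex.ofReal_inv]
  norm_num
  ring

/-- Local integrability and two-sided bounds imply Mellin convergence. -/
lemma mconv {f : ℝ → ℝ} {p : ℝ} (hc : ContinuousOn f (Ioi 0))
    (htop : ∃ C : ℝ, ∀ z, 1 ≤ z → |f z| ≤ C * z ^ (-p))
    (hbot : ∃ C : ℝ, ∀ z, 0 < z → |f z| ≤ C) {a : ℂ} (h0 : 0 < a.re) (h1 : a.re < p) :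
    MellinConvergent (fun z => ((f z : ℝ) : ℂ)) a ∧
      DifferentiableAt ℂ (mellin (fun z => ((f z : ℝ) : ℂ))) a := by
  have hloc : LocallyIntegrableOn (fun z => ((f z : ℝ) : ℂ)) (Ioi 0) :=
    (Complex.continuous_ofReal.comp_continuousOn hc).locallyIntegrableOn measurableSet_Ioi
  obtain ⟨C, hC⟩ := htop
  obtain ⟨D, hD⟩ := hbot
  have ht : (fun z => ((f z : ℝ) : ℂ)) =O[atTop] (· ^ (-p) : ℝ → ℝ) := by
    refine IsBigO.of_bound C ?_
    filter_upwards [eventually_ge_atTop (1 : ℝ)] with z hz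
    have hz' : 0 ≤ z ^ (-p) := Real.rpow_nonneg (by linarith) _
    rw [Complex.norm_real, Real.norm_eq_abs, Real.norm_of_nonneg hz']
    exact hC z hz
  have hb : (fun z => ((f z : ℝ) : ℂ)) =O[𝓝[>] 0] (· ^ (-(0 : ℝ)) : ℝ → ℝ) := by
    refine IsBigO.of_bound D ?_
    filter_upwards [self_mem_nhdsWithin] with z hz
    simp only [neg_zero, Real.rpow_zero, norm_one, mul_one]
    rw [Complex.norm_real, Real.norm_eq_abs]
    exact hD z hz
  exact ⟨mellinConvergent_of_isBigO_rpow hloc ht h1 hb h0,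
    mellin_differentiableAt_of_isBigO_rpow hloc ht h1 hb h0⟩

section

variable {ι : Type} [Countable ι] (lam : ι → ℝ) (hpos : ∀ i, 0 < lam i)
    (hs1 : Summable fun i => 1 / (lam i + 1) ^ 2)

include hpos hs1

omit [Countable ι] in
/-- `λ_i` is bounded below. -/
lemma exists_lower : ∃ c : ℝ, 0 < c ∧ ∀ i, c ≤ lam i := by
  have hfin : {i | lam i < 1}.Finite := by
    have h := hs1.tendsto_cofinite_zero
    have h2 : ∀ᶠ i in cofinite, 1 / (lam i + 1) ^ 2 < 1 / 4 :=
      h.eventually (gt_mem_nhds (by norm_num))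
    rw [eventually_cofinite] at h2
    refine h2.subset ?_
    intro i hi
    simp only [mem_ofPred_eq, not_lt] at hi ⊢
    have := hpos i
    apply one_div_le_one_div_of_le (by positivity)
    nlinarith
  rcases hfin.toFinset.eq_empty_or_nonempty with he | hne
  · refine ⟨1, one_pos, fun i => ?_⟩
    by_contra hi
    have : i ∈ hfin.toFinset := by simpa using hi
    rw [he] at this
    simp at this
  · obtain ⟨j, hj, hj2⟩ := Finset.exists_min_image hfin.toFinset lam hne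
    refine ⟨min 1 (lam j), lt_min one_pos (hpos j), fun i => ?_⟩
    by_cases hi : lam i < 1
    · exact (min_le_right _ _).trans (hj2 i (by simpa using hi))
    · exact (min_le_left _ _).trans (not_lt.1 hi)

omit [Countable ι] in
lemma summable_inv_sq : Summable fun i => 1 / (lam i) ^ 2 := by
  obtain ⟨c, hc, hcl⟩ := exists_lower lam hpos hs1
  refine Summable.of_nonneg_of_le (fun i => by positivity) (fun i => ?_)
    (hs1.mul_left ((1 + 1 / c) ^ 2))
  have h1 := hpos i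
  have h2 : lam i + 1 ≤ (1 + 1 / c) * lam i := by
    have : 1 ≤ 1 / c * lam i := by
      rw [div_mul_eq_mul_div, one_mul, le_div_iff₀ hc, one_mul]
      exact hcl i
    linarith
  rw [mul_one_div, div_le_div_iff₀ (by positivity) (by positivity), one_mul]
  have h3 : (lam i + 1) ^ 2 ≤ ((1 + 1 / c) * lam i) ^ 2 :=
    pow_le_pow_left₀ (by positivity) h2 2
  rwa [mul_pow] at h3

omit [Countable ι] in
lemma G_cont : ContinuousOn (fun z : ℝ => ∑' i, 1 / (lam i + z) ^ 2) (Ioi 0) := by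
  refine continuousOn_tsum (u := fun i => 1 / (lam i) ^ 2) ?_
    (summable_inv_sq lam hpos hs1) ?_
  · intro i z hz
    have h1 := hpos i
    have h2 : (0 : ℝ) < z := hz
    refine ContinuousAt.continuousWithinAt ?_
    refine ContinuousAt.div continuousAt_const (by fun_prop) (by positivity)
  · intro i z hz
    have h1 := hpos i
    have h2 : (0 : ℝ) < z := hz
    rw [Real.norm_of_nonneg (by positivity)]
    apply one_div_le_one_div_of_le (by positivity)
    apply pow_le_pow_left₀ h1.le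
    linarith

omit [Countable ι] in
lemma summ_z {z : ℝ} (hz : 0 < z) : Summable fun i => 1 / (lam i + z) ^ 2 := by
  refine Summable.of_nonneg_of_le (fun i => by positivity) (fun i => ?_)
    (summable_inv_sq lam hpos hs1)
  have h1 := hpos i
  apply one_div_le_one_div_of_le (by positivity)
  apply pow_le_pow_left₀ h1.le
  linarith

omit [Countable ι] in
lemma G_bd {z : ℝ} (hz : 0 < z) :
    |∑' i, 1 / (lam i + z) ^ 2| ≤ ∑' i, 1 / (lam i) ^ 2 := by
  rw [abs_of_nonneg (tsum_nonneg fun i => by positivity)]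
  refine (summ_z lam hpos hs1 hz).tsum_le_tsum (fun i => ?_) (summable_inv_sq lam hpos hs1)
  have h1 := hpos i
  apply one_div_le_one_div_of_le (by positivity)
  apply pow_le_pow_left₀ h1.le
  linarith

omit [Countable ι] hs1 in
lemma term_mconv {a : ℂ} (h0 : 0 < a.re) (h1 : a.re < 2) (i : ι) :
    MellinConvergent (fun z : ℝ => ((1 / (lam i + z) ^ 2 : ℝ) : ℂ)) a := by
  have hi := hpos i
  refine (mconv (p := 2) ?_ ⟨1, ?_⟩ ⟨1 / (lam i) ^ 2, ?_⟩ h0 h1).1
  · intro z hz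
    have h2 : (0 : ℝ) < z := hz
    refine ContinuousAt.continuousWithinAt ?_
    refine ContinuousAt.div continuousAt_const (by fun_prop) (by positivity)
  · intro z hz
    have hz0 : 0 < z := by linarith
    rw [abs_of_nonneg (by positivity), one_mul, Real.rpow_neg hz0.le, Real.rpow_two, ← one_div]
    apply one_div_le_one_div_of_le (by positivity)
    apply pow_le_pow_left₀ hz0.le
    linarith
  · intro z hz
    rw [abs_of_nonneg (by positivity)]
    apply one_div_le_one_div_of_le (by positivity)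
    apply pow_le_pow_left₀ hi.le
    linarith

omit [Countable ι] hs1 hpos in
lemma norm_term {z : ℝ} (hz : 0 < z) (a : ℂ) (x : ℝ) :
    ‖(z : ℂ) ^ (a - 1) • (x : ℂ)‖ = z ^ (a.re - 1) * |x| := by
  rw [norm_smul, Complex.norm_cpow_eq_rpow_re_of_pos hz, Complex.norm_real, Real.norm_eq_abs]
  simp

/-- Exchange of the Mellin transform with the sum. -/
lemma hasSum_mellin_G {K : ℝ} (hK : ∀ z : ℝ, 1 ≤ z → |∑' i, 1 / (lam i + z) ^ 2| ≤ K * z ^ (-1 : ℝ))
    {a : ℂ} (h0 : 0 < a.re) (h1 : a.re < 1) :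
    HasSum (fun i => mellin (fun z : ℝ => ((1 / (lam i + z) ^ 2 : ℝ) : ℂ)) a)
      (mellin (fun z : ℝ => ((∑' i, 1 / (lam i + z) ^ 2 : ℝ) : ℂ)) a) := by
  have hG := (mconv (p := 1) (G_cont lam hpos hs1) ⟨K, hK⟩
    ⟨_, fun z hz => G_bd lam hpos hs1 hz⟩ h0 h1).1
  have hGi : IntegrableOn (fun z : ℝ => z ^ (a.re - 1) * |∑' i, 1 / (lam i + z) ^ 2|) (Ioi 0) := by
    refine (Integrable.norm hG).congr ?_
    filter_upwards [self_mem_ae_restrict measurableSet_Ioi] with z hz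
    exact norm_term hz a _
  have hTi : ∀ i, IntegrableOn (fun z : ℝ => z ^ (a.re - 1) * |1 / (lam i + z) ^ 2|) (Ioi 0) := by
    intro i
    refine (Integrable.norm (term_mconv lam hpos h0 (by linarith) i)).congr ?_
    filter_upwards [self_mem_ae_restrict measurableSet_Ioi] with z hz
    exact norm_term hz a _
  have hsum : Summable fun i => ∫ z in Ioi (0 : ℝ), z ^ (a.re - 1) * |1 / (lam i + z) ^ 2| := by
    refine summable_of_sum_le (c := ∫ z in Ioi (0 : ℝ), z ^ (a.re - 1) *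
      |∑' i, 1 / (lam i + z) ^ 2|) (fun i => ?_) (fun u => ?_)
    · refine setIntegral_nonneg measurableSet_Ioi fun z hz => ?_
      have hz' : (0 : ℝ) < z := hz
      positivity
    · rw [← integral_finsetSum _ (fun i _ => hTi i)]
      refine setIntegral_mono_on (integrable_finsetSum _ fun i _ => hTi i) hGi
        measurableSet_Ioi fun z hz => ?_
      have hz' : (0 : ℝ) < z := hz
      rw [← Finset.mul_sum]
      refine mul_le_mul_of_nonneg_left ?_ (by positivity)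
      rw [abs_of_nonneg (tsum_nonneg fun i => by positivity)]
      have : ∀ i, |1 / (lam i + z) ^ 2| = 1 / (lam i + z) ^ 2 :=
        fun i => abs_of_nonneg (by positivity)
      simp_rw [this]
      exact (summ_z lam hpos hs1 hz').sum_le_tsum u (fun i _ => by positivity)
  have key := hasSum_integral_of_summable_integral_norm (μ := volume.restrict (Ioi (0 : ℝ)))
    (F := fun i => fun z : ℝ => (z : ℂ) ^ (a - 1) • ((1 / (lam i + z) ^ 2 : ℝ) : ℂ))
    (fun i => term_mconv lam hpos h0 (by linarith) i) ?_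
  · have e : ∫ z in Ioi (0 : ℝ), (z : ℂ) ^ (a - 1) • ((∑' i, 1 / (lam i + z) ^ 2 : ℝ) : ℂ) =
        ∫ z in Ioi (0 : ℝ), ∑' i, (z : ℂ) ^ (a - 1) • ((1 / (lam i + z) ^ 2 : ℝ) : ℂ) := by
      refine setIntegral_congr_fun measurableSet_Ioi ?_
      intro z hz
      simp only [smul_eq_mul]
      rw [tsum_mul_left, Complex.ofReal_tsum]
    unfold mellin
    rw [e]
    exact key
  · refine hsum.congr ?_
    intro i
    refine setIntegral_congr_fun (s := Ioi (0 : ℝ)) measurableSet_Ioi ?_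
    intro z hz
    exact (norm_term hz a _).symm

omit [Countable ι] hs1 hpos in
lemma tailB {A B C : ℝ} (h : ∀ z : ℝ, 1 ≤ z → |∑' i, 1 / (lam i + z) ^ 2 - A / z - B / z ^ 2| ≤
      C * z ^ (-(9 / 4) : ℝ)) :
    ∀ z : ℝ, 1 ≤ z → |∑' i, 1 / (lam i + z) ^ 2| ≤ (|A| + |B| + |C|) * z ^ (-1 : ℝ) := by
  intro z hz
  have hz0 : 0 < z := by linarith
  have h1 := h z hz
  have e1 : z ^ (-1 : ℝ) = z⁻¹ := Real.rpow_neg_one z
  have h2 : z ^ (-(9 / 4) : ℝ) ≤ z ^ (-1 : ℝ) := Real.rpow_le_rpow_of_exponent_le hz (by norm_num)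
  have h3 : (z ^ 2)⁻¹ ≤ z⁻¹ := by
    apply inv_anti₀ hz0
    nlinarith
  have h4 : |∑' i, 1 / (lam i + z) ^ 2| ≤
      |∑' i, 1 / (lam i + z) ^ 2 - A / z - B / z ^ 2| + |A / z| + |B / z ^ 2| := by
    have := abs_add_three (∑' i, 1 / (lam i + z) ^ 2 - A / z - B / z ^ 2) (A / z) (B / z ^ 2)
    rwa [show ∑' i, 1 / (lam i + z) ^ 2 - A / z - B / z ^ 2 + A / z + B / z ^ 2 =
      ∑' i, 1 / (lam i + z) ^ 2 by ring] at this
  have h5 : |A / z| = |A| * z⁻¹ := by
    rw [abs_div, abs_of_pos hz0, div_eq_mul_inv]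
  have h6 : |B / z ^ 2| = |B| * (z ^ 2)⁻¹ := by
    rw [abs_div, abs_of_pos (by positivity : (0:ℝ) < z ^ 2), div_eq_mul_inv]
  have h7 : C * z ^ (-(9 / 4) : ℝ) ≤ |C| * z ^ (-1 : ℝ) := by
    have hn : 0 ≤ z ^ (-(9 / 4) : ℝ) := Real.rpow_nonneg hz0.le _
    calc C * z ^ (-(9 / 4) : ℝ) ≤ |C| * z ^ (-(9 / 4) : ℝ) :=
          mul_le_mul_of_nonneg_right (le_abs_self C) hn
      _ ≤ _ := mul_le_mul_of_nonneg_left h2 (abs_nonneg C)
  have h8 : |B| * (z ^ 2)⁻¹ ≤ |B| * z⁻¹ := mul_le_mul_of_nonneg_left h3 (abs_nonneg B)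
  rw [e1] at h7 ⊢
  nlinarith [h4, h5, h6, h7, h8, h1]

/-- The Mellin transform of `G` in terms of the Dirichlet series. -/
lemma hasSum_series {K : ℝ}
    (hK : ∀ z : ℝ, 1 ≤ z → |∑' i, 1 / (lam i + z) ^ 2| ≤ K * z ^ (-1 : ℝ))
    {s : ℂ} (h1 : 1 < s.re) (h2 : s.re < 2) :
    HasSum (fun i => ((lam i : ℝ) : ℂ) ^ (-s))
      ((Complex.Gamma s)⁻¹ * (Complex.Gamma (2 - s))⁻¹ *
        mellin (fun z : ℝ => ((∑' i, 1 / (lam i + z) ^ 2 : ℝ) : ℂ)) (2 - s)) := by
  have h := hasSum_mellin_G lam hpos hs1 hK (a := 2 - s) (by simp; linarith) (by simp; linarith)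
  have hg1 : Complex.Gamma s ≠ 0 := Complex.Gamma_ne_zero_of_re_pos (by linarith)
  have hg2 : Complex.Gamma (2 - s) ≠ 0 := Complex.Gamma_ne_zero_of_re_pos (by simp; linarith)
  have h' := h.mul_left ((Complex.Gamma s)⁻¹ * (Complex.Gamma (2 - s))⁻¹)
  refine h'.congr_fun ?_ |> id
  intro i
  rw [mellin_inv_two_scale (hpos i) (by simp; linarith) (by simp; linarith)]
  rw [show 2 - (2 - s) = s by ring, show 2 - s - 2 = -s by ring]
  field_simp

omit [Countable ι] hs1 in
lemma norm_lam (i : ι) (s : ℂ) : ‖((lam i : ℝ) : ℂ) ^ (-s)‖ = lam i ^ (-s.re) := by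
  rw [Complex.norm_cpow_eq_rpow_re_of_pos (hpos i)]
  simp

lemma summ_real {K : ℝ}
    (hK : ∀ z : ℝ, 1 ≤ z → |∑' i, 1 / (lam i + z) ^ 2| ≤ K * z ^ (-1 : ℝ))
    {σ : ℝ} (h1 : 1 < σ) : Summable fun i => lam i ^ (-σ) := by
  have key : ∀ τ : ℝ, 1 < τ → τ < 2 → Summable fun i => lam i ^ (-τ) := by
    intro τ ht1 ht2
    have h := (hasSum_series lam hpos hs1 hK (s := (τ : ℂ)) (by simpa using ht1)
      (by simpa using ht2)).summable.norm
    refine h.congr fun i => ?_
    rw [norm_lam lam hpos]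
    simp
  rcases lt_or_ge σ 2 with h2 | h2
  · exact key σ h1 h2
  · obtain ⟨c, hc, hcl⟩ := exists_lower lam hpos hs1
    refine Summable.of_nonneg_of_le (fun i => (Real.rpow_pos_of_pos (hpos i) _).le) (fun i => ?_)
      ((key (3 / 2) (by norm_num) (by norm_num)).mul_left (c ^ (-(σ - 3 / 2))))
    have e : lam i ^ (-σ) = lam i ^ (-(σ - 3 / 2)) * lam i ^ (-(3 / 2) : ℝ) := by
      rw [← Real.rpow_add (hpos i)]
      congr 1
      ring
    rw [e]
    refine mul_le_mul_of_nonneg_right ?_ (Real.rpow_pos_of_pos (hpos i) _).le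
    exact Real.rpow_le_rpow_of_nonpos hc (hcl i) (by linarith)

lemma diff_series {K : ℝ}
    (hK : ∀ z : ℝ, 1 ≤ z → |∑' i, 1 / (lam i + z) ^ 2| ≤ K * z ^ (-1 : ℝ))
    {s : ℂ} (h1 : 1 < s.re) :
    AnalyticAt ℂ (fun s : ℂ => ∑' i, ((lam i : ℝ) : ℂ) ^ (-s)) s := by
  obtain ⟨σ, hσ1, hσ2⟩ := exists_between h1
  set M : ℝ := s.re + 1 with hM
  have hopen : IsOpen {w : ℂ | σ < w.re ∧ w.re < M} :=
    (isOpen_lt continuous_const Complex.continuous_re).inter
      (isOpen_lt Complex.continuous_re continuous_const)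
  have hd : DifferentiableOn ℂ (fun s : ℂ => ∑' i, ((lam i : ℝ) : ℂ) ^ (-s))
      {w : ℂ | σ < w.re ∧ w.re < M} := by
    refine Complex.differentiableOn_tsum_of_summable_norm
      (u := fun i => lam i ^ (-σ) + lam i ^ (-M))
      ((summ_real lam hpos hs1 hK hσ1).add (summ_real lam hpos hs1 hK (by linarith)))
      (fun i => ?_) hopen (fun i w hw => ?_)
    · have hne : ((lam i : ℝ) : ℂ) ≠ 0 := by exact_mod_cast (hpos i).ne'
      intro w hw
      refine DifferentiableAt.differentiableWithinAt ?_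
      exact (differentiableAt_id.neg).const_cpow (Or.inl hne)
    · rw [norm_lam lam hpos]
      rcases le_or_gt 1 (lam i) with h | h
      · have : lam i ^ (-w.re) ≤ lam i ^ (-σ) :=
          Real.rpow_le_rpow_of_exponent_le h (by linarith [hw.1])
        have h2 := (Real.rpow_pos_of_pos (hpos i) (-M)).le
        linarith
      · have : lam i ^ (-w.re) ≤ lam i ^ (-M) :=
          Real.rpow_le_rpow_of_exponent_ge (hpos i) h.le (by linarith [hw.2])
        have h2 := (Real.rpow_pos_of_pos (hpos i) (-σ)).le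
        linarith
  exact hd.analyticAt (hopen.mem_nhds ⟨hσ2, by simp [hM]⟩)

end

end ZetaAux

open ZetaAux in
theorem zeta_cont {ι : Type} [Countable ι] (lam : ι → ℝ) (hpos : ∀ i, 0 < lam i)
    (hs : ∀ z : ℝ, 1 ≤ z → Summable fun i => 1 / (lam i + z) ^ 2) (A B C : ℝ)
    (h : ∀ z : ℝ, 1 ≤ z → |∑' i, 1 / (lam i + z) ^ 2 - A / z - B / z ^ 2| ≤
      C * z ^ (-(9 / 4) : ℝ)) :
    (∀ s : ℂ, 1 < s.re → Summable fun i => ((lam i : ℝ) : ℂ) ^ (-s)) ∧
    ∃ F : ℂ → ℂ, AnalyticOnNhd ℂ F ({s : ℂ | -(1 / 4) < s.re} \ {1}) ∧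
      ∀ s : ℂ, 1 < s.re → F s = ∑' i, ((lam i : ℝ) : ℂ) ^ (-s) := by
  have hs1 := hs 1 le_rfl
  have hK := tailB lam h
  refine ⟨fun s h1 => ?_, ?_⟩
  · refine Summable.of_norm ?_
    simp_rw [norm_lam lam hpos]
    exact summ_real lam hpos hs1 hK h1
  set G2 : ℝ → ℝ := fun z => ∑' i, 1 / (lam i + z) ^ 2 - A * (1 + z)⁻¹ -
    (A + B) * ((1 + z) ^ 2)⁻¹ with hG2
  set H : ℂ → ℂ := fun s => (Complex.Gamma s)⁻¹ * (Complex.Gamma (2 - s))⁻¹ *
    mellin (fun z => ((G2 z : ℝ) : ℂ)) (2 - s) + A / (s - 1) + (A + B) with hH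
  have hi1 : ContinuousOn (fun z : ℝ => (1 + z)⁻¹) (Ioi 0) := by
    intro z hz
    have h2 : (0 : ℝ) < z := hz
    exact (ContinuousAt.inv₀ (by fun_prop) (by positivity)).continuousWithinAt
  have hi2 : ContinuousOn (fun z : ℝ => ((1 + z) ^ 2)⁻¹) (Ioi 0) := by
    intro z hz
    have h2 : (0 : ℝ) < z := hz
    exact (ContinuousAt.inv₀ (by fun_prop) (by positivity)).continuousWithinAt
  have hc : ContinuousOn G2 (Ioi 0) :=
    ((G_cont lam hpos hs1).sub (hi1.const_smul A)).sub (hi2.const_smul (A + B))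
  have htop : ∀ z, 1 ≤ z → |G2 z| ≤ (C + (|A| + 3 * |B|)) * z ^ (-(9 / 4) : ℝ) := by
    intro z hz
    have hz0 : 0 < z := by linarith
    have e1 : G2 z = (∑' i, 1 / (lam i + z) ^ 2 - A / z - B / z ^ 2) +
        (A * (1 / (z * (1 + z) ^ 2)) + B * ((2 * z + 1) / (z ^ 2 * (1 + z) ^ 2))) := by
      simp only [hG2]
      field_simp
      ring
    have e2 : (z ^ 3)⁻¹ ≤ z ^ (-(9 / 4) : ℝ) := by
      have : (z ^ 3)⁻¹ = z ^ (-(3 : ℕ) : ℝ) := by
        rw [Real.rpow_neg hz0.le, Real.rpow_natCast]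
      rw [this]
      exact Real.rpow_le_rpow_of_exponent_le hz (by norm_num)
    have e3 : |A * (1 / (z * (1 + z) ^ 2))| ≤ |A| * (z ^ 3)⁻¹ := by
      rw [abs_mul, abs_of_pos (by positivity : 0 < 1 / (z * (1 + z) ^ 2)), ← one_div]
      refine mul_le_mul_of_nonneg_left ?_ (abs_nonneg A)
      apply one_div_le_one_div_of_le (by positivity)
      nlinarith [mul_pos hz0 hz0]
    have e4 : |B * ((2 * z + 1) / (z ^ 2 * (1 + z) ^ 2))| ≤ 3 * |B| * (z ^ 3)⁻¹ := by
      rw [abs_mul, abs_of_pos (by positivity : 0 < (2 * z + 1) / (z ^ 2 * (1 + z) ^ 2))]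
      rw [mul_comm 3 |B|, mul_assoc]
      refine mul_le_mul_of_nonneg_left ?_ (abs_nonneg B)
      rw [← div_eq_mul_inv, div_le_div_iff₀ (by positivity) (by positivity)]
      have h5 : (2 * z + 1) * z ≤ 3 * (1 + z) ^ 2 := by nlinarith
      nlinarith [mul_le_mul_of_nonneg_left h5 (by positivity : (0 : ℝ) ≤ z ^ 2)]
    rw [e1]
    have e5 := h z hz
    have e6 := abs_add_le (∑' i, 1 / (lam i + z) ^ 2 - A / z - B / z ^ 2)
      (A * (1 / (z * (1 + z) ^ 2)) + B * ((2 * z + 1) / (z ^ 2 * (1 + z) ^ 2)))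
    have e7 := abs_add_le (A * (1 / (z * (1 + z) ^ 2)))
      (B * ((2 * z + 1) / (z ^ 2 * (1 + z) ^ 2)))
    have e8 : |A| * (z ^ 3)⁻¹ ≤ |A| * z ^ (-(9 / 4) : ℝ) :=
      mul_le_mul_of_nonneg_left e2 (abs_nonneg A)
    have e9 : 3 * |B| * (z ^ 3)⁻¹ ≤ 3 * |B| * z ^ (-(9 / 4) : ℝ) :=
      mul_le_mul_of_nonneg_left e2 (by positivity)
    nlinarith
  have hbot : ∀ z, 0 < z → |G2 z| ≤ (∑' i, 1 / (lam i) ^ 2) + |A| + |A + B| := by
    intro z hz
    have e1 := G_bd lam hpos hs1 hz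
    have e2 : |A * (1 + z)⁻¹| ≤ |A| := by
      rw [abs_mul, abs_of_pos (by positivity : 0 < (1 + z)⁻¹)]
      refine mul_le_of_le_one_right (abs_nonneg A) ?_
      exact inv_le_one_of_one_le₀ (by linarith)
    have e3 : |(A + B) * ((1 + z) ^ 2)⁻¹| ≤ |A + B| := by
      rw [abs_mul, abs_of_pos (by positivity : 0 < ((1 + z) ^ 2)⁻¹)]
      refine mul_le_of_le_one_right (abs_nonneg _) ?_
      exact inv_le_one_of_one_le₀ (one_le_pow₀ (by linarith))
    simp only [hG2]
    have e4 := abs_sub (∑' i, 1 / (lam i + z) ^ 2 - A * (1 + z)⁻¹) ((A + B) * ((1 + z) ^ 2)⁻¹)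
    have e5 := abs_sub (∑' i, 1 / (lam i + z) ^ 2) (A * (1 + z)⁻¹)
    linarith
  have hHa : ∀ s : ℂ, -(1 / 4) < s.re → s.re < 2 → s ≠ 1 → AnalyticAt ℂ H s := by
    intro s h1 h2 h3
    have hopen : IsOpen ({w : ℂ | -(1 / 4) < w.re ∧ w.re < 2} \ {1}) :=
      ((isOpen_lt continuous_const Complex.continuous_re).inter
        (isOpen_lt Complex.continuous_re continuous_const)).sdiff isClosed_singleton
    have hd : DifferentiableOn ℂ H ({w : ℂ | -(1 / 4) < w.re ∧ w.re < 2} \ {1}) := by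
      intro w hw
      have hw1 : -(1 / 4) < w.re := hw.1.1
      have hw2 : w.re < 2 := hw.1.2
      have hw3 : w - 1 ≠ 0 := sub_ne_zero.2 hw.2
      refine DifferentiableAt.differentiableWithinAt ?_
      have d1 : DifferentiableAt ℂ (fun s : ℂ => (Complex.Gamma s)⁻¹) w :=
        Complex.differentiable_one_div_Gamma w
      have d2 : DifferentiableAt ℂ (fun s : ℂ => (Complex.Gamma (2 - s))⁻¹) w :=
        (Complex.differentiable_one_div_Gamma (2 - w)).comp w
          ((differentiableAt_const _).sub differentiableAt_id)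
      have d3 : DifferentiableAt ℂ (fun s : ℂ => mellin (fun z => ((G2 z : ℝ) : ℂ)) (2 - s)) w :=
        (mconv (p := 9 / 4) hc ⟨_, htop⟩ ⟨_, hbot⟩ (a := 2 - w) (by simp; linarith)
          (by simp; linarith)).2.comp w ((differentiableAt_const _).sub differentiableAt_id)
      have d4 : DifferentiableAt ℂ (fun s : ℂ => (A : ℂ) / (s - 1)) w :=
        (differentiableAt_const _).div (differentiableAt_id.sub (differentiableAt_const _)) hw3
      exact (((d1.mul d2).mul d3).add d4).add (differentiableAt_const _)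
    exact hd.analyticAt (hopen.mem_nhds ⟨⟨h1, h2⟩, h3⟩)
  have hHs : ∀ s : ℂ, 1 < s.re → s.re < 2 → H s = ∑' i, ((lam i : ℝ) : ℂ) ^ (-s) := by
    intro s h1 h2
    have hr0 : 0 < (2 - s).re := by simp; linarith
    have hr1 : (2 - s).re < 1 := by simp; linarith
    rw [(hasSum_series lam hpos hs1 hK h1 h2).tsum_eq]
    have m2 := (mconv (p := 9 / 4) hc ⟨_, htop⟩ ⟨_, hbot⟩ (a := 2 - s) hr0 (by linarith)).1
    have m3 : MellinConvergent (fun z : ℝ => (((1 + z)⁻¹ : ℝ) : ℂ)) (2 - s) := by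
      refine (mconv (p := 1) hi1 ⟨1, fun z hz => ?_⟩ ⟨1, fun z hz => ?_⟩ hr0 hr1).1
      · have hz0 : 0 < z := by linarith
        rw [Real.rpow_neg_one, one_mul, abs_of_pos (by positivity)]
        exact inv_anti₀ hz0 (by linarith)
      · rw [abs_of_pos (by positivity)]
        exact inv_le_one_of_one_le₀ (by linarith)
    have m4 : MellinConvergent (fun z : ℝ => ((((1 + z) ^ 2)⁻¹ : ℝ) : ℂ)) (2 - s) := by
      refine (mconv (p := 2) hi2 ⟨1, fun z hz => ?_⟩ ⟨1, fun z hz => ?_⟩ hr0 (by linarith)).1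
      · have hz0 : 0 < z := by linarith
        rw [Real.rpow_neg hz0.le, Real.rpow_two, one_mul, abs_of_pos (by positivity)]
        exact inv_anti₀ (by positivity) (pow_le_pow_left₀ hz0.le (by linarith) 2)
      · rw [abs_of_pos (by positivity)]
        exact inv_le_one_of_one_le₀ (one_le_pow₀ (by linarith))
    have m5 := hasMellin_add (hasMellin_add m2 (m3.const_smul (A : ℂ))).1
      (m4.const_smul ((A : ℂ) + B))
    have e1 : mellin (fun z : ℝ => ((∑' i, 1 / (lam i + z) ^ 2 : ℝ) : ℂ)) (2 - s) =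
        mellin (fun z => ((G2 z : ℝ) : ℂ)) (2 - s) +
          A * (Complex.Gamma (2 - s) * Complex.Gamma (s - 1)) +
          (A + B) * (Complex.Gamma (2 - s) * Complex.Gamma s) := by
      have e2 := m5.2
      rw [(hasMellin_add m2 (m3.const_smul (A : ℂ))).2, mellin_const_smul, mellin_const_smul,
        mellin_inv_one hr0 hr1, mellin_inv_two hr0 (by linarith)] at e2
      rw [show 1 - (2 - s) = s - 1 by ring, show 2 - (2 - s) = s by ring] at e2
      rw [smul_eq_mul, smul_eq_mul] at e2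
      rw [← e2]
      congr 1
      funext z
      simp only [hG2, smul_eq_mul]
      push_cast
      ring
    have hg1 : Complex.Gamma s ≠ 0 := Complex.Gamma_ne_zero_of_re_pos (by linarith)
    have hg2 : Complex.Gamma (2 - s) ≠ 0 := Complex.Gamma_ne_zero_of_re_pos hr0
    have hg3 : Complex.Gamma (s - 1) ≠ 0 := Complex.Gamma_ne_zero_of_re_pos (by simp; linarith)
    have hs0 : s - 1 ≠ 0 := by
      intro h0
      have : (s - 1).re = 0 := by rw [h0]; simp
      simp at this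
      linarith
    have hg4 : Complex.Gamma s = (s - 1) * Complex.Gamma (s - 1) := by
      have := Complex.Gamma_add_one (s - 1) hs0
      rwa [sub_add_cancel] at this
    rw [e1]
    simp only [hH]
    rw [mul_add, mul_add]
    congr 1
    · congr 1
      rw [hg4]
      field_simp
    · field_simp
  refine ⟨fun s => if 1 < s.re then ∑' i, ((lam i : ℝ) : ℂ) ^ (-s) else H s, ?_, ?_⟩
  · rintro s ⟨h1, h2⟩
    have h1' : -(1 / 4) < s.re := h1
    have h2' : s ≠ 1 := h2
    rcases lt_or_ge 1 s.re with h3 | h3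
    · refine (diff_series lam hpos hs1 hK h3).congr ?_
      have : ∀ᶠ w : ℂ in 𝓝 s, 1 < w.re :=
        (isOpen_lt continuous_const Complex.continuous_re).mem_nhds h3
      filter_upwards [this] with w hw
      rw [if_pos hw]
    · refine (hHa s h1' (by linarith) h2').congr ?_
      have : ∀ᶠ w : ℂ in 𝓝 s, w.re < 2 :=
        (isOpen_lt Complex.continuous_re continuous_const).mem_nhds (by
          show s.re < 2
          linarith)
      filter_upwards [this] with w hw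
      split_ifs with h4
      · exact hHs w h4 hw
      · rfl
  · intro s h1
    simp only [if_pos h1]

end LQZ
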