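import Pool.Agent.LQZ.Spec
import Pool.Agent.LQZ.Trace
import Pool.Agent.LQZ.Asym
import Pool.Agent.LQZ.Zeta

/-! # Project LQZ, module ZFIN: zeta function of a metric -/

open MeasureTheory Set Filter Topology InnerProductSpace
open scoped ContDiff ENNReal NNReal Real

namespace LQZ

noncomputable section

variable {ψ φ φ' : ℂ → ℝ} {a a' : ℂ → ℂ} {D D' : ℂ → ℝ}

/-- the domain of the continuation -/
def zU : Set ℂ := ({s : ℂ | 1 < s.re} ∪ {s : ℂ | -(1 / 4) < s.re ∧ 1 < s.im}) ∪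
  {s : ℂ | -(1 / 4) < s.re ∧ s.re < 1}

theorem zU_open : IsOpen zU := by
  refine ((isOpen_lt continuous_const Complex.continuous_re).union
    ((isOpen_lt continuous_const Complex.continuous_re).inter
      (isOpen_lt continuous_const Complex.continuous_im))).union
    ((isOpen_lt continuous_const Complex.continuous_re).inter
      (isOpen_lt Complex.continuous_re continuous_const))

theorem zU_preconnected : IsPreconnected zU := by
  have h1 : IsPreconnected {s : ℂ | 1 < s.re} :=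
    (convex_halfSpace_re_gt 1).isPreconnected
  have h2 : IsPreconnected {s : ℂ | -(1 / 4) < s.re ∧ 1 < s.im} :=
    ((convex_halfSpace_re_gt (-(1 / 4))).inter (convex_halfSpace_im_gt 1)).isPreconnected
  have h3 : IsPreconnected {s : ℂ | -(1 / 4) < s.re ∧ s.re < 1} :=
    ((convex_halfSpace_re_gt (-(1 / 4))).inter (convex_halfSpace_re_lt 1)).isPreconnected
  have h12 := IsPreconnected.union (⟨2, 2⟩ : ℂ) (s := {s : ℂ | 1 < s.re})
    (t := {s : ℂ | -(1 / 4) < s.re ∧ 1 < s.im}) (by norm_num [Set.mem_ofPred_eq])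
    (by norm_num [Set.mem_ofPred_eq]) h1 h2
  exact IsPreconnected.union (⟨0, 2⟩ : ℂ) (Or.inr (by norm_num [Set.mem_ofPred_eq]))
    (by norm_num [Set.mem_ofPred_eq]) h12 h3

theorem zU_sub : zU ⊆ {s : ℂ | -(1 / 4) < s.re} \ {1} := by
  rintro s ((hs | hs) | hs)
  · refine ⟨?_, ?_⟩
    · have : (1 : ℝ) < s.re := hs
      show -(1 / 4) < s.re
      linarith
    · rintro rfl
      have : (1 : ℝ) < (1 : ℂ).re := hs
      norm_num at this
  · refine ⟨hs.1, ?_⟩
    rintro rfl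
    have : (1 : ℝ) < (1 : ℂ).im := hs.2
    norm_num at this
  · refine ⟨hs.1, ?_⟩
    rintro rfl
    have : (1 : ℂ).re < 1 := hs.2
    norm_num at this

/-- regrouping the sum over the basis by eigenvalues -/
theorem zfin_regroup {ι : Type} (b : HilbertBasis ι ℝ (Lp ℝ 2 (vol φ))) (lam : ι → ℝ)
    (hs : IsSpec φ b lam) {s : ℂ}
    (h : Summable fun i : {i // 0 < lam i} => ((lam i : ℝ) : ℂ) ^ (-s)) :
    HasSum (fun l : {l : ℝ // 0 < l} =>
      (Module.finrank ℝ (eigenspace φ l) : ℂ) * ((l : ℝ) : ℂ) ^ (-s))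
      (∑' i : {i // 0 < lam i}, ((lam i : ℝ) : ℂ) ^ (-s)) := by
  set f : {i // 0 < lam i} → {l : ℝ // 0 < l} := fun i => ⟨lam i, i.2⟩ with hf
  have h1 : HasSum (fun p : Σ l : {l : ℝ // 0 < l}, {i // f i = l} =>
      ((lam (p.2 : {i // 0 < lam i}) : ℝ) : ℂ) ^ (-s))
      (∑' i : {i // 0 < lam i}, ((lam i : ℝ) : ℂ) ^ (-s)) := by
    have := (Equiv.hasSum_iff (Equiv.sigmaFiberEquiv f)).2 h.hasSum
    exact this
  refine h1.sigma fun l => ?_
  have hfin : Finite {i // f i = l} := by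
    have hF := (hs.fin l)
    have : Finite {i | lam i ≤ (l : ℝ)} := hF
    refine Finite.of_injective (fun i : {i // f i = l} =>
      (⟨((i : {i // 0 < lam i}) : ι), ?_⟩ : {i | lam i ≤ (l : ℝ)})) ?_
    · have h2 := congrArg Subtype.val i.2
      exact le_of_eq h2
    · intro i j hij
      have h2 := congrArg Subtype.val hij
      exact Subtype.ext (Subtype.ext h2)
  have hft : Fintype {i // f i = l} := Fintype.ofFinite _
  have hcard : Module.finrank ℝ (eigenspace φ l) = Fintype.card {i // f i = l} := by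
    rw [hs.mult l l.2, ← Nat.card_eq_fintype_card]
    refine Nat.card_congr ?_
    refine ⟨fun i => ⟨⟨i.1, by rw [i.2]; exact l.2⟩, Subtype.ext i.2⟩,
      fun i => ⟨i.1.1, congrArg Subtype.val i.2⟩, fun i => rfl, fun i => rfl⟩
  have h3 := hasSum_fintype (fun c : {i // f i = l} => ((lam (c : {i // 0 < lam i}) : ℝ) : ℂ) ^ (-s))
  have h4 : ∑ c : {i // f i = l}, ((lam (c : {i // 0 < lam i}) : ℝ) : ℂ) ^ (-s) =
      (Module.finrank ℝ (eigenspace φ l) : ℂ) * ((l : ℝ) : ℂ) ^ (-s) := by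
    rw [hcard]
    have : ∀ c : {i // f i = l}, ((lam (c : {i // 0 < lam i}) : ℝ) : ℂ) ^ (-s) =
        ((l : ℝ) : ℂ) ^ (-s) := by
      intro c
      have h2 := congrArg Subtype.val c.2
      simp only [hf] at h2
      rw [h2]
    rw [Finset.sum_congr rfl fun c _ => this c, Finset.sum_const, nsmul_eq_mul]
    rfl
  rw [h4] at h3
  exact h3

theorem zfin_split {ι : Type} (lam : ι → ℝ) (hnn : ∀ i, 0 ≤ lam i) (hz : ∃! i, lam i = 0) {z : ℝ}
    (hsum : Summable fun i => 1 / (lam i + z) ^ 2) :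
    Summable (fun i : {i // 0 < lam i} => 1 / (lam i + z) ^ 2) ∧
      ∑' i : {i // 0 < lam i}, 1 / (lam i + z) ^ 2 = ∑' i, 1 / (lam i + z) ^ 2 - 1 / z ^ 2 := by
  obtain ⟨i0, hi0, huniq⟩ := hz
  set f : ι → ℝ := fun i => 1 / (lam i + z) ^ 2 with hf
  set s : Set ι := {i | 0 < lam i} with hs
  have hset : sᶜ = {i0} := by
    ext i
    simp only [hs, mem_compl_iff, mem_setOf_eq, not_lt, mem_singleton_iff]
    constructor
    · intro hi
      exact huniq i (le_antisymm hi (hnn i))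
    · rintro rfl
      exact hi0.le
  have hsub : Summable (f ∘ ((↑) : s → ι)) := hsum.subtype s
  have hsub2 : Summable (f ∘ ((↑) : (sᶜ : Set ι) → ι)) := hsum.subtype sᶜ
  have e := Summable.tsum_add_tsum_compl (f := f) (s := s) hsub hsub2
  have e2 : ∑' i : (sᶜ : Set ι), f i = 1 / z ^ 2 := by
    rw [hset, tsum_singleton i0 f]
    simp only [hf]
    rw [hi0, zero_add]
  rw [e2] at e
  refine ⟨hsub, ?_⟩
  have e3 : ∑' i : {i // 0 < lam i}, f i = ∑' i : s, f i := rfl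
  rw [e3]
  linarith

theorem isMet_zeta (hM : IsMet φ φ' a a' D D') : DiscreteSpectrum φ ∧ ZetaExtends φ := by
  have hg : IsGrow φ := hM.c0.toIsGrow
  obtain ⟨⟨ι, hι, b, lam, hs⟩, hds⟩ := exists_spec hg
  obtain ⟨C1, h1⟩ := trace_step hM b lam hs
  obtain ⟨A, B, C2, h2⟩ := trace_main hM
  -- the sum over positive eigenvalues
  have hsplit : ∀ z : ℝ, 1 ≤ z →
      Summable (fun i : {i // 0 < lam i} => 1 / (lam i + z) ^ 2) ∧
      ∑' i : {i // 0 < lam i}, 1 / (lam i + z) ^ 2 = ∑' i, 1 / (lam i + z) ^ 2 - 1 / z ^ 2 :=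
    fun z hz => zfin_split lam hs.nonneg hs.zero (h1 z hz).1
  have hmain : ∀ z : ℝ, 1 ≤ z →
      |∑' i : {i // 0 < lam i}, 1 / (lam i + z) ^ 2 - A / z - (B - 1) / z ^ 2| ≤
        (|C1| + C2) * z ^ (-(9 / 4) : ℝ) := by
    intro z hz
    have hz0 : 0 < z := by linarith
    have k1 := (h1 z hz).2
    have k2 := h2 z hz
    rw [(hsplit z hz).2]
    have k3 : C1 * z ^ (-(5 / 2) : ℝ) ≤ |C1| * z ^ (-(9 / 4) : ℝ) := by
      refine mul_le_mul (le_abs_self _) ?_ (by positivity) (abs_nonneg _)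
      exact Real.rpow_le_rpow_of_exponent_le hz (by norm_num)
    have e : ∑' i, 1 / (lam i + z) ^ 2 - 1 / z ^ 2 - A / z - (B - 1) / z ^ 2 =
        (∑' i, 1 / (lam i + z) ^ 2 -
        (∫ x, ∫ y, PK φ a z x y ^ 2 ∂(vol φ) ∂(vol φ) -
          2 * ∫ x, ∫ y, MK φ a z x y * EK φ a z x y ∂(vol φ) ∂(vol φ))) +
        (∫ x, ∫ y, PK φ a z x y ^ 2 ∂(vol φ) ∂(vol φ) -
      2 * ∫ x, ∫ y, MK φ a z x y * EK φ a z x y ∂(vol φ) ∂(vol φ) - A / z - B / z ^ 2) := by
      field_simp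
      ring
    rw [e]
    refine (abs_add_le _ _).trans ?_
    rw [add_mul]
    exact add_le_add (k1.trans k3) k2
  obtain ⟨hsz, F, hF, hFe⟩ := zeta_cont (fun i : {i // 0 < lam i} => lam i) (fun i => i.2)
    (fun z hz => (hsplit z hz).1) A (B - 1) (|C1| + C2) hmain
  have hreg := fun (s : ℂ) (hs1 : 1 < s.re) => zfin_regroup b lam hs (hsz s hs1)
  refine ⟨hds fun s hs1 => (hreg s hs1).summable, zU, zU_open, zU_preconnected, ?_, ?_, F, ?_, ?_⟩
  · intro s hs1
    exact Or.inl (Or.inl hs1)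
  · right
    norm_num [Set.mem_ofPred_eq]
  · exact fun s hs1 => hF s (zU_sub hs1)
  · intro s hs1
    rw [hFe s hs1, specZeta, (hreg s hs1).tsum_eq]

end

end LQZ
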